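import Pool.Agent.Lib_helper67.QE.Bdd

/-!
Sequences of functions which are bounded in `L⁴` on compact sets together with all their
semiclassical derivatives.
-/

open Complex MeasureTheory Filter Topology
open scoped ContDiff

namespace QE

noncomputable section

/-- bounded in `L⁴` on compact sets together with the semiclassical derivatives of order `≤ k` -/
def TameK (U : Set ℂ) (h : ℕ → ℝ) : ℕ → (ℕ → ℂ → ℂ) → Prop
  | 0, u => LBdd 4 U u
  | k + 1, u => LBdd 4 U u ∧ TameK U h k (fun n z => (h n : ℂ) * dz (u n) z) ∧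
      TameK U h k (fun n z => (h n : ℂ) * dzb (u n) z)

variable {U : Set ℂ} {h : ℕ → ℝ}

theorem SmoothSeq.dAt {u : ℕ → ℂ → ℂ} (hU : IsOpen U) (hu : SmoothSeq U u) (n : ℕ) {z : ℂ}
    (hz : z ∈ U) : DifferentiableAt ℝ (u n) z :=
  ((hu n).contDiffAt (hU.mem_nhds hz)).differentiableAt (by simp)

theorem SmoothSeq.hdz (hU : IsOpen U) {u : ℕ → ℂ → ℂ} (hu : SmoothSeq U u) :
    SmoothSeq U (fun n z => (h n : ℂ) * QE.dz (u n) z) :=
  (SmoothSeq.dz hU hu).const_mul _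

theorem SmoothSeq.hdzb (hU : IsOpen U) {u : ℕ → ℂ → ℂ} (hu : SmoothSeq U u) :
    SmoothSeq U (fun n z => (h n : ℂ) * QE.dzb (u n) z) :=
  (SmoothSeq.dzb hU hu).const_mul _

theorem SmoothSeq.congr {u v : ℕ → ℂ → ℂ} (hu : SmoothSeq U u)
    (he : ∀ n, ∀ z ∈ U, u n z = v n z) : SmoothSeq U v := fun n =>
  (hu n).congr fun z hz => (he n z hz).symm

theorem TameK.congr (hU : IsOpen U) {k : ℕ} : ∀ {u v : ℕ → ℂ → ℂ}, TameK U h k u →
    (∀ n, ∀ z ∈ U, u n z = v n z) → TameK U h k v := by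
  induction k with
  | zero => intro u v hu he; exact LBdd.congr hu he
  | succ k ih =>
    intro u v hu he
    refine ⟨hu.1.congr he, ih hu.2.1 fun n z hz => ?_, ih hu.2.2 fun n z hz => ?_⟩
    · rw [dz_congr_on hU (he n) hz]
    · rw [dzb_congr_on hU (he n) hz]

theorem TameK.bdd {k : ℕ} {u : ℕ → ℂ → ℂ} (hu : TameK U h k u) : LBdd 4 U u := by
  cases k with
  | zero => exact hu
  | succ k => exact hu.1

theorem TameK.mono {k : ℕ} : ∀ {u : ℕ → ℂ → ℂ}, TameK U h (k + 1) u → TameK U h k u := by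
  induction k with
  | zero => intro u hu; exact hu.1
  | succ k ih => intro u hu; exact ⟨hu.1, ih hu.2.1, ih hu.2.2⟩

theorem TameK.add (hU : IsOpen U) {k : ℕ} : ∀ {u v : ℕ → ℂ → ℂ}, TameK U h k u → SmoothSeq U u →
    TameK U h k v → SmoothSeq U v → TameK U h k (fun n z => u n z + v n z) := by
  induction k with
  | zero => intro u v hu su hv sv; exact LBdd.add hu su hv sv
  | succ k ih =>
    intro u v hu su hv sv
    refine ⟨hu.1.add su hv.1 sv, ?_, ?_⟩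
    · refine (ih hu.2.1 (su.hdz hU) hv.2.1 (sv.hdz hU)).congr hU fun n z hz => ?_
      rw [dz_add (su.dAt hU n hz) (sv.dAt hU n hz)]; ring
    · refine (ih hu.2.2 (su.hdzb hU) hv.2.2 (sv.hdzb hU)).congr hU fun n z hz => ?_
      rw [dzb_add (su.dAt hU n hz) (sv.dAt hU n hz)]; ring

theorem TameK.const_mul (hU : IsOpen U) {c : ℕ → ℂ} {B : ℝ} (hc : ∀ᶠ n in atTop, ‖c n‖ ≤ B)
    {k : ℕ} : ∀ {u : ℕ → ℂ → ℂ}, TameK U h k u → SmoothSeq U u →
    TameK U h k (fun n z => c n * u n z) := by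
  induction k with
  | zero => intro u hu su; exact LBdd.const_mul hu su hc
  | succ k ih =>
    intro u hu su
    refine ⟨hu.1.const_mul su hc, ?_, ?_⟩
    · refine (ih hu.2.1 (su.hdz hU)).congr hU fun n z hz => ?_
      rw [dz_const_mul _ (su.dAt hU n hz)]; ring
    · refine (ih hu.2.2 (su.hdzb hU)).congr hU fun n z hz => ?_
      rw [dzb_const_mul _ (su.dAt hU n hz)]; ring

theorem TameK.conj (hU : IsOpen U) {k : ℕ} : ∀ {u : ℕ → ℂ → ℂ}, TameK U h k u → SmoothSeq U u →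
    TameK U h k (fun n z => (starRingEnd ℂ) (u n z)) := by
  induction k with
  | zero => intro u hu _; exact LBdd.conj hu
  | succ k ih =>
    intro u hu su
    refine ⟨hu.1.conj, ?_, ?_⟩
    · refine (ih hu.2.2 (su.hdzb hU)).congr hU fun n z hz => ?_
      rw [dz_conj (su.dAt hU n hz)]; simp
    · refine (ih hu.2.1 (su.hdz hU)).congr hU fun n z hz => ?_
      rw [dzb_conj (su.dAt hU n hz)]; simp

theorem hbd (hh0 : Tendsto h atTop (𝓝 0)) : ∀ᶠ n in atTop, ‖((h n : ℝ) : ℂ)‖ ≤ 1 := by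
  have := (hh0.eventually (Metric.ball_mem_nhds (0 : ℝ) one_pos))
  filter_upwards [this] with n hn
  rw [Complex.norm_real]
  simpa [Real.dist_eq] using (le_of_lt hn)

theorem TameK.fn_mul (hU : IsOpen U) (hh0 : Tendsto h atTop (𝓝 0)) {k : ℕ} :
    ∀ {u : ℕ → ℂ → ℂ} {b : ℂ → ℂ}, TameK U h k u → SmoothSeq U u →
    ContDiffOn ℝ ∞ b U → TameK U h k (fun n z => b z * u n z) := by
  induction k with
  | zero => intro u b hu su hb; exact LBdd.fn_mul hu su hb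
  | succ k ih =>
    intro u b hu su hb
    have hbz := contDiffOn_dz hU hb
    have hbzb := contDiffOn_dzb hU hb
    have hbd' : ∀ z ∈ U, DifferentiableAt ℝ b z := fun z hz =>
      (hb.contDiffAt (hU.mem_nhds hz)).differentiableAt (by simp)
    refine ⟨hu.1.fn_mul su hb, ?_, ?_⟩
    · have t1 := ih hu.2.1 (su.hdz hU) hb
      have t2 := (ih hu.mono su hbz).const_mul hU (hbd hh0) (su.fn_mul hbz)
      refine (t1.add hU ((su.hdz hU).fn_mul hb) t2 ((su.fn_mul hbz).const_mul _)).congr hU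
        fun n z hz => ?_
      rw [dz_mul (hbd' z hz) (su.dAt hU n hz)]; ring
    · have t1 := ih hu.2.2 (su.hdzb hU) hb
      have t2 := (ih hu.mono su hbzb).const_mul hU (hbd hh0) (su.fn_mul hbzb)
      refine (t1.add hU ((su.hdzb hU).fn_mul hb) t2 ((su.fn_mul hbzb).const_mul _)).congr hU
        fun n z hz => ?_
      rw [dzb_mul (hbd' z hz) (su.dAt hU n hz)]; ring

/-- smooth sequences, bounded in `L⁴` on compact sets with all semiclassical derivatives -/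
structure Tame (U : Set ℂ) (h : ℕ → ℝ) (u : ℕ → ℂ → ℂ) : Prop where
  smooth : SmoothSeq U u
  bdd : ∀ k, TameK U h k u

theorem Tame.bdd4 {u : ℕ → ℂ → ℂ} (hu : Tame U h u) : LBdd 4 U u := hu.bdd 0

theorem Tame.congr (hU : IsOpen U) {u v : ℕ → ℂ → ℂ} (hu : Tame U h u)
    (he : ∀ n, ∀ z ∈ U, u n z = v n z) : Tame U h v :=
  ⟨hu.smooth.congr he, fun k => (hu.bdd k).congr hU he⟩

theorem Tame.add (hU : IsOpen U) {u v : ℕ → ℂ → ℂ} (hu : Tame U h u) (hv : Tame U h v) :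
    Tame U h (fun n z => u n z + v n z) :=
  ⟨hu.smooth.add hv.smooth, fun k => (hu.bdd k).add hU hu.smooth (hv.bdd k) hv.smooth⟩

theorem Tame.const_mul (hU : IsOpen U) {c : ℕ → ℂ} {B : ℝ} (hc : ∀ᶠ n in atTop, ‖c n‖ ≤ B)
    {u : ℕ → ℂ → ℂ} (hu : Tame U h u) : Tame U h (fun n z => c n * u n z) :=
  ⟨hu.smooth.const_mul c, fun k => (hu.bdd k).const_mul hU hc hu.smooth⟩

theorem Tame.smul (hU : IsOpen U) (c : ℂ) {u : ℕ → ℂ → ℂ} (hu : Tame U h u) :
    Tame U h (fun n z => c * u n z) :=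
  hu.const_mul hU (c := fun _ => c) (B := ‖c‖) (Filter.Eventually.of_forall fun _ => le_rfl)

theorem Tame.conj (hU : IsOpen U) {u : ℕ → ℂ → ℂ} (hu : Tame U h u) :
    Tame U h (fun n z => (starRingEnd ℂ) (u n z)) :=
  ⟨hu.smooth.conj, fun k => (hu.bdd k).conj hU hu.smooth⟩

theorem Tame.fn_mul (hU : IsOpen U) (hh0 : Tendsto h atTop (𝓝 0)) {u : ℕ → ℂ → ℂ}
    (hu : Tame U h u) {b : ℂ → ℂ} (hb : ContDiffOn ℝ ∞ b U) : Tame U h (fun n z => b z * u n z) :=
  ⟨hu.smooth.fn_mul hb, fun k => (hu.bdd k).fn_mul hU hh0 hu.smooth hb⟩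

theorem Tame.hdz (hU : IsOpen U) {u : ℕ → ℂ → ℂ} (hu : Tame U h u) :
    Tame U h (fun n z => (h n : ℂ) * QE.dz (u n) z) :=
  ⟨hu.smooth.hdz hU, fun k => (hu.bdd (k + 1)).2.1⟩

theorem Tame.hdzb (hU : IsOpen U) {u : ℕ → ℂ → ℂ} (hu : Tame U h u) :
    Tame U h (fun n z => (h n : ℂ) * QE.dzb (u n) z) :=
  ⟨hu.smooth.hdzb hU, fun k => (hu.bdd (k + 1)).2.2⟩

/-- the semiclassical Laplacian `h² ∂ ∂̄` -/
def hLap (h : ℕ → ℝ) (v : ℕ → ℂ → ℂ) : ℕ → ℂ → ℂ := fun n z => ((h n : ℂ)) ^ 2 * dz (dzb (v n)) z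

/-- the interior elliptic estimate at scale `h` in `L⁴` -/
def EllProp (U : Set ℂ) (h : ℕ → ℝ) : Prop :=
  ∀ v : ℕ → ℂ → ℂ, SmoothSeq U v → LBdd 4 U v → LBdd 4 U (hLap h v) →
    LBdd 4 U (fun n z => (h n : ℂ) * dz (v n) z)

theorem SmoothSeq.hLap (hU : IsOpen U) {v : ℕ → ℂ → ℂ} (hv : SmoothSeq U v) :
    SmoothSeq U (QE.hLap h v) :=
  (SmoothSeq.dz hU (SmoothSeq.dzb hU hv)).const_mul _

theorem EllProp.dzb (hU : IsOpen U) (hE : EllProp U h) {v : ℕ → ℂ → ℂ} (hv : SmoothSeq U v)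
    (h1 : LBdd 4 U v) (h2 : LBdd 4 U (hLap h v)) : LBdd 4 U (fun n z => (h n : ℂ) * QE.dzb (v n) z) := by
  have h3 : LBdd 4 U (QE.hLap h (fun n z => (starRingEnd ℂ) (v n z))) := by
    refine h2.conj.congr fun n z hz => ?_
    unfold QE.hLap
    rw [dz_congr_on hU (f := QE.dzb fun w => (starRingEnd ℂ) (v n w))
      (g := fun w => (starRingEnd ℂ) (QE.dz (v n) w)) (fun w hw => dzb_conj (hv.dAt hU n hw)) hz,
      dz_conj ((SmoothSeq.dz hU hv).dAt hU n hz), map_mul, map_pow, conj_ofReal,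
      dz_dzb_comm (((hv n).contDiffAt (hU.mem_nhds hz)).of_le (WithTop.coe_le_coe.2 le_top))]
  have h4 := (hE _ hv.conj h1.conj h3).conj
  refine h4.congr fun n z hz => ?_
  rw [dz_conj (hv.dAt hU n hz)]; simp

theorem tameK_of_elliptic (hU : IsOpen U) (hE : EllProp U h) {k : ℕ} :
    ∀ {v : ℕ → ℂ → ℂ}, SmoothSeq U v → TameK U h k v → TameK U h k (hLap h v) →
      TameK U h (k + 1) v := by
  have hc : ∀ (v : ℕ → ℂ → ℂ), SmoothSeq U v → ∀ n, ∀ z ∈ U, dz (QE.dzb (v n)) z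
      = QE.dzb (dz (v n)) z := fun v hv n z hz =>
    dz_dzb_comm (((hv n).contDiffAt (hU.mem_nhds hz)).of_le (WithTop.coe_le_coe.2 le_top))
  induction k with
  | zero => intro v hv h1 h2; exact ⟨h1, hE v hv h1 h2, hE.dzb hU hv h1 h2⟩
  | succ k ih =>
    intro v hv h1 h2
    refine ⟨h1.1, ih (hv.hdz hU) h1.2.1 ?_, ih (hv.hdzb hU) h1.2.2 ?_⟩
    · refine h2.2.1.congr hU fun n z hz => ?_
      have e1 : ∀ w ∈ U, QE.dzb (fun w => (h n : ℂ) * dz (v n) w) w = (h n : ℂ) * dz (QE.dzb (v n)) w := by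
        intro w hw
        rw [dzb_const_mul _ ((SmoothSeq.dz hU hv).dAt hU n hw), hc v hv n w hw]
      unfold QE.hLap
      rw [dz_congr_on hU e1 hz, dz_const_mul _ ((SmoothSeq.dz hU (SmoothSeq.dzb hU hv)).dAt hU n hz),
        dz_const_mul _ ((SmoothSeq.dz hU (SmoothSeq.dzb hU hv)).dAt hU n hz)]
      ring
    · refine h2.2.2.congr hU fun n z hz => ?_
      have e1 : ∀ w ∈ U, QE.dzb (fun w => (h n : ℂ) * QE.dzb (v n) w) w
          = (h n : ℂ) * QE.dzb (QE.dzb (v n)) w := by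
        intro w hw
        rw [dzb_const_mul _ ((SmoothSeq.dzb hU hv).dAt hU n hw)]
      have e2 := hc (fun n => QE.dzb (v n)) (SmoothSeq.dzb hU hv) n
      unfold QE.hLap
      rw [dz_congr_on hU e1 hz,
        dz_const_mul _ ((SmoothSeq.dzb hU (SmoothSeq.dzb hU hv)).dAt hU n hz), e2 z hz,
        dzb_const_mul _ ((SmoothSeq.dz hU (SmoothSeq.dzb hU hv)).dAt hU n hz)]
      ring

/-- a sequence bounded in `L⁴` whose semiclassical Laplacian is a smooth multiple of itself -/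
theorem tame_of_eigen (hU : IsOpen U) (hh0 : Tendsto h atTop (𝓝 0)) (hE : EllProp U h)
    {v : ℕ → ℂ → ℂ} (hv : SmoothSeq U v) (h1 : LBdd 4 U v) {b : ℂ → ℂ} (hb : ContDiffOn ℝ ∞ b U)
    (he : ∀ n, ∀ z ∈ U, hLap h v n z = b z * v n z) : Tame U h v := by
  refine ⟨hv, fun k => ?_⟩
  induction k with
  | zero => exact h1
  | succ k ih =>
    exact tameK_of_elliptic hU hE hv ih ((ih.fn_mul hU hh0 hv hb).congr hU
      fun n z hz => (he n z hz).symm)

end

end QE
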