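import Pool.Agent.Lib_helper67.QE.Bdd

/-!
Smooth cutoff functions.
-/

open Complex MeasureTheory Filter Topology
open scoped ContDiff Manifold

namespace QE

noncomputable section

/-- a test function which is one near the compact set `K` -/
theorem exists_cutoff {U K : Set ℂ} (hU : IsOpen U) (hK : IsCompact K) (hKU : K ⊆ U) :
    ∃ χ : ℂ → ℂ, Test U χ ∧ (∀ z ∈ K, ∀ᶠ w in 𝓝 z, χ w = 1) ∧ (∀ z, ‖χ z‖ ≤ 1) := by
  obtain ⟨K', hK', hKK', hK'U⟩ := exists_compact_between hK hU hKU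
  obtain ⟨f, hf1, hf2, hf3⟩ := exists_contMDiffMap_one_nhds_of_subset_interior (n := (⊤ : ℕ∞)) 𝓘(ℝ, ℂ)
    hK.isClosed hKK'
  have hfs : ContDiff ℝ ∞ (f : ℂ → ℝ) := f.contMDiff.contDiff
  have hsupp : Function.support (fun z => (f z : ℂ)) ⊆ K' := by
    intro z hz
    by_contra h
    exact hz (by simp [hf2 z h])
  have hts : tsupport (fun z => (f z : ℂ)) ⊆ K' :=
    closure_minimal hsupp hK'.isClosed
  refine ⟨fun z => (f z : ℂ), ⟨ofRealCLM.contDiff.comp hfs,
    hK'.of_isClosed_subset (isClosed_tsupport _) hts, hts.trans hK'U⟩, ?_, ?_⟩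
  · intro z hz
    have := hf1.filter_mono (nhds_le_nhdsSet hz)
    filter_upwards [this] with w hw
    simp [hw]
  · intro z
    obtain ⟨h1, h2⟩ := hf3 z
    rw [Complex.norm_real, Real.norm_of_nonneg h1]
    exact h2

end

end QE
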