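import Pool.Agent.Lib_helper67.QE.Defs
import Pool.Agent.Lib_helper67.QE.Cutoff

/-!
Reduction of the local theorem to sequences which are bounded in `L⁴` and to smooth test functions
(helper70).
-/

open Complex MeasureTheory Filter Topology
open scoped ContDiff Manifold

namespace QE

noncomputable section

/-- the local theorem for sequences which are bounded in `L⁴` and smooth test functions -/
def BddIneq (g : ℂ → ℝ) : Prop :=
  ∀ V : Set ℂ, IsOpen V → ContDiffOn ℝ ∞ g V → (∀ z ∈ V, 0 < g z) →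
    ∀ (h : ℕ → ℝ) (φ : ℕ → ℂ → ℂ), LocalQE V g h φ → LBdd 4 V φ →
      ∀ ζ : ℂ → ℝ, ContDiff ℝ ∞ ζ → HasCompactSupport ζ → tsupport ζ ⊆ V → (∀ z, 0 ≤ ζ z) →
        ∀ ε > 0, ∀ᶠ n in atTop, 3 * (∫ z, ζ z) - ε ≤ ∫ z, ζ z * (φ n z).re ^ 4

theorem LocalQE.mono {U V : Set ℂ} {g : ℂ → ℝ} {h : ℕ → ℝ} {φ : ℕ → ℂ → ℂ}
    (H : LocalQE U g h φ) (hVU : V ⊆ U) : LocalQE V g h φ where
  hpos := H.hpos
  hlim := H.hlim
  smooth := fun n => (H.smooth n).mono hVU
  real := fun n z hz => H.real n z (hVU hz)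
  eig := fun n z hz => H.eig n z (hVU hz)
  mass := fun ζ hζ => H.mass ζ (hζ.mono hVU)
  mom := fun k hk ζ hζ => H.mom k hk ζ (hζ.mono hVU)

theorem LocalQE.comp {U : Set ℂ} {g : ℂ → ℝ} {h : ℕ → ℝ} {φ : ℕ → ℂ → ℂ}
    (H : LocalQE U g h φ) {s : ℕ → ℕ} (hs : StrictMono s) :
    LocalQE U g (fun n => h (s n)) (fun n => φ (s n)) where
  hpos := fun n => H.hpos _
  hlim := H.hlim.comp hs.tendsto_atTop
  smooth := fun n => H.smooth _
  real := fun n => H.real _
  eig := fun n => H.eig _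
  mass := fun ζ hζ => (H.mass ζ hζ).comp hs.tendsto_atTop
  mom := fun k hk ζ hζ => (H.mom k hk ζ hζ).comp hs.tendsto_atTop

/-- a compactly supported continuous function times a function continuous on a neighbourhood of its
support is continuous -/
theorem continuous_mul_of_tsupport {U : Set ℂ} (hU : IsOpen U) {ζ f : ℂ → ℝ} (hc : Continuous ζ)
    (hsub : tsupport ζ ⊆ U) (hf : ContinuousOn f U) : Continuous (fun z => ζ z * f z) := by
  rw [continuous_iff_continuousAt]
  intro z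
  by_cases hz : z ∈ U
  · exact hc.continuousAt.mul (hf.continuousAt (hU.mem_nhds hz))
  · have hz' : z ∉ tsupport ζ := fun hh => hz (hsub hh)
    have : (fun z => ζ z * f z) =ᶠ[𝓝 z] fun _ => 0 := by
      have := notMem_tsupport_iff_eventuallyEq.mp hz'
      filter_upwards [this] with w hw
      simp [hw]
    exact (continuousAt_const).congr this.symm

theorem integrable_mul_of_tsupport {U : Set ℂ} (hU : IsOpen U) {ζ f : ℂ → ℝ} (hc : Continuous ζ)
    (hs : HasCompactSupport ζ) (hsub : tsupport ζ ⊆ U) (hf : ContinuousOn f U) :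
    Integrable (fun z => ζ z * f z) :=
  (continuous_mul_of_tsupport hU hc hsub hf).integrable_of_hasCompactSupport hs.mul_right

/-- a smooth function between two cut-off translates of a continuous function -/
theorem exists_smooth_between {ζ : ℂ → ℝ} (hc : Continuous ζ) {δ : ℝ} (hδ : 0 < δ) :
    ∃ ψ : ℂ → ℝ, ContDiff ℝ ∞ ψ ∧ (∀ z, max (ζ z - 3 * δ) 0 ≤ ψ z) ∧
      (∀ z, ψ z ≤ max (ζ z - δ) 0) := by
  obtain ⟨ψ, hψ⟩ := exists_contMDiffMap_forall_mem_convex_of_local_const (n := (⊤ : ℕ∞)) 𝓘(ℝ, ℂ)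
    (F := ℝ) (t := fun z => Set.Icc (max (ζ z - 3 * δ) 0) (max (ζ z - δ) 0))
    (fun z => convex_Icc _ _) (fun x => by
      refine ⟨max (ζ x - 2 * δ) 0, ?_⟩
      have h1 : ∀ᶠ y in 𝓝 x, dist (ζ y) (ζ x) < δ :=
        hc.continuousAt.eventually (Metric.ball_mem_nhds (ζ x) hδ)
      filter_upwards [h1] with y hy
      rw [Real.dist_eq] at hy
      have h2 := abs_lt.mp hy
      constructor
      · exact max_le_max (by linarith [h2.2]) le_rfl
      · exact max_le_max (by linarith [h2.1]) le_rfl)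
  exact ⟨ψ, ψ.contMDiff.contDiff, fun z => (hψ z).1, fun z => (hψ z).2⟩

/-- **Localisation** -/
theorem localize {g : ℂ → ℝ} (hB : BddIneq g) {U : Set ℂ} (hU : IsOpen U)
    (hg : ContDiffOn ℝ ∞ g U) (hpos : ∀ z ∈ U, 0 < g z) {h : ℕ → ℝ} {φ : ℕ → ℂ → ℂ}
    (H : LocalQE U g h φ) {ζ : ℂ → ℝ} (hc : Continuous ζ) (hs : HasCompactSupport ζ)
    (hsub : tsupport ζ ⊆ U) (h0 : ∀ z, 0 ≤ ζ z) {ε : ℝ} (hε : 0 < ε) :
    ∀ᶠ n in atTop, 3 * (∫ z, ζ z) - ε ≤ ∫ z, ζ z * (φ n z).re ^ 4 := by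
  by_contra hcon
  rw [Filter.not_eventually] at hcon
  obtain ⟨s, hsm, hsn⟩ := extraction_of_frequently_atTop hcon
  simp only [not_le] at hsn
  have Hs := H.comp hsm
  set V : Set ℂ := U ∩ {z | 0 < ζ z} with hV
  have hVo : IsOpen V := hU.inter (isOpen_lt continuous_const hc)
  have hVU : V ⊆ U := Set.inter_subset_left
  have HV := Hs.mono hVU
  have hre : ∀ n, ContinuousOn (fun z => (φ (s n) z).re ^ 4) U := fun n =>
    (Complex.continuous_re.comp_continuousOn (Hs.smooth n).continuousOn).pow 4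
  have hint : ∀ n, Integrable (fun z => ζ z * (φ (s n) z).re ^ 4) := fun n =>
    integrable_mul_of_tsupport hU hc hs hsub (hre n)
  have hnorm : ∀ n, ∀ z ∈ U, ‖φ (s n) z‖ ^ 4 = (φ (s n) z).re ^ 4 := by
    intro n z hz
    have h1 : φ (s n) z = ((φ (s n) z).re : ℂ) := by
      have := Hs.real n z hz
      exact (Complex.conj_eq_iff_re.mp this).symm
    conv_lhs => rw [h1]
    rw [Complex.norm_real, Real.norm_eq_abs]
    exact Even.pow_abs (by decide) _
  -- boundedness in `L⁴`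
  have hL : LBdd 4 V (fun n => φ (s n)) := by
    intro K hK hKV
    rcases K.eq_empty_or_nonempty with rfl | hne
    · exact ⟨0, Filter.Eventually.of_forall fun n => by simp⟩
    obtain ⟨z0, hz0, hmin⟩ := hK.exists_isMinOn hne hc.continuousOn
    have hc0 : 0 < ζ z0 := (hKV hz0).2
    refine ⟨(ζ z0)⁻¹ * (3 * ∫ z, ζ z), Filter.Eventually.of_forall fun n => ?_⟩
    have hKU : K ⊆ U := hKV.trans hVU
    have i1 : IntegrableOn (fun z => (φ (s n) z).re ^ 4) K :=
      ((hre n).mono hKU).integrableOn_compact hK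
    have e1 : ∫ z in K, ‖φ (s n) z‖ ^ 4 = ∫ z in K, (φ (s n) z).re ^ 4 :=
      setIntegral_congr_fun hK.measurableSet fun z hz => hnorm n z (hKU hz)
    have e2 : ζ z0 * ∫ z in K, (φ (s n) z).re ^ 4 ≤ ∫ z, ζ z * (φ (s n) z).re ^ 4 := by
      rw [← integral_const_mul]
      calc ∫ z in K, ζ z0 * (φ (s n) z).re ^ 4 ≤ ∫ z in K, ζ z * (φ (s n) z).re ^ 4 := by
            refine setIntegral_mono_on (i1.const_mul _) (hint n).integrableOn hK.measurableSet
              fun z hz => ?_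
            exact mul_le_mul_of_nonneg_right (hmin hz) (by positivity)
        _ ≤ ∫ z, ζ z * (φ (s n) z).re ^ 4 :=
            setIntegral_le_integral (hint n)
              (Filter.Eventually.of_forall fun z => mul_nonneg (h0 z) (by positivity))
    have e3 := hsn n
    have e4 : ζ z0 * ∫ z in K, ‖φ (s n) z‖ ^ 4 ≤ 3 * ∫ z, ζ z := by rw [e1]; linarith
    calc ∫ z in K, ‖φ (s n) z‖ ^ 4 = (ζ z0)⁻¹ * (ζ z0 * ∫ z in K, ‖φ (s n) z‖ ^ 4) := by
          field_simp
      _ ≤ (ζ z0)⁻¹ * (3 * ∫ z, ζ z) := by gcongr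
  -- the smooth test function
  have hζi : Integrable ζ := hc.integrable_of_hasCompactSupport hs
  set W : ℝ := (volume : Measure ℂ).real (tsupport ζ) with hW
  have hW0 : 0 ≤ W := measureReal_nonneg
  obtain ⟨δ, hδ, hδW⟩ : ∃ δ : ℝ, 0 < δ ∧ 9 * (δ * W) < ε / 2 := by
    refine ⟨ε / (36 * (W + 1)), by positivity, ?_⟩
    have e : 9 * (ε / (36 * (W + 1)) * W) = ε / 4 * (W / (W + 1)) := by
      field_simp
      ring
    have h1 : W / (W + 1) ≤ 1 := (div_le_one (by positivity)).mpr (by linarith)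
    rw [e]
    nlinarith
  obtain ⟨ψ, hψs, hψ1, hψ2⟩ := exists_smooth_between hc hδ
  have hψ0 : ∀ z, 0 ≤ ψ z := fun z => (le_max_right _ _).trans (hψ1 z)
  have hψζ : ∀ z, ψ z ≤ ζ z := fun z => (hψ2 z).trans (max_le (by linarith) (h0 z))
  have hclosed : IsClosed {z | δ ≤ ζ z} := isClosed_le continuous_const hc
  have hψsupp : tsupport ψ ⊆ {z | δ ≤ ζ z} := by
    refine closure_minimal ?_ hclosed
    intro z hz
    by_contra hlt
    simp only [Set.mem_setOf_eq, not_le] at hlt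
    apply hz
    have h1 := hψ2 z
    rw [max_eq_right (by linarith)] at h1
    exact le_antisymm h1 (hψ0 z)
  have hδsub : {z | δ ≤ ζ z} ⊆ tsupport ζ := by
    intro z hz
    apply subset_tsupport
    simp only [Set.mem_setOf_eq] at hz
    simp only [Function.mem_support]
    linarith
  have hψV : tsupport ψ ⊆ V := fun z hz =>
    ⟨hsub (hδsub (hψsupp hz)), by
      have := hψsupp hz
      simp only [Set.mem_setOf_eq] at this ⊢
      linarith⟩
  have hψc : HasCompactSupport ψ :=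
    hs.isCompact.of_isClosed_subset (isClosed_tsupport _) (hψsupp.trans hδsub)
  have hψi : Integrable ψ := hψs.continuous.integrable_of_hasCompactSupport hψc
  have hbig : (∫ z, ζ z) - 3 * (δ * W) ≤ ∫ z, ψ z := by
    have hfin : (volume : Measure ℂ) (tsupport ζ) ≠ ⊤ := hs.isCompact.measure_lt_top.ne
    have hmeas : MeasurableSet (tsupport ζ) := (isClosed_tsupport ζ).measurableSet
    have hind : Integrable ((tsupport ζ).indicator fun _ => (3 * δ : ℝ)) :=
      (integrable_indicator_iff hmeas).mpr (integrableOn_const hfin)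
    have hle : ∀ z, ζ z ≤ ψ z + (tsupport ζ).indicator (fun _ => (3 * δ : ℝ)) z := by
      intro z
      by_cases hz : z ∈ tsupport ζ
      · rw [Set.indicator_of_mem hz]
        have := (le_max_left (ζ z - 3 * δ) 0).trans (hψ1 z)
        linarith
      · rw [Set.indicator_of_notMem hz, image_eq_zero_of_notMem_tsupport hz]
        linarith [hψ0 z]
    have h1 := integral_mono hζi (hψi.add hind) hle
    have h2 : ∫ z, (ψ z + (tsupport ζ).indicator (fun _ => (3 * δ : ℝ)) z)
        = (∫ z, ψ z) + 3 * (δ * W) := by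
      rw [integral_add hψi hind, integral_indicator hmeas, setIntegral_const, smul_eq_mul]
      ring
    have h3 : ∫ z, (ψ + (tsupport ζ).indicator fun _ => (3 * δ : ℝ)) z
        = ∫ z, (ψ z + (tsupport ζ).indicator (fun _ => (3 * δ : ℝ)) z) := rfl
    linarith
  have hev := hB V hVo (hg.mono hVU) (fun z hz => hpos z (hVU hz)) _ _ HV hL ψ hψs hψc hψV hψ0
    (ε / 4) (by positivity)
  obtain ⟨n, hn⟩ := hev.exists
  have hlast : ∫ z, ψ z * (φ (s n) z).re ^ 4 ≤ ∫ z, ζ z * (φ (s n) z).re ^ 4 := by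
    refine integral_mono (integrable_mul_of_tsupport hVo hψs.continuous hψc hψV
      ((hre n).mono hVU)) (hint n) fun z => ?_
    exact mul_le_mul_of_nonneg_right (hψζ z) (by positivity)
  have := hsn n
  linarith

end

end QE
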