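import Pool.Agent.LibH11.Berry.RFinal

/-!
# From the upper half plane to closed surfaces

Let `Γ ⊂ SL(2, ℝ)` be countable with fundamental domain `D` (for the hyperbolic volume) and compact
quotient. Local lower bounds, on the upper half plane, for the integrals of `Γ`-invariant functions
`F n` against test functions give the lower bound for the averages of `F n` over `D` with respect to
the area of a conformal metric `e^{2ρ} (dx² + dy²) / y²`.
-/

open UpperHalfPlane MeasureTheory ProbabilityTheory MatrixGroups Filter Topology Set Berry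
open scoped ENNReal NNReal

namespace QE

noncomputable section

namespace Surf

variable {Γ : Subgroup SL(2, ℝ)} {ρ : ℍ → ℝ} {D : Set ℍ}

/-- some orbit is locally finite -/
lemma exists_finite_orbit [Countable Γ] (hD : IsFundamentalDomain Γ D (volume : Measure ℍ)) :
    ∃ z : ℍ, ∀ R : ℝ, {γ : Γ | dist (γ • z) I ≤ R}.Finite := by
  have h : ∀ᵐ z ∂((volume : Measure ℍ).restrict D),
      ∀ n : ℕ, {γ : Γ | dist (γ • z) I ≤ (n : ℝ)}.Finite := by
    rw [ae_all_iff]
    intro n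
    have hB : MeasurableSet (Metric.closedBall I (n : ℝ) : Set ℍ) :=
      Metric.isClosed_closedBall.measurableSet
    have hf : Measurable (indicator (Metric.closedBall I (n : ℝ)) (1 : ℍ → ℝ≥0∞)) :=
      measurable_one.indicator hB
    have hm : ∀ γ : Γ, Measurable fun z : ℍ =>
        indicator (Metric.closedBall I (n : ℝ)) (1 : ℍ → ℝ≥0∞) (γ • z) := fun γ =>
      hf.comp (continuous_const_smul γ).measurable
    have e := hD.lintegral_eq_tsum'' (indicator (Metric.closedBall I (n : ℝ)) 1)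
    rw [lintegral_indicator_one hB, ← lintegral_tsum fun γ => (hm γ).aemeasurable] at e
    have hfin : ∫⁻ z in D, ∑' γ : Γ,
        indicator (Metric.closedBall I (n : ℝ)) (1 : ℍ → ℝ≥0∞) (γ • z) ≠ ∞ := by
      rw [← e]
      exact (isCompact_closedBall I (n : ℝ)).measure_lt_top.ne
    filter_upwards [ae_lt_top (Measurable.tsum hm) hfin] with z hz
    refine (ENNReal.finite_const_le_of_tsum_ne_top hz.ne one_ne_zero).subset ?_
    intro γ hγ
    have : γ • z ∈ Metric.closedBall I (n : ℝ) := hγ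
    simp only [Set.mem_ofPred_eq, indicator_of_mem this, Pi.one_apply, le_refl]
  have hne : (ae ((volume : Measure ℍ).restrict D)).NeBot := by
    rw [ae_neBot, Ne, Measure.restrict_eq_zero]
    exact volume_ne_zero hD
  obtain ⟨z, hz⟩ := h.exists
  refine ⟨z, fun R => ?_⟩
  obtain ⟨n, hn⟩ := exists_nat_ge R
  exact (hz n).subset fun γ hγ => le_trans hγ hn

/-- translates of a compactly supported function are locally finite -/
lemma locallyFinite [Countable Γ] (hD : IsFundamentalDomain Γ D (volume : Measure ℍ)) {χ : ℍ → ℝ}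
    {R : ℝ} (hχ : ∀ z, χ z ≠ 0 → dist z I ≤ R) :
    LocallyFinite fun γ : Γ => Function.support fun z : ℍ => χ (γ • z) := by
  obtain ⟨z₀, h₀⟩ := exists_finite_orbit hD
  intro x
  refine ⟨Metric.ball x 1, Metric.ball_mem_nhds x one_pos, (h₀ (dist z₀ x + 1 + R)).subset ?_⟩
  rintro γ ⟨z, hz, hzx⟩
  have h1 : dist (γ • z) I ≤ R := hχ _ hz
  have h2 : dist (γ • z₀) (γ • z) = dist z₀ z := dist_smul (γ : SL(2, ℝ)) z₀ z
  have h3 : dist z x < 1 := hzx
  have h4 := dist_triangle z₀ x z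
  have h5 := dist_triangle (γ • z₀) (γ • z) I
  rw [dist_comm x z] at h4
  show dist (γ • z₀) I ≤ _
  linarith

/-- the sum of the translates -/
def NN (Γ : Subgroup SL(2, ℝ)) (χ : ℍ → ℝ) (z : ℍ) : ℝ := ∑' γ : Γ, χ (γ • z)

lemma finite_support [Countable Γ] (hD : IsFundamentalDomain Γ D (volume : Measure ℍ)) {χ : ℍ → ℝ}
    {R : ℝ} (hχ : ∀ z, χ z ≠ 0 → dist z I ≤ R) (z : ℍ) :
    (Function.support fun γ : Γ => χ (γ • z)).Finite := by
  exact (locallyFinite hD hχ).point_finite z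

lemma NN_continuous [Countable Γ] (hD : IsFundamentalDomain Γ D (volume : Measure ℍ)) {χ : ℍ → ℝ}
    {R : ℝ} (hχ : ∀ z, χ z ≠ 0 → dist z I ≤ R) (hc : Continuous χ) : Continuous (NN Γ χ) := by
  have h := continuous_finsum (fun γ : Γ => hc.comp (continuous_const_smul γ))
    (locallyFinite hD hχ)
  refine h.congr fun z => ?_
  exact (tsum_eq_finsum (finite_support hD hχ z)).symm

lemma NN_summable [Countable Γ] (hD : IsFundamentalDomain Γ D (volume : Measure ℍ)) {χ : ℍ → ℝ}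
    {R : ℝ} (hχ : ∀ z, χ z ≠ 0 → dist z I ≤ R) (z : ℍ) : Summable fun γ : Γ => χ (γ • z) :=
  summable_of_hasFiniteSupport (finite_support hD hχ z)

lemma NN_inv {χ : ℍ → ℝ} (γ : Γ) (z : ℍ) : NN Γ χ (γ • z) = NN Γ χ z := by
  unfold NN
  rw [← (Equiv.mulRight γ).tsum_eq (fun δ : Γ => χ (δ • z))]
  refine tsum_congr fun δ => ?_
  rw [Equiv.coe_mulRight, mul_smul]

/-- the unfolding formula -/
lemma unfold [Countable Γ] (hD : IsFundamentalDomain Γ D (volume : Measure ℍ)) {χ : ℍ → ℝ}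
    {R : ℝ} (hχ : ∀ z, χ z ≠ 0 → dist z I ≤ R) (hc : Continuous χ) (h0 : ∀ z, 0 ≤ χ z)
    (hpos : ∀ z, 0 < NN Γ χ z) {f : ℍ → ℝ} (hf : Continuous f)
    (hinv : ∀ γ ∈ Γ, ∀ z, f (γ • z) = f z) :
    ∫⁻ z in D, ENNReal.ofReal (f z) = ∫⁻ z : ℍ, ENNReal.ofReal (χ z / NN Γ χ z * f z) := by
  have hN := NN_continuous hD hχ hc
  rw [hD.lintegral_eq_tsum'', ← lintegral_tsum]
  · refine lintegral_congr fun z => ?_
    have e : ∀ γ : Γ, ENNReal.ofReal (χ (γ • z) / NN Γ χ (γ • z) * f (γ • z))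
        = ENNReal.ofReal (χ (γ • z)) * ENNReal.ofReal (f z / NN Γ χ z) := by
      intro γ
      rw [← ENNReal.ofReal_mul (h0 _), NN_inv, show f (γ • z) = f z from hinv γ γ.2 z]
      congr 1; ring
    simp only [e]
    rw [ENNReal.tsum_mul_right, ← ENNReal.ofReal_tsum_of_nonneg (fun γ => h0 _)
      (NN_summable hD hχ z)]
    rw [← ENNReal.ofReal_mul (tsum_nonneg fun γ => h0 _)]
    congr 1
    have := (hpos z).ne'
    show f z = NN Γ χ z * (f z / NN Γ χ z)
    field_simp
  · intro γ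
    refine Measurable.aemeasurable ?_
    have : Continuous fun z => χ z / NN Γ χ z * f z :=
      (hc.div hN fun z => (hpos z).ne').mul hf
    exact ENNReal.measurable_ofReal.comp (this.measurable.comp (continuous_const_smul γ).measurable)

/-- the volume of the upper half plane in the coordinate of `ℂ` -/
lemma lintegral_uhp {g : ℍ → ℝ≥0∞} (hg : Measurable g) :
    ∫⁻ z, g z = ∫⁻ w : ℂ in {w | 0 < w.im}, ENNReal.ofReal (1 / w.im ^ 2) * g (ofComplex w) := by
  have hmp : MeasurePreserving UpperHalfPlane.coe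
      ((volume : Measure ℂ).comap UpperHalfPlane.coe)
      ((volume : Measure ℂ).restrict (.range UpperHalfPlane.coe)) :=
    ⟨measurable_coe, by rw [measurableEmbedding_coe.map_comap]⟩
  have hr : range UpperHalfPlane.coe = {w : ℂ | 0 < w.im} := range_coe
  have e1 : ∀ z : ℍ, ((1 / NNReal.mk z.im z.im_pos.le : ℝ≥0) ^ 2 : ℝ≥0)
      = Real.toNNReal (1 / z.im ^ 2) := by
    intro z
    have := z.im_pos
    ext
    rw [Real.coe_toNNReal _ (by positivity)]
    simp
  have hm : Measurable fun z : ℍ => (((1 / NNReal.mk z.im z.im_pos.le : ℝ≥0) ^ 2 : ℝ≥0) : ℝ≥0∞) := by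
    simp only [e1]
    refine (measurable_real_toNNReal.comp ?_).coe_nnreal_ennreal
    exact measurable_const.div (continuous_im.measurable.pow_const 2)
  rw [volume_def, lintegral_withDensity_eq_lintegral_mul _ hm hg, ← hr,
    ← hmp.lintegral_comp_emb measurableEmbedding_coe]
  refine lintegral_congr fun z => ?_
  simp only [Pi.mul_apply, e1, ofComplex_apply]
  rfl

/-- a cut-off function -/
lemma exists_cut {K : Set ℍ} (hK : IsCompact K) : ∃ c : ℂ → ℝ, Continuous c ∧ HasCompactSupport c ∧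
    tsupport c ⊆ {w | 0 < w.im} ∧ (∀ w, 0 ≤ c w) ∧ ∀ z ∈ K, c (z : ℂ) = 1 := by
  have hU : IsOpen {w : ℂ | 0 < w.im} := isOpen_lt continuous_const Complex.continuous_im
  have hKc : IsCompact (UpperHalfPlane.coe '' K) := hK.image continuous_coe
  obtain ⟨V, hV, hKV, hVU, hVc⟩ := exists_open_between_and_isCompact_closure hKc hU
    (by rintro _ ⟨z, -, rfl⟩; exact z.im_pos)
  obtain ⟨f, h1, h2, h3⟩ := exists_tsupport_one_of_isOpen_isClosed hV hVc hKc.isClosed hKV
  exact ⟨f, f.continuous, hVc.of_isClosed_subset (isClosed_tsupport f) (h1.trans subset_closure),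
    h1.trans (subset_closure.trans hVU), fun w => (h3 w).1, fun z hz => h2 ⟨z, hz, rfl⟩⟩

lemma continuous_cut_mul {c : ℂ → ℝ} (hc : Continuous c) (hs : tsupport c ⊆ {w | 0 < w.im})
    {g : ℍ → ℝ} (hg : Continuous g) : Continuous fun w => c w * g (ofComplex w) := by
  refine continuous_iff_continuousAt.2 fun w => ?_
  by_cases hw : w ∈ tsupport c
  · have h1 : ContinuousAt (ofComplex : ℂ → ℍ) w :=
      (contMDiffAt_ofComplex (n := 0) (hs hw)).continuousAt
    exact hc.continuousAt.mul (hg.continuousAt.comp h1)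
  · have h1 : c =ᶠ[𝓝 w] 0 := notMem_tsupport_iff_eventuallyEq.1 hw
    refine (continuousAt_const (y := (0 : ℝ))).congr ?_
    filter_upwards [h1] with v hv
    rw [hv, Pi.zero_apply, zero_mul]

/-- one test function on the upper half plane computes the integrals over `D` of all invariant
functions -/
lemma exists_test [Countable Γ] (hD : IsFundamentalDomain Γ D (volume : Measure ℍ))
    (hDm : MeasurableSet D) (hK : ∃ K : Set ℍ, IsCompact K ∧ ∀ z, ∃ γ ∈ Γ, γ • z ∈ K)
    (hρ : Continuous ρ) (hρΓ : ∀ γ ∈ Γ, ∀ z, ρ (γ • z) = ρ z) :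
    ∃ ζ : ℂ → ℝ, Continuous ζ ∧ HasCompactSupport ζ ∧ tsupport ζ ⊆ {w | 0 < w.im} ∧
      (∀ w, 0 ≤ ζ w) ∧ ∀ f : ℍ → ℝ, Continuous f → (∀ z, 0 ≤ f z) →
        (∀ γ ∈ Γ, ∀ z, f (γ • z) = f z) →
        ∫ w, ζ w * f (ofComplex w) = ∫ z in D, f z ∂(area ρ) := by
  obtain ⟨K, hKc, hcov⟩ := hK
  obtain ⟨c, hc, hcs, hcU, hc0, hc1⟩ := exists_cut hKc
  set χ : ℍ → ℝ := fun z => c z with hχdef
  have hχc : Continuous χ := hc.comp continuous_coe
  have hχ0 : ∀ z, 0 ≤ χ z := fun z => hc0 _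
  -- the support of `χ` is bounded
  have hcomp : IsCompact (UpperHalfPlane.coe ⁻¹' tsupport c) := by
    rw [isOpenEmbedding_coe.isInducing.isCompact_preimage_iff]
    · exact hcs
    · rw [range_coe]; exact hcU
  obtain ⟨R, hR⟩ := hcomp.isBounded.subset_closedBall I
  have hχ : ∀ z, χ z ≠ 0 → dist z I ≤ R := fun z hz =>
    hR (show (z : ℂ) ∈ tsupport c from subset_tsupport c hz)
  have hpos : ∀ z, 0 < NN Γ χ z := by
    intro z
    obtain ⟨γ, hγ, hz⟩ := hcov z
    have h1 : χ ((⟨γ, hγ⟩ : Γ) • z) ≤ NN Γ χ z :=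
      (NN_summable hD hχ z).le_tsum _ fun δ _ => hχ0 _
    have h2 : χ ((⟨γ, hγ⟩ : Γ) • z) = 1 := hc1 _ hz
    linarith
  have hN := NN_continuous hD hχ hχc
  set G : ℍ → ℝ := fun z => 1 / z.im ^ 2 * (Real.exp (2 * ρ z) / NN Γ χ z) with hG
  have hGc : Continuous G := by
    refine (continuous_const.div (continuous_im.pow 2) fun z => (pow_pos z.im_pos 2).ne').mul ?_
    exact (Real.continuous_exp.comp (continuous_const.mul hρ)).div hN fun z => (hpos z).ne'
  have hG0 : ∀ z, 0 ≤ G z := by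
    intro z
    have h1 := z.im_pos
    have h2 := hpos z
    simp only [hG]
    positivity
  refine ⟨fun w => c w * G (ofComplex w), continuous_cut_mul hc hcU hGc, hcs.mul_right,
    (closure_mono (Function.support_mul_subset_left _ _)).trans hcU,
    fun w => mul_nonneg (hc0 w) (hG0 _), ?_⟩
  intro f hf hf0 hinv
  have hU : IsOpen {w : ℂ | 0 < w.im} := isOpen_lt continuous_const Complex.continuous_im
  -- left side
  have hcont : Continuous fun w => c w * G (ofComplex w) * f (ofComplex w) := by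
    have := continuous_cut_mul hc hcU (hGc.mul hf)
    refine this.congr fun w => ?_
    simp only [Pi.mul_apply]; ring
  rw [integral_eq_lintegral_of_nonneg_ae
    (Eventually.of_forall fun w => mul_nonneg (mul_nonneg (hc0 w) (hG0 _)) (hf0 _))
    hcont.aestronglyMeasurable,
    integral_eq_lintegral_of_nonneg_ae (Eventually.of_forall fun z => hf0 z)
      hf.aestronglyMeasurable]
  congr 1
  have hexp : Measurable fun z => ENNReal.ofReal (Real.exp (2 * ρ z)) :=
    ENNReal.measurable_ofReal.comp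
      (Real.continuous_exp.comp (continuous_const.mul hρ)).measurable
  have hfm : Measurable fun z => ENNReal.ofReal (f z) := ENNReal.measurable_ofReal.comp hf.measurable
  unfold area
  rw [setLIntegral_withDensity_eq_setLIntegral_mul _ hexp hfm hDm]
  have e1 : ∫⁻ z in D, ((fun z => ENNReal.ofReal (Real.exp (2 * ρ z))) *
      fun z => ENNReal.ofReal (f z)) z = ∫⁻ z in D, ENNReal.ofReal (Real.exp (2 * ρ z) * f z) := by
    refine lintegral_congr fun z => ?_
    rw [Pi.mul_apply, ENNReal.ofReal_mul (Real.exp_pos _).le]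
  have hfe : Continuous fun z => Real.exp (2 * ρ z) * f z :=
    (Real.continuous_exp.comp (continuous_const.mul hρ)).mul hf
  rw [e1, unfold hD hχ hχc hχ0 hpos hfe
    (fun γ hγ z => by simp only [hρΓ γ hγ, hinv γ hγ]), lintegral_uhp]
  · rw [← lintegral_indicator hU.measurableSet]
    refine lintegral_congr fun w => ?_
    by_cases hw : 0 < w.im
    · rw [indicator_of_mem (show w ∈ {w : ℂ | 0 < w.im} from hw),
        ← ENNReal.ofReal_mul (by positivity)]
      congr 1
      have e2 : ((ofComplex w : ℍ) : ℂ) = w := by rw [ofComplex_apply_of_im_pos hw]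
      have e3 : (ofComplex w : ℍ).im = w.im := by rw [ofComplex_apply_of_im_pos hw]; rfl
      simp only [hG, hχdef, e2, e3]
      ring
    · rw [indicator_of_notMem (show w ∉ {w : ℂ | 0 < w.im} from hw)]
      have : c w = 0 := by
        by_contra h
        exact hw (hcU (subset_tsupport c h))
      rw [this, zero_mul, zero_mul, ENNReal.ofReal_zero]
  · refine ENNReal.measurable_ofReal.comp (Continuous.measurable ?_)
    exact (hχc.div hN fun z => (hpos z).ne').mul hfe

end Surf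

open Surf in
/-- **From the local theorem to closed surfaces**, with a general constant `κ`. -/
theorem surf_lower' {Γ : Subgroup SL(2, ℝ)} [Countable Γ] {D : Set ℍ} (hDm : MeasurableSet D)
    (hD : IsFundamentalDomain Γ D (volume : Measure ℍ))
    (hK : ∃ K : Set ℍ, IsCompact K ∧ ∀ z, ∃ γ ∈ Γ, γ • z ∈ K)
    {ρ : ℍ → ℝ} (hρ : Continuous ρ) (hρΓ : ∀ γ ∈ Γ, ∀ z, ρ (γ • z) = ρ z)
    {F : ℕ → ℍ → ℝ} (hF0 : ∀ n z, 0 ≤ F n z) (hFc : ∀ n, Continuous (F n))
    (hFΓ : ∀ n, ∀ γ ∈ Γ, ∀ z, F n (γ • z) = F n z) (κ : ℝ)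
    (hloc : ∀ ζ : ℂ → ℝ, Continuous ζ → HasCompactSupport ζ → tsupport ζ ⊆ {w | 0 < w.im} →
      (∀ w, 0 ≤ ζ w) → ∀ ε > 0, ∀ᶠ n in atTop,
        κ * (∫ w, ζ w) - ε ≤ ∫ w, ζ w * F n (ofComplex w)) (ε : ℝ) (hε : 0 < ε) :
    ∀ᶠ n in atTop, κ - ε ≤ rAvg ρ D (F n) := by
  have hg : Geo Γ ρ D := ⟨hD, hDm, finite_of_cocompact hD hK, hρΓ, bdd_of_cocompact hρ hρΓ hK,
    unif_of_cocompact hρ hρΓ hK⟩
  obtain ⟨ζ, h1, h2, h3, h4, h5⟩ := exists_test hD hDm hK hρ hρΓ
  have hA : ∫ w, ζ w = (area ρ D).toReal := by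
    have := h5 (fun _ => 1) continuous_const (fun _ => zero_le_one) (fun _ _ _ => rfl)
    simpa [Measure.real] using this
  have hApos : 0 < (area ρ D).toReal := ENNReal.toReal_pos (area_ne_zero hg) (area_ne_top hg)
  filter_upwards [hloc ζ h1 h2 h3 h4 (ε * (area ρ D).toReal) (by positivity)] with n hn
  rw [h5 (F n) (hFc n) (hF0 n) (hFΓ n), hA] at hn
  unfold rAvg ProbabilityTheory.cond
  rw [integral_smul_measure, smul_eq_mul, ENNReal.toReal_inv]
  rw [inv_mul_eq_div, le_div_iff₀ hApos]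
  linarith

/-- **From the local theorem to closed surfaces.** -/
theorem surf_lower {Γ : Subgroup SL(2, ℝ)} [Countable Γ] {D : Set ℍ} (hDm : MeasurableSet D)
    (hD : IsFundamentalDomain Γ D (volume : Measure ℍ))
    (hK : ∃ K : Set ℍ, IsCompact K ∧ ∀ z, ∃ γ ∈ Γ, γ • z ∈ K)
    {ρ : ℍ → ℝ} (hρ : Continuous ρ) (hρΓ : ∀ γ ∈ Γ, ∀ z, ρ (γ • z) = ρ z)
    {F : ℕ → ℍ → ℝ} (hF0 : ∀ n z, 0 ≤ F n z) (hFc : ∀ n, Continuous (F n))
    (hFΓ : ∀ n, ∀ γ ∈ Γ, ∀ z, F n (γ • z) = F n z)
    (hloc : ∀ ζ : ℂ → ℝ, Continuous ζ → HasCompactSupport ζ → tsupport ζ ⊆ {w | 0 < w.im} →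
      (∀ w, 0 ≤ ζ w) → ∀ ε > 0, ∀ᶠ n in atTop,
        3 * (∫ w, ζ w) - ε ≤ ∫ w, ζ w * F n (ofComplex w)) :
    ∀ ε > 0, ∀ᶠ n in atTop, 3 - ε ≤ rAvg ρ D (F n) := fun ε hε =>
  surf_lower' hDm hD hK hρ hρΓ hF0 hFc hFΓ 3 hloc ε hε

end

end QE
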