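import Pool.Agent.Lib_helper67.QE.Local
import Pool.Agent.Lib_helper67.QE.Localize
import Pool.Agent.Lib_helper67.QE.Symbols
import Pool.Agent.Lib_helper67.QE.Surf

/-!
Quantum ergodicity on a surface and the fourth moment: the lower bound.
-/

open MeasureTheory UpperHalfPlane MatrixGroups Filter Topology Set
open scoped ContDiff

namespace QE

noncomputable section

theorem bddIneq (g : ℂ → ℝ) : BddIneq g := fun _ hV hg hpos _ _ H hb _ hs hc hsub h0 _ hε =>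
  local_bdd hV hg hpos H hb hs hc hsub h0 hε

theorem continuous_of_smooth {f : ℍ → ℝ}
    (h : ContDiffOn ℝ ∞ (fun w : ℂ => f (ofComplex w)) {w | 0 < w.im}) : Continuous f := by
  have h1 : ContinuousOn (fun w : ℂ => f (ofComplex w)) {w | 0 < w.im} := h.continuousOn
  have h2 : Continuous (fun z : ℍ => (fun w : ℂ => f (ofComplex w)) (z : ℂ)) :=
    h1.comp_continuous UpperHalfPlane.continuous_coe fun z => z.im_pos
  refine h2.congr fun z => ?_
  simp only [ofComplex_apply]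

theorem smooth_weight {ρ : ℍ → ℝ}
    (hρ : ContDiffOn ℝ ∞ (fun w : ℂ => ρ (ofComplex w)) {w | 0 < w.im}) :
    ContDiffOn ℝ ∞ (fun z : ℂ => Real.exp (2 * ρ (ofComplex z)) / z.im ^ 2) {w | 0 < w.im} := by
  have h1 : ContDiffOn ℝ ∞ (fun z : ℂ => z.im) {w : ℂ | 0 < w.im} :=
    Complex.imCLM.contDiff.contDiffOn
  exact ((contDiffOn_const.mul hρ).exp).div (h1.pow 2) fun z hz => by
    have : 0 < z.im := hz
    positivity

/-- **The local lower bound.** -/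
theorem lower_local {Γ : Subgroup SL(2, ℝ)} {ρ : ℍ → ℝ}
    (hρ : ContDiffOn ℝ ∞ (fun w : ℂ => ρ (ofComplex w)) {w | 0 < w.im})
    {φ : ℕ → ℍ → ℝ} {m : ℕ → ℝ} (hφ : Berry.REigenSeq Γ ρ φ m)
    (hs : ∀ n, ContDiffOn ℝ ∞ (fun w : ℂ => φ n (ofComplex w)) {w | 0 < w.im})
    (hq : QuantumErgodic ρ φ m) {ζ : ℂ → ℝ} (hc : Continuous ζ) (hsupp : HasCompactSupport ζ)
    (hsub : tsupport ζ ⊆ {w | 0 < w.im}) (h0 : ∀ w, 0 ≤ ζ w) {ε : ℝ} (hε : 0 < ε) :
    ∀ᶠ n in atTop, 3 * (∫ w, ζ w) - ε ≤ ∫ w, ζ w * φ n (ofComplex w) ^ 4 := by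
  obtain ⟨N, H⟩ := localQE_of_surface hρ hφ hs hq
  have hU : IsOpen {z : ℂ | 0 < z.im} := isOpen_lt continuous_const Complex.continuous_im
  have h1 := localize (bddIneq _) hU (smooth_weight hρ) (fun z hz => by
    have : 0 < z.im := hz
    positivity) H hc hsupp hsub h0 hε
  have h2 : ∀ᶠ n in atTop, 3 * (∫ w, ζ w) - ε ≤ ∫ w, ζ w * φ (n + N) (ofComplex w) ^ 4 := by
    filter_upwards [h1] with n hn
    simpa only [Complex.ofReal_re] using hn
  obtain ⟨M, hM⟩ := eventually_atTop.1 h2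
  refine eventually_atTop.2 ⟨M + N, fun n hn => ?_⟩
  have := hM (n - N) (by omega)
  rwa [Nat.sub_add_cancel (by omega)] at this

/-- **The lower bound on closed surfaces.** -/
theorem lower_surface {Γ : Subgroup SL(2, ℝ)} [Countable Γ] {D : Set ℍ} (hDm : MeasurableSet D)
    (hD : IsFundamentalDomain Γ D (volume : Measure ℍ))
    (hK : ∃ K : Set ℍ, IsCompact K ∧ ∀ z, ∃ γ ∈ Γ, γ • z ∈ K) {ρ : ℍ → ℝ}
    (hρ : ContDiffOn ℝ ∞ (fun w : ℂ => ρ (ofComplex w)) {w | 0 < w.im})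
    (hρΓ : ∀ γ ∈ Γ, ∀ z, ρ (γ • z) = ρ z)
    {φ : ℕ → ℍ → ℝ} {m : ℕ → ℝ} (hφ : Berry.REigenSeq Γ ρ φ m)
    (hs : ∀ n, ContDiffOn ℝ ∞ (fun w : ℂ => φ n (ofComplex w)) {w | 0 < w.im})
    (hq : QuantumErgodic ρ φ m) {ε : ℝ} (hε : 0 < ε) :
    ∀ᶠ n in atTop, 3 - ε ≤ Berry.rAvg ρ D (fun z => φ n z ^ 4) :=
  surf_lower hDm hD hK (continuous_of_smooth hρ) hρΓ (F := fun n z => φ n z ^ 4)
    (fun n z => by positivity) (fun n => (continuous_of_smooth (hs n)).pow 4)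
    (fun n γ hγ z => by rw [hφ.invariant n γ hγ z])
    (fun ζ hc hsupp hsub h0 ε hε => lower_local hρ hφ hs hq hc hsupp hsub h0 hε) ε hε

end

end QE
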