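import Pool.Agent.Lib_helper67.QE.Alg2

/-!
Algebra and limits, third part (helper70): all fourth order correlations of total index zero are
determined by the kurtosis, and the third order correlations vanish.
-/

namespace QE

open Filter Topology

theorem Asy.const_mul {f g : ℕ → ℂ} (c : ℂ) (h : Asy f g) :
    Asy (fun n => c * f n) (fun n => c * g n) := by
  unfold Asy at *
  have := h.const_mul c
  rw [mul_zero] at this
  exact this.congr fun n => by ring

theorem Asy.add {f g f' g' : ℕ → ℂ} (h : Asy f g) (h' : Asy f' g') :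
    Asy (fun n => f n + f' n) (fun n => g n + g' n) := by
  unfold Asy at *
  have := Tendsto.add h h'
  rw [add_zero] at this
  exact this.congr fun n => by ring

theorem Asy.sum {ι : Type*} (s : Finset ι) {f g : ι → ℕ → ℂ} (h : ∀ i ∈ s, Asy (f i) (g i)) :
    Asy (fun n => ∑ i ∈ s, f i n) (fun n => ∑ i ∈ s, g i n) := by
  unfold Asy at *
  have h0 : (0 : ℂ) = ∑ i ∈ s, (0 : ℂ) := by simp
  rw [h0]
  refine (tendsto_finsetSum s fun i hi => h i hi).congr fun n => ?_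
  rw [Finset.sum_sub_distrib]

/-- the pattern of the fourth cumulants of total index zero -/
noncomputable def pat (a b c d : ℤ) : ℂ :=
  if (a - b) % 2 = 0 ∧ (a - c) % 2 = 0 ∧ (a - d) % 2 = 0 then 1 else -1 / 3

section

variable {X : ℕ → ℤ → ℤ → ℤ → ℤ → ℂ} {Z : ℝ}

/-- the errors of total index zero are determined by the kurtosis -/
theorem Err_pattern (s1 : ∀ n a b c d, X n a b c d = X n b a c d)
    (s2 : ∀ n a b c d, X n a b c d = X n a c b d)
    (hmac : ∀ j m k l : ℤ,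
      Tendsto (fun n => X n (j + 1) (m + 1) k l - X n j m (k + 1) (l + 1)) atTop
        (𝓝 ((P (j + 1) (m + 1) * P k l - P j m * P (k + 1) (l + 1)) * (Z : ℂ))))
    (hibp : Tendsto (fun n => X n 1 0 0 (-1) + X n 0 1 0 (-1) + X n 0 0 1 (-1) + X n 0 0 0 0)
      atTop (𝓝 0)) (a b c d : ℤ) (hs : a + b + c + d = 0) :
    Asy (Err X Z a b c d) (fun n => pat a b c d * Err X Z 0 0 0 0 n) := by
  -- the mixed class
  have hG1 : G 1 0 0 (-1) = -1 := by simp [G, P]
  have hG0 : G 0 0 0 0 = 3 := by simp [G, P]; norm_num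
  have h00 : Asy (Err X Z 0 0 0 0) (fun n => 1 * Err X Z 0 0 0 0 n) :=
    Asy.of_eq (by funext n; ring)
  have hm : Asy (Err X Z 1 0 0 (-1)) (fun n => (-1 / 3) * Err X Z 0 0 0 0 n) := by
    unfold Asy
    have h1 := hibp.const_mul (1 / 3 : ℂ)
    rw [mul_zero] at h1
    refine h1.congr fun n => ?_
    have e1 : X n 0 1 0 (-1) = X n 1 0 0 (-1) := s1 n 0 1 0 (-1)
    have e2 : X n 0 0 1 (-1) = X n 1 0 0 (-1) := by rw [s2 n 0 0 1 (-1), s1 n 0 1 0 (-1)]
    unfold Err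
    rw [hG1, hG0, e1, e2]
    ring
  have hm2 : Asy (Err X Z 0 1 0 (-1)) (fun n => (-1 / 3) * Err X Z 0 0 0 0 n) := by
    rw [Err_12 s1]; exact hm
  have hm3 : Asy (Err X Z 0 0 1 (-1)) (fun n => (-1 / 3) * Err X Z 0 0 0 0 n) := by
    rw [Err_23 s2]; exact hm2
  have hn1 : Asy (Err X Z 1 1 0 (-2)) (fun n => (-1 / 3) * Err X Z 0 0 0 0 n) := by
    have := Err_step (Z := Z) hmac 0 0 0 (-2)
    simp only [zero_add] at this
    exact this.trans hm3
  have hn2 : Asy (Err X Z 1 0 1 (-2)) (fun n => (-1 / 3) * Err X Z 0 0 0 0 n) := by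
    rw [Err_23 s2]; exact hn1
  have hn3 : Asy (Err X Z 0 1 1 (-2)) (fun n => (-1 / 3) * Err X Z 0 0 0 0 n) := by
    rw [Err_12 s1]; exact hn2
  have hq : Asy (Err X Z 1 1 1 (-3)) (fun n => 1 * Err X Z 0 0 0 0 n) := by
    have h1 := Err_step (Z := Z) hmac 0 0 1 (-3)
    have h2 := Err_shift3 s1 s2 hmac 0 0 0 (-2) 1
    simp only [zero_add] at h1
    have e : (-3 : ℤ) + 1 = -2 := by norm_num
    have e' : (1 : ℤ) + 1 = 0 + 2 * 1 := by norm_num
    rw [e, e'] at h1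
    have e3 : (-2 : ℤ) + 2 * 1 = 0 := by norm_num
    rw [e3] at h2
    exact (h1.trans h2).trans h00
  -- normal form
  obtain ⟨α, k1, ha, hα⟩ : ∃ α k : ℤ, a = α + 2 * k ∧ (α = 0 ∨ α = 1) :=
    ⟨a % 2, a / 2, by omega, by omega⟩
  obtain ⟨β, k2, hb, hβ⟩ : ∃ α k : ℤ, b = α + 2 * k ∧ (α = 0 ∨ α = 1) :=
    ⟨b % 2, b / 2, by omega, by omega⟩
  obtain ⟨γ, k3, hc, hγ⟩ : ∃ α k : ℤ, c = α + 2 * k ∧ (α = 0 ∨ α = 1) :=
    ⟨c % 2, c / 2, by omega, by omega⟩
  have h1 := Err_shift1 s2 hmac α b c d k1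
  have h2 := Err_shift2 s1 s2 hmac α β c (d + 2 * k1) k2
  have h3 := Err_shift3 s1 s2 hmac α β γ (d + 2 * k1 + 2 * k2) k3
  rw [← ha] at h1
  rw [← hb] at h2
  rw [← hc] at h3
  have hall := (h1.trans h2).trans h3
  have ed : d + 2 * k1 + 2 * k2 + 2 * k3 = -(α + β + γ) := by omega
  rw [ed] at hall
  have epat : pat a b c d = pat α β γ (-(α + β + γ)) := by
    unfold pat
    have : ((a - b) % 2 = 0 ∧ (a - c) % 2 = 0 ∧ (a - d) % 2 = 0) ↔
        ((α - β) % 2 = 0 ∧ (α - γ) % 2 = 0 ∧ (α - -(α + β + γ)) % 2 = 0) := by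
      constructor <;> intro h <;> omega
    simp only [this]
  rw [epat]
  refine hall.trans ?_
  rcases hα with rfl | rfl <;> rcases hβ with rfl | rfl <;> rcases hγ with rfl | rfl <;>
    norm_num [pat] at * <;> assumption

/-- the correlations of total index zero, when the kurtosis converges -/
theorem alg_pattern (s1 : ∀ n a b c d, X n a b c d = X n b a c d)
    (s2 : ∀ n a b c d, X n a b c d = X n a c b d)
    (hmac : ∀ j m k l : ℤ,
      Tendsto (fun n => X n (j + 1) (m + 1) k l - X n j m (k + 1) (l + 1)) atTop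
        (𝓝 ((P (j + 1) (m + 1) * P k l - P j m * P (k + 1) (l + 1)) * (Z : ℂ))))
    (hibp : Tendsto (fun n => X n 1 0 0 (-1) + X n 0 1 0 (-1) + X n 0 0 1 (-1) + X n 0 0 0 0)
      atTop (𝓝 0)) (a b c d : ℤ) (hs : a + b + c + d = 0) :
    Tendsto (fun n => X n a b c d - G a b c d * (Z : ℂ)
      - pat a b c d * (X n 0 0 0 0 - 3 * (Z : ℂ))) atTop (𝓝 0) := by
  have hG0 : G 0 0 0 0 = 3 := by simp [G, P]; norm_num
  have h := Err_pattern (Z := Z) s1 s2 hmac hibp a b c d hs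
  unfold Asy Err at h
  rw [hG0] at h
  exact h

end

section third

variable {Y : ℕ → ℤ → ℤ → ℤ → ℂ}

theorem T_move (hD : ∀ a b c : ℤ, Tendsto (fun n => Y n (a + 1) b c + Y n a (b + 1) c
      + Y n a b (c + 1)) atTop (𝓝 0))
    (hDb : ∀ a b c : ℤ, Tendsto (fun n => Y n (a - 1) b c + Y n a (b - 1) c
      + Y n a b (c - 1)) atTop (𝓝 0)) (a b c : ℤ) :
    Asy (fun n => Y n (a + 2) b c) (fun n => Y n a (b + 1) (c + 1)) := by
  have h1 := hD (a + 1) b c
  have h2 := hDb (a + 1) (b + 1) (c + 1)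
  have e1 : a + 1 + 1 = a + 2 := by ring
  have e2 : a + 1 - 1 = a := by ring
  have e3 : b + 1 - 1 = b := by ring
  have e4 : c + 1 - 1 = c := by ring
  rw [e1] at h1
  rw [e2, e3, e4] at h2
  have := h1.sub h2
  rw [sub_zero] at this
  unfold Asy
  exact this.congr fun n => by ring

theorem T_shift (t1 : ∀ n a b c, Y n a b c = Y n b a c)
    (hD : ∀ a b c : ℤ, Tendsto (fun n => Y n (a + 1) b c + Y n a (b + 1) c
      + Y n a b (c + 1)) atTop (𝓝 0))
    (hDb : ∀ a b c : ℤ, Tendsto (fun n => Y n (a - 1) b c + Y n a (b - 1) c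
      + Y n a b (c - 1)) atTop (𝓝 0)) (a b c : ℤ) :
    Asy (fun n => Y n (a + 3) b c) (fun n => Y n a (b + 3) c) := by
  have h1 := T_move hD hDb (a + 1) b c
  have h2 := T_move hD hDb (b + 1) a c
  have e1 : a + 1 + 2 = a + 3 := by ring
  have e2 : b + 1 + 2 = b + 3 := by ring
  rw [e1] at h1
  rw [e2] at h2
  have h3 : Asy (fun n => Y n a (b + 3) c) (fun n => Y n (a + 1) (b + 1) (c + 1)) := by
    have e : (fun n => Y n (b + 3) a c) = fun n => Y n a (b + 3) c := by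
      funext n; exact t1 _ _ _ _
    have e' : (fun n => Y n (b + 1) (a + 1) (c + 1)) = fun n => Y n (a + 1) (b + 1) (c + 1) := by
      funext n; exact t1 _ _ _ _
    rw [e, e'] at h2
    exact h2
  exact h1.trans h3.symm

theorem T_shift_nat (t1 : ∀ n a b c, Y n a b c = Y n b a c)
    (hD : ∀ a b c : ℤ, Tendsto (fun n => Y n (a + 1) b c + Y n a (b + 1) c
      + Y n a b (c + 1)) atTop (𝓝 0))
    (hDb : ∀ a b c : ℤ, Tendsto (fun n => Y n (a - 1) b c + Y n a (b - 1) c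
      + Y n a b (c - 1)) atTop (𝓝 0)) (c : ℤ) (k : ℕ) : ∀ a b : ℤ,
    Asy (fun n => Y n (a + 3 * k) b c) (fun n => Y n a (b + 3 * k) c) := by
  induction k with
  | zero => intro a b; apply Asy.of_eq; simp
  | succ k ih =>
    intro a b
    have h1 := T_shift t1 hD hDb (a + 3 * k) b c
    have h2 := ih a (b + 3)
    have e1 : a + 3 * (k : ℤ) + 3 = a + 3 * ((k + 1 : ℕ) : ℤ) := by push_cast; ring
    have e2 : b + 3 + 3 * (k : ℤ) = b + 3 * ((k + 1 : ℕ) : ℤ) := by push_cast; ring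
    rw [e1] at h1
    rw [e2] at h2
    exact h1.trans h2

theorem T_shift_int (t1 : ∀ n a b c, Y n a b c = Y n b a c)
    (hD : ∀ a b c : ℤ, Tendsto (fun n => Y n (a + 1) b c + Y n a (b + 1) c
      + Y n a b (c + 1)) atTop (𝓝 0))
    (hDb : ∀ a b c : ℤ, Tendsto (fun n => Y n (a - 1) b c + Y n a (b - 1) c
      + Y n a b (c - 1)) atTop (𝓝 0)) (a b c k : ℤ) :
    Asy (fun n => Y n (a + 3 * k) b c) (fun n => Y n a (b + 3 * k) c) := by
  obtain ⟨t, rfl | rfl⟩ := Int.eq_nat_or_neg k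
  · exact T_shift_nat t1 hD hDb c t a b
  · have h := T_shift_nat t1 hD hDb c t (a + 3 * (-(t : ℤ))) (b + 3 * (-(t : ℤ)))
    have e1 : a + 3 * (-(t : ℤ)) + 3 * t = a := by ring
    have e2 : b + 3 * (-(t : ℤ)) + 3 * t = b := by ring
    rw [e1, e2] at h
    exact h.symm

theorem T_shift_13 (t1 : ∀ n a b c, Y n a b c = Y n b a c)
    (t2 : ∀ n a b c, Y n a b c = Y n a c b)
    (hD : ∀ a b c : ℤ, Tendsto (fun n => Y n (a + 1) b c + Y n a (b + 1) c
      + Y n a b (c + 1)) atTop (𝓝 0))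
    (hDb : ∀ a b c : ℤ, Tendsto (fun n => Y n (a - 1) b c + Y n a (b - 1) c
      + Y n a b (c - 1)) atTop (𝓝 0)) (a b c k : ℤ) :
    Asy (fun n => Y n (a + 3 * k) b c) (fun n => Y n a b (c + 3 * k)) := by
  have h := T_shift_int t1 hD hDb a c b k
  have e : (fun n => Y n (a + 3 * k) c b) = fun n => Y n (a + 3 * k) b c := by
    funext n; exact t2 _ _ _ _
  have e' : (fun n => Y n a (c + 3 * k) b) = fun n => Y n a b (c + 3 * k) := by
    funext n; exact t2 _ _ _ _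
  rw [e, e'] at h
  exact h

/-- the value of the third order correlations of total index zero -/
noncomputable def pat3 (a b : ℤ) : ℂ := if (a - b) % 3 = 0 then 1 else -1 / 2

theorem T_pattern (t1 : ∀ n a b c, Y n a b c = Y n b a c)
    (t2 : ∀ n a b c, Y n a b c = Y n a c b)
    (hD : ∀ a b c : ℤ, Tendsto (fun n => Y n (a + 1) b c + Y n a (b + 1) c
      + Y n a b (c + 1)) atTop (𝓝 0))
    (hDb : ∀ a b c : ℤ, Tendsto (fun n => Y n (a - 1) b c + Y n a (b - 1) c
      + Y n a b (c - 1)) atTop (𝓝 0)) (a b c : ℤ) (hs : a + b + c = 0) :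
    Asy (fun n => Y n a b c) (fun n => pat3 a b * Y n 0 0 0) := by
  have h00 : Asy (fun n => Y n 0 0 0) (fun n => 1 * Y n 0 0 0) :=
    Asy.of_eq (by funext n; ring)
  -- (1, -1, 0) and its permutations
  have q1 : Asy (fun n => Y n 1 0 (-1)) (fun n => (-1 / 2) * Y n 0 0 0) := by
    unfold Asy
    have h1 := (hD 0 0 (-1)).const_mul (1 / 2 : ℂ)
    rw [mul_zero] at h1
    refine h1.congr fun n => ?_
    have e1 : Y n 0 (0 + 1) (-1) = Y n 1 0 (-1) := by rw [zero_add]; exact t1 n 0 1 (-1)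
    rw [e1]
    simp only [zero_add, neg_add_cancel]
    ring
  have p12 : ∀ a b c : ℤ, (fun n => Y n a b c) = fun n => Y n b a c := fun a b c => by
    funext n; exact t1 _ _ _ _
  have p23 : ∀ a b c : ℤ, (fun n => Y n a b c) = fun n => Y n a c b := fun a b c => by
    funext n; exact t2 _ _ _ _
  have q2 : Asy (fun n => Y n 0 1 (-1)) (fun n => (-1 / 2) * Y n 0 0 0) := by
    rw [p12]; exact q1
  have q3 : Asy (fun n => Y n 1 (-1) 0) (fun n => (-1 / 2) * Y n 0 0 0) := by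
    rw [p23]; exact q1
  have q4 : Asy (fun n => Y n 0 (-1) 1) (fun n => (-1 / 2) * Y n 0 0 0) := by
    rw [p23]; exact q2
  have q5 : Asy (fun n => Y n (-1) 1 0) (fun n => (-1 / 2) * Y n 0 0 0) := by
    rw [p12]; exact q3
  have q6 : Asy (fun n => Y n (-1) 0 1) (fun n => (-1 / 2) * Y n 0 0 0) := by
    rw [p23]; exact q5
  -- (2, -1, -1) and its permutations
  have r1 : Asy (fun n => Y n 2 (-1) (-1)) (fun n => 1 * Y n 0 0 0) := by
    have := T_move hD hDb 0 (-1) (-1)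
    simp only [zero_add, neg_add_cancel] at this
    exact this.trans h00
  have r2 : Asy (fun n => Y n 1 1 (-2)) (fun n => 1 * Y n 0 0 0) := by
    have h1 := T_move hD hDb (-2) 0 0
    simp only [neg_add_cancel, zero_add] at h1
    have h2 := h1.symm.trans h00
    rw [p12, p23] at h2
    exact h2
  -- normal form
  obtain ⟨α, k1, ha, hα⟩ : ∃ α k : ℤ, a = α + 3 * k ∧ (α = 0 ∨ α = 1 ∨ α = -1) := by
    by_cases h0 : a % 3 = 0
    · exact ⟨0, a / 3, by omega, by omega⟩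
    · by_cases h1 : a % 3 = 1
      · exact ⟨1, a / 3, by omega, by omega⟩
      · exact ⟨-1, a / 3 + 1, by omega, by omega⟩
  obtain ⟨β, k2, hb, hβ⟩ : ∃ α k : ℤ, b = α + 3 * k ∧ (α = 0 ∨ α = 1 ∨ α = -1) := by
    by_cases h0 : b % 3 = 0
    · exact ⟨0, b / 3, by omega, by omega⟩
    · by_cases h1 : b % 3 = 1
      · exact ⟨1, b / 3, by omega, by omega⟩
      · exact ⟨-1, b / 3 + 1, by omega, by omega⟩
  have h1 := T_shift_13 t1 t2 hD hDb α b c k1
  have h2 := T_shift_13 t1 t2 hD hDb β α (c + 3 * k1) k2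
  rw [← ha] at h1
  rw [← hb, p12 b, p12 β] at h2
  have hall := h1.trans h2
  have ec : c + 3 * k1 + 3 * k2 = -(α + β) := by omega
  rw [ec] at hall
  have epat : pat3 a b = pat3 α β := by
    unfold pat3
    have : ((a - b) % 3 = 0) ↔ ((α - β) % 3 = 0) := by omega
    simp only [this]
  rw [epat]
  refine hall.trans ?_
  have s1 : Asy (fun n => Y n (-1) (-1) 2) (fun n => 1 * Y n 0 0 0) := by
    have h := r1
    rw [p12, p23] at h
    exact h
  rcases hα with rfl | rfl | rfl <;> rcases hβ with rfl | rfl | rfl <;>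
    norm_num [pat3] at * <;> assumption

end third

/-- **the third order correlations vanish** (algebraic part) -/
theorem alg_third (X : ℕ → ℤ → ℤ → ℤ → ℤ → ℂ) (Y : ℕ → ℤ → ℤ → ℤ → ℂ) (V : ℕ → ℝ) (Z C : ℝ)
    (hZ : 0 ≤ Z) (hC : 0 ≤ C)
    (s1 : ∀ n a b c d, X n a b c d = X n b a c d)
    (s2 : ∀ n a b c d, X n a b c d = X n a c b d)
    (hmac : ∀ j m k l : ℤ,
      Tendsto (fun n => X n (j + 1) (m + 1) k l - X n j m (k + 1) (l + 1)) atTop
        (𝓝 ((P (j + 1) (m + 1) * P k l - P j m * P (k + 1) (l + 1)) * (Z : ℂ))))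
    (hibp : Tendsto (fun n => X n 1 0 0 (-1) + X n 0 1 0 (-1) + X n 0 0 1 (-1) + X n 0 0 0 0)
      atTop (𝓝 0))
    (t1 : ∀ n a b c, Y n a b c = Y n b a c)
    (t2 : ∀ n a b c, Y n a b c = Y n a c b)
    (hD : ∀ a b c : ℤ, Tendsto (fun n => Y n (a + 1) b c + Y n a (b + 1) c
      + Y n a b (c + 1)) atTop (𝓝 0))
    (hDb : ∀ a b c : ℤ, Tendsto (fun n => Y n (a - 1) b c + Y n a (b - 1) c
      + Y n a b (c - 1)) atTop (𝓝 0))
    (hV : ∀ᶠ n in atTop, V n ≤ C)
    (hcs : ∀ (N n : ℕ) (w : ℕ → ℝ) (l : ℝ), 0 < l →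
      ‖∑ t ∈ Finset.range N, (w t : ℂ) * Y n t (-3 - t) 3‖ ≤
        (l * V n + l⁻¹ * (-∑ t ∈ Finset.range N, ∑ u ∈ Finset.range N,
          (w t : ℂ) * (w u : ℂ) * X n t (-3 - t) (-u) (3 + u)).re) / 2)
    (a b c : ℤ) (hs : a + b + c = 0) : Tendsto (fun n => Y n a b c) atTop (𝓝 0) := by
  have hpat := T_pattern t1 t2 hD hDb
  suffices h0 : Tendsto (fun n => Y n 0 0 0) atTop (𝓝 0) by
    refine (hpat a b c hs).tendsto_zero ?_
    have := h0.const_mul (pat3 a b)
    rw [mul_zero] at this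
    exact this
  -- the weights
  set w : ℕ → ℝ := fun t => if t % 3 = 0 then 1 else -1 / 2 with hw
  have hw1 : ∀ t, |w t| ≤ 1 := by
    intro t
    simp only [hw]
    split_ifs
    · simp
    · rw [abs_le]; constructor <;> norm_num
  have hwsum : ∀ K : ℕ, ∑ t ∈ Finset.range (3 * K), (w t : ℂ) = 0 := by
    intro K
    induction K with
    | zero => simp
    | succ K ih =>
      rw [show 3 * (K + 1) = 3 * K + 1 + 1 + 1 by ring, Finset.sum_range_succ,
        Finset.sum_range_succ, Finset.sum_range_succ, ih]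
      simp only [hw]
      rw [if_pos (by omega), if_neg (by omega), if_neg (by omega)]
      push_cast
      norm_num
  have hwY : ∀ K : ℕ, ∑ t ∈ Finset.range (3 * K), (w t : ℂ) * pat3 t (-3 - t) = (3 / 2) * K := by
    intro K
    induction K with
    | zero => simp
    | succ K ih =>
      rw [show 3 * (K + 1) = 3 * K + 1 + 1 + 1 by ring, Finset.sum_range_succ,
        Finset.sum_range_succ, Finset.sum_range_succ, ih]
      simp only [hw, pat3]
      rw [if_pos (by omega), if_pos (by omega), if_neg (by omega), if_neg (by omega),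
        if_neg (by omega), if_neg (by omega)]
      push_cast
      ring
  rw [tendsto_zero_iff_norm_tendsto_zero, Metric.tendsto_atTop]
  intro ε hε
  -- the number of blocks
  obtain ⟨r, hr1, hr⟩ : ∃ r : ℕ, 1 ≤ r ∧ C + 3 * Z + 2 < r * (ε * (3 / 2)) := by
    obtain ⟨r, hr⟩ := exists_nat_gt ((C + 3 * Z + 2) / (ε * (3 / 2)))
    refine ⟨r + 1, by omega, ?_⟩
    rw [div_lt_iff₀ (by positivity)] at hr
    push_cast
    nlinarith
  have hrr : (1 : ℝ) ≤ r := by exact_mod_cast hr1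
  set K : ℕ := r ^ 2 with hK
  set N : ℕ := 3 * K with hN
  have hY : Asy (fun n => ∑ t ∈ Finset.range N, (w t : ℂ) * Y n t (-3 - t) 3)
      (fun n => ((3 / 2) * K) * Y n 0 0 0) := by
    have h1 : Asy (fun n => ∑ t ∈ Finset.range N, (w t : ℂ) * Y n t (-3 - t) 3)
        (fun n => ∑ t ∈ Finset.range N, (w t : ℂ) * (pat3 t (-3 - t) * Y n 0 0 0)) := by
      refine Asy.sum (Finset.range N) (f := fun (t : ℕ) n => (w t : ℂ) * Y n t (-3 - t) 3)
        (g := fun (t : ℕ) n => (w t : ℂ) * (pat3 t (-3 - t) * Y n 0 0 0)) fun t _ => ?_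
      exact (hpat _ _ _ (by ring)).const_mul _
    refine h1.trans (Asy.of_eq ?_)
    funext n
    rw [← hwY K, Finset.sum_mul]
    refine Finset.sum_congr rfl fun t _ => ?_
    ring
  have hX : Tendsto (fun n => ∑ t ∈ Finset.range N, ∑ u ∈ Finset.range N,
      (w t : ℂ) * (w u : ℂ) * Err X Z t (-3 - t) (-u) (3 + u) n) atTop (𝓝 0) := by
    have h1 : Asy (fun n => ∑ t ∈ Finset.range N, ∑ u ∈ Finset.range N,
        (w t : ℂ) * (w u : ℂ) * Err X Z t (-3 - t) (-u) (3 + u) n)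
        (fun n => ∑ t ∈ Finset.range N, ∑ u ∈ Finset.range N,
        (w t : ℂ) * (w u : ℂ) * ((-1 / 3) * Err X Z 0 0 0 0 n)) := by
      refine Asy.sum (Finset.range N) (f := fun (t : ℕ) n => ∑ u ∈ Finset.range N,
        (w t : ℂ) * (w u : ℂ) * Err X Z t (-3 - t) (-u) (3 + u) n)
        (g := fun (t : ℕ) n => ∑ u ∈ Finset.range N,
        (w t : ℂ) * (w u : ℂ) * ((-1 / 3) * Err X Z 0 0 0 0 n)) fun t _ => ?_
      refine Asy.sum (Finset.range N) (f := fun (u : ℕ) n =>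
        (w t : ℂ) * (w u : ℂ) * Err X Z t (-3 - t) (-u) (3 + u) n)
        (g := fun (u : ℕ) n =>
        (w t : ℂ) * (w u : ℂ) * ((-1 / 3) * Err X Z 0 0 0 0 n)) fun u _ => ?_
      have h2 := Err_pattern (Z := Z) s1 s2 hmac hibp t (-3 - t) (-u) (3 + u) (by ring)
      have h3 : pat (t : ℤ) (-3 - t) (-u) (3 + u) = -1 / 3 := by
        unfold pat
        rw [if_neg]
        omega
      rw [h3] at h2
      exact h2.const_mul _
    refine h1.tendsto_zero ?_
    have e : ∀ n, ∑ t ∈ Finset.range N, ∑ u ∈ Finset.range N,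
        (w t : ℂ) * (w u : ℂ) * ((-1 / 3) * Err X Z 0 0 0 0 n) = 0 := by
      intro n
      have : ∀ t ∈ Finset.range N, ∑ u ∈ Finset.range N,
          (w t : ℂ) * (w u : ℂ) * ((-1 / 3) * Err X Z 0 0 0 0 n) = 0 := by
        intro t _
        have e2 : ∑ u ∈ Finset.range N,
            (w t : ℂ) * (w u : ℂ) * ((-1 / 3) * Err X Z 0 0 0 0 n)
            = (w t : ℂ) * ((-1 / 3) * Err X Z 0 0 0 0 n) * ∑ u ∈ Finset.range N, (w u : ℂ) := by
          rw [Finset.mul_sum]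
          refine Finset.sum_congr rfl fun u _ => ?_
          ring
        rw [e2, hN, hwsum, mul_zero]
      exact Finset.sum_eq_zero this
    simp only [e]
    exact tendsto_const_nhds
  have hG : ‖∑ t ∈ Finset.range N, ∑ u ∈ Finset.range N,
      (w t : ℂ) * (w u : ℂ) * (G t (-3 - t) (-u) (3 + u) * (Z : ℂ))‖ ≤ N * Z := by
    have hone : ∀ t u : ℕ, ‖(w t : ℂ) * (w u : ℂ) * (G t (-3 - t) (-u) (3 + u) * (Z : ℂ))‖ ≤
        (if u = t then Z else 0) := by
      intro t u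
      have h0 : P (t : ℤ) (-3 - t) = 0 := by unfold P; rw [if_neg]; omega
      have h1 : P (t : ℤ) (3 + u) = 0 := by unfold P; rw [if_neg]; omega
      have hwn : ∀ s, ‖(w s : ℂ)‖ ≤ 1 := fun s => by
        rw [Complex.norm_real, Real.norm_eq_abs]; exact hw1 s
      have hGle : ‖G (t : ℤ) (-3 - t) (-u) (3 + u)‖ ≤ if u = t then 1 else 0 := by
        unfold G
        rw [h0, h1]
        simp only [zero_mul, zero_add, add_zero]
        rw [norm_mul]
        have h2 := norm_P_le (t : ℤ) (-u)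
        have h3 : ‖P (-3 - (t : ℤ)) (3 + u)‖ ≤ 1 :=
          (norm_P_le _ _).trans (by split_ifs <;> norm_num)
        by_cases hut : u = t
        · rw [if_pos hut]
          have h4 : ‖P (t : ℤ) (-u)‖ ≤ 1 := h2.trans (by split_ifs <;> norm_num)
          calc ‖P (t : ℤ) (-u)‖ * ‖P (-3 - (t : ℤ)) (3 + u)‖ ≤ 1 * 1 := by gcongr
            _ = 1 := one_mul 1
        · rw [if_neg hut]
          rw [if_neg (by omega)] at h2
          have h4 : ‖P (t : ℤ) (-u)‖ = 0 := le_antisymm h2 (norm_nonneg _)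
          rw [h4, zero_mul]
      have hZn : ‖(Z : ℂ)‖ = Z := by rw [Complex.norm_real, Real.norm_of_nonneg hZ]
      rw [norm_mul, norm_mul, norm_mul, hZn]
      calc ‖(w t : ℂ)‖ * ‖(w u : ℂ)‖ * (‖G (t : ℤ) (-3 - t) (-u) (3 + u)‖ * Z)
          ≤ 1 * 1 * ((if u = t then 1 else 0) * Z) := by
            gcongr
            · exact hwn t
            · exact hwn u
        _ = if u = t then Z else 0 := by split_ifs <;> simp
    calc ‖∑ t ∈ Finset.range N, ∑ u ∈ Finset.range N,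
          (w t : ℂ) * (w u : ℂ) * (G t (-3 - t) (-u) (3 + u) * (Z : ℂ))‖
        ≤ ∑ t ∈ Finset.range N, ∑ u ∈ Finset.range N,
          ‖(w t : ℂ) * (w u : ℂ) * (G t (-3 - t) (-u) (3 + u) * (Z : ℂ))‖ :=
          (norm_sum_le _ _).trans (Finset.sum_le_sum fun t _ => norm_sum_le _ _)
      _ ≤ ∑ t ∈ Finset.range N, ∑ u ∈ Finset.range N, (if u = t then Z else 0) :=
          Finset.sum_le_sum fun t _ => Finset.sum_le_sum fun u _ => hone t u
      _ = ∑ _t ∈ Finset.range N, Z := by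
          refine Finset.sum_congr rfl fun t ht => ?_
          rw [Finset.sum_ite_eq', if_pos ht]
      _ = N * Z := by rw [Finset.sum_const, Finset.card_range, nsmul_eq_mul]
  have ev1 := (Metric.tendsto_nhds.mp hX) 1 one_pos
  have ev2 := (Metric.tendsto_nhds.mp hY) 1 one_pos
  have hev : ∀ᶠ n in atTop, ‖Y n 0 0 0‖ < ε := by
    filter_upwards [ev1, ev2, hV] with n h1 h2 h3
    rw [dist_zero_right] at h1 h2
    have hrp : (0 : ℝ) < r := by linarith
    have k1 := hcs N n w (r : ℝ) hrp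
    have k2 : (-∑ t ∈ Finset.range N, ∑ u ∈ Finset.range N,
        (w t : ℂ) * (w u : ℂ) * X n t (-3 - t) (-u) (3 + u)).re ≤ 1 + N * Z := by
      have e : -∑ t ∈ Finset.range N, ∑ u ∈ Finset.range N,
          (w t : ℂ) * (w u : ℂ) * X n t (-3 - t) (-u) (3 + u)
          = -((∑ t ∈ Finset.range N, ∑ u ∈ Finset.range N,
          (w t : ℂ) * (w u : ℂ) * Err X Z t (-3 - t) (-u) (3 + u) n)
          + ∑ t ∈ Finset.range N, ∑ u ∈ Finset.range N,
          (w t : ℂ) * (w u : ℂ) * (G t (-3 - t) (-u) (3 + u) * (Z : ℂ))) := by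
        rw [← Finset.sum_add_distrib]
        congr 1
        refine Finset.sum_congr rfl fun t _ => ?_
        rw [← Finset.sum_add_distrib]
        refine Finset.sum_congr rfl fun u _ => ?_
        unfold Err
        ring
      rw [e]
      refine (Complex.re_le_norm _).trans ?_
      rw [norm_neg]
      refine (norm_add_le _ _).trans (add_le_add h1.le hG)
    have k3 : ‖((3 / 2 : ℂ) * K) * Y n 0 0 0‖
        ≤ ‖∑ t ∈ Finset.range N, (w t : ℂ) * Y n t (-3 - t) 3‖ + 1 := by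
      have e : ((3 / 2 : ℂ) * K) * Y n 0 0 0
          = (∑ t ∈ Finset.range N, (w t : ℂ) * Y n t (-3 - t) 3)
            - ((∑ t ∈ Finset.range N, (w t : ℂ) * Y n t (-3 - t) 3)
              - ((3 / 2 : ℂ) * K) * Y n 0 0 0) := by ring
      rw [e]
      exact (norm_sub_le _ _).trans (add_le_add le_rfl h2.le)
    have k4 : ‖((3 / 2 : ℂ) * K) * Y n 0 0 0‖ = (3 / 2) * (r : ℝ) ^ 2 * ‖Y n 0 0 0‖ := by
      rw [norm_mul, norm_mul, hK]
      simp
    rw [k4] at k3
    have hNr : (N : ℝ) = 3 * (r : ℝ) ^ 2 := by rw [hN, hK]; push_cast; ring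
    rw [hNr] at k2
    have k5 : (r : ℝ) * V n ≤ r * C := by gcongr
    have k6 : (r : ℝ)⁻¹ * (-∑ t ∈ Finset.range N, ∑ u ∈ Finset.range N,
        (w t : ℂ) * (w u : ℂ) * X n t (-3 - t) (-u) (3 + u)).re ≤ 1 + 3 * r * Z := by
      calc (r : ℝ)⁻¹ * (-∑ t ∈ Finset.range N, ∑ u ∈ Finset.range N,
            (w t : ℂ) * (w u : ℂ) * X n t (-3 - t) (-u) (3 + u)).re
          ≤ (r : ℝ)⁻¹ * (1 + 3 * (r : ℝ) ^ 2 * Z) := by gcongr
        _ = (r : ℝ)⁻¹ + 3 * r * Z := by field_simp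
        _ ≤ 1 + 3 * r * Z := by
            have : (r : ℝ)⁻¹ ≤ 1 := inv_le_one_of_one_le₀ hrr
            linarith
    have k7 : (3 / 2) * (r : ℝ) ^ 2 * ‖Y n 0 0 0‖ ≤ (r * C + (1 + 3 * r * Z)) / 2 + 1 := by
      linarith
    have k8 : (r : ℝ) * ‖Y n 0 0 0‖ * (3 / 2) ≤ C + 3 * Z + 2 := by
      have m1 : (3 / 2) * (r : ℝ) ^ 2 * ‖Y n 0 0 0‖ ≤ r * (C + 3 * Z + 2) := by nlinarith
      have m2 : (r : ℝ) * ((r : ℝ) * ‖Y n 0 0 0‖ * (3 / 2)) ≤ r * (C + 3 * Z + 2) := by
        calc (r : ℝ) * ((r : ℝ) * ‖Y n 0 0 0‖ * (3 / 2)) = (3 / 2) * (r : ℝ) ^ 2 * ‖Y n 0 0 0‖ := by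
              ring
          _ ≤ _ := m1
      exact le_of_mul_le_mul_left m2 hrp
    by_contra hcon
    rw [not_lt] at hcon
    have m3 : (r : ℝ) * (ε * (3 / 2)) ≤ (r : ℝ) * ‖Y n 0 0 0‖ * (3 / 2) := by
      have : (r : ℝ) * ε ≤ r * ‖Y n 0 0 0‖ := by gcongr
      nlinarith
    linarith
  obtain ⟨n0, hn0⟩ := eventually_atTop.mp hev
  refine ⟨n0, fun n hn => ?_⟩
  rw [dist_zero_right, norm_norm]
  exact hn0 n hn

end QE
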