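import Pool.Agent.Lib_helper67.QE.Local
import Pool.Agent.Lib_helper67.QE.Alg3
import Pool.Agent.Lib_helper67.QE.Localize

/-!
The correlations of four and of three jets, for arbitrary test functions.
-/

open Complex MeasureTheory Filter Topology
open scoped ContDiff

namespace QE

noncomputable section

variable {U : Set ℂ} {h : ℕ → ℝ}

/-- products of two `L²` bounded sequences have bounded integrals against test functions -/
theorem LBdd.test_mul {A B : ℕ → ℂ → ℂ} (hA : LBdd 2 U A) (sA : SmoothSeq U A) (hB : LBdd 2 U B)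
    (sB : SmoothSeq U B) {ζ : ℂ → ℂ} (hζ : Test U ζ) :
    ∃ C : ℝ, ∀ᶠ n in atTop, ‖∫ z, ζ z * (A n z * B n z)‖ ≤ C := by
  have hKc : IsCompact (tsupport ζ) := hζ.supp
  obtain ⟨C, hC⟩ := hA _ hKc hζ.sub
  obtain ⟨D, hD⟩ := hB _ hKc hζ.sub
  obtain ⟨M, hM⟩ := hζ.smooth.continuous.bounded_above_of_compact_support hζ.supp
  have hM0 : 0 ≤ M := (norm_nonneg _).trans (hM 0)
  refine ⟨M * (C + D), ?_⟩
  filter_upwards [hC, hD] with n hn hn'
  have e : ∫ z, ζ z * (A n z * B n z) = ∫ z in tsupport ζ, ζ z * (A n z * B n z) := by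
    rw [setIntegral_eq_integral_of_forall_compl_eq_zero]
    intro z hz
    rw [image_eq_zero_of_notMem_tsupport hz, zero_mul]
  rw [e]
  have hi : IntegrableOn (fun z => ‖A n z‖ ^ 2) (tsupport ζ) := sA.intOn hKc hζ.sub 2 n
  have hj : IntegrableOn (fun z => ‖B n z‖ ^ 2) (tsupport ζ) := sB.intOn hKc hζ.sub 2 n
  calc ‖∫ z in tsupport ζ, ζ z * (A n z * B n z)‖
      ≤ ∫ z in tsupport ζ, ‖ζ z * (A n z * B n z)‖ := norm_integral_le_integral_norm _
    _ ≤ ∫ z in tsupport ζ, M * (‖A n z‖ ^ 2 + ‖B n z‖ ^ 2) := by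
        refine integral_mono_of_nonneg (Filter.Eventually.of_forall fun z => norm_nonneg _)
          ((hi.add hj).const_mul M) (Filter.Eventually.of_forall fun z => ?_)
        simp only [norm_mul]
        refine mul_le_mul (hM z) ?_ (by positivity) hM0
        nlinarith [sq_nonneg (‖A n z‖ - ‖B n z‖), norm_nonneg (A n z), norm_nonneg (B n z)]
    _ = M * ((∫ z in tsupport ζ, ‖A n z‖ ^ 2) + ∫ z in tsupport ζ, ‖B n z‖ ^ 2) := by
        rw [integral_const_mul, integral_add hi hj]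
    _ ≤ _ := by gcongr

theorem tendsto_h_test_mul (hh0 : Tendsto h atTop (𝓝 0)) {A B : ℕ → ℂ → ℂ} (hA : LBdd 2 U A)
    (sA : SmoothSeq U A) (hB : LBdd 2 U B) (sB : SmoothSeq U B) {ζ : ℂ → ℂ} (hζ : Test U ζ) :
    Tendsto (fun n => (h n : ℂ) * ∫ z, ζ z * (A n z * B n z)) atTop (𝓝 0) := by
  obtain ⟨C, hC⟩ := hA.test_mul sA hB sB hζ
  have h1 : Tendsto (fun n => ‖((h n : ℝ) : ℂ)‖ * C) atTop (𝓝 0) := by
    have := ((continuous_ofReal.tendsto 0).comp hh0).norm.mul_const C
    simpa using this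
  refine squeeze_zero_norm' ?_ h1
  filter_upwards [hC] with n hn
  rw [norm_mul]
  gcongr

theorem LBdd.two_of_four {u : ℕ → ℂ → ℂ} (hu : LBdd 4 U u) (su : SmoothSeq U u) : LBdd 2 U u := by
  have h1 : LBdd 4 U (fun _ _ => (1 : ℂ)) := by
    intro K hK _
    exact ⟨∫ z in K, ‖(1 : ℂ)‖ ^ 4, Filter.Eventually.of_forall fun n => le_rfl⟩
  refine (hu.mul4 su h1 (fun n => contDiffOn_const)).congr fun n z _ => ?_
  rw [mul_one]

theorem integral_add_three' {f₁ f₂ f₃ : ℂ → ℂ} (h₁ : Integrable f₁) (h₂ : Integrable f₂)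
    (h₃ : Integrable f₃) : ∫ z, (f₁ z + f₂ z + f₃ z) = (∫ z, f₁ z) + (∫ z, f₂ z) + ∫ z, f₃ z := by
  have e2 : ∫ z, (f₁ z + f₂ z + f₃ z) = (∫ z, (f₁ z + f₂ z)) + ∫ z, f₃ z :=
    integral_add (h₁.add h₂) h₃
  have e3 : ∫ z, (f₁ z + f₂ z) = (∫ z, f₁ z) + ∫ z, f₂ z := integral_add h₁ h₂
  rw [e2, e3]

/-- integration by parts for `- 2 i h a ∂` -/
theorem ibp_LL {a : ℂ → ℂ} (hU : IsOpen U) (hh0 : Tendsto h atTop (𝓝 0))
    (ha : ContDiffOn ℝ ∞ a U) {u v u' v' r s : ℕ → ℂ → ℂ}
    (su : SmoothSeq U u) (sv : SmoothSeq U v) (su' : SmoothSeq U u') (sv' : SmoothSeq U v')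
    (sr : SmoothSeq U r) (ss : SmoothSeq U s)
    (bu : LBdd 2 U u) (bv : LBdd 2 U v) (br : LBdd 2 U r) (bs : LBdd 2 U s)
    (hu : ∀ n, ∀ z ∈ U, -(2 * I * h n) * a z * dz (u n) z = u' n z + (h n : ℂ) * r n z)
    (hv : ∀ n, ∀ z ∈ U, -(2 * I * h n) * a z * dz (v n) z = v' n z + (h n : ℂ) * s n z)
    {ζ : ℂ → ℂ} (hζ : Test U ζ) :
    Tendsto (fun n => ∫ z, ζ z * (u' n z * v n z + u n z * v' n z)) atTop (𝓝 0) := by
  have hζa : Test U (dz (fun z => ζ z * a z)) := (hζ.mul hU ha).dz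
  have t1 := (tendsto_h_test_mul hh0 bu su bv sv hζa).const_mul (2 * I)
  have t2 := tendsto_h_test_mul hh0 br sr bv sv hζ
  have t3 := tendsto_h_test_mul hh0 bu su bs ss hζ
  have t4 := (t1.sub t2).sub t3
  rw [mul_zero, sub_zero, sub_zero] at t4
  refine t4.congr fun n => ?_
  have i1 : Integrable (fun z => ζ z * (u' n z * v n z + u n z * v' n z)) :=
    hζ.int hU (((su'.mul sv).add (su.mul sv')) n)
  have i3 : Integrable (fun z => ζ z * (r n z * v n z)) := hζ.int hU ((sr.mul sv) n)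
  have i4 : Integrable (fun z => ζ z * (u n z * s n z)) := hζ.int hU ((su.mul ss) n)
  have e0 : ∫ z, (ζ z * a z) * dz (fun z => u n z * v n z) z
      = - ∫ z, dz (fun z => ζ z * a z) z * (u n z * v n z) :=
    integral_mul_dz hU (hζ.mul hU ha) ((su.mul sv) n)
  have e1 : -(2 * I * h n) * ∫ z, (ζ z * a z) * dz (fun z => u n z * v n z) z
      = ∫ z, (ζ z * (u' n z * v n z + u n z * v' n z)
        + (h n : ℂ) * (ζ z * (r n z * v n z)) + (h n : ℂ) * (ζ z * (u n z * s n z))) := by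
    have e2 := hζ.integral_congr (f := fun z => -(2 * I * h n) * a z
      * dz (fun z => u n z * v n z) z) (f' := fun z => u' n z * v n z + u n z * v' n z
        + (h n : ℂ) * (r n z * v n z + u n z * s n z)) (fun z hz => by
          rw [dz_mul (su.dAt hU n hz) (sv.dAt hU n hz)]
          linear_combination v n z * hu n z hz + u n z * hv n z hz)
    rw [← integral_const_mul]
    refine Eq.trans ?_ (e2.trans ?_)
    · refine MeasureTheory.integral_congr_ae (Filter.Eventually.of_forall fun z => ?_)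
      beta_reduce; ring
    · refine MeasureTheory.integral_congr_ae (Filter.Eventually.of_forall fun z => ?_)
      beta_reduce; ring
  have i3' := i3.const_mul (h n : ℂ)
  have i4' := i4.const_mul (h n : ℂ)
  have e5 : ∫ z, (ζ z * (u' n z * v n z + u n z * v' n z)
        + (h n : ℂ) * (ζ z * (r n z * v n z)) + (h n : ℂ) * (ζ z * (u n z * s n z)))
      = (∫ z, ζ z * (u' n z * v n z + u n z * v' n z))
        + (h n : ℂ) * (∫ z, ζ z * (r n z * v n z))
        + (h n : ℂ) * (∫ z, ζ z * (u n z * s n z)) := by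
    rw [← integral_const_mul, ← integral_const_mul]
    exact integral_add_three' i1 i3' i4'
  rw [e5, e0] at e1
  linear_combination e1

/-- integration by parts for `- 2 i h a ∂̄` -/
theorem ibp_LLb {a : ℂ → ℂ} (hU : IsOpen U) (hh0 : Tendsto h atTop (𝓝 0))
    (ha : ContDiffOn ℝ ∞ a U) {u v u' v' r s : ℕ → ℂ → ℂ}
    (su : SmoothSeq U u) (sv : SmoothSeq U v) (su' : SmoothSeq U u') (sv' : SmoothSeq U v')
    (sr : SmoothSeq U r) (ss : SmoothSeq U s)
    (bu : LBdd 2 U u) (bv : LBdd 2 U v) (br : LBdd 2 U r) (bs : LBdd 2 U s)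
    (hu : ∀ n, ∀ z ∈ U, -(2 * I * h n) * a z * dzb (u n) z = u' n z + (h n : ℂ) * r n z)
    (hv : ∀ n, ∀ z ∈ U, -(2 * I * h n) * a z * dzb (v n) z = v' n z + (h n : ℂ) * s n z)
    {ζ : ℂ → ℂ} (hζ : Test U ζ) :
    Tendsto (fun n => ∫ z, ζ z * (u' n z * v n z + u n z * v' n z)) atTop (𝓝 0) := by
  have hζa : Test U (dzb (fun z => ζ z * a z)) := (hζ.mul hU ha).dzb
  have t1 := (tendsto_h_test_mul hh0 bu su bv sv hζa).const_mul (2 * I)
  have t2 := tendsto_h_test_mul hh0 br sr bv sv hζ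
  have t3 := tendsto_h_test_mul hh0 bu su bs ss hζ
  have t4 := (t1.sub t2).sub t3
  rw [mul_zero, sub_zero, sub_zero] at t4
  refine t4.congr fun n => ?_
  have i1 : Integrable (fun z => ζ z * (u' n z * v n z + u n z * v' n z)) :=
    hζ.int hU (((su'.mul sv).add (su.mul sv')) n)
  have i3 : Integrable (fun z => ζ z * (r n z * v n z)) := hζ.int hU ((sr.mul sv) n)
  have i4 : Integrable (fun z => ζ z * (u n z * s n z)) := hζ.int hU ((su.mul ss) n)
  have e0 : ∫ z, (ζ z * a z) * dzb (fun z => u n z * v n z) z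
      = - ∫ z, dzb (fun z => ζ z * a z) z * (u n z * v n z) :=
    integral_mul_dzb hU (hζ.mul hU ha) ((su.mul sv) n)
  have e1 : -(2 * I * h n) * ∫ z, (ζ z * a z) * dzb (fun z => u n z * v n z) z
      = ∫ z, (ζ z * (u' n z * v n z + u n z * v' n z)
        + (h n : ℂ) * (ζ z * (r n z * v n z)) + (h n : ℂ) * (ζ z * (u n z * s n z))) := by
    have e2 := hζ.integral_congr (f := fun z => -(2 * I * h n) * a z
      * dzb (fun z => u n z * v n z) z) (f' := fun z => u' n z * v n z + u n z * v' n z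
        + (h n : ℂ) * (r n z * v n z + u n z * s n z)) (fun z hz => by
          rw [dzb_mul (su.dAt hU n hz) (sv.dAt hU n hz)]
          linear_combination v n z * hu n z hz + u n z * hv n z hz)
    rw [← integral_const_mul]
    refine Eq.trans ?_ (e2.trans ?_)
    · refine MeasureTheory.integral_congr_ae (Filter.Eventually.of_forall fun z => ?_)
      beta_reduce; ring
    · refine MeasureTheory.integral_congr_ae (Filter.Eventually.of_forall fun z => ?_)
      beta_reduce; ring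
  have i3' := i3.const_mul (h n : ℂ)
  have i4' := i4.const_mul (h n : ℂ)
  have e5 : ∫ z, (ζ z * (u' n z * v n z + u n z * v' n z)
        + (h n : ℂ) * (ζ z * (r n z * v n z)) + (h n : ℂ) * (ζ z * (u n z * s n z)))
      = (∫ z, ζ z * (u' n z * v n z + u n z * v' n z))
        + (h n : ℂ) * (∫ z, ζ z * (r n z * v n z))
        + (h n : ℂ) * (∫ z, ζ z * (u n z * s n z)) := by
    rw [← integral_const_mul, ← integral_const_mul]
    exact integral_add_three' i1 i3' i4'
  rw [e5, e0] at e1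
  linear_combination e1

namespace Setup

variable {a : ℂ → ℂ} {g : ℂ → ℂ} {φ : ℕ → ℂ → ℂ} (S : Setup U g a h φ)

include S

theorem sm2 (j m : ℤ) : SmoothSeq U (fun n z => E h a φ j n z * E h a φ m n z) :=
  (S.tame_E j).smooth.mul (S.tame_E m).smooth

theorem bd2 (j m : ℤ) : LBdd 2 U (fun n z => E h a φ j n z * E h a φ m n z) :=
  (S.tame_E j).bdd4.mul4 (S.tame_E j).smooth (S.tame_E m).bdd4 (S.tame_E m).smooth

theorem int4 {ζ : ℂ → ℂ} (hζ : Test U ζ) (n : ℕ) (j m k l : ℤ) : Integrable (fun z => ζ z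
    * (E h a φ j n z * E h a φ m n z * (E h a φ k n z * E h a φ l n z))) :=
  hζ.int S.op (((S.sm2 j m).mul (S.sm2 k l)) n)

theorem int3 {ζ : ℂ → ℂ} (hζ : Test U ζ) (n : ℕ) (j m k : ℤ) : Integrable (fun z => ζ z
    * (E h a φ j n z * E h a φ m n z * E h a φ k n z)) :=
  hζ.int S.op (((S.sm2 j m).mul (S.tame_E k).smooth) n)

/-- integration by parts for four jets -/
theorem ibp4 (j m k l : ℤ) {ζ : ℂ → ℂ} (hζ : Test U ζ) :
    Tendsto (fun n =>
      (∫ z, ζ z * (E h a φ (j + 1) n z * E h a φ m n z * (E h a φ k n z * E h a φ l n z)))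
      + (∫ z, ζ z * (E h a φ j n z * E h a φ (m + 1) n z * (E h a φ k n z * E h a φ l n z)))
      + (∫ z, ζ z * (E h a φ j n z * E h a φ m n z * (E h a φ (k + 1) n z * E h a φ l n z)))
      + (∫ z, ζ z * (E h a φ j n z * E h a φ m n z * (E h a φ k n z * E h a φ (l + 1) n z))))
      atTop (𝓝 0) := by
  obtain ⟨w, v, hw, hv, he⟩ := S.LL_prod j m
  obtain ⟨w', v', hw', hv', he'⟩ := S.LL_prod k l
  have hE := fun j => (S.tame_E j)
  have key := ibp_LL S.op S.hlim S.ha
    (u := fun n z => E h a φ j n z * E h a φ m n z)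
    (v := fun n z => E h a φ k n z * E h a φ l n z)
    (u' := fun n z => E h a φ (j + 1) n z * E h a φ m n z + E h a φ j n z * E h a φ (m + 1) n z)
    (v' := fun n z => E h a φ (k + 1) n z * E h a φ l n z + E h a φ k n z * E h a φ (l + 1) n z)
    (r := fun n z => w n z * E h a φ m n z + E h a φ j n z * v n z)
    (s := fun n z => w' n z * E h a φ l n z + E h a φ k n z * v' n z)
    (S.sm2 j m) (S.sm2 k l) ((S.sm2 (j + 1) m).add (S.sm2 j (m + 1)))
    ((S.sm2 (k + 1) l).add (S.sm2 k (l + 1)))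
    ((hw.smooth.mul (hE m).smooth).add ((hE j).smooth.mul hv.smooth))
    ((hw'.smooth.mul (hE l).smooth).add ((hE k).smooth.mul hv'.smooth))
    (S.bd2 j m) (S.bd2 k l)
    ((hw.bdd4.mul4 hw.smooth (hE m).bdd4 (hE m).smooth).add (hw.smooth.mul (hE m).smooth)
      ((hE j).bdd4.mul4 (hE j).smooth hv.bdd4 hv.smooth) ((hE j).smooth.mul hv.smooth))
    ((hw'.bdd4.mul4 hw'.smooth (hE l).bdd4 (hE l).smooth).add (hw'.smooth.mul (hE l).smooth)
      ((hE k).bdd4.mul4 (hE k).smooth hv'.bdd4 hv'.smooth) ((hE k).smooth.mul hv'.smooth))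
    he he' hζ
  refine key.congr fun n => ?_
  rw [← integral_add_four (S.int4 hζ n _ _ _ _) (S.int4 hζ n _ _ _ _) (S.int4 hζ n _ _ _ _)
    (S.int4 hζ n _ _ _ _)]
  refine MeasureTheory.integral_congr_ae (Filter.Eventually.of_forall fun z => ?_)
  beta_reduce; ring

/-- integration by parts for three jets -/
theorem ibp3 (j m k : ℤ) {ζ : ℂ → ℂ} (hζ : Test U ζ) :
    Tendsto (fun n =>
      (∫ z, ζ z * (E h a φ (j + 1) n z * E h a φ m n z * E h a φ k n z))
      + (∫ z, ζ z * (E h a φ j n z * E h a φ (m + 1) n z * E h a φ k n z))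
      + (∫ z, ζ z * (E h a φ j n z * E h a φ m n z * E h a φ (k + 1) n z))) atTop (𝓝 0) := by
  obtain ⟨w, v, hw, hv, he⟩ := S.LL_prod j m
  obtain ⟨w', hw', he'⟩ := S.LL_E k
  have hE := fun j => (S.tame_E j)
  have key := ibp_LL S.op S.hlim S.ha
    (u := fun n z => E h a φ j n z * E h a φ m n z)
    (v := fun n z => E h a φ k n z)
    (u' := fun n z => E h a φ (j + 1) n z * E h a φ m n z + E h a φ j n z * E h a φ (m + 1) n z)
    (v' := fun n z => E h a φ (k + 1) n z)
    (r := fun n z => w n z * E h a φ m n z + E h a φ j n z * v n z)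
    (s := w')
    (S.sm2 j m) (hE k).smooth ((S.sm2 (j + 1) m).add (S.sm2 j (m + 1)))
    (hE (k + 1)).smooth
    ((hw.smooth.mul (hE m).smooth).add ((hE j).smooth.mul hv.smooth)) hw'.smooth
    (S.bd2 j m) ((hE k).bdd4.two_of_four (hE k).smooth)
    ((hw.bdd4.mul4 hw.smooth (hE m).bdd4 (hE m).smooth).add (hw.smooth.mul (hE m).smooth)
      ((hE j).bdd4.mul4 (hE j).smooth hv.bdd4 hv.smooth) ((hE j).smooth.mul hv.smooth))
    (hw'.bdd4.two_of_four hw'.smooth) he he' hζ
  refine key.congr fun n => ?_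
  rw [← integral_add_three' (S.int3 hζ n _ _ _) (S.int3 hζ n _ _ _) (S.int3 hζ n _ _ _)]
  refine MeasureTheory.integral_congr_ae (Filter.Eventually.of_forall fun z => ?_)
  beta_reduce; ring

/-- integration by parts for three jets -/
theorem ibp3b (j m k : ℤ) {ζ : ℂ → ℂ} (hζ : Test U ζ) :
    Tendsto (fun n =>
      (∫ z, ζ z * (E h a φ (j - 1) n z * E h a φ m n z * E h a φ k n z))
      + (∫ z, ζ z * (E h a φ j n z * E h a φ (m - 1) n z * E h a φ k n z))
      + (∫ z, ζ z * (E h a φ j n z * E h a φ m n z * E h a φ (k - 1) n z))) atTop (𝓝 0) := by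
  obtain ⟨w, v, hw, hv, he⟩ := S.LLb_prod j m
  obtain ⟨w', hw', he'⟩ := S.LLb_E k
  have hE := fun j => (S.tame_E j)
  have key := ibp_LLb S.op S.hlim S.ha
    (u := fun n z => E h a φ j n z * E h a φ m n z)
    (v := fun n z => E h a φ k n z)
    (u' := fun n z => E h a φ (j - 1) n z * E h a φ m n z + E h a φ j n z * E h a φ (m - 1) n z)
    (v' := fun n z => E h a φ (k - 1) n z)
    (r := fun n z => w n z * E h a φ m n z + E h a φ j n z * v n z)
    (s := w')
    (S.sm2 j m) (hE k).smooth ((S.sm2 (j - 1) m).add (S.sm2 j (m - 1)))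
    (hE (k - 1)).smooth
    ((hw.smooth.mul (hE m).smooth).add ((hE j).smooth.mul hv.smooth)) hw'.smooth
    (S.bd2 j m) ((hE k).bdd4.two_of_four (hE k).smooth)
    ((hw.bdd4.mul4 hw.smooth (hE m).bdd4 (hE m).smooth).add (hw.smooth.mul (hE m).smooth)
      ((hE j).bdd4.mul4 (hE j).smooth hv.bdd4 hv.smooth) ((hE j).smooth.mul hv.smooth))
    (hw'.bdd4.two_of_four hw'.smooth) he he' hζ
  refine key.congr fun n => ?_
  rw [← integral_add_three' (S.int3 hζ n _ _ _) (S.int3 hζ n _ _ _) (S.int3 hζ n _ _ _)]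
  refine MeasureTheory.integral_congr_ae (Filter.Eventually.of_forall fun z => ?_)
  beta_reduce; ring

/-- the currents, for complex test functions -/
theorem hmac (htwo : ∀ (j m : ℤ) (η : ℂ → ℂ), Test U η →
      Tendsto (fun n => ∫ z, η z * (E h a φ j n z * E h a φ m n z)) atTop
      (𝓝 (P j m * ∫ z, η z))) (j m k l : ℤ) {ζ : ℂ → ℂ} (hζ : Test U ζ) :
    Tendsto (fun n =>
      (∫ z, ζ z * (E h a φ (j + 1) n z * E h a φ (m + 1) n z * (E h a φ k n z * E h a φ l n z)))
      - (∫ z, ζ z * (E h a φ j n z * E h a φ m n z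
        * (E h a φ (k + 1) n z * E h a φ (l + 1) n z)))) atTop
      (𝓝 ((P (j + 1) (m + 1) * P k l - P j m * P (k + 1) (l + 1)) * ∫ z, ζ z)) := by
  have hneg : ∀ (j m : ℤ) (η : ℂ → ℂ), Test U η →
    Tendsto (fun n => ∫ z, η z * (-(E h a φ j n z * E h a φ m n z))) atTop
    (𝓝 (-P j m * ∫ z, η z)) := by
    intro j m η hη
    have := (htwo j m η hη).neg
    rw [neg_mul]
    refine this.congr fun n => ?_
    rw [← integral_neg]
    refine MeasureTheory.integral_congr_ae (Filter.Eventually.of_forall fun z => ?_)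
    beta_reduce; ring
  have hd := div_curl S.op (A := fun n z => E h a φ j n z * E h a φ m n z)
    (B := fun n z => -(E h a φ (j + 1) n z * E h a φ (m + 1) n z))
    (A' := fun n z => E h a φ k n z * E h a φ l n z)
    (B' := fun n z => -(E h a φ (k + 1) n z * E h a φ (l + 1) n z))
    (S.sm2 j m) (S.sm2 (j + 1) (m + 1)).neg (S.sm2 k l) (S.sm2 (k + 1) (l + 1)).neg
    (S.bd2 j m) (S.bd2 (j + 1) (m + 1)).neg (S.bd2 k l) (S.bd2 (k + 1) (l + 1)).neg
    (S.div_bdd j m) (S.div_bdd k l) (htwo j m) (hneg (j + 1) (m + 1)) (htwo k l)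
    (hneg (k + 1) (l + 1)) hζ
  have e1 : (P (j + 1) (m + 1) * P k l - P j m * P (k + 1) (l + 1)) * (∫ z, ζ z)
      = (P j m * -P (k + 1) (l + 1) - -P (j + 1) (m + 1) * P k l) * ∫ z, ζ z := by
    ring
  rw [e1]
  refine hd.congr fun n => ?_
  rw [← integral_sub (S.int4 hζ n _ _ _ _) (S.int4 hζ n _ _ _ _)]
  refine MeasureTheory.integral_congr_ae (Filter.Eventually.of_forall fun z => ?_)
  beta_reduce; ring

/-- the two point function of a quantum ergodic sequence -/
theorem two_pt {g₀ : ℂ → ℝ} (H : LocalQE U g₀ h φ) (j m : ℤ) (η : ℂ → ℂ) (hη : Test U η) :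
    Tendsto (fun n => ∫ z, η z * (E h a φ j n z * E h a φ m n z)) atTop
      (𝓝 (P j m * ∫ z, η z)) :=
  S.int_two H.mass (fun k hk _ hη => S.mom_jet (H.mom k hk) hη) j m hη

end Setup

/-- a nonnegative cutoff function -/
theorem exists_cutoff_nonneg {K : Set ℂ} (hU : IsOpen U) (hK : IsCompact K) (hKU : K ⊆ U) :
    ∃ χ : ℂ → ℝ, Test U (fun z => (χ z : ℂ)) ∧ (∀ z, 0 ≤ χ z) ∧ ∀ z ∈ K, χ z = 1 := by
  obtain ⟨χ, h1, h2, -⟩ := exists_cutoff hU hK hKU
  refine ⟨fun z => normSq (χ z), ?_, fun z => normSq_nonneg _, fun z hz => ?_⟩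
  · have := h1.mul hU (f := fun z => (starRingEnd ℂ) (χ z))
      (conjCLE.contDiff.comp_contDiffOn h1.smooth.contDiffOn)
    simpa only [mul_conj] using this
  · have := (h2 z hz).self_of_nhds
    simp [this]

theorem Test.add {ζ ξ : ℂ → ℂ} (hζ : Test U ζ) (hξ : Test U ξ) : Test U (fun z => ζ z + ξ z) := by
  have hs : Function.support (fun z => ζ z + ξ z) ⊆ tsupport ζ ∪ tsupport ξ := by
    intro z hz
    by_contra hcon
    rw [Set.mem_union, not_or] at hcon
    apply hz
    show ζ z + ξ z = 0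
    rw [image_eq_zero_of_notMem_tsupport hcon.1, image_eq_zero_of_notMem_tsupport hcon.2, add_zero]
  have hts : tsupport (fun z => ζ z + ξ z) ⊆ tsupport ζ ∪ tsupport ξ :=
    closure_minimal hs ((isClosed_tsupport _).union (isClosed_tsupport _))
  have hK : IsCompact (tsupport ζ ∪ tsupport ξ) :=
    IsCompact.union hζ.supp hξ.supp
  exact ⟨hζ.smooth.add hξ.smooth, hK.of_isClosed_subset (isClosed_tsupport _) hts,
    hts.trans (Set.union_subset hζ.sub hξ.sub)⟩

theorem Test.smul (c : ℂ) {ζ : ℂ → ℂ} (hζ : Test U ζ) : Test U (fun z => c * ζ z) := by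
  refine ⟨contDiff_const.mul hζ.smooth, hζ.supp.mul_left, (closure_mono ?_).trans hζ.sub⟩
  intro z hz
  simp only [Function.mem_support] at hz ⊢
  intro h0; exact hz (by simp [h0])

theorem Test.re {ζ : ℂ → ℂ} (hζ : Test U ζ) : Test U (fun z => ((ζ z).re : ℂ)) := by
  have h1 : ∀ z, ((ζ z).re : ℂ) = (1 / 2) * (ζ z + (starRingEnd ℂ) (ζ z)) := by
    intro z
    rw [add_conj]; push_cast; ring
  have := (hζ.add hζ.conj).smul (1 / 2)
  simpa only [← h1] using this

theorem Test.im {ζ : ℂ → ℂ} (hζ : Test U ζ) : Test U (fun z => ((ζ z).im : ℂ)) := by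
  have h2 := (hζ.smul (-I)).re
  have h1 : ∀ z, (-I * ζ z).re = (ζ z).im := by intro z; simp
  simpa only [h1] using h2

/-- a linear statement which holds for the nonnegative test functions holds for all -/
theorem Test.induct_nonneg (hU : IsOpen U) {F : ℕ → (ℂ → ℂ) → ℂ}
    (hadd : ∀ n ζ ζ', Test U ζ → Test U ζ' → F n (fun z => ζ z + ζ' z) = F n ζ + F n ζ')
    (hsmul : ∀ n (c : ℂ) ζ, Test U ζ → F n (fun z => c * ζ z) = c * F n ζ)
    (h0 : ∀ ζ : ℂ → ℝ, Test U (fun z => (ζ z : ℂ)) → (∀ z, 0 ≤ ζ z) →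
      Tendsto (fun n => F n (fun z => (ζ z : ℂ))) atTop (𝓝 0)) {ζ : ℂ → ℂ} (hζ : Test U ζ) :
    Tendsto (fun n => F n ζ) atTop (𝓝 0) := by
  have hreal : ∀ ρ : ℂ → ℝ, Test U (fun z => (ρ z : ℂ)) →
      Tendsto (fun n => F n (fun z => (ρ z : ℂ))) atTop (𝓝 0) := by
    intro ρ hρ
    obtain ⟨χ, h1, h2, h3⟩ := exists_cutoff_nonneg hU hρ.supp hρ.sub
    obtain ⟨M, hM⟩ := hρ.smooth.continuous.bounded_above_of_compact_support hρ.supp
    have hM0 : 0 ≤ M := (norm_nonneg _).trans (hM 0)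
    have e : (fun z => ((ρ z + M * χ z : ℝ) : ℂ)) = fun z => (ρ z : ℂ) + (M : ℂ) * (χ z : ℂ) := by
      funext z; push_cast; ring
    have t1 : Test U (fun z => ((ρ z + M * χ z : ℝ) : ℂ)) := by
      rw [e]; exact hρ.add (h1.smul M)
    have p1 := h0 (fun z => ρ z + M * χ z) t1 (fun z => by
      by_cases hz : z ∈ tsupport (fun z => (ρ z : ℂ))
      · rw [h3 z hz]
        have h5 := hM z
        rw [Complex.norm_real] at h5
        have := (abs_le.1 h5).1
        linarith
      · have h6 := image_eq_zero_of_notMem_tsupport hz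
        have h7 : ρ z = 0 := by exact_mod_cast h6
        rw [h7, zero_add]
        exact mul_nonneg hM0 (h2 z))
    have p2 := (h0 χ h1 h2).const_mul (M : ℂ)
    have p3 := p1.sub p2
    rw [mul_zero, sub_zero] at p3
    refine p3.congr fun n => ?_
    rw [e, hadd n _ _ hρ (h1.smul M), hsmul n _ _ h1]
    ring
  have p1 := hreal _ hζ.re
  have p2 := (hreal _ hζ.im).const_mul I
  have p3 := p1.add p2
  rw [mul_zero, zero_add] at p3
  refine p3.congr fun n => ?_
  rw [← hsmul n _ _ hζ.im, ← hadd n _ _ hζ.re (hζ.im.smul I)]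
  congr 1
  funext z
  rw [mul_comm I]
  exact re_add_im _

/-- a linear functional of the form appearing in the correlations -/
theorem Test.int_add {f : ℂ → ℂ} (hU : IsOpen U) (hf : ContDiffOn ℝ ∞ f U) {ζ ξ : ℂ → ℂ}
    (hζ : Test U ζ) (hξ : Test U ξ) : ∫ z, (ζ z + ξ z) * f z = (∫ z, ζ z * f z) + ∫ z, ξ z * f z := by
  rw [← integral_add (hζ.int hU hf) (hξ.int hU hf)]
  refine MeasureTheory.integral_congr_ae (Filter.Eventually.of_forall fun z => ?_)
  beta_reduce; ring

theorem Test.int_smul {f : ℂ → ℂ} (c : ℂ) (ζ : ℂ → ℂ) :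
    ∫ z, (c * ζ z) * f z = c * ∫ z, ζ z * f z := by
  rw [← integral_const_mul]
  refine MeasureTheory.integral_congr_ae (Filter.Eventually.of_forall fun z => ?_)
  beta_reduce; ring

theorem Test.integral_add' {ζ ξ : ℂ → ℂ} (hζ : Test U ζ) (hξ : Test U ξ) :
    ∫ z, (ζ z + ξ z) = (∫ z, ζ z) + ∫ z, ξ z :=
  integral_add (hζ.smooth.continuous.integrable_of_hasCompactSupport hζ.supp)
    (hξ.smooth.continuous.integrable_of_hasCompactSupport hξ.supp)

variable {a : ℂ → ℂ} {g : ℂ → ℂ} {φ : ℕ → ℂ → ℂ}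

/-- **the correlations of four jets of total index zero** -/
theorem Setup.jets_four (S : Setup U g a h φ) (htwo : ∀ (j m : ℤ) (η : ℂ → ℂ), Test U η →
      Tendsto (fun n => ∫ z, η z * (E h a φ j n z * E h a φ m n z)) atTop
      (𝓝 (P j m * ∫ z, η z))) {ζ : ℂ → ℂ} (hζ : Test U ζ) (j m k l : ℤ)
    (hs : j + m + k + l = 0) :
    Tendsto (fun n =>
      (∫ z, ζ z * (E h a φ j n z * E h a φ m n z * (E h a φ k n z * E h a φ l n z)))
      - G j m k l * (∫ z, ζ z)
      - pat j m k l * ((∫ z, ζ z * (φ n z * φ n z * (φ n z * φ n z))) - 3 * ∫ z, ζ z))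
      atTop (𝓝 0) := by
  have s4 := fun n j m k l => ((S.sm2 j m).mul (S.sm2 k l)) n
  refine Test.induct_nonneg S.op (F := fun n ζ =>
      (∫ z, ζ z * (E h a φ j n z * E h a φ m n z * (E h a φ k n z * E h a φ l n z)))
      - G j m k l * (∫ z, ζ z)
      - pat j m k l * ((∫ z, ζ z * (φ n z * φ n z * (φ n z * φ n z))) - 3 * ∫ z, ζ z))
    ?_ ?_ ?_ hζ
  · intro n ζ ξ hζ hξ
    beta_reduce
    rw [Test.int_add S.op (s4 n j m k l) hζ hξ, Test.integral_add' hζ hξ,
      Test.int_add S.op (f := fun z => φ n z * φ n z * (φ n z * φ n z)) (s4 n 0 0 0 0) hζ hξ]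
    ring
  · intro n c ζ _
    beta_reduce
    rw [Test.int_smul, Test.int_smul, integral_const_mul]
    ring
  · intro ρ hρ hρ0
    have hZ : ∫ z, ((ρ z : ℝ) : ℂ) = ((∫ z, ρ z : ℝ) : ℂ) := integral_ofReal
    have key := alg_pattern (Z := ∫ z, ρ z) (X := fun n j m k l => ∫ z, (ρ z : ℂ)
      * (E h a φ j n z * E h a φ m n z * (E h a φ k n z * E h a φ l n z))) ?_ ?_ ?_ ?_ j m k l hs
    · rw [← hZ] at key
      exact key
    · intro n j m k l
      refine MeasureTheory.integral_congr_ae (Filter.Eventually.of_forall fun z => ?_)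
      beta_reduce; ring
    · intro n j m k l
      refine MeasureTheory.integral_congr_ae (Filter.Eventually.of_forall fun z => ?_)
      beta_reduce; ring
    · intro j m k l
      rw [← hZ]
      exact S.hmac htwo j m k l hρ
    · have h4 := S.ibp4 0 0 0 (-1) hρ
      refine h4.congr fun n => ?_
      simp only [zero_add, neg_add_cancel]

/-- **the correlations of three jets of total index zero vanish** -/
theorem Setup.jets_three (S : Setup U g a h φ) (htwo : ∀ (j m : ℤ) (η : ℂ → ℂ), Test U η →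
      Tendsto (fun n => ∫ z, η z * (E h a φ j n z * E h a φ m n z)) atTop
      (𝓝 (P j m * ∫ z, η z))) {ζ : ℂ → ℂ} (hζ : Test U ζ) (j m k : ℤ)
    (hs : j + m + k = 0) :
    Tendsto (fun n => ∫ z, ζ z * (E h a φ j n z * E h a φ m n z * E h a φ k n z))
      atTop (𝓝 0) := by
  have s3 := fun n j m k => ((S.sm2 j m).mul (S.tame_E k).smooth) n
  refine Test.induct_nonneg S.op (F := fun n ζ =>
      ∫ z, ζ z * (E h a φ j n z * E h a φ m n z * E h a φ k n z)) ?_ ?_ ?_ hζ
  · intro n ζ ξ hζ hξ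
    beta_reduce
    rw [Test.int_add S.op (s3 n j m k) hζ hξ]
  · intro n c ζ _
    beta_reduce
    rw [Test.int_smul]
  · intro ρ hρ hρ0
    have hZ : ∫ z, ((ρ z : ℝ) : ℂ) = ((∫ z, ρ z : ℝ) : ℂ) := integral_ofReal
    have hρi : ∀ (f : ℂ → ℝ), ContinuousOn f U → Integrable (fun z => ρ z * f z) := by
      intro f hf
      have hρc : Continuous ρ := by
        have := Complex.continuous_re.comp hρ.smooth.continuous
        simpa [Function.comp_def] using this
      have hts : tsupport ρ = tsupport (fun z => (ρ z : ℂ)) := by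
        unfold tsupport
        congr 1
        ext z
        simp
      exact integrable_mul_of_tsupport S.op hρc (by
        unfold HasCompactSupport; rw [hts]; exact hρ.supp) (by rw [hts]; exact hρ.sub) hf
    obtain ⟨C, hC⟩ := (S.bd2 3 (-3)).test (S.sm2 3 (-3)) hρ
    have hcjE : ∀ (k : ℤ) (n : ℕ), ∀ z ∈ U, (starRingEnd ℂ) (E h a φ k n z)
        = (-1 : ℂ) ^ k * E h a φ (-k) n z := by
      intro k n z hz
      obtain ⟨q, rfl | rfl⟩ := k.eq_nat_or_neg
      · rw [S.E_neg q n z hz]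
        have : E h a φ (q : ℤ) n z = jet h a φ q n z := rfl
        rw [this, zpow_natCast, ← mul_assoc, ← mul_pow]
        norm_num
      · rw [S.E_neg q n z hz, neg_neg, map_mul, map_pow, map_neg, map_one, starRingEnd_self_apply,
          zpow_neg, zpow_natCast, ← inv_pow]
        norm_num
        rfl
    have key := alg_third (Z := ∫ z, ρ z) (C := |C|) (V := fun n => ∫ z, ρ z * ‖E h a φ 3 n z‖ ^ 2)
      (X := fun n j m k l => ∫ z, (ρ z : ℂ)
      * (E h a φ j n z * E h a φ m n z * (E h a φ k n z * E h a φ l n z)))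
      (Y := fun n j m k => ∫ z, (ρ z : ℂ) * (E h a φ j n z * E h a φ m n z * E h a φ k n z))
      (integral_nonneg hρ0) (abs_nonneg C) ?_ ?_ ?_ ?_ ?_ ?_ ?_ ?_ ?_ ?_ j m k hs
    · exact key
    · intro n j m k l
      refine MeasureTheory.integral_congr_ae (Filter.Eventually.of_forall fun z => ?_)
      beta_reduce; ring
    · intro n j m k l
      refine MeasureTheory.integral_congr_ae (Filter.Eventually.of_forall fun z => ?_)
      beta_reduce; ring
    · intro j m k l
      rw [← hZ]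
      exact S.hmac htwo j m k l hρ
    · have h4 := S.ibp4 0 0 0 (-1) hρ
      refine h4.congr fun n => ?_
      simp only [zero_add, neg_add_cancel]
    · intro n j m k
      refine MeasureTheory.integral_congr_ae (Filter.Eventually.of_forall fun z => ?_)
      beta_reduce; ring
    · intro n j m k
      refine MeasureTheory.integral_congr_ae (Filter.Eventually.of_forall fun z => ?_)
      beta_reduce; ring
    · intro j m k
      exact S.ibp3 j m k hρ
    · intro j m k
      exact S.ibp3b j m k hρ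
    · filter_upwards [hC] with n hn
      have e1 : ((∫ z, ρ z * ‖E h a φ 3 n z‖ ^ 2 : ℝ) : ℂ)
          = - ∫ z, (ρ z : ℂ) * (E h a φ 3 n z * E h a φ (-3) n z) := by
        rw [← integral_neg]
        have e0 : ((∫ z, ρ z * ‖E h a φ 3 n z‖ ^ 2 : ℝ) : ℂ)
            = ∫ z, ((ρ z * ‖E h a φ 3 n z‖ ^ 2 : ℝ) : ℂ) := integral_ofReal.symm
        rw [e0]
        have e2 := hρ.integral_congr (f := fun z => ((‖E h a φ 3 n z‖ ^ 2 : ℝ) : ℂ))
          (f' := fun z => -(E h a φ 3 n z * E h a φ (-3) n z)) (fun z hz => by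
            have h1 := hcjE 3 n z hz
            rw [show ((-1 : ℂ) ^ (3 : ℤ)) = -1 by norm_num] at h1
            rw [← Complex.normSq_eq_norm_sq, ← mul_conj, h1]
            ring)
        refine Eq.trans ?_ (e2.trans ?_)
        · refine MeasureTheory.integral_congr_ae (Filter.Eventually.of_forall fun z => ?_)
          beta_reduce; push_cast; ring
        · refine MeasureTheory.integral_congr_ae (Filter.Eventually.of_forall fun z => ?_)
          beta_reduce; ring
      have e3 : |∫ z, ρ z * ‖E h a φ 3 n z‖ ^ 2| ≤ C := by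
        rw [← Real.norm_eq_abs, ← Complex.norm_real, e1, norm_neg]
        exact hn
      exact (le_abs_self _).trans (e3.trans (le_abs_self C))
    · intro N n w l hl
      set T : ℂ → ℂ := fun z => ∑ t ∈ Finset.range N, (w t : ℂ) * (E h a φ t n z * E h a φ (-3 - t) n z)
        with hT
      have hTs : ContDiffOn ℝ ∞ T U :=
        ContDiffOn.sum fun t _ => contDiffOn_const.mul ((S.sm2 t (-3 - t)) n)
      have e1 : ∑ t ∈ Finset.range N, (w t : ℂ) * ∫ z, (ρ z : ℂ)
          * (E h a φ t n z * E h a φ (-3 - t) n z * E h a φ 3 n z)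
          = ∫ z, (ρ z : ℂ) * (T z * E h a φ 3 n z) := by
        simp only [← integral_const_mul]
        rw [← integral_finsetSum _ (fun t _ => (S.int3 hρ n _ _ _).const_mul _)]
        refine MeasureTheory.integral_congr_ae (Filter.Eventually.of_forall fun z => ?_)
        beta_reduce
        rw [hT]
        beta_reduce
        rw [Finset.sum_mul, Finset.mul_sum]
        refine Finset.sum_congr rfl fun t _ => ?_
        ring
      have e2 : ((∫ z, ρ z * ‖T z‖ ^ 2 : ℝ) : ℂ) = -∑ t ∈ Finset.range N, ∑ u ∈ Finset.range N,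
          (w t : ℂ) * (w u : ℂ) * ∫ z, (ρ z : ℂ) * (E h a φ t n z * E h a φ (-3 - t) n z
            * (E h a φ (-u) n z * E h a φ (3 + u) n z)) := by
        have e0 : ((∫ z, ρ z * ‖T z‖ ^ 2 : ℝ) : ℂ)
            = ∫ z, ((ρ z * ‖T z‖ ^ 2 : ℝ) : ℂ) := integral_ofReal.symm
        rw [e0]
        have e3 := hρ.integral_congr (f := fun z => ((‖T z‖ ^ 2 : ℝ) : ℂ))
          (f' := fun z => -∑ t ∈ Finset.range N, ∑ u ∈ Finset.range N, (w t : ℂ) * (w u : ℂ)
            * (E h a φ t n z * E h a φ (-3 - t) n z * (E h a φ (-u) n z * E h a φ (3 + u) n z)))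
          (fun z hz => by
            rw [← Complex.normSq_eq_norm_sq, ← mul_conj, hT]
            beta_reduce
            rw [map_sum, Finset.sum_mul_sum, ← Finset.sum_neg_distrib]
            refine Finset.sum_congr rfl fun t _ => ?_
            rw [← Finset.sum_neg_distrib]
            refine Finset.sum_congr rfl fun u _ => ?_
            rw [map_mul, map_mul, hcjE _ n z hz, hcjE _ n z hz, conj_ofReal]
            have h1 : (-1 : ℂ) ^ ((u : ℕ) : ℤ) * (-1 : ℂ) ^ (-3 - (u : ℤ)) = -1 := by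
              rw [← zpow_add₀ (by norm_num)]
              have : ((u : ℕ) : ℤ) + (-3 - (u : ℤ)) = -3 := by ring
              rw [this]; norm_num
            have h2 : -(-3 - (u : ℤ)) = 3 + u := by ring
            rw [h2]
            linear_combination ((w t : ℂ) * (w u : ℂ) * (E h a φ t n z * E h a φ (-3 - t) n z)
              * (E h a φ (-u) n z * E h a φ (3 + u) n z)) * h1)
        refine Eq.trans ?_ (e3.trans ?_)
        · refine MeasureTheory.integral_congr_ae (Filter.Eventually.of_forall fun z => ?_)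
          beta_reduce; push_cast; ring
        · simp only [← integral_const_mul]
          rw [← Finset.sum_neg_distrib]
          have e4 : ∀ t ∈ Finset.range N, -∑ u ∈ Finset.range N, ∫ z, (w t : ℂ) * (w u : ℂ)
              * ((ρ z : ℂ) * (E h a φ t n z * E h a φ (-3 - t) n z
            * (E h a φ (-u) n z * E h a φ (3 + u) n z)))
              = ∫ z, -∑ u ∈ Finset.range N, (w t : ℂ) * (w u : ℂ)
              * ((ρ z : ℂ) * (E h a φ t n z * E h a φ (-3 - t) n z
            * (E h a φ (-u) n z * E h a φ (3 + u) n z))) := by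
            intro t _
            rw [integral_neg, integral_finsetSum _ (fun u _ => (S.int4 hρ n _ _ _ _).const_mul _)]
          have i5 : ∀ t ∈ Finset.range N, Integrable (fun z => -∑ u ∈ Finset.range N,
              (w t : ℂ) * (w u : ℂ) * ((ρ z : ℂ) * (E h a φ t n z * E h a φ (-3 - t) n z
            * (E h a φ (-u) n z * E h a φ (3 + u) n z)))) := fun t _ =>
            (integrable_finsetSum _ (fun u _ => (S.int4 hρ n _ _ _ _).const_mul _)).neg
          rw [Finset.sum_congr rfl e4, ← integral_finsetSum _ i5]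
          refine MeasureTheory.integral_congr_ae (Filter.Eventually.of_forall fun z => ?_)
          beta_reduce
          rw [Finset.sum_neg_distrib, mul_neg, Finset.mul_sum]
          congr 1
          refine Finset.sum_congr rfl fun t _ => ?_
          rw [Finset.mul_sum]
          refine Finset.sum_congr rfl fun u _ => ?_
          ring
      have e2' : (-∑ t ∈ Finset.range N, ∑ u ∈ Finset.range N,
          (w t : ℂ) * (w u : ℂ) * ∫ z, (ρ z : ℂ) * (E h a φ t n z * E h a φ (-3 - t) n z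
            * (E h a φ (-u) n z * E h a φ (3 + u) n z))).re = ∫ z, ρ z * ‖T z‖ ^ 2 := by
        rw [← e2, ofReal_re]
      rw [e1, e2']
      have i1 : Integrable (fun z => ρ z * ‖E h a φ 3 n z‖ ^ 2) :=
        hρi _ (((S.tame_E 3).smooth n).continuousOn.norm.pow 2)
      have i2 : Integrable (fun z => ρ z * ‖T z‖ ^ 2) := hρi _ (hTs.continuousOn.norm.pow 2)
      calc ‖∫ z, (ρ z : ℂ) * (T z * E h a φ 3 n z)‖
          ≤ ∫ z, ‖(ρ z : ℂ) * (T z * E h a φ 3 n z)‖ := norm_integral_le_integral_norm _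
        _ ≤ ∫ z, (l * (ρ z * ‖E h a φ 3 n z‖ ^ 2) + l⁻¹ * (ρ z * ‖T z‖ ^ 2)) / 2 := by
            refine integral_mono_of_nonneg (Filter.Eventually.of_forall fun z => norm_nonneg _)
              (((i1.const_mul l).add (i2.const_mul l⁻¹)).div_const 2)
              (Filter.Eventually.of_forall fun z => ?_)
            beta_reduce
            rw [norm_mul, norm_mul, Complex.norm_real, Real.norm_of_nonneg (hρ0 z)]
            have h1 : ‖T z‖ * ‖E h a φ 3 n z‖
                ≤ (l * ‖E h a φ 3 n z‖ ^ 2 + l⁻¹ * ‖T z‖ ^ 2) / 2 := by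
              have h2 : 0 ≤ l⁻¹ * (l * ‖E h a φ 3 n z‖ - ‖T z‖) ^ 2 := by positivity
              have h3 : l⁻¹ * (l * ‖E h a φ 3 n z‖ - ‖T z‖) ^ 2
                  = l * ‖E h a φ 3 n z‖ ^ 2 - 2 * (‖T z‖ * ‖E h a φ 3 n z‖)
                    + l⁻¹ * ‖T z‖ ^ 2 := by
                field_simp
                ring
              rw [h3] at h2
              linarith
            have := mul_le_mul_of_nonneg_left h1 (hρ0 z)
            linarith
        _ = (l * (∫ z, ρ z * ‖E h a φ 3 n z‖ ^ 2) + l⁻¹ * ∫ z, ρ z * ‖T z‖ ^ 2) / 2 := by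
            rw [integral_div, integral_add (i1.const_mul l) (i2.const_mul l⁻¹),
              integral_const_mul, integral_const_mul]

/-- **Interface (J), four jets**, for quantum ergodic sequences bounded in `L⁴` -/
theorem LocalQE.jets_four {g : ℂ → ℝ} {φ : ℕ → ℂ → ℂ} (H : LocalQE U g h φ) (hU : IsOpen U)
    (hg : ContDiffOn ℝ ∞ g U) (hgpos : ∀ z ∈ U, 0 < g z) (hb : LBdd 4 U φ) {ζ : ℂ → ℂ}
    (hζ : Test U ζ) (j m k l : ℤ) (hs : j + m + k + l = 0) :
    Tendsto (fun n =>
      (∫ z, ζ z * (E h (wt g) φ j n z * E h (wt g) φ m n z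
        * (E h (wt g) φ k n z * E h (wt g) φ l n z)))
      - G j m k l * (∫ z, ζ z)
      - pat j m k l * ((∫ z, ζ z * (φ n z * φ n z * (φ n z * φ n z))) - 3 * ∫ z, ζ z))
      atTop (𝓝 0) := by
  have S := setup_of_local hU hg hgpos H hb
  exact S.jets_four (S.two_pt H) hζ j m k l hs

/-- **Interface (J), three jets**, for quantum ergodic sequences bounded in `L⁴` -/
theorem LocalQE.jets_three {g : ℂ → ℝ} {φ : ℕ → ℂ → ℂ} (H : LocalQE U g h φ) (hU : IsOpen U)
    (hg : ContDiffOn ℝ ∞ g U) (hgpos : ∀ z ∈ U, 0 < g z) (hb : LBdd 4 U φ) {ζ : ℂ → ℂ}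
    (hζ : Test U ζ) (j m k : ℤ) (hs : j + m + k = 0) :
    Tendsto (fun n =>
      ∫ z, ζ z * (E h (wt g) φ j n z * E h (wt g) φ m n z * E h (wt g) φ k n z))
      atTop (𝓝 0) := by
  have S := setup_of_local hU hg hgpos H hb
  exact S.jets_three (S.two_pt H) hζ j m k hs

/-- **Interface (J), two jets** -/
theorem LocalQE.jets_two {g : ℂ → ℝ} {φ : ℕ → ℂ → ℂ} (H : LocalQE U g h φ) (hU : IsOpen U)
    (hg : ContDiffOn ℝ ∞ g U) (hgpos : ∀ z ∈ U, 0 < g z) (hb : LBdd 4 U φ) {ζ : ℂ → ℂ}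
    (hζ : Test U ζ) (j m : ℤ) :
    Tendsto (fun n => ∫ z, ζ z * (E h (wt g) φ j n z * E h (wt g) φ m n z))
      atTop (𝓝 (P j m * ∫ z, ζ z)) := by
  have S := setup_of_local hU hg hgpos H hb
  exact S.two_pt H j m ζ hζ

end

end QE
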