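import Mathlib

/-! Module QE_Alg: algebra and limits. -/

namespace QE

open Filter Topology

/-- The pairing weight. -/
noncomputable def P (j m : ℤ) : ℂ := if j + m = 0 then (-1 : ℂ) ^ j else 0

/-- The Wick sum of pairing weights. -/
noncomputable def G (a b c d : ℤ) : ℂ := P a b * P c d + P a c * P b d + P a d * P b c

theorem P_succ (j k : ℤ) : P (j + 1) k = - P j (k + 1) := by
  unfold P
  by_cases h : j + k + 1 = 0
  · rw [if_pos (by omega), if_pos (by omega), zpow_add_one₀ (by norm_num)]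
    ring
  · rw [if_neg (by omega), if_neg (by omega)]
    simp

theorem P_comm (j k : ℤ) : P j k = P k j := by
  unfold P
  by_cases h : j + k = 0
  · rw [if_pos h, if_pos (by omega)]
    have hj : j = -k := by omega
    rw [hj, zpow_neg]
    have h1 : ((-1 : ℂ) ^ k) * ((-1 : ℂ) ^ k) = 1 := by
      rw [← zpow_add₀ (by norm_num), ← two_mul, zpow_mul]
      norm_num
    exact inv_eq_of_mul_eq_one_left h1
  · rw [if_neg h, if_neg (by omega)]

theorem G_12 (a b c d : ℤ) : G a b c d = G b a c d := by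
  unfold G; rw [P_comm a b]; ring

theorem G_23 (a b c d : ℤ) : G a b c d = G a c b d := by
  unfold G; rw [P_comm b c]; ring

theorem G_34 (a b c d : ℤ) : G a b c d = G a b d c := by
  unfold G; rw [P_comm c d]; ring

theorem G_step (j m k l : ℤ) :
    G (j + 1) (m + 1) k l - G j m (k + 1) (l + 1) =
      P (j + 1) (m + 1) * P k l - P j m * P (k + 1) (l + 1) := by
  unfold G
  rw [P_succ j k, P_succ j l, P_succ m k, P_succ m l]
  ring

/-- Asymptotic equality of sequences. -/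
def Asy (f g : ℕ → ℂ) : Prop := Tendsto (fun n => f n - g n) atTop (𝓝 0)

theorem Asy.refl (f : ℕ → ℂ) : Asy f f := by
  unfold Asy; simp

theorem Asy.of_eq {f g : ℕ → ℂ} (h : f = g) : Asy f g := by
  rw [h]; exact Asy.refl g

theorem Asy.trans {f g h : ℕ → ℂ} (h1 : Asy f g) (h2 : Asy g h) : Asy f h := by
  unfold Asy at *
  have := h1.add h2
  rw [add_zero] at this
  refine this.congr fun n => ?_
  ring

/-- The error sequence. -/
noncomputable def Err (X : ℕ → ℤ → ℤ → ℤ → ℤ → ℂ) (Z : ℝ) (a b c d : ℤ) : ℕ → ℂ :=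
  fun n => X n a b c d - G a b c d * (Z : ℂ)

section

variable {X : ℕ → ℤ → ℤ → ℤ → ℤ → ℂ} {Z : ℝ}

theorem Err_12 (s1 : ∀ n a b c d, X n a b c d = X n b a c d) (a b c d : ℤ) :
    Err X Z a b c d = Err X Z b a c d := by
  funext n; unfold Err; rw [s1, G_12]

theorem Err_23 (s2 : ∀ n a b c d, X n a b c d = X n a c b d) (a b c d : ℤ) :
    Err X Z a b c d = Err X Z a c b d := by
  funext n; unfold Err; rw [s2, G_23]

theorem Err_34 (s3 : ∀ n a b c d, X n a b c d = X n a b d c) (a b c d : ℤ) :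
    Err X Z a b c d = Err X Z a b d c := by
  funext n; unfold Err; rw [s3, G_34]

theorem Err_step (hmac : ∀ j m k l : ℤ,
      Tendsto (fun n => X n (j + 1) (m + 1) k l - X n j m (k + 1) (l + 1)) atTop
        (𝓝 ((P (j + 1) (m + 1) * P k l - P j m * P (k + 1) (l + 1)) * (Z : ℂ))))
    (j m k l : ℤ) : Asy (Err X Z (j + 1) (m + 1) k l) (Err X Z j m (k + 1) (l + 1)) := by
  unfold Asy
  have h := (hmac j m k l).sub_const
    ((P (j + 1) (m + 1) * P k l - P j m * P (k + 1) (l + 1)) * (Z : ℂ))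
  rw [sub_self] at h
  refine h.congr fun n => ?_
  unfold Err
  rw [← G_step]
  ring

theorem Err_move (s2 : ∀ n a b c d, X n a b c d = X n a c b d)
    (hmac : ∀ j m k l : ℤ,
      Tendsto (fun n => X n (j + 1) (m + 1) k l - X n j m (k + 1) (l + 1)) atTop
        (𝓝 ((P (j + 1) (m + 1) * P k l - P j m * P (k + 1) (l + 1)) * (Z : ℂ))))
    (a b c d : ℤ) : Asy (Err X Z (a + 2) b c d) (Err X Z a b c (d + 2)) := by
  have h1 := Err_step hmac (a + 1) (b - 1) c d
  have h2 := Err_step hmac a c (b - 1) (d + 1)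
  have e1 : a + 1 + 1 = a + 2 := by ring
  have e2 : b - 1 + 1 = b := by ring
  have e3 : d + 1 + 1 = d + 2 := by ring
  rw [e1, e2] at h1
  rw [e2, e3] at h2
  rw [Err_23 s2 (a + 1) (b - 1) (c + 1) (d + 1)] at h1
  rw [Err_23 s2 a c b (d + 2)] at h2
  exact h1.trans h2

theorem Err_move_nat (s2 : ∀ n a b c d, X n a b c d = X n a c b d)
    (hmac : ∀ j m k l : ℤ,
      Tendsto (fun n => X n (j + 1) (m + 1) k l - X n j m (k + 1) (l + 1)) atTop
        (𝓝 ((P (j + 1) (m + 1) * P k l - P j m * P (k + 1) (l + 1)) * (Z : ℂ))))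
    (b c : ℤ) (t : ℕ) : ∀ a d : ℤ,
      Asy (Err X Z (a + 2 * t) b c d) (Err X Z a b c (d + 2 * t)) := by
  induction t with
  | zero =>
    intro a d
    apply Asy.of_eq
    simp
  | succ t ih =>
    intro a d
    have h1 := Err_move s2 hmac (a + 2 * t) b c d
    have h2 := ih a (d + 2)
    have e1 : a + 2 * (t : ℤ) + 2 = a + 2 * ((t + 1 : ℕ) : ℤ) := by push_cast; ring
    have e2 : d + 2 + 2 * (t : ℤ) = d + 2 * ((t + 1 : ℕ) : ℤ) := by push_cast; ring
    rw [e1] at h1
    rw [e2] at h2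
    exact h1.trans h2

theorem Err_zero (s1 : ∀ n a b c d, X n a b c d = X n b a c d)
    (s2 : ∀ n a b c d, X n a b c d = X n a c b d)
    (s3 : ∀ n a b c d, X n a b c d = X n a b d c)
    (hmac : ∀ j m k l : ℤ,
      Tendsto (fun n => X n (j + 1) (m + 1) k l - X n j m (k + 1) (l + 1)) atTop
        (𝓝 ((P (j + 1) (m + 1) * P k l - P j m * P (k + 1) (l + 1)) * (Z : ℂ))))
    (a b c d : ℕ) (h : a + b = c + d) :
    Asy (Err X Z (2 * a) (2 * b) (-(2 * c)) (-(2 * d))) (Err X Z 0 0 0 0) := by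
  have h1 := Err_move_nat s2 hmac (2 * a) (-(2 * c)) b 0 (-(2 * d))
  rw [zero_add, ← Err_12 s1 (2 * (a : ℤ)) (2 * b)] at h1
  refine h1.trans ?_
  rw [Err_12 s1 0 (2 * (a : ℤ))]
  have h2 := Err_move_nat s2 hmac 0 (-(2 * c)) a 0 (-(2 * d) + 2 * b)
  rw [zero_add] at h2
  refine h2.trans ?_
  have e1 : (-(2 * (d : ℤ)) + 2 * b + 2 * a) = 2 * c := by
    have : (a : ℤ) + b = c + d := by exact_mod_cast h
    linarith
  rw [e1, Err_34 s3, Err_23 s2, Err_12 s1]
  have h3 := Err_move_nat s2 hmac 0 0 c 0 (-(2 * c))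
  rw [zero_add] at h3
  refine h3.trans (Asy.of_eq ?_)
  congr 1
  ring

end

/-- The index set of quadruples. -/
def quads (M : ℕ) : Finset ((ℕ × ℕ) × (ℕ × ℕ)) :=
  ((Finset.range (M + 1) ×ˢ Finset.range (M + 1)) ×ˢ
    (Finset.range (M + 1) ×ˢ Finset.range (M + 1))).filter
      (fun p => p.1.1 + p.1.2 = p.2.1 + p.2.2)

theorem mem_quads {M : ℕ} {p : (ℕ × ℕ) × (ℕ × ℕ)} :
    p ∈ quads M ↔ (p.1.1 ≤ M ∧ p.1.2 ≤ M ∧ p.2.1 ≤ M ∧ p.2.2 ≤ M) ∧
      p.1.1 + p.1.2 = p.2.1 + p.2.2 := by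
  unfold quads
  simp only [Finset.mem_filter, Finset.mem_product, Finset.mem_range]
  constructor
  · rintro ⟨⟨⟨h1, h2⟩, h3, h4⟩, h5⟩
    exact ⟨⟨by omega, by omega, by omega, by omega⟩, h5⟩
  · rintro ⟨⟨h1, h2, h3, h4⟩, h5⟩
    exact ⟨⟨⟨by omega, by omega⟩, by omega, by omega⟩, h5⟩

theorem card_quads (K : ℕ) : (K + 1) ^ 3 ≤ (quads (2 * K)).card := by
  let f : ℕ × ℕ × ℕ → (ℕ × ℕ) × (ℕ × ℕ) := fun t => ((t.1 + t.2.2, t.2.1), (t.2.2, t.1 + t.2.1))
  have hinj : Function.Injective f := by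
    rintro ⟨a, b, i⟩ ⟨a', b', i'⟩ h
    simp only [f, Prod.mk.injEq] at h
    obtain ⟨⟨h1, h2⟩, h3, h4⟩ := h
    simp only [Prod.mk.injEq]
    omega
  have hsub : (Finset.range (K + 1) ×ˢ (Finset.range (K + 1) ×ˢ Finset.range (K + 1))).image f ⊆
      quads (2 * K) := by
    intro p hp
    rw [Finset.mem_image] at hp
    obtain ⟨⟨a, b, i⟩, ht, rfl⟩ := hp
    simp only [Finset.mem_product, Finset.mem_range] at ht
    rw [mem_quads]
    simp only [f]
    omega
  calc (K + 1) ^ 3 = ((Finset.range (K + 1) ×ˢ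
        (Finset.range (K + 1) ×ˢ Finset.range (K + 1))).image f).card := by
        rw [Finset.card_image_of_injective _ hinj]
        simp only [Finset.card_product, Finset.card_range]
        ring
    _ ≤ (quads (2 * K)).card := Finset.card_le_card hsub

theorem P_even_pos (a b : ℕ) : P (2 * a) (2 * b) = if a = 0 ∧ b = 0 then 1 else 0 := by
  unfold P
  by_cases h : a = 0 ∧ b = 0
  · rw [if_pos h, if_pos (by omega)]
    obtain ⟨rfl, rfl⟩ := h
    simp
  · rw [if_neg h, if_neg (by omega)]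

theorem P_even_mixed (a b : ℕ) : P (2 * a) (-(2 * b)) = if a = b then 1 else 0 := by
  unfold P
  by_cases h : a = b
  · rw [if_pos h, if_pos (by omega), zpow_mul]
    norm_num
  · rw [if_neg h, if_neg (by omega)]

theorem P_even_le (a b : ℤ) : ‖P (2 * a) (2 * b)‖ ≤ 1 := by
  unfold P
  split_ifs
  · rw [zpow_mul]; norm_num
  · simp

theorem sum_G_re (M : ℕ) :
    (∑ p ∈ quads M, G (2 * p.1.1) (2 * p.1.2) (-(2 * p.2.1)) (-(2 * p.2.2))).re ≤
      2 * (M + 1) ^ 2 + 1 := by
  have hG : ∀ p ∈ quads M, (G (2 * p.1.1) (2 * p.1.2) (-(2 * p.2.1)) (-(2 * p.2.2))).re ≤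
      (if p = ((0, 0), (0, 0)) then (1 : ℝ) else 0) +
        (if p.2 = (p.1.1, p.1.2) then (1 : ℝ) else 0) +
        (if p.2 = (p.1.2, p.1.1) then (1 : ℝ) else 0) := by
    intro p hp
    rw [mem_quads] at hp
    obtain ⟨_, h5⟩ := hp
    obtain ⟨⟨a, b⟩, c, d⟩ := p
    simp only at h5 ⊢
    unfold G
    rw [P_even_mixed a c, P_even_mixed b d, P_even_mixed a d, P_even_mixed b c, P_even_pos]
    rw [Complex.add_re, Complex.add_re]
    apply add_le_add
    · apply add_le_add
      · by_cases h : a = 0 ∧ b = 0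
        · obtain ⟨rfl, rfl⟩ := h
          have hc : c = 0 := by omega
          have hd : d = 0 := by omega
          subst hc; subst hd
          simp only [Nat.cast_zero, mul_zero, neg_zero, and_self, if_true, one_mul]
          have := P_even_le 0 0
          simp only [mul_zero] at this
          exact (Complex.re_le_norm _).trans this
        · rw [if_neg h, zero_mul]
          split_ifs <;> simp
      · by_cases h1 : a = c
        · by_cases h2 : b = d
          · subst h1; subst h2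
            simp
          · rw [if_neg h2]
            simp only [mul_zero, Complex.zero_re]
            split_ifs <;> norm_num
        · rw [if_neg h1]
          simp only [zero_mul, Complex.zero_re]
          split_ifs <;> norm_num
    · by_cases h1 : a = d
      · by_cases h2 : b = c
        · subst h1; subst h2
          simp
        · rw [if_neg h2]
          simp only [mul_zero, Complex.zero_re]
          split_ifs <;> norm_num
      · rw [if_neg h1]
        simp only [zero_mul, Complex.zero_re]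
        split_ifs <;> norm_num
  rw [Complex.re_sum]
  refine (Finset.sum_le_sum hG).trans ?_
  rw [Finset.sum_add_distrib, Finset.sum_add_distrib]
  have h1 : ∑ p ∈ quads M, (if p = ((0, 0), (0, 0)) then (1 : ℝ) else 0) ≤ 1 := by
    rw [← Finset.sum_filter, Finset.sum_const, nsmul_eq_mul, mul_one]
    have : ((quads M).filter (fun p => p = ((0, 0), (0, 0)))).card ≤ 1 := by
      apply Finset.card_le_one.mpr
      intro x hx y hy
      rw [(Finset.mem_filter.mp hx).2, (Finset.mem_filter.mp hy).2]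
    exact_mod_cast this
  have hcard : ∀ g : ℕ × ℕ → ℕ × ℕ,
      ∑ p ∈ quads M, (if p.2 = g p.1 then (1 : ℝ) else 0) ≤ (M + 1) ^ 2 := by
    intro g
    rw [← Finset.sum_filter, Finset.sum_const, nsmul_eq_mul, mul_one]
    have h2 : ((quads M).filter (fun p => p.2 = g p.1)).card ≤
        (Finset.range (M + 1) ×ˢ Finset.range (M + 1)).card := by
      apply Finset.card_le_card_of_injOn (fun p => p.1)
      · intro p hp
        have h3 := (Finset.mem_filter.mp hp).1
        rw [mem_quads] at h3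
        simp only [Finset.coe_product, Finset.coe_range, Set.mem_prod, Set.mem_Iio]
        omega
      · intro p hp p' hp' heq
        have h3 := (Finset.mem_filter.mp hp).2
        have h4 := (Finset.mem_filter.mp hp').2
        have heq' : p.1 = p'.1 := heq
        exact Prod.ext heq' (by rw [h3, h4, heq'])
    rw [Finset.card_product, Finset.card_range] at h2
    have h5 : (((quads M).filter (fun p => p.2 = g p.1)).card : ℝ) ≤
        (((M + 1) * (M + 1) : ℕ) : ℝ) := by exact_mod_cast h2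
    refine h5.trans ?_
    push_cast
    nlinarith
  have h2 := hcard (fun q => (q.1, q.2))
  have h3 := hcard (fun q => (q.2, q.1))
  linarith

/-- The final algebraic step, filter form of the positivity hypothesis. -/
theorem alg_final (X : ℕ → ℤ → ℤ → ℤ → ℤ → ℂ) (Z : ℝ) (hZ : 0 ≤ Z)
    (s1 : ∀ n a b c d, X n a b c d = X n b a c d)
    (s2 : ∀ n a b c d, X n a b c d = X n a c b d)
    (s3 : ∀ n a b c d, X n a b c d = X n a b d c)
    (hmac : ∀ j m k l : ℤ,
      Tendsto (fun n => X n (j + 1) (m + 1) k l - X n j m (k + 1) (l + 1)) atTop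
        (𝓝 ((P (j + 1) (m + 1) * P k l - P j m * P (k + 1) (l + 1)) * (Z : ℂ))))
    (hpos : ∀ M n : ℕ, 0 ≤ (∑ p ∈ quads M,
      X n (2 * p.1.1) (2 * p.1.2) (-(2 * p.2.1)) (-(2 * p.2.2))).re) :
    ∀ ε > 0, ∀ᶠ n in atTop, 3 * Z - ε ≤ (X n 0 0 0 0).re := by
  intro ε hε
  obtain ⟨K, hK⟩ : ∃ K : ℕ, Z * 8 / (K + 1) ≤ ε / 2 := by
    obtain ⟨K, hK⟩ := exists_nat_ge (Z * 8 / (ε / 2))
    refine ⟨K, ?_⟩
    have h1 : (0 : ℝ) < (K : ℝ) + 1 := by positivity
    rw [div_le_iff₀ h1]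
    rw [div_le_iff₀ (by positivity)] at hK
    nlinarith
  set M := 2 * K with hM
  set T : ℝ := ((quads M).card : ℝ) with hT
  have hTK : ((K : ℝ) + 1) ^ 3 ≤ T := by
    have := card_quads K
    rw [← hM] at this
    rw [hT]
    exact_mod_cast this
  have hT1 : 1 ≤ T := by
    have : (1 : ℝ) ≤ ((K : ℝ) + 1) ^ 3 := by
      apply one_le_pow₀
      have : (0 : ℝ) ≤ K := by positivity
      linarith
    linarith
  have hlim : Tendsto (fun n => ∑ p ∈ quads M,
      (Err X Z (2 * p.1.1) (2 * p.1.2) (-(2 * p.2.1)) (-(2 * p.2.2)) n - Err X Z 0 0 0 0 n))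
      atTop (𝓝 0) := by
    have h0 : (0 : ℂ) = ∑ p ∈ quads M, (0 : ℂ) := by simp
    rw [h0]
    apply tendsto_finsetSum
    intro p hp
    exact Err_zero s1 s2 s3 hmac p.1.1 p.1.2 p.2.1 p.2.2 (mem_quads.mp hp).2
  have hev := (Metric.tendsto_nhds.mp hlim) (ε / 2) (by positivity)
  filter_upwards [hev] with n hn
  rw [dist_zero_right] at hn
  have hre := (Complex.abs_re_le_norm (∑ p ∈ quads M,
      (Err X Z (2 * p.1.1) (2 * p.1.2) (-(2 * p.2.1)) (-(2 * p.2.2)) n -
        Err X Z 0 0 0 0 n))).trans hn.le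
  rw [Finset.sum_sub_distrib, Finset.sum_const, nsmul_eq_mul] at hre
  have hsumE : ∑ p ∈ quads M, Err X Z (2 * p.1.1) (2 * p.1.2) (-(2 * p.2.1)) (-(2 * p.2.2)) n
      = ∑ p ∈ quads M, X n (2 * p.1.1) (2 * p.1.2) (-(2 * p.2.1)) (-(2 * p.2.2)) -
        (∑ p ∈ quads M, G (2 * p.1.1) (2 * p.1.2) (-(2 * p.2.1)) (-(2 * p.2.2))) * (Z : ℂ) := by
    rw [Finset.sum_mul, ← Finset.sum_sub_distrib]
    rfl
  rw [hsumE] at hre
  rw [Complex.sub_re, Complex.sub_re, Complex.re_mul_ofReal] at hre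
  have hcast : (((quads M).card : ℂ) * Err X Z 0 0 0 0 n).re = T * (Err X Z 0 0 0 0 n).re := by
    rw [hT]
    have : ((quads M).card : ℂ) = (((quads M).card : ℝ) : ℂ) := by push_cast; rfl
    rw [this, Complex.re_ofReal_mul]
  rw [hcast] at hre
  have h0 := (abs_le.mp hre).2
  have h1 := hpos M n
  have h2 := sum_G_re M
  have h3 : -(ε / 2) - Z * (2 * ((M : ℝ) + 1) ^ 2 + 1) ≤ T * (Err X Z 0 0 0 0 n).re := by
    nlinarith
  have h4 : Z * (2 * ((M : ℝ) + 1) ^ 2 + 1) ≤ T * (ε / 2) := by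
    have hMc : (M : ℝ) = 2 * K := by rw [hM]; push_cast; ring
    have hK0 : (0 : ℝ) ≤ K := by positivity
    have h5 : 2 * ((M : ℝ) + 1) ^ 2 + 1 ≤ 8 * ((K : ℝ) + 1) ^ 2 := by
      rw [hMc]; nlinarith
    have h6 : Z * 8 ≤ ε / 2 * ((K : ℝ) + 1) := by
      rw [div_le_iff₀ (by positivity)] at hK
      exact hK
    calc Z * (2 * ((M : ℝ) + 1) ^ 2 + 1) ≤ Z * (8 * ((K : ℝ) + 1) ^ 2) :=
          mul_le_mul_of_nonneg_left h5 hZ
      _ = (Z * 8) * ((K : ℝ) + 1) ^ 2 := by ring
      _ ≤ (ε / 2 * ((K : ℝ) + 1)) * ((K : ℝ) + 1) ^ 2 :=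
          mul_le_mul_of_nonneg_right h6 (by positivity)
      _ = ((K : ℝ) + 1) ^ 3 * (ε / 2) := by ring
      _ ≤ T * (ε / 2) := mul_le_mul_of_nonneg_right hTK (by positivity)
  have h7 : -ε ≤ (Err X Z 0 0 0 0 n).re := by
    have h8 : T * (-ε) ≤ T * (Err X Z 0 0 0 0 n).re := by
      nlinarith
    exact le_of_mul_le_mul_left h8 (by linarith)
  have h9 : (Err X Z 0 0 0 0 n).re = (X n 0 0 0 0).re - 3 * Z := by
    unfold Err G P
    rw [Complex.sub_re]
    simp only [add_zero, if_true, zpow_zero, mul_one]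
    rw [Complex.re_mul_ofReal]
    norm_num
  linarith

/-- The same statement with nested sums and if-then-else in the positivity hypothesis. -/
theorem alg_final' (X : ℕ → ℤ → ℤ → ℤ → ℤ → ℂ) (Z : ℝ) (hZ : 0 ≤ Z)
    (s1 : ∀ n a b c d, X n a b c d = X n b a c d)
    (s2 : ∀ n a b c d, X n a b c d = X n a c b d)
    (s3 : ∀ n a b c d, X n a b c d = X n a b d c)
    (hmac : ∀ j m k l : ℤ,
      Tendsto (fun n => X n (j + 1) (m + 1) k l - X n j m (k + 1) (l + 1)) atTop
        (𝓝 ((P (j + 1) (m + 1) * P k l - P j m * P (k + 1) (l + 1)) * (Z : ℂ))))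
    (hpos : ∀ M n : ℕ, 0 ≤ (∑ a ∈ Finset.range (M + 1), ∑ b ∈ Finset.range (M + 1),
      ∑ c ∈ Finset.range (M + 1), ∑ d ∈ Finset.range (M + 1),
        if a + b = c + d then X n (2 * a) (2 * b) (-(2 * c)) (-(2 * d)) else 0).re) :
    ∀ ε > 0, ∀ᶠ n in atTop, 3 * Z - ε ≤ (X n 0 0 0 0).re := by
  apply alg_final X Z hZ s1 s2 s3 hmac
  intro M n
  have h := hpos M n
  have heq : ∑ p ∈ quads M, X n (2 * p.1.1) (2 * p.1.2) (-(2 * p.2.1)) (-(2 * p.2.2)) =
      ∑ a ∈ Finset.range (M + 1), ∑ b ∈ Finset.range (M + 1),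
      ∑ c ∈ Finset.range (M + 1), ∑ d ∈ Finset.range (M + 1),
        if a + b = c + d then X n (2 * a) (2 * b) (-(2 * c)) (-(2 * d)) else 0 := by
    unfold quads
    rw [Finset.sum_filter, Finset.sum_product, Finset.sum_product]
    simp only [Finset.sum_product]
  rw [heq]
  exact h

end QE
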