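import Pool.Agent.Lib_helper67.QE.Wirt

/-!
Sequences of functions which are bounded in `L^p` on the compact subsets of an open set.
-/

open Complex MeasureTheory Filter Topology
open scoped ContDiff

namespace QE

noncomputable section

/-- the sequence `u` is bounded in `L^p(K)` for every compact `K ⊆ U` -/
def LBdd (p : ℕ) (U : Set ℂ) (u : ℕ → ℂ → ℂ) : Prop :=
  ∀ K : Set ℂ, IsCompact K → K ⊆ U → ∃ C : ℝ, ∀ᶠ n in atTop, ∫ z in K, ‖u n z‖ ^ p ≤ C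

/-- all the functions of the sequence are smooth on `U` -/
def SmoothSeq (U : Set ℂ) (u : ℕ → ℂ → ℂ) : Prop := ∀ n, ContDiffOn ℝ ∞ (u n) U

theorem SmoothSeq.intOn {U K : Set ℂ} {u : ℕ → ℂ → ℂ} (h : SmoothSeq U u) (hK : IsCompact K)
    (hKU : K ⊆ U) (p n : ℕ) : IntegrableOn (fun z => ‖u n z‖ ^ p) K :=
  (((h n).continuousOn.mono hKU).norm.pow p).integrableOn_compact hK

theorem SmoothSeq.add {U : Set ℂ} {u v : ℕ → ℂ → ℂ} (hu : SmoothSeq U u) (hv : SmoothSeq U v) :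
    SmoothSeq U (fun n z => u n z + v n z) := fun n => (hu n).add (hv n)

theorem SmoothSeq.sub {U : Set ℂ} {u v : ℕ → ℂ → ℂ} (hu : SmoothSeq U u) (hv : SmoothSeq U v) :
    SmoothSeq U (fun n z => u n z - v n z) := fun n => (hu n).sub (hv n)

theorem SmoothSeq.mul {U : Set ℂ} {u v : ℕ → ℂ → ℂ} (hu : SmoothSeq U u) (hv : SmoothSeq U v) :
    SmoothSeq U (fun n z => u n z * v n z) := fun n => (hu n).mul (hv n)

theorem SmoothSeq.conj {U : Set ℂ} {u : ℕ → ℂ → ℂ} (hu : SmoothSeq U u) :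
    SmoothSeq U (fun n z => (starRingEnd ℂ) (u n z)) := fun n =>
  conjCLE.contDiff.comp_contDiffOn (hu n)

theorem SmoothSeq.const_mul {U : Set ℂ} {u : ℕ → ℂ → ℂ} (hu : SmoothSeq U u) (c : ℕ → ℂ) :
    SmoothSeq U (fun n z => c n * u n z) := fun n => contDiffOn_const.mul (hu n)

theorem SmoothSeq.fn_mul {U : Set ℂ} {u : ℕ → ℂ → ℂ} (hu : SmoothSeq U u) {b : ℂ → ℂ}
    (hb : ContDiffOn ℝ ∞ b U) : SmoothSeq U (fun n z => b z * u n z) := fun n => hb.mul (hu n)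

theorem SmoothSeq.dz {U : Set ℂ} (hU : IsOpen U) {u : ℕ → ℂ → ℂ} (hu : SmoothSeq U u) :
    SmoothSeq U (fun n => QE.dz (u n)) := fun n => contDiffOn_dz hU (hu n)

theorem SmoothSeq.dzb {U : Set ℂ} (hU : IsOpen U) {u : ℕ → ℂ → ℂ} (hu : SmoothSeq U u) :
    SmoothSeq U (fun n => QE.dzb (u n)) := fun n => contDiffOn_dzb hU (hu n)

theorem LBdd.congr {p : ℕ} {U : Set ℂ} {u v : ℕ → ℂ → ℂ} (h : LBdd p U u)
    (he : ∀ n, ∀ z ∈ U, u n z = v n z) : LBdd p U v := by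
  intro K hK hKU
  obtain ⟨C, hC⟩ := h K hK hKU
  refine ⟨C, ?_⟩
  filter_upwards [hC] with n hn
  refine le_trans (le_of_eq ?_) hn
  refine setIntegral_congr_fun hK.measurableSet fun z hz => ?_
  simp only [he n z (hKU hz)]

theorem LBdd.mono_set {p : ℕ} {U V : Set ℂ} {u : ℕ → ℂ → ℂ} (h : LBdd p U u) (hVU : V ⊆ U) :
    LBdd p V u := fun K hK hKV => h K hK (hKV.trans hVU)

/-- domination on compact sets -/
theorem LBdd.of_le {p : ℕ} {U : Set ℂ} {u v : ℕ → ℂ → ℂ} (h : LBdd p U u) (hu : SmoothSeq U u)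
    (hv : SmoothSeq U v)
    (hle : ∀ K : Set ℂ, IsCompact K → K ⊆ U → ∃ c : ℝ, 0 ≤ c ∧ ∀ᶠ n in atTop, ∀ z ∈ K,
      ‖v n z‖ ≤ c * ‖u n z‖) : LBdd p U v := by
  intro K hK hKU
  obtain ⟨C, hC⟩ := h K hK hKU
  obtain ⟨c, hc0, hc⟩ := hle K hK hKU
  refine ⟨c ^ p * C, ?_⟩
  filter_upwards [hC, hc] with n hn hcn
  calc ∫ z in K, ‖v n z‖ ^ p ≤ ∫ z in K, c ^ p * ‖u n z‖ ^ p := by
        refine setIntegral_mono_on (hv.intOn hK hKU p n) ((hu.intOn hK hKU p n).const_mul _)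
          hK.measurableSet fun z hz => ?_
        rw [← mul_pow]
        gcongr
        exact hcn z hz
    _ = c ^ p * ∫ z in K, ‖u n z‖ ^ p := integral_const_mul _ _
    _ ≤ c ^ p * C := by gcongr

theorem LBdd.fn_mul {p : ℕ} {U : Set ℂ} {u : ℕ → ℂ → ℂ} (h : LBdd p U u) (hu : SmoothSeq U u)
    {b : ℂ → ℂ} (hb : ContDiffOn ℝ ∞ b U) : LBdd p U (fun n z => b z * u n z) := by
  refine h.of_le hu (hu.fn_mul hb) fun K hK hKU => ?_
  obtain ⟨c, hc⟩ := hK.exists_bound_of_continuousOn (hb.continuousOn.mono hKU)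
  refine ⟨max c 0, le_max_right _ _, Filter.Eventually.of_forall fun n z hz => ?_⟩
  rw [norm_mul]
  gcongr
  exact (hc z hz).trans (le_max_left _ _)

theorem LBdd.const_mul {p : ℕ} {U : Set ℂ} {u : ℕ → ℂ → ℂ} (h : LBdd p U u) (hu : SmoothSeq U u)
    {c : ℕ → ℂ} {B : ℝ} (hc : ∀ᶠ n in atTop, ‖c n‖ ≤ B) : LBdd p U (fun n z => c n * u n z) := by
  refine h.of_le hu (hu.const_mul c) fun K hK hKU => ?_
  refine ⟨max B 0, le_max_right _ _, ?_⟩
  filter_upwards [hc] with n hn z _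
  rw [norm_mul]
  gcongr
  exact hn.trans (le_max_left _ _)

theorem LBdd.conj {p : ℕ} {U : Set ℂ} {u : ℕ → ℂ → ℂ} (h : LBdd p U u) :
    LBdd p U (fun n z => (starRingEnd ℂ) (u n z)) := by
  intro K hK hKU
  obtain ⟨C, hC⟩ := h K hK hKU
  refine ⟨C, ?_⟩
  filter_upwards [hC] with n hn
  simpa only [RCLike.norm_conj] using hn

theorem LBdd.add {p : ℕ} {U : Set ℂ} {u v : ℕ → ℂ → ℂ} (h1 : LBdd p U u) (hu : SmoothSeq U u)
    (h2 : LBdd p U v) (hv : SmoothSeq U v) : LBdd p U (fun n z => u n z + v n z) := by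
  intro K hK hKU
  obtain ⟨C, hC⟩ := h1 K hK hKU
  obtain ⟨D, hD⟩ := h2 K hK hKU
  refine ⟨2 ^ p * (C + D), ?_⟩
  filter_upwards [hC, hD] with n hn hn'
  calc ∫ z in K, ‖u n z + v n z‖ ^ p
      ≤ ∫ z in K, 2 ^ p * (‖u n z‖ ^ p + ‖v n z‖ ^ p) := by
        refine setIntegral_mono_on ((hu.add hv).intOn hK hKU p n)
          (((hu.intOn hK hKU p n).add (hv.intOn hK hKU p n)).const_mul _)
          hK.measurableSet fun z _ => ?_
        have ha : 0 ≤ ‖u n z‖ := norm_nonneg _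
        have hb : 0 ≤ ‖v n z‖ := norm_nonneg _
        calc ‖u n z + v n z‖ ^ p ≤ (‖u n z‖ + ‖v n z‖) ^ p := by gcongr; exact norm_add_le _ _
          _ ≤ (2 * max ‖u n z‖ ‖v n z‖) ^ p := by
              gcongr
              linarith [le_max_left ‖u n z‖ ‖v n z‖, le_max_right ‖u n z‖ ‖v n z‖]
          _ = 2 ^ p * (max ‖u n z‖ ‖v n z‖) ^ p := mul_pow _ _ _
          _ ≤ 2 ^ p * (‖u n z‖ ^ p + ‖v n z‖ ^ p) := by
              gcongr
              rcases le_total ‖u n z‖ ‖v n z‖ with h | h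
              · rw [max_eq_right h]; linarith [pow_nonneg ha p]
              · rw [max_eq_left h]; linarith [pow_nonneg hb p]
    _ = 2 ^ p * ((∫ z in K, ‖u n z‖ ^ p) + ∫ z in K, ‖v n z‖ ^ p) := by
        rw [integral_const_mul, integral_add (hu.intOn hK hKU p n) (hv.intOn hK hKU p n)]
    _ ≤ 2 ^ p * (C + D) := by gcongr

theorem LBdd.neg {p : ℕ} {U : Set ℂ} {u : ℕ → ℂ → ℂ} (h : LBdd p U u) :
    LBdd p U (fun n z => - u n z) := by
  intro K hK hKU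
  obtain ⟨C, hC⟩ := h K hK hKU
  refine ⟨C, ?_⟩
  filter_upwards [hC] with n hn
  simpa only [norm_neg] using hn

theorem SmoothSeq.neg {U : Set ℂ} {u : ℕ → ℂ → ℂ} (hu : SmoothSeq U u) :
    SmoothSeq U (fun n z => - u n z) := fun n => (hu n).neg

theorem LBdd.sub {p : ℕ} {U : Set ℂ} {u v : ℕ → ℂ → ℂ} (h1 : LBdd p U u) (hu : SmoothSeq U u)
    (h2 : LBdd p U v) (hv : SmoothSeq U v) : LBdd p U (fun n z => u n z - v n z) := by
  have := h1.add hu h2.neg hv.neg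
  simpa only [sub_eq_add_neg] using this

/-- the product of two `L⁴` bounded sequences is `L²` bounded -/
theorem LBdd.mul4 {U : Set ℂ} {u v : ℕ → ℂ → ℂ} (h1 : LBdd 4 U u) (hu : SmoothSeq U u)
    (h2 : LBdd 4 U v) (hv : SmoothSeq U v) : LBdd 2 U (fun n z => u n z * v n z) := by
  intro K hK hKU
  obtain ⟨C, hC⟩ := h1 K hK hKU
  obtain ⟨D, hD⟩ := h2 K hK hKU
  refine ⟨C + D, ?_⟩
  filter_upwards [hC, hD] with n hn hn'
  calc ∫ z in K, ‖u n z * v n z‖ ^ 2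
      ≤ ∫ z in K, (‖u n z‖ ^ 4 + ‖v n z‖ ^ 4) := by
        refine setIntegral_mono_on ((hu.mul hv).intOn hK hKU 2 n)
          ((hu.intOn hK hKU 4 n).add (hv.intOn hK hKU 4 n)) hK.measurableSet fun z _ => ?_
        rw [norm_mul]
        nlinarith [sq_nonneg (‖u n z‖ ^ 2 - ‖v n z‖ ^ 2), sq_nonneg (‖u n z‖ ^ 2),
          sq_nonneg (‖v n z‖ ^ 2)]
    _ = (∫ z in K, ‖u n z‖ ^ 4) + ∫ z in K, ‖v n z‖ ^ 4 :=
        integral_add (hu.intOn hK hKU 4 n) (hv.intOn hK hKU 4 n)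
    _ ≤ C + D := by gcongr

/-- a bounded sequence has bounded integrals against test functions -/
theorem LBdd.test {U : Set ℂ} {u : ℕ → ℂ → ℂ} (h : LBdd 2 U u) (hu : SmoothSeq U u)
    {ζ : ℂ → ℂ} (hζ : Test U ζ) : ∃ C : ℝ, ∀ᶠ n in atTop, ‖∫ z, ζ z * u n z‖ ≤ C := by
  have hKc : IsCompact (tsupport ζ) := hζ.supp
  obtain ⟨C, hC⟩ := h _ hKc hζ.sub
  obtain ⟨B, hB⟩ := hζ.smooth.continuous.bounded_above_of_compact_support hζ.supp
  have hB0 : 0 ≤ B := (norm_nonneg _).trans (hB 0)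
  refine ⟨B * ((volume : Measure ℂ).real (tsupport ζ) + C), ?_⟩
  filter_upwards [hC] with n hn
  have e : ∫ z, ζ z * u n z = ∫ z in tsupport ζ, ζ z * u n z := by
    rw [setIntegral_eq_integral_of_forall_compl_eq_zero]
    intro z hz
    rw [image_eq_zero_of_notMem_tsupport hz, zero_mul]
  rw [e]
  have hi : IntegrableOn (fun z => ‖u n z‖ ^ 2) (tsupport ζ) := hu.intOn hKc hζ.sub 2 n
  have hc : IntegrableOn (fun _ : ℂ => (1 : ℝ)) (tsupport ζ) := integrableOn_const hKc.measure_lt_top.ne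
  calc ‖∫ z in tsupport ζ, ζ z * u n z‖ ≤ ∫ z in tsupport ζ, ‖ζ z * u n z‖ :=
        norm_integral_le_integral_norm _
    _ ≤ ∫ z in tsupport ζ, B * (1 + ‖u n z‖ ^ 2) := by
        refine integral_mono_of_nonneg (Filter.Eventually.of_forall fun z => norm_nonneg _)
          ((hc.add hi).const_mul B) (Filter.Eventually.of_forall fun z => ?_)
        simp only [norm_mul]
        refine mul_le_mul (hB z) ?_ (norm_nonneg _) hB0
        nlinarith [sq_nonneg (‖u n z‖ - 1), norm_nonneg (u n z)]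
    _ = B * ((volume : Measure ℂ).real (tsupport ζ) + ∫ z in tsupport ζ, ‖u n z‖ ^ 2) := by
        rw [integral_const_mul, integral_add hc hi]; simp
    _ ≤ _ := by gcongr

end

end QE
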