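import Pool.Agent.Lib_helper67.QE.Compact
import Pool.Agent.Lib_helper67.QE.Cutoff

/-!
The div-curl lemma for sequences of smooth functions in the plane (helper70).
-/

open Complex MeasureTheory Filter Topology
open scoped ContDiff

namespace QE

noncomputable section

theorem Test.zero_of_notMem {U : Set ℂ} {ζ : ℂ → ℂ} (h : Test U ζ) {z : ℂ} (hz : z ∉ U) :
    ζ z = 0 ∧ QE.dz ζ z = 0 ∧ QE.dzb ζ z = 0 :=
  ⟨image_eq_zero_of_notMem_tsupport fun hh => hz (h.sub hh),
    image_eq_zero_of_notMem_tsupport fun hh => hz (Test.sub (Test.dz h) hh),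
    image_eq_zero_of_notMem_tsupport fun hh => hz (Test.sub (Test.dzb h) hh)⟩

/-- product rule, everywhere -/
theorem Test.dz_mul_apply {U : Set ℂ} (hU : IsOpen U) {ζ f : ℂ → ℂ} (h : Test U ζ)
    (hf : ContDiffOn ℝ ∞ f U) (z : ℂ) :
    QE.dz (fun z => ζ z * f z) z = QE.dz ζ z * f z + ζ z * QE.dz f z := by
  by_cases hz : z ∈ U
  · exact QE.dz_mul (h.smooth.differentiable (by simp) z)
      ((hf.contDiffAt (hU.mem_nhds hz)).differentiableAt (by simp))
  · obtain ⟨h1, h2, _⟩ := h.zero_of_notMem hz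
    have h3 := ((h.mul hU hf).zero_of_notMem hz).2.1
    rw [h3, h1, h2]; simp

theorem Test.dzb_mul_apply {U : Set ℂ} (hU : IsOpen U) {ζ f : ℂ → ℂ} (h : Test U ζ)
    (hf : ContDiffOn ℝ ∞ f U) (z : ℂ) :
    QE.dzb (fun z => ζ z * f z) z = QE.dzb ζ z * f z + ζ z * QE.dzb f z := by
  by_cases hz : z ∈ U
  · exact QE.dzb_mul (h.smooth.differentiable (by simp) z)
      ((hf.contDiffAt (hU.mem_nhds hz)).differentiableAt (by simp))
  · obtain ⟨h1, _, h2⟩ := h.zero_of_notMem hz
    have h3 := ((h.mul hU hf).zero_of_notMem hz).2.2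
    rw [h3, h1, h2]; simp

/-- strong convergence to zero against a bounded sequence -/
theorem pair_tendsto {U : Set ℂ} {η : ℂ → ℂ} (hη : Test U η) {g u : ℕ → ℂ → ℂ}
    (sg : SmoothSeq U g) (su : SmoothSeq U u)
    (hg : Tendsto (fun n => ∫ z in tsupport η, ‖g n z‖ ^ 2) atTop (𝓝 0)) (bu : LBdd 2 U u) :
    Tendsto (fun n => ∫ z, η z * (g n z * u n z)) atTop (𝓝 0) := by
  have hKc : IsCompact (tsupport η) := hη.supp
  obtain ⟨C, hC⟩ := bu _ hKc hη.sub
  obtain ⟨B, hB⟩ := hη.smooth.continuous.bounded_above_of_compact_support hη.supp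
  have hB0 : 0 ≤ B := (norm_nonneg _).trans (hB 0)
  have hC0 : 0 ≤ C := by
    obtain ⟨n, hn⟩ := hC.exists
    exact (integral_nonneg fun z => by positivity).trans hn
  rw [Metric.tendsto_atTop]
  intro ε hε
  -- weight
  obtain ⟨δ, hδ, hδe⟩ : ∃ δ : ℝ, 0 < δ ∧ B * (δ * C) < ε / 2 := by
    refine ⟨ε / (4 * (B * C + 1)), by positivity, ?_⟩
    rw [show B * (ε / (4 * (B * C + 1)) * C) = ε * (B * C / (4 * (B * C + 1))) by ring]
    have : B * C / (4 * (B * C + 1)) < 1 / 2 := by
      rw [div_lt_div_iff₀ (by positivity) (by norm_num)]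
      nlinarith [mul_nonneg hB0 hC0]
    nlinarith
  have hg' : ∀ᶠ n in atTop, B * (δ⁻¹ * ∫ z in tsupport η, ‖g n z‖ ^ 2) < ε / 2 := by
    have h1 : Tendsto (fun n => B * (δ⁻¹ * ∫ z in tsupport η, ‖g n z‖ ^ 2)) atTop
        (𝓝 (B * (δ⁻¹ * 0))) := (hg.const_mul _).const_mul _
    have h2 : B * (δ⁻¹ * 0) < ε / 2 := by simp only [mul_zero]; linarith
    exact h1.eventually (gt_mem_nhds h2)
  have hmain : ∀ᶠ n in atTop, ‖∫ z, η z * (g n z * u n z)‖ < ε := by
    filter_upwards [hC, hg'] with n hn hgn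
    have e : ∫ z, η z * (g n z * u n z) = ∫ z in tsupport η, η z * (g n z * u n z) := by
      rw [setIntegral_eq_integral_of_forall_compl_eq_zero]
      intro z hz
      rw [image_eq_zero_of_notMem_tsupport hz, zero_mul]
    rw [e]
    have hi : IntegrableOn (fun z => ‖u n z‖ ^ 2) (tsupport η) := su.intOn hKc hη.sub 2 n
    have hj : IntegrableOn (fun z => ‖g n z‖ ^ 2) (tsupport η) := sg.intOn hKc hη.sub 2 n
    calc ‖∫ z in tsupport η, η z * (g n z * u n z)‖
        ≤ ∫ z in tsupport η, ‖η z * (g n z * u n z)‖ := norm_integral_le_integral_norm _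
      _ ≤ ∫ z in tsupport η, B * (δ⁻¹ * ‖g n z‖ ^ 2 + δ * ‖u n z‖ ^ 2) := by
          refine integral_mono_of_nonneg (Filter.Eventually.of_forall fun z => norm_nonneg _)
            (((hj.const_mul _).add (hi.const_mul _)).const_mul B)
            (Filter.Eventually.of_forall fun z => ?_)
          simp only [norm_mul]
          refine mul_le_mul (hB z) ?_ (by positivity) hB0
          have hx : 0 ≤ ‖g n z‖ := norm_nonneg _
          have hy : 0 ≤ ‖u n z‖ := norm_nonneg _
          have hid : δ⁻¹ * ‖g n z‖ ^ 2 + δ * ‖u n z‖ ^ 2 - 2 * (‖g n z‖ * ‖u n z‖)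
              = δ⁻¹ * (‖g n z‖ - δ * ‖u n z‖) ^ 2 := by
            field_simp
            ring
          have : 0 ≤ δ⁻¹ * (‖g n z‖ - δ * ‖u n z‖) ^ 2 := by positivity
          nlinarith [mul_nonneg hx hy]
      _ = B * (δ⁻¹ * (∫ z in tsupport η, ‖g n z‖ ^ 2) + δ * ∫ z in tsupport η, ‖u n z‖ ^ 2) := by
          rw [integral_const_mul, integral_add (hj.const_mul _) (hi.const_mul _),
            integral_const_mul, integral_const_mul]
      _ ≤ B * (δ⁻¹ * (∫ z in tsupport η, ‖g n z‖ ^ 2) + δ * C) := by gcongr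
      _ < ε := by rw [mul_add]; linarith
  obtain ⟨N, hN⟩ := eventually_atTop.mp hmain
  exact ⟨N, fun n hn => by rw [dist_zero_right]; exact hN n hn⟩

/-- the div-curl lemma when the first field tends weakly to zero -/
theorem div_curl_zero {U : Set ℂ} (hU : IsOpen U) {A B A' B' : ℕ → ℂ → ℂ}
    (sA : SmoothSeq U A) (sB : SmoothSeq U B) (sA' : SmoothSeq U A') (sB' : SmoothSeq U B')
    (bA : LBdd 2 U A) (bB : LBdd 2 U B) (bA' : LBdd 2 U A') (bB' : LBdd 2 U B')
    (bR : LBdd 2 U (fun n z => dz (A n) z + dzb (B n) z))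
    (bR' : LBdd 2 U (fun n z => dz (A' n) z + dzb (B' n) z))
    (wA : ∀ ζ, Test U ζ → Tendsto (fun n => ∫ w, ζ w * A n w) atTop (𝓝 0))
    (wB : ∀ ζ, Test U ζ → Tendsto (fun n => ∫ w, ζ w * B n w) atTop (𝓝 0))
    {ζ : ℂ → ℂ} (hζ : Test U ζ) :
    Tendsto (fun n => ∫ w, ζ w * (A n w * B' n w - B n w * A' n w)) atTop (𝓝 0) := by
  obtain ⟨χ, hχ, hχ1, -⟩ := exists_cutoff hU (hζ.supp : IsCompact (tsupport ζ)) hζ.sub
  set L := tsupport χ with hL
  have hLc : IsCompact L := hχ.supp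
  have sR : SmoothSeq U (fun n z => dz (A n) z + dzb (B n) z) := (sA.dz hU).add (sB.dzb hU)
  have sR' : SmoothSeq U (fun n z => dz (A' n) z + dzb (B' n) z) := (sA'.dz hU).add (sB'.dzb hU)
  have tA : ∀ n, Test U (fun z => χ z * A n z) := fun n => hχ.mul hU (sA n)
  have tB : ∀ n, Test U (fun z => χ z * B n z) := fun n => hχ.mul hU (sB n)
  -- the source term
  set f : ℕ → ℂ → ℂ := fun n z => dz χ z * A n z + dzb χ z * B n z
    + χ z * (dz (A n) z + dzb (B n) z) with hf
  have t1 : ∀ n, Test U (fun z => dz χ z * A n z) := fun n => hχ.dz.mul hU (sA n)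
  have t2 : ∀ n, Test U (fun z => dzb χ z * B n z) := fun n => hχ.dzb.mul hU (sB n)
  have t3 : ∀ n, Test U (fun z => χ z * (dz (A n) z + dzb (B n) z)) := fun n => hχ.mul hU (sR n)
  have hfs : ∀ n, ContDiff ℝ ∞ (f n) := fun n =>
    ((t1 n).smooth.add (t2 n).smooth).add (t3 n).smooth
  have hfz : ∀ n z, z ∉ L → f n z = 0 := by
    intro n z hz
    have h1 : χ z = 0 := image_eq_zero_of_notMem_tsupport hz
    have h2 : dz χ z = 0 := image_eq_zero_of_notMem_tsupport fun hh => hz (tsupport_dz_subset χ hh)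
    have h3 : dzb χ z = 0 := image_eq_zero_of_notMem_tsupport fun hh => hz (tsupport_dzb_subset χ hh)
    simp only [hf, h1, h2, h3]; ring
  have hfsupp : ∀ n, tsupport (f n) ⊆ L := fun n => by
    refine closure_minimal ?_ (isClosed_tsupport χ)
    intro z hz
    by_contra h
    exact hz (hfz n z h)
  have hfc : ∀ n, HasCompactSupport (f n) := fun n =>
    hLc.of_isClosed_subset (isClosed_tsupport _) (hfsupp n)
  have sf : SmoothSeq U f := fun n => (hfs n).contDiffOn
  have bf : LBdd 2 U f := by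
    have u1 : LBdd 2 U (fun n z => dz χ z * A n z) := bA.fn_mul sA (contDiff_dz hχ.smooth).contDiffOn
    have u2 : LBdd 2 U (fun n z => dzb χ z * B n z) :=
      bB.fn_mul sB (contDiff_dzb hχ.smooth).contDiffOn
    have u3 : LBdd 2 U (fun n z => χ z * (dz (A n) z + dzb (B n) z)) :=
      bR.fn_mul sR hχ.smooth.contDiffOn
    have s1 : SmoothSeq U (fun n z => dz χ z * A n z) := fun n => (t1 n).smooth.contDiffOn
    have s2 : SmoothSeq U (fun n z => dzb χ z * B n z) := fun n => (t2 n).smooth.contDiffOn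
    have s3 : SmoothSeq U (fun n z => χ z * (dz (A n) z + dzb (B n) z)) :=
      fun n => (t3 n).smooth.contDiffOn
    exact (u1.add s1 u2 s2).add (s1.add s2) u3 s3
  have glob : ∀ (g : ℕ → ℂ → ℂ), (∀ n z, z ∉ L → g n z = 0) → LBdd 2 U g →
      ∃ C : ℝ, ∀ᶠ n in atTop, ∫ z, ‖g n z‖ ^ 2 ≤ C := by
    intro g hg0 hg
    obtain ⟨C, hC⟩ := hg L hLc hχ.sub
    refine ⟨C, ?_⟩
    filter_upwards [hC] with n hn
    rw [setIntegral_eq_integral_of_forall_compl_eq_zero] at hn
    · exact hn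
    · intro z hz; rw [hg0 n z hz]; simp
  obtain ⟨Cf, hCf⟩ := glob f hfz bf
  have bχA : LBdd 2 U (fun n z => χ z * A n z) := bA.fn_mul sA hχ.smooth.contDiffOn
  obtain ⟨CA, hCA⟩ := glob (fun n z => χ z * A n z) (fun n z hz => by
    rw [image_eq_zero_of_notMem_tsupport hz, zero_mul]) bχA
  -- weak limits
  have hwA : ∀ η : ℂ → ℂ, ContDiff ℝ ∞ η →
      Tendsto (fun n => ∫ z, (χ z * A n z) * η z) atTop (𝓝 0) := by
    intro η hη
    refine (wA _ (hχ.mul hU hη.contDiffOn)).congr fun n => ?_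
    exact integral_congr_ae (Filter.Eventually.of_forall fun z => by simp only []; ring)
  have hwf : ∀ η : ℂ → ℂ, ContDiff ℝ ∞ η → Tendsto (fun n => ∫ z, f n z * η z) atTop (𝓝 0) := by
    intro η hη
    have p1 := wA _ (hχ.dz.mul hU hη.contDiffOn)
    have p2 := wB _ (hχ.dzb.mul hU hη.contDiffOn)
    have tη : Test U (fun z => χ z * η z) := hχ.mul hU hη.contDiffOn
    have p3 : Tendsto (fun n => ∫ z, (χ z * η z) * (dz (A n) z + dzb (B n) z)) atTop (𝓝 0) := by
      have q1 := (wA _ tη.dz).neg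
      have q2 := (wB _ tη.dzb).neg
      have q := q1.add q2
      simp only [neg_zero, add_zero] at q
      refine q.congr fun n => ?_
      rw [← integral_mul_dz hU tη (sA n), ← integral_mul_dzb hU tη (sB n), ← integral_add
        (tη.integrable_mul hU (contDiffOn_dz hU (sA n)).continuousOn)
        (tη.integrable_mul hU (contDiffOn_dzb hU (sB n)).continuousOn)]
      exact integral_congr_ae (Filter.Eventually.of_forall fun z => by simp only []; ring)
    have p := (p1.add p2).add p3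
    simp only [add_zero] at p
    refine p.congr fun n => ?_
    have k1 : Integrable (fun z => (dz χ z * η z) * A n z) :=
      (hχ.dz.mul hU hη.contDiffOn).integrable_mul hU (sA n).continuousOn
    have k2 : Integrable (fun z => (dzb χ z * η z) * B n z) :=
      (hχ.dzb.mul hU hη.contDiffOn).integrable_mul hU (sB n).continuousOn
    have k3 : Integrable (fun z => (χ z * η z) * (dz (A n) z + dzb (B n) z)) :=
      tη.integrable_mul hU (sR n).continuousOn
    have k12 : Integrable (fun z => (dz χ z * η z) * A n z + (dzb χ z * η z) * B n z) := k1.add k2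
    rw [← integral_add k1 k2, ← integral_add k12 k3]
    exact integral_congr_ae (Filter.Eventually.of_forall fun z => by simp only [hf]; ring)
  -- the potentials
  set Φ : ℕ → ℂ → ℂ := fun n => cauchy (fun z => χ z * A n z) with hΦ
  set κ : ℕ → ℂ → ℂ := fun n => cauchy (f n) with hκ
  have sΦ' : ∀ n, ContDiff ℝ ∞ (Φ n) := fun n => contDiff_cauchy (tA n).smooth (tA n).supp
  have sκ' : ∀ n, ContDiff ℝ ∞ (κ n) := fun n => contDiff_cauchy (hfs n) (hfc n)
  have sΦ : SmoothSeq U Φ := fun n => (sΦ' n).contDiffOn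
  have sκ : SmoothSeq U κ := fun n => (sκ' n).contDiffOn
  have cΦ : ∀ K : Set ℂ, IsCompact K → Tendsto (fun n => ∫ z in K, ‖Φ n z‖ ^ 2) atTop (𝓝 0) :=
    fun K hK => cauchy_compact hLc hK (fun n => (tA n).smooth) (fun n => by
      refine closure_minimal ?_ (isClosed_tsupport χ)
      intro z hz
      by_contra h
      exact hz (by simp only []; rw [image_eq_zero_of_notMem_tsupport h, zero_mul])) hCA hwA
  have cκ : ∀ K : Set ℂ, IsCompact K → Tendsto (fun n => ∫ z in K, ‖κ n z‖ ^ 2) atTop (𝓝 0) :=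
    fun K hK => cauchy_compact hLc hK hfs hfsupp hCf hwf
  have eΦb : ∀ n z, dzb (Φ n) z = χ z * A n z := fun n z => dzb_cauchy (tA n).smooth (tA n).supp z
  have eΦ : ∀ n z, dz (Φ n) z = κ n z - χ z * B n z := by
    intro n z
    have e1 : dz (Φ n) z = cauchy (dz (fun z => χ z * A n z)) z :=
      dz_cauchy (tA n).smooth (tA n).supp z
    have e2 : dz (fun z => χ z * A n z) = fun z => f n z - dzb (fun z => χ z * B n z) z := by
      funext w
      rw [hχ.dz_mul_apply hU (sA n), hχ.dzb_mul_apply hU (sB n)]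
      simp only [hf]; ring
    rw [e1, e2, cauchy_sub (hfs n).continuous (hfc n) (contDiff_dzb (tB n).smooth).continuous
      (tB n).supp.dzb, cauchy_dzb (tB n).smooth (tB n).supp]
  -- the four terms
  have hζc : IsCompact (tsupport ζ) := hζ.supp
  have r1 := pair_tendsto hζ.dzb sΦ sB' (cΦ _ hζ.dzb.supp) bB'
  have r2 := pair_tendsto hζ.dz sΦ sA' (cΦ _ hζ.dz.supp) bA'
  have r3 := pair_tendsto hζ sΦ sR' (cΦ _ hζ.supp) bR'
  have r4 := pair_tendsto hζ sκ sA' (cκ _ hζ.supp) bA'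
  have r := ((r1.add r2).add (r3.add r4)).neg
  simp only [add_zero, neg_zero] at r
  refine r.congr fun n => ?_
  -- integration by parts
  have tA' : Test U (fun z => ζ z * A' n z) := hζ.mul hU (sA' n)
  have tB' : Test U (fun z => ζ z * B' n z) := hζ.mul hU (sB' n)
  have i1 := integral_mul_dzb hU tB' (sΦ n)
  have i2 := integral_mul_dz hU tA' (sΦ n)
  have I1 : Integrable (fun z => dzb ζ z * (Φ n z * B' n z)) :=
    hζ.dzb.integrable_mul hU ((sΦ n).mul (sB' n)).continuousOn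
  have I2 : Integrable (fun z => dz ζ z * (Φ n z * A' n z)) :=
    hζ.dz.integrable_mul hU ((sΦ n).mul (sA' n)).continuousOn
  have I3 : Integrable (fun z => ζ z * (Φ n z * (dz (A' n) z + dzb (B' n) z))) :=
    hζ.integrable_mul hU ((sΦ n).mul (sR' n)).continuousOn
  have I4 : Integrable (fun z => ζ z * (κ n z * A' n z)) :=
    hζ.integrable_mul hU ((sκ n).mul (sA' n)).continuousOn
  have J1 : Integrable (fun z => dzb (fun z => ζ z * B' n z) z * Φ n z) :=
    tB'.dzb.integrable_mul hU (sΦ n).continuousOn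
  have J2 : Integrable (fun z => dz (fun z => ζ z * A' n z) z * Φ n z) :=
    tA'.dz.integrable_mul hU (sΦ n).continuousOn
  have J3 : Integrable (fun z => (ζ z * B' n z) * dzb (Φ n) z) :=
    tB'.integrable_mul hU (contDiffOn_dzb hU (sΦ n)).continuousOn
  have J4 : Integrable (fun z => (ζ z * A' n z) * dz (Φ n) z) :=
    tA'.integrable_mul hU (contDiffOn_dz hU (sΦ n)).continuousOn
  have key : (∫ z, dzb ζ z * (Φ n z * B' n z)) + (∫ z, dz ζ z * (Φ n z * A' n z))
      + (∫ z, ζ z * (Φ n z * (dz (A' n) z + dzb (B' n) z)))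
      = (∫ z, dzb (fun z => ζ z * B' n z) z * Φ n z)
        + ∫ z, dz (fun z => ζ z * A' n z) z * Φ n z := by
    have I12 : Integrable (fun z => dzb ζ z * (Φ n z * B' n z) + dz ζ z * (Φ n z * A' n z)) :=
      I1.add I2
    rw [← integral_add I1 I2, ← integral_add I12 I3, ← integral_add J1 J2]
    refine integral_congr_ae (Filter.Eventually.of_forall fun z => ?_)
    simp only []
    rw [hζ.dzb_mul_apply hU (sB' n), hζ.dz_mul_apply hU (sA' n)]
    ring
  have fin : ∫ w, ζ w * (A n w * B' n w - B n w * A' n w)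
      = (∫ z, (ζ z * B' n z) * dzb (Φ n) z) + (∫ z, (ζ z * A' n z) * dz (Φ n) z)
        - ∫ z, ζ z * (κ n z * A' n z) := by
    have J34 : Integrable (fun z => (ζ z * B' n z) * dzb (Φ n) z
        + (ζ z * A' n z) * dz (Φ n) z) := J3.add J4
    rw [← integral_add J3 J4, ← integral_sub J34 I4]
    refine integral_congr_ae (Filter.Eventually.of_forall fun z => ?_)
    simp only []
    by_cases hz : z ∈ tsupport ζ
    · have h1 : χ z = 1 := (hχ1 z hz).self_of_nhds
      rw [eΦb, eΦ, h1]; ring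
    · rw [image_eq_zero_of_notMem_tsupport hz]; ring
  rw [fin, i1, i2]
  have : -((∫ z, dzb ζ z * (Φ n z * B' n z)) + (∫ z, dz ζ z * (Φ n z * A' n z))
      + ((∫ z, ζ z * (Φ n z * (dz (A' n) z + dzb (B' n) z))) + ∫ z, ζ z * (κ n z * A' n z)))
      = -(∫ z, dzb (fun z => ζ z * B' n z) z * Φ n z)
        + -(∫ z, dz (fun z => ζ z * A' n z) z * Φ n z) - ∫ z, ζ z * (κ n z * A' n z) := by
    linear_combination -key
  exact this

/-- **the div-curl lemma** -/
theorem div_curl {U : Set ℂ} (hU : IsOpen U) {A B A' B' : ℕ → ℂ → ℂ}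
    (sA : SmoothSeq U A) (sB : SmoothSeq U B) (sA' : SmoothSeq U A') (sB' : SmoothSeq U B')
    (bA : LBdd 2 U A) (bB : LBdd 2 U B) (bA' : LBdd 2 U A') (bB' : LBdd 2 U B')
    (bR : LBdd 2 U (fun n z => dz (A n) z + dzb (B n) z))
    (bR' : LBdd 2 U (fun n z => dz (A' n) z + dzb (B' n) z)) {a b a' b' : ℂ}
    (wA : ∀ ζ, Test U ζ → Tendsto (fun n => ∫ w, ζ w * A n w) atTop (𝓝 (a * ∫ w, ζ w)))
    (wB : ∀ ζ, Test U ζ → Tendsto (fun n => ∫ w, ζ w * B n w) atTop (𝓝 (b * ∫ w, ζ w)))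
    (wA' : ∀ ζ, Test U ζ → Tendsto (fun n => ∫ w, ζ w * A' n w) atTop (𝓝 (a' * ∫ w, ζ w)))
    (wB' : ∀ ζ, Test U ζ → Tendsto (fun n => ∫ w, ζ w * B' n w) atTop (𝓝 (b' * ∫ w, ζ w)))
    {ζ : ℂ → ℂ} (hζ : Test U ζ) :
    Tendsto (fun n => ∫ w, ζ w * (A n w * B' n w - B n w * A' n w)) atTop
      (𝓝 ((a * b' - b * a') * ∫ w, ζ w)) := by
  have smC : ∀ c : ℂ, SmoothSeq U (fun (_ : ℕ) (_ : ℂ) => c) := fun c _ => contDiffOn_const
  have bdC : ∀ c : ℂ, LBdd 2 U (fun (_ : ℕ) (_ : ℂ) => c) := by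
    intro c K hK hKU
    exact ⟨∫ z in K, ‖c‖ ^ 2, Filter.Eventually.of_forall fun n => le_rfl⟩
  have wsub : ∀ {X : ℕ → ℂ → ℂ} {c : ℂ}, SmoothSeq U X →
      (∀ ζ, Test U ζ → Tendsto (fun n => ∫ w, ζ w * X n w) atTop (𝓝 (c * ∫ w, ζ w))) →
      ∀ ζ, Test U ζ → Tendsto (fun n => ∫ w, ζ w * (X n w - c)) atTop (𝓝 0) := by
    intro X c sX hX η hη
    have h1 := (hX η hη).sub_const (c * ∫ w, η w)
    rw [sub_self] at h1
    refine h1.congr fun n => ?_
    have hηi : Integrable η := hη.smooth.continuous.integrable_of_hasCompactSupport hη.supp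
    rw [← integral_const_mul, ← integral_sub (hη.integrable_mul hU (sX n).continuousOn)
      (hηi.const_mul c)]
    exact integral_congr_ae (Filter.Eventually.of_forall fun z => by simp only []; ring)
  have dzs : ∀ (X : ℂ → ℂ) (c : ℂ) (z : ℂ), dz (fun w => X w - c) z = dz X z := by
    intro X c z; simp only [dz, fderiv_sub_const]
  have dzbs : ∀ (X : ℂ → ℂ) (c : ℂ) (z : ℂ), dzb (fun w => X w - c) z = dzb X z := by
    intro X c z; simp only [dzb, fderiv_sub_const]
  have h0 := div_curl_zero hU (A := fun n z => A n z - a) (B := fun n z => B n z - b)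
    (A' := A') (B' := B') (sA.sub (smC a)) (sB.sub (smC b)) sA' sB'
    (bA.sub sA (bdC a) (smC a)) (bB.sub sB (bdC b) (smC b)) bA' bB'
    (by simpa only [dzs, dzbs] using bR) bR' (wsub sA wA) (wsub sB wB) hζ
  have h1 := ((wB' ζ hζ).const_mul a).sub ((wA' ζ hζ).const_mul b)
  have h2 := h0.add h1
  rw [zero_add] at h2
  have e : a * (b' * ∫ w, ζ w) - b * (a' * ∫ w, ζ w) = (a * b' - b * a') * ∫ w, ζ w := by ring
  rw [e] at h2
  refine h2.congr fun n => ?_
  have I1 := hζ.integrable_mul hU (f := fun w => (A n w - a) * B' n w - (B n w - b) * A' n w)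
    ((((sA n).sub contDiffOn_const).mul (sB' n)).sub
      (((sB n).sub contDiffOn_const).mul (sA' n))).continuousOn
  have I2 := hζ.integrable_mul hU (sB' n).continuousOn
  have I3 := hζ.integrable_mul hU (sA' n).continuousOn
  have I23 : Integrable (fun z => a * (ζ z * B' n z) - b * (ζ z * A' n z)) :=
    (I2.const_mul a).sub (I3.const_mul b)
  rw [← integral_const_mul, ← integral_const_mul, ← integral_sub (I2.const_mul a) (I3.const_mul b),
    ← integral_add I1 I23]
  exact integral_congr_ae (Filter.Eventually.of_forall fun z => by simp only []; ring)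

end

end QE
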