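import Pool.Agent.Lib_helper67.QE.Cauchy

/-!
Compactness of the Cauchy transform.
-/

open Complex MeasureTheory Filter Topology Real
open scoped ContDiff

namespace QE

noncomputable section

theorem sq_integral_mul_le {k g : ℂ → ℝ} (hk : ∀ z, 0 ≤ k z) (h0 : Integrable k)
    (h1 : Integrable (fun z => k z * g z)) (h2 : Integrable (fun z => k z * g z ^ 2)) :
    (∫ z, k z * g z) ^ 2 ≤ (∫ z, k z) * ∫ z, k z * g z ^ 2 := by
  have key : ∀ t : ℝ, 0 ≤ (∫ z, k z) * (t * t) + (-2 * ∫ z, k z * g z) * t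
      + ∫ z, k z * g z ^ 2 := by
    intro t
    have e : (∫ z, k z) * (t * t) + (-2 * ∫ z, k z * g z) * t + ∫ z, k z * g z ^ 2
        = ∫ z, k z * (t - g z) ^ 2 := by
      have e1 : ∀ z, k z * (t - g z) ^ 2 = ((t * t) * k z + (-2 * t) * (k z * g z)) + k z * g z ^ 2 :=
        fun z => by ring
      simp only [e1]
      have h3 : Integrable (fun z => (t * t) * k z + (-2 * t) * (k z * g z)) :=
        (h0.const_mul _).add (h1.const_mul _)
      rw [integral_add h3 h2,
        integral_add (h0.const_mul _) (h1.const_mul _), integral_const_mul, integral_const_mul]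
      ring
    rw [e]
    exact integral_nonneg fun z => mul_nonneg (hk z) (sq_nonneg _)
  have := discrim_le_zero key
  unfold discrim at this
  nlinarith

/-- Young's inequality for the square norm, for a compactly supported continuous function -/
theorem young_sq {k f : ℂ → ℂ} (hk : Integrable k) (hf : Continuous f) (hc : HasCompactSupport f) :
    Integrable (fun z => ‖∫ w, k w * f (z - w)‖ ^ 2) ∧
    ∫ z, ‖∫ w, k w * f (z - w)‖ ^ 2 ≤ (∫ w, ‖k w‖) ^ 2 * ∫ z, ‖f z‖ ^ 2 := by
  have hf2 : Integrable (fun z => ‖f z‖ ^ 2) := by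
    have : Continuous (fun z => ‖f z‖ ^ 2) := by fun_prop
    refine this.integrable_of_hasCompactSupport ?_
    exact hc.comp_left (g := fun w => ‖w‖ ^ 2) (by simp)
  obtain ⟨B, hB⟩ := hf.bounded_above_of_compact_support hc
  have hB0 : 0 ≤ B := (norm_nonneg _).trans (hB 0)
  have hkn : Integrable (fun w => ‖k w‖) := hk.norm
  have hi1 : ∀ z, Integrable (fun w => ‖k w‖ * ‖f (z - w)‖) := fun z =>
    hkn.mul_bdd (c := B) (by fun_prop) (Filter.Eventually.of_forall fun w => by simpa using hB _)
  have hi2 : ∀ z, Integrable (fun w => ‖k w‖ * ‖f (z - w)‖ ^ 2) := fun z =>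
    hkn.mul_bdd (c := B ^ 2) (by fun_prop) (Filter.Eventually.of_forall fun w => by
      simp only [norm_pow, norm_norm]; gcongr; exact hB _)
  have hpt : ∀ z, ‖∫ w, k w * f (z - w)‖ ^ 2 ≤ (∫ w, ‖k w‖) * ∫ w, ‖k w‖ * ‖f (z - w)‖ ^ 2 := by
    intro z
    calc ‖∫ w, k w * f (z - w)‖ ^ 2 ≤ (∫ w, ‖k w‖ * ‖f (z - w)‖) ^ 2 := by
          gcongr
          refine (norm_integral_le_integral_norm _).trans_eq ?_
          exact integral_congr_ae (Filter.Eventually.of_forall fun w => norm_mul _ _)
      _ ≤ _ := sq_integral_mul_le (fun w => norm_nonneg _) hkn (hi1 z) (hi2 z)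
  have hconv : Integrable (convolution (fun w => ‖k w‖) (fun w => ‖f w‖ ^ 2)
      (ContinuousLinearMap.mul ℝ ℝ) volume) :=
    hkn.integrable_convolution _ hf2
  have hconvi : ∫ z, convolution (fun w => ‖k w‖) (fun w => ‖f w‖ ^ 2)
      (ContinuousLinearMap.mul ℝ ℝ) volume z = (∫ w, ‖k w‖) * ∫ z, ‖f z‖ ^ 2 := by
    rw [integral_convolution _ hkn hf2]; rfl
  have hmeas : AEStronglyMeasurable (fun z => ‖∫ w, k w * f (z - w)‖ ^ 2) volume := by
    have h1 : Continuous (convolution k f (ContinuousLinearMap.mul ℝ ℂ) volume) :=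
      hc.continuous_convolution_right _ hk.locallyIntegrable hf
    have h2 : (fun z => ‖∫ w, k w * f (z - w)‖ ^ 2)
        = fun z => ‖convolution k f (ContinuousLinearMap.mul ℝ ℂ) volume z‖ ^ 2 := by
      funext z; rw [convolution_def]; rfl
    rw [h2]
    exact (by fun_prop : Continuous _).aestronglyMeasurable
  have hdom : Integrable (fun z => (∫ w, ‖k w‖) * ∫ w, ‖k w‖ * ‖f (z - w)‖ ^ 2) := by
    exact hconv.const_mul _
  have hint : Integrable (fun z => ‖∫ w, k w * f (z - w)‖ ^ 2) :=
    hdom.mono' hmeas (Filter.Eventually.of_forall fun z => by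
      rw [Real.norm_of_nonneg (by positivity)]; exact hpt z)
  refine ⟨hint, ?_⟩
  calc ∫ z, ‖∫ w, k w * f (z - w)‖ ^ 2
      ≤ ∫ z, (∫ w, ‖k w‖) * ∫ w, ‖k w‖ * ‖f (z - w)‖ ^ 2 := integral_mono hint hdom hpt
    _ = (∫ w, ‖k w‖) * ∫ z, convolution (fun w => ‖k w‖) (fun w => ‖f w‖ ^ 2)
      (ContinuousLinearMap.mul ℝ ℝ) volume z := by rw [integral_const_mul]; rfl
    _ = _ := by rw [hconvi]; ring

theorem cauchy_compact {f : ℕ → ℂ → ℂ} {L K : Set ℂ} (hL : IsCompact L) (hK : IsCompact K)
    (hf : ∀ n, ContDiff ℝ ∞ (f n)) (hs : ∀ n, tsupport (f n) ⊆ L) {B : ℝ}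
    (hB : ∀ᶠ n in atTop, ∫ z, ‖f n z‖ ^ 2 ≤ B)
    (hw : ∀ η : ℂ → ℂ, ContDiff ℝ ∞ η → Tendsto (fun n => ∫ z, f n z * η z) atTop (𝓝 0)) :
    Tendsto (fun n => ∫ z in K, ‖cauchy (f n) z‖ ^ 2) atTop (𝓝 0) := by
  have hc : ∀ n, HasCompactSupport (f n) := fun n => hL.of_isClosed_subset (isClosed_tsupport _) (hs n)
  have hB0 : 0 ≤ B := by
    obtain ⟨n, hn⟩ := hB.exists
    exact (integral_nonneg fun z => by positivity).trans hn
  -- `L¹` norms
  set V : ℝ := (volume : Measure ℂ).real L with hV
  have hLfin : (volume : Measure ℂ) L ≠ ⊤ := hL.measure_lt_top.ne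
  have hL1 : ∀ᶠ n in atTop, ∫ z, ‖f n z‖ ≤ V + B := by
    filter_upwards [hB] with n hn
    have hi2 : Integrable (fun z => ‖f n z‖ ^ 2) := by
      have : Continuous (fun z => ‖f n z‖ ^ 2) := by have := (hf n).continuous; fun_prop
      exact this.integrable_of_hasCompactSupport ((hc n).comp_left (g := fun w => ‖w‖ ^ 2) (by simp))
    have hi1 : Integrable (fun z => ‖f n z‖) :=
      ((hf n).continuous.integrable_of_hasCompactSupport (hc n)).norm
    have hind : Integrable (L.indicator fun _ => (1 : ℝ)) :=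
      (integrable_indicator_iff hL.measurableSet).mpr (integrableOn_const hLfin)
    have hpt : ∀ z, ‖f n z‖ ≤ L.indicator (fun _ => (1 : ℝ)) z + ‖f n z‖ ^ 2 := by
      intro z
      by_cases hz : z ∈ L
      · rw [Set.indicator_of_mem hz]; nlinarith [sq_nonneg (‖f n z‖ - 1), norm_nonneg (f n z)]
      · have : f n z = 0 := image_eq_zero_of_notMem_tsupport fun h => hz (hs n h)
        rw [Set.indicator_of_notMem hz, this]; simp
    calc ∫ z, ‖f n z‖ ≤ ∫ z, (L.indicator (fun _ => (1 : ℝ)) z + ‖f n z‖ ^ 2) :=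
          integral_mono hi1 (hind.add hi2) hpt
      _ = V + ∫ z, ‖f n z‖ ^ 2 := by
          rw [integral_add hind hi2, integral_indicator hL.measurableSet]; simp [hV]
      _ ≤ V + B := by linarith
  -- the smoothed part tends to zero
  have hsm : ∀ δ : ℝ, 0 < δ → Tendsto (fun n => ∫ z in K, ‖∫ w, kd δ w * f n (z - w)‖ ^ 2) atTop
      (𝓝 0) := by
    intro δ hδ
    have hcont : ∀ n, Continuous (fun z => ∫ w, kd δ w * f n (z - w)) := by
      intro n
      have h1 := (hc n).continuous_convolution_right (ContinuousLinearMap.mul ℝ ℂ)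
        ((continuous_kd hδ).locallyIntegrable (μ := volume)) (hf n).continuous
      have h2 : (fun z => ∫ w, kd δ w * f n (z - w))
        = convolution (kd δ) (f n) (ContinuousLinearMap.mul ℝ ℂ) volume := by
        funext z; rw [convolution_def]; rfl
      rw [h2]; exact h1
    have hz : Tendsto (fun n => ∫ z in K, ‖∫ w, kd δ w * f n (z - w)‖ ^ 2) atTop
        (𝓝 (∫ _ in K, (0 : ℝ))) := by
      refine tendsto_integral_filter_of_dominated_convergence
        (fun _ => (1 / (2 * π * δ) * (V + B)) ^ 2) ?_ ?_ ?_ ?_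
      · exact Filter.Eventually.of_forall fun n =>
          (by have := hcont n; fun_prop : Continuous _).aestronglyMeasurable
      · filter_upwards [hL1] with n hn
        refine Filter.Eventually.of_forall fun z => ?_
        rw [Real.norm_of_nonneg (by positivity)]
        gcongr
        have hi : Integrable (fun w => ‖f n (z - w)‖) :=
          (((hf n).continuous.integrable_of_hasCompactSupport (hc n)).norm).comp_sub_left z
        calc ‖∫ w, kd δ w * f n (z - w)‖ ≤ ∫ w, ‖kd δ w * f n (z - w)‖ :=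
              norm_integral_le_integral_norm _
          _ ≤ ∫ w, 1 / (2 * π * δ) * ‖f n (z - w)‖ := by
              refine integral_mono_of_nonneg (Filter.Eventually.of_forall fun w => norm_nonneg _)
                (hi.const_mul _) (Filter.Eventually.of_forall fun w => ?_)
              simp only [norm_mul]
              gcongr
              exact norm_kd_le hδ w
          _ = 1 / (2 * π * δ) * ∫ w, ‖f n w‖ := by
              rw [integral_const_mul, integral_sub_left_eq_self (fun w => ‖f n w‖) volume z]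
          _ ≤ _ := by gcongr
      · exact integrableOn_const hK.measure_lt_top.ne
      · refine Filter.Eventually.of_forall fun z => ?_
        have h1 : ∀ n, ∫ w, kd δ w * f n (z - w) = ∫ w, f n w * kd δ (z - w) := by
          intro n
          rw [← integral_sub_left_eq_self (fun w => f n w * kd δ (z - w)) volume z]
          refine integral_congr_ae (Filter.Eventually.of_forall fun w => ?_)
          simp only [sub_sub_cancel]; ring
        have h2 := hw (fun w => kd δ (z - w)) ((contDiff_kd hδ).comp (contDiff_const.sub contDiff_id))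
        have h3 : Tendsto (fun n => ∫ w, kd δ w * f n (z - w)) atTop (𝓝 0) :=
          h2.congr fun n => (h1 n).symm
        have h4 := (h3.norm).pow 2
        simpa using h4
    simpa using hz
  -- conclusion
  rw [Metric.tendsto_atTop]
  intro ε hε
  obtain ⟨δ, hδ, hδ2⟩ : ∃ δ : ℝ, 0 < δ ∧ 2 * ((π * δ) ^ 2 * B) < ε / 2 := by
    have h1 : Tendsto (fun δ : ℝ => 2 * ((π * δ) ^ 2 * B)) (𝓝[>] 0) (𝓝 0) := by
      have : Tendsto (fun δ : ℝ => 2 * ((π * δ) ^ 2 * B)) (𝓝 0) (𝓝 (2 * ((π * 0) ^ 2 * B))) :=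
        (by fun_prop : Continuous fun δ : ℝ => 2 * ((π * δ) ^ 2 * B)).tendsto 0
      simpa using this.mono_left nhdsWithin_le_nhds
    have h2 := (h1.eventually_lt_const (half_pos hε)).and self_mem_nhdsWithin
    obtain ⟨δ, h3, h4⟩ := h2.exists
    exact ⟨δ, h4, h3⟩
  have h5 := (hsm δ hδ).const_mul 2
  rw [mul_zero] at h5
  have h6 := h5.eventually_lt_const (half_pos hε)
  obtain ⟨N, hN⟩ := (h6.and hB).exists_forall_of_atTop
  refine ⟨N, fun n hn => ?_⟩
  obtain ⟨h7, h8⟩ := hN n hn
  have hkk : Integrable (fun w => ck w - kd δ w) :=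
    (integrable_norm_iff (measurable_ck.sub (continuous_kd hδ).measurable).aestronglyMeasurable).mp
      (integrable_ck_sub_kd hδ)
  obtain ⟨hy1, hy2⟩ := young_sq hkk (hf n).continuous (hc n)
  have hsplit : ∀ z, cauchy (f n) z = (∫ w, (ck w - kd δ w) * f n (z - w))
      + ∫ w, kd δ w * f n (z - w) := by
    intro z
    have hi1 : Integrable (fun w => ck w * f n (z - w)) := convExists (hf n).continuous (hc n) z
    have hi3 : Integrable (fun w => f n (z - w)) :=
      ((hf n).continuous.integrable_of_hasCompactSupport (hc n)).comp_sub_left z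
    have hi2 : Integrable (fun w => kd δ w * f n (z - w)) :=
      hi3.bdd_mul (continuous_kd hδ).aestronglyMeasurable
        (Filter.Eventually.of_forall fun w => norm_kd_le hδ w)
    have hi4 : Integrable (fun w => (ck w - kd δ w) * f n (z - w)) := by
      refine (hi1.sub hi2).congr (Filter.Eventually.of_forall fun w => ?_)
      simp only [Pi.sub_apply]; ring
    rw [← integral_add hi4 hi2]
    unfold cauchy
    refine integral_congr_ae (Filter.Eventually.of_forall fun w => ?_)
    simp only []; ring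
  have hcontk : Continuous (fun z => ∫ w, kd δ w * f n (z - w)) := by
    have h1 := (hc n).continuous_convolution_right (ContinuousLinearMap.mul ℝ ℂ)
      ((continuous_kd hδ).locallyIntegrable (μ := volume)) (hf n).continuous
    have h2 : (fun z => ∫ w, kd δ w * f n (z - w))
      = convolution (kd δ) (f n) (ContinuousLinearMap.mul ℝ ℂ) volume := by
      funext z; rw [convolution_def]; rfl
    rw [h2]; exact h1
  have hik : IntegrableOn (fun z => ‖∫ w, kd δ w * f n (z - w)‖ ^ 2) K :=
    (by fun_prop : Continuous (fun z => ‖∫ w, kd δ w * f n (z - w)‖ ^ 2)).continuousOn.integrableOn_compact hK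
  have hic : IntegrableOn (fun z => ‖cauchy (f n) z‖ ^ 2) K := by
    have := (contDiff_cauchy (hf n) (hc n)).continuous
    exact (by fun_prop : Continuous (fun z => ‖cauchy (f n) z‖ ^ 2)).continuousOn.integrableOn_compact hK
  rw [Real.dist_eq, sub_zero, abs_of_nonneg (integral_nonneg fun z => by positivity)]
  calc ∫ z in K, ‖cauchy (f n) z‖ ^ 2
      ≤ ∫ z in K, (2 * ‖∫ w, (ck w - kd δ w) * f n (z - w)‖ ^ 2
        + 2 * ‖∫ w, kd δ w * f n (z - w)‖ ^ 2) := by
        refine integral_mono hic ((hy1.integrableOn.const_mul 2).add (hik.const_mul 2)) fun z => ?_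
        simp only []
        rw [hsplit z]
        have h1 := norm_add_le (∫ w, (ck w - kd δ w) * f n (z - w)) (∫ w, kd δ w * f n (z - w))
        nlinarith [norm_nonneg (∫ w, (ck w - kd δ w) * f n (z - w)),
          norm_nonneg (∫ w, kd δ w * f n (z - w)),
          norm_nonneg ((∫ w, (ck w - kd δ w) * f n (z - w)) + ∫ w, kd δ w * f n (z - w)),
          sq_nonneg (‖∫ w, (ck w - kd δ w) * f n (z - w)‖ - ‖∫ w, kd δ w * f n (z - w)‖)]
    _ = 2 * (∫ z in K, ‖∫ w, (ck w - kd δ w) * f n (z - w)‖ ^ 2)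
        + 2 * ∫ z in K, ‖∫ w, kd δ w * f n (z - w)‖ ^ 2 := by
        rw [integral_add (hy1.integrableOn.const_mul 2) (hik.const_mul 2), integral_const_mul,
          integral_const_mul]
    _ ≤ 2 * ((π * δ) ^ 2 * B) + 2 * ∫ z in K, ‖∫ w, kd δ w * f n (z - w)‖ ^ 2 := by
        gcongr
        calc ∫ z in K, ‖∫ w, (ck w - kd δ w) * f n (z - w)‖ ^ 2
            ≤ ∫ z, ‖∫ w, (ck w - kd δ w) * f n (z - w)‖ ^ 2 :=
              setIntegral_le_integral hy1 (Filter.Eventually.of_forall fun z => by positivity)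
          _ ≤ (∫ w, ‖ck w - kd δ w‖) ^ 2 * ∫ z, ‖f n z‖ ^ 2 := hy2
          _ ≤ (π * δ) ^ 2 * B := by
              gcongr
              exact integral_ck_sub_kd hδ
    _ < ε / 2 + ε / 2 := by linarith
    _ = ε := by ring

end

end QE
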