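import Pool.Agent.Lib_helper67.QE.Bdd
import Pool.Agent.Lib_helper67.QE.Compact

/-!
The interior elliptic estimate at the scale of Planck's constant, in `L⁴`.
-/

open Complex MeasureTheory Filter Topology Real
open scoped ContDiff

namespace QE

noncomputable section

namespace EllAux

/-- the bump -/
def bump : ContDiffBump (0 : ℂ) := ⟨1 / 2, 1, by norm_num, by norm_num⟩

/-- the cut-off function -/
def ze (w : ℂ) : ℂ := ((bump w : ℝ) : ℂ)

lemma ze_smooth : ContDiff ℝ ∞ ze := by
  have := Complex.ofRealCLM.contDiff (n := ∞) |>.comp (bump.contDiff (n := ⊤))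
  exact this

lemma ze_tsupport : tsupport ze ⊆ Metric.closedBall 0 1 := by
  have h : tsupport ze ⊆ tsupport (bump : ℂ → ℝ) := by
    apply closure_mono
    intro z hz h0
    apply hz
    show ((bump z : ℝ) : ℂ) = 0
    simp only [Complex.ofReal_eq_zero]
    exact h0
  rw [bump.tsupport_eq] at h
  exact h

lemma ze_compact : HasCompactSupport ze :=
  (isCompact_closedBall (0 : ℂ) 1).of_isClosed_subset (isClosed_tsupport _) ze_tsupport

lemma ze_zero : ze 0 = 1 := by
  unfold ze
  rw [bump.one_of_mem_closedBall (by simp [bump.rIn_pos.le])]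
  simp

lemma ze_test {W : Set ℂ} (hW : Metric.closedBall (0 : ℂ) 1 ⊆ W) : Test W ze :=
  ⟨ze_smooth, ze_compact, ze_tsupport.trans hW⟩

lemma dzb_ze_near : dzb ze =ᶠ[𝓝 0] fun _ => 0 := by
  have h1 : ∀ w ∈ Metric.ball (0 : ℂ) (1 / 2), ze w = (fun _ => (1 : ℂ)) w := by
    intro w hw
    unfold ze
    rw [bump.one_of_mem_closedBall (Metric.ball_subset_closedBall hw)]
    simp
  filter_upwards [Metric.ball_mem_nhds (0 : ℂ) (by norm_num : (0 : ℝ) < 1 / 2)] with w hw
  rw [dzb_congr_on Metric.isOpen_ball h1 hw, dzb_const]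

/-- the first kernel -/
def ka (u : ℂ) : ℂ := ck (-u) * dzb ze u

lemma ka_smooth : ContDiff ℝ ∞ ka := by
  rw [contDiff_iff_contDiffAt]
  intro u
  by_cases hu : u = 0
  · subst hu
    have : ka =ᶠ[𝓝 0] fun _ => 0 := by
      filter_upwards [dzb_ze_near] with w hw
      unfold ka
      rw [hw, mul_zero]
    exact contDiffAt_const.congr_of_eventuallyEq this
  · unfold ka ck
    refine ContDiffAt.mul (ContDiffAt.inv ?_ ?_) (contDiff_dzb ze_smooth).contDiffAt
    · exact contDiffAt_const.mul contDiffAt_id.neg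
    · exact mul_ne_zero (by exact_mod_cast pi_ne_zero) (neg_ne_zero.mpr hu)

lemma ka_tsupport : tsupport ka ⊆ Metric.closedBall 0 1 := by
  refine (closure_mono ?_).trans ((tsupport_dzb_subset ze).trans ze_tsupport)
  intro z hz h0
  apply hz
  unfold ka
  rw [h0, mul_zero]

lemma ka_test {W : Set ℂ} (hW : Metric.closedBall (0 : ℂ) 1 ⊆ W) : Test W ka :=
  ⟨ka_smooth, (isCompact_closedBall (0 : ℂ) 1).of_isClosed_subset (isClosed_tsupport _)
    ka_tsupport, ka_tsupport.trans hW⟩

/-- the kernel -/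
def kap (u : ℂ) : ℝ := ‖dz ka u‖ + ‖ck (-u) * ze u‖

lemma kap_nonneg (u : ℂ) : 0 ≤ kap u := add_nonneg (norm_nonneg _) (norm_nonneg _)

lemma kap_eq_zero {u : ℂ} (hu : 1 < ‖u‖) : kap u = 0 := by
  have hu' : u ∉ Metric.closedBall (0 : ℂ) 1 := by
    rw [mem_closedBall_zero_iff]; linarith
  have h1 : dz ka u = 0 :=
    image_eq_zero_of_notMem_tsupport fun h => hu' (ka_tsupport (tsupport_dz_subset ka h))
  have h2 : ze u = 0 := image_eq_zero_of_notMem_tsupport fun h => hu' (ze_tsupport h)
  unfold kap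
  rw [h1, h2]; simp

lemma integrable_ckze : Integrable (fun u : ℂ => ck (-u) * ze u) := by
  have h1 : Integrable (fun w => ck w * ze (0 - w)) := convExists ze_smooth.continuous ze_compact 0
  have h2 := h1.comp_neg
  refine h2.congr (Filter.Eventually.of_forall fun u => ?_)
  simp

lemma integrable_dzka : Integrable (dz ka) := by
  have h := (ka_test (W := Set.univ) (Set.subset_univ _)).dz
  exact h.smooth.continuous.integrable_of_hasCompactSupport h.supp

lemma kap_integrable : Integrable kap := integrable_dzka.norm.add integrable_ckze.norm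

/-- the estimate at scale one -/
lemma unit_bound {W : Set ℂ} (hWo : IsOpen W) (hW : Metric.closedBall (0 : ℂ) 1 ⊆ W) {V : ℂ → ℂ}
    (hV : ContDiffOn ℝ ∞ V W) :
    ‖dz V 0‖ ≤ ∫ u, kap u * (‖V u‖ + ‖dz (dzb V) u‖) := by
  have hdV := contDiffOn_dz hWo hV
  have hddV := contDiffOn_dzb hWo hdV
  have hf : Test W (fun w => ze w * dz V w) := (ze_test hW).mul hWo hdV
  have h0 := cauchy_dzb hf.smooth hf.supp 0
  rw [ze_zero, one_mul] at h0
  have hcomm : ∀ u ∈ W, dzb (dz V) u = dz (dzb V) u := fun u hu =>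
    (dz_dzb_comm ((hV.contDiffAt (hWo.mem_nhds hu)).of_le
      (WithTop.coe_le_coe.mpr (le_top : (2 : ℕ∞) ≤ ⊤)))).symm
  -- the derivative of the product
  have hprod : ∀ u, dzb (fun w => ze w * dz V w) u
      = dzb ze u * dz V u + ze u * dzb (dz V) u := by
    intro u
    by_cases hu : u ∈ W
    · exact dzb_mul (ze_smooth.differentiable (by simp) u)
        ((hdV.contDiffAt (hWo.mem_nhds hu)).differentiableAt (by simp))
    · have hu' : u ∉ tsupport ze := fun h => hu (hW (ze_tsupport h))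
      have e1 : dzb (fun w => ze w * dz V w) u = 0 := by
        refine image_eq_zero_of_notMem_tsupport fun h => ?_
        exact hu (hf.sub (tsupport_dzb_subset _ h))
      have e2 : dzb ze u = 0 := image_eq_zero_of_notMem_tsupport fun h =>
        hu' (tsupport_dzb_subset _ h)
      have e3 : ze u = 0 := image_eq_zero_of_notMem_tsupport hu'
      rw [e1, e2, e3]; ring
  have hI1 : Integrable (fun u => ka u * dz V u) := (ka_test hW).integrable_mul hWo hdV.continuousOn
  have hcz : Integrable (fun u => ze u * dzb (dz V) u) :=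
    (ze_test hW).integrable_mul hWo hddV.continuousOn
  have hf2 : Test W (fun w => ze w * dzb (dz V) w) := (ze_test hW).mul hWo hddV
  have hI2 : Integrable (fun u => (ck (-u) * ze u) * dzb (dz V) u) := by
    have h1 := convExists hf2.smooth.continuous hf2.supp 0
    have h2 := h1.comp_neg
    refine h2.congr (Filter.Eventually.of_forall fun u => ?_)
    simp only [sub_neg_eq_add, zero_add]
    ring
  have h1 : dz V 0 = (∫ u, ka u * dz V u) + ∫ u, (ck (-u) * ze u) * dzb (dz V) u := by
    rw [← h0, ← integral_add hI1 hI2]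
    unfold cauchy
    rw [← integral_neg_eq_self]
    refine integral_congr_ae (Filter.Eventually.of_forall fun u => ?_)
    simp only [zero_sub, neg_neg]
    rw [hprod]
    unfold ka
    ring
  have h2 : ∫ u, ka u * dz V u = - ∫ u, dz ka u * V u := integral_mul_dz hWo (ka_test hW) hV
  have hI3 : Integrable (fun u => dz ka u * V u) :=
    (ka_test hW).dz.integrable_mul hWo hV.continuousOn
  have hzero : ∀ u, u ∉ W → kap u = 0 := by
    intro u hu
    apply kap_eq_zero
    by_contra h
    push Not at h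
    exact hu (hW (by rwa [mem_closedBall_zero_iff]))
  -- integrability of the right side
  have hI4 : Integrable (fun u => kap u * (‖V u‖ + ‖dz (dzb V) u‖)) := by
    have hKc : IsCompact (Metric.closedBall (0 : ℂ) 1) := isCompact_closedBall _ _
    have hcont : ContinuousOn (fun u => ‖V u‖ + ‖dz (dzb V) u‖) W :=
      hV.continuousOn.norm.add ((contDiffOn_dz hWo (contDiffOn_dzb hWo hV)).continuousOn.norm)
    obtain ⟨B, hB⟩ := hKc.exists_bound_of_continuousOn (hcont.mono hW)
    have h3 : Integrable (fun u => kap u *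
        (Metric.closedBall (0 : ℂ) 1).indicator (fun u => ‖V u‖ + ‖dz (dzb V) u‖) u) := by
      refine kap_integrable.mul_bdd (c := max B 0) ?_ (Filter.Eventually.of_forall fun u => ?_)
      · rw [aestronglyMeasurable_indicator_iff hKc.measurableSet]
        exact (hcont.mono hW).aestronglyMeasurable hKc.measurableSet
      · by_cases hu : u ∈ Metric.closedBall (0 : ℂ) 1
        · rw [Set.indicator_of_mem hu]
          exact (hB u hu).trans (le_max_left _ _)
        · rw [Set.indicator_of_notMem hu]; simp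
    refine h3.congr (Filter.Eventually.of_forall fun u => ?_)
    simp only []
    by_cases hu : u ∈ Metric.closedBall (0 : ℂ) 1
    · rw [Set.indicator_of_mem hu]
    · rw [kap_eq_zero (by rw [mem_closedBall_zero_iff] at hu; linarith)]; simp
  calc ‖dz V 0‖ = ‖∫ u, (-(dz ka u * V u) + (ck (-u) * ze u) * dzb (dz V) u)‖ := by
        have h5 : ∫ u, (-(dz ka u * V u) + (ck (-u) * ze u) * dzb (dz V) u)
            = (∫ u, -(dz ka u * V u)) + ∫ u, (ck (-u) * ze u) * dzb (dz V) u :=
          integral_add hI3.neg hI2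
        rw [h5, h1, h2, integral_neg]
    _ ≤ ∫ u, ‖-(dz ka u * V u) + (ck (-u) * ze u) * dzb (dz V) u‖ := norm_integral_le_integral_norm _
    _ ≤ ∫ u, kap u * (‖V u‖ + ‖dz (dzb V) u‖) := by
        refine integral_mono_of_nonneg (Filter.Eventually.of_forall fun u => norm_nonneg _) hI4
          (Filter.Eventually.of_forall fun u => ?_)
        simp only []
        by_cases hu : u ∈ W
        · refine (norm_add_le _ _).trans ?_
          rw [norm_neg, norm_mul, norm_mul (ck (-u) * ze u), hcomm u hu]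
          unfold kap
          nlinarith [norm_nonneg (dz ka u), norm_nonneg (ck (-u) * ze u), norm_nonneg (V u),
            norm_nonneg (dz (dzb V) u),
            mul_nonneg (norm_nonneg (dz ka u)) (norm_nonneg (dz (dzb V) u)),
            mul_nonneg (norm_nonneg (ck (-u) * ze u)) (norm_nonneg (V u))]
        · have hk := hzero u hu
          have ha : ‖dz ka u‖ = 0 := by
            have := norm_nonneg (dz ka u)
            have := norm_nonneg (ck (-u) * ze u)
            unfold kap at hk; linarith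
          have hb : ‖ck (-u) * ze u‖ = 0 := by
            have := norm_nonneg (dz ka u)
            have := norm_nonneg (ck (-u) * ze u)
            unfold kap at hk; linarith
          rw [norm_eq_zero] at ha hb
          rw [hk, ha, hb]; simp

/-- derivatives of a rescaled function -/
lemma dz_scale {U : Set ℂ} (hU : IsOpen U) {v : ℂ → ℂ} (hv : ContDiffOn ℝ ∞ v U) (z : ℂ) (h : ℝ)
    {w : ℂ} (hw : z + (h : ℂ) * w ∈ U) :
    dz (fun w => v (z + (h : ℂ) * w)) w = (h : ℂ) * dz v (z + (h : ℂ) * w) ∧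
    dzb (fun w => v (z + (h : ℂ) * w)) w = (h : ℂ) * dzb v (z + (h : ℂ) * w) := by
  have hd : DifferentiableAt ℝ v (z + (h : ℂ) * w) :=
    (hv.contDiffAt (hU.mem_nhds hw)).differentiableAt (by simp)
  have h1 : HasFDerivAt (fun w : ℂ => z + (h : ℂ) * w)
      ((h : ℂ) • (ContinuousLinearMap.id ℝ ℂ)) w := by
    have := ((hasFDerivAt_id (𝕜 := ℝ) w).const_mul (h : ℂ)).const_add z
    exact this
  have h2 := hd.hasFDerivAt.comp w h1
  have h3 : ∀ x : ℂ, fderiv ℝ (fun w => v (z + (h : ℂ) * w)) w x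
      = (h : ℂ) * fderiv ℝ v (z + (h : ℂ) * w) x := by
    intro x
    have h4 : fderiv ℝ (fun w => v (z + (h : ℂ) * w)) w
        = (fderiv ℝ v (z + (h : ℂ) * w)).comp ((h : ℂ) • (ContinuousLinearMap.id ℝ ℂ)) :=
      h2.fderiv
    rw [h4]
    simp only [ContinuousLinearMap.comp_apply, smul_apply, ContinuousLinearMap.id_apply,
      smul_eq_mul]
    have h5 : (h : ℂ) * x = h • x := Complex.real_smul.symm
    rw [h5, map_smul, Complex.real_smul]
  unfold dz dzb
  rw [h3, h3]
  constructor <;> ring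

/-- the estimate at scale `h` -/
lemma scale_bound {U : Set ℂ} (hU : IsOpen U) {v : ℂ → ℂ} (hv : ContDiffOn ℝ ∞ v U) {z : ℂ}
    {h : ℝ} (hh : 0 < h) (hz : Metric.closedBall z h ⊆ U) :
    ‖(h : ℂ) * dz v z‖ ≤ ∫ u, kap u * (‖v (z + (h : ℂ) * u)‖
      + ‖(h : ℂ) ^ 2 * dz (dzb v) (z + (h : ℂ) * u)‖) := by
  set W : Set ℂ := {w | z + (h : ℂ) * w ∈ U} with hWd
  have hWo : IsOpen W := hU.preimage (by fun_prop)
  have hW : Metric.closedBall (0 : ℂ) 1 ⊆ W := by
    intro w hw
    apply hz
    rw [mem_closedBall_zero_iff] at hw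
    rw [Metric.mem_closedBall, dist_eq_norm]
    rw [add_sub_cancel_left, norm_mul, Complex.norm_real, Real.norm_of_nonneg hh.le]
    nlinarith
  have hV : ContDiffOn ℝ ∞ (fun w => v (z + (h : ℂ) * w)) W := by
    refine hv.comp (ContDiff.contDiffOn ?_) fun w hw => hw
    exact contDiff_const.add (contDiff_const.mul contDiff_id)
  have h1 := unit_bound hWo hW hV
  have hz0 : z + (h : ℂ) * 0 ∈ U := by
    apply hW; simp
  rw [(dz_scale hU hv z h hz0).1, mul_zero, add_zero] at h1
  refine h1.trans (le_of_eq ?_)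
  refine integral_congr_ae (Filter.Eventually.of_forall fun u => ?_)
  simp only []
  by_cases hu : u ∈ W
  · have e1 : dz (dzb fun w => v (z + (h : ℂ) * w)) u
        = (h : ℂ) ^ 2 * dz (dzb v) (z + (h : ℂ) * u) := by
      have e2 : dz (dzb fun w => v (z + (h : ℂ) * w)) u
          = dz (fun w => (h : ℂ) * dzb v (z + (h : ℂ) * w)) u :=
        dz_congr_on hWo (fun w hw => (dz_scale hU hv z h hw).2) hu
      have hv' := contDiffOn_dzb hU hv
      have e3 : DifferentiableAt ℝ (fun w => dzb v (z + (h : ℂ) * w)) u := by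
        have : ContDiffOn ℝ ∞ (fun w => dzb v (z + (h : ℂ) * w)) W := by
          refine hv'.comp (ContDiff.contDiffOn ?_) fun w hw => hw
          exact contDiff_const.add (contDiff_const.mul contDiff_id)
        exact (this.contDiffAt (hWo.mem_nhds hu)).differentiableAt (by simp)
      rw [e2, dz_const_mul _ e3, (dz_scale hU hv' z h hu).1]
      ring
    rw [e1]
  · have hk : kap u = 0 := by
      apply kap_eq_zero
      by_contra hc
      push Not at hc
      exact hu (hW (by rwa [mem_closedBall_zero_iff]))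
    rw [hk, zero_mul, zero_mul]

/-- Young's inequality for the fourth power -/
lemma young4 {k G : ℂ → ℝ} (hk0 : ∀ w, 0 ≤ k w) (hk : Integrable k) (hG0 : ∀ w, 0 ≤ G w)
    (hGm : AEStronglyMeasurable G volume) {B : ℝ} (hGB : ∀ w, G w ≤ B)
    (hG4 : Integrable (fun z => G z ^ 4)) :
    Integrable (fun z => ∫ w, k w * G (z - w) ^ 4) ∧
    (∀ z, (∫ w, k w * G (z - w)) ^ 4 ≤ (∫ w, k w) ^ 3 * ∫ w, k w * G (z - w) ^ 4) ∧
    ∫ z, ∫ w, k w * G (z - w) ^ 4 = (∫ w, k w) * ∫ z, G z ^ 4 := by
  have hi : ∀ (j : ℕ) (z : ℂ), Integrable (fun w => k w * G (z - w) ^ j) := by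
    intro j z
    refine hk.mul_bdd (c := B ^ j) ?_ (Filter.Eventually.of_forall fun w => ?_)
    · have h1 : AEStronglyMeasurable (fun w => G (z - w)) volume :=
        hGm.comp_quasiMeasurePreserving (quasiMeasurePreserving_sub_left volume z)
      exact h1.pow j
    · rw [Real.norm_of_nonneg (pow_nonneg (hG0 _) _)]
      exact pow_le_pow_left₀ (hG0 _) (hGB _) _
  have hconv : Integrable (convolution k (fun w => G w ^ 4)
      (ContinuousLinearMap.mul ℝ ℝ) volume) := hk.integrable_convolution _ hG4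
  have hconvi : ∫ z, convolution k (fun w => G w ^ 4)
      (ContinuousLinearMap.mul ℝ ℝ) volume z = (∫ w, k w) * ∫ z, G z ^ 4 := by
    rw [integral_convolution _ hk hG4]; rfl
  refine ⟨hconv, ?_, hconvi⟩
  intro z
  have h1 := hi 1 z
  simp only [pow_one] at h1
  have h2 := hi 2 z
  have h4 := hi 4 z
  have a1 := sq_integral_mul_le hk0 hk h1 h2
  have h4' : Integrable (fun w => k w * (G (z - w) ^ 2) ^ 2) := by
    refine h4.congr (Filter.Eventually.of_forall fun w => ?_)
    simp only []; ring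
  have a2 := sq_integral_mul_le (g := fun w => G (z - w) ^ 2) hk0 hk h2 h4'
  have e4 : ∫ w, k w * (G (z - w) ^ 2) ^ 2 = ∫ w, k w * G (z - w) ^ 4 := by
    refine integral_congr_ae (Filter.Eventually.of_forall fun w => ?_)
    simp only []; ring
  rw [e4] at a2
  have hK : 0 ≤ ∫ w, k w := integral_nonneg hk0
  have hI2 : 0 ≤ ∫ w, k w * G (z - w) ^ 2 :=
    integral_nonneg fun w => mul_nonneg (hk0 w) (sq_nonneg _)
  calc (∫ w, k w * G (z - w)) ^ 4 = ((∫ w, k w * G (z - w)) ^ 2) ^ 2 := by ring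
    _ ≤ ((∫ w, k w) * ∫ w, k w * G (z - w) ^ 2) ^ 2 := by gcongr
    _ = (∫ w, k w) ^ 2 * (∫ w, k w * G (z - w) ^ 2) ^ 2 := by ring
    _ ≤ (∫ w, k w) ^ 2 * ((∫ w, k w) * ∫ w, k w * G (z - w) ^ 4) := by gcongr
    _ = _ := by ring

/-- the rescaled kernel -/
def kh (h : ℝ) (w : ℂ) : ℝ := |((-h) ^ Module.finrank ℝ ℂ)⁻¹| * kap ((-h)⁻¹ • w)

lemma kh_nonneg (h : ℝ) (w : ℂ) : 0 ≤ kh h w := mul_nonneg (abs_nonneg _) (kap_nonneg _)

lemma kh_int {h : ℝ} (hh : 0 < h) (G : ℂ → ℝ) (z : ℂ) :
    ∫ u, kap u * G (z + (h : ℂ) * u) = ∫ w, kh h w * G (z - w) := by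
  have hne : -h ≠ 0 := by linarith
  have h1 := Measure.integral_comp_smul (volume : Measure ℂ)
    (fun w => kap ((-h)⁻¹ • w) * G (z - w)) (-h)
  simp only [smul_eq_mul] at h1
  rw [← integral_const_mul] at h1
  have e1 : ∫ u, kap u * G (z + (h : ℂ) * u)
      = ∫ u : ℂ, kap ((-h)⁻¹ • ((-h) • u)) * G (z - (-h) • u) := by
    refine integral_congr_ae (Filter.Eventually.of_forall fun u => ?_)
    simp only []
    rw [inv_smul_smul₀ hne]
    congr 2
    rw [neg_smul, sub_neg_eq_add, Complex.real_smul]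
  rw [e1, h1]
  refine integral_congr_ae (Filter.Eventually.of_forall fun w => ?_)
  simp only [kh]
  ring

lemma kh_integrable {h : ℝ} (hh : 0 < h) : Integrable (kh h) := by
  have hne : (-h)⁻¹ ≠ 0 := inv_ne_zero (by linarith)
  exact (kap_integrable.comp_smul hne).const_mul _

lemma kh_total {h : ℝ} (hh : 0 < h) : ∫ w, kh h w = ∫ u, kap u := by
  have := kh_int hh (fun _ => 1) 0
  simpa using this.symm

end EllAux

open EllAux

theorem planck_elliptic {U : Set ℂ} (hU : IsOpen U) {h : ℕ → ℝ} (hh : ∀ n, 0 < h n)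
    (hh0 : Tendsto h atTop (𝓝 0)) {v : ℕ → ℂ → ℂ} (hv : SmoothSeq U v) (h1 : LBdd 4 U v)
    (h2 : LBdd 4 U (fun n z => ((h n : ℂ)) ^ 2 * dz (dzb (v n)) z)) :
    LBdd 4 U (fun n z => (h n : ℂ) * dz (v n) z) := by
  intro K hK hKU
  obtain ⟨δ, hδ, hδU⟩ := hK.exists_cthickening_subset_open hU hKU
  have hK'c : IsCompact (Metric.cthickening δ K) := hK.cthickening
  obtain ⟨C1, hC1⟩ := h1 _ hK'c hδU
  obtain ⟨C2, hC2⟩ := h2 _ hK'c hδU
  set K' := Metric.cthickening δ K with hK'
  have hw : SmoothSeq U (fun n z => ((h n : ℂ)) ^ 2 * dz (dzb (v n)) z) :=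
    ((hv.dzb hU).dz hU).const_mul (fun n => (h n : ℂ) ^ 2)
  refine ⟨(∫ u, kap u) ^ 3 * ((∫ u, kap u) * (8 * (C1 + C2))), ?_⟩
  have hsmall : ∀ᶠ n in atTop, h n ≤ δ := (hh0.eventually_lt_const hδ).mono fun n hn => hn.le
  filter_upwards [hC1, hC2, hsmall] with n hn1 hn2 hn3
  have hκ : 0 ≤ ∫ u, kap u := integral_nonneg kap_nonneg
  set g : ℂ → ℝ := fun z => ‖v n z‖ + ‖((h n : ℂ)) ^ 2 * dz (dzb (v n)) z‖ with hg
  have hgc : ContinuousOn g K' :=
    ((hv n).continuousOn.mono hδU).norm.add ((hw n).continuousOn.mono hδU).norm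
  have hg0 : ∀ z, 0 ≤ g z := fun z => add_nonneg (norm_nonneg _) (norm_nonneg _)
  obtain ⟨B, hB⟩ := hK'c.exists_bound_of_continuousOn hgc
  set G : ℂ → ℝ := K'.indicator g with hG
  have hG0 : ∀ z, 0 ≤ G z := fun z => Set.indicator_nonneg (fun z _ => hg0 z) z
  have hGB : ∀ z, G z ≤ max B 0 := by
    intro z
    by_cases hz : z ∈ K'
    · rw [hG, Set.indicator_of_mem hz]
      exact (le_abs_self _).trans ((hB z hz).trans (le_max_left _ _))
    · rw [hG, Set.indicator_of_notMem hz]; exact le_max_right _ _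
  have hGm : AEStronglyMeasurable G volume := by
    rw [hG, aestronglyMeasurable_indicator_iff hK'c.measurableSet]
    exact hgc.aestronglyMeasurable hK'c.measurableSet
  have hG4e : (fun z => G z ^ 4) = K'.indicator fun z => g z ^ 4 := by
    funext z
    by_cases hz : z ∈ K'
    · rw [hG, Set.indicator_of_mem hz, Set.indicator_of_mem hz]
    · rw [hG, Set.indicator_of_notMem hz, Set.indicator_of_notMem hz]; simp
  have hG4 : Integrable (fun z => G z ^ 4) := by
    rw [hG4e, integrable_indicator_iff hK'c.measurableSet]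
    exact (hgc.pow 4).integrableOn_compact hK'c
  have hG4i : ∫ z, G z ^ 4 ≤ 8 * (C1 + C2) := by
    rw [hG4e, integral_indicator hK'c.measurableSet]
    have i1 := hv.intOn hK'c hδU 4 n
    have i2 := hw.intOn hK'c hδU 4 n
    calc ∫ z in K', g z ^ 4
        ≤ ∫ z in K', 8 * (‖v n z‖ ^ 4 + ‖((h n : ℂ)) ^ 2 * dz (dzb (v n)) z‖ ^ 4) := by
          refine setIntegral_mono_on ((hgc.pow 4).integrableOn_compact hK'c)
            ((i1.add i2).const_mul 8) hK'c.measurableSet fun z _ => ?_
          simp only [hg]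
          have p1 := norm_nonneg (v n z)
          have p2 := norm_nonneg (((h n : ℂ)) ^ 2 * dz (dzb (v n)) z)
          set a := ‖v n z‖
          set b := ‖((h n : ℂ)) ^ 2 * dz (dzb (v n)) z‖
          nlinarith [sq_nonneg (a ^ 2 - b ^ 2), sq_nonneg (a - b), sq_nonneg (a + b),
            mul_nonneg (sq_nonneg (a - b)) (add_nonneg (sq_nonneg (a + b))
              (add_nonneg (sq_nonneg a) (sq_nonneg b)))]
      _ = 8 * ((∫ z in K', ‖v n z‖ ^ 4)
            + ∫ z in K', ‖((h n : ℂ)) ^ 2 * dz (dzb (v n)) z‖ ^ 4) := by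
          rw [integral_const_mul, integral_add i1 i2]
      _ ≤ 8 * (C1 + C2) := by gcongr
  obtain ⟨y1, y2, y3⟩ := young4 (kh_nonneg (h n)) (kh_integrable (hh n)) hG0 hGm hGB hG4
  rw [kh_total (hh n)] at y2 y3
  -- the pointwise bound
  have hpt : ∀ z ∈ K, ‖(h n : ℂ) * dz (v n) z‖ ^ 4
      ≤ (∫ u, kap u) ^ 3 * ∫ w, kh (h n) w * G (z - w) ^ 4 := by
    intro z hz
    have hball : Metric.closedBall z (h n) ⊆ K' :=
      (Metric.closedBall_subset_closedBall hn3).trans
        (Metric.closedBall_subset_cthickening hz δ)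
    have b1 := scale_bound hU (hv n) (hh n) (hball.trans hδU)
    have b2 : ∫ u, kap u * (‖v n (z + (h n : ℂ) * u)‖
        + ‖(h n : ℂ) ^ 2 * dz (dzb (v n)) (z + (h n : ℂ) * u)‖)
        = ∫ u, kap u * G (z + (h n : ℂ) * u) := by
      refine integral_congr_ae (Filter.Eventually.of_forall fun u => ?_)
      simp only []
      by_cases hu : 1 < ‖u‖
      · rw [kap_eq_zero hu, zero_mul, zero_mul]
      · push Not at hu
        have hmem : z + (h n : ℂ) * u ∈ K' := by
          apply hball
          rw [Metric.mem_closedBall, dist_eq_norm, add_sub_cancel_left, norm_mul,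
            Complex.norm_real, Real.norm_of_nonneg (hh n).le]
          have := hh n
          nlinarith
        rw [hG, Set.indicator_of_mem hmem]
    rw [b2, kh_int (hh n)] at b1
    refine le_trans ?_ (y2 z)
    exact pow_le_pow_left₀ (norm_nonneg _) b1 4
  have hsm : SmoothSeq U (fun n z => (h n : ℂ) * dz (v n) z) :=
    (hv.dz hU).const_mul (fun n => (h n : ℂ))
  calc ∫ z in K, ‖(h n : ℂ) * dz (v n) z‖ ^ 4
      ≤ ∫ z in K, (∫ u, kap u) ^ 3 * ∫ w, kh (h n) w * G (z - w) ^ 4 :=
        setIntegral_mono_on (hsm.intOn hK hKU 4 n) (y1.integrableOn.const_mul _)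
          hK.measurableSet hpt
    _ = (∫ u, kap u) ^ 3 * ∫ z in K, ∫ w, kh (h n) w * G (z - w) ^ 4 := integral_const_mul _ _
    _ ≤ (∫ u, kap u) ^ 3 * ∫ z, ∫ w, kh (h n) w * G (z - w) ^ 4 := by
        refine mul_le_mul_of_nonneg_left ?_ (pow_nonneg hκ 3)
        refine setIntegral_le_integral y1 (Filter.Eventually.of_forall fun z => ?_)
        exact integral_nonneg fun w => mul_nonneg (kh_nonneg _ _) (pow_nonneg (hG0 _) _)
    _ = (∫ u, kap u) ^ 3 * ((∫ u, kap u) * ∫ z, G z ^ 4) := by rw [y3]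
    _ ≤ _ := by gcongr

end

end QE
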