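import Pool.Agent.Lib_helper67.QE.Moments
import Pool.Agent.Lib_helper67.QE.Elliptic
import Pool.Agent.Lib_helper67.QE.DivCurl
import Pool.Agent.Lib_helper67.QE.Alg
import Pool.Agent.Lib_helper67.QE.Defs

/-!
The local theorem for sequences which are bounded in `L⁴`.
-/

open Complex MeasureTheory Filter Topology
open scoped ContDiff

namespace QE

noncomputable section

variable {U : Set ℂ} {h : ℕ → ℝ}

theorem ellProp (hU : IsOpen U) (hh : ∀ n, 0 < h n) (hh0 : Tendsto h atTop (𝓝 0)) : EllProp U h :=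
  fun _ hv h1 h2 => planck_elliptic hU hh hh0 hv h1 h2

/-- the weight `a = g^{-1/2}` -/
def wt (g : ℂ → ℝ) (z : ℂ) : ℂ := (((Real.sqrt (g z))⁻¹ : ℝ) : ℂ)

theorem setup_of_local {g : ℂ → ℝ} {φ : ℕ → ℂ → ℂ} (hU : IsOpen U) (hg : ContDiffOn ℝ ∞ g U)
    (hgpos : ∀ z ∈ U, 0 < g z) (H : LocalQE U g h φ) (hb : LBdd 4 U φ) :
    Setup U (fun z => (g z : ℂ)) (wt g) h φ := by
  have hgC : ContDiffOn ℝ ∞ (fun z => (g z : ℂ)) U := ofRealCLM.contDiff.comp_contDiffOn hg
  refine ⟨hU, H.hpos, H.hlim, ?_, hgC, fun z _ => conj_ofReal _, ?_, ?_, H.real, H.eig⟩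
  · have h1 : ContDiffOn ℝ ∞ (fun z => (Real.sqrt (g z))⁻¹) U :=
      (hg.sqrt fun z hz => (hgpos z hz).ne').inv fun z hz => (Real.sqrt_pos.2 (hgpos z hz)).ne'
    exact ofRealCLM.contDiff.comp_contDiffOn h1
  · intro z hz
    have h0 := hgpos z hz
    have h1 : (Real.sqrt (g z)) ^ 2 = g z := Real.sq_sqrt h0.le
    have h2 : (Real.sqrt (g z))⁻¹ ^ 2 * g z = 1 := by
      rw [inv_pow, h1, inv_mul_cancel₀ h0.ne']
    unfold wt
    exact_mod_cast h2
  · refine tame_of_eigen hU H.hlim (ellProp hU H.hpos H.hlim) H.smooth hb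
      (b := fun z => -(1 / 4) * (g z : ℂ)) (contDiffOn_const.mul hgC) fun n z hz => ?_
    have := H.eig n z hz
    unfold hLap
    linear_combination (1 / 4) * this

/-- positivity of the sum over the pairs with the same weight -/
theorem sum_pairs_nonneg {ι : Type*} [DecidableEq ι] (S : Finset ι) (F : ι → ℂ) (w : ι → ℕ) :
    0 ≤ (∑ p ∈ (S ×ˢ S).filter (fun p => w p.1 = w p.2), F p.1 * (starRingEnd ℂ) (F p.2)).re := by
  have e : ∑ p ∈ (S ×ˢ S).filter (fun p => w p.1 = w p.2), F p.1 * (starRingEnd ℂ) (F p.2)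
      = ∑ s ∈ S.image w, (((normSq (∑ p ∈ S, if w p = s then F p else 0)) : ℝ) : ℂ) := by
    rw [Finset.sum_filter, Finset.sum_product]
    have e1 : ∀ s, (((normSq (∑ p ∈ S, if w p = s then F p else 0)) : ℝ) : ℂ)
        = ∑ p ∈ S, ∑ q ∈ S, if w p = s ∧ w q = s then F p * (starRingEnd ℂ) (F q) else 0 := by
      intro s
      rw [← mul_conj, map_sum, Finset.sum_mul_sum]
      refine Finset.sum_congr rfl fun p _ => Finset.sum_congr rfl fun q _ => ?_
      by_cases h1 : w p = s <;> by_cases h2 : w q = s <;> simp [h1, h2]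
    simp only [e1]
    have e2 : ∑ s ∈ S.image w, ∑ p ∈ S, ∑ q ∈ S,
          (if w p = s ∧ w q = s then F p * (starRingEnd ℂ) (F q) else 0)
        = ∑ p ∈ S, ∑ q ∈ S, ∑ s ∈ S.image w,
          (if w p = s ∧ w q = s then F p * (starRingEnd ℂ) (F q) else 0) := by
      rw [Finset.sum_comm]
      exact Finset.sum_congr rfl fun p _ => Finset.sum_comm
    rw [e2]
    refine Finset.sum_congr rfl fun p hp => ?_
    refine Finset.sum_congr rfl fun q hq => ?_
    by_cases hpq : w p = w q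
    · rw [if_pos hpq]
      rw [Finset.sum_eq_single (w p)]
      · rw [if_pos ⟨rfl, hpq.symm⟩]
      · intro s _ hs
        rw [if_neg]
        rintro ⟨h1, _⟩
        exact hs h1.symm
      · intro h1
        exact absurd (Finset.mem_image_of_mem w hp) h1
    · rw [if_neg hpq]
      symm
      refine Finset.sum_eq_zero fun s _ => ?_
      rw [if_neg]
      rintro ⟨h1, h2⟩
      exact hpq (h1.trans h2.symm)
  rw [e, ← ofReal_sum, ofReal_re]
  exact Finset.sum_nonneg fun s _ => normSq_nonneg _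

theorem local_bdd {g : ℂ → ℝ} {φ : ℕ → ℂ → ℂ} (hU : IsOpen U) (hg : ContDiffOn ℝ ∞ g U)
    (hgpos : ∀ z ∈ U, 0 < g z) (H : LocalQE U g h φ) (hb : LBdd 4 U φ) {ζ : ℂ → ℝ}
    (hζs : ContDiff ℝ ∞ ζ) (hζc : HasCompactSupport ζ) (hζU : tsupport ζ ⊆ U)
    (hζ0 : ∀ z, 0 ≤ ζ z) {ε : ℝ} (hε : 0 < ε) :
    ∀ᶠ n in atTop, 3 * (∫ z, ζ z) - ε ≤ ∫ z, ζ z * (φ n z).re ^ 4 := by
  have S := setup_of_local hU hg hgpos H hb
  set a := wt g with hadef
  have hts : tsupport (fun z => (ζ z : ℂ)) ⊆ tsupport ζ := by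
    refine closure_mono fun z hz => ?_
    simp only [Function.mem_support] at hz ⊢
    intro h0; exact hz (by simp [h0])
  have hT : Test U (fun z => (ζ z : ℂ)) :=
    ⟨ofRealCLM.contDiff.comp hζs, hζc.of_isClosed_subset (isClosed_tsupport _) hts,
      hts.trans hζU⟩
  have hZ : ∫ z, ((ζ z : ℝ) : ℂ) = ((∫ z, ζ z : ℝ) : ℂ) := integral_ofReal
  have htwo : ∀ (j m : ℤ) (η : ℂ → ℂ), Test U η →
      Tendsto (fun n => ∫ z, η z * (E h a φ j n z * E h a φ m n z)) atTop
      (𝓝 (P j m * ∫ z, η z)) := fun j m η hη =>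
    S.int_two H.mass (fun k hk η hη => S.mom_jet (H.mom k hk) hη) j m hη
  have hsm : ∀ j m, SmoothSeq U (fun n z => E h a φ j n z * E h a φ m n z) := fun j m =>
    (S.tame_E j).smooth.mul (S.tame_E m).smooth
  have hbd : ∀ j m, LBdd 2 U (fun n z => E h a φ j n z * E h a φ m n z) := fun j m =>
    (S.tame_E j).bdd4.mul4 (S.tame_E j).smooth (S.tame_E m).bdd4 (S.tame_E m).smooth
  set X : ℕ → ℤ → ℤ → ℤ → ℤ → ℂ := fun n j m k l =>
    ∫ z, (ζ z : ℂ) * (E h a φ j n z * E h a φ m n z * (E h a φ k n z * E h a φ l n z)) with hX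
  have hint : ∀ n j m k l, Integrable (fun z => (ζ z : ℂ)
      * (E h a φ j n z * E h a φ m n z * (E h a φ k n z * E h a φ l n z))) := fun n j m k l =>
    hT.int hU (((hsm j m).mul (hsm k l)) n)
  have key := alg_final X (∫ z, ζ z) (integral_nonneg hζ0) ?_ ?_ ?_ ?_ ?_ ε hε
  · filter_upwards [key] with n hn
    refine hn.trans (le_of_eq ?_)
    have e1 : X n 0 0 0 0 = ((∫ z, ζ z * (φ n z).re ^ 4 : ℝ) : ℂ) := by
      have e0 : ((∫ z, ζ z * (φ n z).re ^ 4 : ℝ) : ℂ)
          = ∫ z, ((ζ z * (φ n z).re ^ 4 : ℝ) : ℂ) := integral_ofReal.symm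
      rw [e0]
      have := hT.integral_congr (f := fun z => E h a φ 0 n z * E h a φ 0 n z
        * (E h a φ 0 n z * E h a φ 0 n z)) (f' := fun z => (((φ n z).re : ℝ) : ℂ) ^ 4)
        (fun z hz => by
          have h1 : (((φ n z).re : ℝ) : ℂ) = φ n z := conj_eq_iff_re.1 (H.real n z hz)
          rw [h1]
          show φ n z * φ n z * (φ n z * φ n z) = φ n z ^ 4
          ring)
      rw [hX]
      refine Eq.trans this ?_
      refine MeasureTheory.integral_congr_ae (Filter.Eventually.of_forall fun z => ?_)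
      push_cast
      ring
    rw [e1, ofReal_re]
  · intro n j m k l
    refine MeasureTheory.integral_congr_ae (Filter.Eventually.of_forall fun z => ?_)
    beta_reduce; ring
  · intro n j m k l
    refine MeasureTheory.integral_congr_ae (Filter.Eventually.of_forall fun z => ?_)
    beta_reduce; ring
  · intro n j m k l
    refine MeasureTheory.integral_congr_ae (Filter.Eventually.of_forall fun z => ?_)
    beta_reduce; ring
  · -- the currents
    intro j m k l
    have hneg : ∀ (j m : ℤ) (η : ℂ → ℂ), Test U η →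
      Tendsto (fun n => ∫ z, η z * (-(E h a φ j n z * E h a φ m n z))) atTop
      (𝓝 (-P j m * ∫ z, η z)) := by
      intro j m η hη
      have := (htwo j m η hη).neg
      rw [neg_mul]
      refine this.congr fun n => ?_
      rw [← integral_neg]
      refine MeasureTheory.integral_congr_ae (Filter.Eventually.of_forall fun z => ?_)
      beta_reduce; ring
    have hd := div_curl hU (A := fun n z => E h a φ j n z * E h a φ m n z)
      (B := fun n z => -(E h a φ (j + 1) n z * E h a φ (m + 1) n z))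
      (A' := fun n z => E h a φ k n z * E h a φ l n z)
      (B' := fun n z => -(E h a φ (k + 1) n z * E h a φ (l + 1) n z))
      (hsm j m) (hsm (j + 1) (m + 1)).neg (hsm k l) (hsm (k + 1) (l + 1)).neg
      (hbd j m) (hbd (j + 1) (m + 1)).neg (hbd k l) (hbd (k + 1) (l + 1)).neg
      (S.div_bdd j m) (S.div_bdd k l) (htwo j m) (hneg (j + 1) (m + 1)) (htwo k l)
      (hneg (k + 1) (l + 1)) hT
    have e1 : (P (j + 1) (m + 1) * P k l - P j m * P (k + 1) (l + 1)) * ((∫ z, ζ z : ℝ) : ℂ)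
        = (P j m * -P (k + 1) (l + 1) - -P (j + 1) (m + 1) * P k l) * ∫ z, ((ζ z : ℝ) : ℂ) := by
      rw [hZ]; ring
    rw [e1]
    refine hd.congr fun n => ?_
    rw [hX]
    beta_reduce
    rw [← integral_sub (hint n _ _ _ _) (hint n _ _ _ _)]
    refine MeasureTheory.integral_congr_ae (Filter.Eventually.of_forall fun z => ?_)
    beta_reduce; ring
  · -- positivity
    intro M n
    rw [hX]
    beta_reduce
    rw [← integral_finsetSum _ (fun p _ => hint n _ _ _ _)]
    have hre : (∫ z, ∑ p ∈ quads M, (ζ z : ℂ) * (E h a φ (2 * p.1.1) n z * E h a φ (2 * p.1.2) n z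
        * (E h a φ (-(2 * p.2.1)) n z * E h a φ (-(2 * p.2.2)) n z))).re
        = ∫ z, (∑ p ∈ quads M, (ζ z : ℂ) * (E h a φ (2 * p.1.1) n z * E h a φ (2 * p.1.2) n z
        * (E h a φ (-(2 * p.2.1)) n z * E h a φ (-(2 * p.2.2)) n z))).re := by
      have hi : Integrable (fun z => ∑ p ∈ quads M, (ζ z : ℂ) * (E h a φ (2 * p.1.1) n z
        * E h a φ (2 * p.1.2) n z * (E h a φ (-(2 * p.2.1)) n z * E h a φ (-(2 * p.2.2)) n z))) :=
        integrable_finsetSum _ (fun p _ => hint n _ _ _ _)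
      exact (integral_re hi).symm
    rw [hre]
    refine integral_nonneg fun z => ?_
    by_cases hz : z ∈ U
    · have hcj : ∀ c : ℕ, E h a φ (-(2 * (c : ℤ))) n z
          = (starRingEnd ℂ) (E h a φ (2 * (c : ℤ)) n z) := by
        intro c
        have h1 := S.E_neg (2 * c) n z hz
        have h2 : -(((2 * c : ℕ) : ℤ)) = -(2 * (c : ℤ)) := by push_cast; ring
        rw [h2] at h1
        rw [h1, pow_mul, neg_one_sq, one_pow, one_mul]
        rfl
      have e2 : ∑ p ∈ quads M, (ζ z : ℂ) * (E h a φ (2 * p.1.1) n z * E h a φ (2 * p.1.2) n z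
        * (E h a φ (-(2 * p.2.1)) n z * E h a φ (-(2 * p.2.2)) n z))
          = (ζ z : ℂ) * ∑ p ∈ quads M, ((fun q : ℕ × ℕ => E h a φ (2 * q.1) n z
            * E h a φ (2 * q.2) n z) p.1) * (starRingEnd ℂ) ((fun q : ℕ × ℕ => E h a φ (2 * q.1) n z
            * E h a φ (2 * q.2) n z) p.2) := by
        rw [Finset.mul_sum]
        refine Finset.sum_congr rfl fun p _ => ?_
        rw [hcj, hcj, map_mul]
      show 0 ≤ (∑ p ∈ quads M, (ζ z : ℂ) * (E h a φ (2 * p.1.1) n z * E h a φ (2 * p.1.2) n z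
        * (E h a φ (-(2 * p.2.1)) n z * E h a φ (-(2 * p.2.2)) n z))).re
      rw [e2, re_ofReal_mul]
      exact mul_nonneg (hζ0 z) (sum_pairs_nonneg (Finset.range (M + 1) ×ˢ Finset.range (M + 1))
        (fun q : ℕ × ℕ => E h a φ (2 * q.1) n z * E h a φ (2 * q.2) n z)
        (fun q : ℕ × ℕ => q.1 + q.2))
    · have : ζ z = 0 := image_eq_zero_of_notMem_tsupport fun hh => hz (hζU hh)
      simp [this]

end

end QE
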