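import Pool.Agent.Lib_helper67.QE.Jets

/-!
Weak limits of the products of two jets, and the currents.
-/

open Complex MeasureTheory Filter Topology
open scoped ContDiff

namespace QE

noncomputable section

variable {U : Set ℂ} {h : ℕ → ℝ}

theorem Test.integral_congr {ζ f f' : ℂ → ℂ} (hζ : Test U ζ) (he : ∀ z ∈ U, f z = f' z) :
    ∫ z, ζ z * f z = ∫ z, ζ z * f' z := by
  refine MeasureTheory.integral_congr_ae (Filter.Eventually.of_forall fun z => ?_)
  by_cases hz : z ∈ U
  · show ζ z * f z = ζ z * f' z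
    rw [he z hz]
  · have : ζ z = 0 := image_eq_zero_of_notMem_tsupport fun hh => hz (hζ.sub hh)
    show ζ z * f z = ζ z * f' z
    rw [this, zero_mul, zero_mul]

theorem Test.int {ζ f : ℂ → ℂ} (hU : IsOpen U) (hζ : Test U ζ) (hf : ContDiffOn ℝ ∞ f U) :
    Integrable (fun z => ζ z * f z) := hζ.integrable_mul hU hf.continuousOn

theorem integral_add_four {f₁ f₂ f₃ f₄ : ℂ → ℂ} (h₁ : Integrable f₁) (h₂ : Integrable f₂)
    (h₃ : Integrable f₃) (h₄ : Integrable f₄) : ∫ z, (f₁ z + f₂ z + f₃ z + f₄ z)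
      = (∫ z, f₁ z) + (∫ z, f₂ z) + (∫ z, f₃ z) + ∫ z, f₄ z := by
  have e1 : ∫ z, (f₁ z + f₂ z + f₃ z + f₄ z) = (∫ z, (f₁ z + f₂ z + f₃ z)) + ∫ z, f₄ z :=
    integral_add ((h₁.add h₂).add h₃) h₄
  have e2 : ∫ z, (f₁ z + f₂ z + f₃ z) = (∫ z, (f₁ z + f₂ z)) + ∫ z, f₃ z :=
    integral_add (h₁.add h₂) h₃
  have e3 : ∫ z, (f₁ z + f₂ z) = (∫ z, f₁ z) + ∫ z, f₂ z := integral_add h₁ h₂
  rw [e1, e2, e3]

/-- the integral of a product of tame sequences, multiplied by `h`, tends to zero -/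
theorem tendsto_h_int (hh0 : Tendsto h atTop (𝓝 0)) {u v : ℕ → ℂ → ℂ} (hu : Tame U h u)
    (hv : Tame U h v) {ζ : ℂ → ℂ} (hζ : Test U ζ) :
    Tendsto (fun n => (h n : ℂ) * ∫ z, ζ z * (u n z * v n z)) atTop (𝓝 0) := by
  obtain ⟨C, hC⟩ := (hu.bdd4.mul4 hu.smooth hv.bdd4 hv.smooth).test (hu.smooth.mul hv.smooth) hζ
  have h1 : Tendsto (fun n => ‖((h n : ℝ) : ℂ)‖ * C) atTop (𝓝 0) := by
    have := ((continuous_ofReal.tendsto 0).comp hh0).norm.mul_const C
    simpa using this
  refine squeeze_zero_norm' ?_ h1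
  filter_upwards [hC] with n hn
  rw [norm_mul]
  gcongr

namespace Setup

variable {a : ℂ → ℂ} {g : ℂ → ℂ} {φ : ℕ → ℂ → ℂ} (S : Setup U g a h φ)

include S

theorem dAt_E (m : ℤ) (n : ℕ) {z : ℂ} (hz : z ∈ U) : DifferentiableAt ℝ (E h a φ m n) z :=
  (S.tame_E m).smooth.dAt S.op n hz

/-- the derivative of the product of two jets -/
theorem LL_prod (j m : ℤ) : ∃ w v : ℕ → ℂ → ℂ, Tame U h w ∧ Tame U h v ∧ ∀ n, ∀ z ∈ U,
    -(2 * I * h n) * a z * dz (fun z => E h a φ j n z * E h a φ m n z) z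
      = E h a φ (j + 1) n z * E h a φ m n z + E h a φ j n z * E h a φ (m + 1) n z
        + (h n : ℂ) * (w n z * E h a φ m n z + E h a φ j n z * v n z) := by
  obtain ⟨w, hw, hw'⟩ := S.LL_E j
  obtain ⟨v, hv, hv'⟩ := S.LL_E m
  refine ⟨w, v, hw, hv, fun n z hz => ?_⟩
  rw [dz_mul (S.dAt_E j n hz) (S.dAt_E m n hz)]
  have e1 := hw' n z hz
  have e2 := hv' n z hz
  unfold LL at e1 e2
  linear_combination E h a φ m n z * e1 + E h a φ j n z * e2

theorem LLb_prod (j m : ℤ) : ∃ w v : ℕ → ℂ → ℂ, Tame U h w ∧ Tame U h v ∧ ∀ n, ∀ z ∈ U,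
    -(2 * I * h n) * a z * dzb (fun z => E h a φ j n z * E h a φ m n z) z
      = E h a φ (j - 1) n z * E h a φ m n z + E h a φ j n z * E h a φ (m - 1) n z
        + (h n : ℂ) * (w n z * E h a φ m n z + E h a φ j n z * v n z) := by
  obtain ⟨w, hw, hw'⟩ := S.LLb_E j
  obtain ⟨v, hv, hv'⟩ := S.LLb_E m
  refine ⟨w, v, hw, hv, fun n z hz => ?_⟩
  rw [dzb_mul (S.dAt_E j n hz) (S.dAt_E m n hz)]
  have e1 := hw' n z hz
  have e2 := hv' n z hz
  unfold LLb at e1 e2
  linear_combination E h a φ m n z * e1 + E h a φ j n z * e2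

/-- `∫ ζ (E_{j+1} E_m + E_j E_{m+1}) → 0` -/
theorem int_add (j m : ℤ) {ζ : ℂ → ℂ} (hζ : Test U ζ) :
    Tendsto (fun n => (∫ z, ζ z * (E h a φ (j + 1) n z * E h a φ m n z))
      + ∫ z, ζ z * (E h a φ j n z * E h a φ (m + 1) n z)) atTop (𝓝 0) := by
  obtain ⟨w, v, hw, hv, he⟩ := S.LL_prod j m
  have hE := fun j => (S.tame_E j)
  have hζa : Test U (dz (fun z => ζ z * a z)) := (hζ.mul S.op S.ha).dz
  have t1 := (tendsto_h_int S.hlim (hE j) (hE m) hζa).const_mul (2 * I)
  have t2 := tendsto_h_int S.hlim hw (hE m) hζ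
  have t3 := tendsto_h_int S.hlim (hE j) hv hζ
  have t4 := (t1.sub t2).sub t3
  rw [mul_zero, sub_zero, sub_zero] at t4
  refine t4.congr fun n => ?_
  have i1 : Integrable (fun z => ζ z * (E h a φ (j + 1) n z * E h a φ m n z)) :=
    hζ.int S.op (((hE (j+1)).smooth.mul (hE m).smooth) n)
  have i2 : Integrable (fun z => ζ z * (E h a φ j n z * E h a φ (m + 1) n z)) :=
    hζ.int S.op (((hE j).smooth.mul (hE (m+1)).smooth) n)
  have i3 : Integrable (fun z => ζ z * (w n z * E h a φ m n z)) :=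
    hζ.int S.op ((hw.smooth.mul (hE m).smooth) n)
  have i4 : Integrable (fun z => ζ z * (E h a φ j n z * v n z)) :=
    hζ.int S.op (((hE j).smooth.mul hv.smooth) n)
  have e0 : ∫ z, (ζ z * a z) * dz (fun z => E h a φ j n z * E h a φ m n z) z
      = - ∫ z, dz (fun z => ζ z * a z) z * (E h a φ j n z * E h a φ m n z) :=
    integral_mul_dz S.op (hζ.mul S.op S.ha) (((hE j).smooth.mul (hE m).smooth) n)
  have e1 : -(2 * I * h n) * ∫ z, (ζ z * a z) * dz (fun z => E h a φ j n z * E h a φ m n z) z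
      = ∫ z, (ζ z * (E h a φ (j + 1) n z * E h a φ m n z)
        + ζ z * (E h a φ j n z * E h a φ (m + 1) n z)
        + (h n : ℂ) * (ζ z * (w n z * E h a φ m n z)) + (h n : ℂ) * (ζ z * (E h a φ j n z * v n z))) := by
    have e2 := hζ.integral_congr (f := fun z => -(2 * I * h n) * a z
      * dz (fun z => E h a φ j n z * E h a φ m n z) z) (f' := fun z => E h a φ (j + 1) n z
      * E h a φ m n z + E h a φ j n z * E h a φ (m + 1) n z
        + (h n : ℂ) * (w n z * E h a φ m n z + E h a φ j n z * v n z)) (he n)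
    rw [← integral_const_mul]
    refine Eq.trans ?_ (e2.trans ?_)
    · refine MeasureTheory.integral_congr_ae (Filter.Eventually.of_forall fun z => ?_)
      beta_reduce; ring
    · refine MeasureTheory.integral_congr_ae (Filter.Eventually.of_forall fun z => ?_)
      beta_reduce; ring
  have i3' := i3.const_mul (h n : ℂ)
  have i4' := i4.const_mul (h n : ℂ)
  have e5 : ∫ z, (ζ z * (E h a φ (j + 1) n z * E h a φ m n z)
        + ζ z * (E h a φ j n z * E h a φ (m + 1) n z)
        + (h n : ℂ) * (ζ z * (w n z * E h a φ m n z)) + (h n : ℂ) * (ζ z * (E h a φ j n z * v n z)))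
      = (∫ z, ζ z * (E h a φ (j + 1) n z * E h a φ m n z))
        + (∫ z, ζ z * (E h a φ j n z * E h a φ (m + 1) n z))
        + (h n : ℂ) * (∫ z, ζ z * (w n z * E h a φ m n z))
        + (h n : ℂ) * (∫ z, ζ z * (E h a φ j n z * v n z)) := by
    rw [← integral_const_mul, ← integral_const_mul]
    exact integral_add_four i1 i2 i3' i4'
  rw [e5, e0] at e1
  linear_combination e1

/-- the two-point function -/
theorem int_two (h0 : ∀ ζ : ℂ → ℂ, Test U ζ →
      Tendsto (fun n => ∫ z, ζ z * (E h a φ 0 n z * E h a φ 0 n z)) atTop (𝓝 (∫ z, ζ z)))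
    (h1 : ∀ k : ℕ, 1 ≤ k → ∀ ζ : ℂ → ℂ, Test U ζ →
      Tendsto (fun n => ∫ z, ζ z * (E h a φ 0 n z * E h a φ k n z)) atTop (𝓝 0))
    (j m : ℤ) {ζ : ℂ → ℂ} (hζ : Test U ζ) :
    Tendsto (fun n => ∫ z, ζ z * (E h a φ j n z * E h a φ m n z)) atTop
      (𝓝 ((if j + m = 0 then (-1 : ℂ) ^ j else 0) * ∫ z, ζ z)) := by
  -- the case `j = 0`
  have base : ∀ m : ℤ, Tendsto (fun n => ∫ z, ζ z * (E h a φ 0 n z * E h a φ m n z)) atTop
      (𝓝 ((if 0 + m = 0 then (-1 : ℂ) ^ (0 : ℤ) else 0) * ∫ z, ζ z)) := by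
    intro m
    cases m with
    | ofNat m =>
      cases m with
      | zero =>
        have := h0 ζ hζ
        simpa using this
      | succ m =>
        have h2 := h1 (m + 1) (by omega) ζ hζ
        have h3 : ¬ ((0 : ℤ) + Int.ofNat (m + 1) = 0) := by
          rw [zero_add]; exact Int.ofNat_ne_zero.2 (Nat.succ_ne_zero m)
        rw [if_neg h3, zero_mul]
        exact h2
    | negSucc m =>
      have h2 := h1 (m + 1) (by omega) _ hζ.conj
      have h3 : ¬ ((0 : ℤ) + Int.negSucc m = 0) := by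
        rw [zero_add]; exact Int.negSucc_ne_zero m
      rw [if_neg h3, zero_mul]
      have h4 := ((continuous_conj.tendsto 0).comp h2).const_mul ((-1 : ℂ) ^ (m + 1))
      rw [map_zero, mul_zero] at h4
      refine h4.congr fun n => ?_
      simp only [Function.comp_apply]
      rw [← integral_conj, ← integral_const_mul]
      have e2 := hζ.integral_congr (f := fun z => (-1 : ℂ) ^ (m + 1) * (E h a φ 0 n z
        * (starRingEnd ℂ) (jet h a φ (m + 1) n z)))
        (f' := fun z => E h a φ 0 n z * E h a φ (Int.negSucc m) n z) (fun z _ => by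
          show _ = E h a φ 0 n z * ((-1) ^ (m + 1) * (starRingEnd ℂ) (jet h a φ (m + 1) n z))
          ring)
      rw [← e2]
      have e3 := hζ.integral_congr (f := fun z => (-1 : ℂ) ^ (m + 1) * (E h a φ 0 n z
        * (starRingEnd ℂ) (jet h a φ (m + 1) n z)))
        (f' := fun z => (-1 : ℂ) ^ (m + 1) * ((starRingEnd ℂ) (E h a φ 0 n z)
        * (starRingEnd ℂ) (E h a φ ((m + 1 : ℕ) : ℤ) n z))) (fun z hz => by
          have : (starRingEnd ℂ) (E h a φ 0 n z) = E h a φ 0 n z := S.real n z hz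
          rw [this]
          rfl)
      rw [e3]
      refine MeasureTheory.integral_congr_ae (Filter.Eventually.of_forall fun z => ?_)
      beta_reduce
      simp only [map_mul, starRingEnd_self_apply]
      ring
  -- induction on `j`
  have up : ∀ j : ℤ, (∀ m : ℤ, Tendsto (fun n => ∫ z, ζ z * (E h a φ j n z * E h a φ m n z)) atTop
      (𝓝 ((if j + m = 0 then (-1 : ℂ) ^ j else 0) * ∫ z, ζ z))) →
      ∀ m : ℤ, Tendsto (fun n => ∫ z, ζ z * (E h a φ (j + 1) n z * E h a φ m n z)) atTop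
      (𝓝 ((if (j + 1) + m = 0 then (-1 : ℂ) ^ (j + 1) else 0) * ∫ z, ζ z)) := by
    intro j hj m
    have h2 := (S.int_add j m hζ).sub (hj (m + 1))
    have e1 : (0 : ℂ) - (if j + (m + 1) = 0 then (-1 : ℂ) ^ j else 0) * ∫ z, ζ z
        = (if (j + 1) + m = 0 then (-1 : ℂ) ^ (j + 1) else 0) * ∫ z, ζ z := by
      have : (j + (m + 1) = 0) ↔ ((j + 1) + m = 0) := by constructor <;> intro h <;> linarith
      simp only [this]
      split_ifs
      · rw [zpow_add_one₀ (by norm_num)]; ring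
      · ring
    rw [e1] at h2
    refine h2.congr fun n => ?_
    ring
  have down : ∀ j : ℤ, (∀ m : ℤ, Tendsto (fun n => ∫ z, ζ z * (E h a φ j n z * E h a φ m n z)) atTop
      (𝓝 ((if j + m = 0 then (-1 : ℂ) ^ j else 0) * ∫ z, ζ z))) →
      ∀ m : ℤ, Tendsto (fun n => ∫ z, ζ z * (E h a φ (j - 1) n z * E h a φ m n z)) atTop
      (𝓝 ((if (j - 1) + m = 0 then (-1 : ℂ) ^ (j - 1) else 0) * ∫ z, ζ z)) := by
    intro j hj m
    have h2 := (S.int_add (j - 1) (m - 1) hζ).sub (hj (m - 1))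
    have e1 : (0 : ℂ) - (if j + (m - 1) = 0 then (-1 : ℂ) ^ j else 0) * ∫ z, ζ z
        = (if (j - 1) + m = 0 then (-1 : ℂ) ^ (j - 1) else 0) * ∫ z, ζ z := by
      have : (j + (m - 1) = 0) ↔ ((j - 1) + m = 0) := by constructor <;> intro h <;> linarith
      simp only [this]
      split_ifs
      · rw [zpow_sub_one₀ (by norm_num)]; ring
      · ring
    rw [e1] at h2
    refine h2.congr fun n => ?_
    have e2 : j - 1 + 1 = j := by ring
    have e3 : m - 1 + 1 = m := by ring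
    rw [e2, e3]
    ring
  have key : ∀ j : ℤ, ∀ m : ℤ, Tendsto (fun n => ∫ z, ζ z * (E h a φ j n z * E h a φ m n z)) atTop
      (𝓝 ((if j + m = 0 then (-1 : ℂ) ^ j else 0) * ∫ z, ζ z)) := by
    intro j
    induction j using Int.induction_on with
    | zero => exact base
    | succ i ih => exact up _ ih
    | pred i ih => exact down _ ih
  exact key j m

/-- the currents have bounded divergence -/
theorem div_bdd (j m : ℤ) : LBdd 2 U (fun n z => dz (fun z => E h a φ j n z * E h a φ m n z) z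
    + dzb (fun z => -(E h a φ (j + 1) n z * E h a φ (m + 1) n z)) z) := by
  obtain ⟨w, v, hw, hv, he⟩ := S.LL_prod j m
  obtain ⟨w', v', hw', hv', he'⟩ := S.LLb_prod (j + 1) (m + 1)
  have hE := fun j => (S.tame_E j)
  have b1 := hw.bdd4.mul4 hw.smooth (hE m).bdd4 (hE m).smooth
  have b2 := (hE j).bdd4.mul4 (hE j).smooth hv.bdd4 hv.smooth
  have b3 := hw'.bdd4.mul4 hw'.smooth (hE (m + 1)).bdd4 (hE (m + 1)).smooth
  have b4 := (hE (j + 1)).bdd4.mul4 (hE (j + 1)).smooth hv'.bdd4 hv'.smooth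
  have s1 := hw.smooth.mul (hE m).smooth
  have s2 := (hE j).smooth.mul hv.smooth
  have s3 := hw'.smooth.mul (hE (m + 1)).smooth
  have s4 := (hE (j + 1)).smooth.mul hv'.smooth
  have b5 := ((b1.add s1 b2 s2).sub (s1.add s2) (b3.add s3 b4 s4) (s3.add s4))
  have s5 := (s1.add s2).sub (s3.add s4)
  have hga : ContDiffOn ℝ ∞ (fun z => I / 2 * (g z * a z)) U := contDiffOn_const.mul (S.hg.mul S.ha)
  refine (b5.fn_mul s5 hga).congr fun n z hz => ?_
  have hd : DifferentiableAt ℝ (fun z => E h a φ (j + 1) n z * E h a φ (m + 1) n z) z :=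
    (S.dAt_E (j + 1) n hz).fun_mul (S.dAt_E (m + 1) n hz)
  have e3 : dzb (fun z => -(E h a φ (j + 1) n z * E h a φ (m + 1) n z)) z
      = - dzb (fun z => E h a φ (j + 1) n z * E h a φ (m + 1) n z) z := by
    have := dzb_const_mul (-1) hd
    rw [neg_one_mul] at this
    rw [← this]
    congr 1
    funext w; ring
  have e1 := he n z hz
  have e2 := he' n z hz
  rw [add_sub_cancel_right, add_sub_cancel_right] at e2
  rw [e3]
  have hh : ((h n : ℝ) : ℂ) ≠ 0 := ofReal_ne_zero.2 (S.hpos n).ne'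
  have hag := S.ag z hz
  have ha0 : a z ≠ 0 := by
    intro h0
    rw [h0] at hag
    simp at hag
  have hI : I ^ 2 = -1 := I_sq
  have hne : -(2 * I * h n) * a z ≠ 0 := by
    refine mul_ne_zero (neg_ne_zero.2 (mul_ne_zero (mul_ne_zero two_ne_zero I_ne_zero) hh)) ha0
  apply mul_left_cancel₀ hne
  set X := dz (fun z => E h a φ j n z * E h a φ m n z) z
  set Y := dzb (fun z => E h a φ (j + 1) n z * E h a φ (m + 1) n z) z
  set Q := w n z * E h a φ m n z + E h a φ j n z * v n z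
    - (w' n z * E h a φ (m + 1) n z + E h a φ (j + 1) n z * v' n z) with hQ
  have e4 : -(2 * I * h n) * a z * (X + -Y) = (h n : ℂ) * Q := by
    rw [hQ]
    linear_combination e1 - e2
  rw [e4]
  linear_combination (-(h n : ℂ) * Q * (a z ^ 2 * g z)) * hI + (h n : ℂ) * Q * hag

/-- conversion of the derivatives -/
theorem tame_D (k : ℕ) : Tame U h (fun n z => (h n : ℂ) ^ k * dz^[k] (φ n) z) := by
  induction k with
  | zero => exact S.tame.congr S.op fun n z _ => by simp
  | succ k ih =>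
    have hs : ∀ n, ContDiffOn ℝ ∞ (dz^[k] (φ n)) U := by
      intro n
      clear ih
      induction k with
      | zero => exact S.tame.smooth n
      | succ k ih => rw [Function.iterate_succ_apply']; exact contDiffOn_dz S.op ih
    refine (ih.hdz S.op).congr S.op fun n z hz => ?_
    rw [dz_const_mul _ (((hs n).contDiffAt (S.op.mem_nhds hz)).differentiableAt (by simp)),
      Function.iterate_succ_apply']
    ring

theorem smooth_iter (k n : ℕ) : ContDiffOn ℝ ∞ (dz^[k] (φ n)) U := by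
  induction k with
  | zero => exact S.tame.smooth n
  | succ k ih => rw [Function.iterate_succ_apply']; exact contDiffOn_dz S.op ih

theorem jet_near (k : ℕ) : Near U h (jet h a φ k)
    (fun n z => (-(2 * I)) ^ k * (a z ^ k * ((h n : ℂ) ^ k * dz^[k] (φ n) z))) := by
  induction k with
  | zero =>
    refine Near.of_eq S.op fun n z _ => ?_
    show φ n z = _
    simp
  | succ k ih =>
    have hs : Tame U h (fun n z => (-(2 * I)) ^ k * (a z ^ k * ((h n : ℂ) ^ k * dz^[k] (φ n) z))) :=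
      ((S.tame_D k).fn_mul S.op S.hlim (S.ha.pow k)).smul S.op _
    have h1 := ih.LL S.op S.hlim S.ha hs.smooth
    refine Near.trans S.op h1 ?_
    have hak := contDiffOn_dz S.op (S.ha.pow k)
    have t := ((S.tame_D k).fn_mul S.op S.hlim (S.ha.mul hak)).smul S.op ((-(2 * I)) ^ (k + 1))
    refine ⟨_, t, fun n z hz => ?_⟩
    have hda : DifferentiableAt ℝ (fun z => a z ^ k) z :=
      ((S.ha.pow k).contDiffAt (S.op.mem_nhds hz)).differentiableAt (by simp)
    have hdD : DifferentiableAt ℝ (fun z => (h n : ℂ) ^ k * dz^[k] (φ n) z) z :=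
      (S.tame_D k).smooth.dAt S.op n hz
    have hdd : DifferentiableAt ℝ (dz^[k] (φ n)) z :=
      ((S.smooth_iter k n).contDiffAt (S.op.mem_nhds hz)).differentiableAt (by simp)
    unfold LL
    beta_reduce
    rw [dz_const_mul _ (hda.fun_mul hdD), dz_mul hda hdD, dz_const_mul _ hdd,
      Function.iterate_succ_apply']
    ring

/-- the hypotheses of quantum ergodicity in terms of the jets -/
theorem mom_jet {k : ℕ} (hmom : ∀ ζ : ℂ → ℂ, Test U ζ →
      Tendsto (fun n => ∫ z, ζ z * (φ n z * ((h n : ℂ) ^ k * dz^[k] (φ n) z))) atTop (𝓝 0))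
    {ζ : ℂ → ℂ} (hζ : Test U ζ) :
    Tendsto (fun n => ∫ z, ζ z * (E h a φ 0 n z * E h a φ k n z)) atTop (𝓝 0) := by
  obtain ⟨w, hw, hw'⟩ := S.jet_near k
  have t1 := (hmom _ (hζ.mul S.op (S.ha.pow k))).const_mul ((-(2 * I)) ^ k)
  have t2 := tendsto_h_int S.hlim S.tame hw hζ
  have t3 := t1.add t2
  rw [mul_zero, zero_add] at t3
  refine t3.congr fun n => ?_
  have i1 : Integrable (fun z => (ζ z * a z ^ k) * (φ n z * ((h n : ℂ) ^ k * dz^[k] (φ n) z))) :=
    (hζ.mul S.op (S.ha.pow k)).int S.op ((S.tame.smooth.mul (S.tame_D k).smooth) n)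
  have i2 : Integrable (fun z => ζ z * (φ n z * w n z)) :=
    hζ.int S.op ((S.tame.smooth.mul hw.smooth) n)
  have e := hζ.integral_congr (f := fun z => E h a φ 0 n z * E h a φ k n z)
    (f' := fun z => φ n z * ((-(2 * I)) ^ k * (a z ^ k * ((h n : ℂ) ^ k * dz^[k] (φ n) z))
      + (h n : ℂ) * w n z)) (fun z hz => by
        have : E h a φ k n z = jet h a φ k n z := rfl
        rw [this, hw' n z hz]
        rfl)
  rw [e, ← integral_const_mul, ← integral_const_mul, ← integral_add (i1.const_mul _)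
    (i2.const_mul _)]
  refine MeasureTheory.integral_congr_ae (Filter.Eventually.of_forall fun z => ?_)
  beta_reduce
  ring

end Setup

end

end QE
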