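import Pool.Agent.LibH11.Berry.SL3
import Pool.Agent.Lib_helper67.QE.Moments

/-!
Definitions for the hyperbolic plane: weak limits, directions, the geodesic flow, and the families of
Fourier coefficients of semiclassical measures.
-/

open MeasureTheory Filter Topology
open UpperHalfPlane hiding I
open scoped ContDiff MatrixGroups

namespace QE

noncomputable section

/-- square integrable on the compact subsets of `U` -/
def LocL2 (U : Set ℂ) (w : ℂ → ℂ) : Prop :=
  ∀ K : Set ℂ, IsCompact K → K ⊆ U → MemLp w 2 (volume.restrict K)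

/-- `v n` converges to `w` weakly in `L²(K)` for every compact `K ⊆ U` -/
def WLim (U : Set ℂ) (v : ℕ → ℂ → ℂ) (w : ℂ → ℂ) : Prop :=
  ∀ K : Set ℂ, IsCompact K → K ⊆ U → ∀ ζ : ℂ → ℂ, MemLp ζ 2 (volume.restrict K) →
    Tendsto (fun n => ∫ z in K, ζ z * v n z) atTop (𝓝 (∫ z in K, ζ z * w z))

/-- the upper half plane, as a subset of the plane -/
def UH : Set ℂ := {z | 0 < z.im}

/-- the Möbius transformation `γ`, as a map of the plane -/
def mob (γ : SL(2, ℝ)) (z : ℂ) : ℂ := ((γ • ofComplex z : ℍ) : ℂ)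

/-- the denominator `c z + d` -/
def den (γ : SL(2, ℝ)) (z : ℂ) : ℂ := ((γ 1 0 : ℝ) : ℂ) * z + ((γ 1 1 : ℝ) : ℂ)

/-- the phase `γ'(z) / |γ'(z)|` of the derivative of a Möbius transformation -/
def phase (γ : SL(2, ℝ)) (z : ℂ) : ℂ := ((starRingEnd ℂ) (den γ z) / (‖den γ z‖ : ℂ)) ^ 2

/-- the conformal factor `1 / y²` of the hyperbolic metric -/
def gH (z : ℂ) : ℂ := 1 / (z.im : ℂ) ^ 2

/-- the weight `y = gH ^ (-1/2)` -/
def aH (z : ℂ) : ℂ := (z.im : ℂ)

/-- the diagonal flow `diag (e^{s/2}, e^{-s/2})` -/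
def aS (s : ℝ) : SL(2, ℝ) :=
  ⟨!![Real.exp (s / 2), 0; 0, Real.exp (-(s / 2))], by
    rw [Matrix.det_fin_two_of, mul_zero, sub_zero, ← Real.exp_add, add_neg_cancel, Real.exp_zero]⟩

/-- the direction at `g • i` of the geodesic `s ↦ g a_s • i`, a complex number of modulus one -/
def dirG (g : SL(2, ℝ)) : ℂ := Complex.I * phase g Complex.I

/-- the Fourier coefficients (along the fibres of the circle bundle) of a measure with locally square
integrable projection: `u k` is the weak limit of `E₀ E_k` -/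
structure LimFam0 (Γ : Subgroup SL(2, ℝ)) (u : ℤ → ℂ → ℂ) : Prop where
  meas : ∀ k, Measurable (u k)
  loc : ∀ k, LocL2 UH (u k)
  real : ∀ᵐ z ∂((volume : Measure ℂ).restrict UH), 0 ≤ (u 0 z).re ∧ (u 0 z).im = 0
  bound : ∀ k, ∀ᵐ z ∂((volume : Measure ℂ).restrict UH), ‖u k z‖ ≤ (u 0 z).re
  conj : ∀ k, ∀ᵐ z ∂((volume : Measure ℂ).restrict UH), u (-k) z = (starRingEnd ℂ) (u k z)
  odd : ∀ k, Odd k → ∀ᵐ z ∂((volume : Measure ℂ).restrict UH), u k z = 0
  pos : ∀ N : ℕ, ∀ w : ℂ, ‖w‖ = 1 → ∀ᵐ z ∂((volume : Measure ℂ).restrict UH),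
    0 ≤ (∑ j ∈ Finset.range N, ∑ l ∈ Finset.range N, u ((j : ℤ) - l) z * w ^ ((j : ℤ) - l)).re
  equiv : ∀ γ ∈ Γ, ∀ k, ∀ᵐ z ∂((volume : Measure ℂ).restrict UH),
    u k z = phase γ z ^ k * u k (mob γ z)

/-- the Fourier coefficients (along the fibres of the circle bundle) of a measure invariant under the
geodesic flow of the hyperbolic metric, with locally square integrable projection -/
structure LimFam (Γ : Subgroup SL(2, ℝ)) (u : ℤ → ℂ → ℂ) : Prop extends LimFam0 Γ u where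
  transport : ∀ k : ℤ, ∀ ζ : ℂ → ℂ, Test UH ζ →
    ∫ z, (((z.im : ℂ) * dz ζ z + Complex.I * k / 2 * ζ z) * u (k - 1) z
      + ((z.im : ℂ) * dzb ζ z + Complex.I * k / 2 * ζ z) * u (k + 1) z) / (z.im : ℂ) ^ 2 = 0

variable [MeasurableSpace SL(2, ℝ)] [BorelSpace SL(2, ℝ)]

/-- a measure on `SL(2, ℝ)` which is left invariant under `Γ` and under `-1`, and whose projection to
the upper half plane has the density `p`, square integrable over the surface -/
structure FlowMeas0 (Γ : Subgroup SL(2, ℝ)) (D : Set ℍ) (μ : Measure SL(2, ℝ)) (p : ℍ → ℝ) :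
    Prop where
  left : ∀ γ ∈ Γ, Measure.map (fun g => γ * g) μ = μ
  neg : Measure.map (fun g => -g) μ = μ
  pmeas : Measurable p
  pnonneg : ∀ z, 0 ≤ p z
  pinv : ∀ γ ∈ Γ, ∀ z, p (γ • z) = p z
  psq : IntegrableOn (fun z => p z ^ 2) D (volume : Measure ℍ)
  proj : ∀ S : Set ℍ, MeasurableSet S →
    μ ((fun g : SL(2, ℝ) => g • UpperHalfPlane.I) ⁻¹' S) = ∫⁻ z in S, ENNReal.ofReal (p z)

/-- a measure on `SL(2, ℝ)` which is left invariant under `Γ` and under `-1`, right invariant under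
the geodesic flow, and whose projection to the upper half plane has the density `p`, square
integrable over the surface -/
structure FlowMeas (Γ : Subgroup SL(2, ℝ)) (D : Set ℍ) (μ : Measure SL(2, ℝ)) (p : ℍ → ℝ) :
    Prop extends FlowMeas0 Γ D μ p where
  right : ∀ s : ℝ, Measure.map (fun g => g * aS s) μ = μ

/-- the set of `g` which move `i` by a small distance (less than about `δ`) and are close to `1` or
`-1` up to a rotation by an angle less than about `ε` -/
def Kset (δ ε : ℝ) : Set SL(2, ℝ) :=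
  {g | (g 0 0 - g 1 1) ^ 2 + (g 0 1 + g 1 0) ^ 2 < δ ^ 2 ∧ |g 0 1 - g 1 0| < ε}

/-- mass, modulo `Γ`, of the pairs `(v, v g)` with `g ∈ S` -/
def pairMass (D : Set ℍ) (μ : Measure SL(2, ℝ)) (S : Set SL(2, ℝ)) : ENNReal :=
  ∫⁻ v in Berry.Fd D, μ ((fun w => v⁻¹ * w) ⁻¹' S) ∂μ

end

end QE
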