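import Pool.Agent.Lib_helper67.QE.DivCurl
import Pool.Agent.Lib_helper67.QE.HypDefs

/-!
The div-curl lemma for sequences of smooth functions in the plane, the weak limits being square
integrable functions (helper50).
-/

open Complex MeasureTheory Filter Topology
open scoped ContDiff

namespace QE

noncomputable section

/-! ### Subsequences -/

theorem SmoothSeq.comp {U : Set ℂ} {u : ℕ → ℂ → ℂ} (hu : SmoothSeq U u) (s : ℕ → ℕ) :
    SmoothSeq U (fun n => u (s n)) := fun n => hu (s n)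

theorem LBdd.comp {p : ℕ} {U : Set ℂ} {u : ℕ → ℂ → ℂ} (h : LBdd p U u) {s : ℕ → ℕ}
    (hs : Tendsto s atTop atTop) : LBdd p U (fun n => u (s n)) := by
  intro K hK hKU
  obtain ⟨C, hC⟩ := h K hK hKU
  exact ⟨C, hs.eventually hC⟩

theorem WLim.comp {U : Set ℂ} {u : ℕ → ℂ → ℂ} {w : ℂ → ℂ} (h : WLim U u w) {s : ℕ → ℕ}
    (hs : Tendsto s atTop atTop) : WLim U (fun n => u (s n)) w := fun K hK hKU ζ hζ =>
  (h K hK hKU ζ hζ).comp hs

/-! ### Pairings -/

/-- the integral of `ζ X` over the support of `ζ` -/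
theorem integral_eq_tsupport (ζ X : ℂ → ℂ) :
    ∫ z, ζ z * X z = ∫ z in tsupport ζ, ζ z * X z := by
  rw [setIntegral_eq_integral_of_forall_compl_eq_zero]
  intro z hz
  rw [image_eq_zero_of_notMem_tsupport hz, zero_mul]

/-- a test function times a locally square integrable function -/
theorem Test.memLp {U : Set ℂ} {ζ X : ℂ → ℂ} (hζ : Test U ζ) (hX : LocL2 U X) :
    MemLp (fun z => ζ z * X z) 2 (volume.restrict (tsupport ζ)) := by
  obtain ⟨B, hB⟩ := hζ.smooth.continuous.bounded_above_of_compact_support hζ.supp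
  have h1 : MemLp ζ ⊤ (volume.restrict (tsupport ζ)) :=
    memLp_top_of_bound hζ.smooth.continuous.aestronglyMeasurable B
      (Filter.Eventually.of_forall hB)
  exact (hX _ hζ.supp hζ.sub).mul' h1

theorem Test.memLp_smooth {U : Set ℂ} (hU : IsOpen U) {ζ X : ℂ → ℂ} (hζ : Test U ζ)
    (hX : ContDiffOn ℝ ∞ X U) :
    MemLp (fun z => ζ z * X z) 2 (volume.restrict (tsupport ζ)) := by
  have h := hζ.mul hU hX
  exact (h.smooth.continuous.memLp_of_hasCompactSupport h.supp).restrict _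

/-- products of two locally square integrable functions -/
theorem Test.integrable_mul2 {U : Set ℂ} {ζ X Y : ℂ → ℂ} (hζ : Test U ζ) (hX : LocL2 U X)
    (hY : LocL2 U Y) : Integrable (fun z => ζ z * (X z * Y z)) := by
  have h : IntegrableOn (fun z => ζ z * (X z * Y z)) (tsupport ζ) := by
    have h1 := (hζ.memLp hX).integrable_mul (hY _ hζ.supp hζ.sub)
    refine h1.congr (Filter.Eventually.of_forall fun z => ?_)
    simp only [Pi.mul_apply]
    ring
  rw [← integrableOn_iff_integrable_of_support_subset (s := tsupport ζ)]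
  · exact h
  · intro z hz
    by_contra h0
    exact hz (by simp only [image_eq_zero_of_notMem_tsupport h0, zero_mul])

/-- weak convergence in a pairing with a square integrable function -/
theorem WLim.pair {U : Set ℂ} {ζ X : ℂ → ℂ} (hζ : Test U ζ)
    (hX : MemLp (fun z => ζ z * X z) 2 (volume.restrict (tsupport ζ)))
    {v : ℕ → ℂ → ℂ} {w : ℂ → ℂ} (h : WLim U v w) :
    Tendsto (fun n => ∫ z, ζ z * (X z * v n z)) atTop (𝓝 (∫ z, ζ z * (X z * w z))) := by
  have h1 := h _ hζ.supp hζ.sub _ hX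
  rw [integral_eq_tsupport ζ fun z => X z * w z]
  have e : ∫ z in tsupport ζ, ζ z * (X z * w z) = ∫ z in tsupport ζ, ζ z * X z * w z :=
    integral_congr_ae (Filter.Eventually.of_forall fun z => by simp only []; ring)
  rw [e]
  refine h1.congr fun n => ?_
  rw [integral_eq_tsupport ζ fun z => X z * v n z]
  exact integral_congr_ae (Filter.Eventually.of_forall fun z => by simp only []; ring)

/-- the differences of two subsequences tend weakly to zero -/
theorem WLim.sub_test {U : Set ℂ} (hU : IsOpen U) {v : ℕ → ℂ → ℂ} (sv : SmoothSeq U v) {w : ℂ → ℂ}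
    (h : WLim U v w) {s t : ℕ → ℕ} (hs : Tendsto s atTop atTop) (ht : Tendsto t atTop atTop)
    {ζ : ℂ → ℂ} (hζ : Test U ζ) :
    Tendsto (fun n => ∫ z, ζ z * (v (s n) z - v (t n) z)) atTop (𝓝 0) := by
  have h0 : Tendsto (fun n => ∫ z, ζ z * v n z) atTop (𝓝 (∫ z, ζ z * w z)) := by
    have hm : MemLp (fun z => ζ z * (fun _ => (1 : ℂ)) z) 2 (volume.restrict (tsupport ζ)) :=
      hζ.memLp_smooth hU contDiffOn_const
    have := WLim.pair hζ hm h
    simpa only [one_mul] using this
  have h1 := (h0.comp hs).sub (h0.comp ht)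
  rw [sub_self] at h1
  refine h1.congr fun n => ?_
  simp only [Function.comp_apply]
  rw [← integral_sub (hζ.integrable_mul hU (sv (s n)).continuousOn)
    (hζ.integrable_mul hU (sv (t n)).continuousOn)]
  exact integral_congr_ae (Filter.Eventually.of_forall fun z => by simp only []; ring)

/-- the pairings of two bounded sequences are bounded -/
theorem pair_bounded {U : Set ℂ} {ζ : ℂ → ℂ} (hζ : Test U ζ) {u v : ℕ → ℂ → ℂ}
    (su : SmoothSeq U u) (sv : SmoothSeq U v) (bu : LBdd 2 U u) (bv : LBdd 2 U v) :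
    ∃ C : ℝ, ∀ᶠ n in atTop, ‖∫ z, ζ z * (u n z * v n z)‖ ≤ C := by
  have hKc : IsCompact (tsupport ζ) := hζ.supp
  obtain ⟨C, hC⟩ := bu _ hKc hζ.sub
  obtain ⟨D, hD⟩ := bv _ hKc hζ.sub
  obtain ⟨B, hB⟩ := hζ.smooth.continuous.bounded_above_of_compact_support hζ.supp
  have hB0 : 0 ≤ B := (norm_nonneg _).trans (hB 0)
  refine ⟨B * (C + D), ?_⟩
  filter_upwards [hC, hD] with n hn hn'
  rw [integral_eq_tsupport ζ fun z => u n z * v n z]
  have hi : IntegrableOn (fun z => ‖u n z‖ ^ 2) (tsupport ζ) := su.intOn hKc hζ.sub 2 n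
  have hj : IntegrableOn (fun z => ‖v n z‖ ^ 2) (tsupport ζ) := sv.intOn hKc hζ.sub 2 n
  calc ‖∫ z in tsupport ζ, ζ z * (u n z * v n z)‖
      ≤ ∫ z in tsupport ζ, ‖ζ z * (u n z * v n z)‖ := norm_integral_le_integral_norm _
    _ ≤ ∫ z in tsupport ζ, B * (‖u n z‖ ^ 2 + ‖v n z‖ ^ 2) := by
        refine integral_mono_of_nonneg (Filter.Eventually.of_forall fun z => norm_nonneg _)
          ((hi.add hj).const_mul B) (Filter.Eventually.of_forall fun z => ?_)
        simp only [norm_mul]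
        refine mul_le_mul (hB z) ?_ (by positivity) hB0
        nlinarith [sq_nonneg (‖u n z‖ - ‖v n z‖), norm_nonneg (u n z), norm_nonneg (v n z)]
    _ = B * ((∫ z in tsupport ζ, ‖u n z‖ ^ 2) + ∫ z in tsupport ζ, ‖v n z‖ ^ 2) := by
        rw [integral_const_mul, integral_add hi hj]
    _ ≤ _ := by gcongr

/-- **the div-curl lemma**, general weak limits -/
theorem div_curl_gen {U : Set ℂ} (hU : IsOpen U) {A B A' B' : ℕ → ℂ → ℂ}
    (sA : SmoothSeq U A) (sB : SmoothSeq U B) (sA' : SmoothSeq U A') (sB' : SmoothSeq U B')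
    (bA : LBdd 2 U A) (bB : LBdd 2 U B) (bA' : LBdd 2 U A') (bB' : LBdd 2 U B')
    (bR : LBdd 2 U (fun n z => dz (A n) z + dzb (B n) z))
    (bR' : LBdd 2 U (fun n z => dz (A' n) z + dzb (B' n) z)) {a b a' b' : ℂ → ℂ}
    (la : LocL2 U a) (lb : LocL2 U b) (la' : LocL2 U a') (lb' : LocL2 U b')
    (wA : WLim U A a) (wB : WLim U B b) (wA' : WLim U A' a') (wB' : WLim U B' b')
    {ζ : ℂ → ℂ} (hζ : Test U ζ) :
    Tendsto (fun n => ∫ w, ζ w * (A n w * B' n w - B n w * A' n w)) atTop
      (𝓝 (∫ w, ζ w * (a w * b' w - b w * a' w))) := by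
  -- the two parts of the form
  have hsplit : ∀ {X Y X' Y' : ℂ → ℂ}, Integrable (fun z => ζ z * (X z * Y' z)) →
      Integrable (fun z => ζ z * (Y z * X' z)) →
      ∫ w, ζ w * (X w * Y' w - Y w * X' w) =
        (∫ w, ζ w * (X w * Y' w)) - ∫ w, ζ w * (Y w * X' w) := by
    intro X Y X' Y' h1 h2
    rw [← integral_sub h1 h2]
    exact integral_congr_ae (Filter.Eventually.of_forall fun z => by simp only []; ring)
  have hint : ∀ {X Y : ℕ → ℂ → ℂ}, SmoothSeq U X → SmoothSeq U Y → ∀ n m,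
      Integrable (fun z => ζ z * (X n z * Y m z)) := fun hX hY n m =>
    hζ.integrable_mul hU ((hX n).mul (hY m)).continuousOn
  refine tendsto_of_subseq_tendsto fun ns hns => ?_
  -- the sequence is bounded
  obtain ⟨C, hC⟩ := pair_bounded hζ sA sB' bA bB'
  obtain ⟨D, hD⟩ := pair_bounded hζ sB sA' bB bA'
  have hbd : ∀ᶠ n in atTop, ∫ w, ζ w * (A (ns n) w * B' (ns n) w - B (ns n) w * A' (ns n) w) ∈
      Metric.closedBall (0 : ℂ) (C + D) := by
    filter_upwards [hns.eventually hC, hns.eventually hD] with n h1 h2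
    rw [mem_closedBall_zero_iff, hsplit (hint sA sB' _ _) (hint sB sA' _ _)]
    exact (norm_sub_le _ _).trans (add_le_add h1 h2)
  obtain ⟨T', -, φ, hφ, hT'⟩ :=
    tendsto_subseq_of_frequently_bounded Metric.isBounded_closedBall hbd.frequently
  refine ⟨φ, ?_⟩
  set T := ∫ w, ζ w * (a w * b' w - b w * a' w) with hT
  set s : ℕ → ℕ := fun n => ns (φ n) with hs_def
  have hs : Tendsto s atTop atTop := hns.comp hφ.tendsto_atTop
  change Tendsto (fun n => ∫ w, ζ w * (A (s n) w * B' (s n) w - B (s n) w * A' (s n) w)) atTop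
    (𝓝 T)
  have hT1 : Tendsto (fun n => ∫ w, ζ w * (A (s n) w * B' (s n) w - B (s n) w * A' (s n) w)) atTop
    (𝓝 T') := hT'
  suffices hTT : T' = T by rwa [hTT] at hT1
  -- the second subsequence
  have hk : ∀ n : ℕ, ∃ k : ℕ, n ≤ k ∧
      dist (∫ z, ζ z * (A (s n) z * B' (s k) z)) (∫ z, ζ z * (A (s n) z * b' z)) <
        1 / ((n : ℝ) + 1) ∧
      dist (∫ z, ζ z * (B (s n) z * A' (s k) z)) (∫ z, ζ z * (B (s n) z * a' z)) <
        1 / ((n : ℝ) + 1) ∧
      dist (∫ z, ζ z * (B' (s n) z * A (s k) z)) (∫ z, ζ z * (B' (s n) z * a z)) <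
        1 / ((n : ℝ) + 1) ∧
      dist (∫ z, ζ z * (A' (s n) z * B (s k) z)) (∫ z, ζ z * (A' (s n) z * b z)) <
        1 / ((n : ℝ) + 1) := by
    intro n
    have hpos : (0 : ℝ) < 1 / ((n : ℝ) + 1) := by positivity
    have e1 := (Metric.tendsto_nhds.1 (WLim.pair hζ (hζ.memLp_smooth hU (sA (s n)))
      (wB'.comp hs))) _ hpos
    have e2 := (Metric.tendsto_nhds.1 (WLim.pair hζ (hζ.memLp_smooth hU (sB (s n)))
      (wA'.comp hs))) _ hpos
    have e3 := (Metric.tendsto_nhds.1 (WLim.pair hζ (hζ.memLp_smooth hU (sB' (s n)))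
      (wA.comp hs))) _ hpos
    have e4 := (Metric.tendsto_nhds.1 (WLim.pair hζ (hζ.memLp_smooth hU (sA' (s n)))
      (wB.comp hs))) _ hpos
    obtain ⟨k, h0, h1, h2, h3, h4⟩ :=
      ((eventually_ge_atTop n).and (e1.and (e2.and (e3.and e4)))).exists
    exact ⟨k, h0, h1, h2, h3, h4⟩
  choose k hkn hk1 hk2 hk3 hk4 using hk
  have hkt : Tendsto k atTop atTop := tendsto_atTop_mono hkn tendsto_id
  have ht : Tendsto (fun n => s (k n)) atTop atTop := hs.comp hkt
  -- the div-curl lemma for the differences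
  have hR : LBdd 2 U (fun n z => dz (fun z => A (s n) z - A (s (k n)) z) z +
      dzb (fun z => B (s n) z - B (s (k n)) z) z) := by
    have sR : SmoothSeq U (fun n z => dz (A n) z + dzb (B n) z) := (sA.dz hU).add (sB.dzb hU)
    refine ((bR.comp hs).sub (sR.comp s) (bR.comp ht) (sR.comp fun n => s (k n))).congr ?_
    intro n z hz
    have dA : ∀ m, DifferentiableAt ℝ (A m) z := fun m =>
      ((sA m).contDiffAt (hU.mem_nhds hz)).differentiableAt (by simp)
    have dB : ∀ m, DifferentiableAt ℝ (B m) z := fun m =>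
      ((sB m).contDiffAt (hU.mem_nhds hz)).differentiableAt (by simp)
    rw [dz_sub (dA _) (dA _), dzb_sub (dB _) (dB _)]
    ring
  have hR' : LBdd 2 U (fun n z => dz (fun z => A' (s n) z - A' (s (k n)) z) z +
      dzb (fun z => B' (s n) z - B' (s (k n)) z) z) := by
    have sR : SmoothSeq U (fun n z => dz (A' n) z + dzb (B' n) z) := (sA'.dz hU).add (sB'.dzb hU)
    refine ((bR'.comp hs).sub (sR.comp s) (bR'.comp ht) (sR.comp fun n => s (k n))).congr ?_
    intro n z hz
    have dA : ∀ m, DifferentiableAt ℝ (A' m) z := fun m =>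
      ((sA' m).contDiffAt (hU.mem_nhds hz)).differentiableAt (by simp)
    have dB : ∀ m, DifferentiableAt ℝ (B' m) z := fun m =>
      ((sB' m).contDiffAt (hU.mem_nhds hz)).differentiableAt (by simp)
    rw [dz_sub (dA _) (dA _), dzb_sub (dB _) (dB _)]
    ring
  have h0 := div_curl_zero hU
    (A := fun n z => A (s n) z - A (s (k n)) z) (B := fun n z => B (s n) z - B (s (k n)) z)
    (A' := fun n z => A' (s n) z - A' (s (k n)) z) (B' := fun n z => B' (s n) z - B' (s (k n)) z)
    ((sA.comp s).sub (sA.comp fun n => s (k n))) ((sB.comp s).sub (sB.comp fun n => s (k n)))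
    ((sA'.comp s).sub (sA'.comp fun n => s (k n))) ((sB'.comp s).sub (sB'.comp fun n => s (k n)))
    ((bA.comp hs).sub (sA.comp s) (bA.comp ht) (sA.comp fun n => s (k n)))
    ((bB.comp hs).sub (sB.comp s) (bB.comp ht) (sB.comp fun n => s (k n)))
    ((bA'.comp hs).sub (sA'.comp s) (bA'.comp ht) (sA'.comp fun n => s (k n)))
    ((bB'.comp hs).sub (sB'.comp s) (bB'.comp ht) (sB'.comp fun n => s (k n)))
    hR hR' (fun η hη => wA.sub_test hU sA hs ht hη) (fun η hη => wB.sub_test hU sB hs ht hη) hζ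
  -- expansion
  have hexp : ∀ n, ∫ w, ζ w * ((A (s n) w - A (s (k n)) w) * (B' (s n) w - B' (s (k n)) w) -
        (B (s n) w - B (s (k n)) w) * (A' (s n) w - A' (s (k n)) w)) =
      (∫ w, ζ w * (A (s n) w * B' (s n) w - B (s n) w * A' (s n) w)) +
      (∫ w, ζ w * (A (s (k n)) w * B' (s (k n)) w - B (s (k n)) w * A' (s (k n)) w)) -
      ((∫ w, ζ w * (A (s n) w * B' (s (k n)) w)) - ∫ w, ζ w * (B (s n) w * A' (s (k n)) w)) -
      ((∫ w, ζ w * (B' (s n) w * A (s (k n)) w)) - ∫ w, ζ w * (A' (s n) w * B (s (k n)) w)) := by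
    intro n
    have i1 : Integrable fun w => ζ w * (A (s n) w * B' (s n) w - B (s n) w * A' (s n) w) :=
      hζ.integrable_mul hU
        (((sA (s n)).mul (sB' (s n))).sub ((sB (s n)).mul (sA' (s n)))).continuousOn
    have i2 : Integrable fun w => ζ w * (A (s (k n)) w * B' (s (k n)) w -
        B (s (k n)) w * A' (s (k n)) w) :=
      hζ.integrable_mul hU (((sA (s (k n))).mul (sB' (s (k n)))).sub
        ((sB (s (k n))).mul (sA' (s (k n))))).continuousOn
    have i3 := hint sA sB' (s n) (s (k n))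
    have i4 := hint sB sA' (s n) (s (k n))
    have i5 := hint sB' sA (s n) (s (k n))
    have i6 := hint sA' sB (s n) (s (k n))
    have i12 : Integrable fun w => ζ w * (A (s n) w * B' (s n) w - B (s n) w * A' (s n) w) +
        ζ w * (A (s (k n)) w * B' (s (k n)) w - B (s (k n)) w * A' (s (k n)) w) := i1.add i2
    have i34 : Integrable fun w => ζ w * (A (s n) w * B' (s (k n)) w) -
        ζ w * (B (s n) w * A' (s (k n)) w) := i3.sub i4
    have i56 : Integrable fun w => ζ w * (B' (s n) w * A (s (k n)) w) -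
        ζ w * (A' (s n) w * B (s (k n)) w) := i5.sub i6
    have i1234 : Integrable fun w => (ζ w * (A (s n) w * B' (s n) w - B (s n) w * A' (s n) w) +
        ζ w * (A (s (k n)) w * B' (s (k n)) w - B (s (k n)) w * A' (s (k n)) w)) -
        (ζ w * (A (s n) w * B' (s (k n)) w) - ζ w * (B (s n) w * A' (s (k n)) w)) := i12.sub i34
    rw [← integral_add i1 i2, ← integral_sub i3 i4, ← integral_sub i5 i6,
      ← integral_sub i12 i34, ← integral_sub i1234 i56]
    exact integral_congr_ae (Filter.Eventually.of_forall fun z => by simp only []; ring)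
  -- limits of the mixed terms
  have hε : Tendsto (fun n : ℕ => 1 / ((n : ℝ) + 1)) atTop (𝓝 0) :=
    tendsto_one_div_add_atTop_nhds_zero_nat
  have mixed : ∀ {f g : ℕ → ℂ} {L : ℂ}, (∀ n, dist (f n) (g n) < 1 / ((n : ℝ) + 1)) →
      Tendsto g atTop (𝓝 L) → Tendsto f atTop (𝓝 L) := by
    intro f g L h1 h2
    have h3 : Tendsto (fun n => dist (g n) (f n)) atTop (𝓝 0) :=
      squeeze_zero (fun n => dist_nonneg) (fun n => by rw [dist_comm]; exact (h1 n).le) hε
    exact (tendsto_iff_of_dist h3).1 h2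
  have swap : ∀ {X : ℕ → ℂ → ℂ} {Y : ℂ → ℂ} {w : ℂ → ℂ}, WLim U X w → LocL2 U Y →
      Tendsto (fun n => ∫ z, ζ z * (X (s n) z * Y z)) atTop (𝓝 (∫ z, ζ z * (w z * Y z))) := by
    intro X Y w h1 h2
    have h3 := WLim.pair hζ (hζ.memLp h2) (h1.comp hs)
    simpa only [mul_comm (Y _)] using h3
  have m1 := mixed hk1 (swap wA lb')
  have m2 := mixed hk2 (swap wB la')
  have m3 := mixed hk3 (swap wB' la)
  have m4 := mixed hk4 (swap wA' lb)
  have hlim := ((hT1.add (hT1.comp hkt)).sub (m1.sub m2)).sub (m3.sub m4)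
  have e1 : (∫ w, ζ w * (a w * b' w)) - ∫ w, ζ w * (b w * a' w) = T :=
    (hsplit (hζ.integrable_mul2 la lb') (hζ.integrable_mul2 lb la')).symm
  have e2 : (∫ w, ζ w * (b' w * a w)) - ∫ w, ζ w * (a' w * b w) = T := by
    rw [← e1]
    simp only [mul_comm (b' _), mul_comm (a' _)]
  rw [e1, e2] at hlim
  have hzero : Tendsto (fun n => ∫ w, ζ w * ((A (s n) w - A (s (k n)) w) *
      (B' (s n) w - B' (s (k n)) w) - (B (s n) w - B (s (k n)) w) *
      (A' (s n) w - A' (s (k n)) w))) atTop (𝓝 (T' + T' - T - T)) := by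
    refine hlim.congr fun n => ?_
    rw [hexp n]
    rfl
  have := tendsto_nhds_unique h0 hzero
  have h2 : (2 : ℂ) * (T' - T) = 0 := by linear_combination -this
  have h3 : T' - T = 0 := by
    rcases mul_eq_zero.1 h2 with h | h
    · norm_num at h
    · exact h
  exact sub_eq_zero.1 h3

end

end QE
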