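import Pool.Agent.Lib_helper67.QE.TestLim
import Pool.Agent.Lib_helper67.QE.DivCurlGen

/-!
Four jets, when the products of two jets converge weakly to functions (helper70).
-/

open Complex MeasureTheory Filter Topology
open scoped ContDiff

namespace QE

noncomputable section

variable {U : Set ℂ} {h : ℕ → ℝ} {a : ℂ → ℂ} {g : ℂ → ℂ} {φ : ℕ → ℂ → ℂ} {u : ℤ → ℂ → ℂ}

/-- the weak limit of the product of two jets -/
def WW (u : ℤ → ℂ → ℂ) (j m : ℤ) (z : ℂ) : ℂ := (-1) ^ j * u (j + m) z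

/-- the Wick sum -/
def GW (u : ℤ → ℂ → ℂ) (j m k l : ℤ) (z : ℂ) : ℂ :=
  WW u j m z * WW u k l z + WW u j k z * WW u m l z + WW u j l z * WW u m k z

/-- the integral of the Wick sum -/
def Gam (u : ℤ → ℂ → ℂ) (ζ : ℂ → ℂ) (j m k l : ℤ) : ℂ := ∫ z, ζ z * GW u j m k l z

/-- the products of two jets have the weak limits `WW u` -/
structure JetLim (U : Set ℂ) (h : ℕ → ℝ) (a : ℂ → ℂ) (φ : ℕ → ℂ → ℂ) (u : ℤ → ℂ → ℂ) : Prop where
  loc : ∀ k, LocL2 U (u k)
  lim : ∀ j m : ℤ, WLim U (fun n z => E h a φ j n z * E h a φ m n z)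
    (fun z => (-1) ^ j * u (j + m) z)

theorem WW_succ (j k : ℤ) (z : ℂ) : WW u (j + 1) k z = - WW u j (k + 1) z := by
  unfold WW
  have : j + 1 + k = j + (k + 1) := by ring
  rw [this, zpow_add_one₀ (by norm_num)]
  ring

theorem WW_loc (hu : ∀ k, LocL2 U (u k)) (j m : ℤ) : LocL2 U (WW u j m) := (hu (j + m)).const_mul _

theorem Test.int_GW (hu : ∀ k, LocL2 U (u k)) {ζ : ℂ → ℂ} (hζ : Test U ζ) (j m k l : ℤ) :
    Integrable (fun z => ζ z * GW u j m k l z) := by
  have h1 := hζ.int_LocL2_mul (WW_loc hu j m) (WW_loc hu k l)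
  have h2 := hζ.int_LocL2_mul (WW_loc hu j k) (WW_loc hu m l)
  have h3 := hζ.int_LocL2_mul (WW_loc hu j l) (WW_loc hu m k)
  refine ((h1.add h2).add h3).congr (Filter.Eventually.of_forall fun z => ?_)
  simp only [Pi.add_apply]
  unfold GW
  ring

theorem Test.congr_ae {ζ f f' : ℂ → ℂ} (hU : IsOpen U) (hζ : Test U ζ)
    (he : ∀ᵐ z ∂((volume : Measure ℂ).restrict U), f z = f' z) :
    ∫ z, ζ z * f z = ∫ z, ζ z * f' z := by
  rw [ae_restrict_iff' hU.measurableSet] at he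
  refine integral_congr_ae ?_
  filter_upwards [he] with z hz
  by_cases hzU : z ∈ U
  · rw [hz hzU]
  · have : ζ z = 0 := image_eq_zero_of_notMem_tsupport fun hh => hzU (hζ.sub hh)
    rw [this, zero_mul, zero_mul]

theorem GW_step (j m k l : ℤ) (z : ℂ) : GW u (j + 1) (m + 1) k l z - GW u j m (k + 1) (l + 1) z
    = WW u (j + 1) (m + 1) z * WW u k l z - WW u j m z * WW u (k + 1) (l + 1) z := by
  unfold GW
  rw [WW_succ j k, WW_succ m l, WW_succ j l, WW_succ m k]
  ring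

theorem GW_ibp (j m k l : ℤ) (z : ℂ) : GW u (j + 1) m k l z + GW u j (m + 1) k l z
    + GW u j m (k + 1) l z + GW u j m k (l + 1) z = 0 := by
  unfold GW
  rw [WW_succ j m, WW_succ j k, WW_succ j l, WW_succ m l, WW_succ m k, WW_succ k l]
  ring

theorem JetLim.sym (hU : IsOpen U) (S : JetLim U h a φ u) :
    ∀ᵐ z ∂((volume : Measure ℂ).restrict U), ∀ j m : ℤ, WW u j m z = WW u m j z := by
  rw [ae_all_iff]
  intro j
  rw [ae_all_iff]
  intro m
  refine WLim.unique hU (S.lim j m) ((S.lim m j).congr fun n z _ => mul_comm _ _)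
    (WW_loc S.loc j m) (WW_loc S.loc m j)

theorem Gam_12 (hU : IsOpen U) (S : JetLim U h a φ u) {ζ : ℂ → ℂ} (hζ : Test U ζ) (j m k l : ℤ) :
    Gam u ζ j m k l = Gam u ζ m j k l := by
  refine hζ.congr_ae hU ?_
  filter_upwards [S.sym hU] with z hz
  unfold GW
  rw [hz j m]
  ring

theorem Gam_23 (hU : IsOpen U) (S : JetLim U h a φ u) {ζ : ℂ → ℂ} (hζ : Test U ζ) (j m k l : ℤ) :
    Gam u ζ j m k l = Gam u ζ j k m l := by
  refine hζ.congr_ae hU ?_
  filter_upwards [S.sym hU] with z hz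
  unfold GW
  rw [hz m k]
  ring

theorem Gam_34 (hU : IsOpen U) (S : JetLim U h a φ u) {ζ : ℂ → ℂ} (hζ : Test U ζ) (j m k l : ℤ) :
    Gam u ζ j m k l = Gam u ζ j m l k := by
  refine hζ.congr_ae hU ?_
  filter_upwards [S.sym hU] with z hz
  unfold GW
  rw [hz k l]
  ring

namespace Setup

variable (S : Setup U g a h φ)

include S

/-- **the currents** -/
theorem hmac_var (L : JetLim U h a φ u) (j m k l : ℤ) {ζ : ℂ → ℂ} (hζ : Test U ζ) :
    Tendsto (fun n =>
      (∫ z, ζ z * (E h a φ (j + 1) n z * E h a φ (m + 1) n z * (E h a φ k n z * E h a φ l n z)))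
      - (∫ z, ζ z * (E h a φ j n z * E h a φ m n z
        * (E h a φ (k + 1) n z * E h a φ (l + 1) n z)))) atTop
      (𝓝 (Gam u ζ (j + 1) (m + 1) k l - Gam u ζ j m (k + 1) (l + 1))) := by
  have hneg : ∀ j m : ℤ, WLim U (fun n z => -(E h a φ j n z * E h a φ m n z))
      (fun z => -(WW u j m z)) := by
    intro j m
    have := (L.lim j m).const_mul (-1)
    have h1 := this.congr (v' := fun n z => -(E h a φ j n z * E h a φ m n z))
      (fun n z _ => by ring)
    exact h1.congr_right fun z _ => by unfold WW; ring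
  have hd := div_curl_gen S.op (A := fun n z => E h a φ j n z * E h a φ m n z)
    (B := fun n z => -(E h a φ (j + 1) n z * E h a φ (m + 1) n z))
    (A' := fun n z => E h a φ k n z * E h a φ l n z)
    (B' := fun n z => -(E h a φ (k + 1) n z * E h a φ (l + 1) n z))
    (S.sm2 j m) (S.sm2 (j + 1) (m + 1)).neg (S.sm2 k l) (S.sm2 (k + 1) (l + 1)).neg
    (S.bd2 j m) (S.bd2 (j + 1) (m + 1)).neg (S.bd2 k l) (S.bd2 (k + 1) (l + 1)).neg
    (S.div_bdd j m) (S.div_bdd k l) (a := WW u j m) (b := fun z => -(WW u (j + 1) (m + 1) z))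
    (a' := WW u k l) (b' := fun z => -(WW u (k + 1) (l + 1) z))
    (WW_loc L.loc _ _) (fun K hK hKU => (WW_loc L.loc _ _ K hK hKU).neg)
    (WW_loc L.loc _ _) (fun K hK hKU => (WW_loc L.loc _ _ K hK hKU).neg)
    (L.lim j m) (hneg (j + 1) (m + 1)) (L.lim k l) (hneg (k + 1) (l + 1)) hζ
  have e1 : Gam u ζ (j + 1) (m + 1) k l - Gam u ζ j m (k + 1) (l + 1)
      = ∫ w, ζ w * (WW u j m w * -(WW u (k + 1) (l + 1) w)
        - -(WW u (j + 1) (m + 1) w) * WW u k l w) := by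
    unfold Gam
    rw [← integral_sub (hζ.int_GW L.loc _ _ _ _) (hζ.int_GW L.loc _ _ _ _)]
    refine MeasureTheory.integral_congr_ae (Filter.Eventually.of_forall fun z => ?_)
    beta_reduce
    rw [← mul_sub, GW_step]
    ring
  rw [e1]
  refine hd.congr fun n => ?_
  rw [← integral_sub (S.int4 hζ n _ _ _ _) (S.int4 hζ n _ _ _ _)]
  refine MeasureTheory.integral_congr_ae (Filter.Eventually.of_forall fun z => ?_)
  beta_reduce; ring

end Setup

/-- the fourth order correlations minus the Wick sums -/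
def YY (h : ℕ → ℝ) (a : ℂ → ℂ) (φ : ℕ → ℂ → ℂ) (u : ℤ → ℂ → ℂ) (ζ : ℂ → ℂ) (n : ℕ)
    (j m k l : ℤ) : ℂ :=
  (∫ z, ζ z * (E h a φ j n z * E h a φ m n z * (E h a φ k n z * E h a φ l n z)))
    - Gam u ζ j m k l

section

variable (S : Setup U g a h φ) (L : JetLim U h a φ u) {ζ : ℂ → ℂ} (hζ : Test U ζ)

include S L hζ

theorem YY_12 (n : ℕ) (j m k l : ℤ) : YY h a φ u ζ n j m k l = YY h a φ u ζ n m j k l := by
  unfold YY
  rw [Gam_12 S.op L hζ]
  congr 1
  refine MeasureTheory.integral_congr_ae (Filter.Eventually.of_forall fun z => ?_)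
  beta_reduce; ring

theorem YY_23 (n : ℕ) (j m k l : ℤ) : YY h a φ u ζ n j m k l = YY h a φ u ζ n j k m l := by
  unfold YY
  rw [Gam_23 S.op L hζ]
  congr 1
  refine MeasureTheory.integral_congr_ae (Filter.Eventually.of_forall fun z => ?_)
  beta_reduce; ring

theorem YY_34 (n : ℕ) (j m k l : ℤ) : YY h a φ u ζ n j m k l = YY h a φ u ζ n j m l k := by
  unfold YY
  rw [Gam_34 S.op L hζ]
  congr 1
  refine MeasureTheory.integral_congr_ae (Filter.Eventually.of_forall fun z => ?_)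
  beta_reduce; ring

theorem YY_mac (j m k l : ℤ) : Tendsto (fun n => YY h a φ u ζ n (j + 1) (m + 1) k l
    - YY h a φ u ζ n j m (k + 1) (l + 1)) atTop
      (𝓝 ((P (j + 1) (m + 1) * P k l - P j m * P (k + 1) (l + 1)) * ((0 : ℝ) : ℂ))) := by
  have h1 := (S.hmac_var L j m k l hζ).sub_const
    (Gam u ζ (j + 1) (m + 1) k l - Gam u ζ j m (k + 1) (l + 1))
  rw [sub_self] at h1
  rw [ofReal_zero, mul_zero]
  refine h1.congr fun n => ?_
  unfold YY
  ring

theorem YY_ibp (j m k l : ℤ) : Tendsto (fun n => YY h a φ u ζ n (j + 1) m k l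
    + YY h a φ u ζ n j (m + 1) k l + YY h a φ u ζ n j m (k + 1) l
    + YY h a φ u ζ n j m k (l + 1)) atTop (𝓝 0) := by
  refine (S.ibp4 j m k l hζ).congr fun n => ?_
  have e : Gam u ζ (j + 1) m k l + Gam u ζ j (m + 1) k l + Gam u ζ j m (k + 1) l
      + Gam u ζ j m k (l + 1) = 0 := by
    unfold Gam
    rw [← integral_add_four (hζ.int_GW L.loc _ _ _ _) (hζ.int_GW L.loc _ _ _ _)
      (hζ.int_GW L.loc _ _ _ _) (hζ.int_GW L.loc _ _ _ _)]
    have : ∀ z, ζ z * GW u (j + 1) m k l z + ζ z * GW u j (m + 1) k l z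
        + ζ z * GW u j m (k + 1) l z + ζ z * GW u j m k (l + 1) z = 0 := by
      intro z
      rw [← mul_add, ← mul_add, ← mul_add, GW_ibp, mul_zero]
    simp [this]
  unfold YY
  linear_combination e

/-- **the four-jet formula** for variable limits: the correlations of total index zero -/
theorem jets_four_var (j m k l : ℤ) (hs : j + m + k + l = 0) :
    Tendsto (fun n => YY h a φ u ζ n j m k l - pat j m k l * YY h a φ u ζ n 0 0 0 0) atTop
      (𝓝 0) := by
  have hibp := YY_ibp S L hζ 0 0 0 (-1)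
  simp only [zero_add, neg_add_cancel] at hibp
  have key := alg_pattern (X := YY h a φ u ζ) (Z := 0) (YY_12 S L hζ) (YY_23 S L hζ)
    (YY_mac S L hζ) hibp j m k l hs
  simpa using key

end

/-! ### the lower bound for the fourth moment -/

/-- the integral of `|u_k|²` -/
def UU (u : ℤ → ℂ → ℂ) (ρ : ℂ → ℝ) (k : ℤ) : ℝ := ∫ z, ρ z * ‖u k z‖ ^ 2

theorem UU_nonneg {ρ : ℂ → ℝ} (hρ : ∀ z, 0 ≤ ρ z) (k : ℤ) : 0 ≤ UU u ρ k :=
  integral_nonneg fun z => mul_nonneg (hρ z) (by positivity)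

theorem Test.tsupport_eq (ρ : ℂ → ℝ) : tsupport (fun z => (ρ z : ℂ)) = tsupport ρ := by
  unfold tsupport
  congr 1
  ext z
  simp

theorem Test.int_real {ρ : ℂ → ℝ} (hρ : Test U (fun z => (ρ z : ℂ))) {f : ℂ → ℝ}
    (hf : IntegrableOn f (tsupport ρ)) : Integrable (fun z => ρ z * f z) := by
  have h1 := hρ.int_of_intOn (f := fun z => (f z : ℂ)) (by
    rw [Test.tsupport_eq]; exact hf.ofReal)
  have h2 := h1.re
  refine h2.congr (Filter.Eventually.of_forall fun z => ?_)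
  simp

theorem Test.int_sq {ρ : ℂ → ℝ} (hρ : Test U (fun z => (ρ z : ℂ))) {v : ℂ → ℂ}
    (hv : LocL2 U v) : Integrable (fun z => ρ z * ‖v z‖ ^ 2) := by
  refine hρ.int_real ?_
  have hs := hρ.sub
  have hc := hρ.supp
  rw [Test.tsupport_eq] at hs
  have hc' : IsCompact (tsupport ρ) := by
    have : IsCompact (tsupport (fun z => (ρ z : ℂ))) := hρ.supp
    rwa [Test.tsupport_eq] at this
  exact MemLp.sqInt (hv _ hc' hs)

/-- the Wick sum for the quadruples of the positivity argument -/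
theorem GW_quads (hc : ∀ᵐ z ∂((volume : Measure ℂ).restrict U),
      ∀ k, u (-k) z = (starRingEnd ℂ) (u k z)) (p q r s : ℤ) (he : p + q = r + s) :
    ∀ᵐ z ∂((volume : Measure ℂ).restrict U), GW u (2 * p) (2 * q) (-(2 * r)) (-(2 * s)) z
      = ((‖u (2 * (p + q)) z‖ ^ 2 + ‖u (2 * (p - r)) z‖ ^ 2 + ‖u (2 * (p - s)) z‖ ^ 2 : ℝ) : ℂ) := by
  filter_upwards [hc] with z hz
  have hW : ∀ x y : ℤ, WW u (2 * x) y z = u (2 * x + y) z := by
    intro x y
    unfold WW
    rw [zpow_mul]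
    norm_num
  have hW' : ∀ x y : ℤ, WW u (-(2 * x)) y z = u (-(2 * x) + y) z := by
    intro x y
    have := hW (-x) y
    rw [mul_neg] at this
    exact this
  have hn : ∀ k, u k z * u (-k) z = ((‖u k z‖ ^ 2 : ℝ) : ℂ) := by
    intro k
    rw [hz, mul_conj, Complex.normSq_eq_norm_sq]
  unfold GW
  rw [hW, hW', hW, hW, hW, hW]
  have e1 : 2 * p + 2 * q = 2 * (p + q) := by ring
  have e2 : -(2 * r) + -(2 * s) = -(2 * (p + q)) := by rw [he]; ring
  have e3 : 2 * p + -(2 * r) = 2 * (p - r) := by ring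
  have e4 : 2 * q + -(2 * s) = -(2 * (p - r)) := by
    have : q = r + s - p := by linarith
    rw [this]; ring
  have e5 : 2 * p + -(2 * s) = 2 * (p - s) := by ring
  have e6 : 2 * q + -(2 * r) = -(2 * (p - s)) := by
    have : q = r + s - p := by linarith
    rw [this]; ring
  rw [e1, e2, e3, e4, e5, e6, hn, hn, hn]
  push_cast
  ring

/-- sums over the quadruples are bounded by sums over intervals -/
theorem sum_quads_le {V : ℤ → ℝ} (hV : ∀ k, 0 ≤ V k) (M : ℕ) :
    ∑ p ∈ quads M, (V (2 * ((p.1.1 : ℤ) + p.1.2)) + V (2 * ((p.1.1 : ℤ) - p.2.1))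
      + V (2 * ((p.1.1 : ℤ) - p.2.2)))
      ≤ 3 * ((M : ℝ) + 1) ^ 2 * ∑ k ∈ Finset.Ioo (-((4 * M + 1 : ℕ) : ℤ)) ((4 * M + 1 : ℕ) : ℤ), V k := by
  set I := Finset.Ioo (-((4 * M + 1 : ℕ) : ℤ)) ((4 * M + 1 : ℕ) : ℤ) with hI
  set R := Finset.range (M + 1) with hR
  set Tot := ∑ k ∈ I, V k with hTot
  -- injective sums
  have hinj : ∀ f : ℕ → ℤ, (∀ x ∈ R, f x ∈ I) → Set.InjOn f R → ∑ x ∈ R, V (f x) ≤ Tot := by
    intro f hf hi
    rw [← Finset.sum_image (f := V) hi]
    refine Finset.sum_le_sum_of_subset_of_nonneg ?_ fun k _ _ => hV k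
    intro k hk
    obtain ⟨x, hx, rfl⟩ := Finset.mem_image.1 hk
    exact hf x hx
  have hmem : ∀ {x : ℕ}, x ∈ R → x ≤ M := by
    intro x hx
    rw [hR, Finset.mem_range] at hx
    omega
  have hIm : ∀ k : ℤ, -(4 * M : ℤ) ≤ k → k ≤ 4 * M → k ∈ I := by
    intro k h1 h2
    rw [hI, Finset.mem_Ioo]
    constructor <;> push_cast <;> linarith
  have card : (R.card : ℝ) = (M : ℝ) + 1 := by rw [hR, Finset.card_range]; push_cast; ring
  -- a quadruple is determined by three of its entries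
  have hproj : ∀ (F : ℕ → ℕ → ℕ → ℝ), (∀ x y z, 0 ≤ F x y z) →
      (∑ p ∈ quads M, F p.1.1 p.1.2 p.2.1 ≤ ∑ x ∈ R, ∑ y ∈ R, ∑ z ∈ R, F x y z) := by
    intro F hF
    have h1 : ∑ p ∈ quads M, F p.1.1 p.1.2 p.2.1
        = ∑ t ∈ (quads M).image (fun p => (p.1.1, p.1.2, p.2.1)), F t.1 t.2.1 t.2.2 := by
      rw [Finset.sum_image]
      rintro ⟨⟨a1, b1⟩, c1, d1⟩ h1 ⟨⟨a2, b2⟩, c2, d2⟩ h2 h3
      simp only [Prod.mk.injEq] at h3
      have k1 := (mem_quads.1 h1).2
      have k2 := (mem_quads.1 h2).2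
      simp only [Prod.mk.injEq]
      simp only at k1 k2
      omega
    rw [h1]
    have h2 : (quads M).image (fun p => (p.1.1, p.1.2, p.2.1)) ⊆ R ×ˢ (R ×ˢ R) := by
      intro t ht
      obtain ⟨p, hp, rfl⟩ := Finset.mem_image.1 ht
      have := (mem_quads.1 hp).1
      simp only [Finset.mem_product, hR, Finset.mem_range]
      omega
    refine (Finset.sum_le_sum_of_subset_of_nonneg h2 fun t _ _ => hF _ _ _).trans (le_of_eq ?_)
    rw [Finset.sum_product]
    refine Finset.sum_congr rfl fun x _ => ?_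
    rw [Finset.sum_product]
  have hproj' : ∀ (F : ℕ → ℕ → ℕ → ℝ), (∀ x y z, 0 ≤ F x y z) →
      (∑ p ∈ quads M, F p.1.1 p.1.2 p.2.2 ≤ ∑ x ∈ R, ∑ y ∈ R, ∑ z ∈ R, F x y z) := by
    intro F hF
    have h1 : ∑ p ∈ quads M, F p.1.1 p.1.2 p.2.2
        = ∑ t ∈ (quads M).image (fun p => (p.1.1, p.1.2, p.2.2)), F t.1 t.2.1 t.2.2 := by
      rw [Finset.sum_image]
      rintro ⟨⟨a1, b1⟩, c1, d1⟩ h1 ⟨⟨a2, b2⟩, c2, d2⟩ h2 h3
      simp only [Prod.mk.injEq] at h3
      have k1 := (mem_quads.1 h1).2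
      have k2 := (mem_quads.1 h2).2
      simp only [Prod.mk.injEq]
      simp only at k1 k2
      omega
    rw [h1]
    have h2 : (quads M).image (fun p => (p.1.1, p.1.2, p.2.2)) ⊆ R ×ˢ (R ×ˢ R) := by
      intro t ht
      obtain ⟨p, hp, rfl⟩ := Finset.mem_image.1 ht
      have := (mem_quads.1 hp).1
      simp only [Finset.mem_product, hR, Finset.mem_range]
      omega
    refine (Finset.sum_le_sum_of_subset_of_nonneg h2 fun t _ _ => hF _ _ _).trans (le_of_eq ?_)
    rw [Finset.sum_product]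
    refine Finset.sum_congr rfl fun x _ => ?_
    rw [Finset.sum_product]
  have b1 : ∑ p ∈ quads M, V (2 * ((p.1.1 : ℤ) + p.1.2)) ≤ ((M : ℝ) + 1) ^ 2 * Tot := by
    refine (hproj (fun x y _ => V (2 * ((x : ℤ) + y))) fun x y z => hV _).trans ?_
    have : ∀ x ∈ R, ∑ y ∈ R, ∑ _z ∈ R, V (2 * ((x : ℤ) + y)) ≤ ((M : ℝ) + 1) * Tot := by
      intro x hx
      rw [Finset.sum_comm]
      have h0 : ∀ z ∈ R, ∑ y ∈ R, V (2 * ((x : ℤ) + y)) ≤ Tot := by
        intro z _
        refine hinj (fun y => 2 * ((x : ℤ) + y)) (fun y hy => ?_) ?_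
        · have h1 := hmem hx
          have h2 := hmem hy
          refine hIm _ ?_ ?_ <;> push_cast <;> omega
        · intro y _ y' _ he
          simp only at he
          omega
      refine (Finset.sum_le_sum h0).trans (le_of_eq ?_)
      rw [Finset.sum_const, nsmul_eq_mul, card]
    refine (Finset.sum_le_sum this).trans (le_of_eq ?_)
    rw [Finset.sum_const, nsmul_eq_mul, card]
    ring
  have b2 : ∑ p ∈ quads M, V (2 * ((p.1.1 : ℤ) - p.2.1)) ≤ ((M : ℝ) + 1) ^ 2 * Tot := by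
    refine (hproj (fun x _ z => V (2 * ((x : ℤ) - z))) fun x y z => hV _).trans ?_
    have : ∀ x ∈ R, ∑ _y ∈ R, ∑ z ∈ R, V (2 * ((x : ℤ) - z)) ≤ ((M : ℝ) + 1) * Tot := by
      intro x hx
      have h0 : ∀ y ∈ R, ∑ z ∈ R, V (2 * ((x : ℤ) - z)) ≤ Tot := by
        intro y _
        refine hinj (fun z => 2 * ((x : ℤ) - z)) (fun z hz => ?_) ?_
        · have h1 := hmem hx
          have h2 := hmem hz
          refine hIm _ ?_ ?_ <;> push_cast <;> omega
        · intro y _ y' _ he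
          simp only at he
          omega
      refine (Finset.sum_le_sum h0).trans (le_of_eq ?_)
      rw [Finset.sum_const, nsmul_eq_mul, card]
    refine (Finset.sum_le_sum this).trans (le_of_eq ?_)
    rw [Finset.sum_const, nsmul_eq_mul, card]
    ring
  have b3 : ∑ p ∈ quads M, V (2 * ((p.1.1 : ℤ) - p.2.2)) ≤ ((M : ℝ) + 1) ^ 2 * Tot := by
    refine (hproj' (fun x _ z => V (2 * ((x : ℤ) - z))) fun x y z => hV _).trans ?_
    have : ∀ x ∈ R, ∑ _y ∈ R, ∑ z ∈ R, V (2 * ((x : ℤ) - z)) ≤ ((M : ℝ) + 1) * Tot := by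
      intro x hx
      have h0 : ∀ y ∈ R, ∑ z ∈ R, V (2 * ((x : ℤ) - z)) ≤ Tot := by
        intro y _
        refine hinj (fun z => 2 * ((x : ℤ) - z)) (fun z hz => ?_) ?_
        · have h1 := hmem hx
          have h2 := hmem hz
          refine hIm _ ?_ ?_ <;> push_cast <;> omega
        · intro y _ y' _ he
          simp only at he
          omega
      refine (Finset.sum_le_sum h0).trans (le_of_eq ?_)
      rw [Finset.sum_const, nsmul_eq_mul, card]
    refine (Finset.sum_le_sum this).trans (le_of_eq ?_)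
    rw [Finset.sum_const, nsmul_eq_mul, card]
    ring
  rw [Finset.sum_add_distrib, Finset.sum_add_distrib]
  linarith

end

end QE
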