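import Pool.Agent.Lib_helper67.QE.Tame

/-!
The semiclassical jets of an eigenfunction along the fibres of the cosphere bundle.
-/

open Complex MeasureTheory Filter Topology
open scoped ContDiff

namespace QE

noncomputable section

variable {U : Set ℂ} {h : ℕ → ℝ}

/-- equality up to `h` times a tame sequence -/
def Near (U : Set ℂ) (h : ℕ → ℝ) (u v : ℕ → ℂ → ℂ) : Prop :=
  ∃ w, Tame U h w ∧ ∀ n, ∀ z ∈ U, u n z = v n z + (h n : ℂ) * w n z

theorem LBdd.zero (p : ℕ) (hp : p ≠ 0) : LBdd p U (fun _ _ => 0) := by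
  intro K _ _
  exact ⟨0, Filter.Eventually.of_forall fun n => by simp [hp]⟩

theorem Tame.zero (hU : IsOpen U) : Tame U h (fun _ _ => 0) := by
  refine ⟨fun n => contDiffOn_const, fun k => ?_⟩
  induction k with
  | zero => exact LBdd.zero 4 (by norm_num)
  | succ k ih =>
    refine ⟨LBdd.zero 4 (by norm_num), ih.congr hU fun n z _ => ?_, ih.congr hU fun n z _ => ?_⟩
    · rw [dz_const, mul_zero]
    · rw [dzb_const, mul_zero]

theorem Near.of_eq (hU : IsOpen U) {u v : ℕ → ℂ → ℂ} (he : ∀ n, ∀ z ∈ U, u n z = v n z) :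
    Near U h u v := ⟨_, Tame.zero hU, fun n z hz => by rw [he n z hz]; simp⟩

theorem Near.trans (hU : IsOpen U) {u v w : ℕ → ℂ → ℂ} (h1 : Near U h u v) (h2 : Near U h v w) :
    Near U h u w := by
  obtain ⟨a, ha, ha'⟩ := h1
  obtain ⟨b, hb, hb'⟩ := h2
  refine ⟨_, ha.add hU hb, fun n z hz => ?_⟩
  rw [ha' n z hz, hb' n z hz]; ring

theorem Near.symm (hU : IsOpen U) {u v : ℕ → ℂ → ℂ} (h1 : Near U h u v) : Near U h v u := by
  obtain ⟨a, ha, ha'⟩ := h1
  refine ⟨_, ha.smul hU (-1), fun n z hz => ?_⟩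
  rw [ha' n z hz]; ring

theorem Near.add (hU : IsOpen U) {u v u' v' : ℕ → ℂ → ℂ} (h1 : Near U h u v)
    (h2 : Near U h u' v') : Near U h (fun n z => u n z + u' n z) (fun n z => v n z + v' n z) := by
  obtain ⟨a, ha, ha'⟩ := h1
  obtain ⟨b, hb, hb'⟩ := h2
  refine ⟨_, ha.add hU hb, fun n z hz => ?_⟩
  beta_reduce
  rw [ha' n z hz, hb' n z hz]; ring

theorem Near.smul (hU : IsOpen U) (c : ℂ) {u v : ℕ → ℂ → ℂ} (h1 : Near U h u v) :
    Near U h (fun n z => c * u n z) (fun n z => c * v n z) := by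
  obtain ⟨a, ha, ha'⟩ := h1
  refine ⟨_, ha.smul hU c, fun n z hz => ?_⟩
  beta_reduce
  rw [ha' n z hz]; ring

theorem Near.conj (hU : IsOpen U) {u v : ℕ → ℂ → ℂ} (h1 : Near U h u v) :
    Near U h (fun n z => (starRingEnd ℂ) (u n z)) (fun n z => (starRingEnd ℂ) (v n z)) := by
  obtain ⟨a, ha, ha'⟩ := h1
  refine ⟨_, ha.conj hU, fun n z hz => ?_⟩
  beta_reduce
  rw [ha' n z hz]; simp

/-- the operator `- 2 i h a ∂` -/
def LL (h : ℕ → ℝ) (a : ℂ → ℂ) (u : ℕ → ℂ → ℂ) : ℕ → ℂ → ℂ :=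
  fun n z => -(2 * I * h n) * a z * dz (u n) z

/-- the operator `- 2 i h a ∂̄` -/
def LLb (h : ℕ → ℝ) (a : ℂ → ℂ) (u : ℕ → ℂ → ℂ) : ℕ → ℂ → ℂ :=
  fun n z => -(2 * I * h n) * a z * dzb (u n) z

variable {a : ℂ → ℂ}

theorem Tame.LL (hU : IsOpen U) (hh0 : Tendsto h atTop (𝓝 0)) (ha : ContDiffOn ℝ ∞ a U)
    {u : ℕ → ℂ → ℂ} (hu : Tame U h u) : Tame U h (QE.LL h a u) := by
  refine (((hu.hdz hU).fn_mul hU hh0 ha).smul hU (-(2 * I))).congr hU fun n z _ => ?_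
  unfold QE.LL; ring

theorem Tame.LLb (hU : IsOpen U) (hh0 : Tendsto h atTop (𝓝 0)) (ha : ContDiffOn ℝ ∞ a U)
    {u : ℕ → ℂ → ℂ} (hu : Tame U h u) : Tame U h (QE.LLb h a u) := by
  refine (((hu.hdzb hU).fn_mul hU hh0 ha).smul hU (-(2 * I))).congr hU fun n z _ => ?_
  unfold QE.LLb; ring

theorem SmoothSeq.LL (hU : IsOpen U) (ha : ContDiffOn ℝ ∞ a U)
    {u : ℕ → ℂ → ℂ} (hu : SmoothSeq U u) : SmoothSeq U (QE.LL h a u) := by
  intro n
  exact (contDiffOn_const.mul ha).mul (contDiffOn_dz hU (hu n))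

theorem SmoothSeq.LLb (hU : IsOpen U) (ha : ContDiffOn ℝ ∞ a U)
    {u : ℕ → ℂ → ℂ} (hu : SmoothSeq U u) : SmoothSeq U (QE.LLb h a u) := by
  intro n
  exact (contDiffOn_const.mul ha).mul (contDiffOn_dzb hU (hu n))

theorem Near.LL (hU : IsOpen U) (hh0 : Tendsto h atTop (𝓝 0)) (ha : ContDiffOn ℝ ∞ a U)
    {u v : ℕ → ℂ → ℂ} (h1 : Near U h u v) (hv : SmoothSeq U v) :
    Near U h (QE.LL h a u) (QE.LL h a v) := by
  obtain ⟨w, hw, hw'⟩ := h1
  refine ⟨_, hw.LL hU hh0 ha, fun n z hz => ?_⟩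
  unfold QE.LL
  rw [dz_congr_on hU (hw' n) hz, dz_add (hv.dAt hU n hz)
    (((hw.smooth.dAt hU n hz).const_mul _)), dz_const_mul _ (hw.smooth.dAt hU n hz)]
  ring

theorem Near.LLb (hU : IsOpen U) (hh0 : Tendsto h atTop (𝓝 0)) (ha : ContDiffOn ℝ ∞ a U)
    {u v : ℕ → ℂ → ℂ} (h1 : Near U h u v) (hv : SmoothSeq U v) :
    Near U h (QE.LLb h a u) (QE.LLb h a v) := by
  obtain ⟨w, hw, hw'⟩ := h1
  refine ⟨_, hw.LLb hU hh0 ha, fun n z hz => ?_⟩
  unfold QE.LLb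
  rw [dzb_congr_on hU (hw' n) hz, dzb_add (hv.dAt hU n hz)
    (((hw.smooth.dAt hU n hz).const_mul _)), dzb_const_mul _ (hw.smooth.dAt hU n hz)]
  ring

/-- the two operators commute up to a tame error -/
theorem LL_comm (hU : IsOpen U) (hh0 : Tendsto h atTop (𝓝 0)) (ha : ContDiffOn ℝ ∞ a U)
    {u : ℕ → ℂ → ℂ} (hu : Tame U h u) :
    Near U h (QE.LLb h a (QE.LL h a u)) (QE.LL h a (QE.LLb h a u)) := by
  have hda : ∀ z ∈ U, DifferentiableAt ℝ a z := fun z hz =>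
    (ha.contDiffAt (hU.mem_nhds hz)).differentiableAt (by simp)
  have haz := contDiffOn_dz hU ha
  have hazb := contDiffOn_dzb hU ha
  have t1 := (((hu.hdz hU).fn_mul hU hh0 (ha.mul hazb)).smul hU (-4))
  have t2 := (((hu.hdzb hU).fn_mul hU hh0 (ha.mul haz)).smul hU 4)
  refine ⟨_, t1.add hU t2, fun n z hz => ?_⟩
  have s1 : DifferentiableAt ℝ (dz (u n)) z := (SmoothSeq.dz hU hu.smooth).dAt hU n hz
  have s2 : DifferentiableAt ℝ (dzb (u n)) z := (SmoothSeq.dzb hU hu.smooth).dAt hU n hz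
  have hI : I ^ 2 = -1 := I_sq
  have e1 : dzb (QE.LL h a u n) z
      = -(2 * I * h n) * (dzb a z * dz (u n) z + a z * dzb (dz (u n)) z) := by
    unfold QE.LL
    have : (fun z => -(2 * I * (h n : ℂ)) * a z * dz (u n) z)
        = fun z => -(2 * I * (h n : ℂ)) * (a z * dz (u n) z) := by funext w; ring
    rw [this, dzb_const_mul _ ((hda z hz).fun_mul s1), dzb_mul (hda z hz) s1]
  have e2 : dz (QE.LLb h a u n) z
      = -(2 * I * h n) * (dz a z * dzb (u n) z + a z * dz (dzb (u n)) z) := by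
    unfold QE.LLb
    have : (fun z => -(2 * I * (h n : ℂ)) * a z * dzb (u n) z)
        = fun z => -(2 * I * (h n : ℂ)) * (a z * dzb (u n) z) := by funext w; ring
    rw [this, dz_const_mul _ ((hda z hz).fun_mul s2), dz_mul (hda z hz) s2]
  have e3 : QE.LLb h a (QE.LL h a u) n z = -(2 * I * h n) * a z * dzb (QE.LL h a u n) z := rfl
  have e4 : QE.LL h a (QE.LLb h a u) n z = -(2 * I * h n) * a z * dz (QE.LLb h a u n) z := rfl
  rw [e3, e4, e1, e2, dz_dzb_comm (((hu.smooth n).contDiffAt (hU.mem_nhds hz)).of_le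
    (WithTop.coe_le_coe.2 le_top))]
  linear_combination (4 * (h n : ℂ) ^ 2 * a z * (dzb a z * dz (u n) z - dz a z * dzb (u n) z)) * hI

/-- the derivatives `(- 2 i h a ∂)^m φ` -/
def jet (h : ℕ → ℝ) (a : ℂ → ℂ) (φ : ℕ → ℂ → ℂ) : ℕ → ℕ → ℂ → ℂ
  | 0 => φ
  | m + 1 => QE.LL h a (jet h a φ m)

/-- the jets for all integers: `E_{-m} = (-1)^m conj E_m` -/
def E (h : ℕ → ℝ) (a : ℂ → ℂ) (φ : ℕ → ℂ → ℂ) : ℤ → ℕ → ℂ → ℂ
  | Int.ofNat m => jet h a φ m
  | Int.negSucc m => fun n z => (-1) ^ (m + 1) * (starRingEnd ℂ) (jet h a φ (m + 1) n z)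

/-- the standing hypotheses -/
structure Setup (U : Set ℂ) (g : ℂ → ℂ) (a : ℂ → ℂ) (h : ℕ → ℝ) (φ : ℕ → ℂ → ℂ) : Prop where
  op : IsOpen U
  hpos : ∀ n, 0 < h n
  hlim : Tendsto h atTop (𝓝 0)
  ha : ContDiffOn ℝ ∞ a U
  hg : ContDiffOn ℝ ∞ g U
  areal : ∀ z ∈ U, (starRingEnd ℂ) (a z) = a z
  ag : ∀ z ∈ U, a z ^ 2 * g z = 1
  tame : Tame U h φ
  real : ∀ n, ∀ z ∈ U, (starRingEnd ℂ) (φ n z) = φ n z
  eig : ∀ n, ∀ z ∈ U, 4 * (h n : ℂ) ^ 2 * dz (dzb (φ n)) z = - g z * φ n z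

namespace Setup

variable {g : ℂ → ℂ} {φ : ℕ → ℂ → ℂ} (S : Setup U g a h φ)

include S

theorem tame_jet (m : ℕ) : Tame U h (jet h a φ m) := by
  induction m with
  | zero => exact S.tame
  | succ m ih => exact ih.LL S.op S.hlim S.ha

theorem tame_E (m : ℤ) : Tame U h (E h a φ m) := by
  cases m with
  | ofNat m => exact S.tame_jet m
  | negSucc m => exact ((S.tame_jet (m + 1)).conj S.op).smul S.op _

theorem E_neg (m : ℕ) : ∀ n, ∀ z ∈ U, E h a φ (-(m : ℤ)) n z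
    = (-1) ^ m * (starRingEnd ℂ) (jet h a φ m n z) := by
  intro n z hz
  cases m with
  | zero =>
    show φ n z = _
    rw [pow_zero, one_mul]
    exact (S.real n z hz).symm
  | succ m => rfl

/-- `L̄ L φ = φ + h (tame)` -/
theorem LLb_jet_one : Near U h (LLb h a (jet h a φ 1)) (jet h a φ 0) := by
  have hda : ∀ z ∈ U, DifferentiableAt ℝ a z := fun z hz =>
    (S.ha.contDiffAt (S.op.mem_nhds hz)).differentiableAt (by simp)
  have hazb := contDiffOn_dzb S.op S.ha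
  refine ⟨_, ((S.tame_jet 1).fn_mul S.op S.hlim hazb).smul S.op (-(2 * I)), fun n z hz => ?_⟩
  have s1 : DifferentiableAt ℝ (dz (φ n)) z := (SmoothSeq.dz S.op S.tame.smooth).dAt S.op n hz
  have e1 : dzb (QE.LL h a φ n) z
      = -(2 * I * h n) * (dzb a z * dz (φ n) z + a z * dzb (dz (φ n)) z) := by
    unfold QE.LL
    have : (fun z => -(2 * I * (h n : ℂ)) * a z * dz (φ n) z)
        = fun z => -(2 * I * (h n : ℂ)) * (a z * dz (φ n) z) := by funext w; ring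
    rw [this, dzb_const_mul _ ((hda z hz).fun_mul s1), dzb_mul (hda z hz) s1]
  have e3 : LLb h a (jet h a φ 1) n z = -(2 * I * h n) * a z * dzb (QE.LL h a φ n) z := rfl
  have e5 : jet h a φ 1 n z = -(2 * I * h n) * a z * dz (φ n) z := rfl
  have e6 : jet h a φ 0 n z = φ n z := rfl
  have hI : I ^ 2 = -1 := I_sq
  have hc : dz (dzb (φ n)) z = dzb (dz (φ n)) z := dz_dzb_comm (((S.tame.smooth n).contDiffAt
    (S.op.mem_nhds hz)).of_le (WithTop.coe_le_coe.2 le_top))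
  have hag := S.ag z hz
  have heig := S.eig n z hz
  rw [hc] at heig
  rw [e3, e1, e5, e6]
  linear_combination (4 * (h n : ℂ) ^ 2 * a z ^ 2 * dzb (dz (φ n)) z) * hI - a z ^ 2 * heig
    + φ n z * hag

/-- `L̄ E_{m+1} = E_m + h (tame)` for `m ≥ 0` -/
theorem LLb_jet (m : ℕ) : Near U h (LLb h a (jet h a φ (m + 1))) (jet h a φ m) := by
  induction m with
  | zero => exact S.LLb_jet_one
  | succ m ih =>
    have h1 : Near U h (LLb h a (jet h a φ (m + 2))) (QE.LL h a (LLb h a (jet h a φ (m + 1)))) :=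
      LL_comm S.op S.hlim S.ha (S.tame_jet (m + 1))
    have h2 : Near U h (QE.LL h a (LLb h a (jet h a φ (m + 1)))) (jet h a φ (m + 1)) :=
      ih.LL S.op S.hlim S.ha (S.tame_jet m).smooth
    exact h1.trans S.op h2

theorem LL_conj {u : ℕ → ℂ → ℂ} (hu : SmoothSeq U u) (c : ℂ) (n : ℕ) (z : ℂ) (hz : z ∈ U) :
    QE.LL h a (fun n z => c * (starRingEnd ℂ) (u n z)) n z
      = - c * (starRingEnd ℂ) (LLb h a u n z) := by
  unfold QE.LL QE.LLb
  rw [dz_const_mul _ (hu.conj.dAt S.op n hz), dz_conj (hu.dAt S.op n hz)]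
  simp only [map_mul, map_neg, map_ofNat, conj_I, conj_ofReal, S.areal z hz]
  ring

theorem LLb_conj {u : ℕ → ℂ → ℂ} (hu : SmoothSeq U u) (c : ℂ) (n : ℕ) (z : ℂ) (hz : z ∈ U) :
    QE.LLb h a (fun n z => c * (starRingEnd ℂ) (u n z)) n z
      = - c * (starRingEnd ℂ) (QE.LL h a u n z) := by
  unfold QE.LL QE.LLb
  rw [dzb_const_mul _ (hu.conj.dAt S.op n hz), dzb_conj (hu.dAt S.op n hz)]
  simp only [map_mul, map_neg, map_ofNat, conj_I, conj_ofReal, S.areal z hz]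
  ring

/-- `L E_m = E_{m+1} + h (tame)` -/
theorem LL_E (m : ℤ) : Near U h (QE.LL h a (E h a φ m)) (E h a φ (m + 1)) := by
  cases m with
  | ofNat m => exact Near.of_eq S.op fun n z _ => rfl
  | negSucc m =>
    have h1 := ((S.LLb_jet m).conj S.op).smul S.op (-(-1) ^ (m + 1))
    have h0 : Near U h (QE.LL h a (E h a φ (Int.negSucc m)))
        (fun n z => -(-1) ^ (m + 1) * (starRingEnd ℂ) (LLb h a (jet h a φ (m + 1)) n z)) :=
      Near.of_eq S.op fun n z hz => S.LL_conj (S.tame_jet (m + 1)).smooth ((-1) ^ (m + 1)) n z hz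
    refine (h0.trans S.op h1).trans S.op (Near.of_eq S.op fun n z hz => ?_)
    have : Int.negSucc m + 1 = -(m : ℤ) := by omega
    rw [this, S.E_neg m n z hz]
    ring

/-- `L̄ E_m = E_{m-1} + h (tame)` -/
theorem LLb_E (m : ℤ) : Near U h (LLb h a (E h a φ m)) (E h a φ (m - 1)) := by
  have hneg : ∀ k : ℕ, ∀ n, ∀ z ∈ U, LLb h a (fun n z => (-1) ^ k * (starRingEnd ℂ)
      (jet h a φ k n z)) n z = E h a φ (-(k : ℤ) - 1) n z := by
    intro k n z hz
    rw [S.LLb_conj (S.tame_jet k).smooth]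
    · have : -(k : ℤ) - 1 = -((k + 1 : ℕ) : ℤ) := by push_cast; ring
      rw [this, S.E_neg (k + 1) n z hz]
      show _ = (-1) ^ (k + 1) * (starRingEnd ℂ) (QE.LL h a (jet h a φ k) n z)
      ring
    · exact hz
  cases m with
  | ofNat m =>
    cases m with
    | zero =>
      have h2 : ∀ n, ∀ z ∈ U, LLb h a (E h a φ (Int.ofNat 0)) n z
          = LLb h a (fun n z => (-1) ^ 0 * (starRingEnd ℂ) (jet h a φ 0 n z)) n z := by
        intro n z hz
        unfold LLb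
        congr 1
        refine dzb_congr_on S.op (fun w hw => ?_) hz
        show φ n w = (-1) ^ 0 * (starRingEnd ℂ) (φ n w)
        rw [S.real n w hw]; ring
      refine Near.of_eq S.op fun n z hz => ?_
      rw [h2 n z hz, hneg 0 n z hz]
      rfl
    | succ m =>
      have : (Int.ofNat (m + 1) - 1 : ℤ) = Int.ofNat m := by simp
      rw [this]
      exact S.LLb_jet m
  | negSucc m =>
    refine Near.of_eq S.op fun n z hz => ?_
    have : Int.negSucc m = -((m + 1 : ℕ) : ℤ) := by omega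
    have h3 := hneg (m + 1) n z hz
    rw [this, ← h3]
    rfl

end Setup

end

end QE
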