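import Mathlib

/-!
Parametric integrals over intervals: smoothness, Fubini for compactly supported functions, and
uniqueness for Fourier coefficients (helper40, module QH_D3).
-/

open MeasureTheory Filter Topology Set
open scoped ContDiff

namespace QE

noncomputable section

section Param

variable {E : Type} [NormedAddCommGroup E] [NormedSpace ℝ E] [ProperSpace E]

/-- derivative of a parametric integral over an interval -/
theorem hasFDerivAt_param {F : Type} [NormedAddCommGroup F] [NormedSpace ℝ F]
    {f : ℝ × E → F} (hf : ContDiff ℝ 1 f) (a b : ℝ) (q₀ : E) :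
    HasFDerivAt (fun q => ∫ t in a..b, f (t, q))
      (∫ t in a..b, (fderiv ℝ f (t, q₀)).comp (ContinuousLinearMap.inr ℝ ℝ E)) q₀ := by
  have hc : Continuous f := hf.continuous
  have hd : Continuous (fderiv ℝ f) := hf.continuous_fderiv one_ne_zero
  have hd2 : Continuous fun p : ℝ × E =>
      (fderiv ℝ f p).comp (ContinuousLinearMap.inr ℝ ℝ E) := hd.clm_comp_const _
  obtain ⟨C, hC⟩ := (isCompact_uIcc (a := a) (b := b) |>.prod
    (isCompact_closedBall q₀ 1)).exists_bound_of_continuousOn hd2.continuousOn
  refine intervalIntegral.hasFDerivAt_integral_of_dominated_of_fderiv_le (s := Metric.ball q₀ 1)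
    (bound := fun _ => C)
    (F' := fun q t => (fderiv ℝ f (t, q)).comp (ContinuousLinearMap.inr ℝ ℝ E))
    (Metric.ball_mem_nhds q₀ one_pos) (Eventually.of_forall fun q => ?_) ?_ ?_ ?_ ?_ ?_
  · exact (hc.comp (continuous_id.prodMk continuous_const)).aestronglyMeasurable
  · exact (hc.comp (continuous_id.prodMk continuous_const)).intervalIntegrable _ _
  · exact (hd2.comp (continuous_id.prodMk continuous_const)).aestronglyMeasurable
  · refine ae_of_all _ fun t ht q hq => ?_
    exact hC (t, q) ⟨uIoc_subset_uIcc ht, Metric.ball_subset_closedBall hq⟩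
  · exact intervalIntegrable_const
  · refine ae_of_all _ fun t _ q _ => ?_
    have h1 : HasFDerivAt f (fderiv ℝ f (t, q)) (t, q) :=
      (hf.differentiable one_ne_zero (t, q)).hasFDerivAt
    exact h1.comp q (hasFDerivAt_prodMk_right t q)

theorem contDiff_param_nat (n : ℕ) : ∀ {F : Type} [NormedAddCommGroup F] [NormedSpace ℝ F]
    {f : ℝ × E → F}, ContDiff ℝ n f → ∀ a b : ℝ, ContDiff ℝ n (fun q => ∫ t in a..b, f (t, q)) := by
  induction n with
  | zero =>
    intro F _ _ f hf a b
    have hc : Continuous f := hf.continuous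
    refine contDiff_zero.2 ?_
    refine intervalIntegral.continuous_parametric_intervalIntegral_of_continuous' ?_ a b
    exact hc.comp (continuous_snd.prodMk continuous_fst)
  | succ n ih =>
    intro F _ _ f hf a b
    have hf1 : ContDiff ℝ 1 f := hf.of_le (by exact_mod_cast Nat.le_add_left 1 n)
    have hcast : ((n + 1 : ℕ) : WithTop ℕ∞) = (n : WithTop ℕ∞) + 1 := by push_cast; rfl
    rw [hcast] at hf ⊢
    rw [contDiff_succ_iff_fderiv]
    refine ⟨fun q => (hasFDerivAt_param hf1 a b q).differentiableAt, ?_, ?_⟩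
    · intro h
      exact absurd h (by simp)
    · have e : fderiv ℝ (fun q => ∫ t in a..b, f (t, q)) = fun q =>
          ∫ t in a..b, (fderiv ℝ f (t, q)).comp (ContinuousLinearMap.inr ℝ ℝ E) := by
        funext q
        exact (hasFDerivAt_param hf1 a b q).fderiv
      rw [e]
      have h2 : ContDiff ℝ n (fderiv ℝ f) := (contDiff_succ_iff_fderiv.1 hf).2.2
      exact ih (f := fun p => (fderiv ℝ f p).comp (ContinuousLinearMap.inr ℝ ℝ E))
        (h2.clm_comp contDiff_const) a b

theorem contDiff_param {F : Type} [NormedAddCommGroup F] [NormedSpace ℝ F]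
    {f : ℝ × E → F} (hf : ContDiff ℝ ∞ f) (a b : ℝ) :
    ContDiff ℝ ∞ (fun q => ∫ t in a..b, f (t, q)) :=
  contDiff_infty.2 fun n => contDiff_param_nat n (contDiff_infty.1 hf n) a b

end Param

section Fubini

variable {G : Type} [TopologicalSpace G] [MeasurableSpace G] [BorelSpace G]
  [SecondCountableTopology G] [T2Space G] [LocallyCompactSpace G]

/-- Fubini for functions which vanish outside of a compact set -/
theorem integral_swap {μ : Measure G} [IsFiniteMeasureOnCompacts μ] {C : Set G} (hC : IsCompact C)
    {f : ℝ → G → ℂ} (hf : Continuous (Function.uncurry f)) {a b : ℝ}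
    (h0 : ∀ r ∈ uIcc a b, ∀ g ∉ C, f r g = 0) :
    ∫ g, (∫ r in a..b, f r g) ∂μ = ∫ r in a..b, (∫ g, f r g ∂μ) := by
  have hμC : μ C < ⊤ := hC.measure_lt_top
  have h1 : ∀ r ∈ uIcc a b, ∫ g, f r g ∂μ = ∫ g in C, f r g ∂μ := fun r hr =>
    (setIntegral_eq_integral_of_forall_compl_eq_zero fun g hg => h0 r hr g hg).symm
  have h2 : ∫ g, (∫ r in a..b, f r g) ∂μ = ∫ g in C, (∫ r in a..b, f r g) ∂μ := by
    refine (setIntegral_eq_integral_of_forall_compl_eq_zero fun g hg => ?_).symm
    rw [intervalIntegral.integral_congr (g := fun _ => (0 : ℂ)) fun r hr => h0 r hr g hg]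
    simp
  have h3 : ∫ r in a..b, (∫ g, f r g ∂μ) = ∫ r in a..b, (∫ g in C, f r g ∂μ) :=
    intervalIntegral.integral_congr h1
  rw [h2, h3]
  have : IsFiniteMeasure (μ.restrict C) := ⟨by simpa using hμC⟩
  obtain ⟨B, hB⟩ := (isCompact_uIcc (a := a) (b := b) |>.prod hC).exists_bound_of_continuousOn
    hf.continuousOn
  have hint : Integrable (Function.uncurry fun g r => f r g)
      ((μ.restrict C).prod (volume.restrict (uIoc a b))) := by
    have : IsFiniteMeasure ((volume : Measure ℝ).restrict (uIoc a b)) :=
      ⟨by simp [uIoc]⟩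
    have hm : AEStronglyMeasurable (Function.uncurry fun g r => f r g)
        ((μ.restrict C).prod (volume.restrict (uIoc a b))) :=
      (hf.comp (continuous_snd.prodMk continuous_fst)).aestronglyMeasurable
    refine Integrable.of_bound hm B ?_
    rw [Measure.prod_restrict]
    refine (ae_restrict_iff' (hC.measurableSet.prod measurableSet_uIoc)).2
      (Eventually.of_forall fun p hp => ?_)
    exact hB (p.2, p.1) ⟨uIoc_subset_uIcc hp.2, hp.1⟩
  simp only [intervalIntegral.intervalIntegral_eq_integral_uIoc]
  rw [integral_smul]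
  congr 1
  exact integral_integral_swap hint

end Fubini

/-- a continuous periodic function with vanishing Fourier coefficients is zero -/
theorem fourier_unique {τ : ℝ → ℂ} (hc : Continuous τ) (hp : Function.Periodic τ (2 * Real.pi))
    (h : ∀ k : ℤ, ∫ t in (0 : ℝ)..(2 * Real.pi), Complex.exp (-(k : ℂ) * t * Complex.I) * τ t = 0)
    (t : ℝ) : τ t = 0 := by
  have : Fact (0 < 2 * Real.pi) := ⟨by positivity⟩
  set T : AddCircle (2 * Real.pi) → ℂ := hp.lift with hT
  have hTc : Continuous T := by
    exact continuous_coinduced_dom.mpr hc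
  set F : C(AddCircle (2 * Real.pi), ℂ) := ⟨T, hTc⟩ with hF
  have h0 : ∀ k : ℤ, fourierCoeff F k = 0 := by
    intro k
    rw [fourierCoeff_eq_intervalIntegral _ k 0, zero_add]
    have e : ∀ x : ℝ, fourier (-k) (x : AddCircle (2 * Real.pi)) • F x =
        Complex.exp (-(k : ℂ) * x * Complex.I) * τ x := by
      intro x
      rw [fourier_coe_apply, smul_eq_mul]
      congr 2
      push_cast
      have : (Real.pi : ℂ) ≠ 0 := by exact_mod_cast Real.pi_ne_zero
      field_simp
    simp only [e, h k, smul_zero]
  have hs : Summable (fourierCoeff F) := by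
    have : fourierCoeff F = fun _ => 0 := funext h0
    rw [this]; exact summable_zero
  have h1 := hasSum_fourier_series_of_summable hs
  have h2 : HasSum (fun i => fourierCoeff F i • (fourier i : C(AddCircle (2 * Real.pi), ℂ)))
      0 := by
    have : (fun i => fourierCoeff F i • (fourier i : C(AddCircle (2 * Real.pi), ℂ))) =
        fun _ => 0 := by
      funext i; rw [h0 i, zero_smul]
    rw [this]; exact hasSum_zero
  have h3 : F = 0 := h1.unique h2
  have h4 : F (t : AddCircle (2 * Real.pi)) = 0 := by rw [h3]; rfl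
  exact h4

end

end QE
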