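import Pool.Agent.Lib_helper67.QE.Alg

/-!
Algebra and limits, second part (helper70): if in addition the kurtosis tends to the Gaussian
value, then every fourth order correlation of the jets tends to its Gaussian value.
-/

namespace QE

open Filter Topology

theorem Asy.symm {f g : ℕ → ℂ} (h : Asy f g) : Asy g f := by
  unfold Asy at *
  have := h.neg
  rw [neg_zero] at this
  exact this.congr fun n => by ring

theorem Asy.tendsto_zero {f g : ℕ → ℂ} (h : Asy f g) (hg : Tendsto g atTop (𝓝 0)) :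
    Tendsto f atTop (𝓝 0) := by
  unfold Asy at h
  have := h.add hg
  rw [add_zero] at this
  exact this.congr fun n => by ring

section

variable {X : ℕ → ℤ → ℤ → ℤ → ℤ → ℂ} {Z : ℝ}

theorem Err_shift1 (s2 : ∀ n a b c d, X n a b c d = X n a c b d)
    (hmac : ∀ j m k l : ℤ,
      Tendsto (fun n => X n (j + 1) (m + 1) k l - X n j m (k + 1) (l + 1)) atTop
        (𝓝 ((P (j + 1) (m + 1) * P k l - P j m * P (k + 1) (l + 1)) * (Z : ℂ))))
    (a b c d k : ℤ) : Asy (Err X Z (a + 2 * k) b c d) (Err X Z a b c (d + 2 * k)) := by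
  obtain ⟨t, rfl | rfl⟩ := Int.eq_nat_or_neg k
  · exact Err_move_nat s2 hmac b c t a d
  · have h := Err_move_nat s2 hmac b c t (a + 2 * (-(t : ℤ))) (d + 2 * (-(t : ℤ)))
    have e1 : a + 2 * (-(t : ℤ)) + 2 * t = a := by ring
    have e2 : d + 2 * (-(t : ℤ)) + 2 * t = d := by ring
    rw [e1, e2] at h
    exact h.symm

theorem Err_shift2 (s1 : ∀ n a b c d, X n a b c d = X n b a c d)
    (s2 : ∀ n a b c d, X n a b c d = X n a c b d)
    (hmac : ∀ j m k l : ℤ,
      Tendsto (fun n => X n (j + 1) (m + 1) k l - X n j m (k + 1) (l + 1)) atTop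
        (𝓝 ((P (j + 1) (m + 1) * P k l - P j m * P (k + 1) (l + 1)) * (Z : ℂ))))
    (a b c d k : ℤ) : Asy (Err X Z a (b + 2 * k) c d) (Err X Z a b c (d + 2 * k)) := by
  rw [Err_12 s1 a (b + 2 * k), Err_12 s1 a b]
  exact Err_shift1 s2 hmac b a c d k

theorem Err_shift3 (s1 : ∀ n a b c d, X n a b c d = X n b a c d)
    (s2 : ∀ n a b c d, X n a b c d = X n a c b d)
    (hmac : ∀ j m k l : ℤ,
      Tendsto (fun n => X n (j + 1) (m + 1) k l - X n j m (k + 1) (l + 1)) atTop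
        (𝓝 ((P (j + 1) (m + 1) * P k l - P j m * P (k + 1) (l + 1)) * (Z : ℂ))))
    (a b c d k : ℤ) : Asy (Err X Z a b (c + 2 * k) d) (Err X Z a b c (d + 2 * k)) := by
  rw [Err_23 s2 a b (c + 2 * k), Err_23 s2 a b c]
  exact Err_shift2 s1 s2 hmac a c b d k

/-- if the kurtosis tends to three, the errors of total index zero tend to zero -/
theorem Err_sum_zero (s1 : ∀ n a b c d, X n a b c d = X n b a c d)
    (s2 : ∀ n a b c d, X n a b c d = X n a c b d)
    (s3 : ∀ n a b c d, X n a b c d = X n a b d c)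
    (hmac : ∀ j m k l : ℤ,
      Tendsto (fun n => X n (j + 1) (m + 1) k l - X n j m (k + 1) (l + 1)) atTop
        (𝓝 ((P (j + 1) (m + 1) * P k l - P j m * P (k + 1) (l + 1)) * (Z : ℂ))))
    (hibp : Tendsto (fun n => X n 1 0 0 (-1) + X n 0 1 0 (-1) + X n 0 0 1 (-1) + X n 0 0 0 0)
      atTop (𝓝 0))
    (h0 : Tendsto (Err X Z 0 0 0 0) atTop (𝓝 0)) (a b c d : ℤ) (hs : a + b + c + d = 0) :
    Tendsto (Err X Z a b c d) atTop (𝓝 0) := by
  -- the mixed class
  have hG1 : G 1 0 0 (-1) = -1 := by simp [G, P]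
  have hG0 : G 0 0 0 0 = 3 := by simp [G, P]; norm_num
  have hm : Tendsto (Err X Z 1 0 0 (-1)) atTop (𝓝 0) := by
    have h1 := (hibp.sub h0).const_mul (1 / 3 : ℂ)
    rw [sub_zero, mul_zero] at h1
    refine h1.congr fun n => ?_
    have e1 : X n 0 1 0 (-1) = X n 1 0 0 (-1) := s1 n 0 1 0 (-1)
    have e2 : X n 0 0 1 (-1) = X n 1 0 0 (-1) := by rw [s2 n 0 0 1 (-1), s1 n 0 1 0 (-1)]
    unfold Err
    rw [hG1, hG0, e1, e2]
    ring
  have hm2 : Tendsto (Err X Z 0 1 0 (-1)) atTop (𝓝 0) := by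
    rw [Err_12 s1]; exact hm
  have hm3 : Tendsto (Err X Z 0 0 1 (-1)) atTop (𝓝 0) := by
    rw [Err_23 s2]; exact hm2
  have hn1 : Tendsto (Err X Z 1 1 0 (-2)) atTop (𝓝 0) := by
    have := Err_step (Z := Z) hmac 0 0 0 (-2)
    simp only [zero_add] at this
    exact this.tendsto_zero hm3
  have hn2 : Tendsto (Err X Z 1 0 1 (-2)) atTop (𝓝 0) := by
    rw [Err_23 s2]; exact hn1
  have hn3 : Tendsto (Err X Z 0 1 1 (-2)) atTop (𝓝 0) := by
    rw [Err_12 s1]; exact hn2
  have hq : Tendsto (Err X Z 1 1 1 (-3)) atTop (𝓝 0) := by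
    have h1 := Err_step (Z := Z) hmac 0 0 1 (-3)
    have h2 := Err_shift3 s1 s2 hmac 0 0 0 (-2) 1
    simp only [zero_add] at h1
    have e : (-3 : ℤ) + 1 = -2 := by norm_num
    have e' : (1 : ℤ) + 1 = 0 + 2 * 1 := by norm_num
    rw [e, e'] at h1
    have e3 : (-2 : ℤ) + 2 * 1 = 0 := by norm_num
    rw [e3] at h2
    exact (h1.trans h2).tendsto_zero h0
  -- normal form
  obtain ⟨α, k1, ha, hα⟩ : ∃ α k : ℤ, a = α + 2 * k ∧ (α = 0 ∨ α = 1) :=
    ⟨a % 2, a / 2, by omega, by omega⟩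
  obtain ⟨β, k2, hb, hβ⟩ : ∃ α k : ℤ, b = α + 2 * k ∧ (α = 0 ∨ α = 1) :=
    ⟨b % 2, b / 2, by omega, by omega⟩
  obtain ⟨γ, k3, hc, hγ⟩ : ∃ α k : ℤ, c = α + 2 * k ∧ (α = 0 ∨ α = 1) :=
    ⟨c % 2, c / 2, by omega, by omega⟩
  have h1 := Err_shift1 s2 hmac α b c d k1
  have h2 := Err_shift2 s1 s2 hmac α β c (d + 2 * k1) k2
  have h3 := Err_shift3 s1 s2 hmac α β γ (d + 2 * k1 + 2 * k2) k3
  rw [← ha] at h1
  rw [← hb] at h2
  rw [← hc] at h3
  have hall := (h1.trans h2).trans h3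
  have ed : d + 2 * k1 + 2 * k2 + 2 * k3 = -(α + β + γ) := by omega
  rw [ed] at hall
  refine hall.tendsto_zero ?_
  rcases hα with rfl | rfl <;> rcases hβ with rfl | rfl <;> rcases hγ with rfl | rfl <;>
    norm_num <;> assumption

end

theorem norm_P_le (j m : ℤ) : ‖P j m‖ ≤ if j + m = 0 then 1 else 0 := by
  unfold P
  split_ifs
  · rw [norm_zpow]; norm_num
  · simp

/-- the Wick terms of a block sum -/
theorem norm_Gsum_le (N : ℕ) (a b c d : ℤ) (hab : a + b ≠ 0) :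
    ‖∑ t ∈ Finset.range N, ∑ u ∈ Finset.range N,
      G (a + 2 * t) (b - 2 * t) (c - 2 * u) (d + 2 * u)‖ ≤ 2 * N := by
  have hG : ∀ t u : ℕ, ‖G (a + 2 * t) (b - 2 * t) (c - 2 * u) (d + 2 * u)‖ ≤
      (if a + 2 * t + (c - 2 * u) = 0 then (1 : ℝ) else 0)
        + (if a + 2 * t + (d + 2 * u) = 0 then (1 : ℝ) else 0) := by
    intro t u
    have h0 : P (a + 2 * t) (b - 2 * t) = 0 := by
      unfold P
      rw [if_neg]
      omega
    unfold G
    rw [h0, zero_mul, zero_add]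
    refine (norm_add_le _ _).trans (add_le_add ?_ ?_)
    · rw [norm_mul]
      have h1 := norm_P_le (a + 2 * t) (c - 2 * u)
      have h2 : ‖P (b - 2 * t) (d + 2 * u)‖ ≤ 1 := (norm_P_le _ _).trans (by split_ifs <;> norm_num)
      calc ‖P (a + 2 * t) (c - 2 * u)‖ * ‖P (b - 2 * t) (d + 2 * u)‖
          ≤ ‖P (a + 2 * t) (c - 2 * u)‖ * 1 := by gcongr
        _ ≤ _ := by rw [mul_one]; exact h1
    · rw [norm_mul]
      have h1 := norm_P_le (a + 2 * t) (d + 2 * u)
      have h2 : ‖P (b - 2 * t) (c - 2 * u)‖ ≤ 1 := (norm_P_le _ _).trans (by split_ifs <;> norm_num)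
      calc ‖P (a + 2 * t) (d + 2 * u)‖ * ‖P (b - 2 * t) (c - 2 * u)‖
          ≤ ‖P (a + 2 * t) (d + 2 * u)‖ * 1 := by gcongr
        _ ≤ _ := by rw [mul_one]; exact h1
  have hone : ∀ (p : ℕ → Prop) [DecidablePred p], (∀ u v, p u → p v → u = v) →
      ∑ u ∈ Finset.range N, (if p u then (1 : ℝ) else 0) ≤ 1 := by
    intro p _ hp
    rw [← Finset.sum_filter, Finset.sum_const, nsmul_eq_mul, mul_one]
    have : ((Finset.range N).filter p).card ≤ 1 := by
      apply Finset.card_le_one.mpr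
      intro x hx y hy
      exact hp x y (Finset.mem_filter.mp hx).2 (Finset.mem_filter.mp hy).2
    exact_mod_cast this
  calc ‖∑ t ∈ Finset.range N, ∑ u ∈ Finset.range N,
        G (a + 2 * t) (b - 2 * t) (c - 2 * u) (d + 2 * u)‖
      ≤ ∑ t ∈ Finset.range N, ∑ u ∈ Finset.range N,
        ‖G (a + 2 * t) (b - 2 * t) (c - 2 * u) (d + 2 * u)‖ :=
        (norm_sum_le _ _).trans (Finset.sum_le_sum fun t _ => norm_sum_le _ _)
    _ ≤ ∑ t ∈ Finset.range N, ∑ u ∈ Finset.range N,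
        ((if a + 2 * (t : ℤ) + (c - 2 * u) = 0 then (1 : ℝ) else 0)
        + (if a + 2 * (t : ℤ) + (d + 2 * u) = 0 then (1 : ℝ) else 0)) :=
        Finset.sum_le_sum fun t _ => Finset.sum_le_sum fun u _ => hG t u
    _ ≤ ∑ _t ∈ Finset.range N, (2 : ℝ) := by
        refine Finset.sum_le_sum fun t _ => ?_
        rw [Finset.sum_add_distrib]
        have h1 := hone (fun u : ℕ => a + 2 * (t : ℤ) + (c - 2 * u) = 0)
          (fun u v hu hv => by omega)
        have h2 := hone (fun u : ℕ => a + 2 * (t : ℤ) + (d + 2 * u) = 0)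
          (fun u v hu hv => by omega)
        linarith
    _ = 2 * N := by rw [Finset.sum_const, Finset.card_range, nsmul_eq_mul]; ring

/-- the block sums of the fourth order correlations -/
noncomputable def blk (X : ℕ → ℤ → ℤ → ℤ → ℤ → ℂ) (N n : ℕ) (a b c d : ℤ) : ℂ :=
  ∑ t ∈ Finset.range N, ∑ u ∈ Finset.range N,
    X n (a + 2 * t) (b - 2 * t) (c - 2 * u) (d + 2 * u)

/-- **kurtosis three implies Gaussian fourth order correlations** (algebraic part) -/
theorem alg_full (X : ℕ → ℤ → ℤ → ℤ → ℤ → ℂ) (Z : ℝ) (hZ : 0 ≤ Z)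
    (s1 : ∀ n a b c d, X n a b c d = X n b a c d)
    (s2 : ∀ n a b c d, X n a b c d = X n a c b d)
    (s3 : ∀ n a b c d, X n a b c d = X n a b d c)
    (hmac : ∀ j m k l : ℤ,
      Tendsto (fun n => X n (j + 1) (m + 1) k l - X n j m (k + 1) (l + 1)) atTop
        (𝓝 ((P (j + 1) (m + 1) * P k l - P j m * P (k + 1) (l + 1)) * (Z : ℂ))))
    (hibp : Tendsto (fun n => X n 1 0 0 (-1) + X n 0 1 0 (-1) + X n 0 0 1 (-1) + X n 0 0 0 0)
      atTop (𝓝 0))
    (hcs : ∀ (N n : ℕ) (a b c d : ℤ), ‖blk X N n a b c d‖ ≤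
      (((-1 : ℂ) ^ (a + b) * blk X N n a b (-a) (-b)).re
        + ((-1 : ℂ) ^ (c + d) * blk X N n (-c) (-d) c d).re) / 2)
    (h3 : Tendsto (fun n => X n 0 0 0 0) atTop (𝓝 (3 * Z))) (a b c d : ℤ) :
    Tendsto (fun n => X n a b c d) atTop (𝓝 (G a b c d * Z)) := by
  have hG0 : G 0 0 0 0 = 3 := by simp [G, P]; norm_num
  have h0 : Tendsto (Err X Z 0 0 0 0) atTop (𝓝 0) := by
    have := h3.sub_const (3 * (Z : ℂ))
    rw [sub_self] at this
    refine this.congr fun n => ?_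
    unfold Err; rw [hG0]
  have hsz := Err_sum_zero (Z := Z) s1 s2 s3 hmac hibp h0
  -- the main claim for a good splitting
  have main : ∀ a b c d : ℤ, a + b ≠ 0 → c + d ≠ 0 → Tendsto (Err X Z a b c d) atTop (𝓝 0) := by
    intro a b c d hab hcd
    rw [tendsto_zero_iff_norm_tendsto_zero, Metric.tendsto_atTop]
    intro ε hε
    obtain ⟨N, hN1, hN⟩ : ∃ N : ℕ, 1 ≤ N ∧ 4 * Z < N * (ε / 2) := by
      obtain ⟨N, hN⟩ := exists_nat_gt (4 * Z / (ε / 2))
      refine ⟨N + 1, by omega, ?_⟩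
      rw [div_lt_iff₀ (by positivity)] at hN
      push_cast
      nlinarith
    have hNr : (1 : ℝ) ≤ N := by exact_mod_cast hN1
    -- the error in a block
    have hblk : ∀ a b c d : ℤ, ∀ n, blk X N n a b c d =
        (∑ t ∈ Finset.range N, ∑ u ∈ Finset.range N,
          Err X Z (a + 2 * t) (b - 2 * t) (c - 2 * u) (d + 2 * u) n)
        + (∑ t ∈ Finset.range N, ∑ u ∈ Finset.range N,
          G (a + 2 * t) (b - 2 * t) (c - 2 * u) (d + 2 * u)) * (Z : ℂ) := by
      intro a b c d n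
      unfold blk Err
      rw [Finset.sum_mul, ← Finset.sum_add_distrib]
      refine Finset.sum_congr rfl fun t _ => ?_
      rw [Finset.sum_mul, ← Finset.sum_add_distrib]
      refine Finset.sum_congr rfl fun u _ => ?_
      ring
    have hzero : ∀ a b : ℤ, Tendsto (fun n => ∑ t ∈ Finset.range N, ∑ u ∈ Finset.range N,
          Err X Z (a + 2 * t) (b - 2 * t) (-a - 2 * u) (-b + 2 * u) n) atTop (𝓝 0) := by
      intro a b
      have h0 : (0 : ℂ) = ∑ t ∈ Finset.range N, ∑ u ∈ Finset.range N, (0 : ℂ) := by simp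
      rw [h0]
      refine tendsto_finsetSum _ fun t _ => tendsto_finsetSum _ fun u _ => ?_
      exact hsz _ _ _ _ (by ring)
    have hzero2 : ∀ c d : ℤ, Tendsto (fun n => ∑ t ∈ Finset.range N, ∑ u ∈ Finset.range N,
          Err X Z (-c + 2 * t) (-d - 2 * t) (c - 2 * u) (d + 2 * u) n) atTop (𝓝 0) := by
      intro c d
      have h0 : (0 : ℂ) = ∑ t ∈ Finset.range N, ∑ u ∈ Finset.range N, (0 : ℂ) := by simp
      rw [h0]
      refine tendsto_finsetSum _ fun t _ => tendsto_finsetSum _ fun u _ => ?_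
      exact hsz _ _ _ _ (by ring)
    have hdiff : Tendsto (fun n => ∑ t ∈ Finset.range N, ∑ u ∈ Finset.range N,
          (Err X Z (a + 2 * t) (b - 2 * t) (c - 2 * u) (d + 2 * u) n - Err X Z a b c d n))
          atTop (𝓝 0) := by
      have h0 : (0 : ℂ) = ∑ t ∈ Finset.range N, ∑ u ∈ Finset.range N, (0 : ℂ) := by simp
      rw [h0]
      refine tendsto_finsetSum _ fun t _ => tendsto_finsetSum _ fun u _ => ?_
      have h1 := Err_shift1 s2 hmac a (b - 2 * t) (c - 2 * u) (d + 2 * u) t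
      have h2 := Err_shift2 s1 s2 hmac a b (c - 2 * u) (d + 2 * u + 2 * t) (-t)
      have h3 := Err_shift3 s1 s2 hmac a b c (d + 2 * u) (-u)
      have e1 : b + 2 * (-(t : ℤ)) = b - 2 * t := by ring
      have e2 : d + 2 * (u : ℤ) + 2 * t + 2 * (-(t : ℤ)) = d + 2 * u := by ring
      have e3 : c + 2 * (-(u : ℤ)) = c - 2 * u := by ring
      have e4 : d + 2 * (u : ℤ) + 2 * (-(u : ℤ)) = d := by ring
      rw [e1, e2] at h2
      rw [e3, e4] at h3
      exact (h1.trans h2).trans h3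
    have ev1 := (Metric.tendsto_nhds.mp (hzero a b)) (ε / 8) (by positivity)
    have ev2 := (Metric.tendsto_nhds.mp (hzero2 c d)) (ε / 8) (by positivity)
    have ev3 := (Metric.tendsto_nhds.mp hdiff) (ε / 8) (by positivity)
    have hev : ∀ᶠ n in atTop, ‖Err X Z a b c d n‖ < ε := by
      filter_upwards [ev1, ev2, ev3] with n h1 h2 h3'
      rw [dist_zero_right] at h1 h2 h3'
      -- names
      set S0 := ∑ t ∈ Finset.range N, ∑ u ∈ Finset.range N,
        Err X Z (a + 2 * t) (b - 2 * t) (c - 2 * u) (d + 2 * u) n with hS0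
      have hsplit : ∑ t ∈ Finset.range N, ∑ u ∈ Finset.range N,
          (Err X Z (a + 2 * t) (b - 2 * t) (c - 2 * u) (d + 2 * u) n - Err X Z a b c d n)
          = S0 - (N : ℂ) ^ 2 * Err X Z a b c d n := by
        rw [hS0]
        simp only [Finset.sum_sub_distrib, Finset.sum_const, Finset.card_range, nsmul_eq_mul]
        ring
      rw [hsplit] at h3'
      have k1 : ((-1 : ℂ) ^ (a + b) * blk X N n a b (-a) (-b)).re ≤ ε / 8 + 2 * N * Z := by
        refine (Complex.re_le_norm _).trans ?_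
        rw [norm_mul, norm_zpow]
        simp only [norm_neg, norm_one, one_zpow, one_mul]
        rw [hblk]
        refine (norm_add_le _ _).trans (add_le_add h1.le ?_)
        rw [norm_mul, Complex.norm_real, Real.norm_of_nonneg hZ]
        exact mul_le_mul_of_nonneg_right (norm_Gsum_le N a b (-a) (-b) hab) hZ
      have k2 : ((-1 : ℂ) ^ (c + d) * blk X N n (-c) (-d) c d).re ≤ ε / 8 + 2 * N * Z := by
        refine (Complex.re_le_norm _).trans ?_
        rw [norm_mul, norm_zpow]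
        simp only [norm_neg, norm_one, one_zpow, one_mul]
        rw [hblk]
        refine (norm_add_le _ _).trans (add_le_add h2.le ?_)
        rw [norm_mul, Complex.norm_real, Real.norm_of_nonneg hZ]
        exact mul_le_mul_of_nonneg_right (norm_Gsum_le N (-c) (-d) c d (by omega)) hZ
      have k3 := hcs N n a b c d
      have k4 : ‖S0‖ ≤ ‖blk X N n a b c d‖ + 2 * N * Z := by
        have e : S0 = blk X N n a b c d - (∑ t ∈ Finset.range N, ∑ u ∈ Finset.range N,
          G (a + 2 * t) (b - 2 * t) (c - 2 * u) (d + 2 * u)) * (Z : ℂ) := by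
          rw [hblk]; ring
        rw [e]
        refine (norm_sub_le _ _).trans (add_le_add le_rfl ?_)
        rw [norm_mul, Complex.norm_real, Real.norm_of_nonneg hZ]
        exact mul_le_mul_of_nonneg_right (norm_Gsum_le N a b c d hab) hZ
      have k5 : ‖(N : ℂ) ^ 2 * Err X Z a b c d n‖ ≤ ‖S0‖ + ε / 8 := by
        have e : (N : ℂ) ^ 2 * Err X Z a b c d n
            = S0 - (S0 - (N : ℂ) ^ 2 * Err X Z a b c d n) := by ring
        rw [e]
        exact (norm_sub_le _ _).trans (add_le_add le_rfl h3'.le)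
      have k6 : ‖(N : ℂ) ^ 2 * Err X Z a b c d n‖ = (N : ℝ) ^ 2 * ‖Err X Z a b c d n‖ := by
        rw [norm_mul, norm_pow, Complex.norm_natCast]
      rw [k6] at k5
      have k7 : (N : ℝ) ^ 2 * ‖Err X Z a b c d n‖ ≤ ε / 4 + 4 * N * Z := by linarith
      have k8 : (N : ℝ) ^ 2 * ‖Err X Z a b c d n‖ < (N : ℝ) ^ 2 * ε := by
        have hN2 : (1 : ℝ) ≤ (N : ℝ) ^ 2 := one_le_pow₀ hNr
        have m1 : (N : ℝ) * (4 * Z) < N * (N * (ε / 2)) := by
          apply mul_lt_mul_of_pos_left hN; linarith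
        nlinarith
      exact lt_of_mul_lt_mul_left k8 (by positivity)
    obtain ⟨n0, hn0⟩ := eventually_atTop.mp hev
    refine ⟨n0, fun n hn => ?_⟩
    rw [dist_zero_right, norm_norm]
    exact hn0 n hn
  -- reduction to a good splitting
  obtain ⟨k, hk1, hk2⟩ : ∃ k : ℤ, a + 2 * k + b ≠ 0 ∧ c + (d - 2 * k) ≠ 0 := by
    by_cases h1 : a + b ≠ 0 ∧ c + d ≠ 0
    · exact ⟨0, by omega, by omega⟩
    · by_cases h2 : a + 2 * 1 + b ≠ 0 ∧ c + (d - 2 * 1) ≠ 0
      · exact ⟨1, h2.1, h2.2⟩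
      · by_cases h3 : a + 2 * 2 + b ≠ 0 ∧ c + (d - 2 * 2) ≠ 0
        · exact ⟨2, h3.1, h3.2⟩
        · exact ⟨-1, by omega, by omega⟩
  have hfin : Tendsto (Err X Z a b c d) atTop (𝓝 0) := by
    have h1 := Err_shift1 s2 hmac a b c (d - 2 * k) k
    have e : d - 2 * k + 2 * k = d := by ring
    rw [e] at h1
    exact h1.symm.tendsto_zero (main _ _ _ _ hk1 hk2)
  have := hfin.add_const (G a b c d * (Z : ℂ))
  rw [zero_add] at this
  refine this.congr fun n => ?_
  unfold Err; ring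

end QE
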