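import Pool.Agent.Lib_helper67.QE.Wirt

/-!
The Cauchy transform on the complex plane: it inverts `∂/∂z̄` and it is compact from `L²` functions
with support in a compact set to `L²_loc`.
-/

open Complex MeasureTheory Filter Topology Real
open scoped ContDiff

namespace QE

noncomputable section

/-- the Cauchy kernel -/
def ck (w : ℂ) : ℂ := ((π : ℂ) * w)⁻¹

/-- the smoothed Cauchy kernel -/
def kd (δ : ℝ) (w : ℂ) : ℂ := (starRingEnd ℂ) w * ((π : ℂ) * (w * (starRingEnd ℂ) w + (δ : ℂ) ^ 2))⁻¹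

/-- the Cauchy transform -/
def cauchy (f : ℂ → ℂ) (z : ℂ) : ℂ := ∫ w, ck w * f (z - w)

theorem mul_conj_eq (w : ℂ) : w * (starRingEnd ℂ) w = ((‖w‖ ^ 2 : ℝ) : ℂ) := by
  rw [Complex.mul_conj, Complex.normSq_eq_norm_sq]

theorem kd_den_eq (δ : ℝ) (w : ℂ) :
    w * (starRingEnd ℂ) w + (δ : ℂ) ^ 2 = ((‖w‖ ^ 2 + δ ^ 2 : ℝ) : ℂ) := by
  rw [mul_conj_eq]; push_cast; ring

theorem norm_kd (δ : ℝ) (w : ℂ) : ‖kd δ w‖ = ‖w‖ / (π * (‖w‖ ^ 2 + δ ^ 2)) := by
  unfold kd
  rw [kd_den_eq, norm_mul, norm_inv, norm_mul, Complex.norm_real, Complex.norm_real,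
    RCLike.norm_conj, Real.norm_of_nonneg pi_pos.le, Real.norm_of_nonneg (by positivity)]
  rfl

theorem norm_kd_le {δ : ℝ} (hδ : 0 < δ) (w : ℂ) : ‖kd δ w‖ ≤ 1 / (2 * π * δ) := by
  rw [norm_kd, div_le_div_iff₀ (by positivity) (by positivity)]
  nlinarith [sq_nonneg (‖w‖ - δ), pi_pos, mul_nonneg pi_pos.le (sq_nonneg (‖w‖ - δ))]

theorem ck_sub_kd {δ : ℝ} (hδ : 0 < δ) (w : ℂ) :
    ‖ck w - kd δ w‖ = δ ^ 2 / (π * ‖w‖ * (‖w‖ ^ 2 + δ ^ 2)) := by
  by_cases hw : w = 0
  · subst hw; simp [ck, kd]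
  have hw' : 0 < ‖w‖ := norm_pos_iff.mpr hw
  have hp : (π : ℂ) ≠ 0 := by exact_mod_cast pi_ne_zero
  have hd : w * (starRingEnd ℂ) w + (δ : ℂ) ^ 2 ≠ 0 := by
    rw [kd_den_eq]
    exact_mod_cast (by positivity : ‖w‖ ^ 2 + δ ^ 2 ≠ 0)
  have e : ck w - kd δ w = (δ : ℂ) ^ 2 * ((π : ℂ) * w * (w * (starRingEnd ℂ) w + (δ : ℂ) ^ 2))⁻¹ := by
    unfold ck kd
    field_simp
    ring
  rw [e, kd_den_eq, norm_mul, norm_inv, norm_mul, norm_mul, Complex.norm_real, norm_pow,
    Complex.norm_real, Complex.norm_real, Real.norm_of_nonneg pi_pos.le, Real.norm_of_nonneg hδ.le,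
    Real.norm_of_nonneg (by positivity)]
  rfl

theorem measurable_ck : Measurable ck := by
  unfold ck; fun_prop

theorem continuous_kd {δ : ℝ} (hδ : 0 < δ) : Continuous (kd δ) := by
  unfold kd
  refine Complex.continuous_conj.mul (Continuous.inv₀ (by fun_prop) ?_)
  intro w
  rw [kd_den_eq]
  exact mul_ne_zero (by exact_mod_cast pi_ne_zero)
    (by exact_mod_cast (by positivity : ‖w‖ ^ 2 + δ ^ 2 ≠ 0))

theorem vol_ball : (volume : Measure ℂ).real (Metric.ball 0 1) = π := by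
  simp [Measure.real, Complex.volume_ball]

/-- the `L¹` distance of the two kernels -/
theorem integrable_ck_sub_kd {δ : ℝ} (hδ : 0 < δ) : Integrable (fun w => ‖ck w - kd δ w‖) := by
  have e : (fun w => ‖ck w - kd δ w‖) = fun w : ℂ => (fun y : ℝ => δ ^ 2 / (π * y * (y ^ 2 + δ ^ 2))) ‖w‖ := by
    funext w; exact ck_sub_kd hδ w
  rw [e, integrable_fun_norm_addHaar (volume : Measure ℂ)
    (f := fun y : ℝ => δ ^ 2 / (π * y * (y ^ 2 + δ ^ 2)))]
  have h1 : Integrable (fun y : ℝ => (π⁻¹ * δ ^ 2) * (δ ^ 2)⁻¹ * (1 + (y / δ) ^ 2)⁻¹) := by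
    have := (integrable_inv_one_add_sq.comp_div hδ.ne').const_mul ((π⁻¹ * δ ^ 2) * (δ ^ 2)⁻¹)
    exact this
  refine (h1.integrableOn (s := Set.Ioi 0)).congr_fun ?_ measurableSet_Ioi
  intro y hy
  have hy : 0 < y := hy
  simp only [Complex.finrank_real_complex, smul_eq_mul]
  field_simp
  try ring

theorem integral_ck_sub_kd {δ : ℝ} (hδ : 0 < δ) : ∫ w, ‖ck w - kd δ w‖ ≤ π * δ := by
  have e : (fun w => ‖ck w - kd δ w‖) = fun w : ℂ => (fun y : ℝ => δ ^ 2 / (π * y * (y ^ 2 + δ ^ 2))) ‖w‖ := by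
    funext w; exact ck_sub_kd hδ w
  rw [e, integral_fun_norm_addHaar (volume : Measure ℂ)
    (fun y : ℝ => δ ^ 2 / (π * y * (y ^ 2 + δ ^ 2))), vol_ball]
  have h1 : Integrable (fun y : ℝ => π⁻¹ * (1 + (y / δ) ^ 2)⁻¹) := by
    exact (integrable_inv_one_add_sq.comp_div hδ.ne').const_mul π⁻¹
  have h2 : ∫ y in Set.Ioi (0 : ℝ), y ^ (Module.finrank ℝ ℂ - 1) • (δ ^ 2 / (π * y * (y ^ 2 + δ ^ 2)))
      = ∫ y in Set.Ioi (0 : ℝ), π⁻¹ * (1 + (y / δ) ^ 2)⁻¹ := by
    refine setIntegral_congr_fun measurableSet_Ioi ?_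
    intro y hy
    have hy : 0 < y := hy
    simp only [Complex.finrank_real_complex, smul_eq_mul]
    field_simp
    try ring
  rw [h2]
  have h3 : ∫ y in Set.Ioi (0 : ℝ), π⁻¹ * (1 + (y / δ) ^ 2)⁻¹ = π⁻¹ * (δ * (π / 2)) := by
    rw [integral_const_mul]
    congr 1
    have := integral_comp_mul_left_Ioi (fun y : ℝ => (1 + y ^ 2)⁻¹) 0 (inv_pos.mpr hδ)
    simp only [mul_zero, smul_eq_mul, inv_inv] at this
    have e2 : ∀ y : ℝ, y / δ = δ⁻¹ * y := fun y => by ring
    simp only [e2]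
    rw [this, integral_Ioi_inv_one_add_sq]
    simp
  rw [h3]
  simp only [Complex.finrank_real_complex, smul_eq_mul, nsmul_eq_mul]
  push_cast
  have : (2 : ℝ) * (π * (π⁻¹ * (δ * (π / 2)))) = π * δ := by
    field_simp
  linarith

theorem locInt_ck : LocallyIntegrable ck := by
  have h1 : Integrable (fun w => ck w - kd 1 w) := by
    have h := integrable_ck_sub_kd one_pos
    exact (integrable_norm_iff (measurable_ck.sub (continuous_kd one_pos).measurable).aestronglyMeasurable).mp h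
  have h2 : LocallyIntegrable (kd 1) := (continuous_kd one_pos).locallyIntegrable
  have h3 := h1.locallyIntegrable.add h2
  refine h3.congr ?_
  filter_upwards with w
  simp

theorem cauchy_eq_conv (f : ℂ → ℂ) :
    cauchy f = convolution ck f (ContinuousLinearMap.mul ℝ ℂ) volume := by
  funext z
  rw [convolution_def]
  rfl

theorem contDiff_cauchy {f : ℂ → ℂ} (hf : ContDiff ℝ ∞ f) (hc : HasCompactSupport f) :
    ContDiff ℝ ∞ (cauchy f) := by
  rw [cauchy_eq_conv]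
  exact hc.contDiff_convolution_right (n := ⊤) _ locInt_ck hf

theorem convExists {f : ℂ → ℂ} (hf : Continuous f) (hc : HasCompactSupport f) (z : ℂ) :
    Integrable (fun w => ck w * f (z - w)) := by
  have := hc.convolutionExists_right (ContinuousLinearMap.mul ℝ ℂ) locInt_ck hf (μ := volume) z
  exact this

theorem fderiv_cauchy {f : ℂ → ℂ} (hf : ContDiff ℝ ∞ f) (hc : HasCompactSupport f) (z v : ℂ) :
    fderiv ℝ (cauchy f) z v = cauchy (fun w => fderiv ℝ f w v) z := by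
  have h := (hc.hasFDerivAt_convolution_right (ContinuousLinearMap.mul ℝ ℂ) locInt_ck
    (hf.of_le (by simp)) (μ := volume) z).fderiv
  rw [cauchy_eq_conv, h, convolution_def]
  have hi := (hc.fderiv (𝕜 := ℝ)).convolutionExists_right
    ((ContinuousLinearMap.mul ℝ ℂ).precompR ℂ) locInt_ck
    (hf.continuous_fderiv (by simp)) (μ := volume) z
  rw [ContinuousLinearMap.integral_apply hi]
  rfl

theorem dz_cauchy {f : ℂ → ℂ} (hf : ContDiff ℝ ∞ f) (hc : HasCompactSupport f) (z : ℂ) :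
    dz (cauchy f) z = cauchy (dz f) z := by
  have hi : ∀ v, Integrable (fun w => ck w * fderiv ℝ f (z - w) v) := fun v =>
    convExists ((hf.continuous_fderiv (by simp)).clm_apply continuous_const)
      (hc.fderiv_apply (𝕜 := ℝ) v) z
  have e : cauchy (dz f) z = (1 / 2) * (cauchy (fun w => fderiv ℝ f w 1) z
      - I * cauchy (fun w => fderiv ℝ f w I) z) := by
    unfold cauchy
    rw [← integral_const_mul, ← integral_sub (hi 1) ((hi I).const_mul I), ← integral_const_mul]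
    refine integral_congr_ae (Filter.Eventually.of_forall fun w => ?_)
    simp only [dz]; ring
  rw [e]
  unfold dz
  rw [fderiv_cauchy hf hc, fderiv_cauchy hf hc]

theorem dzb_cauchy' {f : ℂ → ℂ} (hf : ContDiff ℝ ∞ f) (hc : HasCompactSupport f) (z : ℂ) :
    dzb (cauchy f) z = cauchy (dzb f) z := by
  have hi : ∀ v, Integrable (fun w => ck w * fderiv ℝ f (z - w) v) := fun v =>
    convExists ((hf.continuous_fderiv (by simp)).clm_apply continuous_const)
      (hc.fderiv_apply (𝕜 := ℝ) v) z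
  have e : cauchy (dzb f) z = (1 / 2) * (cauchy (fun w => fderiv ℝ f w 1) z
      + I * cauchy (fun w => fderiv ℝ f w I) z) := by
    unfold cauchy
    rw [← integral_const_mul, ← integral_add (hi 1) ((hi I).const_mul I), ← integral_const_mul]
    refine integral_congr_ae (Filter.Eventually.of_forall fun w => ?_)
    simp only [dzb]; ring
  rw [e]
  unfold dzb
  rw [fderiv_cauchy hf hc, fderiv_cauchy hf hc]

theorem cauchy_add {f g : ℂ → ℂ} (hf : Continuous f) (hfc : HasCompactSupport f)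
    (hg : Continuous g) (hgc : HasCompactSupport g) (z : ℂ) :
    cauchy (fun w => f w + g w) z = cauchy f z + cauchy g z := by
  unfold cauchy
  rw [← integral_add (convExists hf hfc z) (convExists hg hgc z)]
  refine integral_congr_ae (Filter.Eventually.of_forall fun w => ?_)
  simp only []; ring

theorem cauchy_sub {f g : ℂ → ℂ} (hf : Continuous f) (hfc : HasCompactSupport f)
    (hg : Continuous g) (hgc : HasCompactSupport g) (z : ℂ) :
    cauchy (fun w => f w - g w) z = cauchy f z - cauchy g z := by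
  unfold cauchy
  rw [← integral_sub (convExists hf hfc z) (convExists hg hgc z)]
  refine integral_congr_ae (Filter.Eventually.of_forall fun w => ?_)
  simp only []; ring

theorem cauchy_neg (f : ℂ → ℂ) (z : ℂ) : cauchy (fun w => - f w) z = - cauchy f z := by
  unfold cauchy
  rw [← integral_neg]
  refine integral_congr_ae (Filter.Eventually.of_forall fun w => ?_)
  simp only []; ring

/-- the `∂/∂z̄` derivative of the smoothed kernel -/
theorem differentiable_kd {δ : ℝ} (hδ : 0 < δ) : Differentiable ℝ (kd δ) := by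
  intro w
  unfold kd
  have hd : (π : ℂ) * (w * (starRingEnd ℂ) w + (δ : ℂ) ^ 2) ≠ 0 := by
    rw [kd_den_eq]
    exact mul_ne_zero (by exact_mod_cast pi_ne_zero)
      (by exact_mod_cast (by positivity : ‖w‖ ^ 2 + δ ^ 2 ≠ 0))
  have hconj : DifferentiableAt ℝ (fun w : ℂ => (starRingEnd ℂ) w) w :=
    conjCLE.differentiableAt
  exact hconj.mul ((((differentiableAt_id).mul hconj).add_const _).const_mul _ |>.inv hd)

theorem contDiff_kd {δ : ℝ} (hδ : 0 < δ) : ContDiff ℝ ∞ (kd δ) := by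
  unfold kd
  have hconj : ContDiff ℝ ∞ (fun w : ℂ => (starRingEnd ℂ) w) := conjCLE.contDiff
  refine hconj.mul (ContDiff.inv (contDiff_const.mul ((contDiff_id.mul hconj).add contDiff_const)) ?_)
  intro w
  show (π : ℂ) * (w * (starRingEnd ℂ) w + (δ : ℂ) ^ 2) ≠ 0
  rw [kd_den_eq]
  exact mul_ne_zero (by exact_mod_cast pi_ne_zero)
    (by exact_mod_cast (by positivity : ‖w‖ ^ 2 + δ ^ 2 ≠ 0))

theorem dzb_kd {δ : ℝ} (hδ : 0 < δ) (w : ℂ) :
    dzb (kd δ) w = ((π⁻¹ * δ ^ 2 / (‖w‖ ^ 2 + δ ^ 2) ^ 2 : ℝ) : ℂ) := by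
  have hconj : DifferentiableAt ℝ (fun w : ℂ => (starRingEnd ℂ) w) w :=
    conjCLE.differentiableAt
  set D : ℂ → ℂ := fun w => (π : ℂ) * (w * (starRingEnd ℂ) w + (δ : ℂ) ^ 2) with hD
  have hDw : D w ≠ 0 := by
    rw [hD]; simp only []
    rw [kd_den_eq]
    exact mul_ne_zero (by exact_mod_cast pi_ne_zero)
      (by exact_mod_cast (by positivity : ‖w‖ ^ 2 + δ ^ 2 ≠ 0))
  have hDd : DifferentiableAt ℝ D w :=
    (((differentiableAt_id).mul hconj).add_const _).const_mul _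
  have hDi : DifferentiableAt ℝ (fun w => (D w)⁻¹) w := hDd.inv hDw
  have hid : dzb (fun w : ℂ => w) w = 0 := by
    unfold dzb
    have : fderiv ℝ (fun w : ℂ => w) w = ContinuousLinearMap.id ℝ ℂ := fderiv_fun_id
    rw [this]; simp
  have hcj : dzb (fun w : ℂ => (starRingEnd ℂ) w) w = 1 := by
    have := dzb_conj (f := fun w : ℂ => w) (z := w) differentiableAt_id
    rw [this]
    unfold dz
    have : fderiv ℝ (fun w : ℂ => w) w = ContinuousLinearMap.id ℝ ℂ := fderiv_fun_id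
    rw [this]
    simp only [ContinuousLinearMap.id_apply, I_mul_I, sub_neg_eq_add]
    rw [show (1 : ℂ) / 2 * (1 + 1) = 1 by norm_num]; simp
  have hDz : dzb D w = (π : ℂ) * w := by
    have hm : DifferentiableAt ℝ (fun w : ℂ => w * (starRingEnd ℂ) w) w :=
      (differentiableAt_id).mul hconj
    rw [hD, dzb_const_mul _ (hm.add_const _), dzb_add hm (differentiableAt_const _),
      dzb_mul (f := fun w : ℂ => w) differentiableAt_id hconj, dzb_const]
    simp only [hid, hcj]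
    ring
  have hinv : dzb (fun w => (D w)⁻¹) w = - dzb D w / (D w) ^ 2 := by
    have h1 : (fun u => D u * (D u)⁻¹) =ᶠ[𝓝 w] fun _ => 1 := by
      have : ∀ᶠ u in 𝓝 w, D u ≠ 0 := hDd.continuousAt.eventually_ne hDw
      filter_upwards [this] with u hu
      exact mul_inv_cancel₀ hu
    have h2 := dzb_congr h1
    rw [dzb_mul hDd hDi, dzb_const] at h2
    field_simp at h2 ⊢
    linear_combination h2
  have e : kd δ = fun w => (starRingEnd ℂ) w * (D w)⁻¹ := rfl
  rw [e, dzb_mul hconj hDi, hcj, hinv, hDz]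
  have hDe : D w = (π : ℂ) * ((‖w‖ ^ 2 + δ ^ 2 : ℝ) : ℂ) := by
    rw [hD]; simp only []; rw [kd_den_eq]
  have hne : ((‖w‖ ^ 2 + δ ^ 2 : ℝ) : ℂ) ≠ 0 := by
    exact_mod_cast (by positivity : ‖w‖ ^ 2 + δ ^ 2 ≠ 0)
  have hp : (π : ℂ) ≠ 0 := by exact_mod_cast pi_ne_zero
  have hmc := mul_conj_eq w
  rw [hDe]
  have goal1 : (1 : ℂ) * ((π : ℂ) * ((‖w‖ ^ 2 + δ ^ 2 : ℝ) : ℂ))⁻¹
      + (starRingEnd ℂ) w * (-((π : ℂ) * w) / ((π : ℂ) * ((‖w‖ ^ 2 + δ ^ 2 : ℝ) : ℂ)) ^ 2)
      = (π : ℂ)⁻¹ * (((‖w‖ ^ 2 + δ ^ 2 : ℝ) : ℂ) - w * (starRingEnd ℂ) w)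
        / ((‖w‖ ^ 2 + δ ^ 2 : ℝ) : ℂ) ^ 2 := by
    field_simp
    ring
  rw [goal1, hmc]
  push_cast
  ring

/-- the integral of the derivative of the smoothed kernel -/
theorem integral_peak : ∫ w : ℂ, π⁻¹ * (1 + ‖w‖ ^ 2)⁻¹ ^ 2 = 1 := by
  rw [integral_fun_norm_addHaar (volume : Measure ℂ) (fun y : ℝ => π⁻¹ * (1 + y ^ 2)⁻¹ ^ 2), vol_ball]
  have h1 : ∫ y in Set.Ioi (0 : ℝ), y ^ (Module.finrank ℝ ℂ - 1) • (π⁻¹ * (1 + y ^ 2)⁻¹ ^ 2)
      = 0 - (-(π⁻¹ / 2) * (1 + (0 : ℝ) ^ 2)⁻¹) := by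
    have hderiv : ∀ y ∈ Set.Ici (0 : ℝ), HasDerivAt (fun y : ℝ => -(π⁻¹ / 2) * (1 + y ^ 2)⁻¹)
        (y ^ (Module.finrank ℝ ℂ - 1) • (π⁻¹ * (1 + y ^ 2)⁻¹ ^ 2)) y := by
      intro y _
      have hne : (1 + y ^ 2) ≠ 0 := by positivity
      have h := ((((hasDerivAt_id y).pow 2).const_add 1).inv hne).const_mul (-(π⁻¹ / 2))
      simp only [id, Complex.finrank_real_complex] at h ⊢
      refine h.congr_deriv ?_
      simp
      field_simp
    have hlim : Tendsto (fun y : ℝ => -(π⁻¹ / 2) * (1 + y ^ 2)⁻¹) atTop (𝓝 0) := by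
      have h0 : Tendsto (fun y : ℝ => (1 + y ^ 2)⁻¹) atTop (𝓝 0) :=
        (tendsto_atTop_add_const_left _ _ (tendsto_pow_atTop (by norm_num))).inv_tendsto_atTop
      simpa using h0.const_mul (-(π⁻¹ / 2))
    have hpos : ∀ y ∈ Set.Ioi (0 : ℝ), 0 ≤ y ^ (Module.finrank ℝ ℂ - 1) • (π⁻¹ * (1 + y ^ 2)⁻¹ ^ 2) := by
      intro y hy
      have hy : 0 < y := hy
      simp only [smul_eq_mul]
      positivity
    exact integral_Ioi_of_hasDerivAt_of_nonneg' hderiv hpos hlim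
  rw [h1]
  simp only [Complex.finrank_real_complex, smul_eq_mul, nsmul_eq_mul]
  push_cast
  field_simp
  norm_num

/-- **Cauchy–Pompeiu**: the Cauchy transform inverts `∂/∂z̄` -/
theorem cauchy_dzb {f : ℂ → ℂ} (hf : ContDiff ℝ ∞ f) (hc : HasCompactSupport f) (z : ℂ) :
    cauchy (dzb f) z = f z := by
  -- the reflected function
  set g : ℂ → ℂ := fun w => f (z - w) with hg
  have hgs : ContDiff ℝ ∞ g := hf.comp (contDiff_const.sub contDiff_id)
  have hgc : HasCompactSupport g := by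
    have := hc.comp_homeomorph (Homeomorph.subLeft z)
    exact this
  have hgd : ∀ w, dzb g w = - dzb f (z - w) := by
    intro w
    have h1 : ∀ v, fderiv ℝ g w v = - fderiv ℝ f (z - w) v := by
      intro v
      have h2 : HasFDerivAt g ((fderiv ℝ f (z - w)).comp (-(ContinuousLinearMap.id ℝ ℂ))) w := by
        have h3 : HasFDerivAt (fun w : ℂ => z - w) (-(ContinuousLinearMap.id ℝ ℂ)) w := by
          simpa using (hasFDerivAt_id w).const_sub z
        exact ((hf.differentiable (by simp) (z - w)).hasFDerivAt).comp w h3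
      rw [h2.fderiv]; simp
    unfold dzb
    rw [h1, h1]; ring
  obtain ⟨B, hB⟩ : ∃ B : ℝ, ∀ w, ‖dzb f w‖ ≤ B := by
    obtain ⟨B, hB⟩ := (contDiff_dzb hf).continuous.bounded_above_of_compact_support hc.dzb
    exact ⟨B, hB⟩
  have hB0 : 0 ≤ B := (norm_nonneg _).trans (hB 0)
  -- the smoothed identity
  have key : ∀ c : ℝ, 0 < c → ∫ w, kd c⁻¹ w * dzb f (z - w)
      = ∫ w, (c ^ (Module.finrank ℝ ℂ) * (π⁻¹ * (1 + ‖c • w‖ ^ 2)⁻¹ ^ 2)) • g w := by
    intro c hcpos
    have hδ : 0 < c⁻¹ := inv_pos.mpr hcpos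
    have hibp : ∫ w, g w * dzb (kd c⁻¹) w = - ∫ w, dzb g w * kd c⁻¹ w :=
      integral_mul_dzb isOpen_univ (⟨hgs, hgc, Set.subset_univ _⟩ : Test Set.univ g)
        (contDiff_kd hδ).contDiffOn
    have e1 : ∫ w, kd c⁻¹ w * dzb f (z - w) = - ∫ w, dzb g w * kd c⁻¹ w := by
      rw [← integral_neg]
      refine integral_congr_ae (Filter.Eventually.of_forall fun w => ?_)
      simp only [hgd]; ring
    rw [e1, ← hibp]
    refine integral_congr_ae (Filter.Eventually.of_forall fun w => ?_)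
    simp only [dzb_kd hδ]
    rw [Complex.real_smul, mul_comm]
    congr 1
    simp only [Complex.finrank_real_complex, norm_smul, Real.norm_of_nonneg hcpos.le]
    congr 1
    have : (0:ℝ) < ‖w‖ ^ 2 + c⁻¹ ^ 2 := by positivity
    field_simp
    ring
  have hlim1 : Tendsto (fun c : ℝ => ∫ w, (c ^ (Module.finrank ℝ ℂ)
      * (π⁻¹ * (1 + ‖c • w‖ ^ 2)⁻¹ ^ 2)) • g w) atTop (𝓝 (g 0)) := by
    refine tendsto_integral_comp_smul_smul_of_integrable
      (φ := fun w : ℂ => π⁻¹ * (1 + ‖w‖ ^ 2)⁻¹ ^ 2) (fun w => by positivity) integral_peak ?_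
      (hgs.continuous.integrable_of_hasCompactSupport hgc) hgs.continuous.continuousAt
    have hn : Tendsto (fun w : ℂ => ‖w‖) (Bornology.cobounded ℂ) atTop := tendsto_norm_cobounded_atTop
    have h1 : Tendsto (fun r : ℝ => r ^ 2 * (π⁻¹ * (1 + r ^ 2)⁻¹ ^ 2)) atTop (𝓝 0) := by
      have h2 : Tendsto (fun r : ℝ => π⁻¹ * (1 + r ^ 2)⁻¹) atTop (𝓝 0) := by
        have h0 : Tendsto (fun y : ℝ => (1 + y ^ 2)⁻¹) atTop (𝓝 0) :=
          (tendsto_atTop_add_const_left _ _ (tendsto_pow_atTop (by norm_num))).inv_tendsto_atTop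
        simpa using h0.const_mul π⁻¹
      refine squeeze_zero (fun r => by positivity) (fun r => ?_) h2
      have : (0:ℝ) < 1 + r ^ 2 := by positivity
      have h3 : r ^ 2 * (1 + r ^ 2)⁻¹ ≤ 1 := by
        rw [← div_eq_mul_inv, div_le_one this]; linarith
      calc r ^ 2 * (π⁻¹ * (1 + r ^ 2)⁻¹ ^ 2) = (r ^ 2 * (1 + r ^ 2)⁻¹) * (π⁻¹ * (1 + r ^ 2)⁻¹) := by ring
        _ ≤ 1 * (π⁻¹ * (1 + r ^ 2)⁻¹) := by gcongr
        _ = _ := one_mul _
    simpa [Complex.finrank_real_complex, Function.comp_def] using h1.comp hn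
  have hlim2 : Tendsto (fun c : ℝ => ∫ w, kd c⁻¹ w * dzb f (z - w)) atTop (𝓝 (g 0)) :=
    hlim1.congr' (by filter_upwards [eventually_gt_atTop 0] with c hc' using (key c hc').symm)
  have hlim3 : Tendsto (fun c : ℝ => ∫ w, kd c⁻¹ w * dzb f (z - w)) atTop
      (𝓝 (cauchy (dzb f) z)) := by
    rw [tendsto_iff_norm_sub_tendsto_zero]
    have h0 : Tendsto (fun c : ℝ => B * (π * c⁻¹)) atTop (𝓝 0) := by
      simpa using (tendsto_inv_atTop_zero.const_mul π).const_mul B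
    refine squeeze_zero' (Filter.Eventually.of_forall fun c => norm_nonneg _) ?_ h0
    filter_upwards [eventually_gt_atTop 0] with c hcpos
    have hδ : 0 < c⁻¹ := inv_pos.mpr hcpos
    have hi1 : Integrable (fun w => ck w * dzb f (z - w)) :=
      convExists (contDiff_dzb hf).continuous hc.dzb z
    have hi3 : Integrable (fun w => dzb f (z - w)) := by
      have : Integrable (dzb f) := (contDiff_dzb hf).continuous.integrable_of_hasCompactSupport hc.dzb
      exact this.comp_sub_left z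
    have hi2 : Integrable (fun w => kd c⁻¹ w * dzb f (z - w)) :=
      hi3.bdd_mul (continuous_kd hδ).aestronglyMeasurable
        (Filter.Eventually.of_forall fun w => norm_kd_le hδ w)
    unfold cauchy
    rw [← integral_sub hi2 hi1]
    calc ‖∫ w, (kd c⁻¹ w * dzb f (z - w) - ck w * dzb f (z - w))‖
        ≤ ∫ w, ‖kd c⁻¹ w * dzb f (z - w) - ck w * dzb f (z - w)‖ := norm_integral_le_integral_norm _
      _ ≤ ∫ w, B * ‖ck w - kd c⁻¹ w‖ := by
          refine integral_mono (hi2.sub hi1).norm ((integrable_ck_sub_kd hδ).const_mul B) fun w => ?_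
          simp only []
          rw [← sub_mul, norm_mul, norm_sub_rev, mul_comm]
          gcongr
          exact hB _
      _ = B * ∫ w, ‖ck w - kd c⁻¹ w‖ := integral_const_mul _ _
      _ ≤ B * (π * c⁻¹) := by gcongr; exact integral_ck_sub_kd hδ
  have := tendsto_nhds_unique hlim3 hlim2
  rw [this, hg]; simp

theorem dzb_cauchy {f : ℂ → ℂ} (hf : ContDiff ℝ ∞ f) (hc : HasCompactSupport f) (z : ℂ) :
    dzb (cauchy f) z = f z := by
  rw [dzb_cauchy' hf hc, cauchy_dzb hf hc]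

end

end QE
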