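import Pool.Agent.Lib_helper67.QE.HypDefs

/-!
Möbius transformations of the upper half plane, their phases, and directions: the function `dirG` on
`SL(2, ℝ)`, in terms of points and frames, and along the geodesic flow.
-/

open MeasureTheory Filter Topology
open UpperHalfPlane hiding I
open scoped ContDiff MatrixGroups

namespace QE

noncomputable section

/-! ### Möbius transformations -/

theorem isOpen_UH : IsOpen UH := isOpen_lt continuous_const Complex.continuous_im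

theorem coe_mem_UH (z : ℍ) : (z : ℂ) ∈ UH := z.im_pos

theorem ofComplex_coe_eq {z : ℂ} (hz : z ∈ UH) : ((ofComplex z : ℍ) : ℂ) = z := by
  rw [ofComplex_apply_of_im_pos hz]

theorem den_ne_zero (γ : SL(2, ℝ)) {z : ℂ} (hz : z ∈ UH) : den γ z ≠ 0 := by
  intro h
  have hz' : 0 < z.im := hz
  unfold den at h
  have h1 := congrArg Complex.re h
  have h2 := congrArg Complex.im h
  simp at h1 h2
  have hd := γ.det_coe
  rw [Matrix.det_fin_two] at hd
  rcases h2 with h2 | h2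
  · rw [h2] at h1 hd
    have h3 : γ 1 1 = 0 := by linarith
    rw [h3] at hd
    norm_num at hd
  · exact hz'.ne' h2

theorem mob_coe (γ : SL(2, ℝ)) (z : ℍ) : mob γ (z : ℂ) = ((γ • z : ℍ) : ℂ) := by
  unfold mob; rw [ofComplex_apply]

theorem mob_mem (γ : SL(2, ℝ)) (z : ℂ) : mob γ z ∈ UH := coe_mem_UH _

theorem mob_eq (γ : SL(2, ℝ)) {z : ℂ} (hz : z ∈ UH) :
    mob γ z = (((γ 0 0 : ℝ) : ℂ) * z + ((γ 0 1 : ℝ) : ℂ)) / den γ z := by
  unfold mob den
  rw [coe_specialLinearGroup_apply, ofComplex_coe_eq hz]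
  simp

theorem ofComplex_mob (γ : SL(2, ℝ)) (z : ℂ) : ofComplex (mob γ z) = γ • ofComplex z := by
  unfold mob; rw [ofComplex_apply]

theorem mob_mul (γ γ' : SL(2, ℝ)) (z : ℂ) : mob (γ * γ') z = mob γ (mob γ' z) := by
  show (((γ * γ') • ofComplex z : ℍ) : ℂ) = ((γ • ofComplex (mob γ' z) : ℍ) : ℂ)
  rw [ofComplex_mob, mul_smul]

theorem mob_one {z : ℂ} (hz : z ∈ UH) : mob 1 z = z := by
  unfold mob; rw [one_smul, ofComplex_coe_eq hz]

theorem mob_inv_mob (γ : SL(2, ℝ)) {z : ℂ} (hz : z ∈ UH) : mob γ⁻¹ (mob γ z) = z := by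
  rw [← mob_mul, inv_mul_cancel, mob_one hz]

theorem mob_mob_inv (γ : SL(2, ℝ)) {z : ℂ} (hz : z ∈ UH) : mob γ (mob γ⁻¹ z) = z := by
  rw [← mob_mul, mul_inv_cancel, mob_one hz]

theorem mob_injOn (γ : SL(2, ℝ)) : Set.InjOn (mob γ) UH := fun z hz w hw h => by
  rw [← mob_inv_mob γ hz, h, mob_inv_mob γ hw]

theorem mob_image (γ : SL(2, ℝ)) : mob γ '' UH = UH := by
  ext z
  constructor
  · rintro ⟨w, -, rfl⟩; exact mob_mem γ w
  · intro hz; exact ⟨mob γ⁻¹ z, mob_mem _ _, mob_mob_inv γ hz⟩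

theorem den_mul (γ γ' : SL(2, ℝ)) {z : ℂ} (hz : z ∈ UH) :
    den (γ * γ') z = den γ (mob γ' z) * den γ' z := by
  have h0 := den_ne_zero γ' hz
  have h1 : mob γ' z * den γ' z = ((γ' 0 0 : ℝ) : ℂ) * z + ((γ' 0 1 : ℝ) : ℂ) := by
    rw [mob_eq γ' hz, div_mul_cancel₀ _ h0]
  have h2 : den γ (mob γ' z) * den γ' z
      = ((γ 1 0 : ℝ) : ℂ) * (mob γ' z * den γ' z) + ((γ 1 1 : ℝ) : ℂ) * den γ' z := by
    unfold den; ring
  rw [h2, h1]
  unfold den
  have e0 : (γ * γ') 1 0 = γ 1 0 * γ' 0 0 + γ 1 1 * γ' 1 0 := by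
    show ((γ * γ' : SL(2, ℝ)) : Matrix (Fin 2) (Fin 2) ℝ) 1 0 = _
    rw [Matrix.SpecialLinearGroup.coe_mul, Matrix.mul_apply, Fin.sum_univ_two]
  have e1 : (γ * γ') 1 1 = γ 1 0 * γ' 0 1 + γ 1 1 * γ' 1 1 := by
    show ((γ * γ' : SL(2, ℝ)) : Matrix (Fin 2) (Fin 2) ℝ) 1 1 = _
    rw [Matrix.SpecialLinearGroup.coe_mul, Matrix.mul_apply, Fin.sum_univ_two]
  rw [e0, e1]
  push_cast
  ring

theorem den_one (z : ℂ) : den 1 z = 1 := by
  unfold den; simp

theorem den_neg (γ : SL(2, ℝ)) (z : ℂ) : den (-γ) z = -den γ z := by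
  unfold den
  have e0 : (-γ) 1 0 = -(γ 1 0) := by simp
  have e1 : (-γ) 1 1 = -(γ 1 1) := by simp
  rw [e0, e1]; push_cast; ring

theorem neg_smul_eq (γ : SL(2, ℝ)) (z : ℍ) : (-γ) • z = γ • z := by
  apply UpperHalfPlane.ext
  rw [coe_specialLinearGroup_apply, coe_specialLinearGroup_apply]
  have h : ∀ i j, (-γ) i j = -(γ i j) := fun i j => by simp
  simp only [h, map_neg, Complex.ofReal_neg]
  rw [← neg_div_neg_eq]
  congr 1 <;> ring

theorem mob_neg (γ : SL(2, ℝ)) (z : ℂ) : mob (-γ) z = mob γ z := by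
  unfold mob; rw [neg_smul_eq]

theorem mob_im (γ : SL(2, ℝ)) {z : ℂ} (hz : z ∈ UH) : (mob γ z).im = z.im / ‖den γ z‖ ^ 2 := by
  have h0 := den_ne_zero γ hz
  rw [mob_eq γ hz, ← Complex.normSq_eq_norm_sq, Complex.div_im]
  have hn : Complex.normSq (den γ z) ≠ 0 := by rwa [Ne, Complex.normSq_eq_zero]
  have hd := γ.det_coe
  rw [Matrix.det_fin_two] at hd
  rw [← sub_div]
  congr 1
  unfold den
  simp
  linear_combination z.im * hd

theorem hasDerivAt_mob (γ : SL(2, ℝ)) {z : ℂ} (hz : z ∈ UH) :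
    HasDerivAt (mob γ) (1 / (den γ z) ^ 2) z := by
  have h0 := den_ne_zero γ hz
  have hn : HasDerivAt (fun w : ℂ => ((γ 0 0 : ℝ) : ℂ) * w + ((γ 0 1 : ℝ) : ℂ)) ((γ 0 0 : ℝ) : ℂ) z := by
    simpa using ((hasDerivAt_id z).const_mul ((γ 0 0 : ℝ) : ℂ)).add_const ((γ 0 1 : ℝ) : ℂ)
  have hde : HasDerivAt (den γ) ((γ 1 0 : ℝ) : ℂ) z := by
    have : den γ = fun w : ℂ => ((γ 1 0 : ℝ) : ℂ) * w + ((γ 1 1 : ℝ) : ℂ) := rfl
    rw [this]
    simpa using ((hasDerivAt_id z).const_mul ((γ 1 0 : ℝ) : ℂ)).add_const ((γ 1 1 : ℝ) : ℂ)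
  have hq := hn.div hde h0
  have he : mob γ =ᶠ[𝓝 z] (fun w : ℂ => ((γ 0 0 : ℝ) : ℂ) * w + ((γ 0 1 : ℝ) : ℂ)) / den γ :=
    Filter.eventuallyEq_of_mem (isOpen_UH.mem_nhds hz) fun w hw => mob_eq γ hw
  refine (hq.congr_of_eventuallyEq he).congr_deriv ?_
  have hd := γ.det_coe
  rw [Matrix.det_fin_two] at hd
  have hd' : ((γ 0 0 : ℝ) : ℂ) * ((γ 1 1 : ℝ) : ℂ) - ((γ 0 1 : ℝ) : ℂ) * ((γ 1 0 : ℝ) : ℂ) = 1 := by
    exact_mod_cast congrArg (fun x : ℝ => (x : ℂ)) hd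
  congr 1
  unfold den
  linear_combination hd'

theorem contDiff_den (γ : SL(2, ℝ)) : ContDiff ℝ ∞ (den γ) := by
  unfold den; fun_prop

theorem contDiffOn_mob (γ : SL(2, ℝ)) : ContDiffOn ℝ ∞ (mob γ) UH := by
  have h : ContDiffOn ℝ ∞
      (fun z : ℂ => (((γ 0 0 : ℝ) : ℂ) * z + ((γ 0 1 : ℝ) : ℂ)) * (den γ z)⁻¹) UH := by
    refine ContDiffOn.mul ?_ ((contDiff_den γ).contDiffOn.inv fun z hz => den_ne_zero γ hz)
    fun_prop
  exact h.congr fun z hz => by rw [mob_eq γ hz, div_eq_mul_inv]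

theorem continuousOn_mob (γ : SL(2, ℝ)) : ContinuousOn (mob γ) UH := (contDiffOn_mob γ).continuousOn

theorem fderiv_mob (γ : SL(2, ℝ)) {z : ℂ} (hz : z ∈ UH) (v : ℂ) :
    fderiv ℝ (mob γ) z v = 1 / (den γ z) ^ 2 * v := by
  have h := ((hasDerivAt_mob γ hz).hasFDerivAt.restrictScalars ℝ).fderiv
  rw [h]
  simp [mul_comm]

theorem differentiableAt_mob (γ : SL(2, ℝ)) {z : ℂ} (hz : z ∈ UH) :
    DifferentiableAt ℝ (mob γ) z :=
  ((hasDerivAt_mob γ hz).hasFDerivAt.restrictScalars ℝ).differentiableAt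

theorem fderiv_real_apply (f : ℂ → ℂ) (z v : ℂ) :
    fderiv ℝ f z v = v * dz f z + (starRingEnd ℂ) v * dzb f z := by
  have h1 : v = (v.re : ℝ) • (1 : ℂ) + (v.im : ℝ) • Complex.I := by
    simp
  have h2 : fderiv ℝ f z v = (v.re : ℝ) • fderiv ℝ f z 1 + (v.im : ℝ) • fderiv ℝ f z Complex.I := by
    conv_lhs => rw [h1]
    rw [map_add, map_smul, map_smul]
  rw [h2]
  unfold dz dzb
  have hv : v = (v.re : ℂ) + (v.im : ℂ) * Complex.I := (Complex.re_add_im v).symm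
  have hv' : (starRingEnd ℂ) v = (v.re : ℂ) - (v.im : ℂ) * Complex.I := by
    apply Complex.ext <;> simp
  rw [hv']
  conv_rhs => rw [show v = (v.re : ℂ) + (v.im : ℂ) * Complex.I from hv]
  simp only [Complex.add_re, Complex.add_im, Complex.mul_re, Complex.mul_im, Complex.ofReal_re,
    Complex.ofReal_im, Complex.I_re, Complex.I_im, mul_zero, mul_one, sub_zero, add_zero, zero_add,
    Complex.real_smul]
  have hI := Complex.I_mul_I
  linear_combination ((v.im : ℂ) * fderiv ℝ f z Complex.I) * hI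

/-- the chain rule for `∂` -/
theorem dz_comp_mob (γ : SL(2, ℝ)) {f : ℂ → ℂ} {z : ℂ} (hz : z ∈ UH)
    (hf : DifferentiableAt ℝ f (mob γ z)) :
    dz (fun w => f (mob γ w)) z = 1 / (den γ z) ^ 2 * dz f (mob γ z) := by
  have hc : ∀ v, fderiv ℝ (fun w => f (mob γ w)) z v
      = fderiv ℝ f (mob γ z) (1 / (den γ z) ^ 2 * v) := by
    intro v
    have := fderiv_comp z hf (differentiableAt_mob γ hz)
    have e : (fun w => f (mob γ w)) = f ∘ mob γ := rfl
    rw [e, this, ContinuousLinearMap.comp_apply, fderiv_mob γ hz]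
  unfold dz
  rw [hc, hc, fderiv_real_apply, fderiv_real_apply]
  simp only [map_mul, Complex.conj_I, mul_one]
  have hI := Complex.I_mul_I
  unfold dz dzb
  linear_combination (-(1 / 2) * (1 / den γ z ^ 2)
    * ((1 / 2) * (fderiv ℝ f (mob γ z) 1 - Complex.I * fderiv ℝ f (mob γ z) Complex.I))
    + (1 / 2) * (starRingEnd ℂ) (1 / den γ z ^ 2)
    * ((1 / 2) * (fderiv ℝ f (mob γ z) 1 + Complex.I * fderiv ℝ f (mob γ z) Complex.I))) * hI

/-- the chain rule for `∂̄` -/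
theorem dzb_comp_mob (γ : SL(2, ℝ)) {f : ℂ → ℂ} {z : ℂ} (hz : z ∈ UH)
    (hf : DifferentiableAt ℝ f (mob γ z)) :
    dzb (fun w => f (mob γ w)) z = (starRingEnd ℂ) (1 / (den γ z) ^ 2) * dzb f (mob γ z) := by
  have hc : ∀ v, fderiv ℝ (fun w => f (mob γ w)) z v
      = fderiv ℝ f (mob γ z) (1 / (den γ z) ^ 2 * v) := by
    intro v
    have := fderiv_comp z hf (differentiableAt_mob γ hz)
    have e : (fun w => f (mob γ w)) = f ∘ mob γ := rfl
    rw [e, this, ContinuousLinearMap.comp_apply, fderiv_mob γ hz]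
  unfold dzb
  rw [hc, hc, fderiv_real_apply, fderiv_real_apply]
  simp only [map_mul, Complex.conj_I, mul_one]
  have hI := Complex.I_mul_I
  unfold dz dzb
  linear_combination ((1 / 2) * (1 / den γ z ^ 2)
    * ((1 / 2) * (fderiv ℝ f (mob γ z) 1 - Complex.I * fderiv ℝ f (mob γ z) Complex.I))
    - (1 / 2) * (starRingEnd ℂ) (1 / den γ z ^ 2)
    * ((1 / 2) * (fderiv ℝ f (mob γ z) 1 + Complex.I * fderiv ℝ f (mob γ z) Complex.I))) * hI

/-! ### Phases -/

theorem phase_eq_div (γ : SL(2, ℝ)) {z : ℂ} (hz : z ∈ UH) :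
    phase γ z = (starRingEnd ℂ) (den γ z) / den γ z := by
  have h0 := den_ne_zero γ hz
  unfold phase
  rw [div_pow, ← Complex.mul_conj']
  have h1 : (starRingEnd ℂ) (den γ z) ≠ 0 := by rwa [Ne, map_eq_zero]
  field_simp

/-- the derivative is the phase times its absolute value -/
theorem deriv_eq_phase (γ : SL(2, ℝ)) {z : ℂ} (hz : z ∈ UH) :
    1 / (den γ z) ^ 2 = phase γ z / (‖den γ z‖ : ℂ) ^ 2 := by
  have h0 := den_ne_zero γ hz
  have h1 : (starRingEnd ℂ) (den γ z) ≠ 0 := by rwa [Ne, map_eq_zero]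
  rw [phase_eq_div γ hz, ← Complex.mul_conj']
  field_simp

/-- `y` at the image is `y` times the absolute value of the derivative -/
theorem mob_im_coe (γ : SL(2, ℝ)) {z : ℂ} (hz : z ∈ UH) :
    ((mob γ z).im : ℂ) = (z.im : ℂ) / (‖den γ z‖ : ℂ) ^ 2 := by
  rw [mob_im γ hz]; push_cast; rfl

theorem norm_phase (γ : SL(2, ℝ)) {z : ℂ} (hz : z ∈ UH) : ‖phase γ z‖ = 1 := by
  have h0 : ‖den γ z‖ ≠ 0 := norm_ne_zero_iff.2 (den_ne_zero γ hz)
  rw [phase_eq_div γ hz, norm_div, Complex.norm_conj, div_self h0]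

theorem phase_ne_zero (γ : SL(2, ℝ)) {z : ℂ} (hz : z ∈ UH) : phase γ z ≠ 0 := by
  intro h
  have := norm_phase γ hz
  rw [h, norm_zero] at this
  exact zero_ne_one this

/-- the cocycle relation -/
theorem phase_mul (γ γ' : SL(2, ℝ)) {z : ℂ} (hz : z ∈ UH) :
    phase (γ * γ') z = phase γ (mob γ' z) * phase γ' z := by
  rw [phase_eq_div _ hz, phase_eq_div _ hz, phase_eq_div _ (mob_mem _ _), den_mul γ γ' hz, map_mul,
    mul_div_mul_comm]

theorem phase_one (z : ℂ) : phase 1 z = 1 := by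
  unfold phase; rw [den_one]; simp

theorem phase_neg (γ : SL(2, ℝ)) (z : ℂ) : phase (-γ) z = phase γ z := by
  unfold phase; rw [den_neg, map_neg, norm_neg, neg_div, neg_sq]

theorem phase_inv (γ : SL(2, ℝ)) {z : ℂ} (hz : z ∈ UH) :
    phase γ⁻¹ (mob γ z) = (phase γ z)⁻¹ := by
  have h := phase_mul γ⁻¹ γ hz
  rw [inv_mul_cancel, phase_one] at h
  exact eq_inv_of_mul_eq_one_left h.symm

theorem conj_phase (γ : SL(2, ℝ)) {z : ℂ} (hz : z ∈ UH) :
    (starRingEnd ℂ) (phase γ z) = (phase γ z)⁻¹ := by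
  rw [phase_eq_div γ hz, map_div₀, Complex.conj_conj, inv_div]

theorem contDiffOn_phase (γ : SL(2, ℝ)) : ContDiffOn ℝ ∞ (phase γ) UH := by
  have h : ContDiffOn ℝ ∞ (fun z : ℂ => (starRingEnd ℂ) (den γ z) * (den γ z)⁻¹) UH := by
    refine ContDiffOn.mul ?_ ((contDiff_den γ).contDiffOn.inv fun z hz => den_ne_zero γ hz)
    exact (Complex.conjCLE.contDiff.comp (contDiff_den γ)).contDiffOn
  exact h.congr fun z hz => by rw [phase_eq_div γ hz, div_eq_mul_inv]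

theorem continuousOn_phase (γ : SL(2, ℝ)) : ContinuousOn (phase γ) UH :=
  (contDiffOn_phase γ).continuousOn

/-- if the lower row is `(0, d)` with `d ≠ 0`, the phase is one -/
theorem phase_of_row {γ : SL(2, ℝ)} (h : γ 1 0 = 0) {z : ℂ} (hz : z ∈ UH) : phase γ z = 1 := by
  have h0 := den_ne_zero γ hz
  rw [phase_eq_div γ hz]
  have e : den γ z = ((γ 1 1 : ℝ) : ℂ) := by unfold den; rw [h]; simp
  rw [e] at h0 ⊢
  rw [Complex.conj_ofReal, div_self h0]

/-! ### Directions -/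

theorem I_mem_UH : Complex.I ∈ UH := by
  show (0 : ℝ) < Complex.I.im
  simp

theorem mob_I (g : SL(2, ℝ)) : mob g Complex.I = ((g • (UpperHalfPlane.I : ℍ) : ℍ) : ℂ) := by
  rw [← UpperHalfPlane.coe_I, mob_coe]

theorem norm_dirG (g : SL(2, ℝ)) : ‖dirG g‖ = 1 := by
  unfold dirG; rw [norm_mul, Complex.norm_I, one_mul, norm_phase g I_mem_UH]

theorem dirG_ne_zero (g : SL(2, ℝ)) : dirG g ≠ 0 := by
  intro h
  have := norm_dirG g
  rw [h, norm_zero] at this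
  exact zero_ne_one this

theorem conj_dirG (g : SL(2, ℝ)) : (starRingEnd ℂ) (dirG g) = (dirG g)⁻¹ := by
  rw [Complex.inv_def, Complex.normSq_eq_norm_sq, norm_dirG]; simp

theorem continuous_den_I : Continuous fun g : SL(2, ℝ) => den g Complex.I := by
  unfold den
  have h : ∀ i j, Continuous fun g : SL(2, ℝ) => (g i j : ℝ) := fun i j =>
    (continuous_apply_apply i j).comp (Matrix.SpecialLinearGroup.isClosedEmbedding_val.continuous)
  exact ((Complex.continuous_ofReal.comp (h 1 0)).mul continuous_const).add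
    (Complex.continuous_ofReal.comp (h 1 1))

theorem continuous_dirG : Continuous dirG := by
  have h : dirG = fun g => Complex.I * ((starRingEnd ℂ) (den g Complex.I) / den g Complex.I) := by
    funext g; unfold dirG; rw [phase_eq_div g I_mem_UH]
  rw [h]
  refine continuous_const.mul ((Complex.continuous_conj.comp continuous_den_I).div
    continuous_den_I fun g => den_ne_zero g I_mem_UH)

/-- left multiplication -/
theorem dirG_mul (γ g : SL(2, ℝ)) :
    dirG (γ * g) = phase γ ((g • (UpperHalfPlane.I : ℍ) : ℍ) : ℂ) * dirG g := by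
  unfold dirG; rw [phase_mul γ g I_mem_UH, mob_I]; ring

theorem dirG_neg (g : SL(2, ℝ)) : dirG (-g) = dirG g := by
  unfold dirG; rw [phase_neg]

theorem den_rot (θ : ℝ) : den (Berry.rot θ) Complex.I = Complex.exp (Complex.I * θ) := by
  unfold den Berry.rot
  rw [mul_comm Complex.I (θ : ℂ), Complex.exp_mul_I, ← Complex.ofReal_cos, ← Complex.ofReal_sin]
  simp
  ring

theorem phase_rot (θ : ℝ) : phase (Berry.rot θ) Complex.I = Complex.exp (-2 * Complex.I * θ) := by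
  rw [phase_eq_div _ I_mem_UH, den_rot, ← Complex.exp_conj, ← Complex.exp_sub]
  congr 1
  simp
  ring

/-- right multiplication by a rotation -/
theorem dirG_mul_rot (g : SL(2, ℝ)) (θ : ℝ) :
    dirG (g * Berry.rot θ) = dirG g * Complex.exp (-2 * Complex.I * θ) := by
  rw [dirG_mul, Berry.rot_smul_I, coe_I]
  unfold dirG; rw [phase_rot]; ring

theorem dirG_one : dirG 1 = Complex.I := by
  unfold dirG; rw [phase_one, mul_one]

theorem dirG_rot (θ : ℝ) : dirG (Berry.rot θ) = Complex.I * Complex.exp (-2 * Complex.I * θ) := by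
  unfold dirG; rw [phase_rot]

theorem toSL2R_row (z : ℍ) : (z.toSL2R : SL(2, ℝ)) 1 0 = 0 := by
  show ((z.toSL2R : SL(2, ℝ)) : Matrix (Fin 2) (Fin 2) ℝ) 1 0 = 0
  rw [coe_toSL2R]; simp

theorem phase_toSL2R (z : ℍ) {w : ℂ} (hw : w ∈ UH) : phase z.toSL2R w = 1 :=
  phase_of_row (toSL2R_row z) hw

theorem dirG_frame (p : ℍ × ℝ) :
    dirG (Berry.frame p) = Complex.I * Complex.exp (-2 * Complex.I * p.2) := by
  unfold Berry.frame
  rw [dirG_mul, phase_toSL2R _ (coe_mem_UH _), one_mul, dirG_rot]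

/-- every element is given by its point and an angle -/
theorem exists_frame (g : SL(2, ℝ)) : ∃ θ, g = Berry.frame (g • (UpperHalfPlane.I : ℍ), θ) := by
  have h : ((g • (UpperHalfPlane.I : ℍ)).toSL2R⁻¹ * g) • (UpperHalfPlane.I : ℍ)
      = UpperHalfPlane.I := by
    rw [mul_smul, inv_smul_eq_iff, toSL2R_smul_I]
  obtain ⟨θ, hθ⟩ := Berry.stab_I h
  refine ⟨θ, ?_⟩
  unfold Berry.frame
  rw [← hθ]; group

theorem rot_int_pi (n : ℤ) : Berry.rot (n * Real.pi) = 1 ∨ Berry.rot (n * Real.pi) = -1 := by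
  rcases Int.even_or_odd' n with ⟨k, hk | hk⟩
  · left
    apply Subtype.ext
    have h1 : Real.cos (n * Real.pi) = 1 := by
      rw [hk]; push_cast
      rw [show (2 * (k : ℝ)) * Real.pi = k * (2 * Real.pi) by ring, Real.cos_int_mul_two_pi]
    have h2 : Real.sin (n * Real.pi) = 0 := Real.sin_int_mul_pi n
    simp only [Berry.rot]
    rw [h1, h2]
    ext i j
    fin_cases i <;> fin_cases j <;> simp
  · right
    apply Subtype.ext
    have h1 : Real.cos (n * Real.pi) = -1 := by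
      rw [hk]; push_cast
      rw [show (2 * (k : ℝ) + 1) * Real.pi = k * (2 * Real.pi) + Real.pi by ring,
        Real.cos_add_pi, Real.cos_int_mul_two_pi]
    have h2 : Real.sin (n * Real.pi) = 0 := Real.sin_int_mul_pi n
    simp only [Berry.rot]
    rw [h1, h2]
    ext i j
    fin_cases i <;> fin_cases j <;> simp

/-- the point and the direction determine the element up to its sign -/
theorem eq_or_eq_neg {g g' : SL(2, ℝ)}
    (h1 : g • (UpperHalfPlane.I : ℍ) = g' • (UpperHalfPlane.I : ℍ)) (h2 : dirG g = dirG g') :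
    g' = g ∨ g' = -g := by
  have h : (g⁻¹ * g') • (UpperHalfPlane.I : ℍ) = UpperHalfPlane.I := by
    rw [mul_smul, ← h1, inv_smul_smul]
  obtain ⟨α, hα⟩ := Berry.stab_I h
  have hg : g' = g * Berry.rot α := by rw [← hα]; group
  rw [hg, dirG_mul_rot] at h2
  have h3 : Complex.exp (-2 * Complex.I * α) = 1 :=
    mul_left_cancel₀ (dirG_ne_zero g) (by rw [mul_one]; exact h2.symm)
  rw [Complex.exp_eq_one_iff] at h3
  obtain ⟨n, hn⟩ := h3
  have h4 : (α : ℂ) = ((-n : ℤ) : ℂ) * (Real.pi : ℂ) := by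
    have hI : Complex.I ≠ 0 := Complex.I_ne_zero
    have : (-2 * Complex.I) * (α : ℂ) = (-2 * Complex.I) * (((-n : ℤ) : ℂ) * (Real.pi : ℂ)) := by
      rw [hn]; push_cast; ring
    exact mul_left_cancel₀ (by simp) this
  have h5 : α = ((-n : ℤ) : ℝ) * Real.pi := by exact_mod_cast h4
  rw [h5] at hg
  rcases rot_int_pi (-n) with h | h
  · left; rw [hg, h, mul_one]
  · right; rw [hg, h]; simp

/-! ### The geodesic flow -/

theorem aS_zero : aS 0 = 1 := by
  apply Subtype.ext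
  simp only [aS]
  ext i j
  fin_cases i <;> fin_cases j <;> simp

theorem aS_add (s t : ℝ) : aS (s + t) = aS s * aS t := by
  apply Subtype.ext
  show _ = (aS s).1 * (aS t).1
  simp only [aS, Matrix.mul_fin_two]
  have e1 : Real.exp ((s + t) / 2) = Real.exp (s / 2) * Real.exp (t / 2) := by
    rw [← Real.exp_add]; congr 1; ring
  have e2 : Real.exp (-((s + t) / 2)) = Real.exp (-(s / 2)) * Real.exp (-(t / 2)) := by
    rw [← Real.exp_add]; congr 1; ring
  rw [e1, e2]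
  simp

theorem aS_inv (s : ℝ) : (aS s)⁻¹ = aS (-s) := by
  rw [inv_eq_iff_mul_eq_one, ← aS_add, add_neg_cancel, aS_zero]

theorem continuous_aS : Continuous aS := by
  apply continuous_induced_rng.mpr
  simp only [Function.comp_def]
  show Continuous fun s : ℝ => !![Real.exp (s / 2), 0; 0, Real.exp (-(s / 2))]
  fun_prop

theorem aS_row (s : ℝ) : (aS s) 1 0 = 0 := by
  show ((aS s : SL(2, ℝ)) : Matrix (Fin 2) (Fin 2) ℝ) 1 0 = 0
  simp [aS]

theorem phase_aS (s : ℝ) {z : ℂ} (hz : z ∈ UH) : phase (aS s) z = 1 := phase_of_row (aS_row s) hz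

theorem mob_aS (s : ℝ) {z : ℂ} (hz : z ∈ UH) : mob (aS s) z = (Real.exp s : ℂ) * z := by
  rw [mob_eq _ hz]
  have e1 : den (aS s) z = (Real.exp (-(s / 2)) : ℂ) := by
    unfold den
    have e : (aS s) 1 1 = Real.exp (-(s / 2)) := by
      show ((aS s : SL(2, ℝ)) : Matrix (Fin 2) (Fin 2) ℝ) 1 1 = _
      simp [aS]
    rw [aS_row, e]; simp
  have e2 : (aS s) 0 0 = Real.exp (s / 2) := by
    show ((aS s : SL(2, ℝ)) : Matrix (Fin 2) (Fin 2) ℝ) 0 0 = _
    simp [aS]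
  have e3 : (aS s) 0 1 = 0 := by
    show ((aS s : SL(2, ℝ)) : Matrix (Fin 2) (Fin 2) ℝ) 0 1 = _
    simp [aS]
  have e4 : (Real.exp s : ℂ) * (Real.exp (-(s / 2)) : ℂ) = (Real.exp (s / 2) : ℂ) := by
    rw [← Complex.ofReal_mul, ← Real.exp_add]; congr 2; ring
  have e5 : (Real.exp (-(s / 2)) : ℂ) ≠ 0 := by
    exact_mod_cast (Real.exp_pos _).ne'
  rw [e1, e2, e3, div_eq_iff e5, ← e4]
  push_cast; ring

theorem dirG_aS (s : ℝ) : dirG (aS s) = Complex.I := by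
  unfold dirG; rw [phase_aS s I_mem_UH, mul_one]

theorem aS_smul_I (s : ℝ) :
    ((aS s • (UpperHalfPlane.I : ℍ) : ℍ) : ℂ) = (Real.exp s : ℂ) * Complex.I := by
  rw [← mob_I, mob_aS s I_mem_UH]

/-- the point of `rot θ * a_s` -/
def wS (s θ : ℝ) : ℂ := (((Berry.rot θ * aS s) • (UpperHalfPlane.I : ℍ) : ℍ) : ℂ)

theorem wS_mem (s θ : ℝ) : wS s θ ∈ UH := coe_mem_UH _

theorem wS_aux (s θ : ℝ) :
    (Real.sin θ : ℂ) * ((Real.exp s : ℂ) * Complex.I) + (Real.cos θ : ℂ) ≠ 0 := by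
  have h := den_ne_zero (Berry.rot θ) (coe_mem_UH (aS s • (UpperHalfPlane.I : ℍ)))
  rw [aS_smul_I] at h
  have e2 : (Berry.rot θ) 1 0 = Real.sin θ := by
    show ((Berry.rot θ : SL(2, ℝ)) : Matrix (Fin 2) (Fin 2) ℝ) 1 0 = _
    simp [Berry.rot]
  have e3 : (Berry.rot θ) 1 1 = Real.cos θ := by
    show ((Berry.rot θ : SL(2, ℝ)) : Matrix (Fin 2) (Fin 2) ℝ) 1 1 = _
    simp [Berry.rot]
  unfold den at h
  rwa [e2, e3] at h

/-- the explicit formula -/
theorem wS_eq (s θ : ℝ) : wS s θ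
    = ((Real.cos θ : ℂ) * ((Real.exp s : ℂ) * Complex.I) - (Real.sin θ : ℂ))
      / ((Real.sin θ : ℂ) * ((Real.exp s : ℂ) * Complex.I) + (Real.cos θ : ℂ)) := by
  unfold wS
  rw [mul_smul, ← mob_coe, mob_eq _ (coe_mem_UH _), aS_smul_I]
  have e0 : (Berry.rot θ) 0 0 = Real.cos θ := by
    show ((Berry.rot θ : SL(2, ℝ)) : Matrix (Fin 2) (Fin 2) ℝ) 0 0 = _
    simp [Berry.rot]
  have e1 : (Berry.rot θ) 0 1 = -Real.sin θ := by
    show ((Berry.rot θ : SL(2, ℝ)) : Matrix (Fin 2) (Fin 2) ℝ) 0 1 = _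
    simp [Berry.rot]
  have e2 : (Berry.rot θ) 1 0 = Real.sin θ := by
    show ((Berry.rot θ : SL(2, ℝ)) : Matrix (Fin 2) (Fin 2) ℝ) 1 0 = _
    simp [Berry.rot]
  have e3 : (Berry.rot θ) 1 1 = Real.cos θ := by
    show ((Berry.rot θ : SL(2, ℝ)) : Matrix (Fin 2) (Fin 2) ℝ) 1 1 = _
    simp [Berry.rot]
  unfold den
  rw [e0, e1, e2, e3]
  push_cast
  ring

/-- the direction of `rot θ * a_s` -/
def dS (s θ : ℝ) : ℂ := dirG (Berry.rot θ * aS s)

theorem dS_eq (s θ : ℝ) : dS s θ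
    = Complex.I * ((Real.cos θ : ℂ) - (Real.sin θ : ℂ) * ((Real.exp s : ℂ) * Complex.I))
      / ((Real.sin θ : ℂ) * ((Real.exp s : ℂ) * Complex.I) + (Real.cos θ : ℂ)) := by
  unfold dS
  rw [dirG_mul, dirG_aS, phase_eq_div _ (coe_mem_UH _), aS_smul_I]
  have e2 : (Berry.rot θ) 1 0 = Real.sin θ := by
    show ((Berry.rot θ : SL(2, ℝ)) : Matrix (Fin 2) (Fin 2) ℝ) 1 0 = _
    simp [Berry.rot]
  have e3 : (Berry.rot θ) 1 1 = Real.cos θ := by
    show ((Berry.rot θ : SL(2, ℝ)) : Matrix (Fin 2) (Fin 2) ℝ) 1 1 = _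
    simp [Berry.rot]
  unfold den
  rw [e2, e3]
  simp only [map_add, map_mul, Complex.conj_ofReal, Complex.conj_I]
  ring

theorem norm_dS (s θ : ℝ) : ‖dS s θ‖ = 1 := norm_dirG _

theorem contDiff_wS : ContDiff ℝ ∞ fun p : ℝ × ℝ => wS p.1 p.2 := by
  have h : (fun p : ℝ × ℝ => wS p.1 p.2) = fun p : ℝ × ℝ =>
      ((Real.cos p.2 : ℂ) * ((Real.exp p.1 : ℂ) * Complex.I) - (Real.sin p.2 : ℂ))
      * ((Real.sin p.2 : ℂ) * ((Real.exp p.1 : ℂ) * Complex.I) + (Real.cos p.2 : ℂ))⁻¹ := by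
    funext p; rw [wS_eq p.1 p.2, div_eq_mul_inv]
  rw [h]
  have hc : ContDiff ℝ ∞ fun p : ℝ × ℝ => (Real.cos p.2 : ℂ) :=
    Complex.ofRealCLM.contDiff.comp (Real.contDiff_cos.comp contDiff_snd)
  have hs : ContDiff ℝ ∞ fun p : ℝ × ℝ => (Real.sin p.2 : ℂ) :=
    Complex.ofRealCLM.contDiff.comp (Real.contDiff_sin.comp contDiff_snd)
  have he : ContDiff ℝ ∞ fun p : ℝ × ℝ => (Real.exp p.1 : ℂ) :=
    Complex.ofRealCLM.contDiff.comp (Real.contDiff_exp.comp contDiff_fst)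
  exact ((hc.mul (he.mul contDiff_const)).sub hs).mul
    (((hs.mul (he.mul contDiff_const)).add hc).inv fun p => wS_aux p.1 p.2)

theorem contDiff_dS : ContDiff ℝ ∞ fun p : ℝ × ℝ => dS p.1 p.2 := by
  have h : (fun p : ℝ × ℝ => dS p.1 p.2) = fun p : ℝ × ℝ =>
      Complex.I * ((Real.cos p.2 : ℂ) - (Real.sin p.2 : ℂ) * ((Real.exp p.1 : ℂ) * Complex.I))
      * ((Real.sin p.2 : ℂ) * ((Real.exp p.1 : ℂ) * Complex.I) + (Real.cos p.2 : ℂ))⁻¹ := by
    funext p; rw [dS_eq p.1 p.2, div_eq_mul_inv]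
  rw [h]
  have hc : ContDiff ℝ ∞ fun p : ℝ × ℝ => (Real.cos p.2 : ℂ) :=
    Complex.ofRealCLM.contDiff.comp (Real.contDiff_cos.comp contDiff_snd)
  have hs : ContDiff ℝ ∞ fun p : ℝ × ℝ => (Real.sin p.2 : ℂ) :=
    Complex.ofRealCLM.contDiff.comp (Real.contDiff_sin.comp contDiff_snd)
  have he : ContDiff ℝ ∞ fun p : ℝ × ℝ => (Real.exp p.1 : ℂ) :=
    Complex.ofRealCLM.contDiff.comp (Real.contDiff_exp.comp contDiff_fst)
  exact (contDiff_const.mul (hc.sub (hs.mul (he.mul contDiff_const)))).mul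
    (((hs.mul (he.mul contDiff_const)).add hc).inv fun p => wS_aux p.1 p.2)

theorem toSL2R_smul_coe (z w : ℍ) : ((z.toSL2R • w : ℍ) : ℂ) = (z.re : ℂ) + (z.im : ℂ) * (w : ℂ) := by
  have hs : (Real.sqrt z.im : ℂ) ≠ 0 := by
    exact_mod_cast (Real.sqrt_pos.2 z.im_pos).ne'
  have hsq : (Real.sqrt z.im : ℂ) * (Real.sqrt z.im : ℂ) = (z.im : ℂ) := by
    rw [← Complex.ofReal_mul, Real.mul_self_sqrt z.im_pos.le]
  rw [← mob_coe, mob_eq _ (coe_mem_UH _)]
  have e0 : (z.toSL2R : SL(2, ℝ)) 0 0 = Real.sqrt z.im := by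
    show ((z.toSL2R : SL(2, ℝ)) : Matrix (Fin 2) (Fin 2) ℝ) 0 0 = _
    rw [coe_toSL2R]; simp
  have e1 : (z.toSL2R : SL(2, ℝ)) 0 1 = z.re / Real.sqrt z.im := by
    show ((z.toSL2R : SL(2, ℝ)) : Matrix (Fin 2) (Fin 2) ℝ) 0 1 = _
    rw [coe_toSL2R]; simp
  have e3 : (z.toSL2R : SL(2, ℝ)) 1 1 = 1 / Real.sqrt z.im := by
    show ((z.toSL2R : SL(2, ℝ)) : Matrix (Fin 2) (Fin 2) ℝ) 1 1 = _
    rw [coe_toSL2R]; simp
  unfold den
  rw [toSL2R_row, e0, e1, e3]
  push_cast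
  rw [zero_mul, zero_add, ← hsq]
  field_simp
  ring

/-- the flow in coordinates: the point -/
theorem frame_aS_smul_I (p : ℍ × ℝ) (s : ℝ) :
    (((Berry.frame p * aS s) • (UpperHalfPlane.I : ℍ) : ℍ) : ℂ)
      = (p.1.re : ℂ) + (p.1.im : ℂ) * wS s p.2 := by
  unfold Berry.frame wS
  rw [mul_assoc, mul_smul, toSL2R_smul_coe]

/-- the flow in coordinates: the direction -/
theorem dirG_frame_aS (p : ℍ × ℝ) (s : ℝ) : dirG (Berry.frame p * aS s) = dS s p.2 := by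
  unfold Berry.frame dS
  rw [mul_assoc, dirG_mul, phase_toSL2R _ (coe_mem_UH _), one_mul]

theorem wS_zero (θ : ℝ) : wS 0 θ = Complex.I := by
  unfold wS; rw [aS_zero, mul_one, Berry.rot_smul_I, coe_I]

theorem dS_zero (θ : ℝ) : dS 0 θ = Complex.I * Complex.exp (-2 * Complex.I * θ) := by
  unfold dS; rw [aS_zero, mul_one, dirG_rot]

theorem dS_ne_zero (s θ : ℝ) : dS s θ ≠ 0 := dirG_ne_zero _

/-- the speed of the flow at time zero, in the coordinates of `rot θ` -/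
theorem hasDerivAt_wS (s θ : ℝ) :
    HasDerivAt (fun s => wS s θ) (((wS s θ).im : ℂ) * dS s θ) s := by
  set N : ℂ := (Real.sin θ : ℂ) * ((Real.exp s : ℂ) * Complex.I) + (Real.cos θ : ℂ) with hN
  have hN0 : N ≠ 0 := wS_aux s θ
  have he : HasDerivAt (fun s : ℝ => ((Real.exp s : ℝ) : ℂ)) (Real.exp s : ℂ) s :=
    (Real.hasDerivAt_exp s).ofReal_comp
  have h1 : HasDerivAt (fun s : ℝ => (Real.cos θ : ℂ) * ((Real.exp s : ℂ) * Complex.I)
      - (Real.sin θ : ℂ)) ((Real.cos θ : ℂ) * ((Real.exp s : ℂ) * Complex.I)) s :=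
    ((he.mul_const Complex.I).const_mul _).sub_const _
  have h2 : HasDerivAt (fun s : ℝ => (Real.sin θ : ℂ) * ((Real.exp s : ℂ) * Complex.I)
      + (Real.cos θ : ℂ)) ((Real.sin θ : ℂ) * ((Real.exp s : ℂ) * Complex.I)) s :=
    ((he.mul_const Complex.I).const_mul _).add_const _
  have h3 := h1.div h2 hN0
  have e : (fun s => wS s θ) = (fun s : ℝ => (Real.cos θ : ℂ) * ((Real.exp s : ℂ) * Complex.I)
      - (Real.sin θ : ℂ)) / (fun s : ℝ => (Real.sin θ : ℂ) * ((Real.exp s : ℂ) * Complex.I)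
      + (Real.cos θ : ℂ)) := by
    funext t; rw [wS_eq]; rfl
  rw [e]
  refine h3.congr_deriv ?_
  have hcs : (Real.cos θ : ℂ) ^ 2 + (Real.sin θ : ℂ) ^ 2 = 1 := by
    rw [← Complex.ofReal_pow, ← Complex.ofReal_pow, ← Complex.ofReal_add, Real.cos_sq_add_sin_sq]
    simp
  set Nb : ℂ := (Real.cos θ : ℂ) - (Real.sin θ : ℂ) * ((Real.exp s : ℂ) * Complex.I) with hNb
  have hconj : (starRingEnd ℂ) N = Nb := by
    rw [hN, hNb]
    simp only [map_add, map_mul, Complex.conj_ofReal, Complex.conj_I]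
    ring
  have hNb0 : Nb ≠ 0 := by rw [← hconj]; rwa [Ne, map_eq_zero]
  have him : ((wS s θ).im : ℂ) = (Real.exp s : ℂ) / (N * Nb) := by
    have hm : wS s θ = mob (Berry.rot θ) ((aS s • (UpperHalfPlane.I : ℍ) : ℍ) : ℂ) := by
      unfold wS; rw [mul_smul, mob_coe]
    have hd : den (Berry.rot θ) ((aS s • (UpperHalfPlane.I : ℍ) : ℍ) : ℂ) = N := by
      rw [aS_smul_I]
      have e2 : (Berry.rot θ) 1 0 = Real.sin θ := by
        show ((Berry.rot θ : SL(2, ℝ)) : Matrix (Fin 2) (Fin 2) ℝ) 1 0 = _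
        simp [Berry.rot]
      have e3 : (Berry.rot θ) 1 1 = Real.cos θ := by
        show ((Berry.rot θ : SL(2, ℝ)) : Matrix (Fin 2) (Fin 2) ℝ) 1 1 = _
        simp [Berry.rot]
      unfold den
      rw [e2, e3]
    rw [hm, mob_im_coe _ (coe_mem_UH _), hd, ← Complex.mul_conj', hconj, aS_smul_I]
    congr 1
    simp [-Complex.ofReal_exp]
  rw [him, dS_eq, ← hN, ← hNb]
  have hI := Complex.I_mul_I
  field_simp
  rw [hN]
  linear_combination hcs

/-- the change of the direction along the flow -/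
theorem hasDerivAt_dS (s θ : ℝ) :
    HasDerivAt (fun s => dS s θ) (-Complex.I * ((dS s θ).re : ℂ) * dS s θ) s := by
  set N : ℂ := (Real.sin θ : ℂ) * ((Real.exp s : ℂ) * Complex.I) + (Real.cos θ : ℂ) with hN
  have hN0 : N ≠ 0 := wS_aux s θ
  have he : HasDerivAt (fun s : ℝ => ((Real.exp s : ℝ) : ℂ)) (Real.exp s : ℂ) s :=
    (Real.hasDerivAt_exp s).ofReal_comp
  have h1 : HasDerivAt (fun s : ℝ => Complex.I * ((Real.cos θ : ℂ)
      - (Real.sin θ : ℂ) * ((Real.exp s : ℂ) * Complex.I)))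
      (Complex.I * (-((Real.sin θ : ℂ) * ((Real.exp s : ℂ) * Complex.I)))) s :=
    (((he.mul_const Complex.I).const_mul _).const_sub _).const_mul _
  have h2 : HasDerivAt (fun s : ℝ => (Real.sin θ : ℂ) * ((Real.exp s : ℂ) * Complex.I)
      + (Real.cos θ : ℂ)) ((Real.sin θ : ℂ) * ((Real.exp s : ℂ) * Complex.I)) s :=
    ((he.mul_const Complex.I).const_mul _).add_const _
  have h3 := h1.div h2 hN0
  have e : (fun s => dS s θ) = (fun s : ℝ => Complex.I * ((Real.cos θ : ℂ)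
      - (Real.sin θ : ℂ) * ((Real.exp s : ℂ) * Complex.I)))
      / (fun s : ℝ => (Real.sin θ : ℂ) * ((Real.exp s : ℂ) * Complex.I)
      + (Real.cos θ : ℂ)) := by
    funext t; rw [dS_eq]; rfl
  rw [e]
  refine h3.congr_deriv ?_
  set Nb : ℂ := (Real.cos θ : ℂ) - (Real.sin θ : ℂ) * ((Real.exp s : ℂ) * Complex.I) with hNb
  have hconj : (starRingEnd ℂ) N = Nb := by
    rw [hN, hNb]
    simp only [map_add, map_mul, Complex.conj_ofReal, Complex.conj_I]
    ring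
  have hNb0 : Nb ≠ 0 := by rw [← hconj]; rwa [Ne, map_eq_zero]
  have hd : dS s θ = Complex.I * Nb / N := dS_eq s θ
  have hre : ((dS s θ).re : ℂ) = (Complex.I * Nb / N + -(Complex.I * N / Nb)) / 2 := by
    rw [Complex.re_eq_add_conj, hd, map_div₀, map_mul, Complex.conj_I, ← hconj, Complex.conj_conj]
    ring
  rw [hre, hd, ← hN]
  have hI := Complex.I_mul_I
  have hdif : N - Nb = 2 * ((Real.sin θ : ℂ) * ((Real.exp s : ℂ) * Complex.I)) := by
    rw [hN, hNb]; ring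
  have hs1 : (Real.sin θ : ℂ) * ((Real.exp s : ℂ) * Complex.I) = (N - Nb) / 2 := by
    rw [hdif]; ring
  rw [hs1]
  clear_value N Nb
  field_simp
  linear_combination (Nb ^ 2 - N ^ 2) * hI

theorem rot_add_pi (θ : ℝ) : Berry.rot (θ + Real.pi) = -Berry.rot θ := by
  apply Subtype.ext
  simp only [Berry.rot]
  rw [Real.cos_add_pi, Real.sin_add_pi]
  ext i j
  fin_cases i <;> fin_cases j <;> simp

theorem wS_add_pi (s θ : ℝ) : wS s (θ + Real.pi) = wS s θ := by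
  unfold wS
  rw [rot_add_pi, show -Berry.rot θ * aS s = -(Berry.rot θ * aS s) from neg_mul _ _, neg_smul_eq]

theorem dS_add_pi (s θ : ℝ) : dS s (θ + Real.pi) = dS s θ := by
  unfold dS
  rw [rot_add_pi, show -Berry.rot θ * aS s = -(Berry.rot θ * aS s) from neg_mul _ _, dirG_neg]

/-- the velocity of a geodesic -/
theorem hasDerivAt_point (g : SL(2, ℝ)) (s : ℝ) :
    HasDerivAt (fun s => (((g * aS s) • (UpperHalfPlane.I : ℍ) : ℍ) : ℂ))
      ((((g * aS s) • (UpperHalfPlane.I : ℍ) : ℍ).im : ℂ) * dirG (g * aS s)) s := by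
  obtain ⟨θ, hθ⟩ := exists_frame g
  set z : ℍ := g • (UpperHalfPlane.I : ℍ) with hz
  rw [hθ]
  have e : (fun s => (((Berry.frame (z, θ) * aS s) • (UpperHalfPlane.I : ℍ) : ℍ) : ℂ))
      = fun s => (z.re : ℂ) + (z.im : ℂ) * wS s θ := by
    funext t; exact frame_aS_smul_I (z, θ) t
  rw [e]
  have h := ((hasDerivAt_wS s θ).const_mul (z.im : ℂ)).const_add (z.re : ℂ)
  refine h.congr_deriv ?_
  rw [dirG_frame_aS]
  have e2 : ((((Berry.frame (z, θ) * aS s) • (UpperHalfPlane.I : ℍ) : ℍ).im : ℝ) : ℂ)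
      = (z.im : ℂ) * ((wS s θ).im : ℂ) := by
    have e3 : (((Berry.frame (z, θ) * aS s) • (UpperHalfPlane.I : ℍ) : ℍ)).im
        = ((z.re : ℂ) + (z.im : ℂ) * wS s θ).im := by
      rw [← frame_aS_smul_I (z, θ) s]; rfl
    rw [e3]
    simp
  rw [e2]
  ring

/-- the change of the direction along a geodesic -/
theorem hasDerivAt_dir (g : SL(2, ℝ)) (s : ℝ) :
    HasDerivAt (fun s => dirG (g * aS s))
      (-Complex.I * ((dirG (g * aS s)).re : ℂ) * dirG (g * aS s)) s := by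
  obtain ⟨θ, hθ⟩ := exists_frame g
  rw [hθ]
  have e : (fun s => dirG (Berry.frame (g • (UpperHalfPlane.I : ℍ), θ) * aS s))
      = fun s => dS s θ := by
    funext t; exact dirG_frame_aS _ t
  rw [e, dirG_frame_aS]
  exact hasDerivAt_dS s θ

end

end QE
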