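import Pool.Agent.Lib_helper67.QE.HypDefs

/-!
Module QH_E5, part A (helper27): directions of nearby frames.

If `v⁻¹ w` moves `i` by a small distance but is not close to `±1`, then the directions of `v` and `w`
are separated.
-/

open MeasureTheory Filter Topology
open UpperHalfPlane hiding I
open scoped ContDiff MatrixGroups

namespace QE

namespace FejerN

noncomputable section

/-- the square of (twice the sinh of half) the distance from `i` to `h • i` -/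
def dsq (h : SL(2, ℝ)) : ℝ := (h 0 0 - h 1 1) ^ 2 + (h 0 1 + h 1 0) ^ 2

lemma det_eq (g : SL(2, ℝ)) : g 0 0 * g 1 1 - g 0 1 * g 1 0 = 1 := by
  have h := g.det_coe
  rw [Matrix.det_fin_two] at h
  exact h

lemma den_I (g : SL(2, ℝ)) : den g Complex.I = ⟨g 1 1, g 1 0⟩ := by
  unfold den
  apply Complex.ext <;> simp

lemma q_pos (g : SL(2, ℝ)) : 0 < g 1 0 ^ 2 + g 1 1 ^ 2 := by
  have h := det_eq g
  by_contra hc
  have h1 : g 1 0 = 0 := by nlinarith [sq_nonneg (g 1 0), sq_nonneg (g 1 1)]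
  have h2 : g 1 1 = 0 := by nlinarith [sq_nonneg (g 1 0), sq_nonneg (g 1 1)]
  rw [h1, h2] at h
  norm_num at h

lemma norm_den_I_sq (g : SL(2, ℝ)) : ‖den g Complex.I‖ ^ 2 = g 1 0 ^ 2 + g 1 1 ^ 2 := by
  rw [den_I, ← Complex.normSq_eq_norm_sq, Complex.normSq_mk]
  ring

lemma norm_den_I_pos (g : SL(2, ℝ)) : 0 < ‖den g Complex.I‖ := by
  have := norm_den_I_sq g
  have h2 := q_pos g
  have h3 := norm_nonneg (den g Complex.I)
  rcases h3.eq_or_lt with h | h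
  · rw [← h] at this
    norm_num at this
    linarith
  · exact h

/-- coordinates of `g • i` -/
lemma smul_I_coe (g : SL(2, ℝ)) : ((g • UpperHalfPlane.I : ℍ) : ℂ) =
    ⟨(g 0 0 * g 1 0 + g 0 1 * g 1 1) / (g 1 0 ^ 2 + g 1 1 ^ 2),
      1 / (g 1 0 ^ 2 + g 1 1 ^ 2)⟩ := by
  have hq := q_pos g
  have hd := det_eq g
  rw [coe_specialLinearGroup_apply]
  have hne : ((algebraMap ℝ ℝ) (g 1 0) : ℂ) * (UpperHalfPlane.I : ℂ)
      + ((algebraMap ℝ ℝ) (g 1 1) : ℂ) ≠ 0 := by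
    intro h
    have h1 := congrArg Complex.re h
    have h2 := congrArg Complex.im h
    simp at h1 h2
    rw [h1, h2] at hq
    norm_num at hq
  rw [div_eq_iff hne]
  apply Complex.ext
  · simp
    field_simp
    linear_combination (- g 1 0) * hd
  · simp
    field_simp
    linear_combination (g 1 1) * hd

lemma im_smul_I (g : SL(2, ℝ)) : (g • UpperHalfPlane.I : ℍ).im = 1 / (g 1 0 ^ 2 + g 1 1 ^ 2) := by
  have := congrArg Complex.im (smul_I_coe g)
  exact this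

/-- `dsq (h)` is `|h•i - i|² / im (h•i)` -/
lemma dsq_eq (h : SL(2, ℝ)) :
    dsq h = ‖((h • UpperHalfPlane.I : ℍ) : ℂ) - Complex.I‖ ^ 2 * (h 1 0 ^ 2 + h 1 1 ^ 2) := by
  have hq := q_pos h
  have hd := det_eq h
  rw [smul_I_coe, ← Complex.normSq_eq_norm_sq, Complex.normSq_apply]
  simp only [Complex.sub_re, Complex.sub_im, Complex.I_re, Complex.I_im, sub_zero]
  unfold dsq
  field_simp
  have e : (h 0 0 * h 1 0 + h 0 1 * h 1 1) ^ 2 =
      (h 0 0 ^ 2 + h 0 1 ^ 2) * (h 1 0 ^ 2 + h 1 1 ^ 2) - 1 := by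
    have : (h 0 0 * h 1 0 + h 0 1 * h 1 1) ^ 2 =
      (h 0 0 ^ 2 + h 0 1 ^ 2) * (h 1 0 ^ 2 + h 1 1 ^ 2) - (h 0 0 * h 1 1 - h 0 1 * h 1 0) ^ 2 := by
      ring
    rw [this, hd]
    ring
  have e2 : (h 0 0 - h 1 1) ^ 2 + (h 0 1 + h 1 0) ^ 2 =
      h 0 0 ^ 2 + h 0 1 ^ 2 + h 1 0 ^ 2 + h 1 1 ^ 2 - 2 := by
    linear_combination (-2 : ℝ) * hd
  rw [e2]
  linear_combination (-1 : ℝ) * e

/-- the distance of two points in terms of the group element between the frames -/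
lemma dsq_inv_mul (g g' : SL(2, ℝ)) :
    dsq (g⁻¹ * g') * ((g • UpperHalfPlane.I : ℍ).im * (g' • UpperHalfPlane.I : ℍ).im) =
      ‖((g • UpperHalfPlane.I : ℍ) : ℂ) - ((g' • UpperHalfPlane.I : ℍ) : ℂ)‖ ^ 2 := by
  have h1 : dist (g • UpperHalfPlane.I : ℍ) (g' • UpperHalfPlane.I) =
      dist (UpperHalfPlane.I : ℍ) ((g⁻¹ * g') • UpperHalfPlane.I) := by
    rw [mul_smul, ← dist_smul g (UpperHalfPlane.I : ℍ), smul_inv_smul]
  have h2 := cosh_dist (g • UpperHalfPlane.I : ℍ) (g' • UpperHalfPlane.I)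
  have h3 := cosh_dist (UpperHalfPlane.I : ℍ) ((g⁻¹ * g') • UpperHalfPlane.I)
  rw [h1, h3] at h2
  have h4 := dsq_eq (g⁻¹ * g')
  have h5 : ((g⁻¹ * g') • UpperHalfPlane.I : ℍ).im *
      ((g⁻¹ * g') 1 0 ^ 2 + (g⁻¹ * g') 1 1 ^ 2) = 1 := by
    rw [im_smul_I]
    have := q_pos (g⁻¹ * g')
    field_simp
  have p1 := (g • UpperHalfPlane.I : ℍ).im_pos
  have p2 := (g' • UpperHalfPlane.I : ℍ).im_pos
  have p3 := ((g⁻¹ * g') • UpperHalfPlane.I : ℍ).im_pos
  rw [dist_comm (UpperHalfPlane.I : ℂ), Complex.dist_eq, Complex.dist_eq, I_im, coe_I] at h2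
  rw [h4]
  have h6 : ‖(((g⁻¹ * g') • UpperHalfPlane.I : ℍ) : ℂ) - Complex.I‖ ^ 2 *
      ((g • UpperHalfPlane.I : ℍ).im * (g' • UpperHalfPlane.I : ℍ).im) =
      ‖((g • UpperHalfPlane.I : ℍ) : ℂ) - ((g' • UpperHalfPlane.I : ℍ) : ℂ)‖ ^ 2 *
      ((g⁻¹ * g') • UpperHalfPlane.I : ℍ).im := by
    have h7 := add_left_cancel h2
    rw [div_eq_div_iff (by positivity) (by positivity)] at h7
    linear_combination (1 / 2 : ℝ) * h7
  linear_combination ((g⁻¹ * g') 1 0 ^ 2 + (g⁻¹ * g') 1 1 ^ 2) * h6 +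
    ‖((g • UpperHalfPlane.I : ℍ) : ℂ) - ((g' • UpperHalfPlane.I : ℍ) : ℂ)‖ ^ 2 * h5

/-- the point `h • i` as a quotient -/
lemma smul_I_mul_den (h : SL(2, ℝ)) : ((h • UpperHalfPlane.I : ℍ) : ℂ) * den h Complex.I =
    ((h 0 0 : ℝ) : ℂ) * Complex.I + ((h 0 1 : ℝ) : ℂ) := by
  have hq := q_pos h
  have hd := det_eq h
  rw [smul_I_coe, den_I]
  apply Complex.ext
  · simp
    field_simp
    linear_combination (h 1 0) * hd
  · simp
    field_simp
    linear_combination (- h 1 1) * hd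

lemma den_mul_I (g h : SL(2, ℝ)) :
    den (g * h) Complex.I = den g ((h • UpperHalfPlane.I : ℍ) : ℂ) * den h Complex.I := by
  have e1 := smul_I_mul_den h
  have e2 : den h Complex.I = ((h 1 0 : ℝ) : ℂ) * Complex.I + ((h 1 1 : ℝ) : ℂ) := rfl
  have e3 : (g * h) 1 0 = g 1 0 * h 0 0 + g 1 1 * h 1 0 := by
    simp [Matrix.mul_apply, Fin.sum_univ_two]
  have e4 : (g * h) 1 1 = g 1 0 * h 0 1 + g 1 1 * h 1 1 := by
    simp [Matrix.mul_apply, Fin.sum_univ_two]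
  have e5 : den (g * h) Complex.I = (((g * h) 1 0 : ℝ) : ℂ) * Complex.I + (((g * h) 1 1 : ℝ) : ℂ) :=
    rfl
  have e6 : den g ((h • UpperHalfPlane.I : ℍ) : ℂ) =
    ((g 1 0 : ℝ) : ℂ) * ((h • UpperHalfPlane.I : ℍ) : ℂ) + ((g 1 1 : ℝ) : ℂ) := rfl
  rw [e5, e3, e4, e6, add_mul, mul_assoc, e1, e2]
  push_cast
  ring

lemma phase_mul_I (g h : SL(2, ℝ)) : phase (g * h) Complex.I =
    phase g ((h • UpperHalfPlane.I : ℍ) : ℂ) * phase h Complex.I := by
  unfold phase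
  rw [den_mul_I, map_mul, norm_mul]
  push_cast
  rw [mul_div_mul_comm, mul_pow]

lemma norm_phase {g : SL(2, ℝ)} {z : ℂ} (h : den g z ≠ 0) : ‖phase g z‖ = 1 := by
  unfold phase
  rw [norm_pow, norm_div, RCLike.norm_conj, Complex.norm_real, norm_norm,
    div_self (norm_ne_zero_iff.2 h), one_pow]

lemma norm_phase_I (g : SL(2, ℝ)) : ‖phase g Complex.I‖ = 1 :=
  norm_phase (norm_pos_iff.1 (norm_den_I_pos g))

lemma norm_dirG' (g : SL(2, ℝ)) : ‖dirG g‖ = 1 := by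
  unfold dirG
  rw [norm_mul, Complex.norm_I, one_mul, norm_phase_I]

/-- unit vectors of nearby vectors -/
lemma unit_sub_le (a b : ℂ) (hb : b ≠ 0) : ‖a / (‖a‖ : ℂ) - b / (‖b‖ : ℂ)‖ ≤ 2 * ‖a - b‖ / ‖b‖ := by
  have hb' : 0 < ‖b‖ := norm_pos_iff.2 hb
  by_cases ha : a = 0
  · subst ha
    simp only [zero_div, zero_sub, norm_neg, norm_div, Complex.norm_real, norm_norm]
    rw [div_self hb'.ne', mul_div_assoc, div_self hb'.ne']
    norm_num
  · have ha' : 0 < ‖a‖ := norm_pos_iff.2 ha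
    have e : a / (‖a‖ : ℂ) - b / (‖b‖ : ℂ) =
        (a - b) / (‖b‖ : ℂ) + a / (‖a‖ : ℂ) * (((‖b‖ - ‖a‖ : ℝ) : ℂ) / (‖b‖ : ℂ)) := by
      have h1 : (‖a‖ : ℂ) ≠ 0 := by exact_mod_cast ha'.ne'
      have h2 : (‖b‖ : ℂ) ≠ 0 := by exact_mod_cast hb'.ne'
      push_cast
      field_simp
      ring
    rw [e]
    refine (norm_add_le _ _).trans ?_
    rw [norm_div, norm_mul, norm_div, norm_div, Complex.norm_real, Complex.norm_real,
      Complex.norm_real, norm_norm, norm_norm, div_self ha'.ne', one_mul, Real.norm_eq_abs]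
    have h3 : |‖b‖ - ‖a‖| ≤ ‖a - b‖ := by
      rw [norm_sub_rev]
      exact abs_norm_sub_norm_le b a
    rw [← add_div]
    gcongr
    linarith

/-- the phase of `g` varies slowly -/
lemma phase_sub_le (g : SL(2, ℝ)) (z : ℂ) (hz : den g z ≠ 0) :
    ‖phase g z - phase g Complex.I‖ ≤ 4 * ‖z - Complex.I‖ := by
  have hb := norm_den_I_pos g
  have hbne : den g Complex.I ≠ 0 := norm_pos_iff.1 hb
  have h1 : ‖den g z - den g Complex.I‖ ≤ ‖den g Complex.I‖ * ‖z - Complex.I‖ := by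
    have e : den g z - den g Complex.I = ((g 1 0 : ℝ) : ℂ) * (z - Complex.I) := by
      unfold den
      ring
    rw [e, norm_mul, Complex.norm_real, Real.norm_eq_abs]
    gcongr
    have := norm_den_I_sq g
    refine abs_le_of_sq_le_sq ?_ hb.le
    nlinarith [sq_nonneg (g 1 1)]
  set u : ℂ := (starRingEnd ℂ) (den g z) / (‖den g z‖ : ℂ) with hu
  set v : ℂ := (starRingEnd ℂ) (den g Complex.I) / (‖den g Complex.I‖ : ℂ) with hv
  have hu1 : ‖u‖ = 1 := by
    rw [hu, norm_div, RCLike.norm_conj, Complex.norm_real, norm_norm,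
      div_self (norm_ne_zero_iff.2 hz)]
  have hv1 : ‖v‖ = 1 := by
    rw [hv, norm_div, RCLike.norm_conj, Complex.norm_real, norm_norm,
      div_self hb.ne']
  have huv : ‖u - v‖ ≤ 2 * ‖z - Complex.I‖ := by
    have e : u - v = (starRingEnd ℂ) (den g z / (‖den g z‖ : ℂ)
        - den g Complex.I / (‖den g Complex.I‖ : ℂ)) := by
      rw [hu, hv, map_sub, map_div₀, map_div₀, Complex.conj_ofReal, Complex.conj_ofReal]
    rw [e, RCLike.norm_conj]
    refine (unit_sub_le _ _ hbne).trans ?_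
    rw [div_le_iff₀ hb]
    nlinarith
  have e2 : phase g z - phase g Complex.I = (u + v) * (u - v) := by
    unfold phase
    ring
  rw [e2, norm_mul]
  have h4 : ‖u + v‖ ≤ 2 := (norm_add_le _ _).trans (by rw [hu1, hv1]; norm_num)
  nlinarith [norm_nonneg (u - v), norm_nonneg (u + v)]

/-- the phase of `h` at `i` is far from one if `h 1 0` is not small -/
lemma phase_I_sub_one (h : SL(2, ℝ)) :
    2 * |h 1 0| = ‖phase h Complex.I - 1‖ * ‖den h Complex.I‖ := by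
  have hb := norm_den_I_pos h
  set w : ℂ := (starRingEnd ℂ) (den h Complex.I) / (‖den h Complex.I‖ : ℂ) with hw
  have hw1 : ‖w‖ = 1 := by
    rw [hw, norm_div, RCLike.norm_conj, Complex.norm_real, norm_norm, div_self hb.ne']
  have h1 : w * (starRingEnd ℂ) w = 1 := by
    rw [Complex.mul_conj, Complex.normSq_eq_norm_sq, hw1]
    norm_num
  have h2 : phase h Complex.I - 1 = w * (w - (starRingEnd ℂ) w) := by
    unfold phase
    rw [mul_sub, h1]
    ring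
  have h3 : w - (starRingEnd ℂ) w = ((2 * w.im : ℝ) : ℂ) * Complex.I := by
    rw [Complex.sub_conj]
  have h4 : w.im = - h 1 0 / ‖den h Complex.I‖ := by
    rw [hw, den_I, Complex.div_ofReal_im]
    simp
  rw [h2, norm_mul, hw1, one_mul, h3, norm_mul, Complex.norm_I, mul_one, Complex.norm_real,
    Real.norm_eq_abs, h4, abs_mul, abs_div, abs_neg, abs_of_pos hb]
  simp only [Nat.abs_ofNat]
  field_simp

/-- **separation of directions**: if `g⁻¹ g'` moves `i` a little but is not in `Kset`, the directions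
of `g` and `g'` differ by at least `ε / 8` -/
lemma dir_sep (g g' : SL(2, ℝ)) (d ε : ℝ) (hd : 0 < d) (hdε : d ≤ ε / 64) (hε : ε ≤ 1)
    (h1 : dsq (g⁻¹ * g') < d ^ 2) (h2 : g⁻¹ * g' ∉ Kset d ε) :
    ε / 8 ≤ ‖dirG g' - dirG g‖ := by
  set h : SL(2, ℝ) := g⁻¹ * g' with hh
  have hg' : g' = g * h := by rw [hh, mul_inv_cancel_left]
  have h3 : ε ≤ |h 0 1 - h 1 0| := by
    by_contra hc
    exact h2 ⟨h1, not_le.1 hc⟩
  have hq := q_pos h
  have hdet := det_eq h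
  have hdd : dsq h = h 0 0 ^ 2 + h 0 1 ^ 2 + h 1 0 ^ 2 + h 1 1 ^ 2 - 2 := by
    unfold dsq
    linear_combination (-2 : ℝ) * hdet
  have hd1 : d ≤ 1 / 64 := by linarith
  have hd2 : d ^ 2 ≤ 1 := by nlinarith
  have hsum : |h 0 1 + h 1 0| < d := by
    apply abs_lt_of_sq_lt_sq _ hd.le
    unfold dsq at h1
    nlinarith [sq_nonneg (h 0 0 - h 1 1)]
  have h10 : ε / 4 ≤ |h 1 0| := by
    have e : h 0 1 - h 1 0 = (h 0 1 + h 1 0) - 2 * h 1 0 := by ring
    have := abs_sub (h 0 1 + h 1 0) (2 * h 1 0)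
    rw [← e, abs_mul] at this
    have h2' : |(2 : ℝ)| = 2 := by norm_num
    rw [h2'] at this
    linarith
  -- bounds for the size of the denominator
  have hq3 : h 1 0 ^ 2 + h 1 1 ^ 2 ≤ 3 := by
    nlinarith [sq_nonneg (h 0 0), sq_nonneg (h 0 1)]
  have hP3 : h 0 0 ^ 2 + h 0 1 ^ 2 ≤ 3 := by
    nlinarith [sq_nonneg (h 1 0), sq_nonneg (h 1 1)]
  have hq13 : 1 / 3 ≤ h 1 0 ^ 2 + h 1 1 ^ 2 := by
    have e : (h 0 0 ^ 2 + h 0 1 ^ 2) * (h 1 0 ^ 2 + h 1 1 ^ 2) =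
        (h 0 0 * h 1 0 + h 0 1 * h 1 1) ^ 2 + (h 0 0 * h 1 1 - h 0 1 * h 1 0) ^ 2 := by ring
    rw [hdet] at e
    nlinarith [sq_nonneg (h 0 0 * h 1 0 + h 0 1 * h 1 1)]
  have hρ : ‖den h Complex.I‖ ≤ 2 := by
    have := norm_den_I_sq h
    nlinarith [norm_nonneg (den h Complex.I)]
  have hb := norm_den_I_pos h
  have hA : ε / 4 ≤ ‖phase h Complex.I - 1‖ := by
    have e := phase_I_sub_one h
    have : 2 * |h 1 0| ≤ ‖phase h Complex.I - 1‖ * 2 := by
      rw [e]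
      exact mul_le_mul_of_nonneg_left hρ (norm_nonneg _)
    linarith
  -- the point `h • i` is close to `i`
  have hz : ‖((h • UpperHalfPlane.I : ℍ) : ℂ) - Complex.I‖ ≤ 2 * d := by
    have e := dsq_eq h
    have h5 : ‖((h • UpperHalfPlane.I : ℍ) : ℂ) - Complex.I‖ ^ 2 ≤ (2 * d) ^ 2 := by
      have h6 : ‖((h • UpperHalfPlane.I : ℍ) : ℂ) - Complex.I‖ ^ 2 * (1 / 3) ≤ dsq h := by
        rw [e]
        exact mul_le_mul_of_nonneg_left hq13 (sq_nonneg _)
      nlinarith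
    exact le_of_sq_le_sq h5 (by positivity)
  have hden : den g ((h • UpperHalfPlane.I : ℍ) : ℂ) ≠ 0 := by
    intro h0
    have := den_mul_I g h
    rw [h0, zero_mul] at this
    exact (norm_pos_iff.1 (norm_den_I_pos (g * h))) this
  have hB := phase_sub_le g ((h • UpperHalfPlane.I : ℍ) : ℂ) hden
  have e3 : dirG g' - dirG g = Complex.I *
      (phase g ((h • UpperHalfPlane.I : ℍ) : ℂ) * (phase h Complex.I - 1) +
        (phase g ((h • UpperHalfPlane.I : ℍ) : ℂ) - phase g Complex.I)) := by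
    unfold dirG
    rw [hg', phase_mul_I]
    ring
  rw [e3, norm_mul, Complex.norm_I, one_mul]
  have h7 : ‖phase g ((h • UpperHalfPlane.I : ℍ) : ℂ) * (phase h Complex.I - 1)‖ -
      ‖phase g ((h • UpperHalfPlane.I : ℍ) : ℂ) - phase g Complex.I‖ ≤
      ‖phase g ((h • UpperHalfPlane.I : ℍ) : ℂ) * (phase h Complex.I - 1) +
        (phase g ((h • UpperHalfPlane.I : ℍ) : ℂ) - phase g Complex.I)‖ := by
    have := norm_sub_norm_le (phase g ((h • UpperHalfPlane.I : ℍ) : ℂ) * (phase h Complex.I - 1))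
      (-(phase g ((h • UpperHalfPlane.I : ℍ) : ℂ) - phase g Complex.I))
    rw [norm_neg, sub_neg_eq_add] at this
    exact this
  rw [norm_mul, norm_phase hden, one_mul] at h7
  linarith

end

end FejerN

end QE
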