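import Mathlib

/-!
Module QH_E5, part C (helper27): the Dirichlet kernel, and the sum of the squares of the Fourier
coefficients of a measure.
-/

open MeasureTheory Filter Topology Set
open scoped ENNReal

namespace QE

namespace FejerN

noncomputable section

/-- symmetric sums of powers -/
def dsum (N : ℕ) (w : ℂ) : ℂ := ∑ k ∈ Finset.Ioo (-(N : ℤ)) N, w ^ k

lemma card_Ioo_le (N : ℕ) : (Finset.Ioo (-(N : ℤ)) N).card ≤ 2 * N := by
  rw [Int.card_Ioo]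
  omega

lemma norm_dsum_le (N : ℕ) (w : ℂ) (hw : ‖w‖ = 1) : ‖dsum N w‖ ≤ 2 * N := by
  unfold dsum
  refine (norm_sum_le _ _).trans ?_
  have h1 : ∀ k ∈ Finset.Ioo (-(N : ℤ)) N, ‖w ^ k‖ = 1 := fun k _ => by
    rw [norm_zpow, hw, one_zpow]
  rw [Finset.sum_congr rfl h1, Finset.sum_const, nsmul_eq_mul, mul_one]
  exact_mod_cast card_Ioo_le N

lemma dsum_mul (w : ℂ) (hw0 : w ≠ 0) (N : ℕ) :
    (w - 1) * dsum (N + 1) w = w ^ ((N : ℤ) + 1) - w ^ (-(N : ℤ)) := by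
  induction N with
  | zero =>
    have : Finset.Ioo (-((0 + 1 : ℕ) : ℤ)) ((0 + 1 : ℕ) : ℤ) = {0} := by decide
    unfold dsum
    rw [this, Finset.sum_singleton]
    simp
  | succ N ih =>
    have hset : Finset.Ioo (-((N + 1 + 1 : ℕ) : ℤ)) ((N + 1 + 1 : ℕ) : ℤ) =
        insert ((N : ℤ) + 1) (insert (-((N : ℤ) + 1))
          (Finset.Ioo (-((N + 1 : ℕ) : ℤ)) ((N + 1 : ℕ) : ℤ))) := by
      ext x
      simp only [Finset.mem_Ioo, Finset.mem_insert]
      push_cast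
      omega
    have hn1 : ((N : ℤ) + 1) ∉ insert (-((N : ℤ) + 1))
          (Finset.Ioo (-((N + 1 : ℕ) : ℤ)) ((N + 1 : ℕ) : ℤ)) := by
      simp only [Finset.mem_Ioo, Finset.mem_insert]
      push_cast
      omega
    have hn2 : -((N : ℤ) + 1) ∉ (Finset.Ioo (-((N + 1 : ℕ) : ℤ)) ((N + 1 : ℕ) : ℤ)) := by
      simp only [Finset.mem_Ioo]
      push_cast
      omega
    have h1 : dsum (N + 1 + 1) w = w ^ ((N : ℤ) + 1) + (w ^ (-((N : ℤ) + 1)) + dsum (N + 1) w) := by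
      unfold dsum
      rw [hset, Finset.sum_insert hn1, Finset.sum_insert hn2]
    rw [h1, mul_add, mul_add, ih]
    have e1 : w ^ ((N : ℤ) + 1 + 1) = w * w ^ ((N : ℤ) + 1) := by
      rw [zpow_add₀ hw0 ((N : ℤ) + 1) 1, zpow_one, mul_comm]
    have e2 : w ^ (-(N : ℤ)) = w * w ^ (-((N : ℤ) + 1)) := by
      rw [← zpow_one_add₀ hw0]
      congr 1
      ring
    push_cast
    rw [e1, e2]
    ring

lemma norm_dsum_mul_le (N : ℕ) (w : ℂ) (hw : ‖w‖ = 1) : ‖w - 1‖ * ‖dsum N w‖ ≤ 2 := by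
  have hw0 : w ≠ 0 := by
    intro h
    rw [h, norm_zero] at hw
    exact zero_ne_one hw
  cases N with
  | zero =>
    have : dsum 0 w = 0 := by
      unfold dsum
      simp
    rw [this, norm_zero, mul_zero]
    norm_num
  | succ N =>
    rw [← norm_mul, dsum_mul w hw0]
    refine (norm_sub_le _ _).trans ?_
    rw [norm_zpow, norm_zpow, hw, one_zpow, one_zpow]
    norm_num

variable {X : Type*} [MeasurableSpace X]

/-- sum of squares of Fourier coefficients, as a double integral -/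
lemma sum_sq_le (μ : Measure X) [SFinite μ] (φ : X → ℝ) (hφ0 : ∀ x, 0 ≤ φ x)
    (hφ : Integrable φ μ) (hφm : Measurable φ) (a : X → ℂ) (ha : Measurable a)
    (ha1 : ∀ x, ‖a x‖ = 1) (N : ℕ) :
    ENNReal.ofReal (∑ k ∈ Finset.Ioo (-(N : ℤ)) N,
      ‖∫ x, (φ x : ℂ) * (starRingEnd ℂ) (a x ^ k) ∂μ‖ ^ 2) ≤
    ∫⁻ x, ∫⁻ y, ENNReal.ofReal (φ x) * ENNReal.ofReal (φ y) *
      ENNReal.ofReal ‖dsum N ((starRingEnd ℂ) (a x) * a y)‖ ∂μ ∂μ := by
  have hint : ∀ k : ℤ, Integrable (fun x => (φ x : ℂ) * (starRingEnd ℂ) (a x ^ k)) μ := by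
    intro k
    refine (hφ.ofReal (𝕜 := ℂ)).mul_bdd (c := 1) ?_ ?_
    · exact (Complex.continuous_conj.measurable.comp (ha.pow_const k)).aestronglyMeasurable
    · refine Eventually.of_forall fun x => ?_
      rw [RCLike.norm_conj, norm_zpow, ha1, one_zpow]
  have hint' : ∀ k : ℤ, Integrable (fun x => (φ x : ℂ) * (a x ^ k)) μ := by
    intro k
    refine (hφ.ofReal (𝕜 := ℂ)).mul_bdd (c := 1) ?_ ?_
    · exact (ha.pow_const k).aestronglyMeasurable
    · refine Eventually.of_forall fun x => ?_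
      rw [norm_zpow, ha1, one_zpow]
  have h1 : ∀ k : ℤ, ((‖∫ x, (φ x : ℂ) * (starRingEnd ℂ) (a x ^ k) ∂μ‖ ^ 2 : ℝ) : ℂ) =
      ∫ z : X × X, ((φ z.1 : ℂ) * (starRingEnd ℂ) (a z.1 ^ k)) * ((φ z.2 : ℂ) * (a z.2 ^ k))
        ∂(μ.prod μ) := by
    intro k
    rw [integral_prod_mul (fun x => (φ x : ℂ) * (starRingEnd ℂ) (a x ^ k))
      (fun x => (φ x : ℂ) * (a x ^ k))]
    have h2 : ∫ x, (φ x : ℂ) * (a x ^ k) ∂μ =
        (starRingEnd ℂ) (∫ x, (φ x : ℂ) * (starRingEnd ℂ) (a x ^ k) ∂μ) := by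
      rw [← integral_conj]
      apply integral_congr_ae
      refine Eventually.of_forall fun x => ?_
      simp
    rw [h2, Complex.mul_conj, Complex.normSq_eq_norm_sq]
  have hprod : ∀ k : ℤ, Integrable (fun z : X × X =>
      ((φ z.1 : ℂ) * (starRingEnd ℂ) (a z.1 ^ k)) * ((φ z.2 : ℂ) * (a z.2 ^ k))) (μ.prod μ) :=
    fun k => (hint k).mul_prod (hint' k)
  have h3 : ((∑ k ∈ Finset.Ioo (-(N : ℤ)) N,
      ‖∫ x, (φ x : ℂ) * (starRingEnd ℂ) (a x ^ k) ∂μ‖ ^ 2 : ℝ) : ℂ) =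
      ∫ z : X × X, ((φ z.1 : ℂ) * (φ z.2 : ℂ)) * dsum N ((starRingEnd ℂ) (a z.1) * a z.2)
        ∂(μ.prod μ) := by
    push_cast
    have h4 : ∀ k ∈ Finset.Ioo (-(N : ℤ)) N,
        ((‖∫ x, (φ x : ℂ) * (starRingEnd ℂ) (a x ^ k) ∂μ‖ : ℂ)) ^ 2 =
        ∫ z : X × X, ((φ z.1 : ℂ) * (starRingEnd ℂ) (a z.1 ^ k)) * ((φ z.2 : ℂ) * (a z.2 ^ k))
        ∂(μ.prod μ) := by
      intro k _
      rw [← h1 k]
      push_cast
      rfl
    rw [Finset.sum_congr rfl h4, ← integral_finsetSum _ (fun k _ => hprod k)]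
    apply integral_congr_ae
    refine Eventually.of_forall fun z => ?_
    simp only [dsum, Finset.mul_sum]
    refine Finset.sum_congr rfl fun k _ => ?_
    rw [map_zpow₀, mul_zpow]
    ring
  have h5 : 0 ≤ ∑ k ∈ Finset.Ioo (-(N : ℤ)) N,
      ‖∫ x, (φ x : ℂ) * (starRingEnd ℂ) (a x ^ k) ∂μ‖ ^ 2 :=
    Finset.sum_nonneg fun k _ => sq_nonneg _
  have h6 : ENNReal.ofReal (∑ k ∈ Finset.Ioo (-(N : ℤ)) N,
      ‖∫ x, (φ x : ℂ) * (starRingEnd ℂ) (a x ^ k) ∂μ‖ ^ 2) =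
      ‖∫ z : X × X, ((φ z.1 : ℂ) * (φ z.2 : ℂ)) * dsum N ((starRingEnd ℂ) (a z.1) * a z.2)
        ∂(μ.prod μ)‖ₑ := by
    rw [← h3, ← ofReal_norm, Complex.norm_real, Real.norm_eq_abs, abs_of_nonneg h5]
  rw [h6]
  refine (enorm_integral_le_lintegral_enorm _).trans ?_
  have hdm : Measurable fun z : X × X => dsum N ((starRingEnd ℂ) (a z.1) * a z.2) := by
    unfold dsum
    refine Finset.measurable_sum _ fun k _ => ?_
    refine Measurable.pow_const ?_ k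
    exact (Complex.continuous_conj.measurable.comp (ha.comp measurable_fst)).mul
      (ha.comp measurable_snd)
  rw [lintegral_prod]
  · apply lintegral_mono
    intro x
    apply lintegral_mono
    intro y
    simp only
    rw [← ofReal_norm, norm_mul, norm_mul, Complex.norm_real, Complex.norm_real,
      Real.norm_eq_abs, Real.norm_eq_abs, abs_of_nonneg (hφ0 x), abs_of_nonneg (hφ0 y),
      ENNReal.ofReal_mul (mul_nonneg (hφ0 x) (hφ0 y)), ENNReal.ofReal_mul (hφ0 x)]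
  · apply Measurable.aemeasurable
    apply Measurable.enorm
    exact ((Complex.measurable_ofReal.comp (hφm.comp measurable_fst)).mul
      (Complex.measurable_ofReal.comp (hφm.comp measurable_snd))).mul hdm

end

end FejerN

end QE
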