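import Pool.Agent.Lib_helper67.QE.HypDefs

/-!
Module QH_E5, part B (helper27): a group with a fundamental domain for the hyperbolic area is
discrete; integrals over compact sets are bounded by integrals over the fundamental domain.
-/

open MeasureTheory Filter Topology Set Pointwise
open UpperHalfPlane hiding I
open scoped ContDiff MatrixGroups ENNReal

namespace QE

namespace FejerN

noncomputable section

variable [MeasurableSpace SL(2, ℝ)] [BorelSpace SL(2, ℝ)]
variable {Γ : Subgroup SL(2, ℝ)} {D : Set ℍ}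

/-- a countable group with a fundamental domain is discrete -/
lemma discrete_of_fund [Countable Γ] (hDm : MeasurableSet D)
    (hD : IsFundamentalDomain Γ D (volume : Measure ℍ)) :
    ∃ V ∈ 𝓝 (1 : SL(2, ℝ)), ∀ γ ∈ Γ, γ ∈ V → γ = 1 := by
  classical
  have hF := Berry.fd_isFund hD
  have hFm : MeasurableSet (Berry.Fd D) := Berry.proj_measurable hDm
  have hne : (Berry.nuF : Measure SL(2, ℝ)) (Berry.Fd D) ≠ 0 := by
    rw [Berry.nuF_fd hDm]
    refine mul_ne_zero ?_ ?_
    · refine hD.measure_ne_zero ?_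
      intro h0
      have := Berry.volume_pos_of_isOpen isOpen_univ ⟨UpperHalfPlane.I, mem_univ UpperHalfPlane.I⟩
      rw [h0] at this
      simp at this
    · rw [Ne, ENNReal.ofReal_eq_zero, not_le]
      positivity
  set B : Set SL(2, ℝ) := ⋃ γ : {γ : Γ // γ ≠ 1}, (Berry.Fd D ∩ (γ.1 • Berry.Fd D)) with hB
  have hBm : MeasurableSet B := by
    refine MeasurableSet.iUnion fun γ => hFm.inter ?_
    exact hFm.const_smul γ.1
  have hB0 : (Berry.nuF : Measure SL(2, ℝ)) B = 0 := by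
    rw [hB, measure_iUnion_null_iff]
    intro γ
    have h := hF.aedisjoint (show (1 : Γ) ≠ γ.1 from fun h => γ.2 h.symm)
    have h2 : (Berry.nuF : Measure SL(2, ℝ)) ((1 : Γ) • Berry.Fd D ∩ γ.1 • Berry.Fd D) = 0 := h
    rwa [one_smul] at h2
  set E : Set SL(2, ℝ) := Berry.Fd D \ B with hE
  have hEm : MeasurableSet E := hFm.diff hBm
  have hEpos : 0 < (Berry.nuF : Measure SL(2, ℝ)) E := by
    rw [hE, measure_sdiff_null hB0]
    exact pos_iff_ne_zero.2 hne
  have hst := Measure.div_mem_nhds_one_of_haar_pos (Berry.nuF : Measure SL(2, ℝ)) E hEm hEpos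
  refine ⟨E / E, hst, ?_⟩
  intro γ hγ hm
  obtain ⟨a, ha, b, hb, hab⟩ := hm
  by_contra hne1
  have h1 : a = γ * b := by
    rw [← hab]
    simp
  apply ha.2
  rw [hB, mem_iUnion]
  refine ⟨⟨⟨γ, hγ⟩, fun h => hne1 (congrArg Subtype.val h)⟩, ha.1, ?_⟩
  rw [h1]
  exact ⟨b, hb.1, rfl⟩

/-- the number of `γ` with `γ g i ∈ S` is bounded, for a compact set `S` -/
lemma mult_bound [Countable Γ] (hDm : MeasurableSet D)
    (hD : IsFundamentalDomain Γ D (volume : Measure ℍ)) {S : Set ℍ} (hS : IsCompact S) :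
    ∃ M : ℕ, ∀ g : SL(2, ℝ), ∀ t : Finset Γ,
      (∀ γ ∈ t, ((γ : SL(2, ℝ)) * g) ∈ Berry.Fd S) → t.card ≤ M := by
  classical
  obtain ⟨V, hV, hVd⟩ := discrete_of_fund hDm hD
  obtain ⟨W, hW, hWV⟩ := exists_nhds_split_inv hV
  have hc : IsCompact (Berry.Fd S) := isProperMap_smul_I.isCompact_preimage hS
  obtain ⟨t₀, ht₀, hcov⟩ := hc.elim_nhds_subcover (fun x => (fun y => y * x⁻¹) ⁻¹' W) (by
    intro x _
    apply ContinuousAt.preimage_mem_nhds (continuous_mul_const x⁻¹).continuousAt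
    rw [mul_inv_cancel]
    exact hW)
  refine ⟨t₀.card, ?_⟩
  intro g t ht
  have hch : ∀ γ : Γ, ∃ x : SL(2, ℝ), γ ∈ t → x ∈ t₀ ∧ ((γ : SL(2, ℝ)) * g) * x⁻¹ ∈ W := by
    intro γ
    by_cases h : γ ∈ t
    · have h1 := hcov (ht γ h)
      rw [mem_iUnion₂] at h1
      obtain ⟨x, hx, hx2⟩ := h1
      exact ⟨x, fun _ => ⟨hx, hx2⟩⟩
    · exact ⟨1, fun h' => absurd h' h⟩
  choose c hcc using hch
  apply Finset.card_le_card_of_injOn c
  · intro γ hγ
    exact (hcc γ hγ).1
  · intro γ hγ γ' hγ' he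
    have h1 := (hcc γ hγ).2
    have h2 := (hcc γ' hγ').2
    rw [← he] at h2
    have h3 := hWV _ h1 _ h2
    have h4 : (γ : SL(2, ℝ)) * g * (c γ)⁻¹ / ((γ' : SL(2, ℝ)) * g * (c γ)⁻¹) =
        ((γ * γ'⁻¹ : Γ) : SL(2, ℝ)) := by
      simp [div_eq_mul_inv, mul_assoc]
    rw [h4] at h3
    have h5 := hVd _ (γ * γ'⁻¹).2 h3
    have h6 : γ * γ'⁻¹ = 1 := Subtype.ext h5
    exact mul_inv_eq_one.1 h6

variable {μ : Measure SL(2, ℝ)} {p : ℍ → ℝ}

lemma proj_ac (hμ : FlowMeas0 Γ D μ p) :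
    Measure.QuasiMeasurePreserving (fun g : SL(2, ℝ) => g • UpperHalfPlane.I) μ
      (volume : Measure ℍ) := by
  refine ⟨Berry.proj_measurable, ?_⟩
  refine Measure.AbsolutelyContinuous.mk fun s hs h0 => ?_
  rw [Measure.map_apply Berry.proj_measurable hs, hμ.proj s hs]
  exact setLIntegral_measure_zero s _ h0

lemma fd_isFund_mu (hD : IsFundamentalDomain Γ D (volume : Measure ℍ)) (hμ : FlowMeas0 Γ D μ p) :
    IsFundamentalDomain Γ (Berry.Fd D) μ :=
  hD.preimage_of_equiv (proj_ac hμ) (e := id) Function.bijective_id fun γ g => by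
    show (γ • g) • UpperHalfPlane.I = γ • (g • UpperHalfPlane.I)
    exact mul_smul (γ : SL(2, ℝ)) g UpperHalfPlane.I

/-- integrals of invariant functions over compact sets are bounded by integrals over the fundamental
domain -/
lemma lintegral_compact_le [Countable Γ] (hDm : MeasurableSet D)
    (hD : IsFundamentalDomain Γ D (volume : Measure ℍ)) (hμ : FlowMeas0 Γ D μ p)
    {S : Set ℍ} (hS : IsCompact S) :
    ∃ M : ℕ, ∀ f : SL(2, ℝ) → ℝ≥0∞, Measurable f → (∀ γ ∈ Γ, ∀ g, f (γ * g) = f g) →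
      ∫⁻ g in Berry.Fd S, f g ∂μ ≤ M * ∫⁻ g in Berry.Fd D, f g ∂μ := by
  classical
  obtain ⟨M, hM⟩ := mult_bound hDm hD hS
  refine ⟨M, ?_⟩
  intro f hf hinv
  have hinvm : SMulInvariantMeasure Γ SL(2, ℝ) μ := by
    constructor
    intro γ s hs
    have h1 := hμ.left γ γ.2
    have hm : Measurable fun g : SL(2, ℝ) => (γ : SL(2, ℝ)) * g :=
      (continuous_const_mul _).measurable
    conv_rhs => rw [← h1]
    rw [Measure.map_apply hm hs]
    rfl
  have hF := fd_isFund_mu hD hμ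
  have hFm : MeasurableSet (Berry.Fd D) := Berry.proj_measurable hDm
  have hSm : MeasurableSet (Berry.Fd S) := Berry.proj_measurable hS.isClosed.measurableSet
  rw [hF.setLIntegral_eq_tsum' f (Berry.Fd S)]
  have h1 : ∀ γ : Γ, ∫⁻ x in γ • Berry.Fd S ∩ Berry.Fd D, f (γ⁻¹ • x) ∂μ =
      ∫⁻ x in Berry.Fd D, (γ • Berry.Fd S).indicator f x ∂μ := by
    intro γ
    have hm : MeasurableSet (γ • Berry.Fd S) := hSm.const_smul γ
    rw [lintegral_indicator hm, Measure.restrict_restrict hm]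
    apply lintegral_congr
    intro x
    exact hinv _ (γ⁻¹).2 x
  simp only [h1]
  rw [← lintegral_tsum (fun γ => (hf.indicator (hSm.const_smul γ)).aemeasurable)]
  rw [← lintegral_const_mul _ hf]
  apply lintegral_mono
  intro x
  show ∑' γ : Γ, (γ • Berry.Fd S).indicator f x ≤ (M : ℝ≥0∞) * f x
  rw [ENNReal.tsum_eq_iSup_sum]
  apply iSup_le
  intro t
  have h2 : ∀ γ ∈ t, (γ • Berry.Fd S).indicator f x =
      if x ∈ γ • Berry.Fd S then f x else 0 := fun γ _ => by
    simp [indicator]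
  rw [Finset.sum_congr rfl h2, ← Finset.sum_filter, Finset.sum_const, nsmul_eq_mul]
  gcongr
  have h3 := hM x ((t.filter fun γ => x ∈ γ • Berry.Fd S).image fun γ => γ⁻¹) (by
    intro γ hγ
    rw [Finset.mem_image] at hγ
    obtain ⟨γ', hγ', rfl⟩ := hγ
    rw [Finset.mem_filter] at hγ'
    have := hγ'.2
    rw [mem_smul_set_iff_inv_smul_mem] at this
    exact this)
  rw [Finset.card_image_of_injective _ inv_injective] at h3
  exact_mod_cast h3

end

end FejerN

end QE
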