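import Pool.Agent.Lib_helper67.QE.FejerAlg
import Pool.Agent.Lib_helper67.QE.FejerMult
import Pool.Agent.Lib_helper67.QE.FejerKer

/-!
Module QH_E5 (helper27): from the small mass of the nearly parallel pairs to the Fourier
coefficients: `N⁻¹ ∑_{|k|<N} ∫ ζ |u_k|² → 0`.
-/

open MeasureTheory Filter Topology Set
open UpperHalfPlane hiding I
open scoped ContDiff MatrixGroups ENNReal Convolution

namespace QE

namespace FejerN

noncomputable section

/-- integrals over the hyperbolic plane as integrals in the plane -/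
lemma integral_H (F : ℂ → ℂ) :
    ∫ w : ℍ, ((w.im : ℂ) ^ 2) * F (w : ℂ) = ∫ z in UH, F z := by
  have hr : Set.range UpperHalfPlane.coe = UH := by
    ext z
    constructor
    · rintro ⟨w, rfl⟩
      exact w.im_pos
    · intro hz
      exact ⟨⟨z, hz⟩, rfl⟩
  have h1 : ∫ z in UH, F z = ∫ w : ℍ, F (w : ℂ) ∂((volume : Measure ℂ).comap UpperHalfPlane.coe) := by
    rw [← measurableEmbedding_coe.integral_map, measurableEmbedding_coe.map_comap, hr]
  rw [h1, UpperHalfPlane.volume_def]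
  rw [integral_withDensity_eq_integral_smul]
  · apply integral_congr_ae
    refine Eventually.of_forall fun w => ?_
    have hw : (w.im : ℂ) ≠ 0 := by exact_mod_cast w.im_ne_zero
    simp only [NNReal.smul_def, NNReal.coe_pow, NNReal.coe_div, NNReal.coe_one, NNReal.coe_mk,
      Complex.real_smul]
    push_cast
    field_simp
  · apply Measurable.pow_const
    apply Measurable.div measurable_const
    exact (UpperHalfPlane.continuous_im.subtype_mk _).measurable

lemma UH_meas : MeasurableSet UH :=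
  (isOpen_lt continuous_const Complex.continuous_im).measurableSet

/-- the weight `ψ(z - g i) (im (g i))²` -/
def wt (ψ : ℂ → ℝ) (z : ℂ) (g : SL(2, ℝ)) : ℝ :=
  ψ (z - ((g • UpperHalfPlane.I : ℍ) : ℂ)) * (g • UpperHalfPlane.I : ℍ).im ^ 2

lemma coe_smul_I_continuous : Continuous fun g : SL(2, ℝ) => ((g • UpperHalfPlane.I : ℍ) : ℂ) :=
  UpperHalfPlane.continuous_coe.comp (continuous_id.smul continuous_const)

lemma wt_continuous {ψ : ℂ → ℝ} (hψ : Continuous ψ) (z : ℂ) : Continuous (wt ψ z) := by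
  unfold wt
  refine (hψ.comp (continuous_const.sub coe_smul_I_continuous)).mul ?_
  exact (UpperHalfPlane.continuous_im.comp (continuous_id.smul continuous_const)).pow 2

lemma entry_continuous (i j : Fin 2) : Continuous fun g : SL(2, ℝ) => g i j :=
  (continuous_apply_apply i j).comp Matrix.SpecialLinearGroup.isClosedEmbedding_val.continuous

lemma dirG_continuous : Continuous (dirG : SL(2, ℝ) → ℂ) := by
  have hc := entry_continuous
  unfold dirG phase
  refine continuous_const.mul (Continuous.pow ?_ 2)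
  have hd : Continuous fun g : SL(2, ℝ) => den g Complex.I := by
    unfold den
    exact ((Complex.continuous_ofReal.comp (hc 1 0)).mul continuous_const).add
      (Complex.continuous_ofReal.comp (hc 1 1))
  refine (Complex.continuous_conj.comp hd).div (Complex.continuous_ofReal.comp hd.norm) ?_
  intro g h
  have := norm_den_I_pos g
  have h2 : ‖den g Complex.I‖ = 0 := by exact_mod_cast h
  linarith

lemma dsq_continuous : Continuous (dsq : SL(2, ℝ) → ℝ) := by
  have hc := entry_continuous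
  unfold dsq
  exact (((hc 0 0).sub (hc 1 1)).pow 2).add (((hc 0 1).add (hc 1 0)).pow 2)

lemma Kset_open (d ε : ℝ) : IsOpen (Kset d ε) := by
  have hc := entry_continuous
  have e : Kset d ε = {g | dsq g < d ^ 2} ∩ {g | |g 0 1 - g 1 0| < ε} := rfl
  rw [e]
  exact (isOpen_lt dsq_continuous continuous_const).inter
    (isOpen_lt ((hc 0 1).sub (hc 1 0)).abs continuous_const)

lemma Bset_open (d : ℝ) : IsOpen {g : SL(2, ℝ) | dsq g < d ^ 2} :=
  isOpen_lt dsq_continuous continuous_const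

/-- preimage in the group of a subset of the plane -/
def FdC (T : Set ℂ) : Set SL(2, ℝ) := Berry.Fd (UpperHalfPlane.coe ⁻¹' T)

variable [MeasurableSpace SL(2, ℝ)] [BorelSpace SL(2, ℝ)]
variable {Γ : Subgroup SL(2, ℝ)} {D : Set ℍ} {μ : Measure SL(2, ℝ)} {p : ℍ → ℝ}
  {u : ℤ → ℂ → ℂ}

omit [MeasurableSpace SL(2, ℝ)] [BorelSpace SL(2, ℝ)] in
lemma compact_pre {T : Set ℂ} (hT : IsCompact T) (hTU : T ⊆ UH) :
    IsCompact (UpperHalfPlane.coe ⁻¹' T) := by
  apply isOpenEmbedding_coe.isEmbedding.isInducing.isCompact_preimage_iff ?_ |>.2 hT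
  intro t ht
  exact ⟨⟨t, hTU ht⟩, rfl⟩

omit [BorelSpace SL(2, ℝ)] in
/-- mollified Fourier coefficients as integrals over the group -/
lemma conv_eq
    (hcoef : ∀ k : ℤ, ∀ ζ : ℍ → ℂ, Continuous ζ → HasCompactSupport ζ →
      ∫ g, ζ (g • UpperHalfPlane.I) * (starRingEnd ℂ) (dirG g ^ k) ∂μ = ∫ z : ℍ, ζ z * u k z)
    {T : Set ℂ} (hT : IsCompact T) (hTU : T ⊆ UH) {ψ : ℂ → ℝ} (hψ : Continuous ψ)
    {z : ℂ} (hz : ∀ t, ψ (z - t) ≠ 0 → t ∈ T) (k : ℤ) :
    (ψ ⋆[ContinuousLinearMap.lsmul ℝ ℝ, volume] T.indicator (u k)) z =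
      ∫ g, ((wt ψ z g : ℝ) : ℂ) * (starRingEnd ℂ) (dirG g ^ k) ∂μ := by
  have h1 : (ψ ⋆[ContinuousLinearMap.lsmul ℝ ℝ, volume] T.indicator (u k)) z =
      ∫ t in UH, (ψ (z - t) : ℂ) * u k t := by
    rw [convolution_lsmul_swap, ← integral_indicator UH_meas]
    apply integral_congr_ae
    refine Eventually.of_forall fun t => ?_
    simp only
    by_cases h : ψ (z - t) = 0
    · rw [h, zero_smul]
      by_cases ht : t ∈ UH
      · rw [indicator_of_mem ht, h]
        simp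
      · rw [indicator_of_notMem ht]
    · have ht := hz t h
      rw [indicator_of_mem ht, indicator_of_mem (hTU ht), Complex.real_smul]
  rw [h1, ← integral_H]
  have h2 := hcoef k (fun w : ℍ => ((ψ (z - (w : ℂ)) * w.im ^ 2 : ℝ) : ℂ)) ?_ ?_
  · rw [show (∫ g, ((wt ψ z g : ℝ) : ℂ) * (starRingEnd ℂ) (dirG g ^ k) ∂μ) =
      ∫ w : ℍ, ((ψ (z - (w : ℂ)) * w.im ^ 2 : ℝ) : ℂ) * u k w from h2]
    apply integral_congr_ae
    refine Eventually.of_forall fun w => ?_
    simp only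
    push_cast
    ring
  · apply Complex.continuous_ofReal.comp
    exact (hψ.comp (continuous_const.sub UpperHalfPlane.continuous_coe)).mul
      (UpperHalfPlane.continuous_im.pow 2)
  · apply HasCompactSupport.of_support_subset_isCompact (compact_pre hT hTU)
    intro w hw
    apply hz
    intro h0
    apply hw
    simp only [h0, zero_mul, Complex.ofReal_zero]

/-- integrability of the weight -/
lemma wt_integrable [IsFiniteMeasureOnCompacts μ] {T : Set ℂ} (hT : IsCompact T) (hTU : T ⊆ UH)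
    {ψ : ℂ → ℝ} (hψ : Continuous ψ) {z : ℂ} (hz : ∀ t, ψ (z - t) ≠ 0 → t ∈ T) :
    Integrable (wt ψ z) μ := by
  apply (wt_continuous hψ z).integrable_of_hasCompactSupport
  have hc : IsCompact (FdC T) := isProperMap_smul_I.isCompact_preimage (compact_pre hT hTU)
  apply HasCompactSupport.of_support_subset_isCompact hc
  intro g hg
  apply hz
  intro h0
  apply hg
  unfold wt
  rw [h0, zero_mul]

omit [MeasurableSpace SL(2, ℝ)] [BorelSpace SL(2, ℝ)] in
/-- pointwise bound of the kernel -/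
lemma kernel_bound {T : Set ℂ} {m Y δ ε B : ℝ} (hm : 0 < m) (hδ : 0 < δ)
    (hTm : ∀ t ∈ T, m ≤ t.im ∧ t.im ≤ Y) {ψ : ℂ → ℝ} (hψ0 : ∀ t, 0 ≤ ψ t)
    (hψB : ∀ t, ψ t ≤ B) (hψs : ∀ t, ψ t ≠ 0 → ‖t‖ < δ)
    {z : ℂ} (hz : ∀ t, ψ (z - t) ≠ 0 → t ∈ T) (hε : 0 < ε) (hε1 : ε ≤ 1)
    (hd : 3 * δ / m ≤ ε / 64) (N : ℕ) (g g' : SL(2, ℝ)) :
    ENNReal.ofReal (wt ψ z g) * ENNReal.ofReal (wt ψ z g') *
      ENNReal.ofReal ‖dsum N ((starRingEnd ℂ) (dirG g) * dirG g')‖ ≤
    ENNReal.ofReal (ψ (z - ((g • UpperHalfPlane.I : ℍ) : ℂ))) * (ENNReal.ofReal (B * Y ^ 4) *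
      ((FdC T).indicator 1 g * (ENNReal.ofReal (2 * N) * (Kset (3 * δ / m) ε).indicator 1 (g⁻¹ * g')
        + ENNReal.ofReal (16 / ε) *
          {h : SL(2, ℝ) | dsq h < (3 * δ / m) ^ 2}.indicator 1 (g⁻¹ * g')))) := by
  by_cases h1 : ψ (z - ((g • UpperHalfPlane.I : ℍ) : ℂ)) = 0
  · have : wt ψ z g = 0 := by unfold wt; rw [h1, zero_mul]
    rw [this, ENNReal.ofReal_zero, zero_mul, zero_mul]
    exact zero_le
  by_cases h2 : ψ (z - ((g' • UpperHalfPlane.I : ℍ) : ℂ)) = 0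
  · have : wt ψ z g' = 0 := by unfold wt; rw [h2, zero_mul]
    rw [this, ENNReal.ofReal_zero, mul_zero, zero_mul]
    exact zero_le
  have t1 := hz _ h1
  have t2 := hz _ h2
  have b1 := hTm _ t1
  have b2 := hTm _ t2
  have n1 := hψs _ h1
  have n2 := hψs _ h2
  set w1 : ℂ := ((g • UpperHalfPlane.I : ℍ) : ℂ) with hw1
  set w2 : ℂ := ((g' • UpperHalfPlane.I : ℍ) : ℂ) with hw2
  have hdist : ‖w1 - w2‖ < 2 * δ := by
    have : w1 - w2 = (z - w2) - (z - w1) := by ring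
    rw [this]
    exact (norm_sub_le _ _).trans_lt (by linarith)
  have hdpos : 0 < 3 * δ / m := by positivity
  have hdsq : dsq (g⁻¹ * g') < (3 * δ / m) ^ 2 := by
    have e := dsq_inv_mul g g'
    have i1 : m ≤ (g • UpperHalfPlane.I : ℍ).im := b1.1
    have i2 : m ≤ (g' • UpperHalfPlane.I : ℍ).im := b2.1
    have hmm : m * m ≤ (g • UpperHalfPlane.I : ℍ).im * (g' • UpperHalfPlane.I : ℍ).im :=
      mul_le_mul i1 i2 hm.le (hm.le.trans i1)
    have h0 : 0 ≤ dsq (g⁻¹ * g') := by unfold dsq; positivity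
    have h3 : dsq (g⁻¹ * g') * (m * m) < (2 * δ) ^ 2 := by
      calc dsq (g⁻¹ * g') * (m * m) ≤ dsq (g⁻¹ * g') * ((g • UpperHalfPlane.I : ℍ).im *
            (g' • UpperHalfPlane.I : ℍ).im) := mul_le_mul_of_nonneg_left hmm h0
        _ = ‖w1 - w2‖ ^ 2 := e
        _ < (2 * δ) ^ 2 := by
            have := norm_nonneg (w1 - w2)
            nlinarith
    rw [div_pow, lt_div_iff₀ (by positivity)]
    nlinarith
  have hF : (FdC T).indicator (1 : SL(2, ℝ) → ℝ≥0∞) g = 1 := by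
    rw [indicator_of_mem (show g ∈ FdC T from t1)]
    rfl
  have hB' : {h : SL(2, ℝ) | dsq h < (3 * δ / m) ^ 2}.indicator (1 : SL(2, ℝ) → ℝ≥0∞)
      (g⁻¹ * g') = 1 := by
    rw [indicator_of_mem (show g⁻¹ * g' ∈ {h : SL(2, ℝ) | dsq h < (3 * δ / m) ^ 2} from hdsq)]
    rfl
  rw [hF, hB', one_mul, mul_one]
  -- the Dirichlet kernel
  have hu : ‖(starRingEnd ℂ) (dirG g) * dirG g'‖ = 1 := by
    rw [norm_mul, RCLike.norm_conj, norm_dirG', norm_dirG', mul_one]
  have hker : ENNReal.ofReal ‖dsum N ((starRingEnd ℂ) (dirG g) * dirG g')‖ ≤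
      ENNReal.ofReal (2 * N) * (Kset (3 * δ / m) ε).indicator 1 (g⁻¹ * g')
        + ENNReal.ofReal (16 / ε) := by
    by_cases hK : g⁻¹ * g' ∈ Kset (3 * δ / m) ε
    · rw [indicator_of_mem hK]
      simp only [Pi.one_apply, mul_one]
      exact (ENNReal.ofReal_le_ofReal (norm_dsum_le N _ hu)).trans le_self_add
    · rw [indicator_of_notMem hK, mul_zero, zero_add]
      apply ENNReal.ofReal_le_ofReal
      have hs := dir_sep g g' (3 * δ / m) ε hdpos hd hε1 hdsq hK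
      have hm2 := norm_dsum_mul_le N _ hu
      have e : ‖(starRingEnd ℂ) (dirG g) * dirG g' - 1‖ = ‖dirG g' - dirG g‖ := by
        have h3 : (starRingEnd ℂ) (dirG g) * dirG g = 1 := by
          rw [mul_comm, Complex.mul_conj, Complex.normSq_eq_norm_sq, norm_dirG']
          norm_num
        have h4 : (starRingEnd ℂ) (dirG g) * dirG g' - 1 =
            (starRingEnd ℂ) (dirG g) * (dirG g' - dirG g) := by
          rw [mul_sub, h3]
        rw [h4, norm_mul, RCLike.norm_conj, norm_dirG', one_mul]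
      rw [e] at hm2
      rw [le_div_iff₀ hε]
      have h5 : ε / 8 * ‖dsum N ((starRingEnd ℂ) (dirG g) * dirG g')‖ ≤ 2 :=
        (mul_le_mul_of_nonneg_right hs (norm_nonneg _)).trans hm2
      linarith
  -- the weights
  have hY : 0 ≤ Y := hm.le.trans (b1.1.trans b1.2)
  have hwt1 : wt ψ z g ≤ ψ (z - w1) * Y ^ 2 := by
    unfold wt
    apply mul_le_mul_of_nonneg_left _ (hψ0 _)
    exact pow_le_pow_left₀ (g • UpperHalfPlane.I : ℍ).im_pos.le b1.2 2
  have hwt2 : wt ψ z g' ≤ B * Y ^ 2 := by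
    unfold wt
    apply mul_le_mul (hψB _) _ (by positivity) ((hψ0 _).trans (hψB (z - w2)))
    exact pow_le_pow_left₀ (g' • UpperHalfPlane.I : ℍ).im_pos.le b2.2 2
  have hB0 : 0 ≤ B := (hψ0 0).trans (hψB 0)
  calc ENNReal.ofReal (wt ψ z g) * ENNReal.ofReal (wt ψ z g') *
      ENNReal.ofReal ‖dsum N ((starRingEnd ℂ) (dirG g) * dirG g')‖
      ≤ ENNReal.ofReal (ψ (z - w1) * Y ^ 2) * ENNReal.ofReal (B * Y ^ 2) *
        (ENNReal.ofReal (2 * N) * (Kset (3 * δ / m) ε).indicator 1 (g⁻¹ * g')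
        + ENNReal.ofReal (16 / ε)) := by
        gcongr
    _ = _ := by
        have e : ENNReal.ofReal (ψ (z - w1) * Y ^ 2) * ENNReal.ofReal (B * Y ^ 2) =
            ENNReal.ofReal (ψ (z - w1)) * ENNReal.ofReal (B * Y ^ 4) := by
          rw [← ENNReal.ofReal_mul (mul_nonneg (hψ0 _) (by positivity)),
            ← ENNReal.ofReal_mul (hψ0 _)]
          congr 1
          ring
        rw [e, mul_assoc]

/-- the mass of the pairs in a set, as a function of the first frame -/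
def fS (μ : Measure SL(2, ℝ)) (Q : Set SL(2, ℝ)) (g : SL(2, ℝ)) : ℝ≥0∞ :=
  ∫⁻ g', Q.indicator 1 (g⁻¹ * g') ∂μ

lemma fS_eq {Q : Set SL(2, ℝ)} (hQ : IsOpen Q) (g : SL(2, ℝ)) :
    fS μ Q g = μ ((fun w => g⁻¹ * w) ⁻¹' Q) := by
  unfold fS
  have hm : MeasurableSet ((fun w : SL(2, ℝ) => g⁻¹ * w) ⁻¹' Q) :=
    (hQ.preimage (continuous_const_mul _)).measurableSet
  rw [← lintegral_indicator_one hm]
  rfl

lemma fS_meas [SFinite μ] {Q : Set SL(2, ℝ)} (hQ : IsOpen Q) : Measurable (fS μ Q) := by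
  unfold fS
  apply Measurable.lintegral_prod_right'
    (f := fun z : SL(2, ℝ) × SL(2, ℝ) => Q.indicator (1 : SL(2, ℝ) → ℝ≥0∞) (z.1⁻¹ * z.2))
  have : Measurable (Q.indicator (1 : SL(2, ℝ) → ℝ≥0∞)) :=
    measurable_one.indicator hQ.measurableSet
  exact this.comp (continuous_fst.inv.mul continuous_snd).measurable

lemma fS_inv (hμ : FlowMeas0 Γ D μ p) {Q : Set SL(2, ℝ)} (hQ : IsOpen Q) (γ : SL(2, ℝ))
    (hγ : γ ∈ Γ) (g : SL(2, ℝ)) : fS μ Q (γ * g) = fS μ Q g := by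
  rw [fS_eq hQ, fS_eq hQ]
  have h1 := hμ.left γ hγ
  have hm : MeasurableSet ((fun w : SL(2, ℝ) => (γ * g)⁻¹ * w) ⁻¹' Q) :=
    (hQ.preimage (continuous_const_mul _)).measurableSet
  conv_lhs => rw [← h1]
  rw [Measure.map_apply (continuous_const_mul γ).measurable hm]
  congr 1
  ext w
  simp [mul_assoc]

lemma pairMass_eq {Q : Set SL(2, ℝ)} (hQ : IsOpen Q) :
    pairMass D μ Q = ∫⁻ g in Berry.Fd D, fS μ Q g ∂μ := by
  unfold pairMass
  simp only [fS_eq hQ]

/-- the integrated estimate -/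
lemma main_est [Countable Γ] [IsFiniteMeasureOnCompacts μ] (hDm : MeasurableSet D)
    (hD : IsFundamentalDomain Γ D (volume : Measure ℍ)) (hμ : FlowMeas0 Γ D μ p)
    (hcoef : ∀ k : ℤ, ∀ ζ : ℍ → ℂ, Continuous ζ → HasCompactSupport ζ →
      ∫ g, ζ (g • UpperHalfPlane.I) * (starRingEnd ℂ) (dirG g ^ k) ∂μ = ∫ z : ℍ, ζ z * u k z)
    {T : Set ℂ} (hT : IsCompact T) (hTU : T ⊆ UH) {m Y : ℝ} (hm : 0 < m)
    (hTm : ∀ t ∈ T, m ≤ t.im ∧ t.im ≤ Y) :
    ∃ M : ℕ, ∀ (S : Set ℂ) (ζ : ℂ → ℝ) (Z : ℝ), (∀ z, 0 ≤ ζ z) → (∀ z, ζ z ≤ Z) →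
      (∀ z, z ∉ S → ζ z = 0) → ∀ (ψ : ℂ → ℝ) (δ B ε : ℝ), Continuous ψ → 0 < δ →
      (∀ z ∈ S, ∀ t, ‖z - t‖ < δ → t ∈ T) →
      (∀ t, 0 ≤ ψ t) → (∀ t, ψ t ≤ B) → (∀ t, ψ t ≠ 0 → ‖t‖ < δ) →
      ∫⁻ t, ENNReal.ofReal (ψ t) ≤ 1 → 0 < ε → ε ≤ 1 → 3 * δ / m ≤ ε / 64 → ∀ N : ℕ,
      ∫⁻ z, ENNReal.ofReal (ζ z) * ENNReal.ofReal (∑ k ∈ Finset.Ioo (-(N : ℤ)) N,
        ‖(ψ ⋆[ContinuousLinearMap.lsmul ℝ ℝ, volume] T.indicator (u k)) z‖ ^ 2) ≤
      ENNReal.ofReal Z * (ENNReal.ofReal (B * Y ^ 4) * (M * (ENNReal.ofReal (2 * N) *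
        pairMass D μ (Kset (3 * δ / m) ε) + ENNReal.ofReal (16 / ε) *
        pairMass D μ {h : SL(2, ℝ) | dsq h < (3 * δ / m) ^ 2}))) := by
  classical
  obtain ⟨M, hM⟩ := lintegral_compact_le hDm hD hμ (compact_pre hT hTU)
  refine ⟨M, ?_⟩
  intro S ζ Z hζ0 hζZ hζS ψ δ B ε hψ hδ hST hψ0 hψB hψs hψ1 hε hε1 hdε N
  set K := Kset (3 * δ / m) ε with hK
  set Bs := {h : SL(2, ℝ) | dsq h < (3 * δ / m) ^ 2} with hBs
  have hKo : IsOpen K := Kset_open _ _
  have hBo : IsOpen Bs := Bset_open _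
  have hFm : MeasurableSet (FdC T) :=
    Berry.proj_measurable (compact_pre hT hTU).isClosed.measurableSet
  set a : ℝ≥0∞ := ENNReal.ofReal (2 * N) with ha
  set b : ℝ≥0∞ := ENNReal.ofReal (16 / ε) with hb
  set C : ℝ≥0∞ := ENNReal.ofReal (B * Y ^ 4) with hC
  set H : SL(2, ℝ) → ℝ≥0∞ := fun g =>
    C * ((FdC T).indicator 1 g * (a * fS μ K g + b * fS μ Bs g)) with hH
  have hsum : Measurable fun g => a * fS μ K g + b * fS μ Bs g :=
    ((fS_meas hKo).const_mul a).add ((fS_meas hBo).const_mul b)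
  have hHm : Measurable H := by
    apply Measurable.const_mul
    exact (measurable_one.indicator hFm).mul hsum
  have hpt : ∀ z, ENNReal.ofReal (ζ z) * ENNReal.ofReal (∑ k ∈ Finset.Ioo (-(N : ℤ)) N,
        ‖(ψ ⋆[ContinuousLinearMap.lsmul ℝ ℝ, volume] T.indicator (u k)) z‖ ^ 2) ≤
      ENNReal.ofReal Z * ∫⁻ g, ENNReal.ofReal (ψ (z - ((g • UpperHalfPlane.I : ℍ) : ℂ))) * H g ∂μ
      := by
    intro z
    by_cases hz : z ∈ S
    · have hzT : ∀ t, ψ (z - t) ≠ 0 → t ∈ T := fun t ht => hST z hz t (hψs _ ht)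
      refine mul_le_mul' (ENNReal.ofReal_le_ofReal (hζZ z)) ?_
      have e1 : ∀ k ∈ Finset.Ioo (-(N : ℤ)) N,
          ‖(ψ ⋆[ContinuousLinearMap.lsmul ℝ ℝ, volume] T.indicator (u k)) z‖ ^ 2 =
          ‖∫ g, ((wt ψ z g : ℝ) : ℂ) * (starRingEnd ℂ) (dirG g ^ k) ∂μ‖ ^ 2 := fun k _ => by
        rw [conv_eq hcoef hT hTU hψ hzT k]
      rw [Finset.sum_congr rfl e1]
      have hwt0 : ∀ g, 0 ≤ wt ψ z g := fun g => mul_nonneg (hψ0 _) (sq_nonneg _)
      refine (sum_sq_le μ (wt ψ z) hwt0 (wt_integrable hT hTU hψ hzT)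
        (wt_continuous hψ z).measurable dirG dirG_continuous.measurable norm_dirG' N).trans ?_
      apply lintegral_mono
      intro g
      have e2 : ENNReal.ofReal (ψ (z - ((g • UpperHalfPlane.I : ℍ) : ℂ))) * H g =
          ∫⁻ g', ENNReal.ofReal (ψ (z - ((g • UpperHalfPlane.I : ℍ) : ℂ))) * (C *
            ((FdC T).indicator 1 g * (a * K.indicator 1 (g⁻¹ * g')
            + b * Bs.indicator 1 (g⁻¹ * g')))) ∂μ := by
        have mK : Measurable fun g' : SL(2, ℝ) => K.indicator (1 : SL(2, ℝ) → ℝ≥0∞) (g⁻¹ * g') :=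
          (measurable_one.indicator hKo.measurableSet).comp (continuous_const_mul _).measurable
        have mB : Measurable fun g' : SL(2, ℝ) => Bs.indicator (1 : SL(2, ℝ) → ℝ≥0∞) (g⁻¹ * g') :=
          (measurable_one.indicator hBo.measurableSet).comp (continuous_const_mul _).measurable
        have m1 := mK.const_mul a
        have m2 := mB.const_mul b
        have m12 : Measurable fun g' : SL(2, ℝ) =>
            a * K.indicator (1 : SL(2, ℝ) → ℝ≥0∞) (g⁻¹ * g') +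
              b * Bs.indicator (1 : SL(2, ℝ) → ℝ≥0∞) (g⁻¹ * g') := m1.add m2
        rw [lintegral_const_mul _ ((m12.const_mul _).const_mul _),
          lintegral_const_mul _ (m12.const_mul _),
          lintegral_const_mul _ m12, lintegral_add_left m1, lintegral_const_mul _ mK,
          lintegral_const_mul _ mB]
        rfl
      refine le_of_le_of_eq ?_ e2.symm
      apply lintegral_mono
      intro g'
      exact kernel_bound hm hδ hTm hψ0 hψB hψs hzT hε hε1 hdε N g g'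
    · rw [hζS z hz, ENNReal.ofReal_zero, zero_mul]
      exact zero_le
  refine (lintegral_mono hpt).trans ?_
  have hjoint : Measurable fun q : ℂ × SL(2, ℝ) =>
      ENNReal.ofReal (ψ (q.1 - ((q.2 • UpperHalfPlane.I : ℍ) : ℂ))) * H q.2 := by
    refine Measurable.mul ?_ (hHm.comp measurable_snd)
    exact (hψ.comp (continuous_fst.sub (coe_smul_I_continuous.comp
      continuous_snd))).measurable.ennreal_ofReal
  rw [lintegral_const_mul _ hjoint.lintegral_prod_right']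
  gcongr
  rw [lintegral_lintegral_swap hjoint.aemeasurable]
  have e3 : ∀ g : SL(2, ℝ), ∫⁻ z, ENNReal.ofReal (ψ (z - ((g • UpperHalfPlane.I : ℍ) : ℂ))) * H g
      ≤ H g := by
    intro g
    have m3 : Measurable fun z : ℂ => ENNReal.ofReal (ψ (z - ((g • UpperHalfPlane.I : ℍ) : ℂ))) :=
      (hψ.comp (continuous_id.sub continuous_const)).measurable.ennreal_ofReal
    rw [lintegral_mul_const _ m3,
      lintegral_sub_right_eq_self (fun t => ENNReal.ofReal (ψ t))]
    calc (∫⁻ t, ENNReal.ofReal (ψ t)) * H g ≤ 1 * H g := by gcongr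
      _ = H g := one_mul _
  refine (lintegral_mono e3).trans ?_
  have m5 : Measurable fun g => (FdC T).indicator (1 : SL(2, ℝ) → ℝ≥0∞) g *
      (a * fS μ K g + b * fS μ Bs g) := (measurable_one.indicator hFm).mul hsum
  rw [hH, lintegral_const_mul _ m5]
  gcongr
  have e4 : ∫⁻ g, (FdC T).indicator 1 g * (a * fS μ K g + b * fS μ Bs g) ∂μ =
      ∫⁻ g in FdC T, (a * fS μ K g + b * fS μ Bs g) ∂μ := by
    rw [← lintegral_indicator hFm]
    apply lintegral_congr
    intro g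
    by_cases hg : g ∈ FdC T
    · rw [indicator_of_mem hg, indicator_of_mem hg]
      simp
    · rw [indicator_of_notMem hg, indicator_of_notMem hg, zero_mul]
  rw [e4]
  refine (hM _ hsum ?_).trans ?_
  · intro γ hγ g
    rw [fS_inv hμ hKo γ hγ, fS_inv hμ hBo γ hγ]
  · rw [pairMass_eq hKo, pairMass_eq hBo, lintegral_add_left ((fS_meas hKo).const_mul a),
      lintegral_const_mul _ (fS_meas hKo), lintegral_const_mul _ (fS_meas hBo)]

omit [MeasurableSpace SL(2, ℝ)] [BorelSpace SL(2, ℝ)] in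
/-- the bump functions used for the mollification -/
lemma exists_bump (δ : ℝ) (hδ : 0 < δ) : ∃ φ : ContDiffBump (0 : ℂ), φ.rOut = δ ∧
    φ.rOut ≤ 2 * φ.rIn ∧ (∀ t, φ.normed volume t ≤ 4 / (Real.pi * δ ^ 2)) ∧
    (∀ t, φ.normed volume t ≠ 0 → ‖t‖ < δ) ∧
    ∫⁻ t, ENNReal.ofReal (φ.normed volume t) ≤ 1 := by
  let φ : ContDiffBump (0 : ℂ) :=
    { rIn := δ / 2, rOut := δ, rIn_pos := by positivity, rIn_lt_rOut := by linarith }
  have hout : φ.rOut = δ := rfl
  have hin : φ.rIn = δ / 2 := rfl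
  refine ⟨φ, hout, by rw [hout, hin]; linarith, ?_, ?_, ?_⟩
  · intro t
    refine (φ.normed_le_div_measure_closedBall_rIn volume t).trans (le_of_eq ?_)
    rw [hin, measureReal_def, Complex.volume_closedBall, ENNReal.toReal_mul, ENNReal.toReal_pow,
      ENNReal.toReal_ofReal (by positivity)]
    have : ((NNReal.pi : ℝ≥0∞)).toReal = Real.pi := by
      rw [ENNReal.coe_toReal]
      rfl
    rw [this]
    have := Real.pi_pos
    field_simp
    norm_num
  · intro t ht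
    have h1 : t ∈ Function.support (φ.normed volume) := ht
    rw [φ.support_normed_eq, mem_ball_zero_iff] at h1
    exact h1
  · rw [← ofReal_integral_eq_lintegral_ofReal φ.integrable_normed
      (Eventually.of_forall fun t => φ.nonneg_normed t), φ.integral_normed]
    simp

/-- **QH_E5**: from the small mass of nearly parallel pairs to the Fourier coefficients -/
theorem fejer_bound [Countable Γ] [IsFiniteMeasureOnCompacts μ] (hDm : MeasurableSet D)
    (hD : IsFundamentalDomain Γ D (volume : Measure ℍ)) (hμ : FlowMeas0 Γ D μ p)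
    (hum : ∀ k, Measurable (u k)) (hul : ∀ k, LocL2 UH (u k))
    (hcoef : ∀ k : ℤ, ∀ ζ : ℍ → ℂ, Continuous ζ → HasCompactSupport ζ →
      ∫ g, ζ (g • UpperHalfPlane.I) * (starRingEnd ℂ) (dirG g ^ k) ∂μ = ∫ z : ℍ, ζ z * u k z)
    {C : ℝ} (hC0 : 0 ≤ C)
    (hB : ∀ d : ℝ, 0 < d → d < 1 → pairMass D μ {g : SL(2, ℝ) |
      (g 0 0 - g 1 1) ^ 2 + (g 0 1 + g 1 0) ^ 2 < d ^ 2} ≤ ENNReal.ofReal (C * d ^ 2))
    {ζ : ℂ → ℝ} (hζ : Continuous ζ) (hζc : HasCompactSupport ζ) (hζU : tsupport ζ ⊆ UH)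
    (hζ0 : ∀ z, 0 ≤ ζ z) :
    ∃ Q : ℝ, 0 ≤ Q ∧ ∀ η ε : ℝ, 0 < η → 0 < ε → ε ≤ 1 → (∃ d₀ : ℝ, 0 < d₀ ∧ ∀ d : ℝ, 0 < d →
      d < d₀ → pairMass D μ (Kset d ε) ≤ ENNReal.ofReal (η * d ^ 2)) → ∀ N : ℕ,
      ∑ k ∈ Finset.Ioo (-(N : ℤ)) N, ∫ z, ζ z * ‖u k z‖ ^ 2 ≤
        Q * (2 * N * η + 16 / ε * C) := by
  classical
  set S := tsupport ζ with hS
  have hSc : IsCompact S := hζc
  obtain ⟨ρ, hρ, hTU⟩ := hSc.exists_cthickening_subset_open
    (isOpen_lt continuous_const Complex.continuous_im) hζU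
  set T := Metric.cthickening ρ S with hT
  have hTc : IsCompact T := hSc.cthickening
  have hTU' : T ⊆ UH := hTU
  obtain ⟨m, hm, hm2⟩ := hTc.exists_forall_le' (f := fun z : ℂ => z.im)
    Complex.continuous_im.continuousOn (a := 0) (fun z hz => hTU' hz)
  obtain ⟨Y, hY⟩ := hTc.exists_bound_of_continuousOn (f := fun z : ℂ => z.im)
    Complex.continuous_im.continuousOn
  have hTm : ∀ t ∈ T, m ≤ t.im ∧ t.im ≤ Y := fun t ht => ⟨hm2 t ht, (le_abs_self _).trans (hY t ht)⟩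
  obtain ⟨Z, hZ⟩ := hζ.bounded_above_of_compact_support hζc
  have hZ' : ∀ z, ζ z ≤ Z := fun z => (le_abs_self _).trans (hZ z)
  have hZ0 : 0 ≤ Z := (hζ0 0).trans (hZ' 0)
  obtain ⟨M, hM⟩ := main_est hDm hD hμ hcoef hTc hTU' hm hTm
  have hpi := Real.pi_pos
  refine ⟨Z * (36 / (Real.pi * m ^ 2) * Y ^ 4 * M), by positivity, ?_⟩
  intro η ε hη hε hε1 hN N
  obtain ⟨d₀, hd₀, hN⟩ := hN
  -- the mollification
  set δs : ℕ → ℝ := fun n => ρ / ((n : ℝ) + 1) with hδs
  have hδpos : ∀ n, 0 < δs n := fun n => by positivity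
  have hδle : ∀ n, δs n ≤ ρ := fun n => by
    simp only [hδs]
    rw [div_le_iff₀ (by positivity)]
    have : (0 : ℝ) ≤ n := Nat.cast_nonneg n
    nlinarith
  have hδlim : Tendsto δs atTop (𝓝 0) := by
    have h := (tendsto_const_nhds (x := ρ)).mul tendsto_one_div_add_atTop_nhds_zero_nat
    rw [mul_zero] at h
    refine h.congr fun n => ?_
    simp only [hδs]
    ring
  choose φ hφo hφi hφB hφs hφ1 using fun n => exists_bump (δs n) (hδpos n)
  set v : ℤ → ℂ → ℂ := fun k => T.indicator (u k) with hv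
  have hvint : ∀ k, Integrable (v k) := by
    intro k
    rw [hv, integrable_indicator_iff hTc.isClosed.measurableSet]
    have : IsFiniteMeasure (volume.restrict T) := ⟨by
      rw [Measure.restrict_apply_univ]
      exact hTc.measure_lt_top⟩
    exact (hul k T hTc hTU').integrable one_le_two
  have hae : ∀ᵐ z : ℂ, ∀ k : ℤ, Tendsto (fun n => ((φ n).normed volume
      ⋆[ContinuousLinearMap.lsmul ℝ ℝ, volume] v k) z) atTop (𝓝 (v k z)) := by
    rw [ae_all_iff]
    intro k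
    apply ContDiffBump.ae_convolution_tendsto_right_of_locallyIntegrable (K := 2)
    · simp only [hφo]
      exact hδlim
    · exact Eventually.of_forall hφi
    · exact (hvint k).locallyIntegrable
  set f : ℕ → ℂ → ℝ≥0∞ := fun n z => ENNReal.ofReal (ζ z) *
    ENNReal.ofReal (∑ k ∈ Finset.Ioo (-(N : ℤ)) N,
      ‖((φ n).normed volume ⋆[ContinuousLinearMap.lsmul ℝ ℝ, volume] v k) z‖ ^ 2) with hf
  have hcc : ∀ n k, Continuous ((φ n).normed volume
      ⋆[ContinuousLinearMap.lsmul ℝ ℝ, volume] v k) := by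
    intro n k
    exact HasCompactSupport.continuous_convolution_left _ (φ n).hasCompactSupport_normed
      (φ n).continuous_normed (hvint k).locallyIntegrable
  have hfm : ∀ n, Measurable (f n) := by
    intro n
    refine hζ.measurable.ennreal_ofReal.mul (Continuous.measurable ?_).ennreal_ofReal
    exact continuous_finsetSum _ fun k _ => (hcc n k).norm.pow 2
  have hlim : ∀ᵐ z : ℂ, liminf (fun n => f n z) atTop = ENNReal.ofReal (ζ z) *
      ENNReal.ofReal (∑ k ∈ Finset.Ioo (-(N : ℤ)) N, ‖v k z‖ ^ 2) := by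
    filter_upwards [hae] with z hz
    apply Tendsto.liminf_eq
    apply ENNReal.Tendsto.const_mul _ (Or.inr ENNReal.ofReal_ne_top)
    apply ENNReal.tendsto_ofReal
    apply tendsto_finsetSum
    intro k _
    exact ((hz k).norm).pow 2
  have hbd : ∀ᶠ n in atTop, ∫⁻ z, f n z ≤ ENNReal.ofReal
      (Z * (36 / (Real.pi * m ^ 2) * Y ^ 4 * M) * (2 * N * η + 16 / ε * C)) := by
    have hlim2 : Tendsto (fun n => 3 * δs n / m) atTop (𝓝 0) := by
      have h := (hδlim.const_mul 3).div_const m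
      simpa using h
    have hpos : 0 < min (ε / 64) (min d₀ 1) := by positivity
    filter_upwards [hlim2.eventually (gt_mem_nhds hpos)] with n hn
    have hn1 : 3 * δs n / m < ε / 64 := hn.trans_le (min_le_left _ _)
    have hn2 : 3 * δs n / m < d₀ := hn.trans_le ((min_le_right _ _).trans (min_le_left _ _))
    have hn3 : 3 * δs n / m < 1 := hn.trans_le ((min_le_right _ _).trans (min_le_right _ _))
    have hdp : 0 < 3 * δs n / m := div_pos (mul_pos (by norm_num) (hδpos n)) hm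
    refine (hM S ζ Z hζ0 hZ' (fun z hz => image_eq_zero_of_notMem_tsupport hz)
      ((φ n).normed volume) (δs n) (4 / (Real.pi * δs n ^ 2)) ε (φ n).continuous_normed (hδpos n)
      ?_ (φ n).nonneg_normed (hφB n) (hφs n) (hφ1 n) hε hε1 hn1.le N).trans ?_
    · intro z hz t ht
      apply Metric.mem_cthickening_of_dist_le t z ρ S hz
      rw [dist_comm, Complex.dist_eq]
      exact ht.le.trans (hδle n)
    · have k1 := hN _ hdp hn2
      have k2 := hB _ hdp hn3
      have hδn := hδpos n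
      calc ENNReal.ofReal Z * (ENNReal.ofReal (4 / (Real.pi * δs n ^ 2) * Y ^ 4) *
            (M * (ENNReal.ofReal (2 * N) * pairMass D μ (Kset (3 * δs n / m) ε) +
              ENNReal.ofReal (16 / ε) * pairMass D μ {h | dsq h < (3 * δs n / m) ^ 2})))
          ≤ ENNReal.ofReal Z * (ENNReal.ofReal (4 / (Real.pi * δs n ^ 2) * Y ^ 4) *
            (ENNReal.ofReal M * (ENNReal.ofReal (2 * N) *
              ENNReal.ofReal (η * (3 * δs n / m) ^ 2) +
              ENNReal.ofReal (16 / ε) * ENNReal.ofReal (C * (3 * δs n / m) ^ 2)))) := by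
            rw [ENNReal.ofReal_natCast]
            gcongr
            exact k2
        _ = ENNReal.ofReal (Z * (36 / (Real.pi * m ^ 2) * Y ^ 4 * M) *
              (2 * N * η + 16 / ε * C)) := by
            rw [← ENNReal.ofReal_mul (by positivity), ← ENNReal.ofReal_mul (by positivity),
              ← ENNReal.ofReal_add (by positivity) (by positivity),
              ← ENNReal.ofReal_mul (by positivity), ← ENNReal.ofReal_mul (by positivity),
              ← ENNReal.ofReal_mul (by positivity)]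
            congr 1
            field_simp
            ring
  have hfatou : ∫⁻ z, ENNReal.ofReal (ζ z) *
      ENNReal.ofReal (∑ k ∈ Finset.Ioo (-(N : ℤ)) N, ‖v k z‖ ^ 2) ≤ ENNReal.ofReal
      (Z * (36 / (Real.pi * m ^ 2) * Y ^ 4 * M) * (2 * N * η + 16 / ε * C)) := by
    rw [← lintegral_congr_ae hlim]
    refine (lintegral_liminf_le hfm).trans ?_
    exact liminf_le_of_le (by isBoundedDefault) fun b hb => by
      obtain ⟨n, h1, h2⟩ := (hb.and hbd).exists
      exact h1.trans h2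
  -- back to the integrals
  rw [← ENNReal.ofReal_le_ofReal_iff (by positivity)]
  refine le_trans ?_ hfatou
  have hnn : ∀ k, 0 ≤ ∫ z, ζ z * ‖u k z‖ ^ 2 := fun k =>
    integral_nonneg fun z => mul_nonneg (hζ0 z) (sq_nonneg _)
  rw [ENNReal.ofReal_sum_of_nonneg fun k _ => hnn k]
  have h1 : ∀ k ∈ Finset.Ioo (-(N : ℤ)) N, ENNReal.ofReal (∫ z, ζ z * ‖u k z‖ ^ 2) ≤
      ∫⁻ z, ENNReal.ofReal (ζ z * ‖u k z‖ ^ 2) := by
    intro k _
    have h2 := enorm_integral_le_lintegral_enorm (μ := (volume : Measure ℂ))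
      fun z => ζ z * ‖u k z‖ ^ 2
    rw [← ofReal_norm, Real.norm_eq_abs, abs_of_nonneg (hnn k)] at h2
    refine h2.trans (le_of_eq ?_)
    apply lintegral_congr
    intro z
    rw [← ofReal_norm, Real.norm_eq_abs, abs_of_nonneg (mul_nonneg (hζ0 z) (sq_nonneg _))]
  refine (Finset.sum_le_sum h1).trans ?_
  rw [← lintegral_finsetSum]
  · apply lintegral_mono
    intro z
    show ∑ k ∈ Finset.Ioo (-(N : ℤ)) N, ENNReal.ofReal (ζ z * ‖u k z‖ ^ 2) ≤
      ENNReal.ofReal (ζ z) * ENNReal.ofReal (∑ k ∈ Finset.Ioo (-(N : ℤ)) N, ‖v k z‖ ^ 2)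
    by_cases hz : z ∈ S
    · have hzT : z ∈ T := Metric.self_subset_cthickening S hz
      rw [ENNReal.ofReal_sum_of_nonneg fun k _ => sq_nonneg _, Finset.mul_sum]
      apply Finset.sum_le_sum
      intro k _
      rw [hv]
      simp only [indicator_of_mem hzT]
      rw [ENNReal.ofReal_mul (hζ0 z)]
    · have h0 : ζ z = 0 := image_eq_zero_of_notMem_tsupport hz
      simp [h0]
  · intro k _
    exact (hζ.measurable.mul ((hum k).norm.pow_const 2)).ennreal_ofReal

/-- **QH_E5**: if the mass of nearly parallel pairs at small distance is small, then the Fourier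
coefficients along the fibres tend to zero in the quadratic mean. -/
theorem fejer_tendsto [Countable Γ] [IsFiniteMeasureOnCompacts μ] (hDm : MeasurableSet D)
    (hD : IsFundamentalDomain Γ D (volume : Measure ℍ)) (hμ : FlowMeas0 Γ D μ p)
    (hu : LimFam0 Γ u)
    (hcoef : ∀ k : ℤ, ∀ ζ : ℍ → ℂ, Continuous ζ → HasCompactSupport ζ →
      ∫ g, ζ (g • UpperHalfPlane.I) * (starRingEnd ℂ) (dirG g ^ k) ∂μ = ∫ z : ℍ, ζ z * u k z)
    (hB : ∃ C : ℝ, ∀ d : ℝ, 0 < d → d < 1 → pairMass D μ {g : SL(2, ℝ) |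
      (g 0 0 - g 1 1) ^ 2 + (g 0 1 + g 1 0) ^ 2 < d ^ 2} ≤ ENNReal.ofReal (C * d ^ 2))
    (hN : ∀ η : ℝ, 0 < η → ∃ ε : ℝ, 0 < ε ∧ ∃ d₀ : ℝ, 0 < d₀ ∧ ∀ d : ℝ, 0 < d → d < d₀ →
      pairMass D μ (Kset d ε) ≤ ENNReal.ofReal (η * d ^ 2))
    {ζ : ℂ → ℝ} (hζ : Continuous ζ) (hζc : HasCompactSupport ζ) (hζU : tsupport ζ ⊆ UH)
    (hζ0 : ∀ z, 0 ≤ ζ z) :
    Tendsto (fun N : ℕ => (1 / (N : ℝ)) * ∑ k ∈ Finset.Ioo (-(N : ℤ)) N,
      ∫ z, ζ z * ‖u k z‖ ^ 2) atTop (𝓝 0) := by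
  obtain ⟨C, hC⟩ := hB
  have hC' : ∀ d : ℝ, 0 < d → d < 1 → pairMass D μ {g : SL(2, ℝ) |
      (g 0 0 - g 1 1) ^ 2 + (g 0 1 + g 1 0) ^ 2 < d ^ 2} ≤ ENNReal.ofReal (max C 0 * d ^ 2) := by
    intro d hd hd1
    refine (hC d hd hd1).trans (ENNReal.ofReal_le_ofReal ?_)
    gcongr
    exact le_max_left _ _
  obtain ⟨Q, hQ, hb⟩ := fejer_bound hDm hD hμ hu.meas hu.loc hcoef (le_max_right C 0) hC' hζ hζc
    hζU hζ0
  have hnn : ∀ N : ℕ, 0 ≤ (1 / (N : ℝ)) * ∑ k ∈ Finset.Ioo (-(N : ℤ)) N,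
      ∫ z, ζ z * ‖u k z‖ ^ 2 := fun N => mul_nonneg (by positivity)
    (Finset.sum_nonneg fun k _ => integral_nonneg fun z => mul_nonneg (hζ0 z) (sq_nonneg _))
  rw [tendsto_order]
  refine ⟨fun a ha => Eventually.of_forall fun N => ha.trans_le (hnn N), ?_⟩
  intro a ha
  set η : ℝ := a / (4 * (Q + 1)) with hη
  have hη0 : 0 < η := by positivity
  obtain ⟨ε₀, hε₀, d₀, hd₀, hK⟩ := hN η hη0
  set ε : ℝ := min ε₀ 1 with hε
  have hεpos : 0 < ε := lt_min hε₀ one_pos
  have hbb := hb η ε hη0 hεpos (min_le_right _ _) ⟨d₀, hd₀, fun d hd1 hd2 => by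
    refine (lintegral_mono fun v => ?_).trans (hK d hd1 hd2)
    apply measure_mono
    apply preimage_mono
    intro g hg
    exact ⟨hg.1, hg.2.trans_le (min_le_left _ _)⟩⟩
  have hlim : Tendsto (fun N : ℕ => Q * (16 / ε * max C 0) * (1 / (N : ℝ))) atTop (𝓝 0) := by
    have h := (tendsto_one_div_atTop_nhds_zero_nat (𝕜 := ℝ)).const_mul (Q * (16 / ε * max C 0))
    rw [mul_zero] at h
    exact h
  filter_upwards [hlim.eventually (gt_mem_nhds (half_pos ha)), eventually_gt_atTop 0] with N h1 h2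
  have hN0 : (0 : ℝ) < N := by exact_mod_cast h2
  have h3 : (1 / (N : ℝ)) * ∑ k ∈ Finset.Ioo (-(N : ℤ)) N, ∫ z, ζ z * ‖u k z‖ ^ 2 ≤
      (1 / (N : ℝ)) * (Q * (2 * N * η + 16 / ε * max C 0)) :=
    mul_le_mul_of_nonneg_left (hbb N) (by positivity)
  have h4 : (1 / (N : ℝ)) * (Q * (2 * N * η + 16 / ε * max C 0)) =
      Q * (2 * η) + Q * (16 / ε * max C 0) * (1 / (N : ℝ)) := by
    field_simp
  have h5 : Q * (2 * η) ≤ a / 2 := by
    rw [hη]
    rw [show Q * (2 * (a / (4 * (Q + 1)))) = (Q / (Q + 1)) * (a / 2) by field_simp; ring]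
    have : Q / (Q + 1) ≤ 1 := by
      rw [div_le_one (by positivity)]
      linarith
    nlinarith
  linarith

end

end FejerN

end QE
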