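import Pool.Agent.Lib_helper67.QE.FlowRot

/-!
Right invariance of the measure under the geodesic flow, from the transport identity for its Fourier
coefficients (helper40, module QH_D3).
-/

open MeasureTheory Filter Topology Set
open UpperHalfPlane hiding I
open scoped ContDiff MatrixGroups NNReal

namespace QE

noncomputable section

/-! ## the hyperbolic measure -/

lemma range_coe_eq : Set.range UpperHalfPlane.coe = UH := by
  ext z
  constructor
  · rintro ⟨w, rfl⟩
    exact w.im_pos
  · intro hz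
    exact ⟨⟨z, hz⟩, rfl⟩

lemma isOpen_UH_FI : IsOpen UH := isOpen_lt continuous_const Complex.continuous_im

lemma integral_uhp (f : ℂ → ℂ) : ∫ z : ℍ, f z = ∫ z in UH, f z / (z.im : ℂ) ^ 2 := by
  have hm : Measurable fun z : ℍ => ((1 / NNReal.mk z.im z.im_pos.le : ℝ≥0) ^ 2) := by
    have h1 : Measurable fun z : ℍ => (NNReal.mk z.im z.im_pos.le : ℝ≥0) :=
      (continuous_im.subtype_mk _).measurable
    exact (measurable_const.div h1).pow_const 2
  have hp : MeasurePreserving UpperHalfPlane.coe (volume.comap UpperHalfPlane.coe)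
      (volume.restrict (.range UpperHalfPlane.coe)) :=
    ⟨measurable_coe, by rw [measurableEmbedding_coe.map_comap]⟩
  rw [volume_def, integral_withDensity_eq_integral_smul hm, ← range_coe_eq,
    ← hp.integral_comp measurableEmbedding_coe]
  refine integral_congr_ae (ae_of_all _ fun z => ?_)
  simp only [NNReal.smul_def, NNReal.coe_pow, NNReal.coe_div, NNReal.coe_one, NNReal.coe_mk,
    Complex.real_smul]
  push_cast
  rw [one_div, inv_pow, inv_mul_eq_div]
  rfl

/-! ## Wirtinger derivatives -/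

lemma fderiv_eq_dz (f : ℂ → ℂ) (z v : ℂ) :
    fderiv ℝ f z v = dz f z * v + dzb f z * (starRingEnd ℂ) v := by
  have h : v = (v.re : ℝ) • (1 : ℂ) + (v.im : ℝ) • Complex.I := by
    simp
  have h2 : fderiv ℝ f z v = (v.re : ℂ) * fderiv ℝ f z 1 + (v.im : ℂ) * fderiv ℝ f z Complex.I := by
    conv_lhs => rw [h]
    rw [map_add, map_smul, map_smul, Complex.real_smul, Complex.real_smul]
  have h3 : v = (v.re : ℂ) + (v.im : ℂ) * Complex.I := (Complex.re_add_im v).symm
  have h4 : (starRingEnd ℂ) v = (v.re : ℂ) - (v.im : ℂ) * Complex.I := by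
    apply Complex.ext <;> simp
  rw [h2, h4]
  unfold dz dzb
  linear_combination (-(1 / 2) * (fderiv ℝ f z 1 - Complex.I * fderiv ℝ f z Complex.I)) * h3 +
    ((v.im : ℂ) * fderiv ℝ f z Complex.I) * Complex.I_sq

/-! ## functions on the half plane from even Fourier components -/

/-- the function on the half plane -/
def zet (K : ℂ × ℂ → ℂ) (z : ℂ) : ℂ :=
  if 0 < z.im then K (z / ((√z.im : ℝ) : ℂ), 1 / ((√z.im : ℝ) : ℂ)) else 0

/-- a compact subset of the half plane -/
def SR (R : ℝ) : Set ℂ := Metric.closedBall 0 (R ^ 2) ∩ {z | 1 / R ^ 2 ≤ z.im}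

lemma SR_compact (R : ℝ) : IsCompact (SR R) :=
  (isCompact_closedBall 0 _).inter_right (isClosed_le continuous_const Complex.continuous_im)

lemma SR_sub {R : ℝ} (hR : 0 < R) : SR R ⊆ UH := by
  intro z hz
  have h1 : 1 / R ^ 2 ≤ z.im := hz.2
  have h2 : 0 < 1 / R ^ 2 := by positivity
  exact lt_of_lt_of_le h2 h1

lemma zet_zero {K : ℂ × ℂ → ℂ} {R : ℝ} (hR0 : 0 < R) (hR : ∀ q, R < ‖q‖ → K q = 0) {z : ℂ}
    (hz : z ∉ SR R) : zet K z = 0 := by
  unfold zet
  split_ifs with h
  · apply hR
    by_contra hcon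
    push Not at hcon
    apply hz
    have hs : 0 < √z.im := Real.sqrt_pos.2 h
    have hsq : √z.im * √z.im = z.im := Real.mul_self_sqrt h.le
    have h1 : ‖z / ((√z.im : ℝ) : ℂ)‖ ≤ R := (norm_fst_le _).trans hcon
    have h2 : ‖1 / ((√z.im : ℝ) : ℂ)‖ ≤ R := (norm_snd_le _).trans hcon
    rw [norm_div, Complex.norm_real, Real.norm_of_nonneg hs.le, div_le_iff₀ hs] at h1
    rw [norm_div, norm_one, Complex.norm_real, Real.norm_of_nonneg hs.le, div_le_iff₀ hs] at h2
    have h3 : z.im ≤ ‖z‖ := (le_abs_self _).trans (Complex.abs_im_le_norm z)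
    have h4 : √z.im ≤ R := by nlinarith
    refine ⟨?_, ?_⟩
    · rw [mem_closedBall_zero_iff]
      nlinarith
    · show 1 / R ^ 2 ≤ z.im
      rw [div_le_iff₀ (by positivity)]
      nlinarith
  · rfl

lemma zet_test {K : ℂ × ℂ → ℂ} (hK : ContDiff ℝ ∞ K) {R : ℝ} (hR0 : 0 < R)
    (hR : ∀ q, R < ‖q‖ → K q = 0) : Test UH (zet K) := by
  have hsupp : tsupport (zet K) ⊆ SR R := by
    refine closure_minimal ?_ (SR_compact R).isClosed
    intro z hz
    by_contra h
    exact hz (zet_zero hR0 hR h)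
  refine ⟨?_, (SR_compact R).of_isClosed_subset (isClosed_tsupport _) hsupp,
    hsupp.trans (SR_sub hR0)⟩
  rw [contDiff_iff_contDiffAt]
  intro z
  by_cases hz : 0 < z.im
  · have e : zet K =ᶠ[𝓝 z] fun z => K (z / ((√z.im : ℝ) : ℂ), 1 / ((√z.im : ℝ) : ℂ)) := by
      filter_upwards [isOpen_UH_FI.mem_nhds hz] with w hw
      have hw' : 0 < w.im := hw
      unfold zet
      rw [if_pos hw']
    have h1 : ContDiffAt ℝ ∞ (fun z : ℂ => z.im) z := Complex.imCLM.contDiff.contDiffAt
    have h2 : ContDiffAt ℝ ∞ (fun z : ℂ => √z.im) z := h1.sqrt hz.ne'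
    have h3 : ContDiffAt ℝ ∞ (fun z : ℂ => ((√z.im : ℝ) : ℂ)) z :=
      Complex.ofRealCLM.contDiff.contDiffAt.comp z h2
    have hne : ((√z.im : ℝ) : ℂ) ≠ 0 := by
      exact_mod_cast (Real.sqrt_pos.2 hz).ne'
    have hid : ContDiffAt ℝ ∞ (fun z : ℂ => z) z := contDiffAt_id
    have h3i : ContDiffAt ℝ ∞ (fun z : ℂ => (((√z.im : ℝ) : ℂ))⁻¹) z := h3.inv hne
    have h4 : ContDiffAt ℝ ∞ (fun z : ℂ => z / ((√z.im : ℝ) : ℂ)) z := by
      simp only [div_eq_mul_inv]
      exact hid.mul h3i
    have h5 : ContDiffAt ℝ ∞ (fun z : ℂ => 1 / ((√z.im : ℝ) : ℂ)) z := by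
      simp only [one_div]
      exact h3i
    exact (hK.contDiffAt.comp z (h4.prodMk h5)).congr_of_eventuallyEq e
  · have hz' : z ∉ SR R := fun h => hz (SR_sub hR0 h)
    have e : zet K =ᶠ[𝓝 z] fun _ => 0 := by
      filter_upwards [(SR_compact R).isClosed.isOpen_compl.mem_nhds hz'] with w hw
      exact zet_zero hR0 hR hw
    exact contDiffAt_const.congr_of_eventuallyEq e

/-- the quotient `j / conj j` -/
def om (g : SL(2, ℝ)) : ℂ := (iota g).2 / (starRingEnd ℂ) (iota g).2

lemma om_ne (g : SL(2, ℝ)) : om g ≠ 0 := by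
  have h := iota_snd_ne g
  unfold om
  exact div_ne_zero h (by rwa [Ne, map_eq_zero])

lemma Hk_even (m : ℤ) (H : ℂ × ℂ → ℂ) (g : SL(2, ℝ)) :
    Hk (2 * m) H (iota g) = om g ^ m * zet (Hk (2 * m) H) ((g • UpperHalfPlane.I : ℍ) : ℂ) := by
  set z : ℂ := ((g • UpperHalfPlane.I : ℍ) : ℂ) with hz
  have hpos : 0 < z.im := (g • UpperHalfPlane.I : ℍ).im_pos
  set j := (iota g).2 with hj
  have hj0 : j ≠ 0 := iota_snd_ne g
  have hr : 0 < ‖j‖ := norm_pos_iff.2 hj0
  have hrc : ((‖j‖ : ℝ) : ℂ) ≠ 0 := by exact_mod_cast hr.ne'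
  have hjc : (starRingEnd ℂ) j ≠ 0 := by rwa [Ne, map_eq_zero]
  have him := im_smul_I g
  rw [← hj, ← hz] at him
  have hjj : j * (starRingEnd ℂ) j = ((‖j‖ ^ 2 : ℝ) : ℂ) := by
    rw [Complex.mul_conj, Complex.normSq_eq_norm_sq]
  have hy : z.im * ‖j‖ ^ 2 = 1 := by
    rw [hjj] at him
    exact_mod_cast him
  have hsqrt : √z.im = 1 / ‖j‖ := by
    have : z.im = (1 / ‖j‖) ^ 2 := by
      field_simp
      linarith
    rw [this, Real.sqrt_sq (by positivity)]
  have hn : (iota g).1 = z * j := by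
    rw [hz, smul_I_eq, ← hj]
    field_simp
  have hpolar := Complex.norm_mul_exp_arg_mul_I j
  have e1 : iota g = rq (Complex.arg j) (z / ((√z.im : ℝ) : ℂ), 1 / ((√z.im : ℝ) : ℂ)) := by
    rw [hsqrt]
    unfold rq
    refine Prod.ext ?_ ?_
    · simp only
      rw [hn]
      conv_lhs => rw [← hpolar]
      push_cast
      field_simp
    · simp only
      rw [← hj]
      conv_lhs => rw [← hpolar]
      push_cast
      field_simp
  have e2 : om g ^ m = Complex.exp (((2 * m : ℤ) : ℂ) * (Complex.arg j) * Complex.I) := by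
    have h1 : om g = Complex.exp (2 * (Complex.arg j) * Complex.I) := by
      have hc : (starRingEnd ℂ) j = ((‖j‖ : ℝ) : ℂ) * Complex.exp ((Complex.arg j) * -Complex.I) := by
        have h := congrArg (starRingEnd ℂ) hpolar
        rw [map_mul, Complex.conj_ofReal, ← Complex.exp_conj, map_mul, Complex.conj_ofReal,
          Complex.conj_I] at h
        exact h.symm
      unfold om
      rw [← hj, div_eq_iff hjc, hc]
      have h5 : Complex.exp (2 * (Complex.arg j) * Complex.I) *
          (((‖j‖ : ℝ) : ℂ) * Complex.exp ((Complex.arg j) * -Complex.I)) =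
          ((‖j‖ : ℝ) : ℂ) * (Complex.exp (2 * (Complex.arg j) * Complex.I) *
            Complex.exp ((Complex.arg j) * -Complex.I)) := by ring
      rw [h5, ← Complex.exp_add]
      have h6 : 2 * (Complex.arg j : ℂ) * Complex.I + (Complex.arg j : ℂ) * -Complex.I =
          (Complex.arg j : ℂ) * Complex.I := by ring
      rw [h6]
      exact hpolar.symm
    rw [h1, ← Complex.exp_int_mul]
    congr 1
    push_cast; ring
  have e3 : zet (Hk (2 * m) H) z =
      Hk (2 * m) H (z / ((√z.im : ℝ) : ℂ), 1 / ((√z.im : ℝ) : ℂ)) := by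
    unfold zet
    rw [if_pos hpos]
  rw [e3, e2]
  conv_lhs => rw [e1]
  exact Hk_rq (2 * m) H _ _

/-- the coefficient of `om ^ (m + 1)` -/
def cA (m : ℤ) (ζ : ℂ → ℂ) (z : ℂ) : ℂ := (m : ℂ) / 2 * ζ z - Complex.I * (z.im : ℂ) * dzb ζ z

/-- the coefficient of `om ^ (m - 1)` -/
def cB (m : ℤ) (ζ : ℂ → ℂ) (z : ℂ) : ℂ := -((m : ℂ) / 2 * ζ z) + Complex.I * (z.im : ℂ) * dz ζ z

lemma hasDerivAt_conj {f : ℝ → ℂ} {f' : ℂ} {s : ℝ} (h : HasDerivAt f f' s) :
    HasDerivAt (fun s => (starRingEnd ℂ) (f s)) ((starRingEnd ℂ) f') s :=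
  Complex.conjCLE.hasFDerivAt.comp_hasDerivAt s h

lemma XX_even (m : ℤ) {H : ℂ × ℂ → ℂ} (hH : ContDiff ℝ ∞ H)
    (ht : Test UH (zet (Hk (2 * m) H))) (g : SL(2, ℝ)) :
    XX (Hk (2 * m) H) (iota g) =
      om g ^ (m + 1) * cA m (zet (Hk (2 * m) H)) ((g • UpperHalfPlane.I : ℍ) : ℂ) +
      om g ^ (m - 1) * cB m (zet (Hk (2 * m) H)) ((g • UpperHalfPlane.I : ℍ) : ℂ) := by
  set K := Hk (2 * m) H with hK
  set ζ := zet K with hζ
  set z : ℂ := ((g • UpperHalfPlane.I : ℍ) : ℂ) with hz
  set n := (iota g).1 with hn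
  set j := (iota g).2 with hj
  have hj0 : j ≠ 0 := iota_snd_ne g
  have hjc : (starRingEnd ℂ) j ≠ 0 := by rwa [Ne, map_eq_zero]
  have hKd : Differentiable ℝ K := (Hk_smooth _ hH).differentiable (by simp)
  -- the derivative from the left side
  have d1 : HasDerivAt (fun s => K (flq s (iota g))) (XX K (iota g)) 0 := by
    have := hasDerivAt_H hKd 0 (iota g)
    simpa only [flq_zero] using this
  -- the explicit formula
  have e1 : ∀ s : ℝ, K (flq s (iota g)) =
      (fl s j / (starRingEnd ℂ) (fl s j)) ^ m * ζ (fl s n / fl s j) := by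
    intro s
    have h1 := Hk_even m H (g * aS s)
    rw [iota_mul_aS] at h1
    rw [hK, h1]
    unfold om
    rw [iota_mul_aS, smul_I_eq, iota_mul_aS]
    rfl
  have f0j : fl 0 j = j := by simp [fl]
  have f0n : fl 0 n = n := by simp [fl]
  have dj : HasDerivAt (fun s => fl s j) (-((starRingEnd ℂ) j) / 2) 0 := by
    have := hasDerivAt_fl 0 j
    rwa [f0j] at this
  have dn : HasDerivAt (fun s => fl s n) (-((starRingEnd ℂ) n) / 2) 0 := by
    have := hasDerivAt_fl 0 n
    rwa [f0n] at this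
  have djc := hasDerivAt_conj dj
  have dω : HasDerivAt (fun s => fl s j / (starRingEnd ℂ) (fl s j)) ((om g ^ 2 - 1) / 2) 0 := by
    have := dj.div djc (by rwa [f0j])
    refine this.congr_deriv ?_
    rw [f0j]
    unfold om
    rw [← hj]
    simp only [map_div₀, map_neg, Complex.conj_conj, map_ofNat]
    field_simp
    ring
  have hzj : z = n / j := by rw [hz, smul_I_eq]
  have hdet := iota_det g
  rw [← hn, ← hj] at hdet
  have dz' : HasDerivAt (fun s => fl s n / fl s j) (Complex.I / j ^ 2) 0 := by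
    have := dn.div dj (by rwa [f0j])
    refine this.congr_deriv ?_
    rw [f0j, f0n]
    field_simp
    linear_combination (1 : ℂ) * hdet
  have hζd : HasFDerivAt ζ (fderiv ℝ ζ z) z :=
    (ht.smooth.differentiable (by simp) z).hasFDerivAt
  have dζ : HasDerivAt (fun s => ζ (fl s n / fl s j)) (fderiv ℝ ζ z (Complex.I / j ^ 2)) 0 := by
    have e : (fun s => fl s n / fl s j) 0 = z := by
      simp only [f0j, f0n, hzj]
    have h1 : HasFDerivAt ζ (fderiv ℝ ζ z) ((fun s => fl s n / fl s j) 0) := by rwa [e]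
    exact h1.comp_hasDerivAt 0 dz'
  have dωm : HasDerivAt (fun s => (fl s j / (starRingEnd ℂ) (fl s j)) ^ m)
      ((m : ℂ) * om g ^ (m - 1) * ((om g ^ 2 - 1) / 2)) 0 := by
    have e : (fun s => fl s j / (starRingEnd ℂ) (fl s j)) 0 = om g := by
      simp only [f0j]; rfl
    have h1 : HasDerivAt (fun w : ℂ => w ^ m) ((m : ℂ) * om g ^ (m - 1))
        ((fun s => fl s j / (starRingEnd ℂ) (fl s j)) 0) := by
      rw [e]
      exact hasDerivAt_zpow m (om g) (Or.inl (om_ne g))
    exact HasDerivAt.comp (h₂ := fun w : ℂ => w ^ m) 0 h1 dω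
  have d2 := dωm.mul dζ
  have d3 : HasDerivAt (fun s => K (flq s (iota g))) _ 0 :=
    d2.congr_of_eventuallyEq (Eventually.of_forall fun s => e1 s)
  rw [d1.unique d3, fderiv_eq_dz]
  simp only [f0j, f0n, ← hzj]
  -- algebra
  have him := im_smul_I g
  rw [← hj, ← hz] at him
  have ho : om g = j / (starRingEnd ℂ) j := rfl
  have ho0 := om_ne g
  have hi1 : Complex.I / j ^ 2 = Complex.I * (z.im : ℂ) * (om g)⁻¹ := by
    rw [ho]
    field_simp
    linear_combination -(1 : ℂ) * him
  have hi2 : (starRingEnd ℂ) (Complex.I / j ^ 2) = -Complex.I * (z.im : ℂ) * om g := by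
    rw [hi1, map_mul, map_mul, Complex.conj_I, Complex.conj_ofReal]
    congr 1
    rw [ho, map_inv₀, map_div₀, Complex.conj_conj, inv_div]
  have hq : j / (starRingEnd ℂ) j = om g := rfl
  rw [hi2, hi1, hq]
  unfold cA cB
  rw [zpow_add_one₀ ho0, zpow_sub_one₀ ho0]
  field_simp
  ring

/-! ## integration against the measure -/

lemma Test.compact_H {ζ : ℂ → ℂ} (h : Test UH ζ) :
    HasCompactSupport fun z : ℍ => ζ (z : ℂ) := by
  have hK : IsCompact (UpperHalfPlane.coe ⁻¹' tsupport ζ) := by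
    rw [isOpenEmbedding_coe.isEmbedding.isInducing.isCompact_preimage_iff]
    · exact h.supp
    · rw [range_coe_eq]; exact h.sub
  refine HasCompactSupport.intro hK fun z hz => ?_
  exact image_eq_zero_of_notMem_tsupport hz

lemma cA_test {ζ : ℂ → ℂ} (m : ℤ) (h : Test UH ζ) : Test UH (cA m ζ) := by
  have h1 : ContDiff ℝ ∞ fun z : ℂ => (z.im : ℂ) :=
    Complex.ofRealCLM.contDiff.comp Complex.imCLM.contDiff
  have hz : ∀ z ∉ tsupport ζ, cA m ζ z = 0 := by
    intro z hz
    have e1 : ζ z = 0 := image_eq_zero_of_notMem_tsupport hz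
    have e2 : dzb ζ z = 0 := image_eq_zero_of_notMem_tsupport fun h => hz (tsupport_dzb_subset ζ h)
    unfold cA
    rw [e1, e2]; ring
  have hs : tsupport (cA m ζ) ⊆ tsupport ζ := by
    refine closure_minimal (fun z hz' => ?_) (isClosed_tsupport _)
    by_contra hc
    exact hz' (hz z hc)
  refine ⟨?_, HasCompactSupport.intro h.supp hz, hs.trans h.sub⟩
  exact (contDiff_const.mul h.smooth).sub ((contDiff_const.mul h1).mul (contDiff_dzb h.smooth))

lemma cB_test {ζ : ℂ → ℂ} (m : ℤ) (h : Test UH ζ) : Test UH (cB m ζ) := by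
  have h1 : ContDiff ℝ ∞ fun z : ℂ => (z.im : ℂ) :=
    Complex.ofRealCLM.contDiff.comp Complex.imCLM.contDiff
  have hz : ∀ z ∉ tsupport ζ, cB m ζ z = 0 := by
    intro z hz
    have e1 : ζ z = 0 := image_eq_zero_of_notMem_tsupport hz
    have e2 : dz ζ z = 0 := image_eq_zero_of_notMem_tsupport fun h => hz (tsupport_dz_subset ζ h)
    unfold cB
    rw [e1, e2]; ring
  have hs : tsupport (cB m ζ) ⊆ tsupport ζ := by
    refine closure_minimal (fun z hz' => ?_) (isClosed_tsupport _)
    by_contra hc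
    exact hz' (hz z hc)
  refine ⟨?_, HasCompactSupport.intro h.supp hz, hs.trans h.sub⟩
  exact (contDiff_const.mul h.smooth).neg.add ((contDiff_const.mul h1).mul (contDiff_dz h.smooth))

/-- a test function times a locally square integrable function is integrable for the hyperbolic
measure -/
lemma integrable_test {ζ v : ℂ → ℂ} (h : Test UH ζ) (hv : LocL2 UH v) :
    Integrable (fun z => ζ z * v z / (z.im : ℂ) ^ 2) (volume.restrict UH) := by
  set K := tsupport ζ with hK
  have hKc : IsCompact K := h.supp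
  have h1 : MemLp v 2 (volume.restrict K) := hv K hKc h.sub
  have hfin : IsFiniteMeasure (volume.restrict K) := ⟨by simpa using hKc.measure_lt_top⟩
  have h2 : Integrable v (volume.restrict K) := h1.integrable (by norm_num)
  have hcont : ContinuousOn (fun z : ℂ => ζ z / (z.im : ℂ) ^ 2) K := by
    refine h.smooth.continuous.continuousOn.div (by fun_prop) fun z hz => ?_
    have : 0 < z.im := h.sub hz
    exact pow_ne_zero 2 (by exact_mod_cast this.ne')
  obtain ⟨B, hB⟩ := hKc.exists_bound_of_continuousOn hcont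
  have h3 : Integrable (fun z => ζ z / (z.im : ℂ) ^ 2 * v z) (volume.restrict K) := by
    refine h2.bdd_mul (c := B) (hcont.aestronglyMeasurable hKc.measurableSet) ?_
    exact (ae_restrict_iff' hKc.measurableSet).2 (ae_of_all _ fun z hz => hB z hz)
  have h4 : IntegrableOn (fun z => ζ z * v z / (z.im : ℂ) ^ 2) K := by
    refine h3.congr (ae_of_all _ fun z => ?_)
    ring
  have h5 : Integrable (fun z => ζ z * v z / (z.im : ℂ) ^ 2) := by
    refine h4.integrable_of_forall_notMem_eq_zero fun z hz => ?_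
    rw [image_eq_zero_of_notMem_tsupport hz]; ring
  exact h5.restrict

lemma neg_continuous : Continuous fun g : SL(2, ℝ) => -g := by
  rw [iota_closedEmbedding.isEmbedding.continuous_iff]
  have : iota ∘ (fun g : SL(2, ℝ) => -g) = fun g => -iota g := funext fun g => iota_neg g
  rw [this]
  exact iota_continuous.neg

/-- negation, as a homeomorphism -/
def negH : SL(2, ℝ) ≃ₜ SL(2, ℝ) where
  toFun g := -g
  invFun g := -g
  left_inv g := neg_neg g
  right_inv g := neg_neg g
  continuous_toFun := neg_continuous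
  continuous_invFun := neg_continuous

lemma om_pow (g : SL(2, ℝ)) (k : ℤ) :
    om g ^ k = Complex.I ^ k * (starRingEnd ℂ) (dirG g ^ k) := by
  have h := omega_eq g
  unfold om
  rw [h, mul_zpow, map_zpow₀]

variable [MeasurableSpace SL(2, ℝ)] [BorelSpace SL(2, ℝ)]

/-- **right invariance under the geodesic flow** -/
theorem flow_right {Γ : Subgroup SL(2, ℝ)} {u : ℤ → ℂ → ℂ} (hu : LimFam Γ u)
    {μ : Measure SL(2, ℝ)} [IsFiniteMeasureOnCompacts μ]
    (hneg : Measure.map (fun g => -g) μ = μ)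
    (hcoef : ∀ (k : ℤ) (ζ : ℍ → ℂ), Continuous ζ → HasCompactSupport ζ →
      ∫ g : SL(2, ℝ), ζ (g • UpperHalfPlane.I) * (starRingEnd ℂ) (dirG g ^ k) ∂μ =
        ∫ z : ℍ, ζ z * u k z)
    (s : ℝ) : Measure.map (fun g => g * aS s) μ = μ := by
  refine right_of_XX (fun H hH hc => XX_of_Hk hH hc fun k => ?_) s
  obtain ⟨R, hR0, hR⟩ : ∃ R : ℝ, 0 < R ∧ ∀ q, R < ‖q‖ → H q = 0 := by
    obtain ⟨R, hR⟩ := (IsCompact.isBounded hc).exists_norm_le
    refine ⟨max R 1, lt_max_of_lt_right one_pos, fun q hq => ?_⟩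
    apply image_eq_zero_of_notMem_tsupport
    intro h
    exact absurd (hR q h) (not_le.2 (lt_of_le_of_lt (le_max_left _ _) hq))
  rcases Int.even_or_odd' k with ⟨m, rfl | rfl⟩
  · -- even components
    have ht : Test UH (zet (Hk (2 * m) H)) :=
      zet_test (Hk_smooth _ hH) hR0 fun q hq => Hk_zero_of hR _ hq
    set ζ := zet (Hk (2 * m) H) with hζ
    have hA := cA_test m ht
    have hB := cB_test m ht
    have cont : ∀ {f : ℂ → ℂ}, Test UH f → Continuous fun z : ℍ => f z := fun h =>
      h.smooth.continuous.comp UpperHalfPlane.continuous_coe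
    have hdirc : Continuous fun g : SL(2, ℝ) => dirG g := by
      have h1 : Continuous fun g : SL(2, ℝ) => (iota g).2 := continuous_snd.comp iota_continuous
      simp only [dirG_eq]
      exact continuous_const.mul ((Complex.continuous_conj.comp h1).div h1 iota_snd_ne)
    have hproj : Continuous fun g : SL(2, ℝ) => g • UpperHalfPlane.I :=
      continuous_id.smul continuous_const
    have integ : ∀ {f : ℂ → ℂ}, Test UH f → ∀ k : ℤ, Integrable (fun g : SL(2, ℝ) =>
        f ((g • UpperHalfPlane.I : ℍ) : ℂ) * (starRingEnd ℂ) (dirG g ^ k)) μ := by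
      intro f hf k
      refine Continuous.integrable_of_hasCompactSupport ?_ ?_
      · refine ((cont hf).comp hproj).mul (Complex.continuous_conj.comp ?_)
        refine hdirc.zpow₀ k fun g => Or.inl ?_
        intro h
        have := norm_dirG_FI g
        rw [h, norm_zero] at this
        exact zero_ne_one this
      · have hK : IsCompact ((fun g : SL(2, ℝ) => g • UpperHalfPlane.I) ⁻¹'
            tsupport fun z : ℍ => f z) :=
          isProperMap_smul_I.isCompact_preimage hf.compact_H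
        refine HasCompactSupport.intro hK fun g hg => ?_
        have : f ((g • UpperHalfPlane.I : ℍ) : ℂ) = 0 :=
          image_eq_zero_of_notMem_tsupport (f := fun z : ℍ => f z) hg
        rw [this, zero_mul]
    have e1 : ∀ g : SL(2, ℝ), XX (Hk (2 * m) H) (iota g) =
        Complex.I ^ (m + 1) * (cA m ζ ((g • UpperHalfPlane.I : ℍ) : ℂ) *
          (starRingEnd ℂ) (dirG g ^ (m + 1))) + Complex.I ^ (m - 1) *
          (cB m ζ ((g • UpperHalfPlane.I : ℍ) : ℂ) * (starRingEnd ℂ) (dirG g ^ (m - 1))) := by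
      intro g
      rw [XX_even m hH ht, om_pow, om_pow]
      ring
    simp only [e1]
    rw [integral_add ((integ hA _).const_mul _) ((integ hB _).const_mul _), integral_const_mul,
      integral_const_mul, hcoef (m + 1) (fun z => cA m ζ z) (cont hA) hA.compact_H,
      hcoef (m - 1) (fun z => cB m ζ z) (cont hB) hB.compact_H,
      integral_uhp (fun z => cA m ζ z * u (m + 1) z), integral_uhp (fun z => cB m ζ z * u (m - 1) z)]
    have hI : Complex.I ^ (m + 1) = Complex.I ^ m * Complex.I := zpow_add_one₀ Complex.I_ne_zero m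
    have hI' : Complex.I ^ (m - 1) = Complex.I ^ m * (-Complex.I) := by
      rw [zpow_sub_one₀ Complex.I_ne_zero, Complex.inv_I]
    rw [hI, hI', mul_assoc, mul_assoc, ← mul_add, ← integral_const_mul, ← integral_const_mul,
      ← integral_add ((integrable_test hA (hu.loc _)).const_mul _)
        ((integrable_test hB (hu.loc _)).const_mul _)]
    have htr := hu.transport m ζ ht
    have e2 : ∫ z in UH, (Complex.I * (cA m ζ z * u (m + 1) z / (z.im : ℂ) ^ 2) +
        -Complex.I * (cB m ζ z * u (m - 1) z / (z.im : ℂ) ^ 2)) =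
        ∫ z, (((z.im : ℂ) * dz ζ z + Complex.I * m / 2 * ζ z) * u (m - 1) z
      + ((z.im : ℂ) * dzb ζ z + Complex.I * m / 2 * ζ z) * u (m + 1) z) / (z.im : ℂ) ^ 2 := by
      have e3 : ∫ z in UH, (((z.im : ℂ) * dz ζ z + Complex.I * m / 2 * ζ z) * u (m - 1) z
          + ((z.im : ℂ) * dzb ζ z + Complex.I * m / 2 * ζ z) * u (m + 1) z) / (z.im : ℂ) ^ 2 =
          ∫ z, (((z.im : ℂ) * dz ζ z + Complex.I * m / 2 * ζ z) * u (m - 1) z
          + ((z.im : ℂ) * dzb ζ z + Complex.I * m / 2 * ζ z) * u (m + 1) z) / (z.im : ℂ) ^ 2 := by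
        refine setIntegral_eq_integral_of_forall_compl_eq_zero fun z hz => ?_
        have hz' : z ∉ tsupport ζ := fun h => hz (ht.sub h)
        have f1 : ζ z = 0 := image_eq_zero_of_notMem_tsupport hz'
        have f2 : dz ζ z = 0 :=
          image_eq_zero_of_notMem_tsupport fun h => hz' (tsupport_dz_subset ζ h)
        have f3 : dzb ζ z = 0 :=
          image_eq_zero_of_notMem_tsupport fun h => hz' (tsupport_dzb_subset ζ h)
        rw [f1, f2, f3]; ring
      rw [← e3]
      refine setIntegral_congr_fun isOpen_UH_FI.measurableSet fun z _ => ?_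
      unfold cA cB
      linear_combination (-(z.im : ℂ) * dzb ζ z * u (m + 1) z / (z.im : ℂ) ^ 2 -
        (z.im : ℂ) * dz ζ z * u (m - 1) z / (z.im : ℂ) ^ 2) * Complex.I_sq
    rw [e2, htr, mul_zero]
  · -- odd components
    set K := Hk (2 * m + 1) H with hK
    have hodd : ∀ q, K (-q) = -K q := Hk_neg ⟨m, rfl⟩ H
    have hKd : Differentiable ℝ K := (Hk_smooth _ hH).differentiable (by simp)
    have hXX : ∀ q, XX K (-q) = -XX K q := by
      intro q
      have h1 : HasFDerivAt (fun q => K (-q)) (-(fderiv ℝ K (-q))) q := by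
        have := (hKd (-q)).hasFDerivAt.comp q (hasFDerivAt_id q).neg
        refine this.congr_fderiv ?_
        ext v <;> simp
      have h2 : HasFDerivAt (fun q => K (-q)) (-(fderiv ℝ K q)) q := by
        have := (hKd q).hasFDerivAt.neg
        exact this.congr_of_eventuallyEq (Eventually.of_forall fun q => hodd q)
      have h3 := h1.unique h2
      have h4 : fderiv ℝ K (-q) = fderiv ℝ K q := neg_injective h3
      have h5 : Vq (-q) = -Vq q := by
        unfold Vq
        refine Prod.ext ?_ ?_ <;> simp [neg_div]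
      unfold XX
      rw [h4, h5, map_neg]
    have hme : MeasurableEmbedding fun g : SL(2, ℝ) => -g := negH.measurableEmbedding
    have h1 : ∫ g, XX K (iota g) ∂μ = -∫ g, XX K (iota g) ∂μ := by
      conv_lhs => rw [← hneg]
      rw [hme.integral_map]
      simp only [iota_neg, hXX]
      exact integral_neg _
    have h2 : (2 : ℂ) * ∫ g, XX K (iota g) ∂μ = 0 := by
      linear_combination h1
    exact (mul_eq_zero.1 h2).resolve_left two_ne_zero

end

end QE
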