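import Pool.Agent.Lib_helper67.QE.HypDefs
import Pool.Agent.Lib_helper67.QE.FlowParam

/-!
Linear coordinates on `SL(2, ℝ)` and the geodesic flow in these coordinates (helper40, QH_D3).
-/

open MeasureTheory Filter Topology Set
open UpperHalfPlane hiding I
open scoped ContDiff MatrixGroups

namespace QE

noncomputable section

/-- the two rows of a matrix, as complex numbers -/
def iota (g : SL(2, ℝ)) : ℂ × ℂ := (⟨g 0 1, g 0 0⟩, ⟨g 1 1, g 1 0⟩)

/-- the flow on rows -/
def fl (s : ℝ) (w : ℂ) : ℂ :=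
  (Real.cosh (s / 2) : ℂ) * w - (Real.sinh (s / 2) : ℂ) * (starRingEnd ℂ) w

/-- the flow on pairs of rows -/
def flq (s : ℝ) (q : ℂ × ℂ) : ℂ × ℂ := (fl s q.1, fl s q.2)

/-- generator of the flow -/
def Vq (q : ℂ × ℂ) : ℂ × ℂ := (-((starRingEnd ℂ) q.1) / 2, -((starRingEnd ℂ) q.2) / 2)

lemma iota_snd (g : SL(2, ℝ)) : (iota g).2 = den g Complex.I := by
  unfold iota den
  apply Complex.ext <;> simp

lemma iota_det (g : SL(2, ℝ)) :
    (iota g).1 * (starRingEnd ℂ) (iota g).2 - (starRingEnd ℂ) (iota g).1 * (iota g).2 =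
      2 * Complex.I := by
  have h := g.det_coe
  rw [Matrix.det_fin_two] at h
  unfold iota
  apply Complex.ext
  · simp
    try ring
  · simp
    linear_combination 2 * h

lemma iota_snd_ne (g : SL(2, ℝ)) : (iota g).2 ≠ 0 := by
  intro h
  have := iota_det g
  rw [h] at this
  simp at this

lemma smul_I_eq (g : SL(2, ℝ)) : ((g • UpperHalfPlane.I : ℍ) : ℂ) = (iota g).1 / (iota g).2 := by
  rw [coe_specialLinearGroup_apply, iota_snd]
  unfold iota den
  congr 1
  · apply Complex.ext <;> simp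
  

lemma dirG_eq (g : SL(2, ℝ)) :
    dirG g = Complex.I * ((starRingEnd ℂ) (iota g).2 / (iota g).2) := by
  unfold dirG phase
  rw [← iota_snd]
  have h := iota_snd_ne g
  have h2 : ((‖(iota g).2‖ : ℝ) : ℂ) ≠ 0 := by
    exact_mod_cast (norm_pos_iff.2 h).ne'
  have h3 : ((‖(iota g).2‖ : ℝ) : ℂ) ^ 2 = (iota g).2 * (starRingEnd ℂ) (iota g).2 := by
    rw [Complex.mul_conj, Complex.normSq_eq_norm_sq]; push_cast; rfl
  have h4 : (starRingEnd ℂ) (iota g).2 ≠ 0 := by
    rwa [Ne, map_eq_zero]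
  rw [div_pow, h3]
  congr 1
  field_simp

lemma norm_dirG_FI (g : SL(2, ℝ)) : ‖dirG g‖ = 1 := by
  rw [dirG_eq, norm_mul, norm_div, RCLike.norm_conj, Complex.norm_I,
    div_self (norm_pos_iff.2 (iota_snd_ne g)).ne', one_mul]

/-- the quotient `j / conj j` -/
lemma omega_eq (g : SL(2, ℝ)) :
    (iota g).2 / (starRingEnd ℂ) (iota g).2 = Complex.I * (starRingEnd ℂ) (dirG g) := by
  have h := iota_snd_ne g
  have h4 : (starRingEnd ℂ) (iota g).2 ≠ 0 := by
    rwa [Ne, map_eq_zero]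
  rw [dirG_eq]
  simp only [map_mul, map_div₀, Complex.conj_I, Complex.conj_conj]
  field_simp
  rw [Complex.I_sq]; ring

lemma im_smul_I (g : SL(2, ℝ)) :
    (((g • UpperHalfPlane.I : ℍ) : ℂ).im : ℂ) * ((iota g).2 * (starRingEnd ℂ) (iota g).2) = 1 := by
  have h := iota_snd_ne g
  have h4 : (starRingEnd ℂ) (iota g).2 ≠ 0 := by
    rwa [Ne, map_eq_zero]
  have hd := iota_det g
  rw [smul_I_eq, Complex.im_eq_sub_conj, map_div₀]
  field_simp
  linear_combination hd

lemma iota_neg (g : SL(2, ℝ)) : iota (-g) = -iota g := by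
  unfold iota
  refine Prod.ext (Complex.ext ?_ ?_) (Complex.ext ?_ ?_) <;> simp

lemma iota_mul_aS (g : SL(2, ℝ)) (s : ℝ) : iota (g * aS s) = flq s (iota g) := by
  have h1 := Real.cosh_add_sinh (s / 2)
  have h2 := Real.cosh_sub_sinh (s / 2)
  have e0 : ∀ i : Fin 2, (g * aS s) i 0 = g i 0 * Real.exp (s / 2) := fun i => by
    have : (g * aS s) i 0 = (g.1 * (aS s).1) i 0 := rfl
    rw [this]
    simp [aS, Matrix.mul_apply, Fin.sum_univ_two]
  have e1 : ∀ i : Fin 2, (g * aS s) i 1 = g i 1 * Real.exp (-(s / 2)) := fun i => by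
    have : (g * aS s) i 1 = (g.1 * (aS s).1) i 1 := rfl
    rw [this]
    simp [aS, Matrix.mul_apply, Fin.sum_univ_two]
  unfold iota flq fl
  rw [e0, e1, e0, e1]
  refine Prod.ext (Complex.ext ?_ ?_) (Complex.ext ?_ ?_)
  · simp only [Complex.sub_re, Complex.re_ofReal_mul, Complex.conj_re]
    linear_combination (-(g 0 1)) * h2
  · simp only [Complex.sub_im, Complex.im_ofReal_mul, Complex.conj_im]
    linear_combination (-(g 0 0)) * h1
  · simp only [Complex.sub_re, Complex.re_ofReal_mul, Complex.conj_re]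
    linear_combination (-(g 1 1)) * h2
  · simp only [Complex.sub_im, Complex.im_ofReal_mul, Complex.conj_im]
    linear_combination (-(g 1 0)) * h1

/-! ## topology -/

lemma iota_continuous : Continuous iota := by
  have h : ∀ i j : Fin 2, Continuous fun g : SL(2, ℝ) => g i j := fun i j =>
    (continuous_apply_apply i j).comp Matrix.SpecialLinearGroup.isClosedEmbedding_val.continuous
  unfold iota
  have h2 : ∀ f g : SL(2, ℝ) → ℝ, Continuous f → Continuous g →
      Continuous fun x => (⟨f x, g x⟩ : ℂ) := by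
    intro f g hf hg
    exact (Complex.equivRealProdCLM.symm.continuous.comp (hf.prodMk hg))
  exact (h2 _ _ (h 0 1) (h 0 0)).prodMk (h2 _ _ (h 1 1) (h 1 0))

/-- matrices as pairs of complex numbers -/
def matC (M : Matrix (Fin 2) (Fin 2) ℝ) : ℂ × ℂ := (⟨M 0 1, M 0 0⟩, ⟨M 1 1, M 1 0⟩)

def matCinv (q : ℂ × ℂ) : Matrix (Fin 2) (Fin 2) ℝ := !![q.1.im, q.1.re; q.2.im, q.2.re]

lemma matC_continuous : Continuous matC := by
  have h : ∀ i j : Fin 2, Continuous fun g : Matrix (Fin 2) (Fin 2) ℝ => g i j := fun i j =>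
    continuous_apply_apply i j
  have h2 : ∀ f g : Matrix (Fin 2) (Fin 2) ℝ → ℝ, Continuous f → Continuous g →
      Continuous fun x => (⟨f x, g x⟩ : ℂ) := by
    intro f g hf hg
    exact (Complex.equivRealProdCLM.symm.continuous.comp (hf.prodMk hg))
  exact (h2 _ _ (h 0 1) (h 0 0)).prodMk (h2 _ _ (h 1 1) (h 1 0))

lemma matCinv_continuous : Continuous matCinv := by
  refine continuous_matrix fun i j => ?_
  fin_cases i <;> fin_cases j <;> simp [matCinv] <;> fun_prop

/-- the linear homeomorphism between matrices and pairs of complex numbers -/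
def matCH : Matrix (Fin 2) (Fin 2) ℝ ≃ₜ ℂ × ℂ where
  toFun := matC
  invFun := matCinv
  left_inv M := by
    ext i j
    fin_cases i <;> fin_cases j <;> simp [matC, matCinv]
  right_inv q := by
    refine Prod.ext (Complex.ext ?_ ?_) (Complex.ext ?_ ?_) <;> simp [matC, matCinv]
  continuous_toFun := matC_continuous
  continuous_invFun := matCinv_continuous

lemma iota_closedEmbedding : IsClosedEmbedding iota :=
  matCH.isClosedEmbedding.comp Matrix.SpecialLinearGroup.isClosedEmbedding_val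

lemma iota_compact {C : Set (ℂ × ℂ)} (hC : IsCompact C) : IsCompact (iota ⁻¹' C) :=
  iota_closedEmbedding.isCompact_preimage hC

/-! ## the flow -/

/-- the flow on rows, as a real linear map -/
def flL (s : ℝ) : ℂ →L[ℝ] ℂ :=
  Real.cosh (s / 2) • ContinuousLinearMap.id ℝ ℂ - Real.sinh (s / 2) • (Complex.conjCLE : ℂ →L[ℝ] ℂ)

lemma flL_apply (s : ℝ) (w : ℂ) : flL s w = fl s w := by
  simp [flL, fl]

def flqL (s : ℝ) : ℂ × ℂ →L[ℝ] ℂ × ℂ := (flL s).prodMap (flL s)

lemma flqL_apply (s : ℝ) (q : ℂ × ℂ) : flqL s q = flq s q := by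
  show (flL s q.1, flL s q.2) = (fl s q.1, fl s q.2)
  rw [flL_apply, flL_apply]

lemma flq_add (s t : ℝ) (q : ℂ × ℂ) : flq s (flq t q) = flq (s + t) q := by
  have h1 : Real.cosh ((s + t) / 2) = Real.cosh (s / 2) * Real.cosh (t / 2) +
      Real.sinh (s / 2) * Real.sinh (t / 2) := by rw [add_div, Real.cosh_add]
  have h2 : Real.sinh ((s + t) / 2) = Real.sinh (s / 2) * Real.cosh (t / 2) +
      Real.cosh (s / 2) * Real.sinh (t / 2) := by rw [add_div, Real.sinh_add]
  have h : ∀ w : ℂ, fl s (fl t w) = fl (s + t) w := by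
    intro w
    unfold fl
    rw [h1, h2]
    simp only [map_sub, map_mul, Complex.conj_ofReal, Complex.conj_conj]
    push_cast
    ring
  exact Prod.ext (h q.1) (h q.2)

lemma flq_zero (q : ℂ × ℂ) : flq 0 q = q := by
  simp [flq, fl]

lemma flq_neg (s : ℝ) (q : ℂ × ℂ) : flq s (-q) = -flq s q := by
  rw [← flqL_apply, ← flqL_apply, map_neg]

lemma contDiff_flq : ContDiff ℝ ∞ fun p : ℝ × (ℂ × ℂ) => flq p.1 p.2 := by
  have h1 : ContDiff ℝ ∞ fun p : ℝ × (ℂ × ℂ) => ((Real.cosh (p.1 / 2) : ℝ) : ℂ) :=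
    Complex.ofRealCLM.contDiff.comp (Real.contDiff_cosh.comp (contDiff_fst.div_const 2))
  have h2 : ContDiff ℝ ∞ fun p : ℝ × (ℂ × ℂ) => ((Real.sinh (p.1 / 2) : ℝ) : ℂ) :=
    Complex.ofRealCLM.contDiff.comp (Real.contDiff_sinh.comp (contDiff_fst.div_const 2))
  have h3 : ContDiff ℝ ∞ fun p : ℝ × (ℂ × ℂ) => p.2.1 := contDiff_fst.comp contDiff_snd
  have h4 : ContDiff ℝ ∞ fun p : ℝ × (ℂ × ℂ) => p.2.2 := contDiff_snd.comp contDiff_snd
  have h5 : ContDiff ℝ ∞ fun w : ℂ => (starRingEnd ℂ) w := Complex.conjCLE.contDiff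
  unfold flq fl
  exact ((h1.mul h3).sub (h2.mul (h5.comp h3))).prodMk ((h1.mul h4).sub (h2.mul (h5.comp h4)))

lemma hasDerivAt_fl (s : ℝ) (w : ℂ) :
    HasDerivAt (fun s => fl s w) (-((starRingEnd ℂ) (fl s w)) / 2) s := by
  have h0 : HasDerivAt (fun s : ℝ => s / 2) (1 / 2) s := (hasDerivAt_id s).div_const 2
  have h1 : HasDerivAt (fun s : ℝ => ((Real.cosh (s / 2) : ℝ) : ℂ))
      ((Real.sinh (s / 2) * (1 / 2) : ℝ) : ℂ) s := (h0.cosh).ofReal_comp
  have h2 : HasDerivAt (fun s : ℝ => ((Real.sinh (s / 2) : ℝ) : ℂ))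
      ((Real.cosh (s / 2) * (1 / 2) : ℝ) : ℂ) s := (h0.sinh).ofReal_comp
  have h3 := (h1.mul_const w).sub (h2.mul_const ((starRingEnd ℂ) w))
  refine h3.congr_deriv ?_
  unfold fl
  simp only [map_sub, map_mul, Complex.conj_ofReal, Complex.conj_conj]
  push_cast
  ring

lemma hasDerivAt_flq (s : ℝ) (q : ℂ × ℂ) : HasDerivAt (fun s => flq s q) (Vq (flq s q)) s :=
  (hasDerivAt_fl s q.1).prodMk (hasDerivAt_fl s q.2)

lemma flq_Vq (s : ℝ) (q : ℂ × ℂ) : flq s (Vq q) = Vq (flq s q) := by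
  have h : ∀ w : ℂ, fl s (-((starRingEnd ℂ) w) / 2) = -((starRingEnd ℂ) (fl s w)) / 2 := by
    intro w
    unfold fl
    simp only [map_sub, map_mul, map_div₀, map_neg, Complex.conj_ofReal, Complex.conj_conj,
      map_ofNat]
    ring
  exact Prod.ext (h q.1) (h q.2)

lemma continuous_Vq : Continuous Vq := by
  unfold Vq
  have : Continuous fun w : ℂ => (starRingEnd ℂ) w := Complex.continuous_conj
  fun_prop

/-- the geodesic vector field applied to a function -/
def XX (H : ℂ × ℂ → ℂ) (q : ℂ × ℂ) : ℂ := fderiv ℝ H q (Vq q)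

lemma XX_flq {H : ℂ × ℂ → ℂ} (hH : Differentiable ℝ H) (s : ℝ) (q : ℂ × ℂ) :
    XX (fun q => H (flq s q)) q = fderiv ℝ H (flq s q) (Vq (flq s q)) := by
  unfold XX
  have h1 : HasFDerivAt (fun q => flq s q) (flqL s) q := by
    have := (flqL s).hasFDerivAt (x := q)
    exact this.congr_of_eventuallyEq (Eventually.of_forall fun q => (flqL_apply s q).symm)
  have h2 := ((hH (flq s q)).hasFDerivAt.comp q h1).fderiv
  have h3 : fderiv ℝ (fun q => H (flq s q)) q = (fderiv ℝ H (flq s q)).comp (flqL s) := h2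
  rw [h3, ContinuousLinearMap.comp_apply, flqL_apply, flq_Vq]

lemma hasDerivAt_H {H : ℂ × ℂ → ℂ} (hH : Differentiable ℝ H) (s : ℝ) (q : ℂ × ℂ) :
    HasDerivAt (fun s => H (flq s q)) (XX (fun q => H (flq s q)) q) s := by
  rw [XX_flq hH]
  exact (hH (flq s q)).hasFDerivAt.comp_hasDerivAt s (hasDerivAt_flq s q)

end

end QE
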