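import Pool.Agent.Lib_helper67.QE.FlowIota

/-!
Measures on `SL(2, ℝ)` are determined by the integrals of smooth functions of the matrix entries; a
measure which is killed by the geodesic vector field is flow invariant (helper40, QH_D3).
-/

open MeasureTheory Filter Topology Set
open UpperHalfPlane hiding I
open scoped ContDiff MatrixGroups

namespace QE

noncomputable section

lemma _root_.ContDiff.ofReal_comp' {f : ℂ × ℂ → ℝ} (hf : ContDiff ℝ ∞ f) :
    ContDiff ℝ ∞ fun q => (f q : ℂ) := Complex.ofRealCLM.contDiff.comp hf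

/-- a measure on `ℂ × ℂ` is determined by the integrals of smooth compactly supported functions -/
theorem measure_ext_smooth {μ ν : Measure (ℂ × ℂ)} [IsFiniteMeasureOnCompacts μ]
    [IsFiniteMeasureOnCompacts ν]
    (h : ∀ H : ℂ × ℂ → ℂ, ContDiff ℝ ∞ H → HasCompactSupport H → ∫ q, H q ∂μ = ∫ q, H q ∂ν) :
    μ = ν := by
  -- bounded open sets
  have key : ∀ (μ : Measure (ℂ × ℂ)) [IsFiniteMeasureOnCompacts μ] (U : Set (ℂ × ℂ)),
      IsOpen U → Bornology.IsBounded U → ∀ f : ℂ × ℂ → ℝ, Function.support f = U →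
      Continuous f → (∀ q, 0 ≤ f q) →
      Tendsto (fun n : ℕ => ∫ q, ((1 - Real.exp (-(n * f q)) : ℝ) : ℂ) ∂μ) atTop
        (𝓝 ((μ.real U : ℝ) : ℂ)) := by
    intro μ _ U hU hb f hf hfc hf0
    have hμU : μ U < ⊤ := (measure_mono subset_closure).trans_lt
      (hb.isCompact_closure.measure_lt_top)
    have e : ((μ.real U : ℝ) : ℂ) = ∫ q, U.indicator (fun _ => (1 : ℂ)) q ∂μ := by
      rw [integral_indicator hU.measurableSet]
      simp [Measure.real]
    rw [e]
    refine tendsto_integral_of_dominated_convergence (U.indicator fun _ => (1 : ℝ)) ?_ ?_ ?_ ?_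
    · intro n
      exact (Complex.continuous_ofReal.comp (by fun_prop)).aestronglyMeasurable
    · exact (integrable_indicator_iff hU.measurableSet).2 (integrableOn_const hμU.ne)
    · intro n
      refine ae_of_all _ fun q => ?_
      by_cases hq : q ∈ U
      · rw [indicator_of_mem hq, Complex.norm_real, Real.norm_eq_abs, abs_le]
        have h1 : Real.exp (-(n * f q)) ≤ 1 := by
          rw [Real.exp_le_one_iff]
          have := mul_nonneg (Nat.cast_nonneg (α := ℝ) n) (hf0 q)
          linarith
        have h2 := (Real.exp_pos (-(n * f q))).le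
        constructor <;> linarith
      · have : f q = 0 := by
          rw [← hf] at hq
          simpa using hq
        rw [indicator_of_notMem hq, this]
        simp
    · refine ae_of_all _ fun q => ?_
      by_cases hq : q ∈ U
      · have hpos : 0 < f q := by
          rw [← hf] at hq
          exact lt_of_le_of_ne (hf0 q) (Ne.symm hq)
        rw [indicator_of_mem hq]
        have h1 : Tendsto (fun n : ℕ => (1 - Real.exp (-(n * f q)) : ℝ)) atTop (𝓝 (1 - 0)) := by
          refine tendsto_const_nhds.sub (Real.tendsto_exp_neg_atTop_nhds_zero.comp ?_)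
          exact tendsto_natCast_atTop_atTop.atTop_mul_const hpos
        rw [sub_zero] at h1
        have h2 := (Complex.continuous_ofReal.tendsto 1).comp h1
        rw [Complex.ofReal_one] at h2
        exact h2
      · have : f q = 0 := by
          rw [← hf] at hq
          simpa using hq
        rw [indicator_of_notMem hq, this]
        simp
  have hopen : ∀ U : Set (ℂ × ℂ), IsOpen U → Bornology.IsBounded U → μ U = ν U := by
    intro U hU hb
    obtain ⟨f, hf, hfs, hfr⟩ := hU.exists_contDiff_support_eq (n := ⊤)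
    have hf0 : ∀ q, 0 ≤ f q := fun q => (hfr (mem_range_self q)).1
    have h1 := key μ U hU hb f hf hfs.continuous hf0
    have h2 := key ν U hU hb f hf hfs.continuous hf0
    have h3 : ∀ n : ℕ, ∫ q, ((1 - Real.exp (-(n * f q)) : ℝ) : ℂ) ∂μ =
        ∫ q, ((1 - Real.exp (-(n * f q)) : ℝ) : ℂ) ∂ν := by
      intro n
      refine h (fun q => ((1 - Real.exp (-(n * f q)) : ℝ) : ℂ)) ?_ ?_
      · have hr : ContDiff ℝ ∞ (fun q : ℂ × ℂ => -((n : ℝ) * f q)) := (contDiff_const.mul hfs).neg
        have hr2 : ContDiff ℝ ∞ (fun q : ℂ × ℂ => 1 - Real.exp (-((n : ℝ) * f q))) :=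
          contDiff_const.sub hr.exp
        exact hr2.ofReal_comp'
      · refine HasCompactSupport.intro hb.isCompact_closure fun q hq => ?_
        have hq' : q ∉ U := fun h => hq (subset_closure h)
        have : f q = 0 := by
          rw [← hf] at hq'
          simpa using hq'
        simp [this]
    have h4 := tendsto_nhds_unique h1 (h2.congr fun n => (h3 n).symm)
    have h5 : μ.real U = ν.real U := by exact_mod_cast h4
    have hμU : μ U ≠ ⊤ := ((measure_mono subset_closure).trans_lt
      (hb.isCompact_closure.measure_lt_top)).ne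
    have hνU : ν U ≠ ⊤ := ((measure_mono subset_closure).trans_lt
      (hb.isCompact_closure.measure_lt_top)).ne
    exact (ENNReal.toReal_eq_toReal_iff' hμU hνU).1 h5
  have hbasis : TopologicalSpace.IsTopologicalBasis
      {U : Set (ℂ × ℂ) | IsOpen U ∧ Bornology.IsBounded U} := by
    refine TopologicalSpace.isTopologicalBasis_of_isOpen_of_nhds (fun U hU => hU.1) ?_
    intro a U ha hU
    refine ⟨U ∩ Metric.ball a 1, ⟨hU.inter Metric.isOpen_ball,
      Metric.isBounded_ball.subset inter_subset_right⟩, ⟨ha, Metric.mem_ball_self one_pos⟩,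
      inter_subset_left⟩
  refine Measure.ext_of_generateFrom_of_iUnion {U : Set (ℂ × ℂ) | IsOpen U ∧ Bornology.IsBounded U}
    (fun n : ℕ => Metric.ball 0 n) ?_ ?_ ?_ ?_ ?_ ?_
  · rw [← hbasis.borel_eq_generateFrom]
    exact BorelSpace.measurable_eq
  · rintro U ⟨hU, hUb⟩ V ⟨hV, -⟩ -
    exact ⟨hU.inter hV, hUb.subset inter_subset_left⟩
  · exact Metric.iUnion_ball_nat 0
  · exact fun n => ⟨Metric.isOpen_ball, Metric.isBounded_ball⟩
  · exact fun n => ((measure_mono subset_closure).trans_lt
      (Metric.isBounded_ball.isCompact_closure.measure_lt_top)).ne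
  · exact fun U hU => hopen U hU.1 hU.2

variable [MeasurableSpace SL(2, ℝ)] [BorelSpace SL(2, ℝ)]

lemma iota_measurableEmbedding : MeasurableEmbedding iota :=
  iota_closedEmbedding.measurableEmbedding

lemma map_iota_finite (μ : Measure SL(2, ℝ)) [IsFiniteMeasureOnCompacts μ] :
    IsFiniteMeasureOnCompacts (μ.map iota) := by
  refine ⟨fun K hK => ?_⟩
  rw [iota_measurableEmbedding.map_apply]
  exact (iota_compact hK).measure_lt_top

/-- a measure on `SL(2, ℝ)` is determined by smooth functions of the matrix -/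
theorem measure_ext_iota {μ ν : Measure SL(2, ℝ)} [IsFiniteMeasureOnCompacts μ]
    [IsFiniteMeasureOnCompacts ν]
    (h : ∀ H : ℂ × ℂ → ℂ, ContDiff ℝ ∞ H → HasCompactSupport H →
      ∫ g, H (iota g) ∂μ = ∫ g, H (iota g) ∂ν) : μ = ν := by
  have := map_iota_finite μ
  have := map_iota_finite ν
  have h1 : μ.map iota = ν.map iota := by
    refine measure_ext_smooth fun H hH hc => ?_
    rw [iota_measurableEmbedding.integral_map, iota_measurableEmbedding.integral_map]
    exact h H hH hc
  have h2 := congrArg (Measure.comap iota) h1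
  rwa [iota_measurableEmbedding.comap_map, iota_measurableEmbedding.comap_map] at h2

omit [MeasurableSpace SL(2, ℝ)] [BorelSpace SL(2, ℝ)] in
lemma iota_hasCompactSupport {H : ℂ × ℂ → ℂ} (hc : HasCompactSupport H) :
    HasCompactSupport fun g => H (iota g) := by
  refine HasCompactSupport.intro (iota_compact hc) fun g hg => ?_
  exact image_eq_zero_of_notMem_tsupport hg

lemma integrable_iota {μ : Measure SL(2, ℝ)} [IsFiniteMeasureOnCompacts μ] {H : ℂ × ℂ → ℂ}
    (hH : Continuous H) (hc : HasCompactSupport H) : Integrable (fun g => H (iota g)) μ :=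
  (hH.comp iota_continuous).integrable_of_hasCompactSupport (iota_hasCompactSupport hc)

omit [MeasurableSpace SL(2, ℝ)] [BorelSpace SL(2, ℝ)] in
lemma flq_continuous (s : ℝ) : Continuous (flq s) := by
  have := (flqL s).continuous
  exact this.congr fun q => flqL_apply s q

omit [MeasurableSpace SL(2, ℝ)] [BorelSpace SL(2, ℝ)] in
lemma contDiff_flq_right (s : ℝ) : ContDiff ℝ ∞ (flq s) := by
  have e : flq s = flqL s := funext fun q => (flqL_apply s q).symm
  rw [e]
  exact (flqL s).contDiff

omit [MeasurableSpace SL(2, ℝ)] [BorelSpace SL(2, ℝ)] in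
lemma flq_hasCompactSupport {H : ℂ × ℂ → ℂ} (hc : HasCompactSupport H) (s : ℝ) :
    HasCompactSupport fun q => H (flq s q) := by
  refine HasCompactSupport.intro (K := (flq (-s)) '' tsupport H)
    (IsCompact.image hc (flq_continuous _)) fun q hq => ?_
  by_contra h
  refine hq ⟨flq s q, subset_tsupport _ h, ?_⟩
  rw [flq_add, neg_add_cancel, flq_zero]

omit [MeasurableSpace SL(2, ℝ)] [BorelSpace SL(2, ℝ)] in
lemma continuous_flq_comp {X : Type} [TopologicalSpace X] {a : X → ℝ} {b : X → ℂ × ℂ}
    (ha : Continuous a) (hb : Continuous b) : Continuous fun x => flq (a x) (b x) := by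
  unfold flq fl
  fun_prop

/-- if the vector field integrates to zero, the measure is invariant -/
theorem flow_const {μ : Measure SL(2, ℝ)} [IsFiniteMeasureOnCompacts μ]
    (hT : ∀ H : ℂ × ℂ → ℂ, ContDiff ℝ ∞ H → HasCompactSupport H →
      ∫ g, XX H (iota g) ∂μ = 0) {H : ℂ × ℂ → ℂ} (hH : ContDiff ℝ ∞ H)
    (hc : HasCompactSupport H) (s : ℝ) :
    ∫ g, H (flq s (iota g)) ∂μ = ∫ g, H (iota g) ∂μ := by
  have hd : Differentiable ℝ H := hH.differentiable (by simp)
  have hfc : Continuous (fderiv ℝ H) := hH.continuous_fderiv (by simp)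
  -- the integrand
  have hcont : Continuous (Function.uncurry fun (r : ℝ) (g : SL(2, ℝ)) =>
      XX (fun q => H (flq r q)) (iota g)) := by
    have e : (Function.uncurry fun (r : ℝ) (g : SL(2, ℝ)) => XX (fun q => H (flq r q)) (iota g)) =
        fun p : ℝ × SL(2, ℝ) => fderiv ℝ H (flq p.1 (iota p.2)) (Vq (flq p.1 (iota p.2))) := by
      funext p
      exact XX_flq hd p.1 (iota p.2)
    rw [e]
    have h1 : Continuous fun p : ℝ × SL(2, ℝ) => flq p.1 (iota p.2) :=
      continuous_flq_comp continuous_fst (iota_continuous.comp continuous_snd)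
    exact (hfc.comp h1).clm_apply (continuous_Vq.comp h1)
  set K : Set (ℂ × ℂ) := (fun p : ℝ × (ℂ × ℂ) => flq (-p.1) p.2) '' (uIcc 0 s ×ˢ tsupport H)
    with hK
  have hKc : IsCompact K := by
    have k1 : IsCompact (tsupport H) := hc
    have k2 : IsCompact (uIcc 0 s ×ˢ tsupport H) := isCompact_uIcc.prod k1
    have k4 : Continuous fun p : ℝ × (ℂ × ℂ) => flq (-p.1) p.2 :=
      continuous_flq_comp continuous_fst.neg continuous_snd
    exact k2.image k4
  have hzero : ∀ r ∈ uIcc 0 s, ∀ g ∉ iota ⁻¹' K, XX (fun q => H (flq r q)) (iota g) = 0 := by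
    intro r hr g hg
    have h1 : flq r (iota g) ∉ tsupport H := by
      intro h
      refine hg ⟨(r, flq r (iota g)), ⟨hr, h⟩, ?_⟩
      simp only [flq_add, neg_add_cancel, flq_zero]
    rw [XX_flq hd]
    have h2 : fderiv ℝ H (flq r (iota g)) = 0 := by
      by_contra h
      exact h1 (support_fderiv_subset ℝ h)
    rw [h2]; rfl
  have hswap := integral_swap (μ := μ) (iota_compact hKc) hcont hzero
  have h0 : ∀ r : ℝ, ∫ g, XX (fun q => H (flq r q)) (iota g) ∂μ = 0 := fun r =>
    hT _ (hH.comp (contDiff_flq_right r)) (flq_hasCompactSupport hc r)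
  simp only [h0, intervalIntegral.integral_zero] at hswap
  have hftc : ∀ g : SL(2, ℝ), ∫ r in (0 : ℝ)..s, XX (fun q => H (flq r q)) (iota g) =
      H (flq s (iota g)) - H (iota g) := by
    intro g
    have h1 := intervalIntegral.integral_eq_sub_of_hasDerivAt (a := 0) (b := s)
      (f := fun r => H (flq r (iota g)))
      (f' := fun r => XX (fun q => H (flq r q)) (iota g))
      (fun r _ => hasDerivAt_H hd r (iota g))
      ((hcont.comp (continuous_id.prodMk continuous_const)).intervalIntegrable _ _)
    rw [h1, flq_zero]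
  simp only [hftc] at hswap
  have i1 : Integrable (fun g => H (flq s (iota g))) μ :=
    integrable_iota (H := fun q => H (flq s q)) (hH.continuous.comp (flq_continuous s))
      (flq_hasCompactSupport hc s)
  have i2 : Integrable (fun g => H (iota g)) μ := integrable_iota hH.continuous hc
  have e := integral_sub i1 i2
  rw [hswap] at e
  exact sub_eq_zero.1 e.symm

theorem right_of_XX {μ : Measure SL(2, ℝ)} [IsFiniteMeasureOnCompacts μ]
    (hT : ∀ H : ℂ × ℂ → ℂ, ContDiff ℝ ∞ H → HasCompactSupport H →
      ∫ g, XX H (iota g) ∂μ = 0) (s : ℝ) : Measure.map (fun g => g * aS s) μ = μ := by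
  have hme : MeasurableEmbedding fun g : SL(2, ℝ) => g * aS s :=
    (Homeomorph.mulRight (aS s)).measurableEmbedding
  have : IsFiniteMeasureOnCompacts (Measure.map (fun g => g * aS s) μ) := by
    refine ⟨fun K hK => ?_⟩
    rw [hme.map_apply]
    exact ((Homeomorph.mulRight (aS s)).isCompact_preimage.2 hK).measure_lt_top
  refine measure_ext_iota fun H hH hc => ?_
  rw [hme.integral_map]
  simp only [iota_mul_aS]
  exact flow_const hT hH hc s

end

end QE
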