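import Pool.Agent.Lib_helper67.QE.HypDefs

/-!
# The measure on `SL(2, ℝ)` with given Fourier coefficients (module QH_D2)
-/

open MeasureTheory Filter Topology Set
open UpperHalfPlane hiding I
open scoped ContDiff MatrixGroups ENNReal NNReal Pointwise

namespace QE

noncomputable section

namespace FM

/-! ### Directions -/

lemma den_ne (g : SL(2, ℝ)) (z : ℍ) : den g (z : ℂ) ≠ 0 := by
  intro h
  have h1 := congrArg Complex.im h
  have h2 := congrArg Complex.re h
  simp only [den, Complex.add_im, Complex.mul_im, Complex.ofReal_re, Complex.ofReal_im, zero_mul,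
    add_zero, Complex.zero_im, Complex.add_re, Complex.mul_re, sub_zero, Complex.zero_re] at h1 h2
  have h3 : g 1 0 = 0 := by
    rcases mul_eq_zero.1 h1 with h | h
    · exact h
    · exact absurd h z.im_ne_zero
  rw [h3, zero_mul, zero_add] at h2
  have hdet := g.det_coe
  rw [Matrix.det_fin_two, h2, h3] at hdet
  norm_num at hdet

lemma smul_den (g : SL(2, ℝ)) (z : ℍ) :
    ((g • z : ℍ) : ℂ) * den g z = ((g 0 0 : ℝ) : ℂ) * z + ((g 0 1 : ℝ) : ℂ) := by
  rw [coe_specialLinearGroup_apply]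
  exact div_mul_cancel₀ _ (den_ne g z)

lemma den_mul (γ g : SL(2, ℝ)) (z : ℍ) :
    den (γ * g) z = den γ ((g • z : ℍ) : ℂ) * den g z := by
  have h := smul_den g z
  have e0 : (γ * g) 1 0 = γ 1 0 * g 0 0 + γ 1 1 * g 1 0 := by
    simp [Matrix.mul_apply, Fin.sum_univ_two]
  have e1 : (γ * g) 1 1 = γ 1 0 * g 0 1 + γ 1 1 * g 1 1 := by
    simp [Matrix.mul_apply, Fin.sum_univ_two]
  have e2 : den γ ((g • z : ℍ) : ℂ) * den g z
      = ((γ 1 0 : ℝ) : ℂ) * (((g • z : ℍ) : ℂ) * den g z) + ((γ 1 1 : ℝ) : ℂ) * den g z := by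
    rw [den]; ring
  rw [e2, h]
  simp only [den, e0, e1]
  push_cast
  ring

lemma norm_phase (g : SL(2, ℝ)) (z : ℍ) : ‖phase g z‖ = 1 := by
  have h := norm_pos_iff.2 (den_ne g z)
  simp only [phase, norm_pow, norm_div, RCLike.norm_conj, Complex.norm_real, norm_norm]
  rw [div_self h.ne', one_pow]

lemma phase_mul (γ g : SL(2, ℝ)) (z : ℍ) :
    phase (γ * g) z = phase γ ((g • z : ℍ) : ℂ) * phase g z := by
  simp only [phase, den_mul, map_mul, norm_mul, Complex.ofReal_mul]
  rw [← mul_pow, div_mul_div_comm]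

lemma norm_dirG (g : SL(2, ℝ)) : ‖dirG g‖ = 1 := by
  have h := norm_phase g UpperHalfPlane.I
  rw [UpperHalfPlane.coe_I] at h
  simp [dirG, h]

lemma dirG_ne (g : SL(2, ℝ)) : dirG g ≠ 0 := by
  intro h
  have := norm_dirG g
  rw [h] at this
  simp at this

lemma dirG_mul (γ g : SL(2, ℝ)) :
    dirG (γ * g) = phase γ ((g • UpperHalfPlane.I : ℍ) : ℂ) * dirG g := by
  have h := phase_mul γ g UpperHalfPlane.I
  rw [UpperHalfPlane.coe_I] at h
  simp only [dirG, h]
  ring

lemma dirG_neg (g : SL(2, ℝ)) : dirG (-g) = dirG g := by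
  have e : den (-g) Complex.I = - den g Complex.I := by
    simp only [den]
    have e0 : (-g) 1 0 = - g 1 0 := by simp
    have e1 : (-g) 1 1 = - g 1 1 := by simp
    rw [e0, e1]
    push_cast
    ring
  simp only [dirG, phase, e, map_neg, norm_neg, neg_div, neg_sq]

lemma continuous_dirG : Continuous dirG := by
  have h1 : Continuous fun g : SL(2, ℝ) => (g 1 0 : ℝ) := by fun_prop
  have h2 : Continuous fun g : SL(2, ℝ) => (g 1 1 : ℝ) := by fun_prop
  have h3 : Continuous fun g : SL(2, ℝ) => den g Complex.I := by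
    unfold den
    exact ((Complex.continuous_ofReal.comp h1).mul continuous_const).add
      (Complex.continuous_ofReal.comp h2)
  unfold dirG phase
  refine continuous_const.mul (Continuous.pow ?_ 2)
  refine (Complex.continuous_conj.comp h3).div (Complex.continuous_ofReal.comp h3.norm) ?_
  intro g
  have := den_ne g UpperHalfPlane.I
  rw [UpperHalfPlane.coe_I] at this
  simpa using this

lemma dirG_frame (z : ℍ) (θ : ℝ) :
    dirG (Berry.frame (z, θ)) = Complex.I * Complex.exp (-(2 * θ * Complex.I)) := by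
  have hy : 0 < Real.sqrt z.im := Real.sqrt_pos.2 z.im_pos
  have e : den (Berry.frame (z, θ)) Complex.I
      = Complex.exp (θ * Complex.I) / ((Real.sqrt z.im : ℝ) : ℂ) := by
    have e0 : (Berry.frame (z, θ)) 1 0 = Real.sin θ / Real.sqrt z.im := by
      simp [Berry.frame, Berry.rot, Matrix.mul_apply, Fin.sum_univ_two]
      ring
    have e1 : (Berry.frame (z, θ)) 1 1 = Real.cos θ / Real.sqrt z.im := by
      simp [Berry.frame, Berry.rot, Matrix.mul_apply, Fin.sum_univ_two]
      ring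
    simp only [den, e0, e1]
    rw [Complex.exp_mul_I]
    push_cast
    ring
  have hn : ‖den (Berry.frame (z, θ)) Complex.I‖ = 1 / Real.sqrt z.im := by
    rw [e, norm_div, Complex.norm_exp_ofReal_mul_I, Complex.norm_real, Real.norm_eq_abs,
      abs_of_pos hy]
  have hc : (starRingEnd ℂ) (den (Berry.frame (z, θ)) Complex.I)
      = Complex.exp (-(θ * Complex.I)) / ((Real.sqrt z.im : ℝ) : ℂ) := by
    rw [e, map_div₀, Complex.conj_ofReal, ← Complex.exp_conj, map_mul, Complex.conj_ofReal,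
      Complex.conj_I]
    congr 2
    ring
  simp only [dirG, phase]
  rw [hn, hc]
  have hy' : ((Real.sqrt z.im : ℝ) : ℂ) ≠ 0 := by exact_mod_cast hy.ne'
  congr 1
  rw [show Complex.exp (-(θ * Complex.I)) / ((Real.sqrt z.im : ℝ) : ℂ)
    / ((1 / Real.sqrt z.im : ℝ) : ℂ) = Complex.exp (-(θ * Complex.I)) by
      push_cast; field_simp]
  rw [← Complex.exp_nat_mul]
  congr 1
  push_cast
  ring

/-! ### Integrals over the circle -/

lemma conj_zpow {w : ℂ} (hw : ‖w‖ = 1) (k : ℤ) : (starRingEnd ℂ) (w ^ k) = w ^ (-k) := by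
  have h0 : w ≠ 0 := by intro h; rw [h] at hw; simp at hw
  rw [map_zpow₀, zpow_neg, ← inv_zpow]
  congr 1
  rw [Complex.inv_def, Complex.normSq_eq_norm_sq, hw]
  simp

lemma integral_dirG (z : ℍ) (k : ℤ) :
    ∫ θ in Ioc 0 (2 * Real.pi), dirG (Berry.frame (z, θ)) ^ k
      = if k = 0 then 2 * (Real.pi : ℂ) else 0 := by
  split_ifs with h
  · subst h
    simp only [zpow_zero]
    rw [integral_const]
    simp only [measureReal_restrict_apply_univ, Real.volume_real_Ioc, sub_zero]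
    rw [max_eq_left (by positivity)]
    simp
  · have e : ∀ θ : ℝ, dirG (Berry.frame (z, θ)) ^ k
        = Complex.I ^ k * Complex.exp ((-(2 * k * Complex.I)) * θ) := by
      intro θ
      rw [dirG_frame, mul_zpow, ← Complex.exp_int_mul]
      congr 2
      ring
    simp only [e]
    rw [integral_const_mul, ← intervalIntegral.integral_of_le (by positivity)]
    have hk : (-(2 * k * Complex.I) : ℂ) ≠ 0 := by
      simp only [ne_eq, neg_eq_zero, mul_eq_zero, OfNat.ofNat_ne_zero, Int.cast_eq_zero,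
        Complex.I_ne_zero, or_false, false_or]
      exact h
    rw [integral_exp_mul_complex hk]
    have e2 : Complex.exp (-(2 * k * Complex.I) * ((2 * Real.pi : ℝ) : ℂ)) = 1 := by
      rw [Complex.exp_eq_one_iff]
      exact ⟨-(2 * k), by push_cast; ring⟩
    rw [e2]
    simp

/-! ### From the plane to the upper half plane -/

lemma measurableSet_UH : MeasurableSet UH :=
  (isOpen_lt continuous_const Complex.continuous_im).measurableSet

lemma ae_H {P : ℂ → Prop} (h : ∀ᵐ z ∂((volume : Measure ℂ).restrict UH), P z) :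
    ∀ᵐ z : ℍ, P (z : ℂ) := by
  rw [ae_iff, volume_eq_lintegral]
  refine setLIntegral_measure_zero _ _ ?_
  rw [ae_iff, Measure.restrict_apply' measurableSet_UH] at h
  refine measure_mono_null ?_ h
  rintro _ ⟨z, hz, rfl⟩
  exact ⟨hz, z.im_pos⟩

lemma memLp_H {w : ℂ → ℂ} (hw : LocL2 UH w) {K : Set ℍ} (hK : IsCompact K) :
    MemLp (fun z : ℍ => w z) 2 ((volume : Measure ℍ).restrict K) := by
  have hKi : IsCompact (UpperHalfPlane.coe '' K) := hK.image continuous_coe
  have hKs : UpperHalfPlane.coe '' K ⊆ UH := by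
    rintro _ ⟨z, -, rfl⟩
    exact z.im_pos
  have h1 := hw _ hKi hKs
  have h2 : MemLp (fun z : ℍ => w z) 2 (((volume : Measure ℂ).comap UpperHalfPlane.coe).restrict
      K) := by
    have e : Measure.map UpperHalfPlane.coe (((volume : Measure ℂ).comap
        UpperHalfPlane.coe).restrict K) = volume.restrict (UpperHalfPlane.coe '' K) := by
      rw [measurableEmbedding_coe.restrict_comap, measurableEmbedding_coe.map_comap,
        Measure.restrict_restrict measurableEmbedding_coe.measurableSet_range]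
      congr 1
      rw [inter_eq_right]
      exact image_subset_range _ _
    rw [← e] at h1
    exact (measurableEmbedding_coe.memLp_map_measure_iff).1 h1
  set ρ : ℍ → ℝ≥0 := fun z => (1 / NNReal.mk z.im z.im_pos.le : ℝ≥0) ^ 2 with hρ
  have hρc : Continuous ρ := by
    refine .pow (.div₀ continuous_const ?_ ?_) _
    · exact continuous_im.subtype_mk _
    · exact fun x ↦ NNReal.ne_iff.mp x.im_ne_zero
  obtain ⟨C, hC⟩ := (hK.image hρc).bddAbove
  have h3 : (volume : Measure ℍ).restrict K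
      ≤ (C : ℝ≥0∞) • (((volume : Measure ℂ).comap UpperHalfPlane.coe).restrict K) := by
    rw [volume_def, restrict_withDensity hK.measurableSet, ← withDensity_const]
    refine withDensity_mono ?_
    rw [EventuallyLE, ae_restrict_iff' hK.measurableSet]
    refine Eventually.of_forall fun z hz => ?_
    exact_mod_cast hC (mem_image_of_mem _ hz)
  exact (h2.smul_measure ENNReal.coe_ne_top).mono_measure h3

lemma mob_coe (γ : SL(2, ℝ)) (z : ℍ) : mob γ (z : ℂ) = ((γ • z : ℍ) : ℂ) := by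
  rw [mob, ofComplex_apply]

/-! ### The approximating densities -/

/-- The (unnormalised) Fejer sum. -/
def FN (u : ℤ → ℂ → ℂ) (N : ℕ) (g : SL(2, ℝ)) : ℂ :=
  ∑ j ∈ Finset.range N, ∑ l ∈ Finset.range N,
    u ((j : ℤ) - l) ((g • UpperHalfPlane.I : ℍ) : ℂ) * dirG g ^ ((j : ℤ) - l)

lemma continuous_dirG_zpow (k : ℤ) : Continuous fun g => dirG g ^ k :=
  continuous_dirG.zpow₀ k fun g => Or.inl (dirG_ne g)

lemma norm_dirG_zpow (g : SL(2, ℝ)) (k : ℤ) : ‖dirG g ^ k‖ = 1 := by
  rw [norm_zpow, norm_dirG, one_zpow]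

lemma count (N : ℕ) (k : ℤ) (a : ℂ) : ∑ j ∈ Finset.range N, ∑ l ∈ Finset.range N,
    (if (j : ℤ) - l = k then a else 0) = ((N - k.natAbs : ℕ) : ℂ) * a := by
  rcases le_total 0 k with hk | hk
  · rw [Finset.sum_comm]
    have e : ∀ l ∈ Finset.range N, ∑ j ∈ Finset.range N, (if (j : ℤ) - l = k then a else 0)
        = if l < N - k.natAbs then a else 0 := by
      intro l hl
      rw [Finset.mem_range] at hl
      have e1 : ∀ j : ℕ, ((j : ℤ) - l = k) = (j = l + k.natAbs) := by
        intro j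
        apply propext
        omega
      simp only [e1]
      rw [Finset.sum_ite_eq']
      congr 1
      rw [Finset.mem_range]
      apply propext
      omega
    rw [Finset.sum_congr rfl e, ← Finset.sum_filter, Finset.sum_const, nsmul_eq_mul]
    congr 2
    have : (Finset.range N).filter (fun l => l < N - k.natAbs) = Finset.range (N - k.natAbs) := by
      ext l
      simp only [Finset.mem_filter, Finset.mem_range]
      omega
    rw [this, Finset.card_range]
  · have e : ∀ l ∈ Finset.range N, ∑ j ∈ Finset.range N, (if (l : ℤ) - j = k then a else 0)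
        = if l < N - k.natAbs then a else 0 := by
      intro l hl
      rw [Finset.mem_range] at hl
      have e1 : ∀ j : ℕ, ((l : ℤ) - j = k) = (j = l + k.natAbs) := by
        intro j
        apply propext
        omega
      simp only [e1]
      rw [Finset.sum_ite_eq']
      congr 1
      rw [Finset.mem_range]
      apply propext
      omega
    rw [Finset.sum_congr rfl e, ← Finset.sum_filter, Finset.sum_const, nsmul_eq_mul]
    congr 2
    have : (Finset.range N).filter (fun l => l < N - k.natAbs) = Finset.range (N - k.natAbs) := by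
      ext l
      simp only [Finset.mem_filter, Finset.mem_range]
      omega
    rw [this, Finset.card_range]

variable [MeasurableSpace SL(2, ℝ)] [BorelSpace SL(2, ℝ)]

lemma integral_nuF {G : SL(2, ℝ) → ℂ} (hG : Integrable G Berry.nuF) :
    ∫ g, G g ∂Berry.nuF = ∫ z : ℍ, ∫ θ in Ioc 0 (2 * Real.pi), G (Berry.frame (z, θ)) := by
  unfold Berry.nuF at hG ⊢
  rw [integral_map Berry.frame_measurable.aemeasurable hG.1]
  have h2 : Integrable (fun q => G (Berry.frame q)) Berry.pf :=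
    (integrable_map_measure hG.1 Berry.frame_measurable.aemeasurable).1 hG
  unfold Berry.pf at h2 ⊢
  rw [integral_prod _ h2]

section fam

variable {Γ : Subgroup SL(2, ℝ)} {u : ℤ → ℂ → ℂ}

lemma measurable_u (hu : LimFam0 Γ u) (k : ℤ) :
    Measurable fun g : SL(2, ℝ) => u k ((g • UpperHalfPlane.I : ℍ) : ℂ) :=
  (hu.meas k).comp (measurable_coe.comp Berry.proj_measurable)

lemma measurable_FN (hu : LimFam0 Γ u) (N : ℕ) : Measurable (FN u N) := by
  unfold FN
  refine Finset.measurable_fun_sum _ fun j _ => Finset.measurable_fun_sum _ fun l _ => ?_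
  exact (measurable_u hu _).mul (continuous_dirG_zpow _).measurable

omit [MeasurableSpace SL(2, ℝ)] [BorelSpace SL(2, ℝ)] in
lemma integrableOn_u (hu : LimFam0 Γ u) (k : ℤ) {K : Set ℍ} (hK : IsCompact K) :
    IntegrableOn (fun z : ℍ => u k z) K volume := by
  have : IsFiniteMeasure ((volume : Measure ℍ).restrict K) :=
    ⟨by rw [Measure.restrict_apply_univ]; exact hK.measure_lt_top⟩
  exact (memLp_H (hu.loc k) hK).integrable one_le_two

lemma integrable_u (hu : LimFam0 Γ u) (k : ℤ) {h : SL(2, ℝ) → ℂ} (hm : Measurable h) {C : ℝ}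
    (hC : ∀ g, ‖h g‖ ≤ C) {K : Set ℍ} (hK : IsCompact K)
    (hs : ∀ g : SL(2, ℝ), g • UpperHalfPlane.I ∉ K → h g = 0) :
    Integrable (fun g => h g * u k ((g • UpperHalfPlane.I : ℍ) : ℂ)) Berry.nuF := by
  have h2 : Integrable (K.indicator fun z : ℍ => u k z) volume :=
    (integrable_indicator_iff hK.measurableSet).2 (integrableOn_u hu k hK)
  have h3 : Integrable (fun g : SL(2, ℝ) => K.indicator (fun z : ℍ => u k z)
      (g • UpperHalfPlane.I)) Berry.nuF := by
    have h4 : Integrable (K.indicator fun z : ℍ => u k z)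
        (Measure.map (fun g : SL(2, ℝ) => g • UpperHalfPlane.I) Berry.nuF) := by
      rw [Berry.map_proj]
      exact h2.smul_measure ENNReal.ofReal_ne_top
    exact (integrable_map_measure h4.1 Berry.proj_measurable.aemeasurable).1 h4
  refine (h3.bdd_mul (c := C) hm.aestronglyMeasurable (Eventually.of_forall hC)).congr ?_
  refine Eventually.of_forall fun g => ?_
  by_cases hg : g • UpperHalfPlane.I ∈ K
  · simp only [indicator_of_mem hg]
  · simp only [indicator_of_notMem hg, hs g hg, zero_mul, mul_zero]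

lemma integrable_FN (hu : LimFam0 Γ u) (N : ℕ) {h : SL(2, ℝ) → ℂ} (hm : Measurable h) {C : ℝ}
    (hC : ∀ g, ‖h g‖ ≤ C) {K : Set ℍ} (hK : IsCompact K)
    (hs : ∀ g : SL(2, ℝ), g • UpperHalfPlane.I ∉ K → h g = 0) :
    Integrable (fun g => h g * FN u N g) Berry.nuF := by
  simp only [FN, Finset.mul_sum]
  refine integrable_finsetSum _ fun j _ => integrable_finsetSum _ fun l _ => ?_
  refine (integrable_u hu ((j : ℤ) - l) (h := fun g => h g * dirG g ^ ((j : ℤ) - l))
    (hm.mul (continuous_dirG_zpow _).measurable) (C := C) (fun g => ?_) hK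
    fun g hg => by rw [hs g hg, zero_mul]).congr (Eventually.of_forall fun g => ?_)
  · rw [norm_mul, norm_dirG_zpow, mul_one]
    exact hC g
  · beta_reduce; ring

lemma coeff_term (hu : LimFam0 Γ u) (k m : ℤ) {ζ : ℍ → ℂ} (hζ : Measurable ζ) {C : ℝ}
    (hC : ∀ z, ‖ζ z‖ ≤ C) {K : Set ℍ} (hK : IsCompact K) (hs : ∀ z ∉ K, ζ z = 0) :
    ∫ g, ζ (g • UpperHalfPlane.I) * (starRingEnd ℂ) (dirG g ^ k) *
      (u m ((g • UpperHalfPlane.I : ℍ) : ℂ) * dirG g ^ m) ∂Berry.nuF
      = if m = k then 2 * Real.pi * ∫ z : ℍ, ζ z * u k z else 0 := by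
  have hc : Continuous fun g => (starRingEnd ℂ) (dirG g ^ k) * dirG g ^ m :=
    (Complex.continuous_conj.comp (continuous_dirG_zpow k)).mul (continuous_dirG_zpow m)
  have hint := integrable_u hu m (h := fun g => ζ (g • UpperHalfPlane.I) *
    ((starRingEnd ℂ) (dirG g ^ k) * dirG g ^ m))
    ((hζ.comp Berry.proj_measurable).mul hc.measurable) (C := C) (fun g => ?_) hK
    fun g hg => by rw [hs _ hg, zero_mul]
  swap
  · rw [norm_mul, norm_mul, RCLike.norm_conj, norm_dirG_zpow, norm_dirG_zpow, mul_one, mul_one]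
    exact hC _
  have e : ∀ g : SL(2, ℝ), ζ (g • UpperHalfPlane.I) * (starRingEnd ℂ) (dirG g ^ k) *
      (u m ((g • UpperHalfPlane.I : ℍ) : ℂ) * dirG g ^ m)
      = ζ (g • UpperHalfPlane.I) * ((starRingEnd ℂ) (dirG g ^ k) * dirG g ^ m) *
        u m ((g • UpperHalfPlane.I : ℍ) : ℂ) := fun g => by ring
  simp only [e]
  rw [integral_nuF hint]
  have e2 : ∀ z : ℍ, ∫ θ in Ioc 0 (2 * Real.pi), ζ (Berry.frame (z, θ) • UpperHalfPlane.I) *
      ((starRingEnd ℂ) (dirG (Berry.frame (z, θ)) ^ k) * dirG (Berry.frame (z, θ)) ^ m) *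
        u m ((Berry.frame (z, θ) • UpperHalfPlane.I : ℍ) : ℂ)
      = (if m - k = 0 then 2 * (Real.pi : ℂ) else 0) * (ζ z * u m z) := by
    intro z
    rw [← integral_dirG z (m - k), ← integral_mul_const]
    refine integral_congr_ae (Eventually.of_forall fun θ => ?_)
    simp only
    rw [Berry.frame_smul_I, conj_zpow (norm_dirG _), sub_eq_add_neg,
      zpow_add₀ (dirG_ne _)]
    ring
  simp only [e2]
  rw [integral_const_mul]
  by_cases h : m = k
  · subst h
    simp
  · rw [if_neg (sub_ne_zero.2 h), if_neg h, zero_mul]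

/-- The approximating functionals. -/
def J (u : ℤ → ℂ → ℂ) (N : ℕ) (f : SL(2, ℝ) → ℂ) : ℂ :=
  (2 * Real.pi * N : ℂ)⁻¹ * ∫ g, f g * FN u N g ∂Berry.nuF

lemma J_coeff (hu : LimFam0 Γ u) (N : ℕ) (k : ℤ) {ζ : ℍ → ℂ} (hζ : Measurable ζ) {C : ℝ}
    (hC : ∀ z, ‖ζ z‖ ≤ C) {K : Set ℍ} (hK : IsCompact K) (hs : ∀ z ∉ K, ζ z = 0) :
    J u N (fun g => ζ (g • UpperHalfPlane.I) * (starRingEnd ℂ) (dirG g ^ k))
      = ((N - k.natAbs : ℕ) : ℂ) / N * ∫ z : ℍ, ζ z * u k z := by
  have hc : Continuous fun g => (starRingEnd ℂ) (dirG g ^ k) :=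
    Complex.continuous_conj.comp (continuous_dirG_zpow k)
  have hint : ∀ m : ℤ, Integrable (fun g : SL(2, ℝ) => ζ (g • UpperHalfPlane.I) *
      (starRingEnd ℂ) (dirG g ^ k) * (u m ((g • UpperHalfPlane.I : ℍ) : ℂ) * dirG g ^ m))
      Berry.nuF := by
    intro m
    have h1 := integrable_u hu m (h := fun g => ζ (g • UpperHalfPlane.I) *
      (starRingEnd ℂ) (dirG g ^ k) * dirG g ^ m)
      (((hζ.comp Berry.proj_measurable).mul hc.measurable).mul
        (continuous_dirG_zpow m).measurable) (C := C) (fun g => ?_) hK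
      fun g hg => by rw [hs _ hg, zero_mul, zero_mul]
    · refine h1.congr (Eventually.of_forall fun g => ?_)
      beta_reduce
      ring
    · rw [norm_mul, norm_mul, RCLike.norm_conj, norm_dirG_zpow, norm_dirG_zpow, mul_one, mul_one]
      exact hC _
  unfold J
  simp only [FN, Finset.mul_sum]
  rw [integral_finsetSum _ fun j _ => integrable_finsetSum _ fun l _ => hint _]
  have e : ∀ j ∈ Finset.range N, ∫ g, ∑ l ∈ Finset.range N, ζ (g • UpperHalfPlane.I) *
      (starRingEnd ℂ) (dirG g ^ k) * (u ((j : ℤ) - l) ((g • UpperHalfPlane.I : ℍ) : ℂ) *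
        dirG g ^ ((j : ℤ) - l)) ∂Berry.nuF
      = ∑ l ∈ Finset.range N, if (j : ℤ) - l = k then 2 * Real.pi * ∫ z : ℍ, ζ z * u k z
        else 0 := by
    intro j _
    rw [integral_finsetSum _ fun l _ => hint _]
    exact Finset.sum_congr rfl fun l _ => coeff_term hu k _ hζ hC hK hs
  rw [Finset.sum_congr rfl e, count]
  rcases eq_or_ne N 0 with hN | hN
  · subst hN
    simp
  · have h1 : (N : ℂ) ≠ 0 := by exact_mod_cast hN
    have h2 : (Real.pi : ℂ) ≠ 0 := by exact_mod_cast Real.pi_ne_zero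
    field_simp

lemma ae_frame {P : SL(2, ℝ) → Prop} (hP : MeasurableSet {g | P g})
    (h : ∀ θ : ℝ, ∀ᵐ z : ℍ, P (Berry.frame (z, θ))) : ∀ᵐ g ∂Berry.nuF, P g := by
  unfold Berry.nuF
  rw [ae_map_iff Berry.frame_measurable.aemeasurable hP, ae_iff]
  have hm : MeasurableSet {q : ℍ × ℝ | ¬ P (Berry.frame q)} :=
    (Berry.frame_measurable hP).compl
  unfold Berry.pf
  rw [Measure.prod_apply_symm hm, lintegral_eq_zero_iff (measurable_measure_prodMk_right hm)]
  exact Eventually.of_forall fun θ => ae_iff.1 (h θ)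

lemma ae_proj {P : ℍ → Prop} (h : ∀ᵐ z : ℍ, P z) :
    ∀ᵐ g : SL(2, ℝ) ∂Berry.nuF, P (g • UpperHalfPlane.I) :=
  Berry.proj_qmp.ae h

/-- The Fejer sums are nonnegative. -/
lemma FN_nonneg (hu : LimFam0 Γ u) (N : ℕ) : ∀ᵐ g ∂Berry.nuF, 0 ≤ (FN u N g).re := by
  refine ae_frame (measurableSet_le measurable_const
    (Complex.measurable_re.comp (measurable_FN hu N))) fun θ => ?_
  have hw : ‖Complex.I * Complex.exp (-(2 * θ * Complex.I))‖ = 1 := by
    rw [← dirG_frame UpperHalfPlane.I θ]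
    exact norm_dirG _
  filter_upwards [ae_H (hu.pos N _ hw)] with z hz
  unfold FN
  simp only [Berry.frame_smul_I, dirG_frame]
  exact hz

/-- The Fejer sums are real. -/
lemma FN_im (hu : LimFam0 Γ u) (N : ℕ) : ∀ᵐ g ∂Berry.nuF, (FN u N g).im = 0 := by
  have h : ∀ᵐ z : ℍ, ∀ k, u (-k) z = (starRingEnd ℂ) (u k z) :=
    ae_all_iff.2 fun k => ae_H (hu.conj k)
  filter_upwards [ae_proj h] with g hg
  rw [← Complex.conj_eq_iff_im]
  unfold FN
  rw [map_sum, Finset.sum_congr rfl fun j _ => map_sum _ _ _, Finset.sum_comm]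
  refine Finset.sum_congr rfl fun j _ => Finset.sum_congr rfl fun l _ => ?_
  rw [map_mul, conj_zpow (norm_dirG g), ← hg, neg_sub]

/-- The Fejer sums are invariant. -/
lemma FN_inv (hu : LimFam0 Γ u) (N : ℕ) {γ : SL(2, ℝ)} (hγ : γ ∈ Γ) :
    ∀ᵐ g ∂Berry.nuF, FN u N (γ * g) = FN u N g := by
  have h : ∀ᵐ z : ℍ, ∀ k, u k z = phase γ z ^ k * u k (mob γ z) :=
    ae_all_iff.2 fun k => ae_H (hu.equiv γ hγ k)
  filter_upwards [ae_proj h] with g hg
  unfold FN
  refine Finset.sum_congr rfl fun j _ => Finset.sum_congr rfl fun l _ => ?_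
  rw [hg, dirG_mul, mob_coe, mul_smul, mul_zpow]
  ring

omit [MeasurableSpace SL(2, ℝ)] [BorelSpace SL(2, ℝ)] in
lemma FN_neg (N : ℕ) (g : SL(2, ℝ)) : FN u N (-g) = FN u N g := by
  have h : (-g) • UpperHalfPlane.I = g • UpperHalfPlane.I := by
    apply UpperHalfPlane.ext
    have h1 := smul_den (-g) UpperHalfPlane.I
    have h2 := smul_den g UpperHalfPlane.I
    have e : den (-g) (UpperHalfPlane.I : ℍ) = - den g (UpperHalfPlane.I : ℍ) := by
      simp only [den]
      have e0 : (-g) 1 0 = - g 1 0 := by simp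
      have e1 : (-g) 1 1 = - g 1 1 := by simp
      rw [e0, e1]
      push_cast
      ring
    have e0 : (-g) 0 0 = - g 0 0 := by simp
    have e1 : (-g) 0 1 = - g 0 1 := by simp
    rw [e, e0, e1] at h1
    simp only [Complex.ofReal_neg] at h1
    have h3 : (((-g) • UpperHalfPlane.I : ℍ) : ℂ) * den g (UpperHalfPlane.I : ℍ)
        = ((g • UpperHalfPlane.I : ℍ) : ℂ) * den g (UpperHalfPlane.I : ℍ) := by
      linear_combination (-1 : ℂ) * h1 - h2
    exact mul_right_cancel₀ (den_ne g _) h3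
  unfold FN
  simp only [h, dirG_neg]

/-! ### Properties of the approximating functionals -/

lemma J_inv (hu : LimFam0 Γ u) (N : ℕ) {γ : SL(2, ℝ)} (hγ : γ ∈ Γ) (f : SL(2, ℝ) → ℂ) :
    J u N (fun g => f (γ * g)) = J u N f := by
  unfold J
  congr 1
  rw [← integral_mul_left_eq_self (fun g => f g * FN u N g) γ]
  refine integral_congr_ae ?_
  filter_upwards [FN_inv hu N hγ] with g hg
  rw [hg]

lemma J_neg (N : ℕ) (f : SL(2, ℝ) → ℂ) : J u N (fun g => f (-g)) = J u N f := by
  unfold J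
  congr 1
  rw [← integral_mul_left_eq_self (fun g => f g * FN u N g) (-1)]
  refine integral_congr_ae (Eventually.of_forall fun g => ?_)
  simp only [neg_mul, one_mul, FN_neg]

lemma J_real (hu : LimFam0 Γ u) (N : ℕ) (f : SL(2, ℝ) → ℝ) : J u N (fun g => (f g : ℂ))
    = (((2 * Real.pi * N)⁻¹ * ∫ g, f g * (FN u N g).re ∂Berry.nuF : ℝ) : ℂ) := by
  have e : ∫ g, (f g : ℂ) * FN u N g ∂Berry.nuF
      = ((∫ g, f g * (FN u N g).re ∂Berry.nuF : ℝ) : ℂ) := by
    rw [← integral_complex_ofReal]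
    refine integral_congr_ae ?_
    filter_upwards [FN_im hu N] with g hg
    apply Complex.ext
    · simp
    · simp [hg]
  unfold J
  rw [e]
  push_cast
  rfl

lemma J_re (hu : LimFam0 Γ u) (N : ℕ) {f : SL(2, ℝ) → ℝ} (h0 : ∀ g, 0 ≤ f g) :
    0 ≤ (J u N (fun g => (f g : ℂ))).re := by
  rw [J_real hu, Complex.ofReal_re]
  refine mul_nonneg (by positivity) (integral_nonneg_of_ae ?_)
  filter_upwards [FN_nonneg hu N] with g hg
  exact mul_nonneg (h0 g) hg

lemma J_im (hu : LimFam0 Γ u) (N : ℕ) (f : SL(2, ℝ) → ℝ) :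
    (J u N (fun g => (f g : ℂ))).im = 0 := by
  rw [J_real hu, Complex.ofReal_im]

lemma J_norm (hu : LimFam0 Γ u) (N : ℕ) {f : SL(2, ℝ) → ℂ} {C : ℝ}
    (hC : ∀ g, ‖f g‖ ≤ C) {K : Set ℍ} (hK : IsCompact K)
    (hs : ∀ g : SL(2, ℝ), g • UpperHalfPlane.I ∉ K → f g = 0) :
    ‖J u N f‖ ≤ C * ‖∫ z in K, u 0 z‖ := by
  have hC0 : 0 ≤ C := (norm_nonneg _).trans (hC 1)
  have h1 := J_coeff hu N 0 (ζ := K.indicator 1) (measurable_one.indicator hK.measurableSet)
    (C := 1) (fun z => by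
      by_cases hz : z ∈ K
      · simp [indicator_of_mem hz]
      · simp [indicator_of_notMem hz]) hK (fun z hz => indicator_of_notMem hz _)
  have e1 : ∫ z : ℍ, K.indicator (1 : ℍ → ℂ) z * u 0 z = ∫ z in K, u 0 z := by
    rw [← integral_indicator hK.measurableSet]
    refine integral_congr_ae (Eventually.of_forall fun z => ?_)
    by_cases hz : z ∈ K
    · simp [indicator_of_mem hz]
    · simp [indicator_of_notMem hz]
  have e2 : ∀ g : SL(2, ℝ), K.indicator (1 : ℍ → ℂ) (g • UpperHalfPlane.I) *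
      (starRingEnd ℂ) (dirG g ^ (0 : ℤ)) = K.indicator (1 : ℍ → ℂ) (g • UpperHalfPlane.I) := by
    intro g; simp
  rw [e1] at h1
  simp only [e2] at h1
  have h2 : ‖J u N f‖ ≤ C * ‖J u N fun g => K.indicator (1 : ℍ → ℂ) (g • UpperHalfPlane.I)‖ := by
    unfold J
    rw [norm_mul, norm_mul, mul_left_comm]
    refine mul_le_mul_of_nonneg_left ?_ (norm_nonneg _)
    have h3 : ∫ g : SL(2, ℝ), K.indicator (1 : ℍ → ℂ) (g • UpperHalfPlane.I) * FN u N g
        ∂Berry.nuF = ((∫ g : SL(2, ℝ), ‖K.indicator (1 : ℍ → ℂ) (g • UpperHalfPlane.I) *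
          FN u N g‖ ∂Berry.nuF : ℝ) : ℂ) := by
      rw [← integral_complex_ofReal]
      refine integral_congr_ae ?_
      filter_upwards [FN_im hu N, FN_nonneg hu N] with g hg hg'
      have e3 : FN u N g = (((FN u N g).re : ℝ) : ℂ) := Complex.ext (by simp) (by simp [hg])
      by_cases hz : g • UpperHalfPlane.I ∈ K
      · rw [indicator_of_mem hz, Pi.one_apply, one_mul, e3, Complex.norm_real,
          Real.norm_eq_abs, abs_of_nonneg (by simpa using hg')]
      · rw [indicator_of_notMem hz, zero_mul]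
        simp
    rw [h3, Complex.norm_real, Real.norm_eq_abs,
      abs_of_nonneg (integral_nonneg fun g => norm_nonneg _), ← integral_const_mul]
    refine (norm_integral_le_integral_norm _).trans ?_
    have h4 := integrable_FN hu N (h := fun g : SL(2, ℝ) =>
      K.indicator (1 : ℍ → ℂ) (g • UpperHalfPlane.I))
      ((measurable_one.indicator hK.measurableSet).comp Berry.proj_measurable) (C := 1)
      (fun g => by
        by_cases hz : g • UpperHalfPlane.I ∈ K
        · simp [indicator_of_mem hz]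
        · simp [indicator_of_notMem hz]) hK (fun g hg => indicator_of_notMem hg _)
    refine integral_mono_of_nonneg (Eventually.of_forall fun g => norm_nonneg _)
      (h4.norm.const_mul C) (Eventually.of_forall fun g => ?_)
    beta_reduce
    by_cases hz : g • UpperHalfPlane.I ∈ K
    · rw [indicator_of_mem hz, Pi.one_apply, one_mul, norm_mul]
      exact mul_le_mul_of_nonneg_right (hC g) (norm_nonneg _)
    · rw [hs g hz]
      simp only [zero_mul, norm_zero]
      positivity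
  refine h2.trans (mul_le_mul_of_nonneg_left ?_ hC0)
  rw [h1, norm_mul]
  refine mul_le_of_le_one_left (norm_nonneg _) ?_
  simp only [Int.natAbs_zero, tsub_zero]
  rw [norm_div]
  exact div_self_le_one _

omit [MeasurableSpace SL(2, ℝ)] [BorelSpace SL(2, ℝ)] in
lemma exists_K {f : SL(2, ℝ) → ℂ} (hc : Continuous f) (hs : HasCompactSupport f) :
    ∃ (C : ℝ) (K : Set ℍ), IsCompact K ∧ (∀ g, ‖f g‖ ≤ C) ∧
      ∀ g : SL(2, ℝ), g • UpperHalfPlane.I ∉ K → f g = 0 := by
  obtain ⟨C, hC⟩ := hc.bounded_above_of_compact_support hs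
  refine ⟨C, (fun g : SL(2, ℝ) => g • UpperHalfPlane.I) '' tsupport f,
    hs.isCompact.image (continuous_id.smul continuous_const), hC, fun g hg => ?_⟩
  by_contra h
  exact hg ⟨g, subset_tsupport _ h, rfl⟩

lemma J_add (hu : LimFam0 Γ u) (N : ℕ) {f f' : SL(2, ℝ) → ℂ} (hc : Continuous f)
    (hs : HasCompactSupport f) (hc' : Continuous f') (hs' : HasCompactSupport f') :
    J u N (fun g => f g + f' g) = J u N f + J u N f' := by
  obtain ⟨C, K, hK, h1, h2⟩ := exists_K hc hs
  obtain ⟨C', K', hK', h1', h2'⟩ := exists_K hc' hs'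
  unfold J
  rw [← mul_add, ← integral_add (integrable_FN hu N hc.measurable h1 hK h2)
    (integrable_FN hu N hc'.measurable h1' hK' h2')]
  simp only [add_mul]

omit [BorelSpace SL(2, ℝ)] in
lemma J_smul (N : ℕ) (c : ℂ) (f : SL(2, ℝ) → ℂ) :
    J u N (fun g => c * f g) = c * J u N f := by
  unfold J
  simp only [mul_assoc]
  rw [integral_const_mul]
  ring

/-! ### The limit -/

lemma exists_lim (hu : LimFam0 Γ u) {f : SL(2, ℝ) → ℂ} (hc : Continuous f)
    (hs : HasCompactSupport f) :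
    ∃ L : ℂ, Tendsto (fun N => J u N f) (hyperfilter ℕ : Filter ℕ) (𝓝 L) := by
  obtain ⟨C, K, hK, h1, h2⟩ := exists_K hc hs
  obtain ⟨L, -, hL⟩ := (isCompact_closedBall (0 : ℂ) (C * ‖∫ z in K, u 0 z‖)).ultrafilter_le_nhds
    ((hyperfilter ℕ).map fun N => J u N f) (by
      rw [Ultrafilter.coe_map]
      exact tendsto_principal.2 (Eventually.of_forall fun N =>
        mem_closedBall_zero_iff.2 (J_norm hu N h1 hK h2)))
  exact ⟨L, hL⟩

/-- The limit along an ultrafilter. -/
def Lim (u : ℤ → ℂ → ℂ) (f : SL(2, ℝ) → ℂ) : ℂ :=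
  limUnder (hyperfilter ℕ : Filter ℕ) (fun N => J u N f)

lemma tendsto_Lim (hu : LimFam0 Γ u) {f : SL(2, ℝ) → ℂ} (hc : Continuous f)
    (hs : HasCompactSupport f) :
    Tendsto (fun N => J u N f) (hyperfilter ℕ : Filter ℕ) (𝓝 (Lim u f)) :=
  tendsto_nhds_limUnder (exists_lim hu hc hs)

lemma Lim_eq (hu : LimFam0 Γ u) {f : SL(2, ℝ) → ℂ} (hc : Continuous f)
    (hs : HasCompactSupport f) {L : ℂ}
    (h : Tendsto (fun N => J u N f) (hyperfilter ℕ : Filter ℕ) (𝓝 L)) : Lim u f = L :=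
  tendsto_nhds_unique (tendsto_Lim hu hc hs) h

lemma Lim_add (hu : LimFam0 Γ u) {f f' : SL(2, ℝ) → ℂ} (hc : Continuous f)
    (hs : HasCompactSupport f) (hc' : Continuous f') (hs' : HasCompactSupport f') :
    Lim u (fun g => f g + f' g) = Lim u f + Lim u f' := by
  refine Lim_eq hu (hc.add hc') (hs.add hs') ?_
  exact ((tendsto_Lim hu hc hs).add (tendsto_Lim hu hc' hs')).congr fun N =>
    (J_add hu N hc hs hc' hs').symm

lemma Lim_smul (hu : LimFam0 Γ u) (c : ℂ) {f : SL(2, ℝ) → ℂ} (hc : Continuous f)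
    (hs : HasCompactSupport f) : Lim u (fun g => c * f g) = c * Lim u f := by
  refine Lim_eq hu (continuous_const.mul hc) hs.mul_left ?_
  exact ((tendsto_Lim hu hc hs).const_mul c).congr fun N => (J_smul N c f).symm

lemma Lim_re (hu : LimFam0 Γ u) {f : SL(2, ℝ) → ℝ} (hc : Continuous fun g => (f g : ℂ))
    (hs : HasCompactSupport fun g => (f g : ℂ)) (h0 : ∀ g, 0 ≤ f g) :
    0 ≤ (Lim u (fun g => (f g : ℂ))).re :=
  ge_of_tendsto' ((Complex.continuous_re.tendsto _).comp (tendsto_Lim hu hc hs))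
    fun N => J_re hu N h0

lemma Lim_im (hu : LimFam0 Γ u) {f : SL(2, ℝ) → ℝ} (hc : Continuous fun g => (f g : ℂ))
    (hs : HasCompactSupport fun g => (f g : ℂ)) : (Lim u (fun g => (f g : ℂ))).im = 0 := by
  refine tendsto_nhds_unique ((Complex.continuous_im.tendsto _).comp (tendsto_Lim hu hc hs)) ?_
  refine tendsto_const_nhds.congr fun N => ?_
  exact (J_im hu N f).symm

omit [MeasurableSpace SL(2, ℝ)] [BorelSpace SL(2, ℝ)] in
lemma cc_ofReal (f : CompactlySupportedContinuousMap SL(2, ℝ) ℝ) :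
    Continuous (fun g => (f g : ℂ)) ∧ HasCompactSupport (fun g => (f g : ℂ)) :=
  ⟨Complex.continuous_ofReal.comp f.continuous,
    f.hasCompactSupport.comp_left (g := fun x : ℝ => (x : ℂ)) Complex.ofReal_zero⟩

open CompactlySupported in
/-- The limit functional. -/
def Lam (hu : LimFam0 Γ u) : C_c(SL(2, ℝ), ℝ) →ₚ[ℝ] ℝ where
  toFun f := (Lim u (fun g => (f g : ℂ))).re
  map_add' f f' := by
    have := Lim_add hu (cc_ofReal f).1 (cc_ofReal f).2 (cc_ofReal f').1 (cc_ofReal f').2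
    rw [← Complex.add_re, ← this]
    congr 3
    ext g
    simp
  map_smul' c f := by
    have := Lim_smul hu (c : ℂ) (cc_ofReal f).1 (cc_ofReal f).2
    rw [RingHom.id_apply, smul_eq_mul, ← Complex.re_ofReal_mul, ← this]
    congr 3
    ext g
    simp
  monotone' f f' h := by
    have h1 := Lim_re hu (cc_ofReal (f' - f)).1 (cc_ofReal (f' - f)).2 fun g => by
      simpa using h g
    have h2 := Lim_add hu (cc_ofReal (f' - f)).1 (cc_ofReal (f' - f)).2 (cc_ofReal f).1
      (cc_ofReal f).2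
    have h3 : (fun g => (((f' - f) g : ℝ) : ℂ) + ((f g : ℝ) : ℂ)) = fun g => ((f' g : ℝ) : ℂ) := by
      ext g
      simp
    rw [h3] at h2
    show (Lim u (fun g => (f g : ℂ))).re ≤ (Lim u (fun g => (f' g : ℂ))).re
    rw [h2, Complex.add_re]
    linarith

/-- The measure. -/
def mu (hu : LimFam0 Γ u) : Measure SL(2, ℝ) := RealRMK.rieszMeasure (Lam hu)

instance regular_mu (hu : LimFam0 Γ u) : (mu hu).Regular := RealRMK.regular_rieszMeasure _

open CompactlySupported in
lemma integral_mu_real (hu : LimFam0 Γ u) (f : C_c(SL(2, ℝ), ℝ)) :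
    ((∫ g, f g ∂(mu hu) : ℝ) : ℂ) = Lim u (fun g => (f g : ℂ)) := by
  have h := RealRMK.integral_rieszMeasure (Lam hu) f
  unfold mu
  rw [h]
  refine Complex.ext ?_ ?_
  · rfl
  · rw [Complex.ofReal_im, Lim_im hu (cc_ofReal f).1 (cc_ofReal f).2]

lemma integral_mu (hu : LimFam0 Γ u) {f : SL(2, ℝ) → ℂ} (hc : Continuous f)
    (hs : HasCompactSupport f) : ∫ g, f g ∂(mu hu) = Lim u f := by
  set f1 : CompactlySupportedContinuousMap SL(2, ℝ) ℝ :=
    ⟨⟨fun g => (f g).re, Complex.continuous_re.comp hc⟩,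
      hs.comp_left (g := Complex.re) Complex.zero_re⟩ with hf1
  set f2 : CompactlySupportedContinuousMap SL(2, ℝ) ℝ :=
    ⟨⟨fun g => (f g).im, Complex.continuous_im.comp hc⟩,
      hs.comp_left (g := Complex.im) Complex.zero_im⟩ with hf2
  have e : ∀ g, f g = (f1 g : ℂ) + Complex.I * (f2 g : ℂ) := by
    intro g
    show f g = ((f g).re : ℂ) + Complex.I * ((f g).im : ℂ)
    rw [mul_comm]
    exact (Complex.re_add_im _).symm
  have e' : f = fun g => (f1 g : ℂ) + Complex.I * (f2 g : ℂ) := funext e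
  have hc2 : Continuous fun g => Complex.I * (f2 g : ℂ) :=
    continuous_const.mul (cc_ofReal f2).1
  have hs2 : HasCompactSupport fun g => Complex.I * (f2 g : ℂ) := (cc_ofReal f2).2.mul_left
  rw [e', Lim_add hu (cc_ofReal f1).1 (cc_ofReal f1).2 hc2 hs2,
    Lim_smul hu Complex.I (cc_ofReal f2).1 (cc_ofReal f2).2, ← integral_mu_real,
    ← integral_mu_real, integral_add ((cc_ofReal f1).1.integrable_of_hasCompactSupport
      (cc_ofReal f1).2) (hc2.integrable_of_hasCompactSupport hs2), integral_const_mul,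
    integral_complex_ofReal, integral_complex_ofReal]

/-! ### Invariance -/

open CompactlySupported in
lemma map_mul_left (hu : LimFam0 Γ u) {γ : SL(2, ℝ)}
    (h : ∀ N (f : SL(2, ℝ) → ℂ), J u N (fun g => f (γ * g)) = J u N f) :
    Measure.map (fun g => γ * g) (mu hu) = mu hu := by
  have hreg : (Measure.map (fun g => γ * g) (mu hu)).Regular :=
    Measure.Regular.map (Homeomorph.mulLeft γ)
  refine Measure.ext_of_integral_eq_on_compactlySupported fun f => ?_
  have hm : Measurable fun g : SL(2, ℝ) => γ * g := (continuous_const_mul γ).measurable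
  have hfc : Continuous fun g => f g := f.continuous
  rw [integral_map hm.aemeasurable hfc.aestronglyMeasurable]
  have hc : Continuous fun g => (f (γ * g) : ℂ) :=
    (cc_ofReal f).1.comp (continuous_const_mul γ)
  have hs : HasCompactSupport fun g => (f (γ * g) : ℂ) :=
    (cc_ofReal f).2.comp_homeomorph (Homeomorph.mulLeft γ)
  have e : ((∫ g, f (γ * g) ∂(mu hu) : ℝ) : ℂ) = ((∫ g, f g ∂(mu hu) : ℝ) : ℂ) := by
    rw [← integral_complex_ofReal, ← integral_complex_ofReal, integral_mu hu hc hs,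
      integral_mu hu (cc_ofReal f).1 (cc_ofReal f).2]
    refine Lim_eq hu hc hs ?_
    refine (tendsto_Lim hu (cc_ofReal f).1 (cc_ofReal f).2).congr fun N => ?_
    exact (h N fun g => (f g : ℂ)).symm
  exact_mod_cast e

lemma mu_left (hu : LimFam0 Γ u) {γ : SL(2, ℝ)} (hγ : γ ∈ Γ) :
    Measure.map (fun g => γ * g) (mu hu) = mu hu :=
  map_mul_left hu fun N f => J_inv hu N hγ f

lemma mu_neg (hu : LimFam0 Γ u) : Measure.map (fun g => -g) (mu hu) = mu hu := by
  have h := map_mul_left hu (γ := -1) fun N f => by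
    simp only [neg_mul, one_mul]
    exact J_neg N f
  simpa only [neg_mul, one_mul] using h

/-! ### The coefficients -/

omit [MeasurableSpace SL(2, ℝ)] [BorelSpace SL(2, ℝ)] in
lemma tendsto_count (k : ℤ) (a : ℂ) :
    Tendsto (fun N : ℕ => ((N - k.natAbs : ℕ) : ℂ) / N * a) atTop (𝓝 a) := by
  have h1 : Tendsto (fun N : ℕ => ((1 : ℂ) - (k.natAbs : ℂ) / N) * a) atTop (𝓝 a) := by
    have := ((tendsto_const_nhds (x := (1 : ℂ))).sub
      (tendsto_const_div_atTop_nhds_zero_nat (k.natAbs : ℂ))).mul_const a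
    simpa using this
  refine h1.congr' ?_
  filter_upwards [eventually_ge_atTop (k.natAbs + 1)] with N hN
  have h2 : (N : ℂ) ≠ 0 := by
    have : N ≠ 0 := by omega
    exact_mod_cast this
  rw [Nat.cast_sub (by omega)]
  field_simp

omit [MeasurableSpace SL(2, ℝ)] [BorelSpace SL(2, ℝ)] in
lemma cs_proj {ζ : ℍ → ℂ} (hc : Continuous ζ) (hs : HasCompactSupport ζ) (k : ℤ) :
    Continuous (fun g : SL(2, ℝ) => ζ (g • UpperHalfPlane.I) *
      (starRingEnd ℂ) (dirG g ^ k)) ∧
    HasCompactSupport (fun g : SL(2, ℝ) => ζ (g • UpperHalfPlane.I) *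
      (starRingEnd ℂ) (dirG g ^ k)) := by
  refine ⟨(hc.comp (continuous_id.smul continuous_const)).mul
    (Complex.continuous_conj.comp (continuous_dirG_zpow k)), ?_⟩
  refine HasCompactSupport.intro (isProperMap_smul_I.isCompact_preimage hs.isCompact)
    fun g hg => ?_
  rw [image_eq_zero_of_notMem_tsupport hg, zero_mul]

/-- The Fourier coefficients of the measure. -/
lemma mu_coeff (hu : LimFam0 Γ u) (k : ℤ) {ζ : ℍ → ℂ} (hc : Continuous ζ)
    (hs : HasCompactSupport ζ) :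
    ∫ g, ζ (g • UpperHalfPlane.I) * (starRingEnd ℂ) (dirG g ^ k) ∂(mu hu)
      = ∫ z : ℍ, ζ z * u k z := by
  obtain ⟨h1, h2⟩ := cs_proj hc hs k
  obtain ⟨C, hC⟩ := hc.bounded_above_of_compact_support hs
  rw [integral_mu hu h1 h2]
  refine Lim_eq hu h1 h2 ?_
  have h3 := (tendsto_count k (∫ z : ℍ, ζ z * u k z)).mono_left Nat.hyperfilter_le_atTop
  refine h3.congr fun N => ?_
  exact (J_coeff hu N k hc.measurable hC hs.isCompact
    fun z hz => image_eq_zero_of_notMem_tsupport hz).symm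

/-! ### The density -/

/-- The good points. -/
def good (Γ : Subgroup SL(2, ℝ)) (u : ℤ → ℂ → ℂ) : Set ℍ :=
  {z | (∀ γ : Γ, (u 0 (((γ : SL(2, ℝ)) • z : ℍ) : ℂ)).re = (u 0 z).re) ∧ 0 ≤ (u 0 z).re}

/-- The density. -/
def dens (Γ : Subgroup SL(2, ℝ)) (u : ℤ → ℂ → ℂ) : ℍ → ℝ :=
  (good Γ u).indicator fun z => (u 0 z).re

omit [MeasurableSpace SL(2, ℝ)] [BorelSpace SL(2, ℝ)] in
lemma good_ae [Countable Γ] (hu : LimFam0 Γ u) : ∀ᵐ z : ℍ, z ∈ good Γ u := by
  have h1 : ∀ᵐ z : ℍ, ∀ γ : Γ, u 0 z = phase γ z ^ (0 : ℤ) * u 0 (mob γ z) :=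
    ae_all_iff.2 fun γ => ae_H (hu.equiv γ γ.2 0)
  filter_upwards [h1, ae_H hu.real] with z h h'
  refine ⟨fun γ => ?_, h'.1⟩
  rw [h γ, zpow_zero, one_mul, mob_coe]

omit [MeasurableSpace SL(2, ℝ)] [BorelSpace SL(2, ℝ)] in
lemma good_meas [Countable Γ] (hu : LimFam0 Γ u) : MeasurableSet (good Γ u) := by
  have hm : Measurable fun z : ℍ => (u 0 z).re :=
    Complex.measurable_re.comp ((hu.meas 0).comp measurable_coe)
  have e : good Γ u = (⋂ γ : Γ, {z : ℍ | (u 0 (((γ : SL(2, ℝ)) • z : ℍ) : ℂ)).re = (u 0 z).re})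
      ∩ {z : ℍ | 0 ≤ (u 0 z).re} := by
    ext z
    simp only [good, mem_ofPred_eq, mem_inter_iff, mem_iInter]
  rw [e]
  refine (MeasurableSet.iInter fun γ => measurableSet_eq_fun ?_ hm).inter
    (measurableSet_le measurable_const hm)
  exact hm.comp (continuous_const_smul (γ : SL(2, ℝ))).measurable

omit [MeasurableSpace SL(2, ℝ)] [BorelSpace SL(2, ℝ)] in
lemma good_smul {γ : SL(2, ℝ)} (hγ : γ ∈ Γ) {z : ℍ} (hz : z ∈ good Γ u) : γ • z ∈ good Γ u := by
  refine ⟨fun δ => ?_, ?_⟩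
  · rw [← mul_smul]
    have h1 := hz.1 ⟨δ * γ, Γ.mul_mem δ.2 hγ⟩
    have h2 := hz.1 ⟨γ, hγ⟩
    exact h1.trans h2.symm
  · have h2 := hz.1 ⟨γ, hγ⟩
    simp only at h2
    rw [h2]
    exact hz.2

omit [MeasurableSpace SL(2, ℝ)] [BorelSpace SL(2, ℝ)] in
lemma dens_inv {γ : SL(2, ℝ)} (hγ : γ ∈ Γ) (z : ℍ) : dens Γ u (γ • z) = dens Γ u z := by
  unfold dens
  by_cases hz : z ∈ good Γ u
  · rw [indicator_of_mem hz, indicator_of_mem (good_smul hγ hz)]
    exact hz.1 ⟨γ, hγ⟩
  · rw [indicator_of_notMem hz, indicator_of_notMem fun h => hz ?_]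
    have := good_smul (Γ.inv_mem hγ) h
    rwa [inv_smul_smul] at this

omit [MeasurableSpace SL(2, ℝ)] [BorelSpace SL(2, ℝ)] in
lemma dens_nonneg (z : ℍ) : 0 ≤ dens Γ u z := by
  unfold dens
  exact indicator_nonneg (fun z hz => hz.2) z

omit [MeasurableSpace SL(2, ℝ)] [BorelSpace SL(2, ℝ)] in
lemma dens_meas [Countable Γ] (hu : LimFam0 Γ u) : Measurable (dens Γ u) :=
  (Complex.measurable_re.comp ((hu.meas 0).comp measurable_coe)).indicator (good_meas hu)

omit [MeasurableSpace SL(2, ℝ)] [BorelSpace SL(2, ℝ)] in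
lemma dens_ae [Countable Γ] (hu : LimFam0 Γ u) : ∀ᵐ z : ℍ, dens Γ u z = (u 0 z).re := by
  filter_upwards [good_ae hu] with z hz
  exact indicator_of_mem hz _

omit [MeasurableSpace SL(2, ℝ)] [BorelSpace SL(2, ℝ)] in
lemma dens_u [Countable Γ] (hu : LimFam0 Γ u) : ∀ᵐ z : ℍ, u 0 z = (dens Γ u z : ℂ) := by
  filter_upwards [dens_ae hu, ae_H hu.real] with z hz h
  rw [hz]
  exact Complex.ext (by simp) (by simp [h.2])

omit [MeasurableSpace SL(2, ℝ)] [BorelSpace SL(2, ℝ)] in
lemma dens_memLp [Countable Γ] (hu : LimFam0 Γ u) {K : Set ℍ} (hK : IsCompact K) :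
    MemLp (dens Γ u) 2 (volume.restrict K) := by
  refine (memLp_H (hu.loc 0) hK).re.ae_eq ?_
  filter_upwards [ae_restrict_of_ae (dens_ae hu)] with z hz
  exact hz.symm

omit [MeasurableSpace SL(2, ℝ)] [BorelSpace SL(2, ℝ)] in
lemma dens_int [Countable Γ] (hu : LimFam0 Γ u) {K : Set ℍ} (hK : IsCompact K) :
    IntegrableOn (dens Γ u) K volume := by
  have : IsFiniteMeasure ((volume : Measure ℍ).restrict K) :=
    ⟨by rw [Measure.restrict_apply_univ]; exact hK.measure_lt_top⟩
  exact (dens_memLp hu hK).integrable one_le_two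

omit [MeasurableSpace SL(2, ℝ)] [BorelSpace SL(2, ℝ)] in
lemma dens_psq [Countable Γ] (hu : LimFam0 Γ u) {D : Set ℍ}
    (hD : IsFundamentalDomain Γ D (volume : Measure ℍ))
    (hK : ∃ K : Set ℍ, IsCompact K ∧ ∀ z : ℍ, ∃ γ ∈ Γ, γ • z ∈ K) :
    IntegrableOn (fun z => dens Γ u z ^ 2) D volume := by
  obtain ⟨K, hK, hcov⟩ := hK
  have h1 : IntegrableOn (fun z => dens Γ u z ^ 2) K volume := (dens_memLp hu hK).integrable_sq
  have hm : Measurable fun z => dens Γ u z ^ 2 := (dens_meas hu).pow_const 2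
  refine ⟨hm.aestronglyMeasurable, ?_⟩
  rw [hasFiniteIntegral_iff_ofReal (Eventually.of_forall fun z => sq_nonneg _)]
  have h2 : ∫⁻ z in K, ENNReal.ofReal (dens Γ u z ^ 2) < ⊤ :=
    (hasFiniteIntegral_iff_ofReal (Eventually.of_forall fun z => sq_nonneg _)).1 h1.2
  refine lt_of_le_of_lt ?_ h2
  rw [hD.setLIntegral_eq_tsum' _ K]
  have e : ∀ γ : Γ, ∫⁻ z in γ • K ∩ D, ENNReal.ofReal (dens Γ u (γ⁻¹ • z) ^ 2)
      = ∫⁻ z in γ • K ∩ D, ENNReal.ofReal (dens Γ u z ^ 2) := by
    intro γ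
    refine lintegral_congr fun z => ?_
    rw [show dens Γ u (γ⁻¹ • z) = dens Γ u z from dens_inv (Γ.inv_mem γ.2) z]
  simp only [e]
  have h3 : ∫⁻ z in D, ENNReal.ofReal (dens Γ u z ^ 2)
      = ∫⁻ z in ⋃ γ : Γ, γ • K ∩ D, ENNReal.ofReal (dens Γ u z ^ 2) := by
    congr 2
    rw [← iUnion_inter]
    refine (inter_eq_right.2 fun z _ => ?_).symm
    obtain ⟨γ, hγ, hz⟩ := hcov z
    rw [mem_iUnion]
    exact ⟨⟨γ, hγ⟩⁻¹, mem_smul_set_iff_inv_smul_mem.2 (by rw [inv_inv]; exact hz)⟩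
  rw [h3]
  exact lintegral_iUnion_le _ _

/-! ### The projection -/

open CompactlySupported in
lemma mu_proj [Countable Γ] (hu : LimFam0 Γ u) :
    Measure.map (fun g : SL(2, ℝ) => g • UpperHalfPlane.I) (mu hu)
      = (volume : Measure ℍ).withDensity fun z => ENNReal.ofReal (dens Γ u z) := by
  have f1 : IsFiniteMeasureOnCompacts
      (Measure.map (fun g : SL(2, ℝ) => g • UpperHalfPlane.I) (mu hu)) := by
    refine ⟨fun K hK => ?_⟩
    rw [Measure.map_apply Berry.proj_measurable hK.measurableSet]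
    exact (isProperMap_smul_I.isCompact_preimage hK).measure_lt_top
  have f2 : IsFiniteMeasureOnCompacts
      ((volume : Measure ℍ).withDensity fun z => ENNReal.ofReal (dens Γ u z)) := by
    refine ⟨fun K hK => ?_⟩
    rw [withDensity_apply _ hK.measurableSet]
    exact (hasFiniteIntegral_iff_ofReal (Eventually.of_forall fun z => dens_nonneg z)).1
      (dens_int hu hK).2
  refine Measure.ext_of_integral_eq_on_compactlySupported fun f => ?_
  have hfc : Continuous fun z => f z := f.continuous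
  rw [integral_map Berry.proj_measurable.aemeasurable hfc.aestronglyMeasurable,
    integral_withDensity_eq_integral_toReal_smul
      (show Measurable fun z => ENNReal.ofReal (dens Γ u z) from
        ENNReal.measurable_ofReal.comp (dens_meas hu))
      (Eventually.of_forall fun z => ENNReal.ofReal_lt_top)]
  have hc : Continuous fun z => (f z : ℂ) := Complex.continuous_ofReal.comp f.continuous
  have hs : HasCompactSupport fun z => (f z : ℂ) :=
    f.hasCompactSupport.comp_left (g := fun x : ℝ => (x : ℂ)) Complex.ofReal_zero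
  have h := mu_coeff hu 0 hc hs
  have e : ((∫ g : SL(2, ℝ), f (g • UpperHalfPlane.I) ∂(mu hu) : ℝ) : ℂ)
      = ((∫ z, (ENNReal.ofReal (dens Γ u z)).toReal • f z : ℝ) : ℂ) := by
    rw [← integral_complex_ofReal, ← integral_complex_ofReal]
    have h2 : ∫ g : SL(2, ℝ), (f (g • UpperHalfPlane.I) : ℂ) ∂(mu hu)
        = ∫ g : SL(2, ℝ), (f (g • UpperHalfPlane.I) : ℂ) * (starRingEnd ℂ) (dirG g ^ (0 : ℤ))
          ∂(mu hu) := by
      simp
    rw [h2, h]
    refine integral_congr_ae ?_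
    filter_upwards [dens_u hu] with z hz
    rw [hz, ENNReal.toReal_ofReal (dens_nonneg z), smul_eq_mul]
    push_cast
    ring
  exact_mod_cast e

end fam

end FM

/-- **Existence of the measure** with the Fourier coefficients `u k`. -/
theorem exists_measure [MeasurableSpace SL(2, ℝ)] [BorelSpace SL(2, ℝ)]
    {Γ : Subgroup SL(2, ℝ)} [Countable Γ] {D : Set ℍ} (_ : MeasurableSet D)
    (hD : IsFundamentalDomain Γ D (volume : Measure ℍ))
    (hK : ∃ K : Set ℍ, IsCompact K ∧ ∀ z : ℍ, ∃ γ ∈ Γ, γ • z ∈ K)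
    {u : ℤ → ℂ → ℂ} (hu : LimFam0 Γ u) :
    ∃ (μ : Measure SL(2, ℝ)) (p : ℍ → ℝ), μ.Regular ∧ IsFiniteMeasureOnCompacts μ ∧
      (∀ γ ∈ Γ, Measure.map (fun g => γ * g) μ = μ) ∧
      Measure.map (fun g => -g) μ = μ ∧
      Measurable p ∧ (∀ z, 0 ≤ p z) ∧ (∀ γ ∈ Γ, ∀ z, p (γ • z) = p z) ∧
      (∀ᵐ z : ℍ, p z = (u 0 z).re) ∧
      IntegrableOn (fun z => p z ^ 2) D (volume : Measure ℍ) ∧
      (∀ S : Set ℍ, MeasurableSet S →
        μ ((fun g : SL(2, ℝ) => g • UpperHalfPlane.I) ⁻¹' S) = ∫⁻ z in S, ENNReal.ofReal (p z)) ∧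
      ∀ (k : ℤ) (ζ : ℍ → ℂ), Continuous ζ → HasCompactSupport ζ →
        ∫ g : SL(2, ℝ), ζ (g • UpperHalfPlane.I) * (starRingEnd ℂ) (dirG g ^ k) ∂μ
          = ∫ z : ℍ, ζ z * u k z := by
  refine ⟨FM.mu hu, FM.dens Γ u, inferInstance, inferInstance, fun γ hγ => FM.mu_left hu hγ,
    FM.mu_neg hu, FM.dens_meas hu, FM.dens_nonneg, fun γ hγ z => FM.dens_inv hγ z,
    FM.dens_ae hu, FM.dens_psq hu hD hK, fun S hS => ?_, fun k ζ hc hs => FM.mu_coeff hu k hc hs⟩
  rw [← Measure.map_apply Berry.proj_measurable hS, FM.mu_proj hu, withDensity_apply _ hS]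

end

end QE
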