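import Pool.Agent.Lib_helper67.QE.FlowMeasExt

/-!
Fourier components under right rotations (helper40, QH_D3).
-/

open MeasureTheory Filter Topology Set
open UpperHalfPlane hiding I
open scoped ContDiff MatrixGroups

namespace QE

noncomputable section

/-- right rotation, in linear coordinates -/
def rq (φ : ℝ) (q : ℂ × ℂ) : ℂ × ℂ :=
  (Complex.exp (φ * Complex.I) * q.1, Complex.exp (φ * Complex.I) * q.2)

/-- the Fourier component of a function -/
def Hk (k : ℤ) (H : ℂ × ℂ → ℂ) (q : ℂ × ℂ) : ℂ :=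
  ∫ φ in (0 : ℝ)..(2 * Real.pi), Complex.exp (-(k : ℂ) * φ * Complex.I) * H (rq φ q)

lemma norm_e (φ : ℝ) : ‖Complex.exp (φ * Complex.I)‖ = 1 := Complex.norm_exp_ofReal_mul_I φ

lemma norm_rq (φ : ℝ) (q : ℂ × ℂ) : ‖rq φ q‖ = ‖q‖ := by
  unfold rq
  rw [Prod.norm_def, Prod.norm_def]
  simp only [norm_mul, norm_e, one_mul]

lemma rq_add (φ ψ : ℝ) (q : ℂ × ℂ) : rq φ (rq ψ q) = rq (φ + ψ) q := by
  have h : Complex.exp (((φ + ψ : ℝ) : ℂ) * Complex.I) =
      Complex.exp (φ * Complex.I) * Complex.exp (ψ * Complex.I) := by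
    rw [← Complex.exp_add]; push_cast; ring_nf
  unfold rq
  rw [h]
  refine Prod.ext ?_ ?_ <;> simp only [mul_assoc]

lemma rq_two_pi (φ : ℝ) (q : ℂ × ℂ) : rq (φ + 2 * Real.pi) q = rq φ q := by
  have h : Complex.exp (((φ + 2 * Real.pi : ℝ) : ℂ) * Complex.I) = Complex.exp (φ * Complex.I) := by
    push_cast
    rw [add_mul, Complex.exp_add, Complex.exp_two_pi_mul_I, mul_one]
  unfold rq
  rw [h]

lemma rq_pi (φ : ℝ) (q : ℂ × ℂ) : rq (φ + Real.pi) q = rq φ (-q) := by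
  have h : Complex.exp (((φ + Real.pi : ℝ) : ℂ) * Complex.I) = -Complex.exp (φ * Complex.I) := by
    push_cast
    rw [add_mul, Complex.exp_add, Complex.exp_pi_mul_I]; ring
  unfold rq
  rw [h]
  refine Prod.ext ?_ ?_ <;> simp

lemma contDiff_exp_mul (c : ℂ) : ContDiff ℝ ∞ fun p : ℝ × (ℂ × ℂ) =>
    Complex.exp (c * (p.1 : ℂ) * Complex.I) := by
  have h0 : ContDiff ℝ ∞ fun p : ℝ × (ℂ × ℂ) => ((p.1 : ℝ) : ℂ) :=
    Complex.ofRealCLM.contDiff.comp contDiff_fst
  exact ((contDiff_const.mul h0).mul contDiff_const).cexp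

lemma contDiff_rq : ContDiff ℝ ∞ fun p : ℝ × (ℂ × ℂ) => rq p.1 p.2 := by
  have h0 : ContDiff ℝ ∞ fun p : ℝ × (ℂ × ℂ) => ((p.1 : ℝ) : ℂ) :=
    Complex.ofRealCLM.contDiff.comp contDiff_fst
  have h1 : ContDiff ℝ ∞ fun p : ℝ × (ℂ × ℂ) => Complex.exp ((p.1 : ℂ) * Complex.I) :=
    (h0.mul contDiff_const).cexp
  have h3 : ContDiff ℝ ∞ fun p : ℝ × (ℂ × ℂ) => p.2.1 := contDiff_fst.comp contDiff_snd
  have h4 : ContDiff ℝ ∞ fun p : ℝ × (ℂ × ℂ) => p.2.2 := contDiff_snd.comp contDiff_snd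
  unfold rq
  exact (h1.mul h3).prodMk (h1.mul h4)

lemma contDiff_fk (k : ℤ) {H : ℂ × ℂ → ℂ} (hH : ContDiff ℝ ∞ H) :
    ContDiff ℝ ∞ fun p : ℝ × (ℂ × ℂ) =>
      Complex.exp (-(k : ℂ) * p.1 * Complex.I) * H (rq p.1 p.2) :=
  (contDiff_exp_mul (-(k : ℂ))).mul (hH.comp contDiff_rq)

lemma Hk_smooth (k : ℤ) {H : ℂ × ℂ → ℂ} (hH : ContDiff ℝ ∞ H) : ContDiff ℝ ∞ (Hk k H) :=
  contDiff_param (contDiff_fk k hH) 0 (2 * Real.pi)

/-- rotation, linear -/
def rqL (φ : ℝ) : ℂ × ℂ →L[ℝ] ℂ × ℂ :=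
  (Complex.exp (φ * Complex.I)) • ContinuousLinearMap.id ℝ (ℂ × ℂ)

lemma rqL_apply (φ : ℝ) (q : ℂ × ℂ) : rqL φ q = rq φ q := by
  simp [rqL, rq, Prod.smul_def]

lemma XX_rq {H : ℂ × ℂ → ℂ} (hH : Differentiable ℝ H) (φ : ℝ) (q : ℂ × ℂ) :
    XX (fun q => H (rq φ q)) q = fderiv ℝ H (rq φ q) (rq φ (Vq q)) := by
  unfold XX
  have h1 : HasFDerivAt (fun q => rq φ q) (rqL φ) q := by
    have := (rqL φ).hasFDerivAt (x := q)
    exact this.congr_of_eventuallyEq (Eventually.of_forall fun q => (rqL_apply φ q).symm)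
  have h2 := ((hH (rq φ q)).hasFDerivAt.comp q h1).fderiv
  have h3 : fderiv ℝ (fun q => H (rq φ q)) q = (fderiv ℝ H (rq φ q)).comp (rqL φ) := h2
  rw [h3, ContinuousLinearMap.comp_apply, rqL_apply]

lemma continuous_rq_comp {X : Type} [TopologicalSpace X] {a : X → ℝ} {b : X → ℂ × ℂ}
    (ha : Continuous a) (hb : Continuous b) : Continuous fun x => rq (a x) (b x) := by
  unfold rq
  fun_prop

lemma continuous_XX_rq {H : ℂ × ℂ → ℂ} (hH : ContDiff ℝ ∞ H) {X : Type} [TopologicalSpace X]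
    {a : X → ℝ} {b : X → ℂ × ℂ} (ha : Continuous a) (hb : Continuous b) :
    Continuous fun x => XX (fun q => H (rq (a x) q)) (b x) := by
  have hd : Differentiable ℝ H := hH.differentiable (by simp)
  have hfc : Continuous (fderiv ℝ H) := hH.continuous_fderiv (by simp)
  simp only [XX_rq hd]
  exact (hfc.comp (continuous_rq_comp ha hb)).clm_apply
    (continuous_rq_comp ha (continuous_Vq.comp hb))

/-- the vector field and the Fourier components -/
lemma XX_Hk (k : ℤ) {H : ℂ × ℂ → ℂ} (hH : ContDiff ℝ ∞ H) (q : ℂ × ℂ) :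
    XX (Hk k H) q = ∫ φ in (0 : ℝ)..(2 * Real.pi), Complex.exp (-(k : ℂ) * φ * Complex.I) *
      XX (fun q => H (rq φ q)) q := by
  have hf := contDiff_fk k hH
  have hd : Differentiable ℝ H := hH.differentiable (by simp)
  have h1 := (hasFDerivAt_param (hf.of_le (by simp)) 0 (2 * Real.pi) q).fderiv
  have h2 : XX (Hk k H) q = (∫ t in (0:ℝ)..(2 * Real.pi), (fderiv ℝ (fun p : ℝ × (ℂ × ℂ) =>
      Complex.exp (-(k : ℂ) * p.1 * Complex.I) * H (rq p.1 p.2)) (t, q)).comp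
        (ContinuousLinearMap.inr ℝ ℝ (ℂ × ℂ))) (Vq q) := by
    unfold XX
    rw [← h1]
    rfl
  rw [h2]
  have hint : IntervalIntegrable (fun t : ℝ => (fderiv ℝ (fun p : ℝ × (ℂ × ℂ) =>
      Complex.exp (-(k : ℂ) * p.1 * Complex.I) * H (rq p.1 p.2)) (t, q)).comp
        (ContinuousLinearMap.inr ℝ ℝ (ℂ × ℂ))) volume 0 (2 * Real.pi) := by
    refine Continuous.intervalIntegrable ?_ _ _
    have hc := hf.continuous_fderiv (by simp)
    exact (hc.comp (continuous_id.prodMk continuous_const)).clm_comp_const _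
  rw [ContinuousLinearMap.intervalIntegral_apply hint]
  refine intervalIntegral.integral_congr fun t _ => ?_
  simp only [ContinuousLinearMap.comp_apply]
  have h3 : HasFDerivAt (fun q' : ℂ × ℂ => (t, q')) (ContinuousLinearMap.inr ℝ ℝ (ℂ × ℂ)) q :=
    hasFDerivAt_prodMk_right t q
  have h4 := ((hf.differentiable (by simp)) (t, q)).hasFDerivAt.comp q h3
  have h5 : HasFDerivAt (fun q' : ℂ × ℂ => Complex.exp (-(k : ℂ) * t * Complex.I) * H (rq t q'))
      ((fderiv ℝ (fun p : ℝ × (ℂ × ℂ) =>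
      Complex.exp (-(k : ℂ) * p.1 * Complex.I) * H (rq p.1 p.2)) (t, q)).comp
        (ContinuousLinearMap.inr ℝ ℝ (ℂ × ℂ))) q := h4
  have h6 : DifferentiableAt ℝ (fun q' : ℂ × ℂ => H (rq t q')) q := by
    have e : (fun q' => rq t q') = rqL t := funext fun q' => (rqL_apply t q').symm
    have : DifferentiableAt ℝ (fun q' => rq t q') q := by
      rw [e]; exact (rqL t).differentiableAt
    exact (hd _).comp q this
  have h7 := h5.fderiv
  rw [fderiv_const_mul h6] at h7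
  have h8 := congrArg (fun L : ℂ × ℂ →L[ℝ] ℂ => L (Vq q)) h7
  simp only [ContinuousLinearMap.smul_apply, smul_eq_mul, ContinuousLinearMap.comp_apply] at h8
  exact h8.symm

/-- equivariance of the Fourier components -/
lemma Hk_rq (k : ℤ) (H : ℂ × ℂ → ℂ) (ψ : ℝ) (q : ℂ × ℂ) :
    Hk k H (rq ψ q) = Complex.exp ((k : ℂ) * ψ * Complex.I) * Hk k H q := by
  unfold Hk
  set F : ℝ → ℂ := fun φ => Complex.exp (-(k : ℂ) * φ * Complex.I) * H (rq φ q) with hF
  have hper : Function.Periodic F (2 * Real.pi) := by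
    intro φ
    simp only [hF, rq_two_pi]
    congr 1
    have : -(k : ℂ) * ((φ + 2 * Real.pi : ℝ) : ℂ) * Complex.I =
        -(k : ℂ) * φ * Complex.I + ((-k : ℤ) : ℂ) * (2 * Real.pi * Complex.I) := by
      push_cast; ring
    rw [this, Complex.exp_add, Complex.exp_int_mul_two_pi_mul_I, mul_one]
  have h1 : ∀ φ : ℝ, Complex.exp (-(k : ℂ) * φ * Complex.I) * H (rq φ (rq ψ q)) =
      Complex.exp ((k : ℂ) * ψ * Complex.I) * F (φ + ψ) := by
    intro φ
    simp only [hF, rq_add]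
    rw [← mul_assoc, ← Complex.exp_add]
    congr 2
    push_cast; ring
  simp only [h1]
  rw [intervalIntegral.integral_const_mul, intervalIntegral.integral_comp_add_right, zero_add]
  congr 1
  have h2 := hper.intervalIntegral_add_eq ψ 0
  rw [zero_add] at h2
  rw [add_comm (2 * Real.pi) ψ]
  exact h2

lemma Hk_neg {k : ℤ} (hk : Odd k) (H : ℂ × ℂ → ℂ) (q : ℂ × ℂ) : Hk k H (-q) = -Hk k H q := by
  have h1 := Hk_rq k H Real.pi q
  have h2 : rq Real.pi q = -q := by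
    have := rq_pi 0 q
    rw [zero_add] at this
    rw [this]
    unfold rq
    refine Prod.ext ?_ ?_ <;> simp
  rw [h2] at h1
  rw [h1]
  obtain ⟨m, rfl⟩ := hk
  have : (((2 * m + 1 : ℤ) : ℂ)) * Real.pi * Complex.I =
      (m : ℂ) * (2 * Real.pi * Complex.I) + Real.pi * Complex.I := by push_cast; ring
  rw [this, Complex.exp_add, Complex.exp_int_mul_two_pi_mul_I, Complex.exp_pi_mul_I]
  ring

lemma Hk_zero_of {H : ℂ × ℂ → ℂ} {R : ℝ} (hR : ∀ q, R < ‖q‖ → H q = 0) (k : ℤ) {q : ℂ × ℂ}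
    (hq : R < ‖q‖) : Hk k H q = 0 := by
  unfold Hk
  have : ∀ φ : ℝ, H (rq φ q) = 0 := fun φ => hR _ (by rwa [norm_rq])
  simp [this]

variable [MeasurableSpace SL(2, ℝ)] [BorelSpace SL(2, ℝ)]

/-- reduction to the Fourier components -/
theorem XX_of_Hk {μ : Measure SL(2, ℝ)} [IsFiniteMeasureOnCompacts μ] {H : ℂ × ℂ → ℂ}
    (hH : ContDiff ℝ ∞ H) (hc : HasCompactSupport H)
    (hk : ∀ k : ℤ, ∫ g, XX (Hk k H) (iota g) ∂μ = 0) : ∫ g, XX H (iota g) ∂μ = 0 := by
  have hd : Differentiable ℝ H := hH.differentiable (by simp)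
  obtain ⟨R, hR⟩ : ∃ R : ℝ, ∀ q, q ∈ tsupport H → ‖q‖ ≤ R := by
    obtain ⟨R, hR⟩ := (IsCompact.isBounded hc).exists_norm_le
    exact ⟨R, hR⟩
  set C : Set SL(2, ℝ) := iota ⁻¹' Metric.closedBall 0 R with hC
  have hCc : IsCompact C := iota_compact (isCompact_closedBall 0 R)
  have hout : ∀ (φ : ℝ) (g : SL(2, ℝ)), g ∉ C → XX (fun q => H (rq φ q)) (iota g) = 0 := by
    intro φ g hg
    have h1 : rq φ (iota g) ∉ tsupport H := by
      intro h
      apply hg
      have := hR _ h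
      rw [norm_rq] at this
      simpa [hC] using this
    rw [XX_rq hd]
    have h2 : fderiv ℝ H (rq φ (iota g)) = 0 := by
      by_contra h
      exact h1 (support_fderiv_subset ℝ h)
    rw [h2]; rfl
  set τ : ℝ → ℂ := fun φ => ∫ g, XX (fun q => H (rq φ q)) (iota g) ∂μ with hτ
  have hcont : Continuous (Function.uncurry fun (φ : ℝ) (g : SL(2, ℝ)) =>
      XX (fun q => H (rq φ q)) (iota g)) := by
    have := continuous_XX_rq hH (X := ℝ × SL(2, ℝ)) continuous_fst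
      (iota_continuous.comp continuous_snd)
    exact this
  have hτc : Continuous τ := by
    have h1 := continuous_parametric_integral_of_continuous (μ := μ) hcont hCc
    refine h1.congr fun φ => ?_
    exact setIntegral_eq_integral_of_forall_compl_eq_zero fun g hg => hout φ g hg
  have hτp : Function.Periodic τ (2 * Real.pi) := by
    intro φ
    simp only [hτ, rq_two_pi]
  have hz : ∀ k : ℤ, ∫ φ in (0 : ℝ)..(2 * Real.pi),
      Complex.exp (-(k : ℂ) * φ * Complex.I) * τ φ = 0 := by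
    intro k
    have hsw := integral_swap (μ := μ) hCc (a := 0) (b := 2 * Real.pi)
      (f := fun (φ : ℝ) (g : SL(2, ℝ)) => Complex.exp (-(k : ℂ) * φ * Complex.I) *
        XX (fun q => H (rq φ q)) (iota g)) ?_ ?_
    · have e1 : ∀ g : SL(2, ℝ), ∫ φ in (0 : ℝ)..(2 * Real.pi),
          Complex.exp (-(k : ℂ) * φ * Complex.I) * XX (fun q => H (rq φ q)) (iota g) =
          XX (Hk k H) (iota g) := fun g => (XX_Hk k hH (iota g)).symm
      simp only [e1, hk k, integral_const_mul] at hsw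
      exact hsw.symm
    · have h1 : Continuous fun p : ℝ × SL(2, ℝ) =>
          Complex.exp (-(k : ℂ) * (p.1 : ℂ) * Complex.I) := by fun_prop
      exact h1.mul hcont
    · intro φ _ g hg
      rw [hout φ g hg, mul_zero]
  have h0 := fourier_unique hτc hτp hz 0
  simp only [hτ] at h0
  have e : ∀ q, rq 0 q = q := by
    intro q
    unfold rq
    refine Prod.ext ?_ ?_ <;> simp
  simpa only [e] using h0

end

end QE
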