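import Pool.Agent.Lib_helper67.QE.Var3

/-!
The fourth moment of the gradient (helper70).
-/

open Complex MeasureTheory Filter Topology
open scoped ContDiff

namespace QE

noncomputable section

variable {U : Set ℂ} {h : ℕ → ℝ} {a : ℂ → ℂ} {g : ℂ → ℂ} {φ : ℕ → ℂ → ℂ} {u : ℤ → ℂ → ℂ}

/-- the Wick sum for the gradient -/
theorem GW_grad (hc : ∀ᵐ z ∂((volume : Measure ℂ).restrict U),
      ∀ k, u (-k) z = (starRingEnd ℂ) (u k z)) :
    ∀ᵐ z ∂((volume : Measure ℂ).restrict U), GW u 1 (-1) 1 (-1) z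
      = ((2 * ‖u 0 z‖ ^ 2 + ‖u 2 z‖ ^ 2 : ℝ) : ℂ) := by
  filter_upwards [hc] with z hz
  have h0 : u 0 z * u 0 z = ((‖u 0 z‖ ^ 2 : ℝ) : ℂ) := by
    have h1 := hz 0
    rw [neg_zero] at h1
    have h2 : u 0 z * (starRingEnd ℂ) (u 0 z) = ((‖u 0 z‖ ^ 2 : ℝ) : ℂ) := by
      rw [mul_conj, Complex.normSq_eq_norm_sq]
    rwa [← h1] at h2
  have h2 : u 2 z * u (-2) z = ((‖u 2 z‖ ^ 2 : ℝ) : ℂ) := by
    rw [hz, mul_conj, Complex.normSq_eq_norm_sq]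
  unfold GW WW
  norm_num
  push_cast at h0 h2
  linear_combination 2 * h0 + h2

/-- the fourth moments of the gradient and of the function -/
theorem grad_four (S : Setup U g a h φ) (L : JetLim U h a φ u) {ρ : ℂ → ℝ}
    (hρ : Test U (fun z => (ρ z : ℂ))) :
    Tendsto (fun n => (∫ z, ρ z * ‖E h a φ 1 n z‖ ^ 4) - ∫ z, ρ z * (φ n z).re ^ 4) atTop
      (𝓝 ((∫ z, ρ z * ‖u 2 z‖ ^ 2) - ∫ z, ρ z * ‖u 0 z‖ ^ 2)) := by
  have hc : ∀ᵐ z ∂((volume : Measure ℂ).restrict U), ∀ k, u (-k) z = (starRingEnd ℂ) (u k z) :=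
    ae_all_iff.2 fun k => L.conj S k
  have h1 := jets_four_var S L hρ 1 (-1) 1 (-1) (by norm_num)
  have hp : pat 1 (-1) 1 (-1) = 1 := by
    unfold pat
    rw [if_pos]
    norm_num
  rw [hp] at h1
  -- the Wick sums
  have hG : Gam u (fun z => (ρ z : ℂ)) 1 (-1) 1 (-1)
      = ((2 * UU u ρ 0 + UU u ρ 2 : ℝ) : ℂ) := by
    unfold Gam UU
    rw [hρ.congr_ae S.op (GW_grad hc)]
    have i0 := (hρ.int_sq (L.loc 0)).const_mul 2
    have i2 := hρ.int_sq (L.loc 2)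
    have e : ∫ z, (ρ z : ℂ) * ((2 * ‖u 0 z‖ ^ 2 + ‖u 2 z‖ ^ 2 : ℝ) : ℂ)
        = ∫ z, ((2 * (ρ z * ‖u 0 z‖ ^ 2) + ρ z * ‖u 2 z‖ ^ 2 : ℝ) : ℂ) := by
      refine integral_congr_ae (Filter.Eventually.of_forall fun z => ?_)
      beta_reduce
      push_cast
      ring
    have e2 : ∫ z, ((2 * (ρ z * ‖u 0 z‖ ^ 2) + ρ z * ‖u 2 z‖ ^ 2 : ℝ) : ℂ)
        = ((∫ z, (2 * (ρ z * ‖u 0 z‖ ^ 2) + ρ z * ‖u 2 z‖ ^ 2) : ℝ) : ℂ) := integral_ofReal
    rw [e, e2, integral_add i0 i2, integral_const_mul]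
  have hG0 := Gam_zero S.op L.loc hc hρ
  -- the fourth moment of the gradient
  have hE : ∀ n, ∫ z, (ρ z : ℂ) * (E h a φ 1 n z * E h a φ (-1) n z
      * (E h a φ 1 n z * E h a φ (-1) n z)) = ((∫ z, ρ z * ‖E h a φ 1 n z‖ ^ 4 : ℝ) : ℂ) := by
    intro n
    have e0 : ((∫ z, ρ z * ‖E h a φ 1 n z‖ ^ 4 : ℝ) : ℂ)
        = ∫ z, ((ρ z * ‖E h a φ 1 n z‖ ^ 4 : ℝ) : ℂ) := integral_ofReal.symm
    rw [e0]
    have := hρ.integral_congr (f := fun z => E h a φ 1 n z * E h a φ (-1) n z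
      * (E h a φ 1 n z * E h a φ (-1) n z)) (f' := fun z => ((‖E h a φ 1 n z‖ ^ 4 : ℝ) : ℂ))
      (fun z hz => by
        have h1 := S.conj_jet 1 n hz
        rw [zpow_one] at h1
        have h2 : E h a φ 1 n z * (starRingEnd ℂ) (E h a φ 1 n z)
            = ((‖E h a φ 1 n z‖ ^ 2 : ℝ) : ℂ) := by
          rw [mul_conj, Complex.normSq_eq_norm_sq]
        rw [h1] at h2
        have h3 : ((‖E h a φ 1 n z‖ ^ 4 : ℝ) : ℂ) = ((‖E h a φ 1 n z‖ ^ 2 : ℝ) : ℂ) ^ 2 := by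
          push_cast; ring
        rw [h3, ← h2]
        ring)
    refine Eq.trans this ?_
    refine MeasureTheory.integral_congr_ae (Filter.Eventually.of_forall fun z => ?_)
    push_cast
    ring
  have h2 : Tendsto (fun n => ((((∫ z, ρ z * ‖E h a φ 1 n z‖ ^ 4)
      - ∫ z, ρ z * (φ n z).re ^ 4) - (UU u ρ 2 - UU u ρ 0) : ℝ) : ℂ)) atTop (𝓝 0) := by
    refine h1.congr fun n => ?_
    unfold YY
    rw [hE, hG, hG0, S.fourth_eq hρ]
    push_cast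
    ring
  have h3 := (Complex.continuous_re.tendsto _).comp h2
  simp only [Function.comp_def, ofReal_re, zero_re] at h3
  have h4 := h3.add_const (UU u ρ 2 - UU u ρ 0)
  rw [zero_add] at h4
  refine h4.congr fun n => ?_
  ring

/-- **the lower bound for the fourth moment of the gradient**, for microlocal measures without
directional atoms -/
theorem grad_atomless (S : Setup U g a h φ) (L : JetLim U h a φ u)
    {ζ : ℂ → ℝ} (hζs : ContDiff ℝ ∞ ζ) (hζc : HasCompactSupport ζ) (hζU : tsupport ζ ⊆ U)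
    (hζ0 : ∀ z, 0 ≤ ζ z)
    (hN : Tendsto (fun N : ℕ => (1 / (N : ℝ)) * ∑ k ∈ Finset.Ioo (-(N : ℤ)) (N : ℤ),
      ∫ z, ζ z * ‖u k z‖ ^ 2) atTop (𝓝 0)) {ε : ℝ} (hε : 0 < ε) :
    ∀ᶠ n in atTop, 2 * (∫ z, ζ z * ‖u 0 z‖ ^ 2) - ε ≤ ∫ z, ζ z * ‖E h a φ 1 n z‖ ^ 4 := by
  have hT : Test U (fun z => (ζ z : ℂ)) := by
    refine ⟨ofRealCLM.contDiff.comp hζs, ?_, ?_⟩
    · unfold HasCompactSupport
      rw [Test.tsupport_eq]
      exact hζc
    · rw [Test.tsupport_eq]; exact hζU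
  have h1 := local_atomless' S L.loc L.lim (fun k => L.conj S k) hζs hζc hζU hζ0 hN
    (ε := ε / 2) (by positivity)
  have h2 := (Metric.tendsto_atTop.1 (grad_four S L hT)) (ε / 2) (by positivity)
  obtain ⟨N, hN'⟩ := h2
  have h3 : 0 ≤ ∫ z, ζ z * ‖u 2 z‖ ^ 2 := integral_nonneg fun z => mul_nonneg (hζ0 z) (by positivity)
  filter_upwards [h1, eventually_ge_atTop N] with n hn hnN
  have h4 := hN' n hnN
  rw [Real.dist_eq] at h4
  have h5 := (abs_lt.1 h4).1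
  linarith

end

end QE
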