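import Pool.Agent.Lib_helper67.QE.HypTest

/-!
Consequences of the existence of good subsequences: the lower bound for the fourth moments, and the
equidistribution in the case of equality.
-/

open UpperHalfPlane MeasureTheory MatrixGroups Filter Topology Set Berry
open scoped ENNReal ContDiff

namespace QE

noncomputable section

variable {Γ : Subgroup SL(2, ℝ)} {D : Set ℍ}

/-- the conclusions along a subsequence with microlocal limits: `p` is the weak limit of the
squares, the fourth moments are at least `3 p²` and the third moments vanish -/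
structure Good (Γ : Subgroup SL(2, ℝ)) (D : Set ℍ) (φ : ℕ → ℍ → ℝ) (p : ℍ → ℝ) : Prop where
  pm : Measurable p
  p0 : ∀ z, 0 ≤ p z
  pinv : ∀ γ ∈ Γ, ∀ z, p (γ • z) = p z
  pI : IntegrableOn p D (volume : Measure ℍ)
  psq : IntegrableOn (fun z => p z ^ 2) D (volume : Measure ℍ)
  mass : ∀ f : ℍ → ℝ, Continuous f → (∀ γ ∈ Γ, ∀ z, f (γ • z) = f z) →
    Tendsto (fun n => surfAvg D (fun z => f z * φ n z ^ 2)) atTop
      (𝓝 (surfAvg D (fun z => f z * p z)))
  four : ∀ f : ℍ → ℝ, Continuous f → (∀ z, 0 ≤ f z) → (∀ γ ∈ Γ, ∀ z, f (γ • z) = f z) → ∀ ε > 0,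
    ∀ᶠ n in atTop, 3 * surfAvg D (fun z => f z * p z ^ 2) - ε
      ≤ surfAvg D (fun z => f z * φ n z ^ 4)
  three : ∀ f : ℍ → ℝ, Continuous f → (∀ γ ∈ Γ, ∀ z, f (γ • z) = f z) →
    Tendsto (fun n => surfAvg D (fun z => f z * φ n z ^ 3)) atTop (𝓝 0)

/-- every sequence of eigenfunctions with bounded fourth moments has a good subsequence -/
def HasGood (Γ : Subgroup SL(2, ℝ)) (D : Set ℍ) : Prop :=
  ∀ (φ : ℕ → ℍ → ℝ) (m : ℕ → ℝ), EigenSeq Γ φ m →
    (∀ n, ContDiffOn ℝ ∞ (fun w : ℂ => φ n (ofComplex w)) {w | 0 < w.im}) →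
    (∃ C, ∀ n, surfAvg D (fun z => φ n z ^ 4) ≤ C) →
    ∃ s : ℕ → ℕ, StrictMono s ∧ ∃ p, Good Γ D (fun n => φ (s n)) p

theorem eigenSeq_comp {φ : ℕ → ℍ → ℝ} {m : ℕ → ℝ} (h : EigenSeq Γ φ m) {s : ℕ → ℕ}
    (hs : Tendsto s atTop atTop) : EigenSeq Γ (fun n => φ (s n)) (fun n => m (s n)) :=
  ⟨fun _ => h.invariant _, fun _ => h.smooth _, fun _ => h.eigen _, h.tendsto.comp hs⟩

/-- the mean square deviation of `p` from its mean -/
theorem avg_sq [Countable Γ] (hD : IsFundamentalDomain Γ D (volume : Measure ℍ))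
    (hK : ∃ K : Set ℍ, IsCompact K ∧ ∀ z, ∃ γ ∈ Γ, γ • z ∈ K) {p : ℍ → ℝ}
    (pI : IntegrableOn p D (volume : Measure ℍ))
    (psq : IntegrableOn (fun z => p z ^ 2) D (volume : Measure ℍ)) (h1 : surfAvg D p = 1) :
    surfAvg D (fun z => (p z - 1) ^ 2) = surfAvg D (fun z => p z ^ 2) - 1 := by
  have hfin : (volume : Measure ℍ) D ≠ ⊤ := finite_of_cocompact hD hK
  have e : (fun z => (p z - 1) ^ 2) = fun z => p z ^ 2 - (2 * p z - 1) := by
    funext z; ring
  have i1 : IntegrableOn (fun _ : ℍ => (1 : ℝ)) D (volume : Measure ℍ) := integrableOn_const hfin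
  have i2 : IntegrableOn (fun z => 2 * p z) D (volume : Measure ℍ) := pI.const_mul 2
  have i3 : IntegrableOn (fun z => 2 * p z - 1) D (volume : Measure ℍ) := i2.sub i1
  rw [e, Surf.surfAvg_sub psq i3, Surf.surfAvg_sub i2 i1, Surf.surfAvg_const_mul, h1,
    Surf.surfAvg_one hD hK]
  ring

theorem Good.avg_p {φ : ℕ → ℍ → ℝ} {p : ℍ → ℝ}
    (h : Good Γ D φ p) (hn : ∀ n, surfAvg D (fun z => φ n z ^ 2) = 1) : surfAvg D p = 1 := by
  have h1 := h.mass (fun _ => 1) continuous_const (fun _ _ _ => rfl)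
  simp only [one_mul, hn] at h1
  exact (tendsto_nhds_unique h1 tendsto_const_nhds)

/-- **The lower bound for the fourth moments.** -/
theorem fourth_lower [Countable Γ] (hD : IsFundamentalDomain Γ D (volume : Measure ℍ))
    (hK : ∃ K : Set ℍ, IsCompact K ∧ ∀ z, ∃ γ ∈ Γ, γ • z ∈ K) (H : HasGood Γ D)
    {φ : ℕ → ℍ → ℝ} {m : ℕ → ℝ} (hφ : EigenSeq Γ φ m)
    (hs : ∀ n, ContDiffOn ℝ ∞ (fun w : ℂ => φ n (ofComplex w)) {w | 0 < w.im})
    (hn : ∀ n, surfAvg D (fun z => φ n z ^ 2) = 1) {ε : ℝ} (hε : 0 < ε) :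
    ∀ᶠ n in atTop, 3 - ε ≤ surfAvg D (fun z => φ n z ^ 4) := by
  by_contra hcon
  rw [Filter.not_eventually] at hcon
  obtain ⟨s, hsm, hsn⟩ := extraction_of_frequently_atTop hcon
  simp only [not_le] at hsn
  obtain ⟨t, ht, p, hg⟩ := H _ _ (eigenSeq_comp hφ hsm.tendsto_atTop) (fun n => hs _)
    ⟨3 - ε, fun n => (hsn n).le⟩
  have hp1 := hg.avg_p (fun n => hn _)
  have h1 := hg.four (fun _ => 1) continuous_const (fun _ => zero_le_one) (fun _ _ _ => rfl)
    (ε / 2) (by positivity)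
  obtain ⟨n, hn1⟩ := h1.exists
  simp only [one_mul] at hn1
  have h2 := avg_sq hD hK hg.pI hg.psq hp1
  have h3 : 0 ≤ surfAvg D (fun z => (p z - 1) ^ 2) := Surf.surfAvg_nonneg fun z => sq_nonneg _
  have h4 := hsn (t n)
  linarith

/-- **Equality implies equidistribution.** -/
theorem equi_of_three [Countable Γ] (hD : IsFundamentalDomain Γ D (volume : Measure ℍ))
    (hK : ∃ K : Set ℍ, IsCompact K ∧ ∀ z, ∃ γ ∈ Γ, γ • z ∈ K) (H : HasGood Γ D)
    {φ : ℕ → ℍ → ℝ} {m : ℕ → ℝ} (hφ : EigenSeq Γ φ m)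
    (hs : ∀ n, ContDiffOn ℝ ∞ (fun w : ℂ => φ n (ofComplex w)) {w | 0 < w.im})
    (hn : ∀ n, surfAvg D (fun z => φ n z ^ 2) = 1)
    (h4 : Tendsto (fun n => surfAvg D (fun z => φ n z ^ 4)) atTop (𝓝 3))
    {f : ℍ → ℝ} (hf : Continuous f) (hfi : ∀ γ ∈ Γ, ∀ z, f (γ • z) = f z) :
    Tendsto (fun n => surfAvg D (fun z => f z * φ n z ^ 2)) atTop (𝓝 (surfAvg D f)) := by
  refine tendsto_of_subseq_tendsto fun ns hns => ?_
  have hb : ∃ C, ∀ n, surfAvg D (fun z => φ (ns n) z ^ 4) ≤ C := by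
    obtain ⟨C, hC⟩ := (h4.comp hns).bddAbove_range
    exact ⟨C, fun n => hC ⟨n, rfl⟩⟩
  obtain ⟨t, ht, p, hg⟩ := H _ _ (eigenSeq_comp hφ hns) (fun n => hs _) hb
  refine ⟨t, ?_⟩
  have hp1 := hg.avg_p (fun n => hn _)
  have h2 := avg_sq hD hK hg.pI hg.psq hp1
  -- the mean square of `p` is at most one
  have h5 : surfAvg D (fun z => p z ^ 2) ≤ 1 := by
    refine le_of_forall_pos_le_add fun ε hε => ?_
    have h6 := hg.four (fun _ => 1) continuous_const (fun _ => zero_le_one) (fun _ _ _ => rfl)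
      ε hε
    have h7 : ∀ᶠ n in atTop, surfAvg D (fun z => φ (ns (t n)) z ^ 4) < 3 + ε :=
      ((h4.comp hns).comp ht.tendsto_atTop).eventually_lt_const (by linarith)
    obtain ⟨n, hn1, hn2⟩ := (h6.and h7).exists
    simp only [one_mul] at hn1
    linarith
  have h6 : surfAvg D (fun z => (p z - 1) ^ 2) = 0 :=
    le_antisymm (by rw [h2]; linarith) (Surf.surfAvg_nonneg fun z => sq_nonneg _)
  have hv := Surf.vol_pos hD hK
  have hfin : (volume : Measure ℍ) D ≠ ⊤ := finite_of_cocompact hD hK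
  have hsq : IntegrableOn (fun z => (p z - 1) ^ 2) D (volume : Measure ℍ) := by
    have e : (fun z => (p z - 1) ^ 2) = fun z => p z ^ 2 - (2 * p z - 1) := by
      funext z; ring
    rw [e]
    exact hg.psq.sub ((hg.pI.const_mul 2).sub (integrableOn_const hfin))
  have h7 : ∫ z in D, (p z - 1) ^ 2 = 0 := by
    rw [Surf.surfAvg_eq] at h6
    rcases mul_eq_zero.1 h6 with h | h
    · exact absurd h (inv_pos.2 hv).ne'
    · exact h
  have h8 : ∀ᵐ z ∂((volume : Measure ℍ).restrict D), (p z - 1) ^ 2 = 0 :=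
    (integral_eq_zero_iff_of_nonneg (fun z => sq_nonneg _) hsq).1 h7
  have h9 : surfAvg D (fun z => f z * p z) = surfAvg D f := by
    rw [Surf.surfAvg_eq, Surf.surfAvg_eq]
    congr 1
    refine integral_congr_ae ?_
    filter_upwards [h8] with z hz
    have : p z - 1 = 0 := by simpa using hz
    have : p z = 1 := by linarith
    rw [this, mul_one]
  have h10 := hg.mass f hf hfi
  rw [h9] at h10
  exact h10

/-- **Third moments.** -/
theorem third_zero (H : HasGood Γ D)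
    {φ : ℕ → ℍ → ℝ} {m : ℕ → ℝ} (hφ : EigenSeq Γ φ m)
    (hs : ∀ n, ContDiffOn ℝ ∞ (fun w : ℂ => φ n (ofComplex w)) {w | 0 < w.im})
    {C : ℝ} (hC : ∀ n, surfAvg D (fun z => φ n z ^ 4) ≤ C)
    {f : ℍ → ℝ} (hf : Continuous f) (hfi : ∀ γ ∈ Γ, ∀ z, f (γ • z) = f z) :
    Tendsto (fun n => surfAvg D (fun z => f z * φ n z ^ 3)) atTop (𝓝 0) := by
  refine tendsto_of_subseq_tendsto fun ns hns => ?_
  obtain ⟨t, ht, p, hg⟩ := H _ _ (eigenSeq_comp hφ hns) (fun n => hs _) ⟨C, fun n => hC _⟩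
  exact ⟨t, hg.three f hf hfi⟩

/-- **The local form of the lower bound.** -/
theorem local_kurtosis [Countable Γ] (hD : IsFundamentalDomain Γ D (volume : Measure ℍ))
    (hK : ∃ K : Set ℍ, IsCompact K ∧ ∀ z, ∃ γ ∈ Γ, γ • z ∈ K) (H : HasGood Γ D)
    {φ : ℕ → ℍ → ℝ} {m : ℕ → ℝ} (hφ : EigenSeq Γ φ m)
    (hs : ∀ n, ContDiffOn ℝ ∞ (fun w : ℂ => φ n (ofComplex w)) {w | 0 < w.im})
    {C : ℝ} (hC : ∀ n, surfAvg D (fun z => φ n z ^ 4) ≤ C)
    {f : ℍ → ℝ} (hf : Continuous f) (hf0 : ∀ z, 0 ≤ f z) (hfi : ∀ γ ∈ Γ, ∀ z, f (γ • z) = f z)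
    {ε : ℝ} (hε : 0 < ε) :
    ∀ᶠ n in atTop, 3 * surfAvg D (fun z => f z * φ n z ^ 2) ^ 2 - ε
      ≤ surfAvg D f * surfAvg D (fun z => f z * φ n z ^ 4) := by
  by_contra hcon
  rw [Filter.not_eventually] at hcon
  obtain ⟨s, hsm, hsn⟩ := extraction_of_frequently_atTop hcon
  simp only [not_le] at hsn
  obtain ⟨t, ht, p, hg⟩ := H _ _ (eigenSeq_comp hφ hsm.tendsto_atTop) (fun n => hs _)
    ⟨C, fun n => hC _⟩
  have hfI : IntegrableOn f D (volume : Measure ℍ) := Surf.integrableOn_of_invariant hD hK hf hfi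
  obtain ⟨B, hB⟩ := bdd_of_cocompact hf hfi hK
  have hfB : ∀ᵐ z ∂((volume : Measure ℍ).restrict D), ‖f z‖ ≤ B :=
    Eventually.of_forall fun z => by rw [Real.norm_eq_abs]; exact hB z
  have i1 : IntegrableOn (fun z => f z * p z) D (volume : Measure ℍ) :=
    Integrable.bdd_mul hg.pI hf.aestronglyMeasurable.restrict hfB
  have i2 : IntegrableOn (fun z => f z * p z ^ 2) D (volume : Measure ℍ) :=
    Integrable.bdd_mul hg.psq hf.aestronglyMeasurable.restrict hfB
  -- Cauchy-Schwarz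
  have hcs : surfAvg D (fun z => f z * p z) ^ 2
      ≤ surfAvg D f * surfAvg D (fun z => f z * p z ^ 2) := by
    set a := surfAvg D f with ha
    set b := surfAvg D (fun z => f z * p z) with hb
    set c := surfAvg D (fun z => f z * p z ^ 2) with hc
    have ha0 : 0 ≤ a := Surf.surfAvg_nonneg hf0
    have hq : ∀ x : ℝ, 0 ≤ c - 2 * x * b + x ^ 2 * a := by
      intro x
      have h1 : 0 ≤ surfAvg D (fun z => f z * (p z - x) ^ 2) :=
        Surf.surfAvg_nonneg fun z => mul_nonneg (hf0 z) (sq_nonneg _)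
      have e : (fun z => f z * (p z - x) ^ 2)
          = fun z => (f z * p z ^ 2 - (2 * x) * (f z * p z)) + x ^ 2 * f z := by
        funext z; ring
      have j1 : IntegrableOn (fun z => (2 * x) * (f z * p z)) D (volume : Measure ℍ) :=
        i1.const_mul _
      have j2 : IntegrableOn (fun z => f z * p z ^ 2 - (2 * x) * (f z * p z)) D
        (volume : Measure ℍ) := i2.sub j1
      have j3 : IntegrableOn (fun z => x ^ 2 * f z) D (volume : Measure ℍ) := hfI.const_mul _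
      rw [e, Surf.surfAvg_add j2 j3,
        Surf.surfAvg_sub i2 j1, Surf.surfAvg_const_mul, Surf.surfAvg_const_mul] at h1
      exact h1
    rcases ha0.eq_or_lt with h0 | h0
    · have h1 := hq b
      have h2 := hq (-b)
      rw [← h0] at h1 h2 ⊢
      -- `0 ≤ c - 2 x b` for all `x`
      by_contra hlt
      have hb2 : 0 < b ^ 2 := by
        rw [zero_mul] at hlt
        exact not_le.1 hlt
      have h3 := hq ((c + 1) / (2 * b))
      have hb0 : b ≠ 0 := fun h => by rw [h] at hb2; simp at hb2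
      rw [← h0] at h3
      have e : c - 2 * ((c + 1) / (2 * b)) * b + ((c + 1) / (2 * b)) ^ 2 * 0 = -1 := by
        field_simp; ring
      rw [e] at h3
      linarith
    · have h1 := hq (b / a)
      have e : c - 2 * (b / a) * b + (b / a) ^ 2 * a = (a * c - b ^ 2) / a := by
        field_simp; ring
      rw [e] at h1
      have h2 := (div_nonneg_iff.1 h1)
      rcases h2 with h2 | h2
      · linarith [h2.1]
      · linarith [h2.2]
  have ha0 : 0 ≤ surfAvg D f := Surf.surfAvg_nonneg hf0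
  have h1 := hg.four f hf hf0 hfi (ε / (3 * (surfAvg D f + 1))) (by positivity)
  have h2 := (((hg.mass f hf hfi).pow 2).const_mul 3).eventually_lt_const
    (show 3 * surfAvg D (fun z => f z * p z) ^ 2 < 3 * surfAvg D (fun z => f z * p z) ^ 2 + ε / 3 by
      linarith)
  obtain ⟨n, hn1, hn2⟩ := (h1.and h2).exists
  have hn3 := hsn (t n)
  have e1 : surfAvg D f * (ε / (3 * (surfAvg D f + 1))) ≤ ε / 3 := by
    have : surfAvg D f * (ε / (3 * (surfAvg D f + 1)))
        = ε / 3 * (surfAvg D f / (surfAvg D f + 1)) := by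
      field_simp
    rw [this]
    have h5 : surfAvg D f / (surfAvg D f + 1) ≤ 1 :=
      (div_le_one (by positivity)).2 (by linarith)
    calc ε / 3 * (surfAvg D f / (surfAvg D f + 1)) ≤ ε / 3 * 1 := by gcongr
      _ = ε / 3 := mul_one _
  have e2 := mul_le_mul_of_nonneg_left hn1 ha0
  nlinarith

/-- the Cauchy-Schwarz inequality for weighted averages -/
theorem avg_cs {w g q : ℍ → ℝ} (hw0 : ∀ z, 0 ≤ w z)
    (i1 : IntegrableOn (fun z => w z * g z ^ 2) D (volume : Measure ℍ))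
    (i2 : IntegrableOn (fun z => w z * g z * q z) D (volume : Measure ℍ))
    (i3 : IntegrableOn (fun z => w z * q z ^ 2) D (volume : Measure ℍ)) :
    surfAvg D (fun z => w z * g z * q z) ^ 2
      ≤ surfAvg D (fun z => w z * g z ^ 2) * surfAvg D (fun z => w z * q z ^ 2) := by
  have hq : ∀ x : ℝ, 0 ≤ surfAvg D (fun z => w z * g z ^ 2) * (x * x)
      + (-2 * surfAvg D (fun z => w z * g z * q z)) * x
      + surfAvg D (fun z => w z * q z ^ 2) := by
    intro x
    have h1 : 0 ≤ surfAvg D (fun z => w z * (x * g z - q z) ^ 2) :=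
      Surf.surfAvg_nonneg fun z => mul_nonneg (hw0 z) (sq_nonneg _)
    have e : (fun z => w z * (x * g z - q z) ^ 2)
        = fun z => ((x ^ 2) * (w z * g z ^ 2) - (2 * x) * (w z * g z * q z)) + w z * q z ^ 2 := by
      funext z; ring
    have j1 : IntegrableOn (fun z => (x ^ 2) * (w z * g z ^ 2)) D (volume : Measure ℍ) :=
      i1.const_mul _
    have j2 : IntegrableOn (fun z => (2 * x) * (w z * g z * q z)) D (volume : Measure ℍ) :=
      i2.const_mul _
    have j3 : IntegrableOn (fun z => (x ^ 2) * (w z * g z ^ 2) - (2 * x) * (w z * g z * q z)) D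
      (volume : Measure ℍ) := j1.sub j2
    rw [e, Surf.surfAvg_add j3 i3, Surf.surfAvg_sub j1 j2, Surf.surfAvg_const_mul,
      Surf.surfAvg_const_mul] at h1
    linarith
  have h2 := discrim_le_zero hq
  unfold discrim at h2
  nlinarith

/-- **The weighted form of the lower bound for the fourth moments.** -/
theorem weighted_fourth [Countable Γ] (hD : IsFundamentalDomain Γ D (volume : Measure ℍ))
    (hK : ∃ K : Set ℍ, IsCompact K ∧ ∀ z, ∃ γ ∈ Γ, γ • z ∈ K) (H : HasGood Γ D)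
    {φ : ℕ → ℍ → ℝ} {m : ℕ → ℝ} (hφ : EigenSeq Γ φ m)
    (hs : ∀ n, ContDiffOn ℝ ∞ (fun w : ℂ => φ n (ofComplex w)) {w | 0 < w.im})
    (hn : ∀ n, surfAvg D (fun z => φ n z ^ 2) = 1)
    {w g : ℍ → ℝ} (hw : Continuous w) (hw0 : ∀ z, 0 < w z) (hwi : ∀ γ ∈ Γ, ∀ z, w (γ • z) = w z)
    (hg : Continuous g) (hgi : ∀ γ ∈ Γ, ∀ z, g (γ • z) = g z) {ε : ℝ} (hε : 0 < ε) :
    ∀ᶠ n in atTop, 3 * surfAvg D (fun z => w z * g z * φ n z ^ 2) ^ 2 - ε
      ≤ surfAvg D (fun z => w z * g z ^ 2) * surfAvg D (fun z => w z * φ n z ^ 4) := by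
  by_contra hcon
  rw [Filter.not_eventually] at hcon
  obtain ⟨s, hsm, hsn⟩ := extraction_of_frequently_atTop hcon
  simp only [not_le] at hsn
  have hc : ∀ n, Continuous (φ n) := fun n => by
    have h1 : Continuous (fun z : ℍ => (fun w : ℂ => φ n (ofComplex w)) (z : ℂ)) :=
      (hs n).continuousOn.comp_continuous UpperHalfPlane.continuous_coe fun z => z.im_pos
    refine h1.congr fun z => ?_
    simp only [ofComplex_apply]
  set a := surfAvg D (fun z => w z * g z ^ 2) with ha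
  -- integrability
  have hInt : ∀ f : ℍ → ℝ, Continuous f → (∀ γ ∈ Γ, ∀ z, f (γ • z) = f z) →
      IntegrableOn f D (volume : Measure ℍ) := fun f hf hfi =>
    Surf.integrableOn_of_invariant hD hK hf hfi
  have iwg : IntegrableOn (fun z => w z * g z ^ 2) D (volume : Measure ℍ) :=
    hInt _ (hw.mul (hg.pow 2)) fun γ hγ z => by rw [hwi γ hγ, hgi γ hγ]
  have i2 : ∀ n, IntegrableOn (fun z => w z * g z * φ n z ^ 2) D (volume : Measure ℍ) := fun n =>
    hInt _ ((hw.mul hg).mul ((hc n).pow 2)) fun γ hγ z => by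
      rw [hwi γ hγ, hgi γ hγ, hφ.invariant n γ hγ]
  have i4 : ∀ n, IntegrableOn (fun z => w z * φ n z ^ 4) D (volume : Measure ℍ) := fun n =>
    hInt _ (hw.mul ((hc n).pow 4)) fun γ hγ z => by rw [hwi γ hγ, hφ.invariant n γ hγ]
  -- the Cauchy-Schwarz inequality for `φ n`
  have hcs : ∀ n, surfAvg D (fun z => w z * g z * φ n z ^ 2) ^ 2
      ≤ a * surfAvg D (fun z => w z * φ n z ^ 4) := by
    intro n
    have e : (fun z => w z * (φ n z ^ 2) ^ 2) = fun z => w z * φ n z ^ 4 := by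
      funext z; ring
    have h1 := avg_cs (D := D) (w := w) (g := g) (q := fun z => φ n z ^ 2) (fun z => (hw0 z).le) iwg
      (i2 n) (by rw [e]; exact i4 n)
    rw [e] at h1
    exact h1
  have ha0 : 0 ≤ a := Surf.surfAvg_nonneg fun z => mul_nonneg (hw0 z).le (sq_nonneg _)
  -- boundedness of the second moments
  obtain ⟨B, hB⟩ := bdd_of_cocompact (hw.mul hg) (fun γ hγ z => by
    show w (γ • z) * g (γ • z) = w z * g z
    rw [hwi γ hγ, hgi γ hγ]) hK
  have hB0 : 0 ≤ B := (abs_nonneg _).trans (hB I)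
  have i2' : ∀ n, IntegrableOn (fun z => φ n z ^ 2) D (volume : Measure ℍ) := fun n =>
    hInt _ ((hc n).pow 2) fun γ hγ z => by rw [hφ.invariant n γ hγ]
  have hv := Surf.vol_pos hD hK
  have hmono : ∀ f f' : ℍ → ℝ, IntegrableOn f D (volume : Measure ℍ) →
      IntegrableOn f' D (volume : Measure ℍ) → (∀ z, f z ≤ f' z) → surfAvg D f ≤ surfAvg D f' := by
    intro f f' hf hf' hle
    rw [Surf.surfAvg_eq, Surf.surfAvg_eq]
    exact mul_le_mul_of_nonneg_left (integral_mono hf hf' hle) (by positivity)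
  have hcB : ∀ n, surfAvg D (fun z => w z * g z * φ n z ^ 2) ^ 2 ≤ B ^ 2 := by
    intro n
    have h1 : surfAvg D (fun z => w z * g z * φ n z ^ 2) ≤ B := by
      have := hmono _ (fun z => B * φ n z ^ 2) (i2 n) ((i2' n).const_mul B) fun z =>
        mul_le_mul_of_nonneg_right ((le_abs_self _).trans (hB z)) (sq_nonneg _)
      rwa [Surf.surfAvg_const_mul, hn, mul_one] at this
    have h2 : -B ≤ surfAvg D (fun z => w z * g z * φ n z ^ 2) := by
      have := hmono (fun z => (-B) * φ n z ^ 2) _ ((i2' n).const_mul (-B)) (i2 n) fun z =>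
        mul_le_mul_of_nonneg_right ((neg_le_neg (hB z)).trans (neg_abs_le _)) (sq_nonneg _)
      rwa [Surf.surfAvg_const_mul, hn, mul_one] at this
    exact sq_le_sq' h2 h1
  rcases ha0.eq_or_lt with h0 | h0
  · have h1 := hcs (s 0)
    have h2 := hsn 0
    rw [← h0, zero_mul] at h1 h2
    linarith [sq_nonneg (surfAvg D (fun z => w z * g z * φ (s 0) z ^ 2))]
  -- the fourth moments are bounded
  obtain ⟨B', hB'⟩ := bdd_of_cocompact (f := fun z => 1 / w z)
    (continuous_const.div hw fun z => (hw0 z).ne') (fun γ hγ z => by rw [hwi γ hγ]) hK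
  have hb4 : ∀ n, surfAvg D (fun z => φ (s n) z ^ 4) ≤ B' * (3 * B ^ 2 / a) := by
    intro n
    have h1 : surfAvg D (fun z => w z * φ (s n) z ^ 4) ≤ 3 * B ^ 2 / a := by
      rw [le_div_iff₀ h0]
      have h2 := hsn n
      have h3 := hcB (s n)
      nlinarith
    have hB'0 : 0 ≤ B' := (abs_nonneg _).trans (hB' I)
    have i4' : IntegrableOn (fun z => φ (s n) z ^ 4) D (volume : Measure ℍ) :=
      hInt _ ((hc _).pow 4) fun γ hγ z => by rw [hφ.invariant _ γ hγ]
    have h2 := hmono _ (fun z => B' * (w z * φ (s n) z ^ 4)) i4' ((i4 _).const_mul _) fun z => by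
      have h3 : 1 / w z ≤ B' := (le_abs_self _).trans (hB' z)
      have h4 : 1 ≤ B' * w z := by
        rw [div_le_iff₀ (hw0 z)] at h3
        exact h3
      have h5 : 0 ≤ φ (s n) z ^ 4 := by positivity
      nlinarith
    rw [Surf.surfAvg_const_mul] at h2
    exact h2.trans (mul_le_mul_of_nonneg_left h1 hB'0)
  obtain ⟨t, ht, p, hgd⟩ := H _ _ (eigenSeq_comp hφ hsm.tendsto_atTop) (fun n => hs _)
    ⟨_, hb4⟩
  obtain ⟨Bw, hBw⟩ := bdd_of_cocompact hw hwi hK
  have j2 : IntegrableOn (fun z => w z * g z * p z) D (volume : Measure ℍ) :=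
    Integrable.bdd_mul hgd.pI (hw.mul hg).aestronglyMeasurable.restrict
      (Eventually.of_forall fun z => by rw [Real.norm_eq_abs]; exact hB z)
  have j3 : IntegrableOn (fun z => w z * p z ^ 2) D (volume : Measure ℍ) :=
    Integrable.bdd_mul hgd.psq hw.aestronglyMeasurable.restrict
      (Eventually.of_forall fun z => by rw [Real.norm_eq_abs]; exact hBw z)
  have hcsp := avg_cs (D := D) (w := w) (g := g) (q := p) (fun z => (hw0 z).le) iwg j2 j3
  have hm := hgd.mass (fun z => w z * g z) (hw.mul hg) (fun γ hγ z => by rw [hwi γ hγ, hgi γ hγ])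
  have h1 := hgd.four w hw (fun z => (hw0 z).le) hwi (ε / (3 * a)) (by positivity)
  have h2 := ((hm.pow 2).const_mul 3).eventually_lt_const
    (show 3 * surfAvg D (fun z => w z * g z * p z) ^ 2
      < 3 * surfAvg D (fun z => w z * g z * p z) ^ 2 + ε / 3 by linarith)
  obtain ⟨n, hn1, hn2⟩ := (h1.and h2).exists
  have hn3 := hsn (t n)
  have e1 : a * (ε / (3 * a)) = ε / 3 := by field_simp
  have e2 := mul_le_mul_of_nonneg_left hn1 ha0
  rw [mul_sub, e1] at e2
  nlinarith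

end

end QE
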