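import Pool.Agent.Lib_helper67.QE.Moments
import Pool.Agent.Lib_helper67.QE.HypDefs

/-!
Extraction of weak limits of the products of two jets.
-/

open Complex MeasureTheory Filter Topology
open scoped ContDiff InnerProductSpace ENNReal

namespace QE

noncomputable section

/-- sequential weak compactness for a countable family of bounded sequences of a separable Hilbert
space -/
theorem weak_extract {ι : Type*} [Countable ι] {H : Type*} [NormedAddCommGroup H]
    [InnerProductSpace ℂ H] [CompleteSpace H] [TopologicalSpace.SeparableSpace H]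
    (x : ι → ℕ → H) (C : ι → ℝ) (hb : ∀ i n, ‖x i n‖ ≤ C i) :
    ∃ s : ℕ → ℕ, StrictMono s ∧ ∃ w : ι → H, ∀ i y,
      Tendsto (fun n => ⟪y, x i (s n)⟫_ℂ) atTop (𝓝 ⟪y, w i⟫_ℂ) := by
  set B : ι → Set (WeakDual ℂ H) := fun i =>
    WeakDual.toStrongDual ⁻¹' Metric.closedBall (0 : StrongDual ℂ H) (C i) with hB
  have hBc : ∀ i, IsCompact (B i) := fun i => WeakDual.isCompact_closedBall _ _
  have i1 : ∀ i, CompactSpace (B i) := fun i => isCompact_iff_compactSpace.mp (hBc i)
  have i2 : ∀ i, TopologicalSpace.MetrizableSpace (B i) := fun i =>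
    WeakDual.metrizable_of_isCompact ℂ H _ (hBc i)
  have i3 : ∀ i, FirstCountableTopology (B i) := fun i => by
    let := TopologicalSpace.metrizableSpaceMetric (B i)
    infer_instance
  let F : ι → ℕ → WeakDual ℂ H := fun i n =>
    StrongDual.toWeakDual (InnerProductSpace.toDual ℂ H (x i n))
  have hF : ∀ i n, F i n ∈ B i := by
    intro i n
    show WeakDual.toStrongDual (F i n) ∈ Metric.closedBall (0 : StrongDual ℂ H) (C i)
    rw [mem_closedBall_zero_iff]
    have : WeakDual.toStrongDual (F i n) = InnerProductSpace.toDual ℂ H (x i n) := rfl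
    rw [this, LinearIsometryEquiv.norm_map]
    exact hb i n
  obtain ⟨A, s, hs, hA⟩ := CompactSpace.tendsto_subseq
    (fun n : ℕ => (fun i => (⟨F i n, hF i n⟩ : B i)))
  refine ⟨s, hs, fun i => (InnerProductSpace.toDual ℂ H).symm
    (WeakDual.toStrongDual (A i : WeakDual ℂ H)), fun i y => ?_⟩
  have h1 : Tendsto (fun n => F i (s n)) atTop (𝓝 (A i : WeakDual ℂ H)) := by
    have h2 := (tendsto_pi_nhds.1 hA) i
    exact (continuous_subtype_val.tendsto _).comp h2
  have h3 : Tendsto (fun n => F i (s n) y) atTop (𝓝 ((A i : WeakDual ℂ H) y)) :=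
    ((WeakDual.eval_continuous y).tendsto _).comp h1
  have h4 : ∀ n, F i (s n) y = ⟪x i (s n), y⟫_ℂ := fun n => rfl
  have h5 : (A i : WeakDual ℂ H) y = ⟪(InnerProductSpace.toDual ℂ H).symm
    (WeakDual.toStrongDual (A i : WeakDual ℂ H)), y⟫_ℂ := by
    rw [InnerProductSpace.toDual_symm_apply]; rfl
  simp only [h4, h5] at h3
  have h6 := (continuous_conj.tendsto _).comp h3
  refine (h6.congr fun n => ?_).trans (le_of_eq ?_)
  · simp only [Function.comp_apply]
    exact inner_conj_symm _ _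
  · rw [inner_conj_symm]

/-- an exhaustion of an open subset of the plane by compact sets -/
theorem exists_exhaustion_VL {U : Set ℂ} (hU : IsOpen U) : ∃ K : ℕ → Set ℂ, (∀ r, IsCompact (K r)) ∧
    (∀ r, K r ⊆ U) ∧ ∀ L, IsCompact L → L ⊆ U → ∃ r, L ⊆ K r := by
  have : LocallyCompactSpace U := hU.locallyCompactSpace
  refine ⟨fun r => Subtype.val '' (CompactExhaustion.choice U r), fun r => ?_, fun r => ?_, ?_⟩
  · exact ((CompactExhaustion.choice U).isCompact r).image continuous_subtype_val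
  · rintro _ ⟨z, _, rfl⟩; exact z.2
  · intro L hL hLU
    have h1 : IsCompact ((Subtype.val : U → ℂ) ⁻¹' L) := by
      rw [Subtype.isCompact_iff, Subtype.image_preimage_coe, Set.inter_eq_right.2 hLU]
      exact hL
    obtain ⟨r, hr⟩ := (CompactExhaustion.choice U).exists_superset_of_isCompact h1
    exact ⟨r, fun z hz => ⟨⟨z, hLU hz⟩, hr hz, rfl⟩⟩

theorem memLp_of_cont {K : Set ℂ} (hK : IsCompact K) {f : ℂ → ℂ} (hf : ContinuousOn f K) :
    MemLp f 2 (volume.restrict K) := by
  obtain ⟨C, hC⟩ := hK.exists_bound_of_continuousOn hf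
  have : IsFiniteMeasure (volume.restrict K) := ⟨by simpa using hK.measure_lt_top⟩
  exact MemLp.of_bound (hf.aestronglyMeasurable hK.measurableSet) C
    (ae_restrict_of_forall_mem hK.measurableSet hC)

theorem inner_toLp {f g : ℂ → ℂ} (hf : MemLp f 2 (volume : Measure ℂ))
    (hg : MemLp g 2 (volume : Measure ℂ)) :
    ⟪hf.toLp f, hg.toLp g⟫_ℂ = ∫ z, (starRingEnd ℂ) (f z) * g z := by
  rw [L2.inner_def]
  refine integral_congr_ae ?_
  filter_upwards [hf.coeFn_toLp, hg.coeFn_toLp] with z h1 h2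
  rw [h1, h2, RCLike.inner_apply]
  ring

theorem inner_toLp' {f : ℂ → ℂ} (hf : MemLp f 2 (volume : Measure ℂ))
    (g : Lp ℂ 2 (volume : Measure ℂ)) :
    ⟪hf.toLp f, g⟫_ℂ = ∫ z, (starRingEnd ℂ) (f z) * g z := by
  rw [L2.inner_def]
  refine integral_congr_ae ?_
  filter_upwards [hf.coeFn_toLp] with z h1
  rw [h1, RCLike.inner_apply]
  ring

theorem norm_toLp_sq {f : ℂ → ℂ} (hf : MemLp f 2 (volume : Measure ℂ)) :
    ‖hf.toLp f‖ ^ 2 = ∫ z, ‖f z‖ ^ 2 := by
  have h1 : ((‖hf.toLp f‖ ^ 2 : ℝ) : ℂ) = ⟪hf.toLp f, hf.toLp f⟫_ℂ := by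
    rw [inner_self_eq_norm_sq_to_K]; push_cast; rfl
  rw [inner_toLp] at h1
  have h2 : ∫ z, (starRingEnd ℂ) (f z) * f z = ((∫ z, ‖f z‖ ^ 2 : ℝ) : ℂ) := by
    have e0 : ((∫ z, ‖f z‖ ^ 2 : ℝ) : ℂ) = ∫ z, ((‖f z‖ ^ 2 : ℝ) : ℂ) := integral_ofReal.symm
    rw [e0]
    refine integral_congr_ae (Filter.Eventually.of_forall fun z => ?_)
    simp only []
    rw [mul_comm, mul_conj, normSq_eq_norm_sq]
  rw [h2] at h1
  exact_mod_cast h1

/-- extraction of weak limits for a countable family of sequences -/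
theorem wlim_extract {ι : Type*} [Countable ι] {U : Set ℂ} (hU : IsOpen U)
    (v : ι → ℕ → ℂ → ℂ) (sv : ∀ i, SmoothSeq U (v i)) (bv : ∀ i, LBdd 2 U (v i)) :
    ∃ s : ℕ → ℕ, StrictMono s ∧ ∃ w : ι → ℂ → ℂ, (∀ i, Measurable (w i)) ∧
      (∀ i, LocL2 U (w i)) ∧ ∀ i, WLim U (fun n => v i (s n)) (w i) := by
  obtain ⟨K, hKc, hKU, hKe⟩ := exists_exhaustion_VL hU
  set A : ℕ → Set ℂ := disjointed K with hA
  have hAK : ∀ r, A r ⊆ K r := fun r => disjointed_subset K r
  have hAm : ∀ r, MeasurableSet (A r) := fun r =>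
    MeasurableSet.disjointed (fun r => (hKc r).measurableSet) r
  have hAd : Pairwise (Function.onFun Disjoint A) := disjoint_disjointed K
  have hm : ∀ i r n, MemLp ((A r).indicator (v i n)) 2 (volume : Measure ℂ) := by
    intro i r n
    rw [memLp_indicator_iff_restrict (hAm r)]
    exact (memLp_of_cont (hKc r) ((sv i n).continuousOn.mono (hKU r))).mono_measure
      (Measure.restrict_mono (hAK r) le_rfl)
  -- bounds
  have hbd : ∀ p : ι × ℕ, ∃ C : ℝ, ∀ n, ‖(hm p.1 p.2 n).toLp _‖ ≤ C := by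
    rintro ⟨i, r⟩
    obtain ⟨C, hC⟩ := bv i (K r) (hKc r) (hKU r)
    obtain ⟨N, hN⟩ := eventually_atTop.1 hC
    have h1 : ∀ n, N ≤ n → ‖(hm i r n).toLp _‖ ^ 2 ≤ C := by
      intro n hn
      rw [norm_toLp_sq]
      refine le_trans ?_ (hN n hn)
      have e1 : ∀ z, ‖(A r).indicator (v i n) z‖ ^ 2
          = (A r).indicator (fun z => ‖v i n z‖ ^ 2) z := by
        intro z
        by_cases hz : z ∈ A r
        · rw [Set.indicator_of_mem hz, Set.indicator_of_mem hz]
        · rw [Set.indicator_of_notMem hz, Set.indicator_of_notMem hz]; simp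
      simp only [e1]
      rw [integral_indicator (hAm r)]
      exact setIntegral_mono_set ((sv i).intOn (hKc r) (hKU r) 2 n)
        (Filter.Eventually.of_forall fun z => by positivity)
        (LE.le.eventuallyLE (hAK r))
    have hC0 : 0 ≤ C := (sq_nonneg _).trans (h1 N le_rfl)
    refine ⟨Real.sqrt C + ∑ n ∈ Finset.range N, ‖(hm i r n).toLp _‖, fun n => ?_⟩
    have hs0 : 0 ≤ ∑ n ∈ Finset.range N, ‖(hm i r n).toLp _‖ :=
      Finset.sum_nonneg fun _ _ => norm_nonneg _
    by_cases hn : N ≤ n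
    · have := Real.le_sqrt_of_sq_le (h1 n hn)
      exact this.trans (le_add_of_nonneg_right hs0)
    · have h2 : ‖(hm i r n).toLp _‖ ≤ ∑ n ∈ Finset.range N, ‖(hm i r n).toLp _‖ :=
        Finset.single_le_sum (f := fun n => ‖(hm i r n).toLp _‖) (fun _ _ => norm_nonneg _)
          (Finset.mem_range.2 (not_le.1 hn))
      exact h2.trans (le_add_of_nonneg_left (Real.sqrt_nonneg _))
  choose C hC using hbd
  have : Fact ((2 : ℝ≥0∞) ≠ ⊤) := ⟨by norm_num⟩
  obtain ⟨s, hs, W, hW⟩ := weak_extract (H := Lp ℂ 2 (volume : Measure ℂ))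
    (fun (p : ι × ℕ) n => (hm p.1 p.2 n).toLp _) C hC
  -- the limits
  have hpw : ∀ i, ∃ f : ℂ → ℂ, Measurable f ∧ ∀ r, Set.EqOn f (W (i, r)) (A r) := by
    intro i
    refine exists_measurable_piecewise A hAm (fun r => (W (i, r) : ℂ → ℂ))
      (fun r => (Lp.stronglyMeasurable _).measurable) fun r q hrq => ?_
    have h1 : A r ∩ A q = ∅ := Set.disjoint_iff_inter_eq_empty.1 (hAd hrq)
    beta_reduce
    rw [h1]
    exact Set.eqOn_empty _ _
  choose w hwm hw using hpw
  -- covering of compact sets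
  have hcov : ∀ L, IsCompact L → L ⊆ U → ∃ R, ∀ z ∈ L, ∃ r ∈ Finset.range R, z ∈ A r := by
    intro L hL hLU
    obtain ⟨r, hr⟩ := hKe L hL hLU
    refine ⟨r + 1, fun z hz => ?_⟩
    have hex : ∃ q, z ∈ K q := ⟨r, hr hz⟩
    classical
    refine ⟨Nat.find hex, Finset.mem_range.2 (Nat.lt_succ_of_le (Nat.find_min' hex (hr hz))), ?_⟩
    rw [hA, disjointed_apply]
    refine ⟨Nat.find_spec hex, fun hz' => ?_⟩
    rw [Finset.sup_set_eq_biUnion, Set.mem_iUnion₂] at hz'
    obtain ⟨q, hq, hzq⟩ := hz'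
    exact Nat.find_min hex (Finset.mem_Iio.1 hq) hzq
  -- splitting of the functions supported in compact sets
  have hsplit : ∀ (L : Set ℂ) (R : ℕ), (∀ z ∈ L, ∃ r ∈ Finset.range R, z ∈ A r) → ∀ f : ℂ → ℂ,
      L.indicator f = fun z => ∑ r ∈ Finset.range R, (L ∩ A r).indicator f z := by
    intro L R hR f
    funext z
    by_cases hz : z ∈ L
    · obtain ⟨r, hr, hzr⟩ := hR z hz
      rw [Set.indicator_of_mem hz, Finset.sum_eq_single r]
      · have hm' : z ∈ L ∩ A r := ⟨hz, hzr⟩
        rw [Set.indicator_of_mem hm']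
      · intro q _ hq
        rw [Set.indicator_of_notMem]
        rintro ⟨_, hzq⟩
        exact Set.disjoint_left.1 (hAd hq) hzq hzr
      · intro h; exact absurd hr h
    · rw [Set.indicator_of_notMem hz]
      symm
      refine Finset.sum_eq_zero fun r _ => ?_
      rw [Set.indicator_of_notMem]
      rintro ⟨h, _⟩
      exact hz h
  have hLm : ∀ L, IsCompact L → ∀ r, MeasurableSet (L ∩ A r) := fun L hL r =>
    hL.measurableSet.inter (hAm r)
  have hWi : ∀ i r L, (L ∩ A r).indicator (w i) = (L ∩ A r).indicator (W (i, r) : ℂ → ℂ) := by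
    intro i r L
    funext z
    by_cases hz : z ∈ L ∩ A r
    · rw [Set.indicator_of_mem hz, Set.indicator_of_mem hz, hw i r hz.2]
    · rw [Set.indicator_of_notMem hz, Set.indicator_of_notMem hz]
  have hloc : ∀ i, LocL2 U (w i) := by
    intro i L hL hLU
    obtain ⟨R, hR⟩ := hcov L hL hLU
    rw [← memLp_indicator_iff_restrict hL.measurableSet, hsplit L R hR]
    refine memLp_finsetSum _ fun r _ => ?_
    rw [hWi]
    exact (Lp.memLp (W (i, r))).indicator (hLm L hL r)
  refine ⟨s, hs, w, hwm, hloc, fun i L hL hLU ζ hζ => ?_⟩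
  obtain ⟨R, hR⟩ := hcov L hL hLU
  have hζi : MemLp (L.indicator ζ) 2 (volume : Measure ℂ) :=
    (memLp_indicator_iff_restrict hL.measurableSet).2 hζ
  have hζr : ∀ r, MemLp (fun z => (starRingEnd ℂ) ((L ∩ A r).indicator ζ z)) 2
      (volume : Measure ℂ) := by
    intro r
    have h1 : MemLp ((L ∩ A r).indicator ζ) 2 (volume : Measure ℂ) := by
      have := hζi.indicator (hAm r)
      rwa [Set.indicator_indicator, Set.inter_comm] at this
    exact h1.star
  have key : ∀ f : ℂ → ℂ, MemLp f 2 (volume.restrict L) → ∫ z in L, ζ z * f z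
      = ∑ r ∈ Finset.range R, ∫ z, (L ∩ A r).indicator ζ z * f z := by
    intro f hf
    have hi : Integrable (fun z => ζ z * f z) (volume.restrict L) := by
      have := hf.integrable_mul hζ
      refine this.congr (Filter.Eventually.of_forall fun z => ?_)
      simp only [Pi.mul_apply]; ring
    have hiL : Integrable (L.indicator (fun z => ζ z * f z)) (volume : Measure ℂ) :=
      (integrable_indicator_iff hL.measurableSet).2 hi
    rw [← integral_indicator hL.measurableSet, hsplit L R hR, integral_finsetSum]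
    · refine Finset.sum_congr rfl fun r _ => ?_
      refine integral_congr_ae (Filter.Eventually.of_forall fun z => ?_)
      simp only []
      by_cases hz : z ∈ L ∩ A r
      · rw [Set.indicator_of_mem hz, Set.indicator_of_mem hz]
      · rw [Set.indicator_of_notMem hz, Set.indicator_of_notMem hz, zero_mul]
    · intro r _
      have := hiL.indicator (hAm r)
      rwa [Set.indicator_indicator, Set.inter_comm] at this
  have hlim : Tendsto (fun n => ∑ r ∈ Finset.range R,
      ⟪(hζr r).toLp _, (hm i r (s n)).toLp _⟫_ℂ) atTop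
      (𝓝 (∑ r ∈ Finset.range R, ⟪(hζr r).toLp _, W (i, r)⟫_ℂ)) :=
    tendsto_finsetSum _ fun r _ => hW (i, r) _
  have e1 : ∀ n, ∑ r ∈ Finset.range R, ⟪(hζr r).toLp _, (hm i r (s n)).toLp _⟫_ℂ
      = ∫ z in L, ζ z * v i (s n) z := by
    intro n
    rw [key _ (memLp_of_cont hL ((sv i (s n)).continuousOn.mono hLU))]
    refine Finset.sum_congr rfl fun r _ => ?_
    rw [inner_toLp]
    refine integral_congr_ae (Filter.Eventually.of_forall fun z => ?_)
    simp only [starRingEnd_self_apply]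
    by_cases hz : z ∈ L ∩ A r
    · rw [Set.indicator_of_mem hz.2]
    · rw [Set.indicator_of_notMem hz, zero_mul, zero_mul]
  have e2 : ∑ r ∈ Finset.range R, ⟪(hζr r).toLp _, W (i, r)⟫_ℂ = ∫ z in L, ζ z * w i z := by
    rw [key _ (hloc i L hL hLU)]
    refine Finset.sum_congr rfl fun r _ => ?_
    rw [inner_toLp']
    refine integral_congr_ae (Filter.Eventually.of_forall fun z => ?_)
    simp only [starRingEnd_self_apply]
    by_cases hz : z ∈ L ∩ A r
    · rw [hw i r hz.2]
    · rw [Set.indicator_of_notMem hz, zero_mul, zero_mul]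
  rw [← e2]
  exact hlim.congr e1

variable {U : Set ℂ}

/-! ### subsequences -/

theorem LBdd.compVL {p : ℕ} {u : ℕ → ℂ → ℂ} (hu : LBdd p U u) {s : ℕ → ℕ} (hs : StrictMono s) :
    LBdd p U (fun n => u (s n)) := by
  intro K hK hKU
  obtain ⟨C, hC⟩ := hu K hK hKU
  exact ⟨C, hs.tendsto_atTop.eventually hC⟩

theorem SmoothSeq.compVL {u : ℕ → ℂ → ℂ} (hu : SmoothSeq U u) (s : ℕ → ℕ) :
    SmoothSeq U (fun n => u (s n)) := fun n => hu (s n)

theorem TameK.comp {h : ℕ → ℝ} {s : ℕ → ℕ} (hs : StrictMono s) : ∀ {k : ℕ} {u : ℕ → ℂ → ℂ},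
    TameK U h k u → TameK U (fun n => h (s n)) k (fun n => u (s n)) := by
  intro k
  induction k with
  | zero => intro u hu; exact LBdd.compVL hu hs
  | succ k ih => intro u hu; exact ⟨LBdd.compVL hu.1 hs, ih hu.2.1, ih hu.2.2⟩

theorem Tame.comp {h : ℕ → ℝ} {u : ℕ → ℂ → ℂ} (hu : Tame U h u) {s : ℕ → ℕ}
    (hs : StrictMono s) : Tame U (fun n => h (s n)) (fun n => u (s n)) :=
  ⟨hu.smooth.compVL s, fun k => (hu.bdd k).comp hs⟩

theorem Setup.comp {g a : ℂ → ℂ} {h : ℕ → ℝ} {φ : ℕ → ℂ → ℂ} (S : Setup U g a h φ) {s : ℕ → ℕ}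
    (hs : StrictMono s) : Setup U g a (fun n => h (s n)) (fun n => φ (s n)) :=
  ⟨S.op, fun _ => S.hpos _, S.hlim.comp hs.tendsto_atTop, S.ha, S.hg, S.areal, S.ag,
    S.tame.comp hs, fun _ => S.real _, fun _ => S.eig _⟩

theorem jet_comp (h : ℕ → ℝ) (a : ℂ → ℂ) (φ : ℕ → ℂ → ℂ) (s : ℕ → ℕ) (m n : ℕ) :
    jet (fun n => h (s n)) a (fun n => φ (s n)) m n = jet h a φ m (s n) := by
  induction m generalizing n with
  | zero => rfl
  | succ m ih =>
    funext z
    show -(2 * I * (h (s n) : ℂ)) * a z * dz (jet (fun n => h (s n)) a (fun n => φ (s n)) m n) z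
      = -(2 * I * (h (s n) : ℂ)) * a z * dz (jet h a φ m (s n)) z
    rw [ih]

theorem E_comp (h : ℕ → ℝ) (a : ℂ → ℂ) (φ : ℕ → ℂ → ℂ) (s : ℕ → ℕ) (j : ℤ) (n : ℕ) :
    E (fun n => h (s n)) a (fun n => φ (s n)) j n = E h a φ j (s n) := by
  cases j with
  | ofNat m => exact jet_comp h a φ s m n
  | negSucc m =>
    funext z
    show (-1) ^ (m + 1) * (starRingEnd ℂ) (jet (fun n => h (s n)) a (fun n => φ (s n)) (m + 1) n z)
      = (-1) ^ (m + 1) * (starRingEnd ℂ) (jet h a φ (m + 1) (s n) z)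
    rw [jet_comp]

/-! ### weak limits -/

theorem WLim.compVL {v : ℕ → ℂ → ℂ} {w : ℂ → ℂ} (hv : WLim U v w) {s : ℕ → ℕ} (hs : StrictMono s) :
    WLim U (fun n => v (s n)) w := fun K hK hKU ζ hζ =>
  (hv K hK hKU ζ hζ).comp hs.tendsto_atTop

theorem WLim.congr_aeVL {v : ℕ → ℂ → ℂ} {w w' : ℂ → ℂ} (hv : WLim U v w)
    (he : ∀ᵐ z ∂((volume : Measure ℂ).restrict U), w z = w' z) : WLim U v w' := by
  intro K hK hKU ζ hζ
  have h1 : ∀ᵐ z ∂((volume : Measure ℂ).restrict K), w z = w' z :=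
    ae_restrict_of_ae_restrict_of_subset hKU he
  have h2 : ∫ z in K, ζ z * w z = ∫ z in K, ζ z * w' z := by
    refine integral_congr_ae ?_
    filter_upwards [h1] with z hz
    rw [hz]
  rw [← h2]
  exact hv K hK hKU ζ hζ

theorem WLim.neg {v : ℕ → ℂ → ℂ} {w : ℂ → ℂ} (hv : WLim U v w) :
    WLim U (fun n z => - v n z) (fun z => - w z) := by
  intro K hK hKU ζ hζ
  have := (hv K hK hKU ζ hζ).neg
  rw [← integral_neg] at this
  refine (this.congr fun n => ?_).trans (le_of_eq ?_)
  · rw [← integral_neg]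
    exact integral_congr_ae (Filter.Eventually.of_forall fun z => by simp only []; ring)
  · congr 1
    exact integral_congr_ae (Filter.Eventually.of_forall fun z => by simp only []; ring)

theorem Test.memLpVL {ζ : ℂ → ℂ} (hζ : Test U ζ) {K : Set ℂ} (hK : IsCompact K) :
    MemLp ζ 2 (volume.restrict K) := memLp_of_cont hK hζ.smooth.continuous.continuousOn

theorem setIntegral_tsupport (ζ f : ℂ → ℂ) :
    ∫ z in tsupport ζ, ζ z * f z = ∫ z, ζ z * f z := by
  rw [setIntegral_eq_integral_of_forall_compl_eq_zero]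
  intro z hz
  rw [image_eq_zero_of_notMem_tsupport hz, zero_mul]

/-- weak limits against test functions -/
theorem WLim.testVL {v : ℕ → ℂ → ℂ} {w : ℂ → ℂ} (hv : WLim U v w) {ζ : ℂ → ℂ} (hζ : Test U ζ) :
    Tendsto (fun n => ∫ z, ζ z * v n z) atTop (𝓝 (∫ z, ζ z * w z)) := by
  have := hv (tsupport ζ) hζ.supp hζ.sub ζ (hζ.memLpVL hζ.supp)
  rw [setIntegral_tsupport] at this
  exact this.congr fun n => setIntegral_tsupport _ _

theorem Test.integrable_loc {ζ : ℂ → ℂ} (hζ : Test U ζ) {w : ℂ → ℂ} (hw : LocL2 U w) :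
    Integrable (fun z => ζ z * w z) := by
  have h1 : IntegrableOn (fun z => ζ z * w z) (tsupport ζ) := by
    have := (hw (tsupport ζ) hζ.supp hζ.sub).integrable_mul (hζ.memLpVL hζ.supp)
    refine this.congr (Filter.Eventually.of_forall fun z => ?_)
    simp only [Pi.mul_apply]; ring
  refine (integrableOn_iff_integrable_of_support_subset ?_).1 h1
  intro z hz
  refine subset_tsupport _ fun h0 => hz ?_
  simp only [h0, zero_mul]

/-- a weak limit which vanishes against all test functions is zero -/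
theorem ae_zero_of_test (hU : IsOpen U) {w : ℂ → ℂ} (hw : LocL2 U w)
    (h0 : ∀ ζ : ℂ → ℂ, Test U ζ → ∫ z, ζ z * w z = 0) :
    ∀ᵐ z ∂((volume : Measure ℂ).restrict U), w z = 0 := by
  rw [ae_restrict_iff' hU.measurableSet]
  refine hU.ae_eq_zero_of_integral_contDiff_smul_eq_zero (f := w) ?_ fun η h1 h2 h3 => ?_
  · rw [locallyIntegrableOn_iff hU.isLocallyClosed]
    intro K hKU hK
    have : IsFiniteMeasure (volume.restrict K) := ⟨by simpa using hK.measure_lt_top⟩
    exact (hw K hK hKU).integrable (by norm_num)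
  · have hts : tsupport (fun z => (η z : ℂ)) ⊆ tsupport η := by
      refine closure_mono fun z hz => ?_
      simp only [Function.mem_support] at hz ⊢
      intro h0; exact hz (by simp [h0])
    have := h0 (fun z => (η z : ℂ)) ⟨ofRealCLM.contDiff.comp h1,
      h2.of_isClosed_subset (isClosed_tsupport _) hts, hts.trans h3⟩
    refine Eq.trans ?_ this
    exact integral_congr_ae (Filter.Eventually.of_forall fun z => by simp)

theorem LocL2.addVL {w w' : ℂ → ℂ} (hw : LocL2 U w) (hw' : LocL2 U w') :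
    LocL2 U (fun z => w z + w' z) := fun K hK hKU => (hw K hK hKU).add (hw' K hK hKU)

theorem LocL2.const_mulVL {w : ℂ → ℂ} (hw : LocL2 U w) (c : ℂ) :
    LocL2 U (fun z => c * w z) := fun K hK hKU => (hw K hK hKU).const_mul c

theorem LocL2.neg {w : ℂ → ℂ} (hw : LocL2 U w) :
    LocL2 U (fun z => - w z) := fun K hK hKU => (hw K hK hKU).neg

/-- **The weak limits of the products of two jets**: after passing to a subsequence, the products
`E_j E_m` tend weakly to `(-1)^j u_{j+m}` for a family of locally square integrable functions. -/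
theorem exists_limits {g a : ℂ → ℂ} {h : ℕ → ℝ} {φ : ℕ → ℂ → ℂ} (S : Setup U g a h φ) :
    ∃ s : ℕ → ℕ, StrictMono s ∧ ∃ u : ℤ → ℂ → ℂ, (∀ k, Measurable (u k)) ∧
      (∀ k, LocL2 U (u k)) ∧
      ∀ j m : ℤ, WLim U (fun n z => E h a φ j (s n) z * E h a φ m (s n) z)
        (fun z => (-1) ^ j * u (j + m) z) := by
  have hsm : ∀ j m, SmoothSeq U (fun n z => E h a φ j n z * E h a φ m n z) := fun j m =>
    (S.tame_E j).smooth.mul (S.tame_E m).smooth
  have hbd : ∀ j m, LBdd 2 U (fun n z => E h a φ j n z * E h a φ m n z) := fun j m =>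
    (S.tame_E j).bdd4.mul4 (S.tame_E j).smooth (S.tame_E m).bdd4 (S.tame_E m).smooth
  obtain ⟨s, hs, w, hwm, hwl, hww⟩ := wlim_extract (ι := ℤ × ℤ) S.op
    (fun p n z => E h a φ p.1 n z * E h a φ p.2 n z) (fun p => hsm p.1 p.2)
    (fun p => hbd p.1 p.2)
  have hstep : ∀ j m : ℤ, ∀ᵐ z ∂((volume : Measure ℂ).restrict U),
      w (j + 1, m) z = - w (j, m + 1) z := by
    intro j m
    have h1 := ae_zero_of_test S.op ((hwl (j + 1, m)).addVL (hwl (j, m + 1))) fun ζ hζ => ?_
    · filter_upwards [h1] with z hz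
      exact eq_neg_of_add_eq_zero_left hz
    · have t1 := (S.int_add j m hζ).comp hs.tendsto_atTop
      have t2 := ((hww (j + 1, m)).testVL hζ).add ((hww (j, m + 1)).testVL hζ)
      have e := tendsto_nhds_unique t2 t1
      rw [← integral_add (hζ.integrable_loc (hwl _)) (hζ.integrable_loc (hwl _))] at e
      rw [← e]
      exact integral_congr_ae (Filter.Eventually.of_forall fun z => by simp only []; ring)
  have hmain : ∀ j m : ℤ, ∀ᵐ z ∂((volume : Measure ℂ).restrict U),
      w (j, m) z = (-1) ^ j * w (0, j + m) z := by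
    intro j
    induction j using Int.induction_on with
    | zero => intro m; exact Filter.Eventually.of_forall fun z => by simp
    | succ i ih =>
      intro m
      filter_upwards [hstep i m, ih (m + 1)] with z h1 h2
      have e : (i : ℤ) + 1 + m = i + (m + 1) := by ring
      rw [h1, h2, e, zpow_add_one₀ (by norm_num)]
      ring
    | pred i ih =>
      intro m
      filter_upwards [hstep (-(i : ℤ) - 1) (m - 1), ih (m - 1)] with z h1 h2
      have e1 : -(i : ℤ) - 1 + 1 = -i := by ring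
      have e2 : m - 1 + 1 = m := by ring
      have e3 : -(i : ℤ) - 1 + m = -i + (m - 1) := by ring
      rw [e1, e2, h2] at h1
      rw [e3, zpow_sub_one₀ (by norm_num)]
      have h3 : w (-(i : ℤ) - 1, m) z = - ((-1) ^ (-(i : ℤ)) * w (0, -(i : ℤ) + (m - 1)) z) := by
        rw [h1, neg_neg]
      rw [h3]
      ring
  exact ⟨s, hs, fun k => w (0, k), fun k => hwm _, fun k => hwl _, fun j m =>
    (hww (j, m)).congr_aeVL (hmain j m)⟩

end

end QE
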