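import Pool.Agent.Lib_helper67.QE.HypKey
import Pool.Agent.Lib_helper67.QE.HypConseq
import Pool.Agent.Lib_helper67.QE.Final
import Pool.Agent.Lib_helper67.QE.VarLim

/-!
The moments of order three and four of Laplace eigenfunctions on compact hyperbolic surfaces.
-/

open UpperHalfPlane MeasureTheory MatrixGroups Filter Topology Set Berry
open scoped ENNReal ContDiff

namespace QE

noncomputable section

theorem jet_sub (h : ℕ → ℝ) (a : ℂ → ℂ) (φ : ℕ → ℂ → ℂ) (s : ℕ → ℕ) (m n : ℕ) :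
    jet (fun n => h (s n)) a (fun n => φ (s n)) m n = jet h a φ m (s n) := by
  induction m with
  | zero => rfl
  | succ m ih =>
    funext z
    show -(2 * Complex.I * (h (s n) : ℂ)) * a z
      * dz (jet (fun n => h (s n)) a (fun n => φ (s n)) m n) z = _
    rw [ih]
    rfl

theorem E_sub (h : ℕ → ℝ) (a : ℂ → ℂ) (φ : ℕ → ℂ → ℂ) (s : ℕ → ℕ) (j : ℤ) (n : ℕ) (z : ℂ) :
    E (fun n => h (s n)) a (fun n => φ (s n)) j n z = E h a φ j (s n) z := by
  cases j with
  | ofNat m => exact congrFun (jet_sub h a φ s m n) z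
  | negSucc m =>
    show (-1) ^ (m + 1) * (starRingEnd ℂ)
      (jet (fun n => h (s n)) a (fun n => φ (s n)) (m + 1) n z) = _
    rw [jet_sub]
    rfl

variable {Γ : Subgroup SL(2, ℝ)} {D : Set ℍ}

/-- **Good subsequences exist.** -/
theorem hasGood [Countable Γ]
    (hDm : MeasurableSet D) (hD : IsFundamentalDomain Γ D (volume : Measure ℍ))
    (hK : ∃ K : Set ℍ, IsCompact K ∧ ∀ z, ∃ γ ∈ Γ, γ • z ∈ K) : HasGood Γ D := by
  letI : MeasurableSpace SL(2, ℝ) := borel _
  haveI : BorelSpace SL(2, ℝ) := ⟨rfl⟩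
  rintro φ m hφ hs ⟨C, hC⟩
  obtain ⟨N, hN⟩ := (hφ.tendsto.eventually_ge_atTop 1).exists_forall_of_atTop
  have hshift : Tendsto (fun n : ℕ => n + N) atTop atTop := tendsto_add_atTop_nat N
  have hc : ∀ n, Continuous (φ n) := fun n => continuous_of_smooth (hs n)
  have S := setup_of_eigen (eigenSeq_comp hφ hshift) (fun n => hs _)
    (fun n => hN _ (Nat.le_add_left _ _))
    (bdd4_of_avg hD hK (fun n => hc (n + N)) (fun n => hφ.invariant _) (fun n => hC _))
  obtain ⟨s, hsm, u, hum, hu, hw⟩ := exists_limits S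
  -- the subsequence
  set φ' : ℕ → ℍ → ℝ := fun n => φ (s n + N) with hφ'
  have hφs := eigenSeq_comp (eigenSeq_comp hφ hshift) hsm.tendsto_atTop
  have S' := setup_of_eigen (φ := φ') (m := fun n => m (s n + N)) hφs (fun n => hs _)
    (fun n => hN _ (Nat.le_add_left _ _))
    (bdd4_of_avg hD hK (fun n => hc (s n + N)) (fun n => hφ.invariant _) (fun n => hC _))
  have hw' : JLim UH (fun n => 1 / m (s n + N)) aH (fun n z => (φ' n (ofComplex z) : ℂ)) u := by
    intro j k
    refine (hw j k).congr fun n z _ => ?_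
    rw [← E_sub (fun n => 1 / m (n + N)) aH (fun n z => (φ (n + N) (ofComplex z) : ℂ)) s j n z,
      ← E_sub (fun n => 1 / m (n + N)) aH (fun n z => (φ (n + N) (ofComplex z) : ℂ)) s k n z]
  obtain ⟨p, h1, h2, h3, h4, h5, h6, h7, h8⟩ := key_of_limits hDm hD hK S'
    (fun n => hc _) (fun n => hφ.invariant _) (fun n => hC _) hum hu hw'
  exact ⟨fun n => s n + N, fun a b hab => Nat.add_lt_add_right (hsm hab) N, p,
    ⟨h1, h2, h3, h4, h5, h6, h7, h8⟩⟩

end

end QE
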