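import Pool.Agent.Lib_helper67.QE.HypStat
import Pool.Agent.Lib_helper67.QE.Grad4

/-!
The fourth moments of the gradients of eigenfunctions on compact hyperbolic surfaces (helper70).
-/

open UpperHalfPlane MeasureTheory MatrixGroups Filter Topology Set Berry
open scoped ENNReal ContDiff

namespace QE

noncomputable section

/-- the square of the length of the hyperbolic gradient -/
def gradSq (f : ℍ → ℝ) (z : ℍ) : ℝ :=
  z.im ^ 2 * ((fderiv ℝ (fun w : ℂ => f (ofComplex w)) z 1) ^ 2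
    + (fderiv ℝ (fun w : ℂ => f (ofComplex w)) z Complex.I) ^ 2)

variable {Γ : Subgroup SL(2, ℝ)} {D : Set ℍ} {φ : ℕ → ℍ → ℝ} {m : ℕ → ℝ} {u : ℤ → ℂ → ℂ}

/-- the gradient and the Wirtinger derivative -/
theorem gradSq_eq {f : ℍ → ℝ} {z : ℂ} (hz : z ∈ UH)
    (hf : DifferentiableAt ℝ (fun w : ℂ => f (ofComplex w)) z) :
    gradSq f (ofComplex z) = 4 * ‖aH z * dz (fun w => (f (ofComplex w) : ℂ)) z‖ ^ 2 := by
  have hz' : 0 < z.im := hz
  have e1 : ((ofComplex z : ℍ) : ℂ) = z := by rw [ofComplex_apply_of_im_pos hz']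
  have e2 : (ofComplex z : ℍ).im = z.im := by rw [ofComplex_apply_of_im_pos hz']; rfl
  have h1 : ∀ v, fderiv ℝ (fun w : ℂ => (f (ofComplex w) : ℂ)) z v
      = ((fderiv ℝ (fun w : ℂ => f (ofComplex w)) z v : ℝ) : ℂ) := by
    intro v
    have h2 : HasFDerivAt (fun w : ℂ => (f (ofComplex w) : ℂ))
        (Complex.ofRealCLM.comp (fderiv ℝ (fun w : ℂ => f (ofComplex w)) z)) z :=
      Complex.ofRealCLM.hasFDerivAt.comp z hf.hasFDerivAt
    rw [h2.fderiv]
    rfl
  unfold gradSq dz aH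
  rw [e1, e2, h1, h1]
  set A := fderiv ℝ (fun w : ℂ => f (ofComplex w)) z 1
  set B := fderiv ℝ (fun w : ℂ => f (ofComplex w)) z Complex.I
  have e3 : (z.im : ℂ) * (1 / 2 * ((A : ℂ) - Complex.I * (B : ℂ)))
      = ⟨z.im * A / 2, -(z.im * B / 2)⟩ := by
    apply Complex.ext
    · simp; ring
    · simp; ring
  rw [e3, ← Complex.normSq_eq_norm_sq, Complex.normSq_mk]
  ring

theorem differentiableAt_of_smooth {f : ℍ → ℝ}
    (hf : ContDiffOn ℝ ∞ (fun w : ℂ => f (ofComplex w)) {w | 0 < w.im}) {z : ℂ} (hz : z ∈ UH) :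
    DifferentiableAt ℝ (fun w : ℂ => f (ofComplex w)) z :=
  ((hf.contDiffAt (isOpen_UH.mem_nhds hz)).differentiableAt (by simp))

theorem gradSq_continuous {f : ℍ → ℝ}
    (hf : ContDiffOn ℝ ∞ (fun w : ℂ => f (ofComplex w)) {w | 0 < w.im}) :
    Continuous (gradSq f) := by
  have h1 : ContinuousOn (fderiv ℝ (fun w : ℂ => f (ofComplex w))) {w | 0 < w.im} :=
    hf.continuousOn_fderiv_of_isOpen isOpen_UH (by simp)
  have h2 : Continuous (fun z : ℍ => fderiv ℝ (fun w : ℂ => f (ofComplex w)) (z : ℂ)) :=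
    h1.comp_continuous UpperHalfPlane.continuous_coe fun z => z.im_pos
  unfold gradSq
  exact (continuous_im.pow 2).mul (((h2.clm_apply continuous_const).pow 2).add
    ((h2.clm_apply continuous_const).pow 2))

theorem gradSq_inv {f : ℍ → ℝ}
    (hf : ContDiffOn ℝ ∞ (fun w : ℂ => f (ofComplex w)) {w | 0 < w.im})
    (hinv : ∀ γ ∈ Γ, ∀ z, f (γ • z) = f z) : ∀ γ ∈ Γ, ∀ z, gradSq f (γ • z) = gradSq f z := by
  intro γ hγ z
  have hz : (z : ℂ) ∈ UH := z.im_pos
  have hz' : ((γ • z : ℍ) : ℂ) ∈ UH := (γ • z).im_pos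
  have e1 : gradSq f z = gradSq f (ofComplex (z : ℂ)) := by rw [ofComplex_apply]
  have e2 : gradSq f (γ • z) = gradSq f (ofComplex ((γ • z : ℍ) : ℂ)) := by rw [ofComplex_apply]
  rw [e1, e2, gradSq_eq hz (differentiableAt_of_smooth hf hz),
    gradSq_eq hz' (differentiableAt_of_smooth hf hz')]
  have e3 : mob γ (z : ℂ) = ((γ • z : ℍ) : ℂ) := by
    unfold mob
    rw [ofComplex_apply]
  have hfun : (fun w : ℂ => (f (ofComplex (mob γ w)) : ℂ)) = fun w : ℂ => (f (ofComplex w) : ℂ) := by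
    funext w
    rw [ofComplex_mob, hinv γ hγ]
  have hd : DifferentiableAt ℝ (fun w : ℂ => (f (ofComplex w) : ℂ)) (mob γ (z : ℂ)) := by
    rw [e3]
    exact Complex.ofRealCLM.differentiableAt.comp _ (differentiableAt_of_smooth hf hz')
  have h1 := dz_comp_mob γ hz hd
  rw [hfun] at h1
  rw [h1, ← e3, ← mul_assoc, Mob.aH_mob γ hz, mul_assoc, mul_comm (phase γ (z : ℂ)), ← mul_assoc,
    norm_mul _ (phase γ (z : ℂ)), norm_phase γ hz, mul_one]

theorem LimSeq.smooth (L : LimSeq Γ φ m u) (n : ℕ) :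
    ContDiffOn ℝ ∞ (fun w : ℂ => φ n (ofComplex w)) {w | 0 < w.im} := by
  have h1 := Complex.reCLM.contDiff.comp_contDiffOn (L.set.tame.smooth n)
  refine h1.congr fun w _ => ?_
  simp

/-- the first jet and the gradient -/
theorem LimSeq.E_one (L : LimSeq Γ φ m u) (n : ℕ) {z : ℂ} (hz : z ∈ UH) :
    ‖E (fun n => 1 / m n) aH (fun n z => (φ n (ofComplex z) : ℂ)) 1 n z‖ ^ 4
      = (gradSq (φ n) (ofComplex z) / m n ^ 2) ^ 2 := by
  have hm : 0 < m n := by have := L.one n; linarith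
  rw [gradSq_eq hz (differentiableAt_of_smooth (L.smooth n) hz)]
  have e : E (fun n => 1 / m n) aH (fun n z => (φ n (ofComplex z) : ℂ)) 1 n z
      = -(2 * Complex.I * ((1 / m n : ℝ) : ℂ)) * aH z
        * dz (fun w => (φ n (ofComplex w) : ℂ)) z := rfl
  rw [e, mul_assoc, norm_mul, norm_neg, norm_mul, norm_mul, Complex.norm_I, Complex.norm_real,
    Real.norm_of_nonneg (by positivity)]
  simp only [Complex.norm_ofNat, mul_one]
  field_simp
  ring

/-- the local statement in terms of the gradient -/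
theorem LimSeq.grad_local (L : LimSeq Γ φ m u) {ψ : ℂ → ℝ}
    (hψU : tsupport ψ ⊆ UH) (n : ℕ) :
    ∫ z, ψ z * ‖E (fun n => 1 / m n) aH (fun n z => (φ n (ofComplex z) : ℂ)) 1 n z‖ ^ 4
      = ∫ z, ψ z * (gradSq (φ n) (ofComplex z) / m n ^ 2) ^ 2 := by
  refine integral_congr_ae (Eventually.of_forall fun z => ?_)
  beta_reduce
  by_cases hz : z ∈ UH
  · rw [L.E_one n hz]
  · have : ψ z = 0 := image_eq_zero_of_notMem_tsupport fun hh => hz (hψU hh)
    rw [this, zero_mul, zero_mul]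

/-- the general inequality -/
theorem LimSeq.grad_ge [Countable Γ] (hDm : MeasurableSet D)
    (hD : IsFundamentalDomain Γ D (volume : Measure ℍ))
    (hK : ∃ K : Set ℍ, IsCompact K ∧ ∀ z, ∃ γ ∈ Γ, γ • z ∈ K) (L : LimSeq Γ φ m u)
    {w : ℍ → ℝ} (hw : Continuous w) (hw0 : ∀ z, 0 ≤ w z) (hwi : ∀ γ ∈ Γ, ∀ z, w (γ • z) = w z)
    (σ β : ℝ)
    (hloc : ∀ ψ : ℂ → ℝ, ContDiff ℝ ∞ ψ → HasCompactSupport ψ → tsupport ψ ⊆ UH →
      (∀ z, 0 ≤ ψ z) → ∀ ε > 0, ∀ᶠ n in atTop, -ε ≤ σ * ((∫ z, ψ z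
        * ‖E (fun n => 1 / m n) aH (fun n z => (φ n (ofComplex z) : ℂ)) 1 n z‖ ^ 4)
        - β * ∫ z, ψ z * φ n (ofComplex z) ^ 4)) {ε : ℝ} (hε : 0 < ε) :
    ∀ᶠ n in atTop, -ε ≤ σ * (surfAvg D (fun z => w z * (gradSq (φ n) z / m n ^ 2) ^ 2)
      - β * surfAvg D fun z => w z * φ n z ^ 4) := by
  have W := L.ws hDm hD hK
  have hgc : ∀ n, Continuous fun z => (gradSq (φ n) z / m n ^ 2) ^ 2 := fun n =>
    ((gradSq_continuous (L.smooth n)).div_const _).pow 2
  have hgi : ∀ n, ∀ γ ∈ Γ, ∀ z, (gradSq (φ n) (γ • z) / m n ^ 2) ^ 2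
      = (gradSq (φ n) z / m n ^ 2) ^ 2 := fun n γ hγ z => by
    rw [gradSq_inv (L.smooth n) (L.inv n) γ hγ z]
  have main := global_ge (F := fun n z => σ * ((gradSq (φ n) z / m n ^ 2) ^ 2 - β * φ n z ^ 4))
    W.geo W.rc W.coc hw hw0 hwi
    (Eventually.of_forall fun n => continuous_const.mul
      ((hgc n).sub (continuous_const.mul ((L.cont n).pow 4))))
    (fun n γ hγ z => by rw [hgi n γ hγ z, L.inv n γ hγ z])
    (fun K hKc hKU => by
      obtain ⟨M, hM⟩ := W.bdd4 hKc hKU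
      obtain ⟨M', hM'⟩ := (L.set.tame_E 1).bdd4 K hKc hKU
      refine ⟨|σ| * (M' + |β| * M), ?_⟩
      filter_upwards [hM, hM'] with n n1 n2
      have iA : IntegrableOn (fun z => (gradSq (φ n) (ofComplex z) / m n ^ 2) ^ 2) K :=
        ((cont_ofComplex (hgc n)).mono hKU).integrableOn_compact hKc
      have i4 : IntegrableOn (fun z : ℂ => |β| * φ n (ofComplex z) ^ 4) K :=
        ((((cont_ofComplex (L.cont n)).mono hKU).pow 4).integrableOn_compact hKc).const_mul _
      have e1 : ∫ z in K, (gradSq (φ n) (ofComplex z) / m n ^ 2) ^ 2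
          = ∫ z in K, ‖E (fun n => 1 / m n) aH (fun n z => (φ n (ofComplex z) : ℂ)) 1 n z‖ ^ 4 :=
        setIntegral_congr_fun hKc.measurableSet fun z hz => (L.E_one n (hKU hz)).symm
      calc ∫ z in K, |σ * ((gradSq (φ n) (ofComplex z) / m n ^ 2) ^ 2
            - β * φ n (ofComplex z) ^ 4)|
          ≤ ∫ z in K, |σ| * ((gradSq (φ n) (ofComplex z) / m n ^ 2) ^ 2
            + |β| * φ n (ofComplex z) ^ 4) := by
            refine integral_mono_of_nonneg (Eventually.of_forall fun z => abs_nonneg _)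
              ((iA.add i4).const_mul _) (Eventually.of_forall fun z => ?_)
            beta_reduce
            rw [abs_mul]
            refine mul_le_mul_of_nonneg_left ((abs_sub _ _).trans ?_) (abs_nonneg _)
            rw [abs_mul, abs_of_nonneg (by positivity : 0 ≤ φ n (ofComplex z) ^ 4),
              abs_of_nonneg (sq_nonneg _)]
        _ ≤ _ := by
            rw [integral_const_mul, integral_add iA i4, integral_const_mul, e1]
            exact mul_le_mul_of_nonneg_left (add_le_add n2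
              (mul_le_mul_of_nonneg_left n1 (abs_nonneg _))) (abs_nonneg _))
    (fun ψ hψ hψs hψU hψ0 ε hε => by
      filter_upwards [hloc ψ hψ hψs hψU hψ0 ε hε] with n n1
      rw [L.grad_local hψU n] at n1
      have j1 : Integrable (fun z => ψ z * (gradSq (φ n) (ofComplex z) / m n ^ 2) ^ 2) :=
        (Surf.continuous_cut_mul hψ.continuous hψU (hgc n)).integrable_of_hasCompactSupport
          hψs.mul_right
      have j3 : Integrable (fun z => β * (ψ z * φ n (ofComplex z) ^ 4)) :=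
        ((Surf.continuous_cut_mul hψ.continuous hψU
          ((W.pc n).pow 4)).integrable_of_hasCompactSupport hψs.mul_right).const_mul _
      have e : ∫ z, ψ z * (σ * ((gradSq (φ n) (ofComplex z) / m n ^ 2) ^ 2
            - β * φ n (ofComplex z) ^ 4))
          = σ * ((∫ z, ψ z * (gradSq (φ n) (ofComplex z) / m n ^ 2) ^ 2)
            - β * ∫ z, ψ z * φ n (ofComplex z) ^ 4) := by
        rw [← integral_const_mul, ← integral_sub j1 j3, ← integral_const_mul]
        congr 1; funext z; ring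
      rw [e]
      exact n1) hε
  filter_upwards [main] with n n0
  rw [rAvg_zero] at n0
  have i1 : IntegrableOn (fun z => w z * (gradSq (φ n) z / m n ^ 2) ^ 2) D (volume : Measure ℍ) :=
    Surf.integrableOn_of_invariant hD hK (hw.mul (hgc n)) fun γ hγ z => by
      rw [hwi γ hγ, hgi n γ hγ z]
  have i2 : IntegrableOn (fun z => β * (w z * φ n z ^ 4)) D (volume : Measure ℍ) :=
    (Surf.integrableOn_of_invariant (f := fun z => w z * φ n z ^ 4) hD hK
      (hw.mul ((L.cont n).pow 4)) fun γ hγ z => by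
      rw [hwi γ hγ, L.inv n γ hγ z]).const_mul _
  have e : (fun z => w z * (σ * ((gradSq (φ n) z / m n ^ 2) ^ 2 - β * φ n z ^ 4)))
      = fun z => σ * (w z * (gradSq (φ n) z / m n ^ 2) ^ 2 - β * (w z * φ n z ^ 4)) := by
    funext z; ring
  rw [e, Surf.surfAvg_const_mul, Surf.surfAvg_sub i1 i2, Surf.surfAvg_const_mul] at n0
  exact n0

/-- **The lower bound for the gradients.** -/
theorem LimSeq.grad_lower [Countable Γ] (hDm : MeasurableSet D)
    (hD : IsFundamentalDomain Γ D (volume : Measure ℍ))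
    (hK : ∃ K : Set ℍ, IsCompact K ∧ ∀ z, ∃ γ ∈ Γ, γ • z ∈ K) (L : LimSeq Γ φ m u)
    {w : ℍ → ℝ} (hw : Continuous w) (hw0 : ∀ z, 0 ≤ w z) (hwi : ∀ γ ∈ Γ, ∀ z, w (γ • z) = w z)
    {ε : ℝ} (hε : 0 < ε) :
    ∀ᶠ n in atTop, 2 / 3 * surfAvg D (fun z => w z * φ n z ^ 4) - ε
      ≤ surfAvg D fun z => w z * (gradSq (φ n) z / m n ^ 2) ^ 2 := by
  have key := L.grad_ge hDm hD hK hw hw0 hwi 1 (2 / 3) (fun ψ hψ hψs hψU hψ0 ε hε => by
    have LL : JetLim UH (fun n => 1 / m n) aH (fun n z => (φ n (ofComplex z) : ℂ)) u :=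
      ⟨L.loc, L.lim⟩
    have hT := test_of_smooth hψ hψs hψU
    have h1 := local_atomless' L.set LL.loc LL.lim (fun k => LL.conj L.set k) hψ hψs hψU hψ0
      (L.fej ψ hψ.continuous hψs hψU hψ0) hε
    have h2 := (Metric.tendsto_atTop.1 (grad_four L.set LL hT)) (ε / 2) (by positivity)
    obtain ⟨N, hN'⟩ := h2
    have h3 : 0 ≤ ∫ z, ψ z * ‖u 2 z‖ ^ 2 :=
      integral_nonneg fun z => mul_nonneg (hψ0 z) (by positivity)
    filter_upwards [h1, eventually_ge_atTop N] with n hn hnN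
    have h4 := hN' n hnN
    rw [Real.dist_eq] at h4
    have h5 := (abs_lt.1 h4).1
    simp only [Complex.ofReal_re] at hn h5
    linarith) hε
  filter_upwards [key] with n hn
  linarith

/-- **The upper bound for the gradients.** -/
theorem LimSeq.grad_upper [Countable Γ] (hDm : MeasurableSet D)
    (hD : IsFundamentalDomain Γ D (volume : Measure ℍ))
    (hK : ∃ K : Set ℍ, IsCompact K ∧ ∀ z, ∃ γ ∈ Γ, γ • z ∈ K) (L : LimSeq Γ φ m u)
    {w : ℍ → ℝ} (hw : Continuous w) (hw0 : ∀ z, 0 ≤ w z) (hwi : ∀ γ ∈ Γ, ∀ z, w (γ • z) = w z)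
    {ε : ℝ} (hε : 0 < ε) :
    ∀ᶠ n in atTop, (surfAvg D fun z => w z * (gradSq (φ n) z / m n ^ 2) ^ 2)
      ≤ surfAvg D (fun z => w z * φ n z ^ 4) + ε := by
  have key := L.grad_ge hDm hD hK hw hw0 hwi (-1) 1 (fun ψ hψ hψs hψU hψ0 ε hε => by
    have LL : JetLim UH (fun n => 1 / m n) aH (fun n z => (φ n (ofComplex z) : ℂ)) u :=
      ⟨L.loc, L.lim⟩
    have hT := test_of_smooth hψ hψs hψU
    have h2 := (Metric.tendsto_atTop.1 (grad_four L.set LL hT)) ε hε
    obtain ⟨N, hN'⟩ := h2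
    have h3 : ∫ z, ψ z * ‖u 2 z‖ ^ 2 ≤ ∫ z, ψ z * ‖u 0 z‖ ^ 2 := by
      refine integral_mono_ae (hT.int_sq (L.loc 2)) (hT.int_sq (L.loc 0)) ?_
      have h3 := (ae_restrict_iff' isOpen_UH.measurableSet).1 (L.bnd 2)
      filter_upwards [h3] with z hz
      by_cases hzU : z ∈ UH
      · have := hz hzU
        have h4 := hψ0 z
        gcongr
      · have h0 : ψ z = 0 := image_eq_zero_of_notMem_tsupport fun hh => hzU (hψU hh)
        rw [h0]; simp
    filter_upwards [eventually_ge_atTop N] with n hnN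
    have h4 := hN' n hnN
    rw [Real.dist_eq] at h4
    have h5 := (abs_lt.1 h4).2
    simp only [Complex.ofReal_re] at h5
    linarith) hε
  filter_upwards [key] with n hn
  linarith

theorem gradSq_scale (f : ℍ → ℝ) (b : ℝ) (z : ℍ)
    (hf : DifferentiableAt ℝ (fun w : ℂ => f (ofComplex w)) z) :
    gradSq (fun z => b * f z) z = b ^ 2 * gradSq f z := by
  unfold gradSq
  have e : fderiv ℝ (fun w : ℂ => b * f (ofComplex w)) z
      = b • fderiv ℝ (fun w : ℂ => f (ofComplex w)) z := by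
    rw [fderiv_const_mul hf]
  rw [e]
  simp only [smul_apply, smul_eq_mul]
  ring

/-- **The fourth moments of the gradients**, for every sequence of eigenfunctions. -/
theorem grad_bounds [Countable Γ]
    (hDm : MeasurableSet D) (hD : IsFundamentalDomain Γ D (volume : Measure ℍ))
    (hK : ∃ K : Set ℍ, IsCompact K ∧ ∀ z, ∃ γ ∈ Γ, γ • z ∈ K) {φ : ℕ → ℍ → ℝ} {m : ℕ → ℝ}
    (hφ : EigenSeq Γ φ m)
    (hs : ∀ n, ContDiffOn ℝ ∞ (fun w : ℂ => φ n (ofComplex w)) {w | 0 < w.im})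
    {w : ℍ → ℝ} (hw : Continuous w) (hw0 : ∀ z, 0 ≤ w z) (hwi : ∀ γ ∈ Γ, ∀ z, w (γ • z) = w z)
    {ε : ℝ} (hε : 0 < ε) :
    ∀ᶠ n in atTop, 2 / 3 * surfAvg D (fun z => w z * φ n z ^ 4)
        - ε * surfAvg D (fun z => φ n z ^ 4)
      ≤ surfAvg D (fun z => w z * (gradSq (φ n) z / m n ^ 2) ^ 2) ∧
      surfAvg D (fun z => w z * (gradSq (φ n) z / m n ^ 2) ^ 2)
        ≤ surfAvg D (fun z => w z * φ n z ^ 4) + ε * surfAvg D (fun z => φ n z ^ 4) := by
  have key := every_seq hDm hD hK hφ hs (Q := fun f k =>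
    (∀ z : ℍ, DifferentiableAt ℝ (fun w : ℂ => f (ofComplex w)) z) →
    (2 / 3 * surfAvg D (fun z => w z * f z ^ 4) - ε * surfAvg D (fun z => f z ^ 4)
      ≤ surfAvg D (fun z => w z * (gradSq f z / k ^ 2) ^ 2) ∧
    surfAvg D (fun z => w z * (gradSq f z / k ^ 2) ^ 2)
        ≤ surfAvg D (fun z => w z * f z ^ 4) + ε * surfAvg D (fun z => f z ^ 4))) ?_ ?_ ?_
  · filter_upwards [key] with n hn
    exact hn fun z => differentiableAt_of_smooth (hs n) z.im_pos
  · intro f k b hb h hf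
    have h := h fun z => (hf z).const_mul b
    have e1 : surfAvg D (fun z => w z * (b * f z) ^ 4) = b ^ 4 * surfAvg D (fun z => w z * f z ^ 4) := by
      unfold surfAvg
      rw [← integral_const_mul]
      congr 1; funext z; ring
    have e2 : surfAvg D (fun z => (b * f z) ^ 4) = b ^ 4 * surfAvg D (fun z => f z ^ 4) := by
      unfold surfAvg
      rw [← integral_const_mul]
      congr 1; funext z; ring
    have e3 : surfAvg D (fun z => w z * (gradSq (fun z => b * f z) z / k ^ 2) ^ 2)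
        = b ^ 4 * surfAvg D (fun z => w z * (gradSq f z / k ^ 2) ^ 2) := by
      unfold surfAvg
      rw [← integral_const_mul]
      congr 1; funext z
      beta_reduce
      rw [gradSq_scale f b z (hf z)]; ring
    rw [e1, e2, e3] at h
    have hb4 : 0 < b ^ 4 := by positivity
    constructor
    · have h' : b ^ 4 * (2 / 3 * surfAvg D (fun z => w z * f z ^ 4)
          - ε * surfAvg D (fun z => f z ^ 4))
          ≤ b ^ 4 * surfAvg D (fun z => w z * (gradSq f z / k ^ 2) ^ 2) := by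
        linarith [h.1]
      exact le_of_mul_le_mul_left h' hb4
    · have h' : b ^ 4 * surfAvg D (fun z => w z * (gradSq f z / k ^ 2) ^ 2)
          ≤ b ^ 4 * (surfAvg D (fun z => w z * f z ^ 4)
          + ε * surfAvg D (fun z => f z ^ 4)) := by
        linarith [h.2]
      exact le_of_mul_le_mul_left h' hb4
  · intro k _
    unfold surfAvg gradSq
    simp
  · intro φ' m' u L h4
    filter_upwards [L.grad_lower hDm hD hK hw hw0 hwi hε, L.grad_upper hDm hD hK hw hw0 hwi hε]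
      with n h1 h2 _
    rw [h4, mul_one]
    exact ⟨h1, h2⟩

end

end QE
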