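import Pool.Agent.Lib_helper67.QE.HypTransport

/-!
Equivariance of the weak limits of the products of jets on the hyperbolic plane under Möbius
transformations which leave the eigenfunctions invariant, and the family of all the limits.
-/

open MeasureTheory Filter Topology Complex
open UpperHalfPlane hiding I
open scoped ContDiff MatrixGroups

namespace QE

noncomputable section

namespace Mob

variable (γ : SL(2, ℝ))

/-- `y γ' = (y ∘ γ) γ' / |γ'|` -/
theorem aH_mob {z : ℂ} (hz : z ∈ UH) : aH z * (1 / den γ z ^ 2) = aH (mob γ z) * phase γ z := by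
  unfold aH
  rw [mob_im_coe γ hz, deriv_eq_phase γ hz]
  ring

/-- the Jacobian determinant -/
theorem det_fderiv (d : ℂ) :
    ((ContinuousLinearMap.toSpanSingleton ℂ d).restrictScalars ℝ : ℂ →L[ℝ] ℂ).det = ‖d‖ ^ 2 := by
  simp [ContinuousLinearMap.det, LinearMap.det_restrictScalars, Algebra.norm_complex_eq,
    Complex.normSq_eq_norm_sq]

theorem hasFDerivWithinAt {K : Set ℂ} (hKU : K ⊆ UH) : ∀ z ∈ K, HasFDerivWithinAt (mob γ)
    ((ContinuousLinearMap.toSpanSingleton ℂ (1 / den γ z ^ 2)).restrictScalars ℝ) K z :=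
  fun _ hz => ((hasDerivAt_mob γ (hKU hz)).hasFDerivAt.restrictScalars ℝ).hasFDerivWithinAt

/-- change of variables on compact sets -/
theorem int_image {K : Set ℂ} (hK : IsCompact K) (hKU : K ⊆ UH) (f : ℂ → ℂ) :
    ∫ w in mob γ '' K, f w = ∫ z in K, ((1 / ‖den γ z‖ ^ 4 : ℝ) : ℂ) * f (mob γ z) := by
  rw [integral_image_eq_integral_abs_det_fderiv_smul volume hK.measurableSet
    (hasFDerivWithinAt γ hKU) ((mob_injOn γ).mono hKU)]
  refine setIntegral_congr_fun hK.measurableSet fun z hz => ?_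
  rw [det_fderiv, norm_div, norm_one, norm_pow, Complex.real_smul, abs_of_nonneg (by positivity)]
  congr 2
  rw [div_pow, one_pow, ← pow_mul]

theorem integrable_comp {v : ℂ → ℂ} (hv : LocL2 UH v) {K : Set ℂ} (hK : IsCompact K)
    (hKU : K ⊆ UH) : IntegrableOn (fun z => v (mob γ z)) K := by
  have hK' : IsCompact (mob γ '' K) := hK.image_of_continuousOn ((continuousOn_mob γ).mono hKU)
  have hi : IntegrableOn v (mob γ '' K) := hv.intOn hK' (by
    rintro _ ⟨z, _, rfl⟩; exact mob_mem γ z)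
  rw [integrableOn_image_iff_integrableOn_abs_det_fderiv_smul volume hK.measurableSet
    (hasFDerivWithinAt γ hKU) ((mob_injOn γ).mono hKU)] at hi
  have hc : ContinuousOn (fun z => (‖den γ z‖ ^ 4 : ℝ)) K :=
    ((contDiff_den γ).continuous.norm.pow 4).continuousOn
  have h2 := hi.continuousOn_smul hc hK
  refine h2.congr_fun (fun z hz => ?_) hK.measurableSet
  have hd := den_ne_zero γ (hKU hz)
  beta_reduce
  rw [det_fderiv, norm_div, norm_one, norm_pow, abs_of_nonneg (by positivity), smul_smul]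
  have h3 : ‖den γ z‖ ^ 4 * (1 / ‖den γ z‖ ^ 2) ^ 2 = 1 := by
    have : ‖den γ z‖ ≠ 0 := norm_ne_zero_iff.2 hd
    field_simp
  rw [h3, one_smul]

/-- transposition of the composition with a Möbius transformation -/
theorem transpose {θ : ℂ → ℂ} (hθ : Test UH θ) : ∃ K' : Set ℂ, IsCompact K' ∧ K' ⊆ UH ∧
    ∃ ρ : ℂ → ℂ, MemLp ρ 2 ((volume : Measure ℂ).restrict K') ∧
      ∀ F : ℂ → ℂ, ∫ z, θ z * F (mob γ z) = ∫ z in K', ρ z * F z := by
  have hK : IsCompact (tsupport θ) := hθ.supp
  have hK' : IsCompact (mob γ '' tsupport θ) :=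
    hK.image_of_continuousOn ((continuousOn_mob γ).mono hθ.sub)
  have hKU' : mob γ '' tsupport θ ⊆ UH := by
    rintro _ ⟨z, _, rfl⟩; exact mob_mem γ z
  refine ⟨mob γ '' tsupport θ, hK', hKU',
    fun w => θ (mob γ⁻¹ w) * ((‖den γ (mob γ⁻¹ w)‖ ^ 4 : ℝ) : ℂ), ?_, fun F => ?_⟩
  · have hc : ContinuousOn (fun w => θ (mob γ⁻¹ w) * ((‖den γ (mob γ⁻¹ w)‖ ^ 4 : ℝ) : ℂ))
        (mob γ '' tsupport θ) := by
      have h1 : ContinuousOn (mob γ⁻¹) UH := continuousOn_mob γ⁻¹
      have h2 : Continuous (fun z => θ z * ((‖den γ z‖ ^ 4 : ℝ) : ℂ)) :=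
        hθ.smooth.continuous.mul (continuous_ofReal.comp ((contDiff_den γ).continuous.norm.pow 4))
      exact (h2.comp_continuousOn h1).mono hKU'
    have hf : IsFiniteMeasure ((volume : Measure ℂ).restrict (mob γ '' tsupport θ)) :=
      ⟨by rw [Measure.restrict_apply_univ]; exact hK'.measure_lt_top⟩
    obtain ⟨B, hB⟩ := hK'.exists_bound_of_continuousOn hc
    refine MemLp.of_bound (hc.aestronglyMeasurable hK'.measurableSet) B ?_
    rw [ae_restrict_iff' hK'.measurableSet]
    exact Eventually.of_forall hB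
  · rw [int_image γ hK hθ.sub, ← hθ.setIntegral]
    refine setIntegral_congr_fun hK.measurableSet fun z hz => ?_
    have hd := den_ne_zero γ (hθ.sub hz)
    beta_reduce
    rw [mob_inv_mob γ (hθ.sub hz)]
    have h3 : ((1 / ‖den γ z‖ ^ 4 : ℝ) : ℂ) * ((‖den γ z‖ ^ 4 : ℝ) : ℂ) = 1 := by
      rw [← ofReal_mul]
      have : ‖den γ z‖ ≠ 0 := norm_ne_zero_iff.2 hd
      have h4 : 1 / ‖den γ z‖ ^ 4 * ‖den γ z‖ ^ 4 = 1 := by field_simp
      rw [h4, ofReal_one]
    linear_combination (-(θ z * F (mob γ z))) * h3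

end Mob

/-! ### equivariance of the jets -/

variable {h : ℕ → ℝ} {φ : ℕ → ℂ → ℂ}

theorem jet_equiv (S : Setup UH gH aH h φ) (γ : SL(2, ℝ))
    (hg : ∀ n, ∀ z ∈ UH, φ n (mob γ z) = φ n z) (m : ℕ) :
    ∃ w : ℕ → ℂ → ℂ, Tame UH h w ∧ ∀ n, ∀ z ∈ UH,
      jet h aH φ m n z = phase γ z ^ m * jet h aH φ m n (mob γ z) + (h n : ℂ) * w n z := by
  have hU := isOpen_UH
  have hh := S.hlim
  induction m with
  | zero =>
    refine ⟨_, Tame.zero hU, fun n z hz => ?_⟩
    show φ n z = _ * φ n (mob γ z) + _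
    rw [hg n z hz]; ring
  | succ m ih =>
    obtain ⟨w, hw, he⟩ := ih
    have hj := fun m => S.tame_jet m
    have hph := contDiffOn_phase γ
    have hphi : ContDiffOn ℝ ∞ (fun z => (phase γ z)⁻¹ ^ m) UH :=
      (hph.inv fun z hz => phase_ne_zero γ hz).pow m
    -- the composition is tame
    have hG : Tame UH h (fun n z => jet h aH φ m n (mob γ z)) := by
      have t1 := (((hw.const_mul hU (c := fun n => (h n : ℂ)) (B := 1) (hbd hh)).smul hU (-1)))
      refine (((hj m).add hU t1).fn_mul hU hh hphi).congr hU fun n z hz => ?_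
      rw [he n z hz]
      have h1 : (phase γ z)⁻¹ ^ m * phase γ z ^ m = 1 := by
        rw [← mul_pow, inv_mul_cancel₀ (phase_ne_zero γ hz), one_pow]
      linear_combination (jet h aH φ m n (mob γ z)) * h1
    have hpm : ContDiffOn ℝ ∞ (fun z => phase γ z ^ m) UH := hph.pow m
    have hb : ContDiffOn ℝ ∞ (fun z => aH z * dz (fun z => phase γ z ^ m) z) UH :=
      contDiff_aH.contDiffOn.mul (contDiffOn_dz hU hpm)
    refine ⟨_, ((hG.fn_mul hU hh hb).smul hU (-(2 * I))).add hU (hw.LL hU hh S.ha),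
      fun n z hz => ?_⟩
    have e0 : jet h aH φ (m + 1) n z = -(2 * I * h n) * aH z * dz (jet h aH φ m n) z := rfl
    have e0' : jet h aH φ (m + 1) n (mob γ z)
        = -(2 * I * h n) * aH (mob γ z) * dz (jet h aH φ m n) (mob γ z) := rfl
    have e1 : LL h aH w n z = -(2 * I * h n) * aH z * dz (w n) z := rfl
    have d1 : DifferentiableAt ℝ (fun z => phase γ z ^ m) z :=
      (hpm.contDiffAt (hU.mem_nhds hz)).differentiableAt (by simp)
    have d2 := hG.smooth.dAt hU n hz
    have d3 := hw.smooth.dAt hU n hz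
    have d4 := (hj m).smooth.dAt hU n (mob_mem γ z)
    rw [e0, e0', e1, dz_congr_on hU (he n) hz, dz_add (d1.fun_mul d2) (d3.const_mul _),
      dz_mul d1 d2, dz_const_mul _ d3, dz_comp_mob γ hz d4]
    have h2 := Mob.aH_mob γ hz
    linear_combination (-(2 * I * h n) * phase γ z ^ m * dz (jet h aH φ m n) (mob γ z)) * h2

theorem E_equiv (S : Setup UH gH aH h φ) (γ : SL(2, ℝ))
    (hg : ∀ n, ∀ z ∈ UH, φ n (mob γ z) = φ n z) (k : ℤ) :
    ∃ w : ℕ → ℂ → ℂ, Tame UH h w ∧ ∀ n, ∀ z ∈ UH,
      E h aH φ k n z = phase γ z ^ k * E h aH φ k n (mob γ z) + (h n : ℂ) * w n z := by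
  have hU := isOpen_UH
  cases k with
  | ofNat m =>
    obtain ⟨w, hw, he⟩ := jet_equiv S γ hg m
    refine ⟨w, hw, fun n z hz => ?_⟩
    have := he n z hz
    rw [Int.ofNat_eq_natCast, zpow_natCast]
    exact this
  | negSucc m =>
    obtain ⟨w, hw, he⟩ := jet_equiv S γ hg (m + 1)
    refine ⟨_, (hw.conj hU).smul hU ((-1) ^ (m + 1)), fun n z hz => ?_⟩
    show (-1) ^ (m + 1) * (starRingEnd ℂ) (jet h aH φ (m + 1) n z)
      = phase γ z ^ (Int.negSucc m) * ((-1) ^ (m + 1)
        * (starRingEnd ℂ) (jet h aH φ (m + 1) n (mob γ z))) + _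
    rw [he n z hz, map_add, map_mul, map_mul, map_pow, conj_phase γ hz, conj_ofReal,
      zpow_negSucc, inv_pow]
    ring

/-- **Equivariance of the weak limits.** -/
theorem limit_equiv (S : Setup UH gH aH h φ) {k : ℤ} {v : ℂ → ℂ} (hv : LocL2 UH v)
    (hw : WLim UH (fun n z => E h aH φ 0 n z * E h aH φ k n z) v) (γ : SL(2, ℝ))
    (hg : ∀ n, ∀ z ∈ UH, φ n (mob γ z) = φ n z) :
    ∀ᵐ z ∂((volume : Measure ℂ).restrict UH), v z = phase γ z ^ k * v (mob γ z) := by
  have hU := isOpen_UH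
  obtain ⟨w, hwt, he⟩ := E_equiv S γ hg k
  have hph : ContDiffOn ℝ ∞ (fun z => phase γ z ^ k) UH := by
    cases k with
    | ofNat m =>
      have := (contDiffOn_phase γ).pow m
      simpa only [Int.ofNat_eq_natCast, zpow_natCast] using this
    | negSucc m =>
      have h1 : ContDiffOn ℝ ∞ (fun z => (phase γ z ^ (m + 1))⁻¹) UH :=
        ((contDiffOn_phase γ).pow (m + 1)).inv fun z hz =>
        pow_ne_zero _ (phase_ne_zero γ hz)
      exact h1.congr fun z _ => zpow_negSucc _ _
  have hint : ∀ {θ : ℂ → ℂ}, Test UH θ → Integrable (fun z => θ z * v (mob γ z)) := by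
    intro θ hθ
    exact hθ.int_of_intOn (Mob.integrable_comp γ hv hθ.supp hθ.sub)
  -- the integrals against test functions
  have key : ∀ {ζ : ℂ → ℂ}, Test UH ζ →
      ∫ z, ζ z * v z = ∫ z, ζ z * phase γ z ^ k * v (mob γ z) := by
    intro ζ hζ
    have hθ : Test UH (fun z => ζ z * phase γ z ^ k) := hζ.mul hU hph
    obtain ⟨K', hK', hKU', ρ, hρ, hT⟩ := Mob.transpose γ hθ
    have L1 := hw.test hζ
    have L2 := hw K' hK' hKU' ρ hρ
    have L3 := tendsto_h_int S.hlim (S.tame_E 0) hwt hζ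
    have L4 := L2.add L3
    rw [← hT, add_zero] at L4
    refine tendsto_nhds_unique L1 (L4.congr fun n => ?_)
    rw [← hT (fun z => E h aH φ 0 n z * E h aH φ k n z), ← integral_const_mul]
    have i1 : Integrable (fun z => ζ z * phase γ z ^ k
        * (E h aH φ 0 n (mob γ z) * E h aH φ k n (mob γ z))) := by
      have hc : ContinuousOn (fun z => E h aH φ 0 n (mob γ z) * E h aH φ k n (mob γ z)) UH :=
        (S.smooth_EE 0 k n).continuousOn.comp (continuousOn_mob γ) fun z _ => mob_mem γ z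
      exact hθ.integrable_mul hU hc
    have i2 : Integrable (fun z => (h n : ℂ) * (ζ z * (E h aH φ 0 n z * w n z))) :=
      (hζ.int hU (((S.tame_E 0).smooth.mul hwt.smooth) n)).const_mul _
    rw [← integral_add i1 i2]
    refine integral_congr_ae (Eventually.of_forall fun z => ?_)
    beta_reduce
    by_cases hz : z ∈ UH
    · have e0 : E h aH φ 0 n (mob γ z) = E h aH φ 0 n z := hg n z hz
      rw [e0, he n z hz]
      ring
    · have h0 : ζ z = 0 := image_eq_zero_of_notMem_tsupport fun hh => hz (hζ.sub hh)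
      rw [h0]; ring
  have hloc : LocallyIntegrableOn (fun z => v z - phase γ z ^ k * v (mob γ z)) UH := by
    rw [locallyIntegrableOn_iff hU.isLocallyClosed]
    intro K hKU hK
    have h1 : IntegrableOn v K := hv.intOn hK hKU
    have h2 := (Mob.integrable_comp γ hv hK hKU).continuousOn_mul
      (hph.continuousOn.mono hKU) hK
    exact h1.sub h2
  have hae := hU.ae_eq_zero_of_integral_contDiff_smul_eq_zero (μ := volume) hloc
    fun g hg1 hg2 hg3 => by
      have hζ : Test UH (fun z => (g z : ℂ)) := by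
        refine ⟨ofRealCLM.contDiff.comp hg1, hg2.comp_left ofReal_zero, ?_⟩
        refine (closure_mono ?_).trans hg3
        intro z hz
        simp only [Function.mem_support] at hz ⊢
        intro h0; exact hz (by rw [h0, ofReal_zero])
      have h1 := key hζ
      have h2 : Integrable (fun z => (g z : ℂ) * v z) := hζ.int_LocL2 hv
      have h3 : Integrable (fun z => (g z : ℂ) * phase γ z ^ k * v (mob γ z)) :=
        hint (hζ.mul hU hph)
      have h4 := integral_sub h2 h3
      rw [h1, sub_self] at h4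
      rw [← h4]
      refine integral_congr_ae (Eventually.of_forall fun z => ?_)
      beta_reduce
      rw [Complex.real_smul]
      ring
  rw [ae_restrict_iff' hU.measurableSet]
  filter_upwards [hae] with z hz hzU
  exact sub_eq_zero.1 (hz hzU)

/-- The weak limits of the products of two jets of `Γ`-invariant eigenfunctions satisfy all the
properties of `LimFam`. -/
theorem limFam_of_limits {Γ : Subgroup SL(2, ℝ)} (S : Setup UH gH aH h φ) {u : ℤ → ℂ → ℂ}
    (hum : ∀ k, Measurable (u k)) (hu : ∀ k, LocL2 UH (u k)) (hw : JLim UH h aH φ u)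
    (hg : ∀ γ ∈ Γ, ∀ n, ∀ z ∈ UH, φ n (mob γ z) = φ n z) : LimFam Γ u where
  meas := hum
  loc := hu
  real := S.lim_real hu hw
  bound := S.lim_bound hu hw
  conj := S.lim_conj hu hw
  odd := S.lim_odd hu hw
  pos := fun N w hw1 => S.lim_pos hu hw N w hw1
  equiv := fun γ hγ k => limit_equiv S (hu k) (S.lim_zero hu hw k) γ (hg γ hγ)
  transport := fun k _ hζ => S.limit_transport hu hw k hζ

end

end QE
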