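import Pool.Agent.Lib_helper67.QE.HypSurf

/-!
One test function computes the integrals over the fundamental domain of all integrable invariant
functions; averages and their linearity.
-/

open UpperHalfPlane MeasureTheory ProbabilityTheory MatrixGroups Filter Topology Set Berry
open scoped ENNReal NNReal ContDiff

namespace QE

noncomputable section

/-- almost everywhere on the hyperbolic plane, and on the upper half plane -/
lemma ae_UH {P : ℂ → Prop} (h : ∀ᵐ z : ℍ, P (z : ℂ)) :
    ∀ᵐ z ∂((volume : Measure ℂ).restrict UH), P z := by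
  obtain ⟨N, hN, hNm, hN0⟩ := exists_measurable_superset_of_null (ae_iff.1 h)
  rw [volume_eq_lintegral] at hN0
  have hm : MeasurableSet (UpperHalfPlane.coe '' N) :=
    measurableEmbedding_coe.measurableSet_image.2 hNm
  have hc : Measurable fun z : ℂ => (((1 / ‖z.im‖₊) ^ 2 : ℝ≥0) : ℝ≥0∞) := by
    refine Measurable.coe_nnreal_ennreal ?_
    exact (measurable_const.div (Complex.measurable_im.nnnorm)).pow_const 2
  rw [lintegral_eq_zero_iff hc] at hN0
  have h1 : (volume : Measure ℂ) (UpperHalfPlane.coe '' N) = 0 := by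
    have h2 := (ae_restrict_iff' hm).1 hN0
    rw [← nonpos_iff_eq_zero, ← ae_iff.1 h2]
    refine measure_mono ?_
    rintro _ ⟨z, hz, rfl⟩ hcon
    have h3 := hcon ⟨z, hz, rfl⟩
    have him : (0 : ℝ) < (z : ℂ).im := z.im_pos
    simp only [Pi.zero_apply, ENNReal.coe_eq_zero] at h3
    have h4 : (‖(z : ℂ).im‖₊ : ℝ≥0) ≠ 0 := by
      rw [nnnorm_ne_zero_iff]; exact him.ne'
    have h5 : ((1 / ‖(z : ℂ).im‖₊) ^ 2 : ℝ≥0) ≠ 0 := by positivity
    exact h5 h3
  rw [ae_iff, Measure.restrict_apply' isOpen_UH.measurableSet]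
  refine measure_mono_null ?_ h1
  rintro z ⟨hz, hzU⟩
  refine ⟨⟨z, hzU⟩, hN ?_, rfl⟩
  exact hz
namespace Surf

variable {Γ : Subgroup SL(2, ℝ)} {D : Set ℍ}

/-- one test function on the upper half plane computes the integrals over `D` of all integrable
invariant functions -/
lemma exists_test_int [Countable Γ] (hD : IsFundamentalDomain Γ D (volume : Measure ℍ))
    (hK : ∃ K : Set ℍ, IsCompact K ∧ ∀ z, ∃ γ ∈ Γ, γ • z ∈ K) :
    ∃ ζ : ℂ → ℝ, Continuous ζ ∧ HasCompactSupport ζ ∧ tsupport ζ ⊆ {w | 0 < w.im} ∧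
      (∀ w, 0 ≤ ζ w) ∧ ∀ f : ℍ → ℝ, Measurable f → IntegrableOn f D (volume : Measure ℍ) →
        (∀ γ ∈ Γ, ∀ z, f (γ • z) = f z) →
        Integrable (fun w => ζ w * f (ofComplex w)) ∧
        ∫ w, ζ w * f (ofComplex w) = ∫ z in D, f z := by
  obtain ⟨ζ, h1, h2, h3, h4, h5⟩ := exists_test_gen hD hK
  refine ⟨ζ, h1, h2, h3, h4, fun f hf hfi hinv => ?_⟩
  have hoc : Measurable (ofComplex : ℂ → ℍ) := measurable_ofComplex
  -- nonnegative functions
  have key : ∀ g : ℍ → ℝ, Measurable g → IntegrableOn g D (volume : Measure ℍ) → (∀ z, 0 ≤ g z) →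
      (∀ γ ∈ Γ, ∀ z, g (γ • z) = g z) → Integrable (fun w => ζ w * g (ofComplex w)) ∧
        ∫ w, ζ w * g (ofComplex w) = ∫ z in D, g z := by
    intro g hg hgi hg0 hginv
    have e0 : ∫⁻ w, ENNReal.ofReal (ζ w * g (ofComplex w)) = ∫⁻ z in D, ENNReal.ofReal (g z) := by
      rw [← h5 (fun z => ENNReal.ofReal (g z)) (ENNReal.measurable_ofReal.comp hg)
        (fun γ hγ z => by rw [hginv γ hγ z])]
      refine lintegral_congr fun w => ?_
      rw [ENNReal.ofReal_mul (h4 w)]
    have hm : AEStronglyMeasurable (fun w => ζ w * g (ofComplex w)) (volume : Measure ℂ) :=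
      (h1.measurable.mul (hg.comp hoc)).aestronglyMeasurable
    have hnn : ∀ w, 0 ≤ ζ w * g (ofComplex w) := fun w => mul_nonneg (h4 w) (hg0 _)
    constructor
    · refine ⟨hm, ?_⟩
      rw [hasFiniteIntegral_iff_ofReal (Eventually.of_forall hnn), e0]
      have := hgi.2
      rwa [hasFiniteIntegral_iff_ofReal (Eventually.of_forall hg0)] at this
    · rw [integral_eq_lintegral_of_nonneg_ae (Eventually.of_forall hnn) hm,
        integral_eq_lintegral_of_nonneg_ae (Eventually.of_forall fun z => hg0 z)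
          hg.aestronglyMeasurable, e0]
  obtain ⟨a1, a2⟩ := key (fun z => max (f z) 0) (hf.max measurable_const) hfi.pos_part
    (fun z => le_max_right _ _) (fun γ hγ z => by simp only [hinv γ hγ z])
  obtain ⟨b1, b2⟩ := key (fun z => max (-f z) 0) (hf.neg.max measurable_const) hfi.neg_part
    (fun z => le_max_right _ _) (fun γ hγ z => by simp only [hinv γ hγ z])
  have e : ∀ z, f z = max (f z) 0 - max (-f z) 0 := by
    intro z
    rcases le_total 0 (f z) with h | h
    · rw [max_eq_left h, max_eq_right (by linarith)]; ring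
    · rw [max_eq_right h, max_eq_left (by linarith)]; ring
  have e1 : (fun w => ζ w * f (ofComplex w)) = fun w => ζ w * max (f (ofComplex w)) 0
      - ζ w * max (-f (ofComplex w)) 0 := by
    funext w
    conv_lhs => rw [e (ofComplex w)]
    ring
  refine ⟨by rw [e1]; exact a1.sub b1, ?_⟩
  rw [e1, integral_sub a1 b1, a2, b2, ← integral_sub hfi.pos_part hfi.neg_part]
  exact integral_congr_ae (Eventually.of_forall fun z => (e z).symm)

/-- averages -/
lemma surfAvg_add {f g : ℍ → ℝ} (hf : IntegrableOn f D (volume : Measure ℍ))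
    (hg : IntegrableOn g D (volume : Measure ℍ)) :
    surfAvg D (fun z => f z + g z) = surfAvg D f + surfAvg D g := by
  rw [surfAvg_eq, surfAvg_eq, surfAvg_eq, integral_add hf hg, mul_add]

lemma surfAvg_sub {f g : ℍ → ℝ} (hf : IntegrableOn f D (volume : Measure ℍ))
    (hg : IntegrableOn g D (volume : Measure ℍ)) :
    surfAvg D (fun z => f z - g z) = surfAvg D f - surfAvg D g := by
  rw [surfAvg_eq, surfAvg_eq, surfAvg_eq, integral_sub hf hg, mul_sub]

lemma surfAvg_const_mul (c : ℝ) (f : ℍ → ℝ) :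
    surfAvg D (fun z => c * f z) = c * surfAvg D f := by
  rw [surfAvg_eq, surfAvg_eq, integral_const_mul]; ring

lemma surfAvg_nonneg {f : ℍ → ℝ} (hf : ∀ z, 0 ≤ f z) : 0 ≤ surfAvg D f :=
  integral_nonneg hf

lemma surfAvg_one [Countable Γ] (hD : IsFundamentalDomain Γ D (volume : Measure ℍ))
    (hK : ∃ K : Set ℍ, IsCompact K ∧ ∀ z, ∃ γ ∈ Γ, γ • z ∈ K) :
    surfAvg D (fun _ => 1) = 1 := by
  have := vol_pos hD hK
  rw [surfAvg_eq, setIntegral_const, smul_eq_mul, mul_one]
  exact inv_mul_cancel₀ this.ne'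

end Surf

end

end QE
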