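import Pool.Agent.Lib_helper67.QE.HypSurf
import Pool.Agent.Lib_helper67.QE.Localize

/-!
From local statements, for smooth test functions, to continuous test functions and to the surface:
third moments and lower bounds (helper70).
-/

open UpperHalfPlane MeasureTheory ProbabilityTheory MatrixGroups Filter Topology Set Berry
open scoped ENNReal NNReal ContDiff

namespace QE

noncomputable section

/-- smooth approximation from below, with support in the support -/
theorem exists_smooth_below {ξ : ℂ → ℝ} (hc : Continuous ξ) (hs : HasCompactSupport ξ)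
    (h0 : ∀ z, 0 ≤ ξ z) {δ : ℝ} (hδ : 0 < δ) :
    ∃ ψ : ℂ → ℝ, ContDiff ℝ ∞ ψ ∧ HasCompactSupport ψ ∧ tsupport ψ ⊆ tsupport ξ ∧
      (∀ z, 0 ≤ ψ z) ∧ (∀ z, ψ z ≤ ξ z) ∧ ∀ z, ξ z ≤ ψ z + 3 * δ := by
  obtain ⟨ψ, hψs, hψ1, hψ2⟩ := exists_smooth_between hc hδ
  have hψ0 : ∀ z, 0 ≤ ψ z := fun z => (le_max_right _ _).trans (hψ1 z)
  have hψξ : ∀ z, ψ z ≤ ξ z := fun z => (hψ2 z).trans (max_le (by linarith) (h0 z))
  have hts : tsupport ψ ⊆ tsupport ξ := by
    refine closure_mono fun z hz => ?_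
    rw [Function.mem_support] at hz ⊢
    intro h1
    apply hz
    have h2 := hψξ z
    rw [h1] at h2
    exact le_antisymm h2 (hψ0 z)
  refine ⟨ψ, hψs, hs.of_isClosed_subset (isClosed_tsupport _) hts, hts, hψ0, hψξ, fun z => ?_⟩
  have := (le_max_left (ξ z - 3 * δ) 0).trans (hψ1 z)
  linarith

/-- **lower bounds for continuous test functions** -/
theorem cont_lower {U : Set ℂ} (hU : IsOpen U) {F : ℕ → ℂ → ℝ} (hFc : ∀ n, ContinuousOn (F n) U)
    (hF0 : ∀ n z, 0 ≤ F n z) {p2 : ℂ → ℝ} (hp0 : ∀ z, 0 ≤ p2 z)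
    (hpi : ∀ K : Set ℂ, IsCompact K → K ⊆ U → IntegrableOn p2 K)
    (H : ∀ ζ : ℂ → ℝ, ContDiff ℝ ∞ ζ → HasCompactSupport ζ → tsupport ζ ⊆ U → (∀ z, 0 ≤ ζ z) →
      ∀ ε > 0, ∀ᶠ n in atTop, 3 * (∫ z, ζ z * p2 z) - ε ≤ ∫ z, ζ z * F n z)
    {ζ : ℂ → ℝ} (hc : Continuous ζ) (hs : HasCompactSupport ζ) (hsub : tsupport ζ ⊆ U)
    (h0 : ∀ z, 0 ≤ ζ z) {ε : ℝ} (hε : 0 < ε) :
    ∀ᶠ n in atTop, 3 * (∫ z, ζ z * p2 z) - ε ≤ ∫ z, ζ z * F n z := by
  have hK : IsCompact (tsupport ζ) := hs
  have hmeas : MeasurableSet (tsupport ζ) := (isClosed_tsupport ζ).measurableSet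
  set B : ℝ := ∫ z in tsupport ζ, p2 z with hB
  have hB0 : 0 ≤ B := integral_nonneg hp0
  set δ : ℝ := ε / (18 * (B + 1)) with hδdef
  have hδ : 0 < δ := by positivity
  have hδB : 9 * (δ * B) ≤ ε / 2 := by
    have e : 9 * (δ * B) = ε / 2 * (B / (B + 1)) := by
      rw [hδdef]; field_simp; ring
    have h1 : B / (B + 1) ≤ 1 := (div_le_one (by positivity)).mpr (by linarith)
    rw [e]
    nlinarith
  obtain ⟨ψ, hψs, hψc, hts, hψ0, hψ1, hψ2⟩ := exists_smooth_below hc hs h0 hδ
  -- products with `p2`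
  have hip : ∀ χ : ℂ → ℝ, Continuous χ → tsupport χ ⊆ tsupport ζ →
      Integrable (fun z => χ z * p2 z) := by
    intro χ hχ hχs
    have hcomp : HasCompactSupport χ := hs.of_isClosed_subset (isClosed_tsupport _) hχs
    obtain ⟨M, hM⟩ := hχ.bounded_above_of_compact_support hcomp
    have h1 : IntegrableOn (fun z => χ z * p2 z) (tsupport ζ) :=
      Integrable.bdd_mul (hpi _ hK hsub) hχ.aestronglyMeasurable.restrict
        (Filter.Eventually.of_forall hM)
    rwa [integrableOn_iff_integrable_of_support_subset] at h1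
    intro z hz
    by_contra hcon
    exact hz (by
      show χ z * p2 z = 0
      rw [image_eq_zero_of_notMem_tsupport fun hh => hcon (hχs hh), zero_mul])
  have hle : 3 * (∫ z, ζ z * p2 z) - ε / 2 ≤ 3 * ∫ z, ψ z * p2 z := by
    have hind : Integrable ((tsupport ζ).indicator fun z => 3 * δ * p2 z) :=
      (integrable_indicator_iff hmeas).mpr ((hpi _ hK hsub).const_mul _)
    have h1 : ∫ z, ζ z * p2 z
        ≤ ∫ z, (ψ z * p2 z + (tsupport ζ).indicator (fun z => 3 * δ * p2 z) z) := by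
      refine integral_mono (hip ζ hc subset_rfl) ((hip ψ hψs.continuous hts).add hind) fun z => ?_
      show ζ z * p2 z ≤ ψ z * p2 z + (tsupport ζ).indicator (fun z => 3 * δ * p2 z) z
      by_cases hz : z ∈ tsupport ζ
      · rw [Set.indicator_of_mem hz]
        nlinarith [hψ2 z, hp0 z]
      · rw [Set.indicator_of_notMem hz, image_eq_zero_of_notMem_tsupport hz]
        nlinarith [hψ0 z, hp0 z, mul_nonneg (hψ0 z) (hp0 z)]
    rw [integral_add (hip ψ hψs.continuous hts) hind, integral_indicator hmeas,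
      integral_const_mul] at h1
    nlinarith
  filter_upwards [H ψ hψs hψc (hts.trans hsub) hψ0 (ε / 2) (by positivity)] with n hn
  have h3 : ∫ z, ψ z * F n z ≤ ∫ z, ζ z * F n z := by
    refine integral_mono (integrable_mul_of_tsupport hU hψs.continuous hψc (hts.trans hsub)
      (hFc n)) (integrable_mul_of_tsupport hU hc hs hsub (hFc n)) fun z => ?_
    exact mul_le_mul_of_nonneg_right (hψ1 z) (hF0 n z)
  linarith

/-- **third moments for continuous test functions** -/
theorem cont_third {U : Set ℂ} (hU : IsOpen U) {φ : ℕ → ℂ → ℝ} (hφc : ∀ n, ContinuousOn (φ n) U)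
    (hb : LBdd 4 U (fun n z => (φ n z : ℂ)))
    (h3 : ∀ ζ, Test U ζ → Tendsto (fun n => ∫ z, ζ z * (φ n z : ℂ) ^ 3) atTop (𝓝 0))
    {ξ : ℂ → ℝ} (hc : Continuous ξ) (hs : HasCompactSupport ξ) (hsub : tsupport ξ ⊆ U)
    (h0 : ∀ z, 0 ≤ ξ z) : Tendsto (fun n => ∫ z, ξ z * φ n z ^ 3) atTop (𝓝 0) := by
  have hK : IsCompact (tsupport ξ) := hs
  have hmeas : MeasurableSet (tsupport ξ) := (isClosed_tsupport ξ).measurableSet
  obtain ⟨C, hC⟩ := hb _ hK hsub
  have hC0 : 0 ≤ C := by
    obtain ⟨n, hn⟩ := hC.exists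
    exact (integral_nonneg fun z => by positivity).trans hn
  set W : ℝ := (volume : Measure ℂ).real (tsupport ξ) with hW
  have hW0 : 0 ≤ W := measureReal_nonneg
  rw [Metric.tendsto_atTop]
  intro ε hε
  set δ : ℝ := ε / (6 * (W + C + 1)) with hδdef
  have hδ : 0 < δ := by positivity
  have hδB : 3 * δ * (W + C) ≤ ε / 2 := by
    have e : 3 * δ * (W + C) = ε / 2 * ((W + C) / (W + C + 1)) := by
      rw [hδdef]; field_simp; ring
    have h1 : (W + C) / (W + C + 1) ≤ 1 := (div_le_one (by positivity)).mpr (by linarith)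
    rw [e]
    nlinarith
  obtain ⟨ψ, hψs, hψc, hts, hψ0, hψ1, hψ2⟩ := exists_smooth_below hc hs h0 hδ
  have hT : Test U (fun z => (ψ z : ℂ)) := by
    have hts' : tsupport (fun z => (ψ z : ℂ)) = tsupport ψ := by
      unfold tsupport
      congr 1
      ext z
      simp
    exact ⟨Complex.ofRealCLM.contDiff.comp hψs, by unfold HasCompactSupport; rw [hts']; exact hψc,
      by rw [hts']; exact hts.trans hsub⟩
  have hlim := (Metric.tendsto_atTop.1 (h3 _ hT)) (ε / 2) (by positivity)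
  obtain ⟨N₁, hN₁⟩ := hlim
  obtain ⟨N₂, hN₂⟩ := eventually_atTop.1 hC
  refine ⟨max N₁ N₂, fun n hn => ?_⟩
  have k1 := hN₁ n ((le_max_left _ _).trans hn)
  have k2 := hN₂ n ((le_max_right _ _).trans hn)
  rw [dist_zero_right] at k1 ⊢
  have e1 : ∫ z, (ψ z : ℂ) * (φ n z : ℂ) ^ 3 = ((∫ z, ψ z * φ n z ^ 3 : ℝ) : ℂ) := by
    have e0 : ((∫ z, ψ z * φ n z ^ 3 : ℝ) : ℂ) = ∫ z, ((ψ z * φ n z ^ 3 : ℝ) : ℂ) :=
      integral_ofReal.symm
    rw [e0]
    refine integral_congr_ae (Filter.Eventually.of_forall fun z => ?_)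
    push_cast
    ring
  rw [e1, Complex.norm_real] at k1
  have i1 : Integrable (fun z => ξ z * φ n z ^ 3) :=
    integrable_mul_of_tsupport hU hc hs hsub ((hφc n).pow 3)
  have i2 : Integrable (fun z => ψ z * φ n z ^ 3) :=
    integrable_mul_of_tsupport hU hψs.continuous hψc (hts.trans hsub) ((hφc n).pow 3)
  have k3 : ‖(∫ z, ξ z * φ n z ^ 3) - ∫ z, ψ z * φ n z ^ 3‖ ≤ 3 * δ * (W + C) := by
    rw [← integral_sub i1 i2]
    have i4 : IntegrableOn (fun z => φ n z ^ 4) (tsupport ξ) :=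
      (((hφc n).pow 4).mono hsub).integrableOn_compact hK
    have ic : IntegrableOn (fun _ : ℂ => (1 : ℝ)) (tsupport ξ) :=
      integrableOn_const hK.measure_lt_top.ne
    have i3 : IntegrableOn (fun z => 3 * δ * (1 + φ n z ^ 4)) (tsupport ξ) :=
      (ic.add i4).const_mul _
    have hind : Integrable ((tsupport ξ).indicator fun z => 3 * δ * (1 + φ n z ^ 4)) :=
      (integrable_indicator_iff hmeas).mpr i3
    refine (norm_integral_le_of_norm_le hind (Filter.Eventually.of_forall fun z => ?_)).trans ?_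
    · beta_reduce
      rw [← sub_mul, norm_mul, Real.norm_eq_abs, Real.norm_eq_abs]
      by_cases hz : z ∈ tsupport ξ
      · rw [Set.indicator_of_mem hz]
        have h5 : |ξ z - ψ z| ≤ 3 * δ := by
          rw [abs_of_nonneg (by linarith [hψ1 z])]
          linarith [hψ2 z]
        have h6 : |φ n z ^ 3| ≤ 1 + φ n z ^ 4 := by
          rw [abs_le]
          have := sq_nonneg (φ n z ^ 2 - φ n z)
          have := sq_nonneg (φ n z ^ 2 + φ n z)
          have := sq_nonneg (φ n z ^ 2)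
          constructor <;> nlinarith [sq_nonneg (φ n z ^ 2 - 1), sq_nonneg (φ n z)]
        exact mul_le_mul h5 h6 (abs_nonneg _) (by positivity)
      · rw [Set.indicator_of_notMem hz, image_eq_zero_of_notMem_tsupport hz,
          image_eq_zero_of_notMem_tsupport (f := ψ) fun hh => hz (hts hh)]
        simp
    · rw [integral_indicator hmeas, integral_const_mul]
      have e2 : ∫ z in tsupport ξ, (1 + φ n z ^ 4) = W + ∫ z in tsupport ξ, φ n z ^ 4 := by
        rw [integral_add ic i4]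
        simp [hW]
      rw [e2]
      have e3 : ∫ z in tsupport ξ, ‖(φ n z : ℂ)‖ ^ 4 = ∫ z in tsupport ξ, φ n z ^ 4 := by
        refine integral_congr_ae (Filter.Eventually.of_forall fun z => ?_)
        beta_reduce
        rw [Complex.norm_real, Real.norm_eq_abs]
        exact Even.pow_abs (by decide) _
      rw [e3] at k2
      gcongr
  have k4 : ‖∫ z, ξ z * φ n z ^ 3‖ ≤ ‖(∫ z, ξ z * φ n z ^ 3) - ∫ z, ψ z * φ n z ^ 3‖
      + ‖∫ z, ψ z * φ n z ^ 3‖ := by
    have := norm_add_le ((∫ z, ξ z * φ n z ^ 3) - ∫ z, ψ z * φ n z ^ 3) (∫ z, ψ z * φ n z ^ 3)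
    rwa [sub_add_cancel] at this
  linarith

variable {Γ : Subgroup SL(2, ℝ)} {D : Set ℍ} {φ : ℕ → ℍ → ℝ}

open Surf in
/-- **third moments on the surface** -/
theorem surf_third [Countable Γ] (hD : IsFundamentalDomain Γ D (volume : Measure ℍ))
    (hK : ∃ K : Set ℍ, IsCompact K ∧ ∀ z, ∃ γ ∈ Γ, γ • z ∈ K)
    (hc : ∀ n, Continuous (φ n)) (hinv : ∀ n, ∀ γ ∈ Γ, ∀ z, φ n (γ • z) = φ n z) {C : ℝ}
    (hC : ∀ n, surfAvg D (fun z => φ n z ^ 4) ≤ C)
    (h3 : ∀ ζ, Test UH ζ → Tendsto (fun n => ∫ z, ζ z * (φ n (ofComplex z) : ℂ) ^ 3) atTop (𝓝 0))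
    {f : ℍ → ℝ} (hf : Continuous f) (hfi : ∀ γ ∈ Γ, ∀ z, f (γ • z) = f z) :
    Tendsto (fun n => surfAvg D (fun z => f z * φ n z ^ 3)) atTop (𝓝 0) := by
  have hU : IsOpen UH := isOpen_UH
  obtain ⟨ζ, z1, z2, z3, z4, z5⟩ := exists_test_real hD hK
  have hb := bdd4_of_avg hD hK hc hinv hC
  have hco : ∀ n, ContinuousOn (fun z => φ n (ofComplex z)) UH := fun n w hw =>
    ((hc n).continuousAt.comp
      (contMDiffAt_ofComplex (n := 0) (show 0 < w.im from hw)).continuousAt).continuousWithinAt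
  -- the integrals over the fundamental domain
  have hint : ∀ (n : ℕ) (g : ℍ → ℝ), Continuous g → (∀ z, 0 ≤ g z) →
      (∀ γ ∈ Γ, ∀ z, g (γ • z) = g z) →
      ∫ w, (ζ w * g (ofComplex w)) * φ n (ofComplex w) ^ 3 = ∫ z in D, g z * φ n z ^ 3 := by
    intro n g hg hg0 hgi
    have h3c : Continuous fun z => φ n z ^ 3 := (hc n).pow 3
    have c1 : Continuous fun z => g z * max (φ n z ^ 3) 0 := hg.mul (h3c.max continuous_const)
    have c2 : Continuous fun z => g z * max (-(φ n z ^ 3)) 0 :=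
      hg.mul (h3c.neg.max continuous_const)
    have v1 : ∀ γ ∈ Γ, ∀ z, g (γ • z) * max (φ n (γ • z) ^ 3) 0 = g z * max (φ n z ^ 3) 0 :=
      fun γ hγ z => by rw [hgi γ hγ, hinv n γ hγ]
    have v2 : ∀ γ ∈ Γ, ∀ z, g (γ • z) * max (-(φ n (γ • z) ^ 3)) 0
        = g z * max (-(φ n z ^ 3)) 0 := fun γ hγ z => by rw [hgi γ hγ, hinv n γ hγ]
    have e1 := z5 (fun z => g z * max (φ n z ^ 3) 0) c1.measurable
      (fun z => mul_nonneg (hg0 z) (le_max_right _ _)) v1
    have e2 := z5 (fun z => g z * max (-(φ n z ^ 3)) 0) c2.measurable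
      (fun z => mul_nonneg (hg0 z) (le_max_right _ _)) v2
    have hmm : ∀ x : ℝ, max x 0 - max (-x) 0 = x := by
      intro x
      rcases le_total x 0 with h | h
      · rw [max_eq_right h, max_eq_left (by linarith)]; ring
      · rw [max_eq_left h, max_eq_right (by linarith)]; ring
    have e3 : ∫ z in D, g z * φ n z ^ 3
        = (∫ z in D, g z * max (φ n z ^ 3) 0) - ∫ z in D, g z * max (-(φ n z ^ 3)) 0 := by
      rw [← integral_sub (integrableOn_of_invariant hD hK c1 v1)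
        (integrableOn_of_invariant hD hK c2 v2)]
      refine integral_congr_ae (Filter.Eventually.of_forall fun z => ?_)
      beta_reduce
      rw [← mul_sub, hmm]
    have hcc : ∀ k : ℍ → ℝ, Continuous k → Integrable (fun w => ζ w * k (ofComplex w)) := by
      intro k hk
      exact (continuous_cut_mul z1 z3 hk).integrable_of_hasCompactSupport z2.mul_right
    rw [e3, ← e1, ← e2, ← integral_sub (hcc _ c1) (hcc _ c2)]
    refine integral_congr_ae (Filter.Eventually.of_forall fun w => ?_)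
    beta_reduce
    rw [← mul_sub, ← mul_sub, hmm]
    ring
  -- nonnegative functions
  have hpos : ∀ g : ℍ → ℝ, Continuous g → (∀ z, 0 ≤ g z) → (∀ γ ∈ Γ, ∀ z, g (γ • z) = g z) →
      Tendsto (fun n => surfAvg D (fun z => g z * φ n z ^ 3)) atTop (𝓝 0) := by
    intro g hg hg0 hgi
    have k := cont_third hU hco hb h3 (ξ := fun w => ζ w * g (ofComplex w))
      (continuous_cut_mul z1 z3 hg) z2.mul_right
      ((closure_mono (Function.support_mul_subset_left _ _)).trans z3)
      (fun w => mul_nonneg (z4 w) (hg0 _))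
    have k2 := k.const_mul (((volume : Measure ℍ) D).toReal⁻¹)
    rw [mul_zero] at k2
    refine k2.congr fun n => ?_
    rw [hint n g hg hg0 hgi, surfAvg_eq]
  -- general functions
  have p1 := hpos (fun z => max (f z) 0) (hf.max continuous_const) (fun z => le_max_right _ _)
    (fun γ hγ z => by rw [hfi γ hγ])
  have p2 := hpos (fun z => max (-(f z)) 0) (hf.neg.max continuous_const)
    (fun z => le_max_right _ _) (fun γ hγ z => by rw [hfi γ hγ])
  have p3 := p1.sub p2
  rw [sub_zero] at p3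
  refine p3.congr fun n => ?_
  have hmm : ∀ x : ℝ, max x 0 - max (-x) 0 = x := by
    intro x
    rcases le_total x 0 with h | h
    · rw [max_eq_right h, max_eq_left (by linarith)]; ring
    · rw [max_eq_left h, max_eq_right (by linarith)]; ring
  rw [surfAvg_eq, surfAvg_eq, surfAvg_eq, ← mul_sub]
  congr 1
  rw [← integral_sub]
  · refine integral_congr_ae (Filter.Eventually.of_forall fun z => ?_)
    beta_reduce
    rw [← sub_mul, hmm]
  · exact integrableOn_of_invariant hD hK ((hf.max continuous_const).mul ((hc n).pow 3))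
      (fun γ hγ z => by rw [hfi γ hγ, hinv n γ hγ])
  · exact integrableOn_of_invariant hD hK ((hf.neg.max continuous_const).mul ((hc n).pow 3))
      (fun γ hγ z => by rw [hfi γ hγ, hinv n γ hγ])

end

end QE
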