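import Pool.Agent.Lib_helper67.QE.VarStep2

/-!
The third order correlations vanish, when the microlocal measure has no directional atoms (helper70).
-/

open Complex MeasureTheory Filter Topology
open scoped ContDiff

namespace QE

noncomputable section

/-- **the third order correlations vanish** (algebraic part): `W` stands for the fourth order
correlations minus the Wick sums `Γ` -/
theorem alg_third_var (X W : ℕ → ℤ → ℤ → ℤ → ℤ → ℂ) (Γ : ℤ → ℤ → ℤ → ℤ → ℂ)
    (Y : ℕ → ℤ → ℤ → ℤ → ℂ) (V : ℕ → ℝ) (C : ℝ) (hC : 0 ≤ C)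
    (hW : ∀ n a b c d, X n a b c d = W n a b c d + Γ a b c d)
    (s1 : ∀ n a b c d, W n a b c d = W n b a c d)
    (s2 : ∀ n a b c d, W n a b c d = W n a c b d)
    (hmac : ∀ j m k l : ℤ,
      Tendsto (fun n => W n (j + 1) (m + 1) k l - W n j m (k + 1) (l + 1)) atTop
        (𝓝 ((P (j + 1) (m + 1) * P k l - P j m * P (k + 1) (l + 1)) * ((0 : ℝ) : ℂ))))
    (hibp : Tendsto (fun n => W n 1 0 0 (-1) + W n 0 1 0 (-1) + W n 0 0 1 (-1) + W n 0 0 0 0)
      atTop (𝓝 0))
    (t1 : ∀ n a b c, Y n a b c = Y n b a c)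
    (t2 : ∀ n a b c, Y n a b c = Y n a c b)
    (hD : ∀ a b c : ℤ, Tendsto (fun n => Y n (a + 1) b c + Y n a (b + 1) c
      + Y n a b (c + 1)) atTop (𝓝 0))
    (hDb : ∀ a b c : ℤ, Tendsto (fun n => Y n (a - 1) b c + Y n a (b - 1) c
      + Y n a b (c - 1)) atTop (𝓝 0))
    (hV : ∀ᶠ n in atTop, V n ≤ C)
    (hcs : ∀ (N n : ℕ) (w : ℕ → ℝ) (l : ℝ), 0 < l →
      ‖∑ t ∈ Finset.range N, (w t : ℂ) * Y n t (-3 - t) 3‖ ≤
        (l * V n + l⁻¹ * (-∑ t ∈ Finset.range N, ∑ u ∈ Finset.range N,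
          (w t : ℂ) * (w u : ℂ) * X n t (-3 - t) (-u) (3 + u)).re) / 2)
    (hΓ : ∀ η > 0, ∃ N₀ : ℕ, ∀ N ≥ N₀, ∀ w : ℕ → ℝ, (∀ t, |w t| ≤ 1) →
      ‖∑ t ∈ Finset.range N, ∑ u ∈ Finset.range N,
        (w t : ℂ) * (w u : ℂ) * Γ t (-3 - t) (-u) (3 + u)‖ ≤ η * (N : ℝ) ^ 2)
    (a b c : ℤ) (hs : a + b + c = 0) : Tendsto (fun n => Y n a b c) atTop (𝓝 0) := by
  have hpat := T_pattern t1 t2 hD hDb
  suffices h0 : Tendsto (fun n => Y n 0 0 0) atTop (𝓝 0) by
    refine (hpat a b c hs).tendsto_zero ?_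
    have := h0.const_mul (pat3 a b)
    rw [mul_zero] at this
    exact this
  -- the weights
  set w : ℕ → ℝ := fun t => if t % 3 = 0 then 1 else -1 / 2 with hw
  have hw1 : ∀ t, |w t| ≤ 1 := by
    intro t
    simp only [hw]
    split_ifs
    · simp
    · rw [abs_le]; constructor <;> norm_num
  have hwsum : ∀ K : ℕ, ∑ t ∈ Finset.range (3 * K), (w t : ℂ) = 0 := by
    intro K
    induction K with
    | zero => simp
    | succ K ih =>
      rw [show 3 * (K + 1) = 3 * K + 1 + 1 + 1 by ring, Finset.sum_range_succ,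
        Finset.sum_range_succ, Finset.sum_range_succ, ih]
      simp only [hw]
      rw [if_pos (by omega), if_neg (by omega), if_neg (by omega)]
      push_cast
      norm_num
  have hwY : ∀ K : ℕ, ∑ t ∈ Finset.range (3 * K), (w t : ℂ) * pat3 t (-3 - t) = (3 / 2) * K := by
    intro K
    induction K with
    | zero => simp
    | succ K ih =>
      rw [show 3 * (K + 1) = 3 * K + 1 + 1 + 1 by ring, Finset.sum_range_succ,
        Finset.sum_range_succ, Finset.sum_range_succ, ih]
      simp only [hw, pat3]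
      rw [if_pos (by omega), if_pos (by omega), if_neg (by omega), if_neg (by omega),
        if_neg (by omega), if_neg (by omega)]
      push_cast
      ring
  rw [tendsto_zero_iff_norm_tendsto_zero, Metric.tendsto_atTop]
  intro ε hε
  -- the parameters
  set θ : ℝ := ε / (C + 1) with hθ
  have hθ0 : 0 < θ := by positivity
  have hθC : θ * C ≤ ε := by
    rw [hθ, div_mul_eq_mul_div, div_le_iff₀ (by positivity)]
    nlinarith
  set η : ℝ := θ * ε / 12 with hη
  have hη0 : 0 < η := by positivity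
  obtain ⟨N₀, hN₀⟩ := hΓ η hη0
  obtain ⟨K₁, hK₁⟩ := exists_nat_gt ((θ⁻¹ + 2) / (ε * (3 / 4)))
  set K : ℕ := N₀ + K₁ + 1 with hK
  have hK1 : (1 : ℝ) ≤ K := by
    rw [hK]; push_cast
    have : (0 : ℝ) ≤ N₀ := by positivity
    have : (0 : ℝ) ≤ K₁ := by positivity
    linarith
  have hKp : (0 : ℝ) < K := by linarith
  have hK2 : θ⁻¹ + 2 ≤ K * (ε * (3 / 4)) := by
    have h1 : (K₁ : ℝ) ≤ K := by
      rw [hK]; push_cast
      have : (0 : ℝ) ≤ N₀ := by positivity
      linarith
    rw [div_lt_iff₀ (by positivity)] at hK₁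
    have h2 : (K₁ : ℝ) * (ε * (3 / 4)) ≤ K * (ε * (3 / 4)) := by gcongr
    linarith
  set N : ℕ := 3 * K with hN
  have hNN : N₀ ≤ N := by omega
  have hY : Asy (fun n => ∑ t ∈ Finset.range N, (w t : ℂ) * Y n t (-3 - t) 3)
      (fun n => ((3 / 2) * K) * Y n 0 0 0) := by
    have h1 : Asy (fun n => ∑ t ∈ Finset.range N, (w t : ℂ) * Y n t (-3 - t) 3)
        (fun n => ∑ t ∈ Finset.range N, (w t : ℂ) * (pat3 t (-3 - t) * Y n 0 0 0)) := by
      refine Asy.sum (Finset.range N) (f := fun (t : ℕ) n => (w t : ℂ) * Y n t (-3 - t) 3)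
        (g := fun (t : ℕ) n => (w t : ℂ) * (pat3 t (-3 - t) * Y n 0 0 0)) fun t _ => ?_
      exact (hpat _ _ _ (by ring)).const_mul _
    refine h1.trans (Asy.of_eq ?_)
    funext n
    rw [← hwY K, Finset.sum_mul]
    refine Finset.sum_congr rfl fun t _ => ?_
    ring
  have hX : Tendsto (fun n => ∑ t ∈ Finset.range N, ∑ u ∈ Finset.range N,
      (w t : ℂ) * (w u : ℂ) * W n t (-3 - t) (-u) (3 + u)) atTop (𝓝 0) := by
    have h1 : Asy (fun n => ∑ t ∈ Finset.range N, ∑ u ∈ Finset.range N,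
        (w t : ℂ) * (w u : ℂ) * W n t (-3 - t) (-u) (3 + u))
        (fun n => ∑ t ∈ Finset.range N, ∑ u ∈ Finset.range N,
        (w t : ℂ) * (w u : ℂ) * ((-1 / 3) * W n 0 0 0 0)) := by
      refine Asy.sum (Finset.range N) (f := fun (t : ℕ) n => ∑ u ∈ Finset.range N,
        (w t : ℂ) * (w u : ℂ) * W n t (-3 - t) (-u) (3 + u))
        (g := fun (t : ℕ) n => ∑ u ∈ Finset.range N,
        (w t : ℂ) * (w u : ℂ) * ((-1 / 3) * W n 0 0 0 0)) fun t _ => ?_
      refine Asy.sum (Finset.range N) (f := fun (u : ℕ) n =>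
        (w t : ℂ) * (w u : ℂ) * W n t (-3 - t) (-u) (3 + u))
        (g := fun (u : ℕ) n =>
        (w t : ℂ) * (w u : ℂ) * ((-1 / 3) * W n 0 0 0 0)) fun u _ => ?_
      have h2 := Err_pattern (Z := 0) s1 s2 hmac hibp t (-3 - t) (-u) (3 + u) (by ring)
      have h3 : pat (t : ℤ) (-3 - t) (-u) (3 + u) = -1 / 3 := by
        unfold pat
        rw [if_neg]
        omega
      rw [h3] at h2
      have h4 : Asy (fun n => W n t (-3 - t) (-u) (3 + u)) (fun n => (-1 / 3) * W n 0 0 0 0) := by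
        unfold Asy Err at h2
        unfold Asy
        simpa using h2
      exact h4.const_mul _
    refine h1.tendsto_zero ?_
    have e : ∀ n, ∑ t ∈ Finset.range N, ∑ u ∈ Finset.range N,
        (w t : ℂ) * (w u : ℂ) * ((-1 / 3) * W n 0 0 0 0) = 0 := by
      intro n
      have : ∀ t ∈ Finset.range N, ∑ u ∈ Finset.range N,
          (w t : ℂ) * (w u : ℂ) * ((-1 / 3) * W n 0 0 0 0) = 0 := by
        intro t _
        have e2 : ∑ u ∈ Finset.range N,
            (w t : ℂ) * (w u : ℂ) * ((-1 / 3) * W n 0 0 0 0)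
            = (w t : ℂ) * ((-1 / 3) * W n 0 0 0 0) * ∑ u ∈ Finset.range N, (w u : ℂ) := by
          rw [Finset.mul_sum]
          refine Finset.sum_congr rfl fun u _ => ?_
          ring
        rw [e2, hN, hwsum, mul_zero]
      exact Finset.sum_eq_zero this
    simp only [e]
    exact tendsto_const_nhds
  have hG := hN₀ N hNN w hw1
  have ev1 := (Metric.tendsto_nhds.mp hX) 1 one_pos
  have ev2 := (Metric.tendsto_nhds.mp hY) 1 one_pos
  have hev : ∀ᶠ n in atTop, ‖Y n 0 0 0‖ < ε := by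
    filter_upwards [ev1, ev2, hV] with n h1 h2 h3
    rw [dist_zero_right] at h1 h2
    have hl0 : 0 < θ * K := by positivity
    have k1 := hcs N n w (θ * K) hl0
    have k2 : (-∑ t ∈ Finset.range N, ∑ u ∈ Finset.range N,
        (w t : ℂ) * (w u : ℂ) * X n t (-3 - t) (-u) (3 + u)).re ≤ 1 + η * (N : ℝ) ^ 2 := by
      have e : -∑ t ∈ Finset.range N, ∑ u ∈ Finset.range N,
          (w t : ℂ) * (w u : ℂ) * X n t (-3 - t) (-u) (3 + u)
          = -((∑ t ∈ Finset.range N, ∑ u ∈ Finset.range N,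
          (w t : ℂ) * (w u : ℂ) * W n t (-3 - t) (-u) (3 + u))
          + ∑ t ∈ Finset.range N, ∑ u ∈ Finset.range N,
          (w t : ℂ) * (w u : ℂ) * Γ t (-3 - t) (-u) (3 + u)) := by
        rw [← Finset.sum_add_distrib]
        congr 1
        refine Finset.sum_congr rfl fun t _ => ?_
        rw [← Finset.sum_add_distrib]
        refine Finset.sum_congr rfl fun u _ => ?_
        rw [hW]
        ring
      rw [e]
      refine (Complex.re_le_norm _).trans ?_
      rw [norm_neg]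
      exact (norm_add_le _ _).trans (add_le_add h1.le hG)
    have k3 : ‖((3 / 2 : ℂ) * K) * Y n 0 0 0‖
        ≤ ‖∑ t ∈ Finset.range N, (w t : ℂ) * Y n t (-3 - t) 3‖ + 1 := by
      have e : ((3 / 2 : ℂ) * K) * Y n 0 0 0
          = (∑ t ∈ Finset.range N, (w t : ℂ) * Y n t (-3 - t) 3)
            - ((∑ t ∈ Finset.range N, (w t : ℂ) * Y n t (-3 - t) 3)
              - ((3 / 2 : ℂ) * K) * Y n 0 0 0) := by ring
      rw [e]
      exact (norm_sub_le _ _).trans (add_le_add le_rfl h2.le)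
    have k4 : ‖((3 / 2 : ℂ) * K) * Y n 0 0 0‖ = (3 / 2) * (K : ℝ) * ‖Y n 0 0 0‖ := by
      rw [norm_mul, norm_mul]
      simp
    rw [k4] at k3
    have hNr : (N : ℝ) = 3 * (K : ℝ) := by rw [hN]; push_cast; ring
    rw [hNr] at k2
    have k5 : (θ * K) * V n ≤ K * ε := by
      calc (θ * K) * V n ≤ (θ * K) * C := by gcongr
        _ = K * (θ * C) := by ring
        _ ≤ K * ε := by gcongr
    have k6 : (θ * K)⁻¹ * (-∑ t ∈ Finset.range N, ∑ u ∈ Finset.range N,
        (w t : ℂ) * (w u : ℂ) * X n t (-3 - t) (-u) (3 + u)).re ≤ θ⁻¹ + K * (ε * (3 / 4)) := by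
      calc (θ * K)⁻¹ * (-∑ t ∈ Finset.range N, ∑ u ∈ Finset.range N,
            (w t : ℂ) * (w u : ℂ) * X n t (-3 - t) (-u) (3 + u)).re
          ≤ (θ * K)⁻¹ * (1 + η * (3 * (K : ℝ)) ^ 2) := by gcongr
        _ = θ⁻¹ * (K : ℝ)⁻¹ + K * (ε * (3 / 4)) := by
            rw [hη]
            field_simp
            ring
        _ ≤ θ⁻¹ + K * (ε * (3 / 4)) := by
            have h5 : (K : ℝ)⁻¹ ≤ 1 := inv_le_one_of_one_le₀ hK1
            have h6 : θ⁻¹ * (K : ℝ)⁻¹ ≤ θ⁻¹ * 1 := by gcongr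
            linarith
    have k7 : (3 / 2) * (K : ℝ) * ‖Y n 0 0 0‖ ≤ (K * ε + (θ⁻¹ + K * (ε * (3 / 4)))) / 2 + 1 := by
      linarith
    have k8 : (K : ℝ) * (‖Y n 0 0 0‖ * (3 / 2)) ≤ K * (ε * (5 / 4)) := by
      nlinarith
    have k9 := le_of_mul_le_mul_left k8 hKp
    nlinarith
  obtain ⟨n0, hn0⟩ := eventually_atTop.mp hev
  refine ⟨n0, fun n hn => ?_⟩
  rw [dist_zero_right, norm_norm]
  exact hn0 n hn


variable {U : Set ℂ} {h : ℕ → ℝ} {a : ℂ → ℂ} {g : ℂ → ℂ} {φ : ℕ → ℂ → ℂ} {u : ℤ → ℂ → ℂ}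

/-- the odd coefficients vanish -/
theorem JetLim.odd (hU : IsOpen U) (L : JetLim U h a φ u) (k : ℤ) (hk : Odd k) :
    ∀ᵐ z ∂((volume : Measure ℂ).restrict U), u k z = 0 := by
  filter_upwards [L.sym hU] with z hz
  have h1 := hz 0 k
  unfold WW at h1
  rw [zpow_zero, one_mul, zero_add, add_zero, hk.neg_one_zpow] at h1
  linear_combination (1 / 2) * h1

theorem Setup.conj_jet (S : Setup U g a h φ) (k : ℤ) (n : ℕ) {z : ℂ} (hz : z ∈ U) :
    (starRingEnd ℂ) (E h a φ k n z) = (-1 : ℂ) ^ k * E h a φ (-k) n z := by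
  obtain ⟨q, rfl | rfl⟩ := k.eq_nat_or_neg
  · rw [S.E_neg q n z hz]
    have : E h a φ (q : ℤ) n z = jet h a φ q n z := rfl
    rw [this, zpow_natCast, ← mul_assoc, ← mul_pow]
    norm_num
  · rw [S.E_neg q n z hz, neg_neg, map_mul, map_pow, map_neg, map_one, starRingEnd_self_apply,
      zpow_neg, zpow_natCast, ← inv_pow]
    norm_num
    rfl

/-- the coefficients of a real measure -/
theorem JetLim.conj (S : Setup U g a h φ) (L : JetLim U h a φ u) (k : ℤ) :
    ∀ᵐ z ∂((volume : Measure ℂ).restrict U), u (-k) z = (starRingEnd ℂ) (u k z) := by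
  rcases Int.even_or_odd k with hk | hk
  · have h1 := (L.lim 0 k).conj
    have h2 : WLim U (fun n z => E h a φ 0 n z * E h a φ (-k) n z)
        (fun z => (starRingEnd ℂ) ((-1) ^ (0 : ℤ) * u (0 + k) z)) := by
      refine h1.congr fun n z hz => ?_
      rw [map_mul, S.conj_jet 0 n hz, S.conj_jet k n hz, hk.neg_one_zpow]
      simp
    have h3 := WLim.unique S.op (L.lim 0 (-k)) h2 ((L.loc _).const_mul _)
      ((L.loc _).const_mul _).conj
    filter_upwards [h3] with z hz
    simpa using hz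
  · filter_upwards [L.odd S.op k hk, L.odd S.op (-k) hk.neg] with z h1 h2
    rw [h1, h2, map_zero]

/-- sums of differences -/
theorem sum_diff_le {V : ℤ → ℝ} (hV : ∀ k, 0 ≤ V k) (N : ℕ) :
    ∑ t ∈ Finset.range N, ∑ s ∈ Finset.range N, (V ((t : ℤ) - s) + V ((t : ℤ) + s + 3))
      ≤ 2 * N * ∑ k ∈ Finset.Ioo (-((2 * N + 2 : ℕ) : ℤ)) ((2 * N + 2 : ℕ) : ℤ), V k := by
  set I := Finset.Ioo (-((2 * N + 2 : ℕ) : ℤ)) ((2 * N + 2 : ℕ) : ℤ) with hI
  set Tot := ∑ k ∈ I, V k with hTot
  have hinj : ∀ f : ℕ → ℤ, (∀ x ∈ Finset.range N, f x ∈ I) → Set.InjOn f (Finset.range N) →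
      ∑ x ∈ Finset.range N, V (f x) ≤ Tot := by
    intro f hf hi
    rw [← Finset.sum_image (f := V) hi]
    refine Finset.sum_le_sum_of_subset_of_nonneg ?_ fun k _ _ => hV k
    intro k hk
    obtain ⟨x, hx, rfl⟩ := Finset.mem_image.1 hk
    exact hf x hx
  have hone : ∀ t ∈ Finset.range N, ∑ s ∈ Finset.range N, (V ((t : ℤ) - s) + V ((t : ℤ) + s + 3))
      ≤ 2 * Tot := by
    intro t ht
    rw [Finset.mem_range] at ht
    rw [Finset.sum_add_distrib]
    have h1 := hinj (fun s => (t : ℤ) - s) (fun s hs => by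
      rw [Finset.mem_range] at hs
      rw [hI, Finset.mem_Ioo]
      push_cast
      omega) (fun s _ s' _ he => by
      simp only at he
      omega)
    have h2 := hinj (fun s => (t : ℤ) + s + 3) (fun s hs => by
      rw [Finset.mem_range] at hs
      rw [hI, Finset.mem_Ioo]
      push_cast
      omega) (fun s _ s' _ he => by
      simp only at he
      omega)
    linarith
  refine (Finset.sum_le_sum hone).trans (le_of_eq ?_)
  rw [Finset.sum_const, Finset.card_range, nsmul_eq_mul]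
  ring

/-- the Wick sums in the third order argument -/
theorem norm_Gam_third (S : Setup U g a h φ) (L : JetLim U h a φ u) {ρ : ℂ → ℝ}
    (hρ : Test U (fun z => (ρ z : ℂ))) (hρ0 : ∀ z, 0 ≤ ρ z) (t s : ℤ) :
    ‖Gam u (fun z => (ρ z : ℂ)) t (-3 - t) (-s) (3 + s)‖ ≤ UU u ρ (t - s) + UU u ρ (t + s + 3) := by
  have hc : ∀ᵐ z ∂((volume : Measure ℂ).restrict U), ∀ k, u (-k) z = (starRingEnd ℂ) (u k z) :=
    ae_all_iff.2 fun k => L.conj S k
  have h3 := L.odd S.op (-3) (by decide)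
  have hb : ∀ᵐ z ∂((volume : Measure ℂ).restrict U), ‖GW u t (-3 - t) (-s) (3 + s) z‖
      ≤ ‖u (t - s) z‖ ^ 2 + ‖u (t + s + 3) z‖ ^ 2 := by
    filter_upwards [hc, h3] with z hz h3z
    unfold GW WW
    have e1 : t + (-3 - t) = -3 := by ring
    have e2 : t + -s = t - s := by ring
    have e3 : -3 - t + (3 + s) = -(t - s) := by ring
    have e4 : t + (3 + s) = t + s + 3 := by ring
    have e5 : -3 - t + -s = -(t + s + 3) := by ring
    rw [e1, e2, e3, e4, e5, h3z, hz, hz]
    have hn : ∀ k : ℤ, ‖(-1 : ℂ) ^ k‖ = 1 := fun k => by rw [norm_zpow, norm_neg, norm_one, one_zpow]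
    refine (norm_add_le _ _).trans ?_
    rw [mul_zero, zero_mul, zero_add]
    simp only [norm_mul, hn, RCLike.norm_conj, one_mul]
    rw [← pow_two, ← pow_two]
  have i1 := hρ.int_sq (L.loc (t - s))
  have i2 := hρ.int_sq (L.loc (t + s + 3))
  unfold Gam UU
  rw [← integral_add i1 i2]
  refine norm_integral_le_of_norm_le (i1.add i2) ?_
  rw [ae_restrict_iff' S.op.measurableSet] at hb
  filter_upwards [hb] with z hz
  rw [norm_mul, Complex.norm_real, Real.norm_of_nonneg (hρ0 z)]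
  by_cases hzU : z ∈ U
  · have := mul_le_mul_of_nonneg_left (hz hzU) (hρ0 z)
    linarith
  · have h0 : (ρ z : ℂ) = 0 := image_eq_zero_of_notMem_tsupport (f := fun z => (ρ z : ℂ))
      fun hh => hzU (hρ.sub hh)
    have h1 : ρ z = 0 := by exact_mod_cast h0
    simp [h1]


/-- **the correlations of three jets of total index zero vanish**, when the microlocal measure has
no directional atoms -/
theorem Setup.jets_three_var (S : Setup U g a h φ) (L : JetLim U h a φ u)
    (hN : ∀ ρ : ℂ → ℝ, Test U (fun z => (ρ z : ℂ)) → (∀ z, 0 ≤ ρ z) →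
      Tendsto (fun N : ℕ => (1 / (N : ℝ)) * ∑ k ∈ Finset.Ioo (-(N : ℤ)) (N : ℤ),
      ∫ z, ρ z * ‖u k z‖ ^ 2) atTop (𝓝 0))
    {ζ : ℂ → ℂ} (hζ : Test U ζ) (j m k : ℤ) (hs : j + m + k = 0) :
    Tendsto (fun n => ∫ z, ζ z * (E h a φ j n z * E h a φ m n z * E h a φ k n z))
      atTop (𝓝 0) := by
  have s3 := fun n j m k => ((S.sm2 j m).mul (S.tame_E k).smooth) n
  refine Test.induct_nonneg S.op (F := fun n ζ =>
      ∫ z, ζ z * (E h a φ j n z * E h a φ m n z * E h a φ k n z)) ?_ ?_ ?_ hζ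
  · intro n ζ ξ hζ hξ
    beta_reduce
    rw [Test.int_add S.op (s3 n j m k) hζ hξ]
  · intro n c ζ _
    beta_reduce
    rw [Test.int_smul]
  · intro ρ hρ hρ0
    have hρi : ∀ (f : ℂ → ℝ), ContinuousOn f U → Integrable (fun z => ρ z * f z) := by
      intro f hf
      have hρc : Continuous ρ := by
        have := Complex.continuous_re.comp hρ.smooth.continuous
        simpa [Function.comp_def] using this
      exact integrable_mul_of_tsupport S.op hρc (by
        unfold HasCompactSupport; rw [← Test.tsupport_eq]; exact hρ.supp) (by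
          rw [← Test.tsupport_eq]; exact hρ.sub) hf
    obtain ⟨C, hC⟩ := (S.bd2 3 (-3)).test (S.sm2 3 (-3)) hρ
    have hcjE : ∀ (k : ℤ) (n : ℕ), ∀ z ∈ U, (starRingEnd ℂ) (E h a φ k n z)
        = (-1 : ℂ) ^ k * E h a φ (-k) n z := fun k n z hz => S.conj_jet k n hz
    have key := alg_third_var (C := |C|) (V := fun n => ∫ z, ρ z * ‖E h a φ 3 n z‖ ^ 2)
      (X := fun n j m k l => ∫ z, (ρ z : ℂ)
      * (E h a φ j n z * E h a φ m n z * (E h a φ k n z * E h a φ l n z)))
      (W := YY h a φ u (fun z => (ρ z : ℂ))) (Γ := Gam u (fun z => (ρ z : ℂ)))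
      (Y := fun n j m k => ∫ z, (ρ z : ℂ) * (E h a φ j n z * E h a φ m n z * E h a φ k n z))
      (abs_nonneg C) ?_ (YY_12 S L hρ) (YY_23 S L hρ) (YY_mac S L hρ) ?_ ?_ ?_ ?_ ?_ ?_ ?_ ?_
      j m k hs
    · exact key
    · intro n j m k l
      unfold YY
      ring
    · have h4 := YY_ibp S L hρ 0 0 0 (-1)
      refine h4.congr fun n => ?_
      simp only [zero_add, neg_add_cancel]
    · intro n j m k
      refine MeasureTheory.integral_congr_ae (Filter.Eventually.of_forall fun z => ?_)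
      beta_reduce; ring
    · intro n j m k
      refine MeasureTheory.integral_congr_ae (Filter.Eventually.of_forall fun z => ?_)
      beta_reduce; ring
    · intro j m k
      exact S.ibp3 j m k hρ
    · intro j m k
      exact S.ibp3b j m k hρ
    · filter_upwards [hC] with n hn
      have e1 : ((∫ z, ρ z * ‖E h a φ 3 n z‖ ^ 2 : ℝ) : ℂ)
          = - ∫ z, (ρ z : ℂ) * (E h a φ 3 n z * E h a φ (-3) n z) := by
        rw [← integral_neg]
        have e0 : ((∫ z, ρ z * ‖E h a φ 3 n z‖ ^ 2 : ℝ) : ℂ)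
            = ∫ z, ((ρ z * ‖E h a φ 3 n z‖ ^ 2 : ℝ) : ℂ) := integral_ofReal.symm
        rw [e0]
        have e2 := hρ.integral_congr (f := fun z => ((‖E h a φ 3 n z‖ ^ 2 : ℝ) : ℂ))
          (f' := fun z => -(E h a φ 3 n z * E h a φ (-3) n z)) (fun z hz => by
            have h1 := hcjE 3 n z hz
            rw [show ((-1 : ℂ) ^ (3 : ℤ)) = -1 by norm_num] at h1
            rw [← Complex.normSq_eq_norm_sq, ← mul_conj, h1]
            ring)
        refine Eq.trans ?_ (e2.trans ?_)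
        · refine MeasureTheory.integral_congr_ae (Filter.Eventually.of_forall fun z => ?_)
          beta_reduce; push_cast; ring
        · refine MeasureTheory.integral_congr_ae (Filter.Eventually.of_forall fun z => ?_)
          beta_reduce; ring
      have e3 : |∫ z, ρ z * ‖E h a φ 3 n z‖ ^ 2| ≤ C := by
        rw [← Real.norm_eq_abs, ← Complex.norm_real, e1, norm_neg]
        exact hn
      exact (le_abs_self _).trans (e3.trans (le_abs_self C))
    · intro N n w l hl
      set T : ℂ → ℂ := fun z => ∑ t ∈ Finset.range N, (w t : ℂ) * (E h a φ t n z * E h a φ (-3 - t) n z)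
        with hT
      have hTs : ContDiffOn ℝ ∞ T U :=
        ContDiffOn.sum fun t _ => contDiffOn_const.mul ((S.sm2 t (-3 - t)) n)
      have e1 : ∑ t ∈ Finset.range N, (w t : ℂ) * ∫ z, (ρ z : ℂ)
          * (E h a φ t n z * E h a φ (-3 - t) n z * E h a φ 3 n z)
          = ∫ z, (ρ z : ℂ) * (T z * E h a φ 3 n z) := by
        simp only [← integral_const_mul]
        rw [← integral_finsetSum _ (fun t _ => (S.int3 hρ n _ _ _).const_mul _)]
        refine MeasureTheory.integral_congr_ae (Filter.Eventually.of_forall fun z => ?_)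
        beta_reduce
        rw [hT]
        beta_reduce
        rw [Finset.sum_mul, Finset.mul_sum]
        refine Finset.sum_congr rfl fun t _ => ?_
        ring
      have e2 : ((∫ z, ρ z * ‖T z‖ ^ 2 : ℝ) : ℂ) = -∑ t ∈ Finset.range N, ∑ u ∈ Finset.range N,
          (w t : ℂ) * (w u : ℂ) * ∫ z, (ρ z : ℂ) * (E h a φ t n z * E h a φ (-3 - t) n z
            * (E h a φ (-u) n z * E h a φ (3 + u) n z)) := by
        have e0 : ((∫ z, ρ z * ‖T z‖ ^ 2 : ℝ) : ℂ)
            = ∫ z, ((ρ z * ‖T z‖ ^ 2 : ℝ) : ℂ) := integral_ofReal.symm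
        rw [e0]
        have e3 := hρ.integral_congr (f := fun z => ((‖T z‖ ^ 2 : ℝ) : ℂ))
          (f' := fun z => -∑ t ∈ Finset.range N, ∑ u ∈ Finset.range N, (w t : ℂ) * (w u : ℂ)
            * (E h a φ t n z * E h a φ (-3 - t) n z * (E h a φ (-u) n z * E h a φ (3 + u) n z)))
          (fun z hz => by
            rw [← Complex.normSq_eq_norm_sq, ← mul_conj, hT]
            beta_reduce
            rw [map_sum, Finset.sum_mul_sum, ← Finset.sum_neg_distrib]
            refine Finset.sum_congr rfl fun t _ => ?_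
            rw [← Finset.sum_neg_distrib]
            refine Finset.sum_congr rfl fun u _ => ?_
            rw [map_mul, map_mul, hcjE _ n z hz, hcjE _ n z hz, conj_ofReal]
            have h1 : (-1 : ℂ) ^ ((u : ℕ) : ℤ) * (-1 : ℂ) ^ (-3 - (u : ℤ)) = -1 := by
              rw [← zpow_add₀ (by norm_num)]
              have : ((u : ℕ) : ℤ) + (-3 - (u : ℤ)) = -3 := by ring
              rw [this]; norm_num
            have h2 : -(-3 - (u : ℤ)) = 3 + u := by ring
            rw [h2]
            linear_combination ((w t : ℂ) * (w u : ℂ) * (E h a φ t n z * E h a φ (-3 - t) n z)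
              * (E h a φ (-u) n z * E h a φ (3 + u) n z)) * h1)
        refine Eq.trans ?_ (e3.trans ?_)
        · refine MeasureTheory.integral_congr_ae (Filter.Eventually.of_forall fun z => ?_)
          beta_reduce; push_cast; ring
        · simp only [← integral_const_mul]
          rw [← Finset.sum_neg_distrib]
          have e4 : ∀ t ∈ Finset.range N, -∑ u ∈ Finset.range N, ∫ z, (w t : ℂ) * (w u : ℂ)
              * ((ρ z : ℂ) * (E h a φ t n z * E h a φ (-3 - t) n z
            * (E h a φ (-u) n z * E h a φ (3 + u) n z)))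
              = ∫ z, -∑ u ∈ Finset.range N, (w t : ℂ) * (w u : ℂ)
              * ((ρ z : ℂ) * (E h a φ t n z * E h a φ (-3 - t) n z
            * (E h a φ (-u) n z * E h a φ (3 + u) n z))) := by
            intro t _
            rw [integral_neg, integral_finsetSum _ (fun u _ => (S.int4 hρ n _ _ _ _).const_mul _)]
          have i5 : ∀ t ∈ Finset.range N, Integrable (fun z => -∑ u ∈ Finset.range N,
              (w t : ℂ) * (w u : ℂ) * ((ρ z : ℂ) * (E h a φ t n z * E h a φ (-3 - t) n z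
            * (E h a φ (-u) n z * E h a φ (3 + u) n z)))) := fun t _ =>
            (integrable_finsetSum _ (fun u _ => (S.int4 hρ n _ _ _ _).const_mul _)).neg
          rw [Finset.sum_congr rfl e4, ← integral_finsetSum _ i5]
          refine MeasureTheory.integral_congr_ae (Filter.Eventually.of_forall fun z => ?_)
          beta_reduce
          rw [Finset.sum_neg_distrib, mul_neg, Finset.mul_sum]
          congr 1
          refine Finset.sum_congr rfl fun t _ => ?_
          rw [Finset.mul_sum]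
          refine Finset.sum_congr rfl fun u _ => ?_
          ring
      have e2' : (-∑ t ∈ Finset.range N, ∑ u ∈ Finset.range N,
          (w t : ℂ) * (w u : ℂ) * ∫ z, (ρ z : ℂ) * (E h a φ t n z * E h a φ (-3 - t) n z
            * (E h a φ (-u) n z * E h a φ (3 + u) n z))).re = ∫ z, ρ z * ‖T z‖ ^ 2 := by
        rw [← e2, ofReal_re]
      rw [e1, e2']
      have i1 : Integrable (fun z => ρ z * ‖E h a φ 3 n z‖ ^ 2) :=
        hρi _ (((S.tame_E 3).smooth n).continuousOn.norm.pow 2)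
      have i2 : Integrable (fun z => ρ z * ‖T z‖ ^ 2) := hρi _ (hTs.continuousOn.norm.pow 2)
      calc ‖∫ z, (ρ z : ℂ) * (T z * E h a φ 3 n z)‖
          ≤ ∫ z, ‖(ρ z : ℂ) * (T z * E h a φ 3 n z)‖ := norm_integral_le_integral_norm _
        _ ≤ ∫ z, (l * (ρ z * ‖E h a φ 3 n z‖ ^ 2) + l⁻¹ * (ρ z * ‖T z‖ ^ 2)) / 2 := by
            refine integral_mono_of_nonneg (Filter.Eventually.of_forall fun z => norm_nonneg _)
              (((i1.const_mul l).add (i2.const_mul l⁻¹)).div_const 2)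
              (Filter.Eventually.of_forall fun z => ?_)
            beta_reduce
            rw [norm_mul, norm_mul, Complex.norm_real, Real.norm_of_nonneg (hρ0 z)]
            have h1 : ‖T z‖ * ‖E h a φ 3 n z‖
                ≤ (l * ‖E h a φ 3 n z‖ ^ 2 + l⁻¹ * ‖T z‖ ^ 2) / 2 := by
              have h2 : 0 ≤ l⁻¹ * (l * ‖E h a φ 3 n z‖ - ‖T z‖) ^ 2 := by positivity
              have h3 : l⁻¹ * (l * ‖E h a φ 3 n z‖ - ‖T z‖) ^ 2
                  = l * ‖E h a φ 3 n z‖ ^ 2 - 2 * (‖T z‖ * ‖E h a φ 3 n z‖)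
                    + l⁻¹ * ‖T z‖ ^ 2 := by
                field_simp
                ring
              rw [h3] at h2
              linarith
            have := mul_le_mul_of_nonneg_left h1 (hρ0 z)
            linarith
        _ = (l * (∫ z, ρ z * ‖E h a φ 3 n z‖ ^ 2) + l⁻¹ * ∫ z, ρ z * ‖T z‖ ^ 2) / 2 := by
            rw [integral_div, integral_add (i1.const_mul l) (i2.const_mul l⁻¹),
              integral_const_mul, integral_const_mul]
    · -- the Wick sums
      intro η hη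
      obtain ⟨N₀, hN₀⟩ := (Metric.tendsto_atTop.1 (hN ρ hρ hρ0)) (η / 8) (by positivity)
      refine ⟨N₀ + 1, fun N hNN w hw => ?_⟩
      have hN1 : (1 : ℝ) ≤ N := by exact_mod_cast (by omega : 1 ≤ N)
      have hwn : ∀ t, ‖(w t : ℂ)‖ ≤ 1 := fun t => by
        rw [Complex.norm_real, Real.norm_eq_abs]; exact hw t
      have b1 : ‖∑ t ∈ Finset.range N, ∑ s ∈ Finset.range N,
          (w t : ℂ) * (w s : ℂ) * Gam u (fun z => (ρ z : ℂ)) t (-3 - t) (-s) (3 + s)‖
          ≤ ∑ t ∈ Finset.range N, ∑ s ∈ Finset.range N, (UU u ρ ((t : ℤ) - s)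
            + UU u ρ ((t : ℤ) + s + 3)) := by
        refine (norm_sum_le _ _).trans (Finset.sum_le_sum fun t _ => ?_)
        refine (norm_sum_le _ _).trans (Finset.sum_le_sum fun s _ => ?_)
        rw [norm_mul, norm_mul]
        calc ‖(w t : ℂ)‖ * ‖(w s : ℂ)‖ * ‖Gam u (fun z => (ρ z : ℂ)) t (-3 - t) (-s) (3 + s)‖
            ≤ 1 * 1 * (UU u ρ ((t : ℤ) - s) + UU u ρ ((t : ℤ) + s + 3)) := by
              gcongr
              · exact hwn t
              · exact hwn s
              · exact norm_Gam_third S L hρ hρ0 t s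
          _ = _ := by ring
      refine b1.trans ((sum_diff_le (fun k => UU_nonneg hρ0 k) N).trans ?_)
      set Tot := ∑ k ∈ Finset.Ioo (-((2 * N + 2 : ℕ) : ℤ)) ((2 * N + 2 : ℕ) : ℤ), UU u ρ k with hTot
      have h1 := hN₀ (2 * N + 2) (by omega)
      rw [dist_zero_right, Real.norm_eq_abs] at h1
      have h2 := (le_abs_self _).trans h1.le
      have hpos : (0 : ℝ) < ((2 * N + 2 : ℕ) : ℝ) := by positivity
      have h3 : Tot ≤ η / 8 * ((2 * N + 2 : ℕ) : ℝ) := by
        have h4 : (1 / ((2 * N + 2 : ℕ) : ℝ)) * Tot ≤ η / 8 := h2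
        rw [one_div, inv_mul_le_iff₀ hpos] at h4
        linarith
      calc 2 * (N : ℝ) * Tot ≤ 2 * N * (η / 8 * ((2 * N + 2 : ℕ) : ℝ)) := by gcongr
        _ ≤ 2 * N * (η / 8 * (4 * N)) := by
            gcongr
            push_cast
            linarith
        _ = η * (N : ℝ) ^ 2 := by ring

end

end QE
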