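import Pool.Agent.Lib_helper67.QE.Timelike
import Pool.Agent.Lib_helper67.QE.FlowMeasure
import Pool.Agent.Lib_helper67.QE.FejerN
import Pool.Agent.Lib_helper67.QE.HypLimits
import Pool.Agent.Lib_helper67.QE.HypTest
import Pool.Agent.Lib_helper67.QE.Var3
import Pool.Agent.Lib_helper67.QE.SurfThird
import Pool.Agent.Lib_helper67.QE.FlowInv

/-!
The microlocal measures of eigenfunctions with bounded fourth moments have no directional atoms, and
the consequences for the fourth and the third moments along a sequence with microlocal limits.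
-/

open UpperHalfPlane MeasureTheory MatrixGroups Filter Topology Set Berry
open scoped ENNReal ContDiff

namespace QE

noncomputable section

/-- **No directional atoms** -/
theorem no_dir_atoms [MeasurableSpace SL(2, ℝ)] [BorelSpace SL(2, ℝ)] {Γ : Subgroup SL(2, ℝ)}
    [Countable Γ] {D : Set ℍ} (hDm : MeasurableSet D)
    (hD : IsFundamentalDomain Γ D (volume : Measure ℍ))
    (hK : ∃ K : Set ℍ, IsCompact K ∧ ∀ z, ∃ γ ∈ Γ, γ • z ∈ K) {u : ℤ → ℂ → ℂ}
    (hu : LimFam Γ u) :
    ∃ p : ℍ → ℝ, Measurable p ∧ (∀ z, 0 ≤ p z) ∧ (∀ γ ∈ Γ, ∀ z, p (γ • z) = p z) ∧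
      (∀ᵐ z : ℍ, p z = (u 0 z).re) ∧ IntegrableOn (fun z => p z ^ 2) D (volume : Measure ℍ) ∧
      ∀ ζ : ℂ → ℝ, Continuous ζ → HasCompactSupport ζ → tsupport ζ ⊆ UH → (∀ z, 0 ≤ ζ z) →
        Tendsto (fun N : ℕ => (1 / (N : ℝ)) * ∑ k ∈ Finset.Ioo (-(N : ℤ)) N,
          ∫ z, ζ z * ‖u k z‖ ^ 2) atTop (𝓝 0) := by
  obtain ⟨μ, p, -, hfc, hleft, hneg, hpm, hp0, hpi, hpae, hpsq, hproj, hcoef⟩ :=
    exists_measure hDm hD hK hu.toLimFam0
  have hr := fun s => flow_right hu hneg hcoef s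
  have hμ : FlowMeas Γ D μ p := ⟨⟨hleft, hneg, hpm, hp0, hpi, hpsq, hproj⟩, hr⟩
  have hsf : SigmaFinite μ := hμ.sigmaFinite hD
  obtain ⟨C, -, hC⟩ := hμ.pair_bound hD hDm
  refine ⟨p, hpm, hp0, hpi, hpae, hpsq, fun ζ hζ hζc hζU hζ0 => ?_⟩
  exact FejerN.fejer_tendsto hDm hD hμ.toFlowMeas0 hu.toLimFam0 hcoef
    ⟨C, fun d hd hd1 => hC d hd (by linarith)⟩
    (hμ.theoremN hD hDm (finite_of_cocompact hD hK)) hζ hζc hζU hζ0

/-- weak convergence of the squares -/
theorem mass_limit {Γ : Subgroup SL(2, ℝ)} [Countable Γ] {D : Set ℍ}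
    (hD : IsFundamentalDomain Γ D (volume : Measure ℍ))
    (hK : ∃ K : Set ℍ, IsCompact K ∧ ∀ z, ∃ γ ∈ Γ, γ • z ∈ K) {φ : ℕ → ℍ → ℝ}
    (hc : ∀ n, Continuous (φ n)) (hinv : ∀ n, ∀ γ ∈ Γ, ∀ z, φ n (γ • z) = φ n z)
    {w : ℂ → ℂ} (hw : WLim UH (fun n z => (φ n (ofComplex z) : ℂ) * (φ n (ofComplex z) : ℂ)) w)
    {p : ℍ → ℝ} (hpm : Measurable p) (hpi : ∀ γ ∈ Γ, ∀ z, p (γ • z) = p z)
    (hpI : IntegrableOn p D (volume : Measure ℍ))
    (hpw : ∀ᵐ z ∂((volume : Measure ℂ).restrict UH), w z = (p (ofComplex z) : ℂ))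
    {f : ℍ → ℝ} (hf : Continuous f) (hfi : ∀ γ ∈ Γ, ∀ z, f (γ • z) = f z) :
    Tendsto (fun n => surfAvg D (fun z => f z * φ n z ^ 2)) atTop
      (𝓝 (surfAvg D (fun z => f z * p z))) := by
  obtain ⟨ζ, h1, h2, h3, h4, h5⟩ := Surf.exists_test_int hD hK
  obtain ⟨B, hB⟩ := bdd_of_cocompact hf hfi hK
  -- the test function
  have hζf : Continuous fun w => ζ w * f (ofComplex w) := Surf.continuous_cut_mul h1 h3 hf
  set η : ℂ → ℂ := fun w => ((ζ w * f (ofComplex w) : ℝ) : ℂ) with hη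
  have hηc : Continuous η := Complex.continuous_ofReal.comp hζf
  have hηs : HasCompactSupport η := by
    refine h2.of_isClosed_subset (isClosed_tsupport _) (closure_mono fun w hw => ?_)
    simp only [hη, Function.mem_support] at hw ⊢
    intro h0
    apply hw
    rw [h0]; simp
  have hη0 : ∀ w, w ∉ tsupport ζ → η w = 0 := by
    intro w hw
    simp only [hη, image_eq_zero_of_notMem_tsupport hw, zero_mul, Complex.ofReal_zero]
  have hm : MemLp η 2 ((volume : Measure ℂ).restrict (tsupport ζ)) :=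
    (hηc.memLp_of_hasCompactSupport hηs).restrict _
  have hlim := hw (tsupport ζ) h2 h3 η hm
  have e : ∀ F : ℂ → ℂ, ∫ z in tsupport ζ, η z * F z = ∫ z, η z * F z := by
    intro F
    refine setIntegral_eq_integral_of_forall_compl_eq_zero fun z hz => ?_
    rw [hη0 z hz, zero_mul]
  simp only [e] at hlim
  -- identification of the two sides
  have hr := (Complex.continuous_re.tendsto _).comp hlim
  have s1 : ∀ n, (∫ z, η z * ((φ n (ofComplex z) : ℂ) * (φ n (ofComplex z) : ℂ))).re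
      = ∫ z in D, f z * φ n z ^ 2 := by
    intro n
    have hcn : Continuous fun z => f z * φ n z ^ 2 := hf.mul ((hc n).pow 2)
    have hin : ∀ γ ∈ Γ, ∀ z, f (γ • z) * φ n (γ • z) ^ 2 = f z * φ n z ^ 2 := fun γ hγ z => by
      rw [hfi γ hγ, hinv n γ hγ]
    have h6 := (h5 _ hcn.measurable (Surf.integrableOn_of_invariant hD hK hcn hin) hin).2
    rw [← h6]
    have e1 : ∫ z, η z * ((φ n (ofComplex z) : ℂ) * (φ n (ofComplex z) : ℂ))
        = ∫ z, ((ζ z * (f (ofComplex z) * φ n (ofComplex z) ^ 2) : ℝ) : ℂ) := by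
      refine integral_congr_ae (Eventually.of_forall fun z => ?_)
      simp only [hη]
      push_cast
      ring
    have e2 : ∫ z : ℂ, ((ζ z * (f (ofComplex z) * φ n (ofComplex z) ^ 2) : ℝ) : ℂ)
        = ((∫ z, ζ z * (f (ofComplex z) * φ n (ofComplex z) ^ 2) : ℝ) : ℂ) := integral_ofReal
    rw [e1, e2, Complex.ofReal_re]
  have s2 : (∫ z, η z * w z).re = ∫ z in D, f z * p z := by
    have hpf : IntegrableOn (fun z => f z * p z) D (volume : Measure ℍ) := by
      refine Integrable.bdd_mul hpI hf.aestronglyMeasurable.restrict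
        (Eventually.of_forall fun z => ?_) (c := B)
      rw [Real.norm_eq_abs]; exact hB z
    have hin : ∀ γ ∈ Γ, ∀ z, f (γ • z) * p (γ • z) = f z * p z := fun γ hγ z => by
      rw [hfi γ hγ, hpi γ hγ]
    have h6 := (h5 _ (hf.measurable.mul hpm) hpf hin).2
    have h6' : ∫ w, ζ w * (f (ofComplex w) * p (ofComplex w)) = ∫ z in D, f z * p z := h6
    rw [← h6']
    have e1 : ∫ z, η z * w z = ∫ z, ((ζ z * (f (ofComplex z) * p (ofComplex z)) : ℝ) : ℂ) := by
      refine integral_congr_ae ?_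
      have hpw' := (ae_restrict_iff' isOpen_UH.measurableSet).1 hpw
      filter_upwards [hpw'] with z hz
      by_cases hzU : z ∈ UH
      · rw [hz hzU]
        simp only [hη]
        push_cast
        ring
      · have h0 : ζ z = 0 := image_eq_zero_of_notMem_tsupport fun hh => hzU (h3 hh)
        simp only [hη, h0, zero_mul, Complex.ofReal_zero]
    have e2 : ∫ z : ℂ, ((ζ z * (f (ofComplex z) * p (ofComplex z)) : ℝ) : ℂ)
        = ((∫ z, ζ z * (f (ofComplex z) * p (ofComplex z)) : ℝ) : ℂ) := integral_ofReal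
    rw [e1, e2, Complex.ofReal_re]
  have hr' : Tendsto (fun n => ∫ z in D, f z * φ n z ^ 2) atTop (𝓝 (∫ z in D, f z * p z)) := by
    rw [← s2]
    refine hr.congr fun n => ?_
    exact s1 n
  simp only [Surf.surfAvg_eq]
  exact hr'.const_mul _

/-- **The moments of order two, three and four** along a sequence with microlocal limits. -/
theorem key_of_limits [MeasurableSpace SL(2, ℝ)] [BorelSpace SL(2, ℝ)] {Γ : Subgroup SL(2, ℝ)}
    [Countable Γ] {D : Set ℍ} (hDm : MeasurableSet D)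
    (hD : IsFundamentalDomain Γ D (volume : Measure ℍ))
    (hK : ∃ K : Set ℍ, IsCompact K ∧ ∀ z, ∃ γ ∈ Γ, γ • z ∈ K) {φ : ℕ → ℍ → ℝ} {h : ℕ → ℝ}
    (S : Setup UH gH aH h (fun n z => (φ n (ofComplex z) : ℂ)))
    (hc : ∀ n, Continuous (φ n)) (hinv : ∀ n, ∀ γ ∈ Γ, ∀ z, φ n (γ • z) = φ n z) {C : ℝ}
    (hC : ∀ n, surfAvg D (fun z => φ n z ^ 4) ≤ C)
    {u : ℤ → ℂ → ℂ} (hum : ∀ k, Measurable (u k)) (hu : ∀ k, LocL2 UH (u k))
    (hw : JLim UH h aH (fun n z => (φ n (ofComplex z) : ℂ)) u) :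
    ∃ p : ℍ → ℝ, Measurable p ∧ (∀ z, 0 ≤ p z) ∧ (∀ γ ∈ Γ, ∀ z, p (γ • z) = p z) ∧
      IntegrableOn p D (volume : Measure ℍ) ∧
      IntegrableOn (fun z => p z ^ 2) D (volume : Measure ℍ) ∧
      (∀ f : ℍ → ℝ, Continuous f → (∀ γ ∈ Γ, ∀ z, f (γ • z) = f z) →
        Tendsto (fun n => surfAvg D (fun z => f z * φ n z ^ 2)) atTop
          (𝓝 (surfAvg D (fun z => f z * p z)))) ∧
      (∀ f : ℍ → ℝ, Continuous f → (∀ z, 0 ≤ f z) → (∀ γ ∈ Γ, ∀ z, f (γ • z) = f z) → ∀ ε > 0,
        ∀ᶠ n in atTop, 3 * surfAvg D (fun z => f z * p z ^ 2) - ε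
          ≤ surfAvg D (fun z => f z * φ n z ^ 4)) ∧
      (∀ f : ℍ → ℝ, Continuous f → (∀ γ ∈ Γ, ∀ z, f (γ • z) = f z) →
        Tendsto (fun n => surfAvg D (fun z => f z * φ n z ^ 3)) atTop (𝓝 0)) := by
  have hF : LimFam Γ u := limFam_of_limits S hum hu hw (fun γ hγ n z hz => by
    have e : ofComplex (mob γ z) = γ • ofComplex z := by
      unfold mob
      rw [ofComplex_apply]
    simp only [e, hinv n γ hγ])
  obtain ⟨p, hpm, hp0, hpi, hpae, hpsq, hN⟩ := no_dir_atoms hDm hD hK hF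
  have hfin : (volume : Measure ℍ) D ≠ ⊤ := finite_of_cocompact hD hK
  have hpI : IntegrableOn p D (volume : Measure ℍ) := by
    have : IsFiniteMeasure ((volume : Measure ℍ).restrict D) := ⟨by
      rw [Measure.restrict_apply_univ]; exact hfin.lt_top⟩
    have h2 : MemLp p 2 ((volume : Measure ℍ).restrict D) :=
      (memLp_two_iff_integrable_sq hpm.aestronglyMeasurable).2 hpsq
    exact h2.integrable (by norm_num)
  have hpw : ∀ᵐ z ∂((volume : Measure ℂ).restrict UH), u 0 z = (p (ofComplex z) : ℂ) := by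
    have h1 : ∀ᵐ z ∂((volume : Measure ℂ).restrict UH), p (ofComplex z) = (u 0 z).re := by
      refine ae_UH ?_
      filter_upwards [hpae] with z hz
      rw [ofComplex_apply]; exact hz
    filter_upwards [h1, hF.real] with z h1 h2
    rw [h1]
    exact Complex.ext rfl (by rw [h2.2, Complex.ofReal_im])
  have hw0 : WLim UH (fun n z => (φ n (ofComplex z) : ℂ) * (φ n (ofComplex z) : ℂ)) (u 0) :=
    S.lim_zero hu hw 0
  refine ⟨p, hpm, hp0, hpi, hpI, hpsq, fun f hf hfi =>
    mass_limit hD hK hc hinv hw0 hpm hpi hpI hpw hf hfi, ?_, ?_⟩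
  · -- fourth moments
    intro f hf hf0 hfi ε hε
    obtain ⟨ζ, h1, h2, h3, h4, h5⟩ := Surf.exists_test_int hD hK
    obtain ⟨B, hB⟩ := bdd_of_cocompact hf hfi hK
    have hco : ∀ n, ContinuousOn (fun z => φ n (ofComplex z)) UH := fun n w hw =>
      ((hc n).continuousAt.comp
        (contMDiffAt_ofComplex (n := 0) (show 0 < w.im from hw)).continuousAt).continuousWithinAt
    have hζf : Continuous fun w => ζ w * f (ofComplex w) := Surf.continuous_cut_mul h1 h3 hf
    have hζs : HasCompactSupport fun w => ζ w * f (ofComplex w) := h2.mul_right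
    have hζsub : tsupport (fun w => ζ w * f (ofComplex w)) ⊆ UH :=
      (closure_mono (Function.support_mul_subset_left _ _)).trans h3
    have hv := Surf.vol_pos hD hK
    have hlow := cont_lower isOpen_UH (F := fun n z => φ n (ofComplex z) ^ 4)
      (fun n => (hco n).pow 4) (fun n z => by positivity) (p2 := fun z => ‖u 0 z‖ ^ 2)
      (fun z => by positivity) (fun K hKc hKU => by
        have := hu 0 K hKc hKU
        exact (memLp_two_iff_integrable_sq_norm this.1).1 this)
      (fun η hηs hηc hηU hη0 ε hε => by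
        have h6 := local_atomless S hum hu hw (S.lim_conj hu hw) hηs hηc hηU hη0
          (hN η hηs.continuous hηc hηU hη0) hε
        simpa only [Complex.ofReal_re] using h6) hζf hζs hζsub
      (fun w => mul_nonneg (h4 w) (hf0 _)) (ε := ε * ((volume : Measure ℍ) D).toReal)
      (by positivity)
    filter_upwards [hlow] with n hn
    have s1 : ∫ z, ζ z * f (ofComplex z) * φ n (ofComplex z) ^ 4 = ∫ z in D, f z * φ n z ^ 4 := by
      have hcn : Continuous fun z => f z * φ n z ^ 4 := hf.mul ((hc n).pow 4)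
      have hin : ∀ γ ∈ Γ, ∀ z, f (γ • z) * φ n (γ • z) ^ 4 = f z * φ n z ^ 4 := fun γ hγ z => by
        rw [hfi γ hγ, hinv n γ hγ]
      have h6 := (h5 _ hcn.measurable (Surf.integrableOn_of_invariant hD hK hcn hin) hin).2
      rw [← h6]
      refine integral_congr_ae (Eventually.of_forall fun z => ?_)
      beta_reduce; ring
    have s2 : ∫ z, ζ z * f (ofComplex z) * ‖u 0 z‖ ^ 2 = ∫ z in D, f z * p z ^ 2 := by
      have hpf : IntegrableOn (fun z => f z * p z ^ 2) D (volume : Measure ℍ) := by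
        refine Integrable.bdd_mul hpsq hf.aestronglyMeasurable.restrict
          (Eventually.of_forall fun z => ?_) (c := B)
        rw [Real.norm_eq_abs]; exact hB z
      have hin : ∀ γ ∈ Γ, ∀ z, f (γ • z) * p (γ • z) ^ 2 = f z * p z ^ 2 := fun γ hγ z => by
        rw [hfi γ hγ, hpi γ hγ]
      have h6 := (h5 (fun z => f z * p z ^ 2) (hf.measurable.mul (hpm.pow_const 2)) hpf hin).2
      rw [← h6]
      refine integral_congr_ae ?_
      have hpw' := (ae_restrict_iff' isOpen_UH.measurableSet).1 hpw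
      filter_upwards [hpw'] with z hz
      by_cases hzU : z ∈ UH
      · rw [hz hzU, Complex.norm_real, Real.norm_eq_abs, sq_abs]
        ring
      · have h0 : ζ z = 0 := image_eq_zero_of_notMem_tsupport fun hh => hzU (h3 hh)
        rw [h0]; ring
    rw [s1, s2] at hn
    rw [Surf.surfAvg_eq, Surf.surfAvg_eq]
    have e1 : 3 * (((volume : Measure ℍ) D).toReal⁻¹ * ∫ z in D, f z * p z ^ 2) - ε
        = ((volume : Measure ℍ) D).toReal⁻¹ * (3 * (∫ z in D, f z * p z ^ 2)
          - ε * ((volume : Measure ℍ) D).toReal) := by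
      field_simp
    rw [e1]
    exact mul_le_mul_of_nonneg_left hn (by positivity)
  · -- third moments
    intro f hf hfi
    refine surf_third hD hK hc hinv hC (fun ζ hζ => ?_) hf hfi
    have L : JetLim UH h aH (fun n z => (φ n (ofComplex z) : ℂ)) u := ⟨hu, hw⟩
    have h6 := S.jets_three_var L (fun ρ hρ hρ0 => by
      have hρr : Continuous ρ := by
        have := Complex.continuous_re.comp hρ.smooth.continuous
        exact this
      have hρt : tsupport (fun z => (ρ z : ℂ)) = tsupport ρ := by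
        unfold tsupport
        congr 1
        ext z
        simp
      exact hN ρ hρr (by
        have := hρ.supp
        unfold HasCompactSupport at this ⊢
        rwa [hρt] at this) (by rw [← hρt]; exact hρ.sub) hρ0) hζ 0 0 0 (by norm_num)
    refine h6.congr fun n => ?_
    refine integral_congr_ae (Eventually.of_forall fun z => ?_)
    show ζ z * ((φ n (ofComplex z) : ℂ) * (φ n (ofComplex z) : ℂ) * (φ n (ofComplex z) : ℂ))
      = ζ z * (φ n (ofComplex z) : ℂ) ^ 3
    ring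

end

end QE
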