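import Pool.Agent.LibH11.QEV.Wrap

/-!
From local inequalities to inequalities for averages over closed surfaces (helper70).
-/

open MeasureTheory Filter Topology Set MatrixGroups UpperHalfPlane
open scoped ContDiff

namespace QE

noncomputable section

variable {Γ : Subgroup SL(2, ℝ)} {ρ : ℍ → ℝ} {D : Set ℍ}

/-- **From local lower bounds to lower bounds for averages.** -/
theorem global_ge [Countable Γ] (hg : Berry.Geo Γ ρ D) (hρ : Continuous ρ)
    (hK : ∃ K : Set ℍ, IsCompact K ∧ ∀ z, ∃ γ ∈ Γ, γ • z ∈ K) {w : ℍ → ℝ} (hw : Continuous w)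
    (hw0 : ∀ z, 0 ≤ w z) (hwi : ∀ γ ∈ Γ, ∀ z, w (γ • z) = w z) {F : ℕ → ℍ → ℝ}
    (hF : ∀ᶠ n in atTop, Continuous (F n)) (hinv : ∀ n, ∀ γ ∈ Γ, ∀ z, F n (γ • z) = F n z)
    (hbd : ∀ K : Set ℂ, IsCompact K → K ⊆ HH → ∃ C : ℝ, ∀ᶠ n in atTop,
      ∫ z in K, |F n (ofComplex z)| ≤ C)
    (hloc : ∀ ψ : ℂ → ℝ, ContDiff ℝ ∞ ψ → HasCompactSupport ψ → tsupport ψ ⊆ HH →
      (∀ z, 0 ≤ ψ z) → ∀ ε > 0, ∀ᶠ n in atTop, -ε ≤ ∫ z, ψ z * F n (ofComplex z)) {ε : ℝ}
    (hε : 0 < ε) : ∀ᶠ n in atTop, -ε ≤ Berry.rAvg ρ D (fun z => w z * F n z) := by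
  obtain ⟨ξ, hξc, hξs, hξU, hξ0, -, h5⟩ := exists_test' (K' := ∅) hg.dom hg.meas hK hρ hg.inv
    isCompact_empty (empty_subset _)
  set ζ : ℂ → ℝ := fun z => ξ z * w (ofComplex z) with hζdef
  have hζc : Continuous ζ := Surf.continuous_cut_mul hξc hξU hw
  have hζs : HasCompactSupport ζ := hξs.mul_right
  have hζU : tsupport ζ ⊆ HH := (closure_mono (Function.support_mul_subset_left _ _)).trans hξU
  have hζ0 : ∀ z, 0 ≤ ζ z := fun z => mul_nonneg (hξ0 z) (hw0 _)
  have hKc : IsCompact (tsupport ζ) := hζs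
  obtain ⟨C, hC⟩ := hbd _ hKc hζU
  set A := (Berry.area ρ D).toReal with hA
  have hA0 : 0 < A := ENNReal.toReal_pos (Berry.area_ne_zero hg) (Berry.area_ne_top hg)
  have hlim : ∀ ε > 0, ∀ᶠ n in atTop, -ε ≤ ∫ w, ζ w * F n (ofComplex w) := by
    intro ε hε
    set δ : ℝ := ε / (12 * (|C| + 1)) with hδ
    have hδ0 : 0 < δ := by positivity
    obtain ⟨ψ, hψ, hψ1, hψ2⟩ := exists_smooth_between hζc hδ0
    have hψ0 : ∀ z, 0 ≤ ψ z := fun z => (le_max_right _ _).trans (hψ1 z)
    have hsupp : Function.support ψ ⊆ Function.support ζ := by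
      intro z hz hz0
      apply hz
      have h1 := hψ2 z
      rw [hz0, max_eq_right (by linarith)] at h1
      exact le_antisymm h1 (hψ0 z)
    have hts : tsupport ψ ⊆ tsupport ζ := closure_mono hsupp
    have hψs : HasCompactSupport ψ := hKc.of_isClosed_subset (isClosed_tsupport _) hts
    have hclose : ∀ z, |ζ z - ψ z| ≤ 3 * δ := by
      intro z
      have h1 := hψ1 z
      have h2 := hψ2 z
      have h3 := hζ0 z
      have h4 := le_max_left (ζ z - 3 * δ) 0
      have h5 : max (ζ z - δ) 0 ≤ ζ z := max_le (by linarith) h3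
      rw [abs_le]
      constructor <;> linarith
    have hl := hloc ψ hψ hψs (hts.trans hζU) hψ0 (ε / 2) (by positivity)
    filter_upwards [hC, hF, hl] with n h1 h2 h3
    have iζ : Integrable (fun w => ζ w * F n (ofComplex w)) :=
      (Surf.continuous_cut_mul hζc hζU h2).integrable_of_hasCompactSupport hζs.mul_right
    have iψ : Integrable (fun w => ψ w * F n (ofComplex w)) :=
      (Surf.continuous_cut_mul hψ.continuous (hts.trans hζU) h2).integrable_of_hasCompactSupport
        hψs.mul_right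
    have hFc : ContinuousOn (fun z : ℂ => F n (ofComplex z)) HH := by
      intro z hz
      exact (h2.continuousAt.comp (contMDiffAt_ofComplex (n := 0) hz).continuousAt).continuousWithinAt
    have hdiff : |(∫ w, ζ w * F n (ofComplex w)) - ∫ w, ψ w * F n (ofComplex w)| ≤ 3 * δ * |C| := by
      rw [← integral_sub iζ iψ]
      have e1 : ∫ w, (ζ w * F n (ofComplex w) - ψ w * F n (ofComplex w))
          = ∫ w in tsupport ζ, (ζ w - ψ w) * F n (ofComplex w) := by
        rw [setIntegral_eq_integral_of_forall_compl_eq_zero]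
        · congr 1; funext w; ring
        · intro z hz
          rw [image_eq_zero_of_notMem_tsupport hz,
            image_eq_zero_of_notMem_tsupport (fun hz' => hz (hts hz')), sub_zero, zero_mul]
      rw [e1, ← Real.norm_eq_abs]
      calc ‖∫ w in tsupport ζ, (ζ w - ψ w) * F n (ofComplex w)‖
          ≤ ∫ w in tsupport ζ, 3 * δ * |F n (ofComplex w)| := by
            refine norm_integral_le_of_norm_le ?_ (Eventually.of_forall fun w => ?_)
            · exact ((hFc.mono hζU).abs.integrableOn_compact hKc).const_mul _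
            · rw [norm_mul, Real.norm_eq_abs, Real.norm_eq_abs]
              exact mul_le_mul_of_nonneg_right (hclose w) (abs_nonneg _)
        _ ≤ 3 * δ * |C| := by
            rw [integral_const_mul]
            have := h1.trans (le_abs_self C)
            gcongr
    have h6 : 3 * δ * |C| ≤ ε / 4 := by
      have h7 : 0 ≤ |C| := abs_nonneg C
      calc 3 * δ * |C| ≤ 3 * δ * (|C| + 1) := by gcongr; linarith
        _ = ε / 4 := by rw [hδ]; field_simp; norm_num
    have h8 := (abs_le.1 hdiff).1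
    linarith
  filter_upwards [hF, hlim (A * ε) (by positivity)] with n hn h9
  rw [rAvg_eq hg hK hξc hξs hξU h5 (f := fun z => w z * F n z) (hw.mul hn)
    (fun γ hγ z => by rw [hwi γ hγ, hinv n γ hγ]), ← hA]
  have e : ∫ z, ξ z * (w (ofComplex z) * F n (ofComplex z)) = ∫ z, ζ z * F n (ofComplex z) := by
    congr 1; funext z; rw [hζdef]; ring
  rw [e]
  calc -ε = A⁻¹ * (-(A * ε)) := by field_simp
    _ ≤ A⁻¹ * ∫ w, ζ w * F n (ofComplex w) := by gcongr

namespace WS

variable {φ : ℕ → ℍ → ℝ} {m h : ℕ → ℝ} {g' : ℂ → ℂ} {k r : ℕ}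

/-- the rotation averages of the displaced products are the integrals of the products of the local
waves -/
lemma ang_eq (W : WS Γ ρ D φ m h g') (x : Fin k → ℂ) {ψ : ℂ → ℝ} (hψ : ContDiff ℝ ∞ ψ)
    (hψs : HasCompactSupport ψ) (hψU : tsupport ψ ⊆ HH) :
    ∀ᶠ n in atTop, ∫ θ, (∫ z, (ψ z : ℂ) * ∏ i, (φ n (ofComplex (z + h n * wt (gw ρ) z
        * frXi h (em ρ) (x i) n θ z)) : ℂ)) ∂ang
      = ((∫ z, ψ z * angProd ρ (φ n) (m n) x (ofComplex z) : ℝ) : ℂ) := by
  set K := tsupport ψ with hKdef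
  have hKc : IsCompact K := hψs
  filter_upwards [W.val x hψU, W.jc x hψU] with n n1 n2
  have hset : ∀ f : ℂ → ℝ, ∫ z, ψ z * f z = ∫ z in K, ψ z * f z := by
    intro f
    rw [setIntegral_eq_integral_of_forall_compl_eq_zero]
    intro z hz
    rw [image_eq_zero_of_notMem_tsupport hz, zero_mul]
  have cψ : ContinuousOn (fun p : ℝ × ℂ => ψ p.2) (univ ×ˢ K) :=
    (hψ.continuous.comp continuous_snd).continuousOn
  have cH : ContinuousOn (fun p : ℝ × ℂ => ψ p.2 * ∏ i, Berry.rWave ρ (φ n) (m n) (x i)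
      (ofComplex p.2, p.1)) (univ ×ˢ K) :=
    cψ.mul (continuousOn_finsetProd _ fun i _ => n2 i)
  have iH := real_int_ang hKc cH
  have e1 : ∀ θ : ℝ, ∫ z, (ψ z : ℂ) * ∏ i, (φ n (ofComplex (z + h n * wt (gw ρ) z
      * frXi h (em ρ) (x i) n θ z)) : ℂ)
      = ((∫ z in K, ψ z * ∏ i, Berry.rWave ρ (φ n) (m n) (x i) (ofComplex z, θ) : ℝ) : ℂ) := by
    intro θ
    rw [← hset]
    refine Eq.trans ?_ (integral_ofReal (𝕜 := ℂ) (μ := volume) (f := fun z : ℂ => ψ z
      * ∏ i, Berry.rWave ρ (φ n) (m n) (x i) (ofComplex z, θ)))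
    refine integral_congr_ae (Eventually.of_forall fun z => ?_)
    change _ = ((ψ z * ∏ i, Berry.rWave ρ (φ n) (m n) (x i) (ofComplex z, θ) : ℝ) : ℂ)
    beta_reduce
    by_cases hz : z ∈ K
    · rw [Complex.ofReal_mul, Complex.ofReal_prod]
      congr 1
      refine Finset.prod_congr rfl fun i _ => ?_
      rw [n1 i θ z hz]
    · rw [image_eq_zero_of_notMem_tsupport hz]; simp
  simp only [e1]
  refine (integral_ofReal (𝕜 := ℂ) (μ := ang) (f := fun θ : ℝ => ∫ z in K, ψ z
    * ∏ i, Berry.rWave ρ (φ n) (m n) (x i) (ofComplex z, θ))).trans ?_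
  rw [integral_integral_swap iH, hset]
  congr 1
  refine integral_congr_ae (Eventually.of_forall fun z => ?_)
  unfold angProd
  beta_reduce
  rw [integral_const_mul]

/-- the mean over the angle of the fourth power of the statistic, minus a multiple of the fourth
power of the wave -/
def statF (ρ : ℍ → ℝ) (φ : ℕ → ℍ → ℝ) (m : ℕ → ℝ) (σ β : ℝ) (c : Fin r → ℝ) (x : Fin r → ℂ)
    (n : ℕ) (z : ℍ) : ℝ :=
  σ * ((∑ q : Fin 4 → Fin r, (∏ j, c (q j)) * angProd ρ (φ n) (m n) (fun j => x (q j)) z)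
    - β * φ n z ^ 4)

lemma statF_cont (W : WS Γ ρ D φ m h g') (σ β : ℝ) (c : Fin r → ℝ) (x : Fin r → ℂ) :
    ∀ᶠ n in atTop, Continuous (statF ρ φ m σ β c x n) := by
  have h1 : ∀ᶠ n in atTop, ∀ q : Fin 4 → Fin r,
      Continuous (angProd ρ (φ n) (m n) (fun j => x (q j))) :=
    eventually_all.2 fun q => W.ac _
  filter_upwards [h1] with n hn
  exact continuous_const.mul ((continuous_finsetSum _ fun q _ => continuous_const.mul (hn q)).sub
    (continuous_const.mul ((W.pc n).pow 4)))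

lemma prod_four_le (a : Fin 4 → ℝ) : |∏ i, a i| ≤ 1 + ∑ i, a i ^ 4 := by
  rw [Fin.prod_univ_four, Fin.sum_univ_four]
  have h1 : |a 0 * a 1 * a 2 * a 3| ≤ a 0 ^ 4 + a 1 ^ 4 + a 2 ^ 4 + a 3 ^ 4 := by
    rw [abs_le]
    constructor <;>
    nlinarith [sq_nonneg (a 0 * a 1 + a 2 * a 3), sq_nonneg (a 0 * a 1 - a 2 * a 3),
      sq_nonneg (a 0 ^ 2 - a 1 ^ 2), sq_nonneg (a 2 ^ 2 - a 3 ^ 2), sq_nonneg (a 0 ^ 2 + a 1 ^ 2),
      sq_nonneg (a 0 ^ 2), sq_nonneg (a 1 ^ 2), sq_nonneg (a 2 ^ 2), sq_nonneg (a 3 ^ 2)]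
  linarith

lemma statF_bdd (W : WS Γ ρ D φ m h g') (σ β : ℝ) (c : Fin r → ℝ) (x : Fin r → ℂ) {K : Set ℂ}
    (hKc : IsCompact K) (hKU : K ⊆ HH) : ∃ C : ℝ, ∀ᶠ n in atTop,
      ∫ z in K, |statF ρ φ m σ β c x n (ofComplex z)| ≤ C := by
  have h1 : ∀ q : Fin 4 → Fin r, ∃ C : ℝ, ∀ᶠ n in atTop,
      ∫ z in K, |angProd ρ (φ n) (m n) (fun j => x (q j)) (ofComplex z)| ≤ C := fun q =>
    W.angProd_bdd _ prod_four_le hKc hKU
  choose C hC using h1
  obtain ⟨M, hM⟩ := W.bdd4 hKc hKU
  refine ⟨|σ| * ((∑ q : Fin 4 → Fin r, |∏ j, c (q j)| * C q) + |β| * M), ?_⟩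
  have h2 : ∀ᶠ n in atTop, ∀ q : Fin 4 → Fin r,
      Continuous (angProd ρ (φ n) (m n) (fun j => x (q j))) :=
    eventually_all.2 fun q => W.ac _
  filter_upwards [eventually_all.2 hC, hM, h2] with n n1 n2 n3
  have cφ : ContinuousOn (fun z : ℂ => φ n (ofComplex z)) HH := cont_ofComplex (W.pc n)
  have iA : ∀ q : Fin 4 → Fin r, IntegrableOn
      (fun z => |∏ j, c (q j)| * |angProd ρ (φ n) (m n) (fun j => x (q j)) (ofComplex z)|) K :=
    fun q => (((cont_ofComplex (n3 q)).mono hKU).abs.integrableOn_compact hKc).const_mul _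
  have i4 : IntegrableOn (fun z : ℂ => |β| * φ n (ofComplex z) ^ 4) K :=
    (continuousOn_const.mul ((cφ.mono hKU).pow 4)).integrableOn_compact hKc
  have iS : IntegrableOn (fun z => ∑ q : Fin 4 → Fin r,
      |∏ j, c (q j)| * |angProd ρ (φ n) (m n) (fun j => x (q j)) (ofComplex z)|) K :=
    integrable_finsetSum _ fun q _ => iA q
  calc ∫ z in K, |statF ρ φ m σ β c x n (ofComplex z)|
      ≤ ∫ z in K, |σ| * ((∑ q : Fin 4 → Fin r,
        |∏ j, c (q j)| * |angProd ρ (φ n) (m n) (fun j => x (q j)) (ofComplex z)|)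
        + |β| * φ n (ofComplex z) ^ 4) := by
        refine integral_mono_of_nonneg (Eventually.of_forall fun z => abs_nonneg _)
          ((iS.add i4).const_mul _) (Eventually.of_forall fun z => ?_)
        beta_reduce
        unfold statF
        rw [abs_mul]
        refine mul_le_mul_of_nonneg_left ?_ (abs_nonneg _)
        refine (abs_sub _ _).trans (add_le_add ?_ ?_)
        · refine (Finset.abs_sum_le_sum_abs _ _).trans (le_of_eq ?_)
          exact Finset.sum_congr rfl fun q _ => abs_mul _ _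
        · rw [abs_mul, abs_of_nonneg (by positivity : 0 ≤ φ n (ofComplex z) ^ 4)]
    _ = |σ| * ((∑ q : Fin 4 → Fin r, |∏ j, c (q j)|
          * ∫ z in K, |angProd ρ (φ n) (m n) (fun j => x (q j)) (ofComplex z)|)
          + |β| * ∫ z in K, φ n (ofComplex z) ^ 4) := by
        rw [integral_const_mul, integral_add iS i4, integral_const_mul,
          integral_finsetSum _ fun q _ => iA q]
        congr 2
        exact Finset.sum_congr rfl fun q _ => integral_const_mul _ _
    _ ≤ _ := by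
        refine mul_le_mul_of_nonneg_left (add_le_add (Finset.sum_le_sum fun q _ => ?_) ?_)
          (abs_nonneg _)
        · exact mul_le_mul_of_nonneg_left (n1 q) (abs_nonneg _)
        · exact mul_le_mul_of_nonneg_left n2 (abs_nonneg _)

/-- **Inequalities for the fourth moments of linear statistics** from the local inequalities -/
theorem stat_ge [Countable Γ] (W : WS Γ ρ D φ m h g') {w : ℍ → ℝ} (hw : Continuous w)
    (hw0 : ∀ z, 0 ≤ w z) (hwi : ∀ γ ∈ Γ, ∀ z, w (γ • z) = w z) (σ β : ℝ) (c : Fin r → ℝ)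
    (x : Fin r → ℂ)
    (hloc : ∀ ψ : ℂ → ℝ, ContDiff ℝ ∞ ψ → HasCompactSupport ψ → tsupport ψ ⊆ HH →
      (∀ z, 0 ≤ ψ z) → ∀ ε > 0, ∀ᶠ n in atTop, -ε ≤ σ * ((∑ q : Fin 4 → Fin r, (∏ j, c (q j))
        * ∫ z, ψ z * angProd ρ (φ n) (m n) (fun j => x (q j)) (ofComplex z))
        - β * ∫ z, ψ z * φ n (ofComplex z) ^ 4)) {ε : ℝ} (hε : 0 < ε) :
    ∀ᶠ n in atTop, -ε ≤ σ * ((∫ p, w p.1 * (∑ i, c i * Berry.rWave ρ (φ n) (m n) (x i) p) ^ 4
      ∂(Berry.rFrameProb ρ D)) - β * Berry.rAvg ρ D fun z => w z * φ n z ^ 4) := by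
  have main := global_ge (F := statF ρ φ m σ β c x) W.geo W.rc W.coc hw hw0 hwi
    (W.statF_cont σ β c x)
    (fun n γ hγ z => by
      unfold statF
      rw [W.pinv n γ hγ z]
      congr 2
      refine Finset.sum_congr rfl fun q _ => ?_
      rw [angProd_inv (W.pinv n) W.geo.inv (m n) _ γ hγ z])
    (fun K hKc hKU => W.statF_bdd σ β c x hKc hKU)
    (fun ψ hψ hψs hψU hψ0 ε hε => by
      have h2 : ∀ᶠ n in atTop, ∀ q : Fin 4 → Fin r,
          Continuous (angProd ρ (φ n) (m n) (fun j => x (q j))) :=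
        eventually_all.2 fun q => W.ac _
      filter_upwards [hloc ψ hψ hψs hψU hψ0 ε hε, h2] with n n1 n2
      have j1 : ∀ q : Fin 4 → Fin r, Integrable (fun z => (∏ j, c (q j))
          * (ψ z * angProd ρ (φ n) (m n) (fun j => x (q j)) (ofComplex z))) := fun q =>
        ((Surf.continuous_cut_mul hψ.continuous hψU (n2 q)).integrable_of_hasCompactSupport
          hψs.mul_right).const_mul _
      have j3 : Integrable (fun z => β * (ψ z * φ n (ofComplex z) ^ 4)) :=
        ((Surf.continuous_cut_mul hψ.continuous hψU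
          ((W.pc n).pow 4)).integrable_of_hasCompactSupport hψs.mul_right).const_mul _
      have e : ∫ z, ψ z * statF ρ φ m σ β c x n (ofComplex z)
          = σ * ((∑ q : Fin 4 → Fin r, (∏ j, c (q j))
            * ∫ z, ψ z * angProd ρ (φ n) (m n) (fun j => x (q j)) (ofComplex z))
            - β * ∫ z, ψ z * φ n (ofComplex z) ^ 4) := by
        have e1 : ∀ z, ψ z * statF ρ φ m σ β c x n (ofComplex z)
            = σ * ((∑ q : Fin 4 → Fin r, (∏ j, c (q j))
              * (ψ z * angProd ρ (φ n) (m n) (fun j => x (q j)) (ofComplex z)))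
              - β * (ψ z * φ n (ofComplex z) ^ 4)) := by
          intro z
          unfold statF
          have e2 : ∑ q : Fin 4 → Fin r, (∏ j, c (q j))
              * (ψ z * angProd ρ (φ n) (m n) (fun j => x (q j)) (ofComplex z))
              = ψ z * ∑ q : Fin 4 → Fin r, (∏ j, c (q j))
              * angProd ρ (φ n) (m n) (fun j => x (q j)) (ofComplex z) := by
            rw [Finset.mul_sum]
            exact Finset.sum_congr rfl fun q _ => by ring
          rw [e2]; ring
        simp only [e1]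
        rw [integral_const_mul, integral_sub (integrable_finsetSum _ fun q _ => j1 q) j3,
          integral_const_mul, integral_finsetSum _ fun q _ => j1 q]
        congr 2
        exact Finset.sum_congr rfl fun q _ => integral_const_mul _ _
      rw [e]
      exact n1) hε
  have h2 : ∀ᶠ n in atTop, ∀ q : Fin 4 → Fin r,
      Continuous (angProd ρ (φ n) (m n) (fun j => x (q j))) :=
    eventually_all.2 fun q => W.ac _
  filter_upwards [main, W.wc x, h2] with n n0 hn1 hn2
  have hcond : IsProbabilityMeasure (ProbabilityTheory.cond (Berry.area ρ) D) :=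
    ProbabilityTheory.cond_isProbabilityMeasure_of_finite (Berry.area_ne_zero W.geo)
      (Berry.area_ne_top W.geo)
  obtain ⟨C₂, hC₂⟩ := Berry.bdd_of_cocompact (W.pc n) (W.pinv n) W.coc
  obtain ⟨Cw, hCw⟩ := Berry.bdd_of_cocompact hw hwi W.coc
  have i1 : ∀ q : Fin 4 → Fin r, Integrable (fun z => (∏ j, c (q j))
      * (w z * angProd ρ (φ n) (m n) (fun j => x (q j)) z))
      (ProbabilityTheory.cond (Berry.area ρ) D) := by
    intro q
    obtain ⟨C₁, hC₁⟩ := Berry.bdd_of_cocompact (hw.mul (hn2 q))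
      (fun γ hγ z => by
        show w (γ • z) * angProd ρ (φ n) (m n) _ (γ • z) = w z * angProd ρ (φ n) (m n) _ z
        rw [hwi γ hγ, angProd_inv (W.pinv n) W.geo.inv (m n) _ γ hγ z]) W.coc
    refine Integrable.const_mul ?_ _
    exact Integrable.of_bound (hw.mul (hn2 q)).aestronglyMeasurable C₁
      (Eventually.of_forall fun z => by rw [Real.norm_eq_abs]; exact hC₁ z)
  have i2' : Integrable (fun z => w z * φ n z ^ 4) (ProbabilityTheory.cond (Berry.area ρ) D) := by
    obtain ⟨C₃, hC₃⟩ := Berry.bdd_of_cocompact (f := fun z => w z * φ n z ^ 4)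
      (hw.mul ((W.pc n).pow 4)) (fun γ hγ z => by rw [hwi γ hγ, W.pinv n γ hγ]) W.coc
    exact Integrable.of_bound (hw.mul ((W.pc n).pow 4)).aestronglyMeasurable C₃
      (Eventually.of_forall fun z => by rw [Real.norm_eq_abs]; exact hC₃ z)
  have i2 : Integrable (fun z => β * (w z * φ n z ^ 4))
      (ProbabilityTheory.cond (Berry.area ρ) D) := i2'.const_mul _
  have i3' : ∀ q : Fin 4 → Fin r, Integrable
      (fun p : ℍ × ℝ => w p.1 * ∏ j, Berry.rWave ρ (φ n) (m n) (x (q j)) p)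
      ((ProbabilityTheory.cond (Berry.area ρ) D).prod ang) := by
    intro q
    refine Integrable.of_bound ((hw.comp continuous_fst).mul (continuous_finsetProd _ fun i _ =>
      hn1 (q i))).aestronglyMeasurable (Cw * ∏ _i : Fin 4, |C₂|)
      (Eventually.of_forall fun p => ?_)
    rw [norm_mul, norm_prod]
    have h1 : ‖w p.1‖ ≤ Cw := by rw [Real.norm_eq_abs]; exact hCw _
    refine mul_le_mul h1 ?_ (by positivity) ((norm_nonneg _).trans h1)
    refine Finset.prod_le_prod (fun _ _ => norm_nonneg _) fun i _ => ?_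
    rw [Real.norm_eq_abs]
    exact (hC₂ _).trans (le_abs_self _)
  have i3 : ∀ q : Fin 4 → Fin r, Integrable (fun p : ℍ × ℝ => (∏ j, c (q j))
      * (w p.1 * ∏ j, Berry.rWave ρ (φ n) (m n) (x (q j)) p))
      ((ProbabilityTheory.cond (Berry.area ρ) D).prod ang) := fun q => (i3' q).const_mul _
  have e1 : ∫ p, w p.1 * (∑ i, c i * Berry.rWave ρ (φ n) (m n) (x i) p) ^ 4
        ∂(Berry.rFrameProb ρ D)
      = ∑ q : Fin 4 → Fin r, (∏ j, c (q j))
        * ∫ z, w z * angProd ρ (φ n) (m n) (fun j => x (q j)) z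
          ∂(ProbabilityTheory.cond (Berry.area ρ) D) := by
    have e2 : ∀ p : ℍ × ℝ, w p.1 * (∑ i, c i * Berry.rWave ρ (φ n) (m n) (x i) p) ^ 4
        = ∑ q : Fin 4 → Fin r, (∏ j, c (q j))
          * (w p.1 * ∏ j, Berry.rWave ρ (φ n) (m n) (x (q j)) p) := by
      intro p
      rw [Fintype.sum_pow, Finset.mul_sum]
      refine Finset.sum_congr rfl fun q _ => ?_
      rw [Finset.prod_mul_distrib]; ring
    simp only [e2]
    unfold Berry.rFrameProb
    rw [integral_finsetSum _ fun q _ => i3 q]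
    refine Finset.sum_congr rfl fun q _ => ?_
    rw [integral_const_mul]
    congr 1
    rw [integral_prod _ (i3' q)]
    refine integral_congr_ae (Eventually.of_forall fun z => ?_)
    unfold angProd
    beta_reduce
    rw [← integral_const_mul]
  have e3 : Berry.rAvg ρ D (fun z => w z * statF ρ φ m σ β c x n z)
      = σ * ((∫ p, w p.1 * (∑ i, c i * Berry.rWave ρ (φ n) (m n) (x i) p) ^ 4
      ∂(Berry.rFrameProb ρ D)) - β * Berry.rAvg ρ D fun z => w z * φ n z ^ 4) := by
    rw [e1]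
    have e4 : ∀ z, w z * statF ρ φ m σ β c x n z = σ * ((∑ q : Fin 4 → Fin r, (∏ j, c (q j))
        * (w z * angProd ρ (φ n) (m n) (fun j => x (q j)) z)) - β * (w z * φ n z ^ 4)) := by
      intro z
      unfold statF
      have e5 : ∑ q : Fin 4 → Fin r, (∏ j, c (q j))
          * (w z * angProd ρ (φ n) (m n) (fun j => x (q j)) z)
          = w z * ∑ q : Fin 4 → Fin r, (∏ j, c (q j))
          * angProd ρ (φ n) (m n) (fun j => x (q j)) z := by
        rw [Finset.mul_sum]
        exact Finset.sum_congr rfl fun q _ => by ring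
      rw [e5]; ring
    simp only [e4]
    unfold Berry.rAvg
    rw [integral_const_mul, integral_sub (integrable_finsetSum _ fun q _ => i1 q) i2,
      integral_const_mul, integral_finsetSum _ fun q _ => i1 q]
    congr 2
    exact Finset.sum_congr rfl fun q _ => integral_const_mul _ _
  rw [← e3]
  exact n0

end WS

end

end QE
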