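import Pool.Agent.Lib_helper67.QE.LinModel

/-!
The local inequalities for the fourth moments of linear statistics (helper70).
-/

open Complex MeasureTheory Filter Topology Set
open scoped ContDiff

namespace QE

noncomputable section

variable {U : Set ℂ} {h : ℕ → ℝ} {a : ℂ → ℂ} {g : ℂ → ℂ} {φ : ℕ → ℂ → ℂ} {u : ℤ → ℂ → ℂ}

/-- **the upper bound for linear combinations of jets** -/
theorem lin_jets_upper (S : Setup U g a h φ) (L : JetLim U h a φ u) {ρ : ℂ → ℝ}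
    (hρs : ContDiff ℝ ∞ ρ) (hρc : HasCompactSupport ρ) (hρU : tsupport ρ ⊆ U) (hρ0 : ∀ z, 0 ≤ ρ z)
    (hb : ∀ k, ∀ᵐ z ∂((volume : Measure ℂ).restrict U), ‖u k z‖ ≤ ‖u 0 z‖) (N : ℕ) {t : ℤ → ℂ}
    (ht : ∀ j, t (-j) = (-1) ^ j * (starRingEnd ℂ) (t j)) {ε : ℝ} (hε : 0 < ε) :
    ∀ᶠ n in atTop, (∑ j ∈ Finset.Icc (-(N : ℤ)) N, ∑ m ∈ Finset.Icc (-(N : ℤ)) N,
        ∑ k ∈ Finset.Icc (-(N : ℤ)) N, ∑ l ∈ Finset.Icc (-(N : ℤ)) N,
        (if j + m + k + l = 0 then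
        (t j * t m * t k * t l) * ∫ z, (ρ z : ℂ) * (E h a φ j n z * E h a φ m n z
          * (E h a φ k n z * E h a φ l n z)) else 0)).re
      ≤ (∑ s ∈ Finset.Icc (-(2 * N : ℤ)) (2 * N), cS (Finset.Icc (-(N : ℤ)) N) t s
          * cS (Finset.Icc (-(N : ℤ)) N) t (-s)).re * (∫ z, ρ z * (φ n z).re ^ 4) + ε := by
  have hT : Test U (fun z => (ρ z : ℂ)) := by
    refine ⟨ofRealCLM.contDiff.comp hρs, ?_, ?_⟩
    · unfold HasCompactSupport
      rw [Test.tsupport_eq]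
      exact hρc
    · rw [Test.tsupport_eq]; exact hρU
  set I := Finset.Icc (-(N : ℤ)) (N : ℤ) with hI
  set J := Finset.Icc (-(2 * N : ℤ)) (2 * N : ℤ) with hJdef
  have hJ : ∀ a ∈ I, ∀ b ∈ I, a + b ∈ J := by
    intro a ha b hb
    rw [hI, Finset.mem_Icc] at ha hb
    rw [hJdef, Finset.mem_Icc]
    constructor <;> omega
  have hIneg : ∀ a, a ∈ I ↔ -a ∈ I := by
    intro a
    rw [hI, Finset.mem_Icc, Finset.mem_Icc]
    constructor <;> intro h <;> constructor <;> omega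
  have hcc : ∀ s, cS I t s * cS I t (-s) = ((‖cS I t s‖ ^ 2 : ℝ) : ℂ) := by
    intro s
    rw [cS_neg hIneg ht, mul_conj, Complex.normSq_eq_norm_sq]
  have h2 := (Metric.tendsto_nhds.mp (lin_jets S L hT I J hJ t)) ε hε
  -- the coefficients are bounded by the density
  have hUU : ∀ s, UU u ρ s ≤ UU u ρ 0 := by
    intro s
    unfold UU
    refine integral_mono_ae (hT.int_sq (L.loc s)) (hT.int_sq (L.loc 0)) ?_
    have h3 := (ae_restrict_iff' S.op.measurableSet).1 (hb s)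
    filter_upwards [h3] with z hz
    by_cases hzU : z ∈ U
    · have := hz hzU
      have h4 := hρ0 z
      gcongr
    · have h0 : ρ z = 0 := image_eq_zero_of_notMem_tsupport fun hh => hzU (hρU hh)
      rw [h0]; simp
  filter_upwards [h2] with n h4
  set e : ℝ := (∫ z, ρ z * (φ n z).re ^ 4) - 3 * UU u ρ 0 with he
  rw [dist_zero_right] at h4
  set Z : ℂ := ∑ j ∈ I, ∑ m ∈ I, ∑ k ∈ I, ∑ l ∈ I, (if j + m + k + l = 0 then
        (t j * t m * t k * t l) * ∫ z, (ρ z : ℂ) * (E h a φ j n z * E h a φ m n z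
          * (E h a φ k n z * E h a φ l n z)) else 0) with hZ
  have hre : ∑ s ∈ J, cS I t s * cS I t (-s) * ((3 * UU u ρ s + e : ℝ) : ℂ)
      = ((∑ s ∈ J, ‖cS I t s‖ ^ 2 * (3 * UU u ρ s + e) : ℝ) : ℂ) := by
    rw [ofReal_sum]
    refine Finset.sum_congr rfl fun s _ => ?_
    rw [hcc, ofReal_mul]
  have hre2 : (∑ s ∈ J, cS I t s * cS I t (-s)).re = ∑ s ∈ J, ‖cS I t s‖ ^ 2 := by
    simp only [hcc]
    rw [← ofReal_sum, ofReal_re]
  rw [hre] at h4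
  have h5 := (abs_le.1 ((Complex.abs_re_le_norm _).trans h4.le)).2
  rw [Complex.sub_re, ofReal_re] at h5
  have h6 : ∑ s ∈ J, ‖cS I t s‖ ^ 2 * (3 * UU u ρ s + e)
      ≤ (∑ s ∈ J, ‖cS I t s‖ ^ 2) * ∫ z, ρ z * (φ n z).re ^ 4 := by
    rw [Finset.sum_mul]
    refine Finset.sum_le_sum fun s _ => ?_
    have h7 : 3 * UU u ρ s + e ≤ ∫ z, ρ z * (φ n z).re ^ 4 := by
      have := hUU s
      rw [he]; linarith
    exact mul_le_mul_of_nonneg_left h7 (by positivity)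
  rw [hre2]
  linarith

namespace Setup

variable {r : ℕ}

/-- the rotation average of a product of four values of the wave -/
def rotP (h : ℕ → ℝ) (a : ℂ → ℂ) (φ : ℕ → ℂ → ℂ) (ζ : ℂ → ℂ) (ξ : Fin r → ℕ → ℝ → ℂ → ℂ)
    (q : Fin 4 → Fin r) (n : ℕ) : ℂ :=
  ∫ θ, (∫ z, ζ z * ∏ j, φ n (z + h n * a z * ξ (q j) n θ z)) ∂ang

/-- **The rotation averages and the jets** -/
theorem rot_jets (S : Setup U g a h φ) {K : Set ℂ} (hK : IsCompact K) {δ : ℝ} (hδ : 0 < δ)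
    (hδU : Metric.cthickening (2 * δ) K ⊆ U) {κ : ℤ} (hκ : κ ≠ 0) (c : Fin r → ℝ) (x : Fin r → ℂ)
    (ξ : Fin r → ℕ → ℝ → ℂ → ℂ) (hξ : ∀ i, Disp h a K κ (x i) (ξ i)) {ζ : ℂ → ℂ}
    (hζ : Test U ζ) (hζK : tsupport ζ ⊆ K) {ε : ℝ} (hε : 0 < ε) :
    ∃ N₀ : ℕ, ∀ N ≥ N₀, ∀ᶠ n in atTop,
      ‖(∑ q : Fin 4 → Fin r, (∏ j, (c (q j) : ℂ)) * rotP h a φ ζ ξ q n)
        - ∑ j ∈ Finset.Icc (-(N : ℤ)) N, ∑ m ∈ Finset.Icc (-(N : ℤ)) N,
          ∑ k ∈ Finset.Icc (-(N : ℤ)) N, ∑ l ∈ Finset.Icc (-(N : ℤ)) N,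
          (if j + m + k + l = 0 then (tN c x N j * tN c x N m * tN c x N k * tN c x N l)
            * ∫ z, ζ z * (E h a φ j n z * E h a φ m n z * (E h a φ k n z * E h a φ l n z))
            else 0)‖ ≤ ε := by
  have hKU : K ⊆ U := (Metric.self_subset_cthickening K).trans hδU
  have hset : ∀ f : ℂ → ℂ, ∫ z, ζ z * f z = ∫ z in K, ζ z * f z := by
    intro f
    rw [setIntegral_eq_integral_of_forall_compl_eq_zero]
    intro z hz
    rw [image_eq_zero_of_notMem_tsupport (fun hz' => hz (hζK hz')), zero_mul]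
  have hζc : ContinuousOn ζ K := hζ.smooth.continuous.continuousOn
  set A : ℝ := ∑ q : Fin 4 → Fin r, ‖∏ j, (c (q j) : ℂ)‖ with hA
  have hA0 : 0 ≤ A := Finset.sum_nonneg fun q _ => norm_nonneg _
  have hε' : 0 < ε / (A + 1) := by positivity
  have h1 : ∀ q : Fin 4 → Fin r, ∃ N₀ : ℕ, ∀ N ≥ N₀, ∀ᶠ n in atTop,
      ‖rotP h a φ ζ ξ q n
        - ∑ p ∈ Fintype.piFinset (fun _ : Fin 4 => Finset.Icc (-(N : ℤ)) N),
          (∏ i, CN N (p i) (x (q i))) * ((if ∑ i, p i = 0 then 1 else 0)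
            * ∫ z, ζ z * ∏ i, E h a φ (p i) n z)‖ ≤ ε / (A + 1) := by
    intro q
    obtain ⟨N₀, hN₀⟩ := S.rot_close hK hδ hδU κ (fun _ => true) (fun i => x (q i))
      (fun i => ξ (q i)) (fun i => hξ (q i)) hζc hε'
    refine ⟨N₀, fun N hN => ?_⟩
    filter_upwards [hN₀ N hN] with n hn
    simp only [fld, tay, if_true] at hn
    have e1 := S.rot_expand hK hKU hκ (fun i => x (q i)) hζc N n
    simp only [Fin.prod_univ_four] at e1
    rw [e1] at hn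
    unfold rotP
    simp only [hset]
    simp only [Fin.prod_univ_four]
    exact hn
  choose N₀ hN₀ using h1
  refine ⟨∑ q, N₀ q, fun N hN => ?_⟩
  have hNq : ∀ q, N₀ q ≤ N := fun q =>
    (Finset.single_le_sum (f := N₀) (fun _ _ => Nat.zero_le _) (Finset.mem_univ q)).trans hN
  filter_upwards [eventually_all.2 fun q => hN₀ q N (hNq q)] with n hn
  have e1 : ∑ j ∈ Finset.Icc (-(N : ℤ)) N, ∑ m ∈ Finset.Icc (-(N : ℤ)) N,
      ∑ k ∈ Finset.Icc (-(N : ℤ)) N, ∑ l ∈ Finset.Icc (-(N : ℤ)) N,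
      (if j + m + k + l = 0 then (tN c x N j * tN c x N m * tN c x N k * tN c x N l)
        * ∫ z, ζ z * (E h a φ j n z * E h a φ m n z * (E h a φ k n z * E h a φ l n z))
        else 0)
      = ∑ q : Fin 4 → Fin r, (∏ j, (c (q j) : ℂ))
        * ∑ p ∈ Fintype.piFinset (fun _ : Fin 4 => Finset.Icc (-(N : ℤ)) N),
          (∏ i, CN N (p i) (x (q i))) * ((if ∑ i, p i = 0 then 1 else 0)
            * ∫ z, ζ z * ∏ i, E h a φ (p i) n z) := by
    rw [← lin_expand 4 (Finset.Icc (-(N : ℤ)) N) (fun i => (c i : ℂ)) (fun j i => CN N j (x i))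
      (fun p => (if ∑ i, p i = 0 then 1 else 0) * ∫ z, ζ z * ∏ i, E h a φ (p i) n z),
      ← sum_pi4 (Finset.Icc (-(N : ℤ)) N) (fun j m k l => if j + m + k + l = 0 then
        (tN c x N j * tN c x N m * tN c x N k * tN c x N l)
        * ∫ z, ζ z * (E h a φ j n z * E h a φ m n z * (E h a φ k n z * E h a φ l n z)) else 0)]
    refine Finset.sum_congr rfl fun p _ => ?_
    rw [Fin.prod_univ_four, Fin.sum_univ_four]
    have e2 : ∫ z, ζ z * ∏ i, E h a φ (p i) n z = ∫ z, ζ z * (E h a φ (p 0) n z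
        * E h a φ (p 1) n z * (E h a φ (p 2) n z * E h a φ (p 3) n z)) := by
      congr 1; funext z
      rw [Fin.prod_univ_four]; ring
    rw [e2]
    unfold tN
    by_cases hp : p 0 + p 1 + p 2 + p 3 = 0
    · simp only [if_pos hp, one_mul]
    · simp only [if_neg hp, mul_zero, zero_mul]
  rw [e1, ← Finset.sum_sub_distrib]
  calc _ ≤ ∑ q : Fin 4 → Fin r, ‖∏ j, (c (q j) : ℂ)‖ * (ε / (A + 1)) := by
        refine (norm_sum_le _ _).trans (Finset.sum_le_sum fun q _ => ?_)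
        rw [← mul_sub, norm_mul]
        exact mul_le_mul_of_nonneg_left (hn q) (norm_nonneg _)
    _ = A / (A + 1) * ε := by rw [← Finset.sum_mul, ← hA]; ring
    _ ≤ 1 * ε := by
        gcongr
        exact (div_le_one (by positivity)).2 (by linarith)
    _ = ε := one_mul ε

/-- the fourth moments against test functions are bounded -/
theorem fourth_bdd (S : Setup U g a h φ) {ρ : ℂ → ℝ} (hρ : Test U (fun z => (ρ z : ℂ))) :
    ∃ B : ℝ, 0 ≤ B ∧ ∀ᶠ n in atTop, |∫ z, ρ z * (φ n z).re ^ 4| ≤ B := by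
  obtain ⟨C₁, hC₁⟩ := (S.bd2 0 0).test_mul (S.sm2 0 0) (S.bd2 0 0) (S.sm2 0 0) hρ
  refine ⟨|C₁|, abs_nonneg _, ?_⟩
  filter_upwards [hC₁] with n hn
  have h1 := S.fourth_eq hρ n
  rw [h1, Complex.norm_real, Real.norm_eq_abs] at hn
  exact hn.trans (le_abs_self _)

/-- **The local lower bound for linear statistics.** -/
theorem lin_local_lower (S : Setup U g a h φ) (L : JetLim U h a φ u) {K : Set ℂ}
    (hK : IsCompact K) {δ : ℝ} (hδ : 0 < δ) (hδU : Metric.cthickening (2 * δ) K ⊆ U) {κ : ℤ}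
    (hκ : κ ≠ 0) (c : Fin r → ℝ) (x : Fin r → ℂ) (ξ : Fin r → ℕ → ℝ → ℂ → ℂ)
    (hξ : ∀ i, Disp h a K κ (x i) (ξ i)) {ρ : ℂ → ℝ} (hρs : ContDiff ℝ ∞ ρ)
    (hρc : HasCompactSupport ρ) (hρK : tsupport ρ ⊆ K) (hρ0 : ∀ z, 0 ≤ ρ z)
    (hN : Tendsto (fun N : ℕ => (1 / (N : ℝ)) * ∑ k ∈ Finset.Ioo (-(N : ℤ)) (N : ℤ),
      ∫ z, ρ z * ‖u k z‖ ^ 2) atTop (𝓝 0)) {ε : ℝ} (hε : 0 < ε) :
    ∀ᶠ n in atTop, statVar c x ^ 2 * (∫ z, ρ z * (φ n z).re ^ 4) - ε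
      ≤ (∑ q : Fin 4 → Fin r, (∏ j, (c (q j) : ℂ))
        * rotP h a φ (fun z => (ρ z : ℂ)) ξ q n).re := by
  have hKU : K ⊆ U := (Metric.self_subset_cthickening K).trans hδU
  have hρU : tsupport ρ ⊆ U := hρK.trans hKU
  have hT : Test U (fun z => (ρ z : ℂ)) := by
    refine ⟨ofRealCLM.contDiff.comp hρs, ?_, ?_⟩
    · unfold HasCompactSupport
      rw [Test.tsupport_eq]
      exact hρc
    · rw [Test.tsupport_eq]; exact hρU
  obtain ⟨B, hB0, hB⟩ := S.fourth_bdd hT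
  obtain ⟨N₀, hN₀⟩ := S.rot_jets hK hδ hδU hκ c x ξ hξ hT
    (by rw [Test.tsupport_eq]; exact hρK) (show 0 < ε / 3 by positivity)
  have h1 : Tendsto (fun N : ℕ => ‖cS (Finset.Icc (-(N : ℤ)) N) (tN c x N) 0‖ ^ 2) atTop
      (𝓝 (statVar c x ^ 2)) := by
    have := ((tendsto_cS0 c x).norm).pow 2
    rwa [Complex.norm_real, Real.norm_eq_abs, sq_abs] at this
  have h2 := (Metric.tendsto_nhds.1 h1) (ε / (3 * (B + 1))) (by positivity)
  obtain ⟨N, hN1, hN2⟩ := ((eventually_ge_atTop N₀).and h2).exists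
  have h3 := lin_jets_lower S L hρs hρc hρU hρ0 hN N (tN_conj c x N)
    (show 0 < ε / 3 by positivity)
  filter_upwards [hN₀ N hN1, h3, hB] with n n1 n2 n3
  have n4 := (abs_le.1 ((Complex.abs_re_le_norm _).trans n1)).1
  rw [Complex.sub_re] at n4
  rw [Real.dist_eq] at hN2
  have n5 : |(‖cS (Finset.Icc (-(N : ℤ)) N) (tN c x N) 0‖ ^ 2 - statVar c x ^ 2)
      * ∫ z, ρ z * (φ n z).re ^ 4| ≤ ε / 3 := by
    rw [abs_mul]
    calc _ ≤ ε / (3 * (B + 1)) * B := mul_le_mul hN2.le n3 (abs_nonneg _) (by positivity)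
      _ = ε / 3 * (B / (B + 1)) := by field_simp
      _ ≤ ε / 3 * 1 := by
          gcongr
          exact (div_le_one (by positivity)).2 (by linarith)
      _ = ε / 3 := mul_one _
  have n6 := (abs_le.1 n5).1
  linarith

/-- **The local upper bound for linear statistics.** -/
theorem lin_local_upper (S : Setup U g a h φ) (L : JetLim U h a φ u) {K : Set ℂ}
    (hK : IsCompact K) {δ : ℝ} (hδ : 0 < δ) (hδU : Metric.cthickening (2 * δ) K ⊆ U) {κ : ℤ}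
    (hκ : κ ≠ 0) (c : Fin r → ℝ) (x : Fin r → ℂ) (ξ : Fin r → ℕ → ℝ → ℂ → ℂ)
    (hξ : ∀ i, Disp h a K κ (x i) (ξ i)) {ρ : ℂ → ℝ} (hρs : ContDiff ℝ ∞ ρ)
    (hρc : HasCompactSupport ρ) (hρK : tsupport ρ ⊆ K) (hρ0 : ∀ z, 0 ≤ ρ z)
    (hb : ∀ k, ∀ᵐ z ∂((volume : Measure ℂ).restrict U), ‖u k z‖ ≤ ‖u 0 z‖) {ε : ℝ}
    (hε : 0 < ε) :
    ∀ᶠ n in atTop, (∑ q : Fin 4 → Fin r, (∏ j, (c (q j) : ℂ))
        * rotP h a φ (fun z => (ρ z : ℂ)) ξ q n).re
      ≤ statFour c x * (∫ z, ρ z * (φ n z).re ^ 4) + ε := by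
  have hKU : K ⊆ U := (Metric.self_subset_cthickening K).trans hδU
  have hρU : tsupport ρ ⊆ U := hρK.trans hKU
  have hT : Test U (fun z => (ρ z : ℂ)) := by
    refine ⟨ofRealCLM.contDiff.comp hρs, ?_, ?_⟩
    · unfold HasCompactSupport
      rw [Test.tsupport_eq]
      exact hρc
    · rw [Test.tsupport_eq]; exact hρU
  obtain ⟨B, hB0, hB⟩ := S.fourth_bdd hT
  obtain ⟨N₀, hN₀⟩ := S.rot_jets hK hδ hδU hκ c x ξ hξ hT
    (by rw [Test.tsupport_eq]; exact hρK) (show 0 < ε / 3 by positivity)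
  have h1 : Tendsto (fun N : ℕ => (∑ s ∈ Finset.Icc (-(2 * N : ℤ)) (2 * N),
      cS (Finset.Icc (-(N : ℤ)) N) (tN c x N) s
        * cS (Finset.Icc (-(N : ℤ)) N) (tN c x N) (-s)).re) atTop (𝓝 (statFour c x)) := by
    have := (Complex.continuous_re.tendsto _).comp (tendsto_cSS c x)
    rwa [ofReal_re] at this
  have h2 := (Metric.tendsto_nhds.1 h1) (ε / (3 * (B + 1))) (by positivity)
  obtain ⟨N, hN1, hN2⟩ := ((eventually_ge_atTop N₀).and h2).exists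
  have h3 := lin_jets_upper S L hρs hρc hρU hρ0 hb N (tN_conj c x N)
    (show 0 < ε / 3 by positivity)
  filter_upwards [hN₀ N hN1, h3, hB] with n n1 n2 n3
  have n4 := (abs_le.1 ((Complex.abs_re_le_norm _).trans n1)).2
  rw [Complex.sub_re] at n4
  rw [Real.dist_eq] at hN2
  have n5 : |((∑ s ∈ Finset.Icc (-(2 * N : ℤ)) (2 * N),
      cS (Finset.Icc (-(N : ℤ)) N) (tN c x N) s
        * cS (Finset.Icc (-(N : ℤ)) N) (tN c x N) (-s)).re - statFour c x)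
      * ∫ z, ρ z * (φ n z).re ^ 4| ≤ ε / 3 := by
    rw [abs_mul]
    calc _ ≤ ε / (3 * (B + 1)) * B := mul_le_mul hN2.le n3 (abs_nonneg _) (by positivity)
      _ = ε / 3 * (B / (B + 1)) := by field_simp
      _ ≤ ε / 3 * 1 := by
          gcongr
          exact (div_le_one (by positivity)).2 (by linarith)
      _ = ε / 3 := mul_one _
  have n6 := (abs_le.1 n5).2
  linarith

end Setup

end

end QE
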