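import Pool.Agent.Lib_helper67.QE.HypFinal
import Pool.Agent.Lib_helper67.QE.LinLocal
import Pool.Agent.Lib_helper67.QE.LinGlobal

/-!
The fourth moments of linear statistics of the local waves along sequences of eigenfunctions with
microlocal limits on compact hyperbolic surfaces (helper70).
-/

open UpperHalfPlane MeasureTheory MatrixGroups Filter Topology Set Berry
open scoped ENNReal ContDiff

namespace QE

noncomputable section

/-- a sequence of eigenfunctions with microlocal limits -/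
structure LimSeq (Γ : Subgroup SL(2, ℝ)) (φ : ℕ → ℍ → ℝ) (m : ℕ → ℝ) (u : ℤ → ℂ → ℂ) : Prop where
  set : Setup UH gH aH (fun n => 1 / m n) (fun n z => (φ n (ofComplex z) : ℂ))
  cont : ∀ n, Continuous (φ n)
  inv : ∀ n, ∀ γ ∈ Γ, ∀ z, φ n (γ • z) = φ n z
  one : ∀ n, 1 ≤ m n
  tend : Tendsto m atTop atTop
  loc : ∀ k, LocL2 UH (u k)
  lim : JLim UH (fun n => 1 / m n) aH (fun n z => (φ n (ofComplex z) : ℂ)) u
  bnd : ∀ k, ∀ᵐ z ∂((volume : Measure ℂ).restrict UH), ‖u k z‖ ≤ ‖u 0 z‖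
  fej : ∀ ζ : ℂ → ℝ, Continuous ζ → HasCompactSupport ζ → tsupport ζ ⊆ UH → (∀ z, 0 ≤ ζ z) →
    Tendsto (fun N : ℕ => (1 / (N : ℝ)) * ∑ k ∈ Finset.Ioo (-(N : ℤ)) N,
      ∫ z, ζ z * ‖u k z‖ ^ 2) atTop (𝓝 0)

variable {Γ : Subgroup SL(2, ℝ)} {D : Set ℍ}

/-- **Sequences with bounded fourth moments have subsequences with microlocal limits.** -/
theorem exists_limSeq [Countable Γ]
    (hDm : MeasurableSet D) (hD : IsFundamentalDomain Γ D (volume : Measure ℍ))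
    (hK : ∃ K : Set ℍ, IsCompact K ∧ ∀ z, ∃ γ ∈ Γ, γ • z ∈ K) {φ : ℕ → ℍ → ℝ} {m : ℕ → ℝ}
    (hφ : EigenSeq Γ φ m)
    (hs : ∀ n, ContDiffOn ℝ ∞ (fun w : ℂ => φ n (ofComplex w)) {w | 0 < w.im}) {C : ℝ}
    (hC : ∀ n, surfAvg D (fun z => φ n z ^ 4) ≤ C) :
    ∃ s : ℕ → ℕ, StrictMono s ∧ ∃ u, LimSeq Γ (fun n => φ (s n)) (fun n => m (s n)) u := by
  letI : MeasurableSpace SL(2, ℝ) := borel _
  haveI : BorelSpace SL(2, ℝ) := ⟨rfl⟩
  obtain ⟨N, hN⟩ := (hφ.tendsto.eventually_ge_atTop 1).exists_forall_of_atTop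
  have hshift : Tendsto (fun n : ℕ => n + N) atTop atTop := tendsto_add_atTop_nat N
  have hc : ∀ n, Continuous (φ n) := fun n => continuous_of_smooth (hs n)
  have S := setup_of_eigen (eigenSeq_comp hφ hshift) (fun n => hs _)
    (fun n => hN _ (Nat.le_add_left _ _))
    (bdd4_of_avg hD hK (fun n => hc (n + N)) (fun n => hφ.invariant _) (fun n => hC _))
  obtain ⟨s, hsm, u, hum, hu, hw⟩ := exists_limits S
  -- the subsequence
  set φ' : ℕ → ℍ → ℝ := fun n => φ (s n + N) with hφ'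
  have hφs := eigenSeq_comp (eigenSeq_comp hφ hshift) hsm.tendsto_atTop
  have S' := setup_of_eigen (φ := φ') (m := fun n => m (s n + N)) hφs (fun n => hs _)
    (fun n => hN _ (Nat.le_add_left _ _))
    (bdd4_of_avg hD hK (fun n => hc (s n + N)) (fun n => hφ.invariant _) (fun n => hC _))
  have hw' : JLim UH (fun n => 1 / m (s n + N)) aH (fun n z => (φ' n (ofComplex z) : ℂ)) u := by
    intro j k
    refine (hw j k).congr fun n z _ => ?_
    rw [← E_sub (fun n => 1 / m (n + N)) aH (fun n z => (φ (n + N) (ofComplex z) : ℂ)) s j n z,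
      ← E_sub (fun n => 1 / m (n + N)) aH (fun n z => (φ (n + N) (ofComplex z) : ℂ)) s k n z]
  have hF : LimFam Γ u := limFam_of_limits S' hum hu hw' (fun γ hγ n z hz => by
    have e : ofComplex (mob γ z) = γ • ofComplex z := by
      unfold mob
      rw [ofComplex_apply]
    simp only [e, hφ', hφ.invariant _ γ hγ])
  obtain ⟨p, -, -, -, -, -, hN'⟩ := no_dir_atoms hDm hD hK hF
  refine ⟨fun n => s n + N, fun a b hab => Nat.add_lt_add_right (hsm hab) N, u, S',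
    fun n => hc _, fun n => hφ.invariant _, fun n => hN _ (Nat.le_add_left _ _),
    hφ.tendsto.comp (hshift.comp hsm.tendsto_atTop), hu, hw', fun k => ?_, hN'⟩
  filter_upwards [hF.bound k] with z hz
  exact hz.trans ((le_abs_self _).trans (Complex.abs_re_le_norm _))

theorem Setup.congr_a {U : Set ℂ} {g a a' : ℂ → ℂ} {h : ℕ → ℝ} {φ : ℕ → ℂ → ℂ}
    (S : Setup U g a h φ) (ha : ∀ z ∈ U, a' z = a z) : Setup U g a' h φ :=
  ⟨S.op, S.hpos, S.hlim, S.ha.congr ha, S.hg, fun z hz => by rw [ha z hz]; exact S.areal z hz,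
    fun z hz => by rw [ha z hz]; exact S.ag z hz, S.tame, S.real, S.eig⟩

theorem Disp.congr_a {K : Set ℂ} {a a' : ℂ → ℂ} {h : ℕ → ℝ} {q : ℤ} {y : ℂ} {ξ : ℕ → ℝ → ℂ → ℂ}
    (d : Disp h a K q y ξ) (ha : ∀ z ∈ K, a' z = a z) : Disp h a' K q y ξ := by
  refine ⟨d.lim, d.cont, d.lip.mono fun n hn θ z hz w hw => ?_⟩
  rw [ha z hz, ha w hw]
  exact hn θ z hz w hw

theorem wt_zero {z : ℂ} (hz : z ∈ UH) : wt (gw fun _ => 0) z = aH z := by
  have h1 : wt (gw fun _ => 0) z = (z.im : ℂ) * ((Real.exp (-0) : ℝ) : ℂ) :=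
    wt_gw (ρ := fun _ => 0) (show 0 < z.im from hz)
  rw [h1, neg_zero, Real.exp_zero, Complex.ofReal_one, mul_one]
  rfl

/-- the setting of the correlations of the local waves -/
theorem LimSeq.ws [Countable Γ] (hDm : MeasurableSet D)
    (hD : IsFundamentalDomain Γ D (volume : Measure ℍ))
    (hK : ∃ K : Set ℍ, IsCompact K ∧ ∀ z, ∃ γ ∈ Γ, γ • z ∈ K) {φ : ℕ → ℍ → ℝ} {m : ℕ → ℝ}
    {u : ℤ → ℂ → ℂ} (L : LimSeq Γ φ m u) :
    WS Γ (fun _ => 0) D φ m (fun n => 1 / m n) gH where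
  geo := ⟨hD, hDm, finite_of_cocompact hD hK, fun _ _ _ => rfl, ⟨0, fun _ => by simp⟩,
    uniformContinuous_const⟩
  coc := hK
  rc := continuous_const
  pc := L.cont
  pinv := L.inv
  mpos := fun n => by have := L.one n; linarith
  mlim := L.tend
  hm := fun _ => rfl
  set := L.set.congr_a fun z hz => wt_zero hz

theorem area_zero : Berry.area (fun _ => 0) = (volume : Measure ℍ) := by
  unfold Berry.area
  simp

theorem rAvg_zero (f : ℍ → ℝ) : Berry.rAvg (fun _ => 0) D f = surfAvg D f := by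
  unfold Berry.rAvg surfAvg
  rw [area_zero]

theorem rFrameProb_zero : Berry.rFrameProb (fun _ => 0) D = frameProb D := by
  unfold Berry.rFrameProb frameProb
  rw [area_zero]

theorem rWave_zero (φ : ℍ → ℝ) (m : ℝ) (x : ℂ) (p : ℍ × ℝ) :
    Berry.rWave (fun _ => 0) φ m x p = localWave φ m x p := by
  unfold Berry.rWave localWave
  simp

variable {φ : ℕ → ℍ → ℝ} {m : ℕ → ℝ} {u : ℤ → ℂ → ℂ} {r : ℕ}

/-- the rotation averages in the two settings -/
theorem LimSeq.rot_eq [Countable Γ] (hDm : MeasurableSet D)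
    (hD : IsFundamentalDomain Γ D (volume : Measure ℍ))
    (hK : ∃ K : Set ℍ, IsCompact K ∧ ∀ z, ∃ γ ∈ Γ, γ • z ∈ K) (L : LimSeq Γ φ m u)
    (c : Fin r → ℝ) (x : Fin r → ℂ) {ψ : ℂ → ℝ} (hψ : ContDiff ℝ ∞ ψ)
    (hψs : HasCompactSupport ψ) (hψU : tsupport ψ ⊆ HH) :
    ∀ᶠ n in atTop, (∑ q : Fin 4 → Fin r, (∏ j, (c (q j) : ℂ))
        * Setup.rotP (fun n => 1 / m n) aH (fun n z => (φ n (ofComplex z) : ℂ))
          (fun z => (ψ z : ℂ)) (fun i => frXi (fun n => 1 / m n) (em fun _ => 0) (x i)) q n).re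
      = ∑ q : Fin 4 → Fin r, (∏ j, c (q j))
        * ∫ z, ψ z * angProd (fun _ => 0) (φ n) (m n) (fun j => x (q j)) (ofComplex z) := by
  have W := L.ws hDm hD hK
  have h1 : ∀ᶠ n in atTop, ∀ q : Fin 4 → Fin r, _ :=
    eventually_all.2 fun q => W.ang_eq (fun j => x (q j)) hψ hψs hψU
  filter_upwards [h1] with n hn
  rw [Complex.re_sum]
  refine Finset.sum_congr rfl fun q _ => ?_
  have e1 : Setup.rotP (fun n => 1 / m n) aH (fun n z => (φ n (ofComplex z) : ℂ))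
          (fun z => (ψ z : ℂ)) (fun i => frXi (fun n => 1 / m n) (em fun _ => 0) (x i)) q n
      = ∫ θ, (∫ z, (ψ z : ℂ) * ∏ i, (φ n (ofComplex (z + ((1 / m n : ℝ) : ℂ) * wt (gw fun _ => 0) z
        * frXi (fun n => 1 / m n) (em fun _ => 0) (x (q i)) n θ z)) : ℂ)) ∂ang := by
    unfold Setup.rotP
    refine integral_congr_ae (Eventually.of_forall fun θ => ?_)
    refine integral_congr_ae (Eventually.of_forall fun z => ?_)
    beta_reduce
    by_cases hz : z ∈ UH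
    · rw [wt_zero hz]
    · have : ψ z = 0 := image_eq_zero_of_notMem_tsupport fun hh => hz (hψU hh)
      rw [this]; simp
  rw [e1, hn q, ← Complex.ofReal_prod, ← Complex.ofReal_mul, Complex.ofReal_re]

theorem int_re_four {ψ : ℂ → ℝ} (f : ℂ → ℝ) :
    ∫ z, ψ z * ((f z : ℂ)).re ^ 4 = ∫ z, ψ z * f z ^ 4 := by
  simp only [Complex.ofReal_re]

/-- the setting on a compact set -/
theorem exists_thick {K : Set ℂ} (hKc : IsCompact K) (hKU : K ⊆ HH) :
    ∃ δ > 0, Metric.cthickening (2 * δ) K ⊆ HH := by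
  obtain ⟨δ, hδ, hδU⟩ := hKc.exists_cthickening_subset_open isOpen_HH hKU
  refine ⟨δ / 2, half_pos hδ, ?_⟩
  rw [mul_div_cancel₀ _ (two_ne_zero)]
  exact hδU

/-- **The lower bound for linear statistics.** -/
theorem LimSeq.lin_lower [Countable Γ] (hDm : MeasurableSet D)
    (hD : IsFundamentalDomain Γ D (volume : Measure ℍ))
    (hK : ∃ K : Set ℍ, IsCompact K ∧ ∀ z, ∃ γ ∈ Γ, γ • z ∈ K) (L : LimSeq Γ φ m u)
    {w : ℍ → ℝ} (hw : Continuous w) (hw0 : ∀ z, 0 ≤ w z) (hwi : ∀ γ ∈ Γ, ∀ z, w (γ • z) = w z)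
    (c : Fin r → ℝ) (x : Fin r → ℂ) {ε : ℝ} (hε : 0 < ε) :
    ∀ᶠ n in atTop, statVar c x ^ 2 * surfAvg D (fun z => w z * φ n z ^ 4) - ε
      ≤ ∫ p, w p.1 * (∑ i, c i * localWave (φ n) (m n) (x i) p) ^ 4 ∂(frameProb D) := by
  have W := L.ws hDm hD hK
  have key := W.stat_ge hw hw0 hwi 1 (statVar c x ^ 2) c x (fun ψ hψ hψs hψU hψ0 ε hε => by
    obtain ⟨δ, hδ, hδU⟩ := exists_thick hψs hψU
    have h1 := Setup.lin_local_lower L.set ⟨L.loc, L.lim⟩ hψs hδ hδU (κ := 2) two_ne_zero c x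
      (fun i => frXi (fun n => 1 / m n) (em fun _ => 0) (x i))
      (fun i => (W.disp hψs hψU (x i)).congr_a fun z hz => (wt_zero (hψU hz)).symm)
      hψ hψs le_rfl hψ0 (L.fej ψ hψ.continuous hψs hψU hψ0) hε
    filter_upwards [h1, L.rot_eq hDm hD hK c x hψ hψs hψU] with n n1 n2
    rw [n2, int_re_four (fun z => φ n (ofComplex z))] at n1
    linarith) hε
  filter_upwards [key] with n hn
  rw [rAvg_zero, rFrameProb_zero] at hn
  simp only [rWave_zero] at hn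
  linarith

/-- **The upper bound for linear statistics.** -/
theorem LimSeq.lin_upper [Countable Γ] (hDm : MeasurableSet D)
    (hD : IsFundamentalDomain Γ D (volume : Measure ℍ))
    (hK : ∃ K : Set ℍ, IsCompact K ∧ ∀ z, ∃ γ ∈ Γ, γ • z ∈ K) (L : LimSeq Γ φ m u)
    {w : ℍ → ℝ} (hw : Continuous w) (hw0 : ∀ z, 0 ≤ w z) (hwi : ∀ γ ∈ Γ, ∀ z, w (γ • z) = w z)
    (c : Fin r → ℝ) (x : Fin r → ℂ) {ε : ℝ} (hε : 0 < ε) :
    ∀ᶠ n in atTop, ∫ p, w p.1 * (∑ i, c i * localWave (φ n) (m n) (x i) p) ^ 4 ∂(frameProb D)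
      ≤ statFour c x * surfAvg D (fun z => w z * φ n z ^ 4) + ε := by
  have W := L.ws hDm hD hK
  have key := W.stat_ge hw hw0 hwi (-1) (statFour c x) c x (fun ψ hψ hψs hψU hψ0 ε hε => by
    obtain ⟨δ, hδ, hδU⟩ := exists_thick hψs hψU
    have h1 := Setup.lin_local_upper L.set ⟨L.loc, L.lim⟩ hψs hδ hδU (κ := 2) two_ne_zero c x
      (fun i => frXi (fun n => 1 / m n) (em fun _ => 0) (x i))
      (fun i => (W.disp hψs hψU (x i)).congr_a fun z hz => (wt_zero (hψU hz)).symm)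
      hψ hψs le_rfl hψ0 L.bnd hε
    filter_upwards [h1, L.rot_eq hDm hD hK c x hψ hψs hψU] with n n1 n2
    rw [n2, int_re_four (fun z => φ n (ofComplex z))] at n1
    linarith) hε
  filter_upwards [key] with n hn
  rw [rAvg_zero, rFrameProb_zero] at hn
  simp only [rWave_zero] at hn
  linarith

end

end QE
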