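import Pool.Agent.Lib_helper67.QE.HypStat

/-!
The two and three point functions of the local waves, for every sequence of eigenfunctions on a
compact hyperbolic surface (helper70).
-/

open UpperHalfPlane MeasureTheory MatrixGroups Filter Topology Set Berry
open scoped ENNReal ContDiff

namespace QE

noncomputable section

variable {Γ : Subgroup SL(2, ℝ)} {D : Set ℍ}

theorem four_rpow {A b : ℝ} (hA : 0 ≤ A) (hb : 0 ≤ b) (k : ℕ) :
    (b ^ 4 * A) ^ ((k : ℝ) / 4) = b ^ k * A ^ ((k : ℝ) / 4) := by
  rw [Real.mul_rpow (by positivity) hA, ← Real.rpow_natCast b 4, ← Real.rpow_mul hb]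
  congr 1
  rw [← Real.rpow_natCast b k]
  congr 1
  push_cast
  ring

/-- **Two-point functions**, for every sequence of eigenfunctions. -/
theorem two_all [Countable Γ]
    (hDm : MeasurableSet D) (hD : IsFundamentalDomain Γ D (volume : Measure ℍ))
    (hK : ∃ K : Set ℍ, IsCompact K ∧ ∀ z, ∃ γ ∈ Γ, γ • z ∈ K) {φ : ℕ → ℍ → ℝ} {m : ℕ → ℝ}
    (hφ : EigenSeq Γ φ m)
    (hs : ∀ n, ContDiffOn ℝ ∞ (fun w : ℂ => φ n (ofComplex w)) {w | 0 < w.im})
    (x y : ℂ) {ε : ℝ} (hε : 0 < ε) :
    ∀ᶠ n in atTop, |(∫ p, localWave (φ n) (m n) x p * localWave (φ n) (m n) y p ∂(frameProb D))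
        - waveK (x - y) * surfAvg D (fun z => φ n z ^ 2)|
      ≤ ε * surfAvg D (fun z => φ n z ^ 4) ^ (((2 : ℕ) : ℝ) / 4) := by
  refine every_seq hDm hD hK hφ hs (Q := fun f k =>
    |(∫ p, localWave f k x p * localWave f k y p ∂(frameProb D))
        - waveK (x - y) * surfAvg D (fun z => f z ^ 2)|
      ≤ ε * surfAvg D (fun z => f z ^ 4) ^ (((2 : ℕ) : ℝ) / 4)) ?_ ?_ ?_
  · intro f k b hb h
    have hA : 0 ≤ surfAvg D fun z => f z ^ 4 := integral_nonneg fun z => by positivity
    have e1 : surfAvg D (fun z => (b * f z) ^ 4) = b ^ 4 * surfAvg D (fun z => f z ^ 4) := by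
      unfold surfAvg
      rw [← integral_const_mul]
      congr 1; funext z; ring
    have e2 : surfAvg D (fun z => (b * f z) ^ 2) = b ^ 2 * surfAvg D (fun z => f z ^ 2) := by
      unfold surfAvg
      rw [← integral_const_mul]
      congr 1; funext z; ring
    have e3 : ∫ p, localWave (fun z => b * f z) k x p * localWave (fun z => b * f z) k y p
        ∂(frameProb D) = b ^ 2 * ∫ p, localWave f k x p * localWave f k y p ∂(frameProb D) := by
      rw [← integral_const_mul]
      congr 1; funext p
      unfold localWave; ring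
    beta_reduce at h
    rw [e1, e2, e3, four_rpow hA hb.le] at h
    have e4 : b ^ 2 * (∫ p, localWave f k x p * localWave f k y p ∂(frameProb D))
        - waveK (x - y) * (b ^ 2 * surfAvg D fun z => f z ^ 2)
        = b ^ 2 * ((∫ p, localWave f k x p * localWave f k y p ∂(frameProb D))
          - waveK (x - y) * surfAvg D fun z => f z ^ 2) := by ring
    have hb2 : 0 < b ^ 2 := by positivity
    rw [e4, abs_mul, abs_of_pos hb2, mul_left_comm] at h
    exact le_of_mul_le_mul_left h hb2
  · intro k
    unfold surfAvg localWave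
    simp
  · intro φ' m' u L h4
    have h1 := (Metric.tendsto_nhds.1 (L.two hDm hD hK x y)) ε hε
    filter_upwards [h1] with n hn
    rw [dist_zero_right, Real.norm_eq_abs] at hn
    rw [h4, Real.one_rpow, mul_one]
    exact hn.le

/-- **Three-point functions**, for every sequence of eigenfunctions. -/
theorem three_all [Countable Γ]
    (hDm : MeasurableSet D) (hD : IsFundamentalDomain Γ D (volume : Measure ℍ))
    (hK : ∃ K : Set ℍ, IsCompact K ∧ ∀ z, ∃ γ ∈ Γ, γ • z ∈ K) {φ : ℕ → ℍ → ℝ} {m : ℕ → ℝ}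
    (hφ : EigenSeq Γ φ m)
    (hs : ∀ n, ContDiffOn ℝ ∞ (fun w : ℂ => φ n (ofComplex w)) {w | 0 < w.im})
    (x y w : ℂ) {ε : ℝ} (hε : 0 < ε) :
    ∀ᶠ n in atTop, |∫ p, localWave (φ n) (m n) x p * localWave (φ n) (m n) y p
        * localWave (φ n) (m n) w p ∂(frameProb D)|
      ≤ ε * surfAvg D (fun z => φ n z ^ 4) ^ (((3 : ℕ) : ℝ) / 4) := by
  refine every_seq hDm hD hK hφ hs (Q := fun f k =>
    |∫ p, localWave f k x p * localWave f k y p * localWave f k w p ∂(frameProb D)|
      ≤ ε * surfAvg D (fun z => f z ^ 4) ^ (((3 : ℕ) : ℝ) / 4)) ?_ ?_ ?_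
  · intro f k b hb h
    have hA : 0 ≤ surfAvg D fun z => f z ^ 4 := integral_nonneg fun z => by positivity
    have e1 : surfAvg D (fun z => (b * f z) ^ 4) = b ^ 4 * surfAvg D (fun z => f z ^ 4) := by
      unfold surfAvg
      rw [← integral_const_mul]
      congr 1; funext z; ring
    have e3 : ∫ p, localWave (fun z => b * f z) k x p * localWave (fun z => b * f z) k y p
          * localWave (fun z => b * f z) k w p ∂(frameProb D)
        = b ^ 3 * ∫ p, localWave f k x p * localWave f k y p * localWave f k w p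
          ∂(frameProb D) := by
      rw [← integral_const_mul]
      congr 1; funext p
      unfold localWave; ring
    have hb3 : 0 < b ^ 3 := by positivity
    beta_reduce at h
    rw [e1, e3, four_rpow hA hb.le, abs_mul, abs_of_pos hb3, mul_left_comm] at h
    exact le_of_mul_le_mul_left h hb3
  · intro k
    unfold surfAvg localWave
    simp
  · intro φ' m' u L h4
    have h1 := (Metric.tendsto_nhds.1 (L.three hDm hD hK x y w)) ε hε
    filter_upwards [h1] with n hn
    rw [dist_zero_right, Real.norm_eq_abs] at hn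
    rw [h4, Real.one_rpow, mul_one]
    exact hn.le

end

end QE
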