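import Pool.Agent.Lib_helper67.QE.HypTwo
import Pool.Agent.LibH11.Berry.RTwo

/-!
The fourth moments of linear statistics of the local waves for every sequence of eigenfunctions on a
compact hyperbolic surface (helper70).
-/

open UpperHalfPlane MeasureTheory MatrixGroups Filter Topology Set Berry
open scoped ENNReal ContDiff

namespace QE

noncomputable section

variable {Γ : Subgroup SL(2, ℝ)} {D : Set ℍ} {r : ℕ}

/-- continuous invariant functions with vanishing fourth moment vanish -/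
theorem eq_zero_of_avg [Countable Γ] (hD : IsFundamentalDomain Γ D (volume : Measure ℍ))
    (hK : ∃ K : Set ℍ, IsCompact K ∧ ∀ z, ∃ γ ∈ Γ, γ • z ∈ K) {f : ℍ → ℝ} (hf : Continuous f)
    (hinv : ∀ γ ∈ Γ, ∀ z, f (γ • z) = f z) (h0 : surfAvg D (fun z => f z ^ 4) = 0) (z : ℍ) :
    f z = 0 := by
  have hz := z.im_pos
  set K := Metric.closedBall (z : ℂ) (z.im / 2) with hKdef
  have hKc : IsCompact K := isCompact_closedBall _ _
  have hKU : K ⊆ {w : ℂ | 0 < w.im} := by
    intro w hw
    rw [hKdef, Metric.mem_closedBall, dist_eq_norm] at hw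
    have h1 := Complex.abs_im_le_norm (w - z)
    rw [Complex.sub_im] at h1
    have h2 := (abs_le.1 (h1.trans hw)).1
    show 0 < w.im
    have h3 : (z : ℂ).im = z.im := rfl
    rw [h3] at h2
    linarith
  obtain ⟨M, -, hM⟩ := Surf.bdd_of_avg hD hK hKc hKU
  have h1 := hM (fun z => f z ^ 4) (hf.pow 4) (fun z => by positivity)
    (fun γ hγ z => by rw [hinv γ hγ])
  rw [h0, mul_zero] at h1
  have hc : ContinuousOn (fun w : ℂ => f (ofComplex w)) {w : ℂ | 0 < w.im} := fun w hw =>
    (hf.continuousAt.comp (contMDiffAt_ofComplex (n := 0) hw).continuousAt).continuousWithinAt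
  have hi : IntegrableOn (fun w : ℂ => f (ofComplex w) ^ 4) K :=
    ((hc.mono hKU).pow 4).integrableOn_compact hKc
  have h2 : ∫ w in K, f (ofComplex w) ^ 4 = 0 :=
    le_antisymm h1 (integral_nonneg fun w => by positivity)
  have h3 : (fun w : ℂ => f (ofComplex w) ^ 4) =ᵐ[volume.restrict K] 0 :=
    (integral_eq_zero_iff_of_nonneg (fun w => by positivity) hi).1 h2
  have h4 : (fun w : ℂ => f (ofComplex w) ^ 4)
      =ᵐ[volume.restrict (Metric.ball (z : ℂ) (z.im / 2))] fun _ => 0 :=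
    ae_restrict_of_ae_restrict_of_subset Metric.ball_subset_closedBall h3
  have h5 := Measure.eqOn_open_of_ae_eq h4 Metric.isOpen_ball
    ((hc.mono (Metric.ball_subset_closedBall.trans hKU)).pow 4) continuousOn_const
  have h6 := h5 (Metric.mem_ball_self (half_pos hz))
  simp only [ofComplex_apply] at h6
  exact pow_eq_zero_iff (by norm_num) |>.1 h6

/-- **From sequences with microlocal limits to all sequences**, for properties which do not change
under scaling. -/
theorem every_seq [Countable Γ]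
    (hDm : MeasurableSet D) (hD : IsFundamentalDomain Γ D (volume : Measure ℍ))
    (hK : ∃ K : Set ℍ, IsCompact K ∧ ∀ z, ∃ γ ∈ Γ, γ • z ∈ K) {φ : ℕ → ℍ → ℝ} {m : ℕ → ℝ}
    (hφ : EigenSeq Γ φ m)
    (hs : ∀ n, ContDiffOn ℝ ∞ (fun w : ℂ => φ n (ofComplex w)) {w | 0 < w.im})
    {Q : (ℍ → ℝ) → ℝ → Prop}
    (hscale : ∀ (f : ℍ → ℝ) (k c : ℝ), 0 < c → Q (fun z => c * f z) k → Q f k)
    (hzero : ∀ k, Q (fun _ => 0) k)
    (hlim : ∀ (φ' : ℕ → ℍ → ℝ) (m' : ℕ → ℝ) (u : ℤ → ℂ → ℂ), LimSeq Γ φ' m' u →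
      (∀ n, surfAvg D (fun z => φ' n z ^ 4) = 1) → ∀ᶠ n in atTop, Q (φ' n) (m' n)) :
    ∀ᶠ n in atTop, Q (φ n) (m n) := by
  by_contra hcon
  rw [Filter.not_eventually] at hcon
  obtain ⟨s, hsm, hsn⟩ := extraction_of_frequently_atTop hcon
  have hc : ∀ n, Continuous (φ n) := fun n => continuous_of_smooth (hs n)
  set A : ℕ → ℝ := fun n => surfAvg D (fun z => φ (s n) z ^ 4) with hA
  have hA0 : ∀ n, 0 ≤ A n := fun n => integral_nonneg fun z => by positivity
  have hA1 : ∀ n, 0 < A n := by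
    intro n
    rcases (hA0 n).eq_or_lt with h0 | h0
    · exfalso
      have h1 := eq_zero_of_avg hD hK (hc (s n)) (hφ.invariant _) h0.symm
      have h2 : φ (s n) = fun _ => 0 := funext h1
      apply hsn n
      rw [h2]
      exact hzero _
    · exact h0
  set c : ℕ → ℝ := fun n => (rt4 (A n))⁻¹ with hcdef
  have hrt : ∀ n, rt4 (A n) ^ 4 = A n := fun n => rt4_pow (hA0 n)
  have hrt0 : ∀ n, 0 < rt4 (A n) := by
    intro n
    have h1 : 0 ≤ rt4 (A n) := by unfold rt4; positivity
    rcases h1.eq_or_lt with h2 | h2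
    · exfalso
      have h3 := hrt n
      rw [← h2] at h3
      have := hA1 n
      norm_num at h3
      linarith
    · exact h2
  have hc0 : ∀ n, 0 < c n := fun n => inv_pos.2 (hrt0 n)
  have hc4 : ∀ n, c n ^ 4 * A n = 1 := by
    intro n
    rw [hcdef]
    simp only
    rw [inv_pow, hrt, inv_mul_cancel₀ (hA1 n).ne']
  -- the normalised sequence
  set ψ : ℕ → ℍ → ℝ := fun n z => c n * φ (s n) z with hψ
  have hψs : ∀ n, ContDiffOn ℝ ∞ (fun w : ℂ => ψ n (ofComplex w)) {w | 0 < w.im} := fun n =>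
    contDiffOn_const.mul (hs (s n))
  have hE := eigenSeq_comp hφ hsm.tendsto_atTop
  have hψE : EigenSeq Γ ψ (fun n => m (s n)) := by
    refine ⟨fun n γ hγ z => ?_, fun n => contDiffOn_const.mul (hE.smooth n), fun n z => ?_,
      hE.tendsto⟩
    · rw [hψ]
      simp only
      rw [hφ.invariant _ γ hγ]
    · have h1 := hE.eigen n z
      have hcd : ContDiffAt ℝ 2 (fun w : ℂ => φ (s n) (ofComplex w)) (z : ℂ) :=
        (hE.smooth n).contDiffAt ((isOpen_lt continuous_const Complex.continuous_im).mem_nhds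
          z.im_pos)
      have h2 : (Laplacian.laplacian (fun w : ℂ => ψ n (ofComplex w))) (z : ℂ)
          = c n * (Laplacian.laplacian (fun w : ℂ => φ (s n) (ofComplex w))) (z : ℂ) := by
        have := InnerProductSpace.laplacian_smul (c n) hcd
        simpa [hψ, Pi.smul_def, smul_eq_mul] using this
      rw [h2]
      simp only [hψ]
      linear_combination (c n) * h1
  have h4 : ∀ n, surfAvg D (fun z => ψ n z ^ 4) = 1 := by
    intro n
    have e : (fun z => ψ n z ^ 4) = fun z => c n ^ 4 * φ (s n) z ^ 4 := by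
      funext z; simp only [hψ]; ring
    rw [e]
    unfold surfAvg
    rw [integral_const_mul]
    exact hc4 n
  obtain ⟨t, ht, u, L⟩ := exists_limSeq hDm hD hK hψE hψs (fun n => (h4 n).le)
  obtain ⟨n, hn⟩ := (hlim _ _ u L (fun n => h4 _)).exists
  exact hsn (t n) (hscale _ _ _ (hc0 _) hn)

/-- **The lower bound for the fourth moments of linear statistics.** -/
theorem lin_lower [Countable Γ]
    (hDm : MeasurableSet D) (hD : IsFundamentalDomain Γ D (volume : Measure ℍ))
    (hK : ∃ K : Set ℍ, IsCompact K ∧ ∀ z, ∃ γ ∈ Γ, γ • z ∈ K) {φ : ℕ → ℍ → ℝ} {m : ℕ → ℝ}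
    (hφ : EigenSeq Γ φ m)
    (hs : ∀ n, ContDiffOn ℝ ∞ (fun w : ℂ => φ n (ofComplex w)) {w | 0 < w.im})
    {w : ℍ → ℝ} (hw : Continuous w) (hw0 : ∀ z, 0 ≤ w z) (hwi : ∀ γ ∈ Γ, ∀ z, w (γ • z) = w z)
    (c : Fin r → ℝ) (x : Fin r → ℂ) {ε : ℝ} (hε : 0 < ε) :
    ∀ᶠ n in atTop, statVar c x ^ 2 * surfAvg D (fun z => w z * φ n z ^ 4)
        - ε * surfAvg D (fun z => φ n z ^ 4)
      ≤ ∫ p, w p.1 * (∑ i, c i * localWave (φ n) (m n) (x i) p) ^ 4 ∂(frameProb D) := by
  refine every_seq hDm hD hK hφ hs (Q := fun f k =>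
    statVar c x ^ 2 * surfAvg D (fun z => w z * f z ^ 4) - ε * surfAvg D (fun z => f z ^ 4)
      ≤ ∫ p, w p.1 * (∑ i, c i * localWave f k (x i) p) ^ 4 ∂(frameProb D)) ?_ ?_ ?_
  · intro f k b hb h
    have e1 : surfAvg D (fun z => w z * (b * f z) ^ 4) = b ^ 4 * surfAvg D (fun z => w z * f z ^ 4) := by
      unfold surfAvg
      rw [← integral_const_mul]
      congr 1; funext z; ring
    have e2 : surfAvg D (fun z => (b * f z) ^ 4) = b ^ 4 * surfAvg D (fun z => f z ^ 4) := by
      unfold surfAvg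
      rw [← integral_const_mul]
      congr 1; funext z; ring
    have e3 : ∫ p, w p.1 * (∑ i, c i * localWave (fun z => b * f z) k (x i) p) ^ 4 ∂(frameProb D)
        = b ^ 4 * ∫ p, w p.1 * (∑ i, c i * localWave f k (x i) p) ^ 4 ∂(frameProb D) := by
      rw [← integral_const_mul]
      congr 1; funext p
      have : ∑ i, c i * localWave (fun z => b * f z) k (x i) p
          = b * ∑ i, c i * localWave f k (x i) p := by
        rw [Finset.mul_sum]
        refine Finset.sum_congr rfl fun i _ => ?_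
        unfold localWave; ring
      rw [this]; ring
    rw [e1, e2, e3] at h
    have hb4 : 0 < b ^ 4 := by positivity
    have h' : b ^ 4 * (statVar c x ^ 2 * surfAvg D (fun z => w z * f z ^ 4)
        - ε * surfAvg D (fun z => f z ^ 4))
        ≤ b ^ 4 * ∫ p, w p.1 * (∑ i, c i * localWave f k (x i) p) ^ 4 ∂(frameProb D) := by
      linarith
    exact le_of_mul_le_mul_left h' hb4
  · intro k
    unfold surfAvg localWave
    simp
  · intro φ' m' u L h4
    filter_upwards [L.lin_lower hDm hD hK hw hw0 hwi c x hε] with n hn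
    rw [h4, mul_one]
    exact hn

/-- **The upper bound for the fourth moments of linear statistics.** -/
theorem lin_upper [Countable Γ]
    (hDm : MeasurableSet D) (hD : IsFundamentalDomain Γ D (volume : Measure ℍ))
    (hK : ∃ K : Set ℍ, IsCompact K ∧ ∀ z, ∃ γ ∈ Γ, γ • z ∈ K) {φ : ℕ → ℍ → ℝ} {m : ℕ → ℝ}
    (hφ : EigenSeq Γ φ m)
    (hs : ∀ n, ContDiffOn ℝ ∞ (fun w : ℂ => φ n (ofComplex w)) {w | 0 < w.im})
    {w : ℍ → ℝ} (hw : Continuous w) (hw0 : ∀ z, 0 ≤ w z) (hwi : ∀ γ ∈ Γ, ∀ z, w (γ • z) = w z)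
    (c : Fin r → ℝ) (x : Fin r → ℂ) {ε : ℝ} (hε : 0 < ε) :
    ∀ᶠ n in atTop, ∫ p, w p.1 * (∑ i, c i * localWave (φ n) (m n) (x i) p) ^ 4 ∂(frameProb D)
      ≤ statFour c x * surfAvg D (fun z => w z * φ n z ^ 4)
        + ε * surfAvg D (fun z => φ n z ^ 4) := by
  refine every_seq hDm hD hK hφ hs (Q := fun f k =>
    ∫ p, w p.1 * (∑ i, c i * localWave f k (x i) p) ^ 4 ∂(frameProb D)
      ≤ statFour c x * surfAvg D (fun z => w z * f z ^ 4)
        + ε * surfAvg D (fun z => f z ^ 4)) ?_ ?_ ?_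
  · intro f k b hb h
    have e1 : surfAvg D (fun z => w z * (b * f z) ^ 4) = b ^ 4 * surfAvg D (fun z => w z * f z ^ 4) := by
      unfold surfAvg
      rw [← integral_const_mul]
      congr 1; funext z; ring
    have e2 : surfAvg D (fun z => (b * f z) ^ 4) = b ^ 4 * surfAvg D (fun z => f z ^ 4) := by
      unfold surfAvg
      rw [← integral_const_mul]
      congr 1; funext z; ring
    have e3 : ∫ p, w p.1 * (∑ i, c i * localWave (fun z => b * f z) k (x i) p) ^ 4 ∂(frameProb D)
        = b ^ 4 * ∫ p, w p.1 * (∑ i, c i * localWave f k (x i) p) ^ 4 ∂(frameProb D) := by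
      rw [← integral_const_mul]
      congr 1; funext p
      have : ∑ i, c i * localWave (fun z => b * f z) k (x i) p
          = b * ∑ i, c i * localWave f k (x i) p := by
        rw [Finset.mul_sum]
        refine Finset.sum_congr rfl fun i _ => ?_
        unfold localWave; ring
      rw [this]; ring
    rw [e1, e2, e3] at h
    have hb4 : 0 < b ^ 4 := by positivity
    have h' : b ^ 4 * (∫ p, w p.1 * (∑ i, c i * localWave f k (x i) p) ^ 4 ∂(frameProb D))
        ≤ b ^ 4 * (statFour c x * surfAvg D (fun z => w z * f z ^ 4)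
        + ε * surfAvg D (fun z => f z ^ 4)) := by
      linarith
    exact le_of_mul_le_mul_left h' hb4
  · intro k
    unfold surfAvg localWave
    simp
  · intro φ' m' u L h4
    filter_upwards [L.lin_upper hDm hD hK hw hw0 hwi c x hε] with n hn
    rw [h4, mul_one]
    exact hn

end

end QE
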