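import Pool.Agent.Lib_helper67.QE.HypStat
import Pool.Agent.Lib_helper67.QE.HypFinal

/-!
The weighted lower bound for the fourth moments of the linear statistics of the local waves of the
normalised eigenfunctions of a compact hyperbolic surface.
-/

open UpperHalfPlane MeasureTheory MatrixGroups Filter Topology Set Berry
open scoped ENNReal ContDiff

namespace QE

noncomputable section

variable {Γ : Subgroup SL(2, ℝ)} {D : Set ℍ} {r : ℕ}

theorem weighted_stat [Countable Γ]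
    (hDm : MeasurableSet D) (hD : IsFundamentalDomain Γ D (volume : Measure ℍ))
    (hK : ∃ K : Set ℍ, IsCompact K ∧ ∀ z, ∃ γ ∈ Γ, γ • z ∈ K)
    {φ : ℕ → ℍ → ℝ} {m : ℕ → ℝ} (hφ : EigenSeq Γ φ m)
    (hs : ∀ n, ContDiffOn ℝ ∞ (fun w : ℂ => φ n (ofComplex w)) {w | 0 < w.im})
    (hn : ∀ n, surfAvg D (fun z => φ n z ^ 2) = 1)
    {w g : ℍ → ℝ} (hw : Continuous w) (hw0 : ∀ z, 0 < w z) (hwi : ∀ γ ∈ Γ, ∀ z, w (γ • z) = w z)
    (hg : Continuous g) (hgi : ∀ γ ∈ Γ, ∀ z, g (γ • z) = g z)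
    (c : Fin r → ℝ) (x : Fin r → ℂ) {ε : ℝ} (hε : 0 < ε) :
    ∀ᶠ n in atTop,
      3 * statVar c x ^ 2 * surfAvg D (fun z => w z * g z * φ n z ^ 2) ^ 2 - ε
        ≤ surfAvg D (fun z => w z * g z ^ 2)
          * ∫ p, w p.1 * (∑ i, c i * localWave (φ n) (m n) (x i) p) ^ 4 ∂(frameProb D) := by
  have hc : ∀ n, Continuous (φ n) := fun n => continuous_of_smooth (hs n)
  set a := surfAvg D (fun z => w z * g z ^ 2) with ha
  have ha0 : 0 ≤ a := Surf.surfAvg_nonneg fun z => mul_nonneg (hw0 z).le (sq_nonneg _)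
  have hInt : ∀ f : ℍ → ℝ, Continuous f → (∀ γ ∈ Γ, ∀ z, f (γ • z) = f z) →
      IntegrableOn f D (volume : Measure ℍ) := fun f hf hfi =>
    Surf.integrableOn_of_invariant hD hK hf hfi
  have hmono : ∀ f f' : ℍ → ℝ, IntegrableOn f D (volume : Measure ℍ) →
      IntegrableOn f' D (volume : Measure ℍ) → (∀ z, f z ≤ f' z) → surfAvg D f ≤ surfAvg D f' := by
    intro f f' hf hf' hle
    rw [Surf.surfAvg_eq, Surf.surfAvg_eq]
    exact mul_le_mul_of_nonneg_left (integral_mono hf hf' hle) (by positivity)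
  have i2 : ∀ n, IntegrableOn (fun z => w z * g z * φ n z ^ 2) D (volume : Measure ℍ) := fun n =>
    hInt _ ((hw.mul hg).mul ((hc n).pow 2)) fun γ hγ z => by
      rw [hwi γ hγ, hgi γ hγ, hφ.invariant n γ hγ]
  have i2' : ∀ n, IntegrableOn (fun z => φ n z ^ 2) D (volume : Measure ℍ) := fun n =>
    hInt _ ((hc n).pow 2) fun γ hγ z => by rw [hφ.invariant n γ hγ]
  have i4 : ∀ n, IntegrableOn (fun z => w z * φ n z ^ 4) D (volume : Measure ℍ) := fun n =>
    hInt _ (hw.mul ((hc n).pow 4)) fun γ hγ z => by rw [hwi γ hγ, hφ.invariant n γ hγ]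
  have i4' : ∀ n, IntegrableOn (fun z => φ n z ^ 4) D (volume : Measure ℍ) := fun n =>
    hInt _ ((hc n).pow 4) fun γ hγ z => by rw [hφ.invariant n γ hγ]
  -- the second moments are bounded
  obtain ⟨B, hB⟩ := bdd_of_cocompact (hw.mul hg) (fun γ hγ z => by
    show w (γ • z) * g (γ • z) = w z * g z
    rw [hwi γ hγ, hgi γ hγ]) hK
  have hB0 : 0 ≤ B := (abs_nonneg _).trans (hB I)
  have hcB : ∀ n, surfAvg D (fun z => w z * g z * φ n z ^ 2) ^ 2 ≤ B ^ 2 := by
    intro n
    have h1 : surfAvg D (fun z => w z * g z * φ n z ^ 2) ≤ B := by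
      have := hmono _ (fun z => B * φ n z ^ 2) (i2 n) ((i2' n).const_mul B) fun z =>
        mul_le_mul_of_nonneg_right ((le_abs_self _).trans (hB z)) (sq_nonneg _)
      rwa [Surf.surfAvg_const_mul, hn, mul_one] at this
    have h2 : -B ≤ surfAvg D (fun z => w z * g z * φ n z ^ 2) := by
      have := hmono (fun z => (-B) * φ n z ^ 2) _ ((i2' n).const_mul (-B)) (i2 n) fun z =>
        mul_le_mul_of_nonneg_right ((neg_le_neg (hB z)).trans (neg_abs_le _)) (sq_nonneg _)
      rwa [Surf.surfAvg_const_mul, hn, mul_one] at this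
    exact sq_le_sq' h2 h1
  -- fourth moments with and without the weight
  obtain ⟨B', hB'⟩ := bdd_of_cocompact (f := fun z => 1 / w z)
    (continuous_const.div hw fun z => (hw0 z).ne') (fun γ hγ z => by rw [hwi γ hγ]) hK
  have hB'0 : 0 ≤ B' := (abs_nonneg _).trans (hB' I)
  have h4le : ∀ n, surfAvg D (fun z => φ n z ^ 4) ≤ B' * surfAvg D (fun z => w z * φ n z ^ 4) := by
    intro n
    have h2 := hmono _ (fun z => B' * (w z * φ n z ^ 4)) (i4' n) ((i4 n).const_mul _) fun z => by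
      have h3 : 1 / w z ≤ B' := (le_abs_self _).trans (hB' z)
      have h4 : 1 ≤ B' * w z := by
        rw [div_le_iff₀ (hw0 z)] at h3
        exact h3
      have h5 : 0 ≤ φ n z ^ 4 := by positivity
      nlinarith
    rwa [Surf.surfAvg_const_mul] at h2
  set τ := statVar c x ^ 2 with hτ
  have hτ0 : 0 ≤ τ := sq_nonneg _
  -- nonnegativity of the right side
  have hE0 : ∀ n, 0 ≤ ∫ p, w p.1 * (∑ i, c i * localWave (φ n) (m n) (x i) p) ^ 4
      ∂(frameProb D) := fun n =>
    integral_nonneg fun p => mul_nonneg (hw0 _).le (by positivity)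
  rcases hτ0.eq_or_lt with h0 | h0
  · refine Eventually.of_forall fun n => ?_
    rw [← h0, mul_zero, zero_mul]
    have := mul_nonneg ha0 (hE0 n)
    linarith
  -- the parameters
  set δ : ℝ := min τ (ε / (6 * (B ^ 2 + 1))) with hδ
  have hδ0 : 0 < δ := lt_min h0 (by positivity)
  have hδτ : δ ≤ τ := min_le_left _ _
  have hδε : 3 * B ^ 2 * δ ≤ ε / 2 := by
    have h1 : δ ≤ ε / (6 * (B ^ 2 + 1)) := min_le_right _ _
    have h2 : 3 * B ^ 2 * δ ≤ 3 * B ^ 2 * (ε / (6 * (B ^ 2 + 1))) :=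
      mul_le_mul_of_nonneg_left h1 (by positivity)
    refine h2.trans ?_
    rw [mul_div_assoc', div_le_div_iff₀ (by positivity) (by norm_num)]
    nlinarith [sq_nonneg B]
  have h1 := weighted_fourth hD hK (hasGood hDm hD hK) hφ hs hn hw hw0 hwi hg hgi
    (ε := ε / (2 * τ)) (by positivity)
  have h2 := lin_lower hDm hD hK hφ hs hw (fun z => (hw0 z).le) hwi c x
    (ε := δ / (B' + 1)) (by positivity)
  filter_upwards [h1, h2] with n hn1 hn2
  set A4 := surfAvg D (fun z => w z * φ n z ^ 4) with hA4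
  set b := surfAvg D (fun z => w z * g z * φ n z ^ 2) with hb
  set E4 := ∫ p, w p.1 * (∑ i, c i * localWave (φ n) (m n) (x i) p) ^ 4 ∂(frameProb D) with hE4
  have hA40 : 0 ≤ A4 := Surf.surfAvg_nonneg fun z => mul_nonneg (hw0 z).le (by positivity)
  have h3 : (τ - δ) * A4 ≤ E4 := by
    have h4 : δ / (B' + 1) * surfAvg D (fun z => φ n z ^ 4) ≤ δ * A4 := by
      calc δ / (B' + 1) * surfAvg D (fun z => φ n z ^ 4) ≤ δ / (B' + 1) * (B' * A4) :=
            mul_le_mul_of_nonneg_left (h4le n) (by positivity)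
        _ = δ * A4 * (B' / (B' + 1)) := by field_simp
        _ ≤ δ * A4 * 1 := by
            refine mul_le_mul_of_nonneg_left ?_ (by positivity)
            exact (div_le_one (by positivity)).2 (by linarith)
        _ = δ * A4 := mul_one _
    linarith
  have h5 : (τ - δ) * (a * A4) ≤ a * E4 := by
    calc (τ - δ) * (a * A4) = a * ((τ - δ) * A4) := by ring
      _ ≤ a * E4 := mul_le_mul_of_nonneg_left h3 ha0
  have h6 : (τ - δ) * (3 * b ^ 2 - ε / (2 * τ)) ≤ (τ - δ) * (a * A4) :=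
    mul_le_mul_of_nonneg_left hn1 (by linarith)
  have h7 : τ * (ε / (2 * τ)) = ε / 2 := by field_simp
  have h8 : 0 ≤ δ * (ε / (2 * τ)) := by positivity
  have h9 : 3 * b ^ 2 * δ ≤ ε / 2 := by
    refine le_trans ?_ hδε
    have := hcB n
    nlinarith
  nlinarith

end

end QE
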