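import Pool.Agent.Lib_helper67.QE.HypDefs

/-!
Calculus of weak limits: linearity, conjugation, uniqueness, positivity.
-/

open MeasureTheory Filter Topology
open UpperHalfPlane hiding I
open scoped ContDiff MatrixGroups

namespace QE

noncomputable section

variable {U : Set ℂ}

theorem LocL2.add {v w : ℂ → ℂ} (hv : LocL2 U v) (hw : LocL2 U w) :
    LocL2 U (fun z => v z + w z) := fun K hK hKU => (hv K hK hKU).add (hw K hK hKU)

theorem LocL2.sub {v w : ℂ → ℂ} (hv : LocL2 U v) (hw : LocL2 U w) :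
    LocL2 U (fun z => v z - w z) := fun K hK hKU => (hv K hK hKU).sub (hw K hK hKU)

theorem LocL2.const_mul {v : ℂ → ℂ} (hv : LocL2 U v) (c : ℂ) :
    LocL2 U (fun z => c * v z) := fun K hK hKU => (hv K hK hKU).const_mul c

theorem LocL2.conj {v : ℂ → ℂ} (hv : LocL2 U v) :
    LocL2 U (fun z => (starRingEnd ℂ) (v z)) := fun K hK hKU => (hv K hK hKU).star

theorem LocL2.zero : LocL2 U (fun _ => 0) := fun _ _ _ => MemLp.zero

theorem LocL2.sum {ι : Type*} (s : Finset ι) {v : ι → ℂ → ℂ} (hv : ∀ i ∈ s, LocL2 U (v i)) :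
    LocL2 U (fun z => ∑ i ∈ s, v i z) := fun K hK hKU =>
  memLp_finsetSum s fun i hi => hv i hi K hK hKU

/-- the product of two square integrable functions is integrable -/
theorem memLp_mul_integrable {μ : Measure ℂ} {ζ v : ℂ → ℂ} (hζ : MemLp ζ 2 μ) (hv : MemLp v 2 μ) :
    Integrable (fun z => ζ z * v z) μ := by
  have := hv.integrable_mul hζ
  refine this.congr (Filter.Eventually.of_forall fun z => ?_)
  show v z * ζ z = ζ z * v z
  ring

theorem SmoothSeq.memLp {v : ℕ → ℂ → ℂ} (hv : SmoothSeq U v) {K : Set ℂ} (hK : IsCompact K)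
    (hKU : K ⊆ U) (n : ℕ) : MemLp (v n) 2 (volume.restrict K) := by
  have : IsFiniteMeasure (volume.restrict K) := ⟨by
    rw [Measure.restrict_apply_univ]; exact hK.measure_lt_top⟩
  have hc : ContinuousOn (v n) K := (hv n).continuousOn.mono hKU
  obtain ⟨C, hC⟩ := hK.exists_bound_of_continuousOn hc
  refine MemLp.of_bound (hc.aestronglyMeasurable hK.measurableSet) C ?_
  exact (ae_restrict_iff' hK.measurableSet).2 (Filter.Eventually.of_forall fun z hz => hC z hz)

theorem WLim.add {v v' : ℕ → ℂ → ℂ} {w w' : ℂ → ℂ} (h : WLim U v w) (h' : WLim U v' w')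
    (sv : SmoothSeq U v) (sv' : SmoothSeq U v') (lw : LocL2 U w) (lw' : LocL2 U w') :
    WLim U (fun n z => v n z + v' n z) (fun z => w z + w' z) := by
  intro K hK hKU ζ hζ
  have e1 : ∀ n, ∫ z in K, ζ z * (v n z + v' n z) = (∫ z in K, ζ z * v n z)
      + ∫ z in K, ζ z * v' n z := by
    intro n
    rw [← integral_add (memLp_mul_integrable hζ (sv.memLp hK hKU n))
      (memLp_mul_integrable hζ (sv'.memLp hK hKU n))]
    exact integral_congr_ae (Filter.Eventually.of_forall fun z => by beta_reduce; ring)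
  have e2 : ∫ z in K, ζ z * (w z + w' z) = (∫ z in K, ζ z * w z) + ∫ z in K, ζ z * w' z := by
    rw [← integral_add (memLp_mul_integrable hζ (lw K hK hKU))
      (memLp_mul_integrable hζ (lw' K hK hKU))]
    exact integral_congr_ae (Filter.Eventually.of_forall fun z => by beta_reduce; ring)
  simp only [e1, e2]
  exact (h K hK hKU ζ hζ).add (h' K hK hKU ζ hζ)

theorem WLim.const_mul {v : ℕ → ℂ → ℂ} {w : ℂ → ℂ} (h : WLim U v w) (c : ℂ) :
    WLim U (fun n z => c * v n z) (fun z => c * w z) := by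
  intro K hK hKU ζ hζ
  have e1 : ∀ f : ℂ → ℂ, ∫ z in K, ζ z * (c * f z) = c * ∫ z in K, ζ z * f z := by
    intro f
    rw [← integral_const_mul]
    exact integral_congr_ae (Filter.Eventually.of_forall fun z => by beta_reduce; ring)
  have := (h K hK hKU ζ hζ).const_mul c
  simp only [e1 (v _), e1 w]
  exact this

theorem WLim.conj {v : ℕ → ℂ → ℂ} {w : ℂ → ℂ} (h : WLim U v w) :
    WLim U (fun n z => (starRingEnd ℂ) (v n z)) (fun z => (starRingEnd ℂ) (w z)) := by
  intro K hK hKU ζ hζ
  have e1 : ∀ f : ℂ → ℂ, ∫ z in K, ζ z * (starRingEnd ℂ) (f z)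
      = (starRingEnd ℂ) (∫ z in K, (starRingEnd ℂ) (ζ z) * f z) := by
    intro f
    rw [← integral_conj]
    exact integral_congr_ae (Filter.Eventually.of_forall fun z => by
      beta_reduce; simp only [map_mul, starRingEnd_self_apply])
  have h2 := (Complex.continuous_conj.tendsto _).comp (h K hK hKU (fun z => (starRingEnd ℂ) (ζ z))
    hζ.star)
  simp only [e1 (v _), e1 w]
  exact h2

theorem WLim.congr {v v' : ℕ → ℂ → ℂ} {w : ℂ → ℂ} (h : WLim U v w)
    (he : ∀ n, ∀ z ∈ U, v n z = v' n z) : WLim U v' w := by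
  intro K hK hKU ζ hζ
  refine (h K hK hKU ζ hζ).congr fun n => ?_
  refine setIntegral_congr_fun hK.measurableSet fun z hz => ?_
  simp only [he n z (hKU hz)]

theorem WLim.congr_right {v : ℕ → ℂ → ℂ} {w w' : ℂ → ℂ} (h : WLim U v w)
    (he : ∀ z ∈ U, w z = w' z) : WLim U v w' := by
  intro K hK hKU ζ hζ
  have e : ∫ z in K, ζ z * w' z = ∫ z in K, ζ z * w z :=
    setIntegral_congr_fun hK.measurableSet fun z hz => by simp only [he z (hKU hz)]
  rw [e]
  exact h K hK hKU ζ hζ

theorem WLim.zero : WLim U (fun _ _ => 0) (fun _ => 0) := by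
  intro K _ _ ζ _
  simp

theorem WLim.sum {ι : Type*} (s : Finset ι) {v : ι → ℕ → ℂ → ℂ} {w : ι → ℂ → ℂ}
    (h : ∀ i ∈ s, WLim U (v i) (w i)) (sv : ∀ i ∈ s, SmoothSeq U (v i))
    (lw : ∀ i ∈ s, LocL2 U (w i)) :
    WLim U (fun n z => ∑ i ∈ s, v i n z) (fun z => ∑ i ∈ s, w i z) := by
  classical
  induction s using Finset.induction_on with
  | empty => simpa using WLim.zero
  | insert a s ha ih =>
    have h1 := ih (fun i hi => h i (Finset.mem_insert_of_mem hi))
      (fun i hi => sv i (Finset.mem_insert_of_mem hi)) (fun i hi => lw i (Finset.mem_insert_of_mem hi))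
    have s1 : SmoothSeq U (fun n z => ∑ i ∈ s, v i n z) := fun n =>
      ContDiffOn.sum fun i hi => sv i (Finset.mem_insert_of_mem hi) n
    have h2 := WLim.add (h a (Finset.mem_insert_self a s)) h1 (sv a (Finset.mem_insert_self a s)) s1
      (lw a (Finset.mem_insert_self a s))
      (LocL2.sum s fun i hi => lw i (Finset.mem_insert_of_mem hi))
    refine (h2.congr fun n z _ => ?_).congr_right fun z _ => ?_
    · rw [Finset.sum_insert ha]
    · rw [Finset.sum_insert ha]

/-- an open subset of the plane is exhausted by countably many compact sets -/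
theorem exists_exhaustion (hU : IsOpen U) : ∃ K : ℕ → Set ℂ, (∀ n, IsCompact (K n)) ∧
    (∀ n, K n ⊆ U) ∧ U = ⋃ n, K n := by
  have h1 : IsSigmaCompact U := by
    have : LocallyCompactSpace U := hU.locallyCompactSpace
    have : SigmaCompactSpace U := inferInstance
    exact isSigmaCompact_iff_sigmaCompactSpace.2 inferInstance
  obtain ⟨K, hK, hKU⟩ := h1
  exact ⟨K, hK, fun n => hKU ▸ Set.subset_iUnion K n, hKU.symm⟩

/-- statements which hold almost everywhere on every compact subset hold almost everywhere -/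
theorem ae_of_compacts (hU : IsOpen U) {p : ℂ → Prop}
    (h : ∀ K : Set ℂ, IsCompact K → K ⊆ U → ∀ᵐ z ∂((volume : Measure ℂ).restrict K), p z) :
    ∀ᵐ z ∂((volume : Measure ℂ).restrict U), p z := by
  obtain ⟨K, hK, hKU, e⟩ := exists_exhaustion hU
  rw [e]
  exact (ae_restrict_iUnion_iff K p).2 fun n => h (K n) (hK n) (hKU n)

theorem WLim.nonneg (hU : IsOpen U) {v : ℕ → ℂ → ℂ} {w : ℂ → ℂ} (h : WLim U v w)
    (lw : LocL2 U w) (hn : ∀ n, ∀ z ∈ U, 0 ≤ (v n z).re) (sv : SmoothSeq U v) :
    ∀ᵐ z ∂((volume : Measure ℂ).restrict U), 0 ≤ (w z).re := by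
  refine ae_of_compacts hU fun K hK hKU => ?_
  have : IsFiniteMeasure ((volume : Measure ℂ).restrict K) := ⟨by
    rw [Measure.restrict_apply_univ]; exact hK.measure_lt_top⟩
  have hwi : Integrable (fun z => (w z).re) (volume.restrict K) :=
    ((lw K hK hKU).integrable (by norm_num)).re
  refine ae_nonneg_of_forall_setIntegral_nonneg hwi fun s hs hμs => ?_
  set ζ : ℂ → ℂ := s.indicator fun _ => 1 with hζ
  have hζm : MemLp ζ 2 (volume.restrict K) := memLp_indicator_const 2 hs (1 : ℂ) (Or.inr (by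
    exact (measure_lt_top _ _).ne))
  have h1 := (Complex.continuous_re.tendsto _).comp (h K hK hKU ζ hζm)
  have e : ∀ f : ℂ → ℂ, MemLp f 2 (volume.restrict K) → (∫ z in K, ζ z * f z).re
      = ∫ z in s, (f z).re ∂(volume.restrict K) := by
    intro f hf
    have e0 : (∫ z in K, ζ z * f z).re = ∫ z in K, (ζ z * f z).re :=
      (integral_re (memLp_mul_integrable hζm hf)).symm
    rw [e0, ← integral_indicator hs]
    refine integral_congr_ae (Filter.Eventually.of_forall fun z => ?_)
    by_cases hz : z ∈ s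
    · simp [hζ, hz]
    · simp [hζ, hz]
  rw [← e w (lw K hK hKU)]
  refine ge_of_tendsto' h1 fun n => ?_
  show 0 ≤ (∫ z in K, ζ z * v n z).re
  rw [e (v n) (sv.memLp hK hKU n)]
  have : ∫ z in s, (v n z).re ∂(volume.restrict K) = ∫ z in K, s.indicator (fun z => (v n z).re) z :=
    (integral_indicator hs).symm
  rw [this]
  refine setIntegral_nonneg hK.measurableSet fun z hz => ?_
  by_cases hzs : z ∈ s
  · simp [hzs, hn n z (hKU hz)]
  · simp [hzs]

theorem WLim.unique (hU : IsOpen U) {v : ℕ → ℂ → ℂ} {w w' : ℂ → ℂ} (h : WLim U v w)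
    (h' : WLim U v w') (lw : LocL2 U w) (lw' : LocL2 U w') :
    ∀ᵐ z ∂((volume : Measure ℂ).restrict U), w z = w' z := by
  refine ae_of_compacts hU fun K hK hKU => ?_
  have : IsFiniteMeasure ((volume : Measure ℂ).restrict K) := ⟨by
    rw [Measure.restrict_apply_univ]; exact hK.measure_lt_top⟩
  refine Integrable.ae_eq_of_forall_setIntegral_eq _ _ ((lw K hK hKU).integrable (by norm_num))
    ((lw' K hK hKU).integrable (by norm_num)) fun s hs hμs => ?_
  set ζ : ℂ → ℂ := s.indicator fun _ => 1 with hζ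
  have hζm : MemLp ζ 2 (volume.restrict K) := memLp_indicator_const 2 hs (1 : ℂ) (Or.inr (by
    exact (measure_lt_top _ _).ne))
  have e : ∀ f : ℂ → ℂ, ∫ z in K, ζ z * f z = ∫ z in s, f z ∂(volume.restrict K) := by
    intro f
    rw [← integral_indicator hs]
    refine integral_congr_ae (Filter.Eventually.of_forall fun z => ?_)
    by_cases hz : z ∈ s
    · simp [hζ, hz]
    · simp [hζ, hz]
  rw [← e w, ← e w']
  exact tendsto_nhds_unique (h K hK hKU ζ hζm) (h' K hK hKU ζ hζm)

/-- weak limits tested with test functions -/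
theorem WLim.test {v : ℕ → ℂ → ℂ} {w : ℂ → ℂ} (h : WLim U v w) {ζ : ℂ → ℂ} (hζ : Test U ζ) :
    Tendsto (fun n => ∫ z, ζ z * v n z) atTop (𝓝 (∫ z, ζ z * w z)) := by
  have hm : MemLp ζ 2 (volume.restrict (tsupport ζ)) :=
    (hζ.smooth.continuous.memLp_of_hasCompactSupport hζ.supp).restrict _
  have h1 := h (tsupport ζ) hζ.supp hζ.sub ζ hm
  have e : ∀ f : ℂ → ℂ, ∫ z in tsupport ζ, ζ z * f z = ∫ z, ζ z * f z := by
    intro f
    refine setIntegral_eq_integral_of_forall_compl_eq_zero fun z hz => ?_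
    rw [image_eq_zero_of_notMem_tsupport hz, zero_mul]
  simpa only [e] using h1

end

end QE
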