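import Pool.Agent.Lib_helper67.QE.JetJ
import Pool.Agent.Lib_helper67.QE.WLimTools

/-!
Weak limits with locally square integrable limit functions, and the div-curl lemma for them
(helper70).
-/

open Complex MeasureTheory Filter Topology
open scoped ContDiff ENNReal

namespace QE

noncomputable section

variable {U : Set ℂ} {h : ℕ → ℝ}

/-- the sequence `w` converges in `U`, against test functions, to the locally square integrable
function `u` -/
structure TLim (U : Set ℂ) (w : ℕ → ℂ → ℂ) (u : ℂ → ℂ) : Prop where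
  loc : LocL2 U u
  lim : ∀ ζ : ℂ → ℂ, Test U ζ → Tendsto (fun n => ∫ z, ζ z * w n z) atTop (𝓝 (∫ z, ζ z * u z))

theorem MemLp.sqInt {μ : Measure ℂ} {f : ℂ → ℂ} (hf : MemLp f 2 μ) :
    Integrable (fun z => ‖f z‖ ^ 2) μ :=
  (memLp_two_iff_integrable_sq_norm hf.1).1 hf

/-- the elementary form of the Cauchy-Schwarz inequality -/
theorem norm_integral_mul_le {μ : Measure ℂ} {f g : ℂ → ℂ} (hf : MemLp f 2 μ) (hg : MemLp g 2 μ)
    {l : ℝ} (hl : 0 < l) : ‖∫ z, f z * g z ∂μ‖
      ≤ (l⁻¹ * (∫ z, ‖f z‖ ^ 2 ∂μ) + l * ∫ z, ‖g z‖ ^ 2 ∂μ) / 2 := by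
  have i1 := MemLp.sqInt hf
  have i2 := MemLp.sqInt hg
  calc ‖∫ z, f z * g z ∂μ‖ ≤ ∫ z, ‖f z * g z‖ ∂μ := norm_integral_le_integral_norm _
    _ ≤ ∫ z, (l⁻¹ * ‖f z‖ ^ 2 + l * ‖g z‖ ^ 2) / 2 ∂μ := by
        refine integral_mono_of_nonneg (Filter.Eventually.of_forall fun z => norm_nonneg _)
          (((i1.const_mul _).add (i2.const_mul _)).div_const 2)
          (Filter.Eventually.of_forall fun z => ?_)
        simp only [norm_mul]
        have h2 : 0 ≤ l⁻¹ * (‖f z‖ - l * ‖g z‖) ^ 2 := by positivity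
        have h3 : l⁻¹ * (‖f z‖ - l * ‖g z‖) ^ 2
            = l⁻¹ * ‖f z‖ ^ 2 - 2 * (‖f z‖ * ‖g z‖) + l * ‖g z‖ ^ 2 := by
          field_simp
          ring
        rw [h3] at h2
        linarith
    _ = _ := by
        rw [integral_div, integral_add (i1.const_mul _) (i2.const_mul _), integral_const_mul,
          integral_const_mul]

theorem LocL2.mono {V : Set ℂ} {u : ℂ → ℂ} (hu : LocL2 U u) (hVU : V ⊆ U) : LocL2 V u :=
  fun K hK hKV => hu K hK (hKV.trans hVU)

theorem LocL2.intOn {u : ℂ → ℂ} (hu : LocL2 U u) {K : Set ℂ} (hK : IsCompact K) (hKU : K ⊆ U) :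
    IntegrableOn u K := by
  have : IsFiniteMeasure (volume.restrict K) := ⟨by
    rw [Measure.restrict_apply_univ]; exact hK.measure_lt_top⟩
  exact (hu K hK hKU).integrable (by norm_num)

theorem LocL2.intOn_mul {u v : ℂ → ℂ} (hu : LocL2 U u) (hv : LocL2 U v) {K : Set ℂ} (hK : IsCompact K)
    (hKU : K ⊆ U) : IntegrableOn (fun z => u z * v z) K :=
  (hu K hK hKU).integrable_mul (hv K hK hKU)

theorem LocL2.locallyIntegrableOn (hU : IsOpen U) {u : ℂ → ℂ} (hu : LocL2 U u) :
    LocallyIntegrableOn u U := by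
  rw [locallyIntegrableOn_iff hU.isLocallyClosed]
  intro K hKU hK
  exact hu.intOn hK hKU

/-- smooth sequences consist of locally square integrable functions -/
theorem LocL2.of_smooth {f : ℂ → ℂ} (hf : ContDiffOn ℝ ∞ f U) : LocL2 U f := by
  intro K hK hKU
  have hc : ContinuousOn f K := hf.continuousOn.mono hKU
  rw [memLp_two_iff_integrable_sq_norm (hc.aestronglyMeasurable hK.measurableSet)]
  exact (hc.norm.pow 2).integrableOn_compact hK

/-- a test function times a function which is integrable on its support -/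
theorem Test.int_of_intOn {ζ f : ℂ → ℂ} (hζ : Test U ζ) (hf : IntegrableOn f (tsupport ζ)) :
    Integrable (fun z => ζ z * f z) := by
  obtain ⟨M, hM⟩ := hζ.smooth.continuous.bounded_above_of_compact_support hζ.supp
  have h1 : IntegrableOn (fun z => ζ z * f z) (tsupport ζ) :=
    Integrable.bdd_mul hf hζ.smooth.continuous.aestronglyMeasurable.restrict
      (Filter.Eventually.of_forall hM)
  rwa [integrableOn_iff_integrable_of_support_subset] at h1
  intro z hz
  by_contra hcon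
  exact hz (by simp [image_eq_zero_of_notMem_tsupport hcon])

theorem Test.int_LocL2 {ζ u : ℂ → ℂ} (hζ : Test U ζ) (hu : LocL2 U u) :
    Integrable (fun z => ζ z * u z) := hζ.int_of_intOn (hu.intOn hζ.supp hζ.sub)

theorem Test.int_LocL2_mul {ζ u v : ℂ → ℂ} (hζ : Test U ζ) (hu : LocL2 U u) (hv : LocL2 U v) :
    Integrable (fun z => ζ z * (u z * v z)) := hζ.int_of_intOn (hu.intOn_mul hv hζ.supp hζ.sub)

/-- uniqueness of weak limits -/
theorem TLim.unique (hU : IsOpen U) {w : ℕ → ℂ → ℂ} {u v : ℂ → ℂ} (hu : TLim U w u)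
    (hv : TLim U w v) : ∀ᵐ z, z ∈ U → u z = v z := by
  have key : ∀ᵐ z, z ∈ U → u z + (-1) * v z = 0 := by
    refine hU.ae_eq_zero_of_integral_contDiff_smul_eq_zero (μ := volume)
      (f := fun z => u z + (-1) * v z) ((hu.loc.add (hv.loc.const_mul (-1))).locallyIntegrableOn hU)
      fun g hg hgc hgU => ?_
    have hts : tsupport (fun z => (g z : ℂ)) ⊆ tsupport g := by
      refine closure_mono fun z hz => ?_
      simp only [Function.mem_support] at hz ⊢
      intro h0; exact hz (by simp [h0])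
    have hT : Test U (fun z => (g z : ℂ)) :=
      ⟨ofRealCLM.contDiff.comp hg, hgc.of_isClosed_subset (isClosed_tsupport _) hts,
        hts.trans hgU⟩
    have e := tendsto_nhds_unique (hu.lim _ hT) (hv.lim _ hT)
    have e2 : ∫ z, g z • (u z + (-1) * v z) = (∫ z, (g z : ℂ) * u z) - ∫ z, (g z : ℂ) * v z := by
      rw [← integral_sub (hT.int_LocL2 hu.loc) (hT.int_LocL2 hv.loc)]
      refine integral_congr_ae (Filter.Eventually.of_forall fun z => ?_)
      simp only [real_smul]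
      ring
    rw [e2, e, sub_self]
  filter_upwards [key] with z hz hzU
  have := hz hzU
  linear_combination this

theorem TLim.congr_ae {w : ℕ → ℂ → ℂ} {u v : ℂ → ℂ} (hu : TLim U w u)
    (hv : LocL2 U v) (he : ∀ᵐ z, z ∈ U → u z = v z) : TLim U w v := by
  refine ⟨hv, fun ζ hζ => ?_⟩
  have : ∫ z, ζ z * v z = ∫ z, ζ z * u z := by
    refine integral_congr_ae ?_
    filter_upwards [he] with z hz
    by_cases hzU : z ∈ U
    · rw [hz hzU]
    · have : ζ z = 0 := image_eq_zero_of_notMem_tsupport fun hh => hzU (hζ.sub hh)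
      rw [this, zero_mul, zero_mul]
  rw [this]
  exact hu.lim ζ hζ

theorem TLim.congr {w w' : ℕ → ℂ → ℂ} {u : ℂ → ℂ} (hu : TLim U w u)
    (he : ∀ n, ∀ z ∈ U, w n z = w' n z) : TLim U w' u :=
  ⟨hu.loc, fun ζ hζ => (hu.lim ζ hζ).congr fun n => hζ.integral_congr (he n)⟩

theorem TLim.add (hU : IsOpen U) {w w' : ℕ → ℂ → ℂ} {u u' : ℂ → ℂ} (sw : SmoothSeq U w)
    (sw' : SmoothSeq U w') (hu : TLim U w u) (hu' : TLim U w' u') :
    TLim U (fun n z => w n z + w' n z) (fun z => u z + u' z) := by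
  refine ⟨hu.loc.add hu'.loc, fun ζ hζ => ?_⟩
  have := (hu.lim ζ hζ).add (hu'.lim ζ hζ)
  rw [← integral_add (hζ.int_LocL2 hu.loc) (hζ.int_LocL2 hu'.loc)] at this
  simp only [← mul_add] at this
  refine this.congr fun n => ?_
  rw [← integral_add (hζ.int hU (sw n)) (hζ.int hU (sw' n))]
  simp only [mul_add]

theorem TLim.const_mul {w : ℕ → ℂ → ℂ} {u : ℂ → ℂ} (hu : TLim U w u) (c : ℂ) :
    TLim U (fun n z => c * w n z) (fun z => c * u z) := by
  refine ⟨hu.loc.const_mul c, fun ζ hζ => ?_⟩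
  have := (hu.lim ζ hζ).const_mul c
  have e : ∀ f : ℂ → ℂ, ∫ z, ζ z * (c * f z) = c * ∫ z, ζ z * f z := by
    intro f
    rw [← integral_const_mul]
    refine integral_congr_ae (Filter.Eventually.of_forall fun z => ?_)
    beta_reduce; ring
  rw [e]
  exact this.congr fun n => (e _).symm

theorem TLim.neg {w : ℕ → ℂ → ℂ} {u : ℂ → ℂ} (hu : TLim U w u) :
    TLim U (fun n z => - w n z) (fun z => - u z) := by
  have := hu.const_mul (-1)
  simpa only [neg_one_mul] using this

theorem TLim.conj {w : ℕ → ℂ → ℂ} {u : ℂ → ℂ} (hu : TLim U w u) :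
    TLim U (fun n z => (starRingEnd ℂ) (w n z)) (fun z => (starRingEnd ℂ) (u z)) := by
  refine ⟨hu.loc.conj, fun ζ hζ => ?_⟩
  have := (continuous_conj.tendsto _).comp (hu.lim _ hζ.conj)
  rw [← integral_conj] at this
  simp only [map_mul, starRingEnd_self_apply] at this
  refine this.congr fun n => ?_
  simp only [Function.comp_apply]
  rw [← integral_conj]
  simp only [map_mul, starRingEnd_self_apply]

theorem TLim.subseq {w : ℕ → ℂ → ℂ} {u : ℂ → ℂ} (hu : TLim U w u) {s : ℕ → ℕ}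
    (hs : Tendsto s atTop atTop) : TLim U (fun n => w (s n)) u :=
  ⟨hu.loc, fun ζ hζ => (hu.lim ζ hζ).comp hs⟩

theorem TLim.zero {w : ℕ → ℂ → ℂ}
    (hw : ∀ ζ, Test U ζ → Tendsto (fun n => ∫ z, ζ z * w n z) atTop (𝓝 0)) :
    TLim U w (fun _ => 0) :=
  ⟨fun _ _ _ => MemLp.zero, fun ζ hζ => by simpa using hw ζ hζ⟩

/-- approximation of a compactly supported square integrable function by test functions -/
theorem exists_test_approx (hU : IsOpen U) {ψ : ℂ → ℂ} (hψ : MemLp ψ 2 volume) {K : Set ℂ}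
    (hK : IsCompact K) (hKU : K ⊆ U) (h0 : ∀ z ∉ K, ψ z = 0) :
    ∃ L : Set ℂ, IsCompact L ∧ L ⊆ U ∧ K ⊆ L ∧ ∀ ε > 0, ∃ η : ℂ → ℂ, Test U η ∧
      (∀ z ∉ L, η z = 0) ∧ (∫ z, ‖ψ z - η z‖ ^ 2) ≤ ε := by
  obtain ⟨χ, hχ, hχ1, hχ2⟩ := exists_cutoff hU hK hKU
  refine ⟨tsupport χ, hχ.supp, hχ.sub, fun z hz => subset_tsupport χ ?_, fun ε hε => ?_⟩
  · have := (hχ1 z hz).self_of_nhds
    simp [this]
  · obtain ⟨g, hgc, hgs, hg⟩ := hψ.exist_eLpNorm_sub_le (by norm_num) (by norm_num)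
      (Real.sqrt_pos.2 hε)
    have hgL : MemLp g 2 volume := hgs.continuous.memLp_of_hasCompactSupport hgc
    have hd : MemLp (ψ - g) 2 volume := hψ.sub hgL
    refine ⟨fun z => χ z * g z, hχ.mul hU hgs.contDiffOn, fun z hz => by
      simp [image_eq_zero_of_notMem_tsupport hz], ?_⟩
    rw [hd.eLpNorm_eq_integral_rpow_norm (by norm_num) (by norm_num)] at hg
    have h1 := (ENNReal.ofReal_le_ofReal_iff (Real.sqrt_nonneg ε)).1 hg
    have h2 : ∫ z, ‖(ψ - g) z‖ ^ 2 ≤ ε := by
      have h3 : 0 ≤ ∫ z, ‖(ψ - g) z‖ ^ 2 := integral_nonneg fun z => by positivity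
      have e2 : (2 : ℝ≥0∞).toReal = (2 : ℝ) := by norm_num
      rw [e2] at h1
      have e3 : (∫ z, ‖(ψ - g) z‖ ^ (2 : ℝ)) = ∫ z, ‖(ψ - g) z‖ ^ 2 := by
        refine integral_congr_ae (Filter.Eventually.of_forall fun z => ?_)
        exact Real.rpow_natCast _ 2
      rw [e3, show (2 : ℝ)⁻¹ = 1 / 2 by norm_num, ← Real.sqrt_eq_rpow] at h1
      exact (Real.sqrt_le_sqrt_iff hε.le).1 h1
    refine le_trans (integral_mono_of_nonneg (Filter.Eventually.of_forall fun z => by positivity)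
      (MemLp.sqInt hd) (Filter.Eventually.of_forall fun z => ?_)) h2
    have e : ψ z - χ z * g z = χ z * (ψ - g) z := by
      by_cases hz : z ∈ K
      · have := (hχ1 z hz).self_of_nhds
        rw [this]; simp
      · rw [h0 z hz, Pi.sub_apply, h0 z hz]; ring
    simp only [e, norm_mul]
    have := hχ2 z
    gcongr
    nlinarith [norm_nonneg (χ z), norm_nonneg ((ψ - g) z)]

/-- weak limits can be tested against compactly supported square integrable functions -/
theorem TLim.test_L2 (hU : IsOpen U) {w : ℕ → ℂ → ℂ} {u : ℂ → ℂ} (sw : SmoothSeq U w)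
    (bw : LBdd 2 U w) (hu : TLim U w u) {ψ : ℂ → ℂ} (hψ : MemLp ψ 2 volume) {K : Set ℂ}
    (hK : IsCompact K) (hKU : K ⊆ U) (h0 : ∀ z ∉ K, ψ z = 0) :
    Tendsto (fun n => ∫ z, ψ z * w n z) atTop (𝓝 (∫ z, ψ z * u z)) := by
  obtain ⟨L, hL, hLU, hKL, hap⟩ := exists_test_approx hU hψ hK hKU h0
  obtain ⟨C, hC⟩ := bw L hL hLU
  have hC0 : 0 ≤ C := by
    obtain ⟨n, hn⟩ := hC.exists
    exact (integral_nonneg fun z => by positivity).trans hn
  set D := ∫ z in L, ‖u z‖ ^ 2 with hD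
  have hD0 : 0 ≤ D := integral_nonneg fun z => by positivity
  rw [Metric.tendsto_atTop]
  intro ε hε
  -- the parameter
  set l : ℝ := ε / (3 * (C + D + 1)) with hl
  have hl0 : 0 < l := by positivity
  obtain ⟨η, hη, hη0, hηε⟩ := hap (l * (ε / 3)) (by positivity)
  have hψL : MemLp ψ 2 (volume.restrict L) := hψ.restrict L
  have hηL : MemLp η 2 (volume.restrict L) :=
    (hη.smooth.continuous.memLp_of_hasCompactSupport hη.supp).restrict L
  have hdL : MemLp (fun z => ψ z - η z) 2 (volume.restrict L) := hψL.sub hηL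
  have hdi : ∫ z in L, ‖ψ z - η z‖ ^ 2 ≤ l * (ε / 3) := by
    refine le_trans (setIntegral_le_integral ?_ (Filter.Eventually.of_forall fun z => by
      positivity)) hηε
    exact MemLp.sqInt (hψ.sub (hη.smooth.continuous.memLp_of_hasCompactSupport hη.supp))
  -- the error for one function
  have herr : ∀ f : ℂ → ℂ, MemLp f 2 (volume.restrict L) → ∀ B, (∫ z in L, ‖f z‖ ^ 2) ≤ B →
      ‖(∫ z, ψ z * f z) - ∫ z, η z * f z‖ ≤ (ε / 3 + l * B) / 2 := by
    intro f hf B hB
    have i1 : IntegrableOn (fun z => ψ z * f z) L := hψL.integrable_mul hf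
    have i2 : IntegrableOn (fun z => η z * f z) L := hηL.integrable_mul hf
    have e1 : ∫ z, ψ z * f z = ∫ z in L, ψ z * f z := by
      rw [setIntegral_eq_integral_of_forall_compl_eq_zero]
      intro z hz
      rw [h0 z (fun hh => hz (hKL hh)), zero_mul]
    have e2 : ∫ z, η z * f z = ∫ z in L, η z * f z := by
      rw [setIntegral_eq_integral_of_forall_compl_eq_zero]
      intro z hz
      rw [hη0 z hz, zero_mul]
    have e3 : (∫ z, ψ z * f z) - ∫ z, η z * f z = ∫ z in L, (ψ z - η z) * f z := by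
      rw [e1, e2, ← integral_sub i1 i2]
      refine integral_congr_ae (Filter.Eventually.of_forall fun z => ?_)
      beta_reduce; ring
    rw [e3]
    refine (norm_integral_mul_le hdL hf hl0).trans ?_
    have h1 : l⁻¹ * (∫ z in L, ‖ψ z - η z‖ ^ 2) ≤ ε / 3 := by
      calc l⁻¹ * (∫ z in L, ‖ψ z - η z‖ ^ 2) ≤ l⁻¹ * (l * (ε / 3)) := by gcongr
        _ = ε / 3 := by field_simp
    have h2 : l * (∫ z in L, ‖f z‖ ^ 2) ≤ l * B := by gcongr
    linarith
  have hlC : l * C ≤ ε / 3 := by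
    rw [hl, div_mul_eq_mul_div, div_le_div_iff₀ (by positivity) (by norm_num)]
    nlinarith [mul_nonneg hε.le hD0, mul_nonneg hε.le hC0]
  have hlD : l * D ≤ ε / 3 := by
    rw [hl, div_mul_eq_mul_div, div_le_div_iff₀ (by positivity) (by norm_num)]
    nlinarith [mul_nonneg hε.le hD0, mul_nonneg hε.le hC0]
  have hlim := (Metric.tendsto_atTop.1 (hu.lim η hη)) (ε / 3) (by positivity)
  obtain ⟨N₁, hN₁⟩ := hlim
  obtain ⟨N₂, hN₂⟩ := eventually_atTop.1 hC
  refine ⟨max N₁ N₂, fun n hn => ?_⟩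
  have h1 := hN₁ n (le_trans (le_max_left _ _) hn)
  have h2 := herr (w n) (LocL2.of_smooth (sw n) L hL hLU) C (hN₂ n (le_trans (le_max_right _ _) hn))
  have h3 := herr u (hu.loc L hL hLU) D le_rfl
  rw [dist_eq_norm] at h1 ⊢
  have e : (∫ z, ψ z * w n z) - ∫ z, ψ z * u z
      = ((∫ z, ψ z * w n z) - ∫ z, η z * w n z) + ((∫ z, η z * w n z) - ∫ z, η z * u z)
        - ((∫ z, ψ z * u z) - ∫ z, η z * u z) := by ring
  rw [e]
  have h4 := norm_sub_le (((∫ z, ψ z * w n z) - ∫ z, η z * w n z)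
    + ((∫ z, η z * w n z) - ∫ z, η z * u z)) ((∫ z, ψ z * u z) - ∫ z, η z * u z)
  have h5 := norm_add_le ((∫ z, ψ z * w n z) - ∫ z, η z * w n z)
    ((∫ z, η z * w n z) - ∫ z, η z * u z)
  linarith

/-- testing against a test function times a locally square integrable function -/
theorem TLim.test_mul (hU : IsOpen U) {w : ℕ → ℂ → ℂ} {u v : ℂ → ℂ} (sw : SmoothSeq U w)
    (bw : LBdd 2 U w) (hu : TLim U w u) (hv : LocL2 U v) {ζ : ℂ → ℂ} (hζ : Test U ζ) :
    Tendsto (fun n => ∫ z, ζ z * (v z * w n z)) atTop (𝓝 (∫ z, ζ z * (v z * u z))) := by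
  obtain ⟨M, hM⟩ := hζ.smooth.continuous.bounded_above_of_compact_support hζ.supp
  have hK : IsCompact (tsupport ζ) := hζ.supp
  have hm : MemLp (fun z => ζ z * v z) 2 volume := by
    have h1 : MemLp (fun z => ζ z * v z) 2 (volume.restrict (tsupport ζ)) := by
      have := hv _ hK hζ.sub
      refine (this.const_mul (M : ℂ)).mono (hζ.smooth.continuous.aestronglyMeasurable.restrict.mul
        this.1) (Filter.Eventually.of_forall fun z => ?_)
      simp only [norm_mul, Complex.norm_real, Real.norm_eq_abs]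
      gcongr
      exact (hM z).trans (le_abs_self M)
    have h2 := (memLp_indicator_iff_restrict (isClosed_tsupport ζ).measurableSet
      (f := fun z => ζ z * v z) (p := 2) (μ := volume)).2 h1
    have e : (tsupport ζ).indicator (fun z => ζ z * v z) = fun z => ζ z * v z := by
      funext z
      by_cases hz : z ∈ tsupport ζ
      · rw [Set.indicator_of_mem hz]
      · rw [Set.indicator_of_notMem hz, image_eq_zero_of_notMem_tsupport hz, zero_mul]
    rwa [e] at h2
  have := hu.test_L2 hU sw bw hm hK hζ.sub (fun z hz => by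
    rw [image_eq_zero_of_notMem_tsupport hz, zero_mul])
  simpa only [mul_assoc] using this

/-- bounded sequences which converge against test functions converge weakly in `L²` -/
theorem TLim.wlim (hU : IsOpen U) {w : ℕ → ℂ → ℂ} {u : ℂ → ℂ} (sw : SmoothSeq U w)
    (bw : LBdd 2 U w) (hu : TLim U w u) : WLim U w u := by
  intro K hK hKU ζ hζ
  have hm : MemLp (K.indicator ζ) 2 volume :=
    (memLp_indicator_iff_restrict hK.measurableSet).2 hζ
  have key := hu.test_L2 hU sw bw hm hK hKU (fun z hz => Set.indicator_of_notMem hz ζ)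
  have e : ∀ f : ℂ → ℂ, ∫ z, K.indicator ζ z * f z = ∫ z in K, ζ z * f z := by
    intro f
    rw [← integral_indicator hK.measurableSet]
    refine integral_congr_ae (Filter.Eventually.of_forall fun z => ?_)
    by_cases hz : z ∈ K
    · simp [hz]
    · simp [hz]
  simpa only [e] using key

theorem Test.memLp2 {ζ : ℂ → ℂ} (hζ : Test U ζ) (K : Set ℂ) : MemLp ζ 2 (volume.restrict K) :=
  (hζ.smooth.continuous.memLp_of_hasCompactSupport hζ.supp).restrict K

theorem Test.setIntegral {ζ : ℂ → ℂ} (_ : Test U ζ) (f : ℂ → ℂ) :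
    ∫ z in tsupport ζ, ζ z * f z = ∫ z, ζ z * f z := by
  rw [setIntegral_eq_integral_of_forall_compl_eq_zero]
  intro z hz
  rw [image_eq_zero_of_notMem_tsupport hz, zero_mul]

theorem WLim.tlim {w : ℕ → ℂ → ℂ} {u : ℂ → ℂ} (hw : WLim U w u) (hu : LocL2 U u) : TLim U w u := by
  refine ⟨hu, fun ζ hζ => ?_⟩
  have := hw (tsupport ζ) hζ.supp hζ.sub ζ (hζ.memLp2 _)
  simpa only [hζ.setIntegral] using this

theorem WLim.congr_ae {w : ℕ → ℂ → ℂ} {u v : ℂ → ℂ} (hu : WLim U w u)
    (he : ∀ᵐ z ∂(volume.restrict U), u z = v z) : WLim U w v := by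
  intro K hK hKU ζ hζ
  have e : ∫ z in K, ζ z * u z = ∫ z in K, ζ z * v z := by
    refine integral_congr_ae ?_
    have := ae_restrict_of_ae_restrict_of_subset hKU he
    filter_upwards [this] with z hz
    rw [hz]
  rw [← e]
  exact hu K hK hKU ζ hζ

theorem WLim.subseq {w : ℕ → ℂ → ℂ} {u : ℂ → ℂ} (hu : WLim U w u) {s : ℕ → ℕ}
    (hs : Tendsto s atTop atTop) : WLim U (fun n => w (s n)) u :=
  fun K hK hKU ζ hζ => (hu K hK hKU ζ hζ).comp hs

theorem LBdd.subseq {p : ℕ} {w : ℕ → ℂ → ℂ} (hw : LBdd p U w) {s : ℕ → ℕ}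
    (hs : Tendsto s atTop atTop) : LBdd p U (fun n => w (s n)) := by
  intro K hK hKU
  obtain ⟨C, hC⟩ := hw K hK hKU
  exact ⟨C, hs.eventually hC⟩

theorem SmoothSeq.subseq {w : ℕ → ℂ → ℂ} (hw : SmoothSeq U w) (s : ℕ → ℕ) :
    SmoothSeq U (fun n => w (s n)) := fun n => hw (s n)

end

end QE
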