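import Pool.Agent.Lib_helper67.QE.Surf
import Pool.Agent.Lib_helper67.QE.Local
import Pool.Agent.Lib_helper67.QE.Symbols
import Pool.Agent.Lib_helper67.QE.TestLim
import Pool.Agent.Lib_helper67.QE.DirG

/-!
Invariant functions on the upper half plane: unfolding of integrals, boundedness on compact sets, and
the local hypotheses for sequences of eigenfunctions with bounded fourth moments.
-/

open UpperHalfPlane MeasureTheory ProbabilityTheory MatrixGroups Filter Topology Set Berry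
open scoped ENNReal NNReal ContDiff

namespace QE

noncomputable section

namespace Surf

variable {Γ : Subgroup SL(2, ℝ)} {D : Set ℍ}

/-- the map to the upper half plane is measurable -/
lemma measurable_ofComplex : Measurable (ofComplex : ℂ → ℍ) := by
  have hU : IsOpen {w : ℂ | 0 < w.im} := isOpen_lt continuous_const Complex.continuous_im
  refine measurable_of_isOpen fun O hO => ?_
  have e : (ofComplex : ℂ → ℍ) ⁻¹' O = UpperHalfPlane.coe '' O ∪
      ({w : ℂ | 0 < w.im}ᶜ ∩ {_w : ℂ | ofComplex (0 : ℂ) ∈ O}) := by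
    ext w
    by_cases hw : 0 < w.im
    · have e1 : ofComplex w = ⟨w, hw⟩ := ofComplex_apply_of_im_pos hw
      constructor
      · intro h
        exact Or.inl ⟨ofComplex w, h, by rw [e1]⟩
      · rintro (⟨z, hz, rfl⟩ | ⟨h, -⟩)
        · show ofComplex (z : ℂ) ∈ O
          rwa [ofComplex_apply]
        · exact absurd hw h
    · have e1 : ofComplex w = ofComplex (0 : ℂ) := by
        rw [ofComplex_apply_of_im_nonpos (not_lt.1 hw), ofComplex_apply_of_im_nonpos (by simp)]
      constructor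
      · intro h
        exact Or.inr ⟨hw, by rw [← e1]; exact h⟩
      · rintro (⟨z, hz, rfl⟩ | ⟨-, h⟩)
        · exact absurd z.im_pos hw
        · show ofComplex w ∈ O
          rw [e1]; exact h
  rw [e]
  refine (isOpenEmbedding_coe.isOpenMap O hO).measurableSet.union
    (hU.measurableSet.compl.inter ?_)
  exact MeasurableSet.const _

/-- the unfolding formula for measurable invariant functions -/
lemma unfold_gen [Countable Γ] (hD : IsFundamentalDomain Γ D (volume : Measure ℍ)) {χ : ℍ → ℝ}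
    {R : ℝ} (hχ : ∀ z, χ z ≠ 0 → dist z I ≤ R) (hc : Continuous χ) (h0 : ∀ z, 0 ≤ χ z)
    {F : ℍ → ℝ≥0∞} (hF : Measurable F) (hinv : ∀ γ ∈ Γ, ∀ z, F (γ • z) = F z) :
    ∫⁻ z : ℍ, ENNReal.ofReal (χ z) * F z = ∫⁻ z in D, ENNReal.ofReal (NN Γ χ z) * F z := by
  rw [hD.lintegral_eq_tsum'', ← lintegral_tsum]
  · refine lintegral_congr fun z => ?_
    have e : ∀ γ : Γ, ENNReal.ofReal (χ (γ • z)) * F (γ • z) = ENNReal.ofReal (χ (γ • z)) * F z := by
      intro γ
      rw [show F (γ • z) = F z from hinv γ γ.2 z]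
    simp only [e]
    rw [ENNReal.tsum_mul_right, ← ENNReal.ofReal_tsum_of_nonneg (fun γ => h0 _)
      (NN_summable hD hχ z)]
    rfl
  · intro γ
    have hm : Measurable fun z => ENNReal.ofReal (χ z) * F z :=
      (ENNReal.measurable_ofReal.comp hc.measurable).mul hF
    exact (hm.comp (continuous_const_smul γ).measurable).aemeasurable

/-- the support of a function with compact support in the upper half plane is bounded -/
lemma bounded_of_tsupport {c : ℂ → ℝ} (hs : HasCompactSupport c)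
    (hcU : tsupport c ⊆ {w | 0 < w.im}) : ∃ R : ℝ, ∀ z : ℍ, c z ≠ 0 → dist z I ≤ R := by
  have hcomp : IsCompact (UpperHalfPlane.coe ⁻¹' tsupport c) := by
    rw [isOpenEmbedding_coe.isInducing.isCompact_preimage_iff]
    · exact hs
    · rw [range_coe]; exact hcU
  obtain ⟨R, hR⟩ := hcomp.isBounded.subset_closedBall I
  exact ⟨R, fun z hz => hR (show (z : ℂ) ∈ tsupport c from subset_tsupport c hz)⟩

lemma NN_nonneg {χ : ℍ → ℝ} (h0 : ∀ z, 0 ≤ χ z) (z : ℍ) : 0 ≤ NN Γ χ z :=
  tsum_nonneg fun _ => h0 _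

/-- one test function on the upper half plane computes the integrals over `D` of all measurable
invariant functions -/
lemma exists_test_gen [Countable Γ] (hD : IsFundamentalDomain Γ D (volume : Measure ℍ))
    (hK : ∃ K : Set ℍ, IsCompact K ∧ ∀ z, ∃ γ ∈ Γ, γ • z ∈ K) :
    ∃ ζ : ℂ → ℝ, Continuous ζ ∧ HasCompactSupport ζ ∧ tsupport ζ ⊆ {w | 0 < w.im} ∧
      (∀ w, 0 ≤ ζ w) ∧ ∀ F : ℍ → ℝ≥0∞, Measurable F → (∀ γ ∈ Γ, ∀ z, F (γ • z) = F z) →
        ∫⁻ w, ENNReal.ofReal (ζ w) * F (ofComplex w) = ∫⁻ z in D, F z := by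
  obtain ⟨K, hKc, hcov⟩ := hK
  obtain ⟨c, hc, hcs, hcU, hc0, hc1⟩ := exists_cut hKc
  set χ : ℍ → ℝ := fun z => c z with hχdef
  have hχc : Continuous χ := hc.comp continuous_coe
  have hχ0 : ∀ z, 0 ≤ χ z := fun z => hc0 _
  obtain ⟨R, hχ⟩ := bounded_of_tsupport hcs hcU
  have hpos : ∀ z, 0 < NN Γ χ z := by
    intro z
    obtain ⟨γ, hγ, hz⟩ := hcov z
    have h1 : χ ((⟨γ, hγ⟩ : Γ) • z) ≤ NN Γ χ z :=
      (NN_summable hD hχ z).le_tsum _ fun δ _ => hχ0 _
    have h2 : χ ((⟨γ, hγ⟩ : Γ) • z) = 1 := hc1 _ hz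
    linarith
  have hN := NN_continuous hD hχ hχc
  set G : ℍ → ℝ := fun z => 1 / z.im ^ 2 * (1 / NN Γ χ z) with hG
  have hGc : Continuous G := by
    refine (continuous_const.div (continuous_im.pow 2) fun z => (pow_pos z.im_pos 2).ne').mul ?_
    exact continuous_const.div hN fun z => (hpos z).ne'
  have hG0 : ∀ z, 0 ≤ G z := by
    intro z
    have h1 := z.im_pos
    have h2 := hpos z
    simp only [hG]
    positivity
  refine ⟨fun w => c w * G (ofComplex w), continuous_cut_mul hc hcU hGc, hcs.mul_right,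
    (closure_mono (Function.support_mul_subset_left _ _)).trans hcU,
    fun w => mul_nonneg (hc0 w) (hG0 _), ?_⟩
  intro F hF hinv
  have hU : IsOpen {w : ℂ | 0 < w.im} := isOpen_lt continuous_const Complex.continuous_im
  -- the quotient `χ / N` unfolds
  have hχN : Continuous fun z => χ z / NN Γ χ z := hχc.div hN fun z => (hpos z).ne'
  have hu := unfold_gen hD (χ := fun z => χ z / NN Γ χ z) (R := R) (fun z hz => hχ z (by
    intro h0; apply hz
    show χ z / NN Γ χ z = 0
    rw [show χ z = 0 from h0, zero_div])) hχN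
    (fun z => div_nonneg (hχ0 z) (hpos z).le) hF hinv
  have e0 : ∀ z, NN Γ (fun z => χ z / NN Γ χ z) z = 1 := by
    intro z
    have e1 : NN Γ (fun z => χ z / NN Γ χ z) z = ∑' γ : Γ, χ (γ • z) / NN Γ χ z := by
      refine tsum_congr fun γ => ?_
      show χ (γ • z) / NN Γ χ (γ • z) = χ (γ • z) / NN Γ χ z
      rw [NN_inv]
    rw [e1, tsum_div_const]
    exact div_self (hpos z).ne'
  have e1 : ∫⁻ z in D, ENNReal.ofReal (NN Γ (fun z => χ z / NN Γ χ z) z) * F z = ∫⁻ z in D, F z := by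
    refine lintegral_congr fun z => ?_
    rw [e0, ENNReal.ofReal_one, one_mul]
  rw [← e1, ← hu, lintegral_uhp]
  · rw [← lintegral_indicator hU.measurableSet]
    refine lintegral_congr fun w => ?_
    by_cases hw : 0 < w.im
    · rw [indicator_of_mem (show w ∈ {w : ℂ | 0 < w.im} from hw), ← mul_assoc,
        ← ENNReal.ofReal_mul (by positivity)]
      congr 2
      have e2 : ((ofComplex w : ℍ) : ℂ) = w := by rw [ofComplex_apply_of_im_pos hw]
      have e3 : (ofComplex w : ℍ).im = w.im := by rw [ofComplex_apply_of_im_pos hw]; rfl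
      simp only [hG, hχdef, e2, e3]
      ring
    · rw [indicator_of_notMem (show w ∉ {w : ℂ | 0 < w.im} from hw)]
      have : c w = 0 := by
        by_contra h
        exact hw (hcU (subset_tsupport c h))
      show ENNReal.ofReal (c w * G (ofComplex w)) * F (ofComplex w) = 0
      rw [this, zero_mul, ENNReal.ofReal_zero, zero_mul]
  · exact (ENNReal.measurable_ofReal.comp hχN.measurable).mul hF

/-- the same for real functions -/
lemma exists_test_real [Countable Γ] (hD : IsFundamentalDomain Γ D (volume : Measure ℍ))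
    (hK : ∃ K : Set ℍ, IsCompact K ∧ ∀ z, ∃ γ ∈ Γ, γ • z ∈ K) :
    ∃ ζ : ℂ → ℝ, Continuous ζ ∧ HasCompactSupport ζ ∧ tsupport ζ ⊆ {w | 0 < w.im} ∧
      (∀ w, 0 ≤ ζ w) ∧ ∀ f : ℍ → ℝ, Measurable f → (∀ z, 0 ≤ f z) →
        (∀ γ ∈ Γ, ∀ z, f (γ • z) = f z) →
        ∫ w, ζ w * f (ofComplex w) = ∫ z in D, f z := by
  obtain ⟨ζ, h1, h2, h3, h4, h5⟩ := exists_test_gen hD hK
  refine ⟨ζ, h1, h2, h3, h4, fun f hf hf0 hinv => ?_⟩
  have hoc : Measurable (ofComplex : ℂ → ℍ) := measurable_ofComplex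
  rw [integral_eq_lintegral_of_nonneg_ae
    (Eventually.of_forall fun w => mul_nonneg (h4 w) (hf0 _))
    (h1.measurable.mul (hf.comp hoc)).aestronglyMeasurable,
    integral_eq_lintegral_of_nonneg_ae (Eventually.of_forall fun z => hf0 z)
      hf.aestronglyMeasurable]
  congr 1
  rw [← h5 (fun z => ENNReal.ofReal (f z)) (ENNReal.measurable_ofReal.comp hf)
    (fun γ hγ z => by rw [hinv γ hγ z])]
  refine lintegral_congr fun w => ?_
  rw [ENNReal.ofReal_mul (h4 w)]

/-- integrals over compact sets of invariant functions -/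
lemma compact_le [Countable Γ] (hD : IsFundamentalDomain Γ D (volume : Measure ℍ))
    (hK : ∃ K : Set ℍ, IsCompact K ∧ ∀ z, ∃ γ ∈ Γ, γ • z ∈ K) {K : Set ℂ} (hKc : IsCompact K)
    (hKU : K ⊆ {w | 0 < w.im}) : ∃ M : ℝ, 0 ≤ M ∧ ∀ F : ℍ → ℝ≥0∞, Measurable F →
      (∀ γ ∈ Γ, ∀ z, F (γ • z) = F z) →
        ∫⁻ w in K, F (ofComplex w) ≤ ENNReal.ofReal M * ∫⁻ z in D, F z := by
  have hU : IsOpen {w : ℂ | 0 < w.im} := isOpen_lt continuous_const Complex.continuous_im
  have hK' : IsCompact (UpperHalfPlane.coe ⁻¹' K) := by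
    rw [isOpenEmbedding_coe.isInducing.isCompact_preimage_iff]
    · exact hKc
    · rw [range_coe]; exact hKU
  obtain ⟨c, hc, hcs, hcU, hc0, hc1⟩ := exists_cut hK'
  obtain ⟨R, hχ⟩ := bounded_of_tsupport hcs hcU
  set χ : ℍ → ℝ := fun z => c z * z.im ^ 2 with hχdef
  have hχc : Continuous χ := (hc.comp continuous_coe).mul (continuous_im.pow 2)
  have hχ0 : ∀ z, 0 ≤ χ z := fun z => mul_nonneg (hc0 _) (sq_nonneg _)
  have hχR : ∀ z, χ z ≠ 0 → dist z I ≤ R := fun z hz => hχ z (by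
    intro h0; apply hz; simp only [hχdef, h0, zero_mul])
  have hN := NN_continuous hD hχR hχc
  obtain ⟨M, hM⟩ := bdd_of_cocompact hN (fun γ hγ z => NN_inv (χ := χ) ⟨γ, hγ⟩ z) hK
  have hM0 : 0 ≤ M := (abs_nonneg _).trans (hM I)
  refine ⟨M, hM0, fun F hF hinv => ?_⟩
  have hoc : Measurable (ofComplex : ℂ → ℍ) := measurable_ofComplex
  calc ∫⁻ w in K, F (ofComplex w) ≤ ∫⁻ w : ℂ in {w | 0 < w.im},
        ENNReal.ofReal (1 / w.im ^ 2) * (ENNReal.ofReal (χ (ofComplex w)) * F (ofComplex w)) := by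
        rw [← lintegral_indicator hKc.measurableSet, ← lintegral_indicator hU.measurableSet]
        refine lintegral_mono fun w => ?_
        by_cases hw : w ∈ K
        · have hw' : 0 < w.im := hKU hw
          rw [indicator_of_mem hw, indicator_of_mem (show w ∈ {w : ℂ | 0 < w.im} from hw'),
            ← mul_assoc, ← ENNReal.ofReal_mul (by positivity)]
          have e2 : ((ofComplex w : ℍ) : ℂ) = w := by rw [ofComplex_apply_of_im_pos hw']
          have e3 : (ofComplex w : ℍ).im = w.im := by rw [ofComplex_apply_of_im_pos hw']; rfl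
          have e4 : c ((ofComplex w : ℍ) : ℂ) = 1 := hc1 _ (by
            show ((ofComplex w : ℍ) : ℂ) ∈ K
            rw [e2]; exact hw)
          have e5 : 1 / w.im ^ 2 * χ (ofComplex w) = 1 := by
            simp only [hχdef, e3, e4]
            field_simp
          rw [e5, ENNReal.ofReal_one, one_mul]
        · rw [indicator_of_notMem hw]; exact zero_le
    _ = ∫⁻ z : ℍ, ENNReal.ofReal (χ z) * F z := by
        rw [lintegral_uhp]
        exact (ENNReal.measurable_ofReal.comp hχc.measurable).mul hF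
    _ = ∫⁻ z in D, ENNReal.ofReal (NN Γ χ z) * F z := unfold_gen hD hχR hχc hχ0 hF hinv
    _ ≤ ∫⁻ z in D, ENNReal.ofReal M * F z := by
        refine lintegral_mono fun z => ?_
        gcongr
        exact (le_abs_self _).trans (hM z)
    _ = ENNReal.ofReal M * ∫⁻ z in D, F z := lintegral_const_mul _ hF

/-- continuous invariant functions are integrable over the fundamental domain -/
lemma integrableOn_of_invariant [Countable Γ] (hD : IsFundamentalDomain Γ D (volume : Measure ℍ))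
    (hK : ∃ K : Set ℍ, IsCompact K ∧ ∀ z, ∃ γ ∈ Γ, γ • z ∈ K) {f : ℍ → ℝ} (hf : Continuous f)
    (hinv : ∀ γ ∈ Γ, ∀ z, f (γ • z) = f z) : IntegrableOn f D (volume : Measure ℍ) := by
  obtain ⟨C, hC⟩ := bdd_of_cocompact hf hinv hK
  have hfin : (volume : Measure ℍ) D < ⊤ := (finite_of_cocompact hD hK).lt_top
  exact Measure.integrableOn_of_bounded hfin.ne hf.aestronglyMeasurable
    (Eventually.of_forall fun z => by rw [Real.norm_eq_abs]; exact hC z)

lemma surfAvg_eq (f : ℍ → ℝ) : surfAvg D f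
    = ((volume : Measure ℍ) D).toReal⁻¹ * ∫ z in D, f z := by
  unfold surfAvg ProbabilityTheory.cond
  rw [integral_smul_measure, smul_eq_mul, ENNReal.toReal_inv]

lemma vol_pos [Countable Γ] (hD : IsFundamentalDomain Γ D (volume : Measure ℍ))
    (hK : ∃ K : Set ℍ, IsCompact K ∧ ∀ z, ∃ γ ∈ Γ, γ • z ∈ K) :
    0 < ((volume : Measure ℍ) D).toReal :=
  ENNReal.toReal_pos (volume_ne_zero hD) (finite_of_cocompact hD hK)

/-- boundedness on compact sets, from bounded averages -/
lemma bdd_of_avg [Countable Γ] (hD : IsFundamentalDomain Γ D (volume : Measure ℍ))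
    (hK : ∃ K : Set ℍ, IsCompact K ∧ ∀ z, ∃ γ ∈ Γ, γ • z ∈ K) {K : Set ℂ} (hKc : IsCompact K)
    (hKU : K ⊆ {w | 0 < w.im}) : ∃ M : ℝ, 0 ≤ M ∧ ∀ f : ℍ → ℝ, Continuous f → (∀ z, 0 ≤ f z) →
      (∀ γ ∈ Γ, ∀ z, f (γ • z) = f z) → ∫ w in K, f (ofComplex w) ≤ M * surfAvg D f := by
  obtain ⟨M, hM0, hM⟩ := compact_le hD hK hKc hKU
  have hv := vol_pos hD hK
  refine ⟨M * ((volume : Measure ℍ) D).toReal, by positivity, fun f hf hf0 hinv => ?_⟩
  have h1 := hM (fun z => ENNReal.ofReal (f z)) (ENNReal.measurable_ofReal.comp hf.measurable)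
    (fun γ hγ z => by rw [hinv γ hγ z])
  have hi := integrableOn_of_invariant hD hK hf hinv
  have e1 : ∫⁻ z in D, ENNReal.ofReal (f z) = ENNReal.ofReal (∫ z in D, f z) :=
    (ofReal_integral_eq_lintegral_ofReal hi (Eventually.of_forall hf0)).symm
  rw [e1, ← ENNReal.ofReal_mul hM0] at h1
  have h0 : 0 ≤ ∫ z in D, f z := integral_nonneg hf0
  rw [surfAvg_eq, integral_eq_lintegral_of_nonneg_ae (Eventually.of_forall fun w => hf0 _)
    ((hf.measurable.comp measurable_ofComplex).aestronglyMeasurable)]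
  refine le_trans (ENNReal.toReal_mono ENNReal.ofReal_ne_top h1) (le_of_eq ?_)
  rw [ENNReal.toReal_ofReal (by positivity)]
  field_simp

end Surf

variable {Γ : Subgroup SL(2, ℝ)} {D : Set ℍ} {φ : ℕ → ℍ → ℝ} {m : ℕ → ℝ}

/-- fourth powers of the functions -/
theorem bdd4_of_avg [Countable Γ] (hD : IsFundamentalDomain Γ D (volume : Measure ℍ))
    (hK : ∃ K : Set ℍ, IsCompact K ∧ ∀ z, ∃ γ ∈ Γ, γ • z ∈ K)
    (hc : ∀ n, Continuous (φ n)) (hinv : ∀ n, ∀ γ ∈ Γ, ∀ z, φ n (γ • z) = φ n z) {C : ℝ}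
    (hC : ∀ n, surfAvg D (fun z => φ n z ^ 4) ≤ C) :
    LBdd 4 UH (fun n z => (φ n (ofComplex z) : ℂ)) := by
  intro K hKc hKU
  obtain ⟨M, hM0, hM⟩ := Surf.bdd_of_avg hD hK hKc hKU
  refine ⟨M * C, Eventually.of_forall fun n => ?_⟩
  have h1 := hM (fun z => φ n z ^ 4) ((hc n).pow 4) (fun z => by positivity)
    (fun γ hγ z => by simp only [hinv n γ hγ z])
  have e : ∀ w : ℂ, ‖((φ n (ofComplex w) : ℝ) : ℂ)‖ ^ 4 = φ n (ofComplex w) ^ 4 := by
    intro w
    rw [Complex.norm_real, Real.norm_eq_abs]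
    exact Even.pow_abs (by decide) _
  simp only [e]
  exact h1.trans (mul_le_mul_of_nonneg_left (hC n) hM0)

theorem contDiffOn_gH : ContDiffOn ℝ ∞ gH UH := by
  have e : gH = fun z => (((aH z)⁻¹) ^ 2) := by
    funext z
    show 1 / ((z.im : ℝ) : ℂ) ^ 2 = (((z.im : ℝ) : ℂ)⁻¹) ^ 2
    rw [one_div, inv_pow]
  rw [e]
  have h1 : ContDiff ℝ ∞ aH := (Complex.ofRealCLM.comp Complex.imCLM).contDiff
  refine (h1.contDiffOn.inv fun z hz => ?_).pow 2
  have : (0 : ℝ) < z.im := hz
  show ((z.im : ℝ) : ℂ) ≠ 0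
  exact_mod_cast this.ne'

/-- the local hypotheses for a sequence of eigenfunctions which is bounded in `L⁴` -/
theorem setup_of_eigen (hφ : Berry.EigenSeq Γ φ m)
    (hs : ∀ n, ContDiffOn ℝ ∞ (fun w : ℂ => φ n (ofComplex w)) {w | 0 < w.im})
    (hm : ∀ n, 1 ≤ m n) (hb : LBdd 4 UH (fun n z => (φ n (ofComplex z) : ℂ))) :
    Setup UH gH aH (fun n => 1 / m n) (fun n z => (φ n (ofComplex z) : ℂ)) := by
  have hU : IsOpen UH := isOpen_UH
  have hsm : SmoothSeq UH (fun n z => (φ n (ofComplex z) : ℂ)) := fun n =>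
    Complex.ofRealCLM.contDiff.comp_contDiffOn (hs n)
  have hpos : ∀ n, 0 < 1 / m n := fun n => by
    have := hm n
    positivity
  have hlim : Tendsto (fun n => 1 / m n) atTop (𝓝 0) := by
    simpa [one_div, Function.comp_def] using tendsto_inv_atTop_zero.comp hφ.tendsto
  have haC : ContDiff ℝ ∞ aH := (Complex.ofRealCLM.comp Complex.imCLM).contDiff
  have heig : ∀ n, ∀ z ∈ UH, 4 * (((1 / m n : ℝ)) : ℂ) ^ 2
      * dz (dzb (fun z => (φ n (ofComplex z) : ℂ))) z = - gH z * (φ n (ofComplex z) : ℂ) := by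
    intro n z hz
    have hz' : 0 < z.im := hz
    have hm0 : m n ≠ 0 := by have := hm n; linarith
    have hcd : ContDiffAt ℝ 2 (fun w : ℂ => φ n (ofComplex w)) z :=
      (hφ.smooth _).contDiffAt (hU.mem_nhds hz)
    have h4 := four_dz_dzb hcd
    have he := hφ.eigen n ⟨z, hz'⟩
    have hoc : ofComplex z = ⟨z, hz'⟩ := ofComplex_apply_of_im_pos hz'
    have hre : (z.im : ℝ) ^ 2 * (Laplacian.laplacian (fun w : ℂ => φ n (ofComplex w)) z)
        = - (m n ^ 2 * φ n (ofComplex z)) := by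
      rw [hoc]; exact he
    have hrc : ((z.im : ℝ) : ℂ) ^ 2 * ((Laplacian.laplacian (fun w : ℂ =>
        φ n (ofComplex w)) z : ℝ) : ℂ) = - ((m n : ℂ) ^ 2 * (φ n (ofComplex z) : ℂ)) := by
      exact_mod_cast congrArg (fun x : ℝ => (x : ℂ)) hre
    rw [← h4] at hrc
    have him : ((z.im : ℝ) : ℂ) ≠ 0 := by exact_mod_cast hz'.ne'
    have hmc : (m n : ℂ) ≠ 0 := by exact_mod_cast hm0
    unfold gH
    push_cast
    field_simp
    linear_combination hrc
  refine ⟨hU, hpos, hlim, haC.contDiffOn, contDiffOn_gH, fun z _ => Complex.conj_ofReal _, ?_, ?_,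
    fun n z _ => Complex.conj_ofReal _, heig⟩
  · intro z hz
    have hz' : 0 < z.im := hz
    have him : ((z.im : ℝ) : ℂ) ≠ 0 := by exact_mod_cast hz'.ne'
    show ((z.im : ℝ) : ℂ) ^ 2 * (1 / ((z.im : ℝ) : ℂ) ^ 2) = 1
    field_simp
  · refine tame_of_eigen hU hlim (ellProp hU hpos hlim) hsm hb
      (b := fun z => -(1 / 4) * gH z) (contDiffOn_const.mul contDiffOn_gH) fun n z hz => ?_
    have := heig n z hz
    unfold hLap
    linear_combination (1 / 4) * this

end

end QE
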