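import Pool.Agent.Lib_helper67.QE.LimPos
import Pool.Agent.Lib_helper67.QE.TestLim
import Pool.Agent.Lib_helper67.QE.DirG

/-!
The transport equation (invariance under the geodesic flow) for the weak limits of the products of two
jets, on the hyperbolic plane.
-/

open MeasureTheory Filter Topology
open scoped ContDiff

namespace QE

noncomputable section



theorem fderiv_im (z v : ℂ) : fderiv ℝ aH z v = (v.im : ℂ) := by
  have h : aH = fun z => Complex.ofRealCLM (Complex.imCLM z) := by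
    funext z; rfl
  have h2 : HasFDerivAt aH (Complex.ofRealCLM.comp Complex.imCLM) z := by
    rw [h]
    exact (Complex.ofRealCLM.comp Complex.imCLM).hasFDerivAt
  rw [h2.fderiv]
  rfl

theorem dz_aH (z : ℂ) : dz aH z = -(Complex.I / 2) := by
  unfold dz
  rw [fderiv_im, fderiv_im]
  simp
  ring

theorem dzb_aH (z : ℂ) : dzb aH z = Complex.I / 2 := by
  unfold dzb
  rw [fderiv_im, fderiv_im]
  simp
  ring

theorem contDiff_aH : ContDiff ℝ ∞ aH :=
  (Complex.ofRealCLM.comp Complex.imCLM).contDiff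

variable {h : ℕ → ℝ} {φ : ℕ → ℂ → ℂ}

/-- `f = g + h p + h² (tame)` -/
def Near2 (U : Set ℂ) (h : ℕ → ℝ) (u v p : ℕ → ℂ → ℂ) : Prop :=
  ∃ w, Tame U h w ∧ ∀ n, ∀ z ∈ U, u n z = v n z + (h n : ℂ) * p n z + (h n : ℂ) ^ 2 * w n z

namespace Setup

variable (S : Setup UH gH aH h φ)

/-- the commutator of the two operators -/
theorem comm_exact {u : ℕ → ℂ → ℂ} (hu : SmoothSeq UH u) (n : ℕ) (z : ℂ) (hz : z ∈ UH) :
    LLb h aH (LL h aH u) n z = LL h aH (LLb h aH u) n z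
      + (h n : ℂ) * (LL h aH u n z + LLb h aH u n z) := by
  have hda : DifferentiableAt ℝ aH z := contDiff_aH.differentiable (by simp) z
  have s1 : DifferentiableAt ℝ (dz (u n)) z := (SmoothSeq.dz isOpen_UH hu).dAt isOpen_UH n hz
  have s2 : DifferentiableAt ℝ (dzb (u n)) z := (SmoothSeq.dzb isOpen_UH hu).dAt isOpen_UH n hz
  have hI : Complex.I ^ 2 = -1 := Complex.I_sq
  have e1 : dzb (LL h aH u n) z
      = -(2 * Complex.I * h n) * (dzb aH z * dz (u n) z + aH z * dzb (dz (u n)) z) := by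
    unfold LL
    have : (fun z => -(2 * Complex.I * (h n : ℂ)) * aH z * dz (u n) z)
        = fun z => -(2 * Complex.I * (h n : ℂ)) * (aH z * dz (u n) z) := by funext w; ring
    rw [this, dzb_const_mul _ (hda.fun_mul s1), dzb_mul hda s1]
  have e2 : dz (LLb h aH u n) z
      = -(2 * Complex.I * h n) * (dz aH z * dzb (u n) z + aH z * dz (dzb (u n)) z) := by
    unfold LLb
    have : (fun z => -(2 * Complex.I * (h n : ℂ)) * aH z * dzb (u n) z)
        = fun z => -(2 * Complex.I * (h n : ℂ)) * (aH z * dzb (u n) z) := by funext w; ring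
    rw [this, dz_const_mul _ (hda.fun_mul s2), dz_mul hda s2]
  have e3 : LLb h aH (LL h aH u) n z = -(2 * Complex.I * h n) * aH z * dzb (LL h aH u n) z := rfl
  have e4 : LL h aH (LLb h aH u) n z = -(2 * Complex.I * h n) * aH z * dz (LLb h aH u n) z := rfl
  have e5 : LL h aH u n z = -(2 * Complex.I * h n) * aH z * dz (u n) z := rfl
  have e6 : LLb h aH u n z = -(2 * Complex.I * h n) * aH z * dzb (u n) z := rfl
  rw [e3, e4, e1, e2, e5, e6, dz_aH, dzb_aH, dz_dzb_comm (((hu n).contDiffAt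
    (isOpen_UH.mem_nhds hz)).of_le (WithTop.coe_le_coe.2 le_top))]
  linear_combination (2 * (h n : ℂ) ^ 2 * aH z * Complex.I * (dz (u n) z + dzb (u n) z)) * hI

include S

/-- `L̄ E_1 = φ + h E_1` -/
theorem LLb_one_exact (n : ℕ) (z : ℂ) (hz : z ∈ UH) :
    LLb h aH (jet h aH φ 1) n z = jet h aH φ 0 n z + (h n : ℂ) * jet h aH φ 1 n z := by
  have hda : DifferentiableAt ℝ aH z := contDiff_aH.differentiable (by simp) z
  have s1 : DifferentiableAt ℝ (dz (φ n)) z :=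
    (SmoothSeq.dz isOpen_UH S.tame.smooth).dAt isOpen_UH n hz
  have e1 : dzb (LL h aH φ n) z
      = -(2 * Complex.I * h n) * (dzb aH z * dz (φ n) z + aH z * dzb (dz (φ n)) z) := by
    unfold LL
    have : (fun z => -(2 * Complex.I * (h n : ℂ)) * aH z * dz (φ n) z)
        = fun z => -(2 * Complex.I * (h n : ℂ)) * (aH z * dz (φ n) z) := by funext w; ring
    rw [this, dzb_const_mul _ (hda.fun_mul s1), dzb_mul hda s1]
  have e3 : LLb h aH (jet h aH φ 1) n z
      = -(2 * Complex.I * h n) * aH z * dzb (LL h aH φ n) z := rfl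
  have e5 : jet h aH φ 1 n z = -(2 * Complex.I * h n) * aH z * dz (φ n) z := rfl
  have e6 : jet h aH φ 0 n z = φ n z := rfl
  have hI : Complex.I ^ 2 = -1 := Complex.I_sq
  have hc : dz (dzb (φ n)) z = dzb (dz (φ n)) z := dz_dzb_comm (((S.tame.smooth n).contDiffAt
    (isOpen_UH.mem_nhds hz)).of_le (WithTop.coe_le_coe.2 le_top))
  have hag := S.ag z hz
  have heig := S.eig n z hz
  rw [hc] at heig
  rw [e3, e1, e5, e6, dzb_aH]
  linear_combination (4 * (h n : ℂ) ^ 2 * aH z ^ 2 * dzb (dz (φ n)) z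
    + 2 * (h n : ℂ) ^ 2 * aH z * Complex.I * dz (φ n) z) * hI - aH z ^ 2 * heig + φ n z * hag

/-- the second order expansion of `L̄ E_{m+1}` -/
theorem LLb_exp (m : ℕ) : Near2 UH h (LLb h aH (jet h aH φ (m + 1))) (jet h aH φ m)
    (fun n z => ((m : ℂ) + 1) * jet h aH φ (m + 1) n z + (m : ℂ) * jet h aH φ (m - 1) n z) := by
  induction m with
  | zero =>
    refine ⟨_, Tame.zero isOpen_UH, fun n z hz => ?_⟩
    rw [S.LLb_one_exact n z hz]
    simp
  | succ m ih =>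
    obtain ⟨w, hw, hw'⟩ := ih
    have t1 := (hw.LL isOpen_UH S.hlim S.ha)
    -- the error of `L̄ e_{m+1}` in the second term
    have t2 := ((S.tame_jet (m + 1)).smul isOpen_UH ((m : ℂ) + 1)).add isOpen_UH
      ((S.tame_jet (m - 1)).smul isOpen_UH (m : ℂ))
    have hbdh : ∀ᶠ n in atTop, ‖((h n : ℝ) : ℂ)‖ ≤ 1 := hbd S.hlim
    have t3 := hw.const_mul isOpen_UH hbdh
    refine ⟨_, (t1.add isOpen_UH t2).add isOpen_UH t3, fun n z hz => ?_⟩
    have s0 : SmoothSeq UH (jet h aH φ (m + 1)) := (S.tame_jet (m + 1)).smooth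
    have e0 := comm_exact (h := h) s0 n z hz
    have e1 : jet h aH φ (m + 1 + 1) = LL h aH (jet h aH φ (m + 1)) := rfl
    have d1 : DifferentiableAt ℝ (jet h aH φ m n) z := (S.tame_jet m).smooth.dAt isOpen_UH n hz
    have d2 : DifferentiableAt ℝ (jet h aH φ (m + 1) n) z := s0.dAt isOpen_UH n hz
    have d3 : DifferentiableAt ℝ (jet h aH φ (m - 1) n) z :=
      (S.tame_jet (m - 1)).smooth.dAt isOpen_UH n hz
    have d4 : DifferentiableAt ℝ (w n) z := hw.smooth.dAt isOpen_UH n hz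
    have e2 : dz (LLb h aH (jet h aH φ (m + 1)) n) z = dz (jet h aH φ m n) z
        + (h n : ℂ) * (((m : ℂ) + 1) * dz (jet h aH φ (m + 1) n) z
          + (m : ℂ) * dz (jet h aH φ (m - 1) n) z) + (h n : ℂ) ^ 2 * dz (w n) z := by
      rw [dz_congr_on isOpen_UH (hw' n) hz]
      rw [dz_add (d1.fun_add (((d2.const_mul _).fun_add (d3.const_mul _)).const_mul _))
        (d4.const_mul _), dz_add d1 (((d2.const_mul _).fun_add (d3.const_mul _)).const_mul _),
        dz_const_mul _ ((d2.const_mul _).fun_add (d3.const_mul _)), dz_const_mul _ d4,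
        dz_add (d2.const_mul _) (d3.const_mul _), dz_const_mul _ d2, dz_const_mul _ d3]
    have e3 : LL h aH (LLb h aH (jet h aH φ (m + 1))) n z
        = -(2 * Complex.I * h n) * aH z * dz (LLb h aH (jet h aH φ (m + 1)) n) z := rfl
    have e4 : ∀ k, jet h aH φ (k + 1) n z
        = -(2 * Complex.I * h n) * aH z * dz (jet h aH φ k n) z := fun k => rfl
    have e5 : LL h aH w n z = -(2 * Complex.I * h n) * aH z * dz (w n) z := rfl
    have e6 : (m : ℂ) * (-(2 * Complex.I * h n) * aH z * dz (jet h aH φ (m - 1) n) z)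
        = (m : ℂ) * jet h aH φ m n z := by
      rcases Nat.eq_zero_or_pos m with h0 | h0
      · rw [h0]; simp
      · obtain ⟨k, rfl⟩ : ∃ k, m = k + 1 := ⟨m - 1, by omega⟩
        rw [Nat.add_sub_cancel, e4 k]
    have e7 := hw' n z hz
    have e8 : (m + 1 - 1 : ℕ) = m := by omega
    rw [e1, e0, e3, e2, e8]
    have e9 := e4 m
    have e10 := e4 (m + 1)
    have e11 : LL h aH (jet h aH φ (m + 1)) n z = jet h aH φ (m + 1 + 1) n z := rfl
    rw [e5]
    push_cast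
    linear_combination (-1 : ℂ) * e9 - (h n : ℂ) * ((m : ℂ) + 1) * e10 + (h n : ℂ) * e6
      + (h n : ℂ) * e7 - (h n : ℂ) * ((m : ℂ) + 1) * e11

/-- the derivative of a product of two jets, exactly -/
theorem LL_prod_exact (j m : ℕ) (n : ℕ) (z : ℂ) (hz : z ∈ UH) :
    -(2 * Complex.I * h n) * aH z * dz (fun z => jet h aH φ j n z * jet h aH φ m n z) z
      = jet h aH φ (j + 1) n z * jet h aH φ m n z + jet h aH φ j n z * jet h aH φ (m + 1) n z := by
  have d1 : DifferentiableAt ℝ (jet h aH φ j n) z := (S.tame_jet j).smooth.dAt isOpen_UH n hz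
  have d2 : DifferentiableAt ℝ (jet h aH φ m n) z := (S.tame_jet m).smooth.dAt isOpen_UH n hz
  have e4 : ∀ k, jet h aH φ (k + 1) n z
      = -(2 * Complex.I * h n) * aH z * dz (jet h aH φ k n) z := fun k => rfl
  rw [dz_mul d1 d2, e4 j, e4 m]
  ring

theorem LLb_prod_exact (j m : ℕ) (n : ℕ) (z : ℂ) (hz : z ∈ UH) :
    -(2 * Complex.I * h n) * aH z * dzb (fun z => jet h aH φ j n z * jet h aH φ m n z) z
      = LLb h aH (jet h aH φ j) n z * jet h aH φ m n z
        + jet h aH φ j n z * LLb h aH (jet h aH φ m) n z := by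
  have d1 : DifferentiableAt ℝ (jet h aH φ j n) z := (S.tame_jet j).smooth.dAt isOpen_UH n hz
  have d2 : DifferentiableAt ℝ (jet h aH φ m n) z := (S.tame_jet m).smooth.dAt isOpen_UH n hz
  have e4 : ∀ k, LLb h aH (jet h aH φ k) n z
      = -(2 * Complex.I * h n) * aH z * dzb (jet h aH φ k n) z := fun k => rfl
  rw [dzb_mul d1 d2, e4 j, e4 m]
  ring

end Setup

theorem contDiffOn_inv_aH : ContDiffOn ℝ ∞ (fun z => (aH z)⁻¹) UH := by
  refine contDiff_aH.contDiffOn.inv fun z hz => ?_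
  have : (0 : ℝ) < z.im := hz
  show ((z.im : ℝ) : ℂ) ≠ 0
  exact_mod_cast this.ne'

theorem aH_ne {z : ℂ} (hz : z ∈ UH) : aH z ≠ 0 := by
  have : (0 : ℝ) < z.im := hz
  show ((z.im : ℝ) : ℂ) ≠ 0
  exact_mod_cast this.ne'

/-- the derivatives of `ζ / y` -/
theorem dz_div_aH {ζ : ℂ → ℂ} (hζ : Test UH ζ) {z : ℂ} (hz : z ∈ UH) :
    dz (fun z => ζ z * (aH z)⁻¹) z
      = dz ζ z * (aH z)⁻¹ + Complex.I / 2 * (ζ z * ((aH z)⁻¹) ^ 2) := by
  have hζ1 : Test UH (fun z => ζ z * (aH z)⁻¹) := hζ.mul isOpen_UH contDiffOn_inv_aH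
  have hd := hζ1.smooth.differentiable (by simp) z
  have h2 : dz ζ z = dz (fun z => (ζ z * (aH z)⁻¹) * aH z) z := by
    refine dz_congr_on isOpen_UH (fun w hw => ?_) hz
    rw [mul_assoc, inv_mul_cancel₀ (aH_ne hw), mul_one]
  have h3 : dz (fun z => (ζ z * (aH z)⁻¹) * aH z) z
      = dz (fun z => ζ z * (aH z)⁻¹) z * aH z + (ζ z * (aH z)⁻¹) * dz aH z :=
    dz_mul hd (contDiff_aH.differentiable (by simp) z)
  rw [h3, dz_aH] at h2
  have ha := aH_ne hz
  rw [h2]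
  field_simp
  ring

theorem dzb_div_aH {ζ : ℂ → ℂ} (hζ : Test UH ζ) {z : ℂ} (hz : z ∈ UH) :
    dzb (fun z => ζ z * (aH z)⁻¹) z
      = dzb ζ z * (aH z)⁻¹ - Complex.I / 2 * (ζ z * ((aH z)⁻¹) ^ 2) := by
  have hζ1 : Test UH (fun z => ζ z * (aH z)⁻¹) := hζ.mul isOpen_UH contDiffOn_inv_aH
  have hd := hζ1.smooth.differentiable (by simp) z
  have h2 : dzb ζ z = dzb (fun z => (ζ z * (aH z)⁻¹) * aH z) z := by
    refine dzb_congr_on isOpen_UH (fun w hw => ?_) hz
    rw [mul_assoc, inv_mul_cancel₀ (aH_ne hw), mul_one]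
  have h3 : dzb (fun z => (ζ z * (aH z)⁻¹) * aH z) z
      = dzb (fun z => ζ z * (aH z)⁻¹) z * aH z + (ζ z * (aH z)⁻¹) * dzb aH z :=
    dzb_mul hd (contDiff_aH.differentiable (by simp) z)
  rw [h3, dzb_aH] at h2
  have ha := aH_ne hz
  rw [h2]
  field_simp
  ring

namespace Setup

variable (S : Setup UH gH aH h φ)

include S

/-- the integrated identity behind the transport equation -/
theorem transport_id (m : ℕ) : ∃ w, Tame UH h w ∧ ∀ n, ∀ ζ, Test UH ζ →
    2 * Complex.I * (∫ z, dz (fun z => ζ z * (aH z)⁻¹) z * (jet h aH φ 0 n z * jet h aH φ m n z))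
      - 2 * Complex.I * (∫ z, dzb (fun z => ζ z * (aH z)⁻¹) z
          * (jet h aH φ 1 n z * jet h aH φ (m + 1) n z))
      = -((m : ℂ) + 2) * (∫ z, (ζ z * ((aH z)⁻¹) ^ 2) * (jet h aH φ 1 n z * jet h aH φ (m + 1) n z))
        - (m : ℂ) * (∫ z, (ζ z * ((aH z)⁻¹) ^ 2) * (jet h aH φ 1 n z * jet h aH φ (m - 1) n z))
        - (h n : ℂ) * (∫ z, (ζ z * ((aH z)⁻¹) ^ 2) * (jet h aH φ 1 n z * w n z)) := by
  obtain ⟨w, hw, hw'⟩ := S.LLb_exp m
  refine ⟨w, hw, fun n ζ hζ => ?_⟩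
  have hζ1 : Test UH (fun z => ζ z * (aH z)⁻¹) := hζ.mul isOpen_UH contDiffOn_inv_aH
  have hζ2 : Test UH (fun z => ζ z * ((aH z)⁻¹) ^ 2) :=
    hζ.mul isOpen_UH (contDiffOn_inv_aH.pow 2)
  have sA : ContDiffOn ℝ ∞ (fun z => jet h aH φ 0 n z * jet h aH φ m n z) UH :=
    ((S.tame_jet 0).smooth n).mul ((S.tame_jet m).smooth n)
  have sB : ContDiffOn ℝ ∞ (fun z => jet h aH φ 1 n z * jet h aH φ (m + 1) n z) UH :=
    ((S.tame_jet 1).smooth n).mul ((S.tame_jet (m + 1)).smooth n)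
  have sD : ContDiffOn ℝ ∞ (fun z => jet h aH φ 1 n z * jet h aH φ (m - 1) n z) UH :=
    ((S.tame_jet 1).smooth n).mul ((S.tame_jet (m - 1)).smooth n)
  have sE : ContDiffOn ℝ ∞ (fun z => jet h aH φ 1 n z * w n z) UH :=
    ((S.tame_jet 1).smooth n).mul (hw.smooth n)
  have i1 := integral_mul_dz isOpen_UH hζ1 sA
  have i2 := integral_mul_dzb isOpen_UH hζ1 sB
  have g1 := hζ2.int isOpen_UH sB
  have g2 := hζ2.int isOpen_UH sD
  have g3 := hζ2.int isOpen_UH sE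
  have g4 := hζ1.int isOpen_UH (contDiffOn_dz isOpen_UH sA)
  have g5 := hζ1.int isOpen_UH (contDiffOn_dzb isOpen_UH sB)
  have hn : (h n : ℂ) ≠ 0 := by exact_mod_cast (S.hpos n).ne'
  -- pointwise identity
  have pw : ∀ z, -(2 * Complex.I) * ((ζ z * (aH z)⁻¹)
        * dz (fun z => jet h aH φ 0 n z * jet h aH φ m n z) z)
      + 2 * Complex.I * ((ζ z * (aH z)⁻¹)
        * dzb (fun z => jet h aH φ 1 n z * jet h aH φ (m + 1) n z) z)
      = -((m : ℂ) + 2) * ((ζ z * ((aH z)⁻¹) ^ 2) * (jet h aH φ 1 n z * jet h aH φ (m + 1) n z))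
        + -(m : ℂ) * ((ζ z * ((aH z)⁻¹) ^ 2) * (jet h aH φ 1 n z * jet h aH φ (m - 1) n z))
        + -(h n : ℂ) * ((ζ z * ((aH z)⁻¹) ^ 2) * (jet h aH φ 1 n z * w n z)) := by
    intro z
    by_cases hz : z ∈ UH
    · have p1 := S.LL_prod_exact 0 m n z hz
      have p2 := S.LLb_prod_exact 1 (m + 1) n z hz
      rw [S.LLb_one_exact n z hz, hw' n z hz] at p2
      have ha := aH_ne hz
      set A' := dz (fun z => jet h aH φ 0 n z * jet h aH φ m n z) z
      set B' := dzb (fun z => jet h aH φ 1 n z * jet h aH φ (m + 1) n z) z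
      have q1 : -(2 * Complex.I) * A' = (jet h aH φ (0 + 1) n z * jet h aH φ m n z
          + jet h aH φ 0 n z * jet h aH φ (m + 1) n z) * ((h n : ℂ)⁻¹ * (aH z)⁻¹) := by
        rw [← p1]; field_simp
      have q2 : 2 * Complex.I * B' = -(((jet h aH φ 0 n z + (h n : ℂ) * jet h aH φ 1 n z)
          * jet h aH φ (m + 1) n z + jet h aH φ 1 n z * (jet h aH φ m n z + (h n : ℂ)
            * (((m : ℂ) + 1) * jet h aH φ (m + 1) n z + (m : ℂ) * jet h aH φ (m - 1) n z)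
            + (h n : ℂ) ^ 2 * w n z)) * ((h n : ℂ)⁻¹ * (aH z)⁻¹)) := by
        rw [← p2]; field_simp
      have e : -(2 * Complex.I) * ((ζ z * (aH z)⁻¹) * A')
          + 2 * Complex.I * ((ζ z * (aH z)⁻¹) * B')
          = (ζ z * (aH z)⁻¹) * (-(2 * Complex.I) * A' + 2 * Complex.I * B') := by ring
      rw [e, q1, q2]
      field_simp
      ring
    · have h0 := (hζ.zero_of_notMem hz).1
      rw [h0]; ring
  have t1 : ∫ z, (-(2 * Complex.I) * ((ζ z * (aH z)⁻¹)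
        * dz (fun z => jet h aH φ 0 n z * jet h aH φ m n z) z)
      + 2 * Complex.I * ((ζ z * (aH z)⁻¹)
        * dzb (fun z => jet h aH φ 1 n z * jet h aH φ (m + 1) n z) z))
      = ∫ z, (-((m : ℂ) + 2) * ((ζ z * ((aH z)⁻¹) ^ 2)
            * (jet h aH φ 1 n z * jet h aH φ (m + 1) n z))
        + -(m : ℂ) * ((ζ z * ((aH z)⁻¹) ^ 2) * (jet h aH φ 1 n z * jet h aH φ (m - 1) n z))
        + -(h n : ℂ) * ((ζ z * ((aH z)⁻¹) ^ 2) * (jet h aH φ 1 n z * w n z))) :=
    integral_congr_ae (Filter.Eventually.of_forall pw)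
  have t2 : ∫ z, (-(2 * Complex.I) * ((ζ z * (aH z)⁻¹)
        * dz (fun z => jet h aH φ 0 n z * jet h aH φ m n z) z)
      + 2 * Complex.I * ((ζ z * (aH z)⁻¹)
        * dzb (fun z => jet h aH φ 1 n z * jet h aH φ (m + 1) n z) z))
      = -(2 * Complex.I) * (∫ z, (ζ z * (aH z)⁻¹)
        * dz (fun z => jet h aH φ 0 n z * jet h aH φ m n z) z)
      + 2 * Complex.I * (∫ z, (ζ z * (aH z)⁻¹)
        * dzb (fun z => jet h aH φ 1 n z * jet h aH φ (m + 1) n z) z) := by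
    rw [integral_add (g4.const_mul _) (g5.const_mul _), integral_const_mul, integral_const_mul]
  have t3 : ∫ z, (-((m : ℂ) + 2) * ((ζ z * ((aH z)⁻¹) ^ 2)
            * (jet h aH φ 1 n z * jet h aH φ (m + 1) n z))
        + -(m : ℂ) * ((ζ z * ((aH z)⁻¹) ^ 2) * (jet h aH φ 1 n z * jet h aH φ (m - 1) n z))
        + -(h n : ℂ) * ((ζ z * ((aH z)⁻¹) ^ 2) * (jet h aH φ 1 n z * w n z)))
      = -((m : ℂ) + 2) * (∫ z, (ζ z * ((aH z)⁻¹) ^ 2)
            * (jet h aH φ 1 n z * jet h aH φ (m + 1) n z))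
        + -(m : ℂ) * (∫ z, (ζ z * ((aH z)⁻¹) ^ 2) * (jet h aH φ 1 n z * jet h aH φ (m - 1) n z))
        + -(h n : ℂ) * (∫ z, (ζ z * ((aH z)⁻¹) ^ 2) * (jet h aH φ 1 n z * w n z)) := by
    have g12 : Integrable (fun z => -((m : ℂ) + 2) * ((ζ z * ((aH z)⁻¹) ^ 2)
            * (jet h aH φ 1 n z * jet h aH φ (m + 1) n z))
        + -(m : ℂ) * ((ζ z * ((aH z)⁻¹) ^ 2) * (jet h aH φ 1 n z * jet h aH φ (m - 1) n z))) :=
      (g1.const_mul _).add (g2.const_mul _)
    rw [integral_add g12 (g3.const_mul _),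
      integral_add (g1.const_mul _) (g2.const_mul _), integral_const_mul, integral_const_mul,
      integral_const_mul]
  rw [t2, t3] at t1
  rw [i1, i2] at t1
  linear_combination t1

variable {u : ℤ → ℂ → ℂ} (hl : ∀ k, LocL2 UH (u k)) (hw : JLim UH h aH φ u)

include hl hw

/-- the transport equation for positive `k` -/
theorem transport_pos (m : ℕ) {ζ : ℂ → ℂ} (hζ : Test UH ζ) :
    ∫ z, (((z.im : ℂ) * dz ζ z + Complex.I * ((m + 1 : ℤ) : ℂ) / 2 * ζ z) * u ((m + 1 : ℤ) - 1) z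
      + ((z.im : ℂ) * dzb ζ z + Complex.I * ((m + 1 : ℤ) : ℂ) / 2 * ζ z) * u ((m + 1 : ℤ) + 1) z)
        / (z.im : ℂ) ^ 2 = 0 := by
  obtain ⟨w, hwt, hid⟩ := S.transport_id m
  have hζ1 : Test UH (fun z => ζ z * (aH z)⁻¹) := hζ.mul isOpen_UH contDiffOn_inv_aH
  have hζ2 : Test UH (fun z => ζ z * ((aH z)⁻¹) ^ 2) :=
    hζ.mul isOpen_UH (contDiffOn_inv_aH.pow 2)
  have hE0 : ∀ n z, E h aH φ 0 n z = jet h aH φ 0 n z := fun _ _ => rfl
  have hEm : ∀ (m : ℕ) n z, E h aH φ (m : ℤ) n z = jet h aH φ m n z := fun _ _ _ => rfl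
  have hE1 : ∀ n z, E h aH φ 1 n z = jet h aH φ 1 n z := fun _ _ => rfl
  -- the limits
  have tA : Tendsto (fun n => ∫ z, dz (fun z => ζ z * (aH z)⁻¹) z
      * (jet h aH φ 0 n z * jet h aH φ m n z)) atTop
      (𝓝 (∫ z, dz (fun z => ζ z * (aH z)⁻¹) z * u (m : ℤ) z)) :=
    (S.lim_zero hl hw (m : ℤ)).test hζ1.dz
  have wB : WLim UH (fun n z => jet h aH φ 1 n z * jet h aH φ (m + 1) n z)
      (fun z => -u ((m : ℤ) + 2) z) := by
    have := hw 1 ((m + 1 : ℕ) : ℤ)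
    refine this.congr_right fun z _ => ?_
    have e : (1 : ℤ) + ((m + 1 : ℕ) : ℤ) = (m : ℤ) + 2 := by push_cast; ring
    rw [e]; simp
  have tB := wB.test hζ1.dzb
  have tC := wB.test hζ2
  have tD : Tendsto (fun n => (m : ℂ) * ∫ z, (ζ z * ((aH z)⁻¹) ^ 2)
      * (jet h aH φ 1 n z * jet h aH φ (m - 1) n z)) atTop
      (𝓝 ((m : ℂ) * ∫ z, (ζ z * ((aH z)⁻¹) ^ 2) * -u (m : ℤ) z)) := by
    rcases Nat.eq_zero_or_pos m with h0 | h0
    · rw [h0]; simp
    · have wD : WLim UH (fun n z => jet h aH φ 1 n z * jet h aH φ (m - 1) n z)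
          (fun z => -u (m : ℤ) z) := by
        have := hw 1 ((m - 1 : ℕ) : ℤ)
        refine this.congr_right fun z _ => ?_
        have e : (1 : ℤ) + ((m - 1 : ℕ) : ℤ) = (m : ℤ) := by omega
        rw [e]; simp
      exact (wD.test hζ2).const_mul _
  have tE := tendsto_h_int S.hlim (S.tame_jet 1) hwt hζ2
  have lim1 := (tA.const_mul (2 * Complex.I)).sub (tB.const_mul (2 * Complex.I))
  have lim2 := ((tC.const_mul (-((m : ℂ) + 2))).sub tD).sub tE
  have heq := tendsto_nhds_unique (lim1.congr fun n => hid n ζ hζ) lim2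
  -- integrability
  have j1 := hζ1.dz.int_LocL2 (hl (m : ℤ))
  have j2 := hζ1.dzb.int_LocL2 (hl ((m : ℤ) + 2))
  have j3 := hζ2.int_LocL2 (hl ((m : ℤ) + 2))
  have j4 := hζ2.int_LocL2 (hl (m : ℤ))
  have n1 : ∀ f g : ℂ → ℂ, ∫ z, f z * -g z = -∫ z, f z * g z := by
    intro f g
    rw [← integral_neg]
    exact integral_congr_ae (Filter.Eventually.of_forall fun z => by beta_reduce; ring)
  rw [n1, n1, n1] at heq
  have e1 : ((m + 1 : ℤ) - 1) = (m : ℤ) := by ring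
  have e2 : ((m + 1 : ℤ) + 1) = (m : ℤ) + 2 := by ring
  rw [e1, e2]
  have pw : ∀ z : ℂ, (((z.im : ℂ) * dz ζ z + Complex.I * ((m + 1 : ℤ) : ℂ) / 2 * ζ z) * u (m : ℤ) z
      + ((z.im : ℂ) * dzb ζ z + Complex.I * ((m + 1 : ℤ) : ℂ) / 2 * ζ z) * u ((m : ℤ) + 2) z)
        / (z.im : ℂ) ^ 2
      = (dz (fun z => ζ z * (aH z)⁻¹) z * u (m : ℤ) z
        + dzb (fun z => ζ z * (aH z)⁻¹) z * u ((m : ℤ) + 2) z)
        + (Complex.I / 2 * (m : ℂ) * ((ζ z * ((aH z)⁻¹) ^ 2) * u (m : ℤ) z)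
        + Complex.I / 2 * ((m : ℂ) + 2) * ((ζ z * ((aH z)⁻¹) ^ 2) * u ((m : ℤ) + 2) z)) := by
    intro z
    by_cases hz : z ∈ UH
    · rw [dz_div_aH hζ hz, dzb_div_aH hζ hz]
      have ha := aH_ne hz
      have e : ((z.im : ℝ) : ℂ) = aH z := rfl
      rw [e]
      push_cast
      field_simp
      ring
    · obtain ⟨h0, h1, h2⟩ := hζ.zero_of_notMem hz
      obtain ⟨_, h3, h4⟩ := hζ1.zero_of_notMem hz
      rw [h0, h1, h2, h3, h4]; ring
  have t1 : ∫ z : ℂ, (((z.im : ℂ) * dz ζ z + Complex.I * ((m + 1 : ℤ) : ℂ) / 2 * ζ z) * u (m : ℤ) z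
      + ((z.im : ℂ) * dzb ζ z + Complex.I * ((m + 1 : ℤ) : ℂ) / 2 * ζ z) * u ((m : ℤ) + 2) z)
        / (z.im : ℂ) ^ 2
      = ((∫ z, dz (fun z => ζ z * (aH z)⁻¹) z * u (m : ℤ) z)
        + ∫ z, dzb (fun z => ζ z * (aH z)⁻¹) z * u ((m : ℤ) + 2) z)
        + (Complex.I / 2 * (m : ℂ) * (∫ z, (ζ z * ((aH z)⁻¹) ^ 2) * u (m : ℤ) z)
        + Complex.I / 2 * ((m : ℂ) + 2) * (∫ z, (ζ z * ((aH z)⁻¹) ^ 2) * u ((m : ℤ) + 2) z)) := by
    have j12 : Integrable (fun z => dz (fun z => ζ z * (aH z)⁻¹) z * u (m : ℤ) z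
        + dzb (fun z => ζ z * (aH z)⁻¹) z * u ((m : ℤ) + 2) z) := j1.add j2
    have j34 : Integrable (fun z => Complex.I / 2 * (m : ℂ) * ((ζ z * ((aH z)⁻¹) ^ 2)
          * u (m : ℤ) z)
        + Complex.I / 2 * ((m : ℂ) + 2) * ((ζ z * ((aH z)⁻¹) ^ 2) * u ((m : ℤ) + 2) z)) :=
      (j4.const_mul _).add (j3.const_mul _)
    rw [integral_congr_ae (Filter.Eventually.of_forall pw),
      integral_add j12 j34, integral_add j1 j2,
      integral_add (j4.const_mul _) (j3.const_mul _), integral_const_mul, integral_const_mul]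
  rw [t1]
  have hI : Complex.I ^ 2 = -1 := Complex.I_sq
  linear_combination (-(Complex.I / 2)) * heq
    + ((∫ z, dz (fun z => ζ z * (aH z)⁻¹) z * u (m : ℤ) z)
      + ∫ z, dzb (fun z => ζ z * (aH z)⁻¹) z * u ((m : ℤ) + 2) z) * hI

/-- the transport equation: the limit measure is invariant under the geodesic flow -/
theorem limit_transport (k : ℤ) {ζ : ℂ → ℂ} (hζ : Test UH ζ) :
    ∫ z, (((z.im : ℂ) * dz ζ z + Complex.I * (k : ℂ) / 2 * ζ z) * u (k - 1) z
      + ((z.im : ℂ) * dzb ζ z + Complex.I * (k : ℂ) / 2 * ζ z) * u (k + 1) z)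
        / (z.im : ℂ) ^ 2 = 0 := by
  rcases Int.even_or_odd k with hk | hk
  · -- the functions `u (k - 1)` and `u (k + 1)` vanish
    have h1 : Odd (k - 1) := by
      obtain ⟨r, rfl⟩ := hk
      exact ⟨r - 1, by ring⟩
    have h2 : Odd (k + 1) := by
      obtain ⟨r, rfl⟩ := hk
      exact ⟨r, by ring⟩
    have h3 := (ae_restrict_iff' isOpen_UH.measurableSet).1 (S.lim_odd hl hw (k - 1) h1)
    have h4 := (ae_restrict_iff' isOpen_UH.measurableSet).1 (S.lim_odd hl hw (k + 1) h2)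
    rw [← integral_zero ℂ ℂ (μ := volume)]
    refine integral_congr_ae ?_
    filter_upwards [h3, h4] with z h3 h4
    by_cases hz : z ∈ UH
    · rw [h3 hz, h4 hz]; simp
    · obtain ⟨h0, h1, h2⟩ := hζ.zero_of_notMem hz
      rw [h0, h1, h2]; simp
  · rcases le_or_gt 1 k with h1 | h1
    · obtain ⟨m, rfl⟩ : ∃ m : ℕ, k = (m : ℤ) + 1 := ⟨(k - 1).toNat, by omega⟩
      exact S.transport_pos hl hw m hζ
    · have hk0 : k ≤ -1 := by
        obtain ⟨r, rfl⟩ := hk
        omega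
      obtain ⟨m, hm⟩ : ∃ m : ℕ, -k = (m : ℤ) + 1 := ⟨(-k - 1).toNat, by omega⟩
      have hp := S.transport_pos hl hw m hζ.conj
      rw [← hm] at hp
      have hc := congrArg (starRingEnd ℂ) hp
      rw [map_zero, ← integral_conj] at hc
      rw [← hc]
      refine integral_congr_ae ?_
      have h3 := (ae_restrict_iff' isOpen_UH.measurableSet).1 (S.lim_conj hl hw (k - 1))
      have h4 := (ae_restrict_iff' isOpen_UH.measurableSet).1 (S.lim_conj hl hw (k + 1))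
      filter_upwards [h3, h4] with z h3 h4
      by_cases hz : z ∈ UH
      · have hd := hζ.smooth.differentiable (by simp) z
        have e1 : -k + 1 = -(k - 1) := by ring
        have e2 : -k - 1 = -(k + 1) := by ring
        rw [dz_conj hd, dzb_conj hd, e1, e2, h3 hz, h4 hz]
        simp only [map_div₀, map_add, map_mul, map_pow, Complex.conj_I, Complex.conj_conj,
          Complex.conj_ofReal, map_ofNat, map_intCast]
        push_cast
        ring
      · obtain ⟨h0, h1, h2⟩ := hζ.zero_of_notMem hz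
        obtain ⟨h0', h1', h2'⟩ := hζ.conj.zero_of_notMem hz
        rw [h0, h1, h2, h1', h2']; simp

end Setup

end

end QE
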