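import Pool.Agent.LibH11.QEV.Local3
import Pool.Agent.Lib_helper67.QE.Var3
import Pool.Agent.Lib_helper67.QE.WLimTools

/-!
The local form of the formulas for two and three points, for all sequences of eigenfunctions with
bounded fourth moments (helper70).
-/

open Complex MeasureTheory Filter Topology Set
open scoped ContDiff

namespace QE

noncomputable section

variable {U : Set ℂ} {h : ℕ → ℝ} {a g : ℂ → ℂ} {φ : ℕ → ℂ → ℂ} {u : ℤ → ℂ → ℂ}

namespace Setup

variable (S : Setup U g a h φ)

include S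

/-- **The local two-point formula**, for sequences with microlocal limits. -/
theorem two_local_var (L : JetLim U h a φ u) {K : Set ℂ} (hK : IsCompact K) {δ : ℝ} (hδ : 0 < δ)
    (hδU : Metric.cthickening (2 * δ) K ⊆ U) {q : ℤ} (hq : q ≠ 0) (y : Fin 2 → ℂ)
    (ξ : Fin 2 → ℕ → ℝ → ℂ → ℂ) (hξ : ∀ i, Disp h a K q (y i) (ξ i)) {ζ : ℂ → ℂ}
    (hζ : Test U ζ) (hζK : tsupport ζ ⊆ K) :
    Tendsto (fun n => (∫ θ, (∫ z, ζ z * (φ n (z + h n * a z * ξ 0 n θ z)
        * φ n (z + h n * a z * ξ 1 n θ z))) ∂ang)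
        - (∫ z, ζ z * (φ n z * φ n z)) * (Berry.waveK (y 0 - y 1) : ℂ)) atTop (𝓝 0) := by
  have hKU : K ⊆ U := (Metric.self_subset_cthickening K).trans hδU
  have hset : ∀ f : ℂ → ℂ, ∫ z, ζ z * f z = ∫ z in K, ζ z * f z := by
    intro f
    rw [setIntegral_eq_integral_of_forall_compl_eq_zero]
    intro z hz
    rw [image_eq_zero_of_notMem_tsupport (fun hz' => hz (hζK hz')), zero_mul]
  have hζc : ContinuousOn ζ K := hζ.smooth.continuous.continuousOn
  have hlim : ∀ j m : ℤ, Tendsto (fun n => ∫ z, ζ z * (E h a φ j n z * E h a φ m n z)) atTop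
      (𝓝 ((-1) ^ j * ∫ z, ζ z * u (j + m) z)) := by
    intro j m
    have h1 := (L.lim j m).test hζ
    have e : ∫ z, ζ z * ((-1) ^ j * u (j + m) z) = (-1) ^ j * ∫ z, ζ z * u (j + m) z := by
      rw [← integral_const_mul]
      congr 1; funext z; ring
    rwa [e] at h1
  have hα : Tendsto (fun n => ∫ z, ζ z * (φ n z * φ n z)) atTop (𝓝 (∫ z, ζ z * u 0 z)) := by
    have := hlim 0 0
    rw [zpow_zero, one_mul, add_zero] at this
    exact this
  have key := lim_combine
    (X := fun n => ∫ θ, (∫ z, ζ z * (φ n (z + h n * a z * ξ 0 n θ z)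
        * φ n (z + h n * a z * ξ 1 n θ z))) ∂ang)
    (T := fun N n => ∑ p ∈ Fintype.piFinset (fun _ : Fin 2 => Finset.Icc (-(N : ℤ)) N),
        (∏ i, CN N (p i) (y i)) * ((if ∑ i, p i = 0 then 1 else 0)
          * ∫ z in K, ζ z * ∏ i, E h a φ (p i) n z))
    (α := fun n => ∫ z, ζ z * (φ n z * φ n z)) (β := fun _ => 0) (W₂ := fun _ => 0) (V₂ := 0)
    (C := ‖∫ z, ζ z * u 0 z‖ + 1) ?_ ?_ (model_pair y) tendsto_const_nhds
    ((hα.norm.eventually_lt_const (lt_add_one _)).mono fun n hn => hn.le)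
    (Eventually.of_forall fun n => by simp; positivity)
  · refine key.congr fun n => ?_
    ring
  · intro ε hε
    have hone : Disp h a K q 0 (fun _ _ _ => 0) := by
      refine ⟨fun ε hε => Eventually.of_forall fun n θ z _ => by simpa using hε.le,
        Eventually.of_forall fun n => continuousOn_const,
        Eventually.of_forall fun n θ z _ w _ => by simp⟩
    obtain ⟨N₀, hN₀⟩ := S.rot_close hK hδ hδU q ![true, true, false, false] ![y 0, y 1, 0, 0]
      ![ξ 0, ξ 1, fun _ _ _ => 0, fun _ _ _ => 0] (fun i => by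
        fin_cases i
        · exact hξ 0
        · exact hξ 1
        · exact hone
        · exact hone) hζc hε
    refine ⟨N₀, fun N hN => ?_⟩
    filter_upwards [hN₀ N hN] with n hn
    simp only [Matrix.cons_val_zero, Matrix.cons_val_one, Matrix.cons_val, fld, tay, if_true,
      Bool.false_eq_true, if_false, mul_one] at hn
    have e1 := S.rot_expand hK hKU hq y hζc N n
    simp only [Fin.prod_univ_two] at e1
    rw [e1] at hn
    simp only [hset]
    simp only [Fin.prod_univ_two]
    exact hn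
  · intro N
    have h1 : ∀ p : Fin 2 → ℤ, Tendsto (fun n => (if ∑ i, p i = 0 then 1 else 0)
        * (∫ z in K, ζ z * ∏ i, E h a φ (p i) n z)
        - ((∫ z, ζ z * (φ n z * φ n z)) * ((if ∑ i, p i = 0 then 1 else 0) * P (p 0) (p 1))))
        atTop (𝓝 0) := by
      intro p
      by_cases hp : ∑ i, p i = 0
      · simp only [if_pos hp, one_mul]
        rw [Fin.sum_univ_two] at hp
        have h2 := (hlim (p 0) (p 1)).sub (hα.mul_const (P (p 0) (p 1)))
        have e : (-1) ^ (p 0) * ∫ z, ζ z * u (p 0 + p 1) z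
            = (∫ z, ζ z * u 0 z) * P (p 0) (p 1) := by
          unfold P
          rw [if_pos hp, hp]; ring
        rw [e, sub_self] at h2
        refine h2.congr fun n => ?_
        rw [hset (fun z => E h a φ (p 0) n z * E h a φ (p 1) n z)]
        simp only [Fin.prod_univ_two]
      · simp only [if_neg hp, zero_mul, mul_zero, sub_zero]
        exact tendsto_const_nhds
    have h2 := tendsto_finsetSum (Fintype.piFinset (fun _ : Fin 2 => Finset.Icc (-(N : ℤ)) N))
      fun p _ => (h1 p).const_mul (∏ i, CN N (p i) (y i))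
    simp only [mul_zero, Finset.sum_const_zero] at h2
    refine h2.congr fun n => ?_
    rw [zero_mul, add_zero, Finset.mul_sum, ← Finset.sum_sub_distrib]
    exact Finset.sum_congr rfl fun p _ => by ring

/-- **The local three-point formula**, for sequences with microlocal limits without directional
atoms. -/
theorem three_local_var (L : JetLim U h a φ u)
    (hN : ∀ ρ : ℂ → ℝ, Test U (fun z => (ρ z : ℂ)) → (∀ z, 0 ≤ ρ z) →
      Tendsto (fun N : ℕ => (1 / (N : ℝ)) * ∑ k ∈ Finset.Ioo (-(N : ℤ)) (N : ℤ),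
      ∫ z, ρ z * ‖u k z‖ ^ 2) atTop (𝓝 0)) {K : Set ℂ} (hK : IsCompact K) {δ : ℝ} (hδ : 0 < δ)
    (hδU : Metric.cthickening (2 * δ) K ⊆ U) {q : ℤ} (hq : q ≠ 0) (y : Fin 3 → ℂ)
    (ξ : Fin 3 → ℕ → ℝ → ℂ → ℂ) (hξ : ∀ i, Disp h a K q (y i) (ξ i)) {ζ : ℂ → ℂ}
    (hζ : Test U ζ) (hζK : tsupport ζ ⊆ K) :
    Tendsto (fun n => (∫ θ, (∫ z, ζ z * (φ n (z + h n * a z * ξ 0 n θ z)
        * φ n (z + h n * a z * ξ 1 n θ z) * φ n (z + h n * a z * ξ 2 n θ z))) ∂ang)) atTop
      (𝓝 0) := by
  have hKU : K ⊆ U := (Metric.self_subset_cthickening K).trans hδU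
  have hset : ∀ f : ℂ → ℂ, ∫ z, ζ z * f z = ∫ z in K, ζ z * f z := by
    intro f
    rw [setIntegral_eq_integral_of_forall_compl_eq_zero]
    intro z hz
    rw [image_eq_zero_of_notMem_tsupport (fun hz' => hz (hζK hz')), zero_mul]
  have hζc : ContinuousOn ζ K := hζ.smooth.continuous.continuousOn
  have key := lim_combine
    (X := fun n => ∫ θ, (∫ z, ζ z * (φ n (z + h n * a z * ξ 0 n θ z)
        * φ n (z + h n * a z * ξ 1 n θ z) * φ n (z + h n * a z * ξ 2 n θ z))) ∂ang)
    (T := fun N n => ∑ p ∈ Fintype.piFinset (fun _ : Fin 3 => Finset.Icc (-(N : ℤ)) N),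
        (∏ i, CN N (p i) (y i)) * ((if ∑ i, p i = 0 then 1 else 0)
          * ∫ z in K, ζ z * ∏ i, E h a φ (p i) n z))
    (α := fun _ => 0) (W₁ := fun _ => 0) (V₁ := 0) (β := fun _ => 0) (W₂ := fun _ => 0) (V₂ := 0)
    (C := 0) ?_ ?_ tendsto_const_nhds tendsto_const_nhds
    (Eventually.of_forall fun n => by simp) (Eventually.of_forall fun n => by simp)
  · refine key.congr fun n => ?_
    ring
  · intro ε hε
    have hone : Disp h a K q 0 (fun _ _ _ => 0) := by
      refine ⟨fun ε hε => Eventually.of_forall fun n θ z _ => by simpa using hε.le,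
        Eventually.of_forall fun n => continuousOn_const,
        Eventually.of_forall fun n θ z _ w _ => by simp⟩
    obtain ⟨N₀, hN₀⟩ := S.rot_close hK hδ hδU q ![true, true, true, false] ![y 0, y 1, y 2, 0]
      ![ξ 0, ξ 1, ξ 2, fun _ _ _ => 0] (fun i => by
        fin_cases i
        · exact hξ 0
        · exact hξ 1
        · exact hξ 2
        · exact hone) hζc hε
    refine ⟨N₀, fun N hN => ?_⟩
    filter_upwards [hN₀ N hN] with n hn
    simp only [Matrix.cons_val_zero, Matrix.cons_val_one, Matrix.cons_val, fld, tay, if_true,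
      Bool.false_eq_true, if_false, mul_one] at hn
    have e1 := S.rot_expand hK hKU hq y hζc N n
    simp only [Fin.prod_univ_three] at e1
    rw [e1] at hn
    simp only [hset]
    simp only [Fin.prod_univ_three]
    exact hn
  · intro N
    have h1 : ∀ p : Fin 3 → ℤ, Tendsto (fun n => (if ∑ i, p i = 0 then 1 else 0)
        * (∫ z in K, ζ z * ∏ i, E h a φ (p i) n z)) atTop (𝓝 0) := by
      intro p
      by_cases hp : ∑ i, p i = 0
      · simp only [if_pos hp, one_mul]
        rw [Fin.sum_univ_three] at hp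
        refine (S.jets_three_var L hN hζ (p 0) (p 1) (p 2) hp).congr fun n => ?_
        rw [hset (fun z => E h a φ (p 0) n z * E h a φ (p 1) n z * E h a φ (p 2) n z)]
        simp only [Fin.prod_univ_three]
      · simp only [if_neg hp, zero_mul]
        exact tendsto_const_nhds
    have h2 := tendsto_finsetSum (Fintype.piFinset (fun _ : Fin 3 => Finset.Icc (-(N : ℤ)) N))
      fun p _ => (h1 p).const_mul (∏ i, CN N (p i) (y i))
    simp only [mul_zero, Finset.sum_const_zero] at h2
    refine h2.congr fun n => ?_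
    rw [zero_mul, add_zero, sub_zero]

end Setup

end

end QE
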