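import Pool.Agent.Lib_helper67.QE.HypLin
import Pool.Agent.Lib_helper67.QE.TwoThree
import Pool.Agent.LibH11.QEV.Corr

/-!
The two and three point functions of the local waves along sequences of eigenfunctions with
microlocal limits on compact hyperbolic surfaces (helper70).
-/

open UpperHalfPlane MeasureTheory MatrixGroups Filter Topology Set Berry
open scoped ENNReal ContDiff

namespace QE

noncomputable section

variable {Γ : Subgroup SL(2, ℝ)} {ρ : ℍ → ℝ} {D : Set ℍ} {φ : ℕ → ℍ → ℝ} {m h : ℕ → ℝ}
  {g' : ℂ → ℂ} {k : ℕ} {u : ℤ → ℂ → ℂ}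

/-- **Correlations of the local waves from the local formulas.** -/
theorem WS.wrap_gen [Countable Γ] (W : WS Γ ρ D φ m h g') (x : Fin k → ℂ)
    (hk : ∀ a : Fin k → ℝ, |∏ i, a i| ≤ 1 + ∑ i, a i ^ 4) {G : ℕ → ℍ → ℝ}
    (hG : ∀ n, Continuous (G n)) (hGi : ∀ n, ∀ γ ∈ Γ, ∀ z, G n (γ • z) = G n z)
    (hGb : ∀ K : Set ℂ, IsCompact K → K ⊆ HH → ∃ C : ℝ, ∀ᶠ n in atTop,
      ∫ z in K, |G n (ofComplex z)| ≤ C)
    (hloc : ∀ ψ : ℂ → ℝ, ContDiff ℝ ∞ ψ → HasCompactSupport ψ → tsupport ψ ⊆ HH →
      Tendsto (fun n => (∫ z, ψ z * angProd ρ (φ n) (m n) x (ofComplex z))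
        - ∫ z, ψ z * G n (ofComplex z)) atTop (𝓝 0)) :
    Tendsto (fun n => (∫ p, ∏ i, Berry.rWave ρ (φ n) (m n) (x i) p ∂(Berry.rFrameProb ρ D))
      - Berry.rAvg ρ D (G n)) atTop (𝓝 0) := by
  have main := global_lim (F := fun n z => angProd ρ (φ n) (m n) x z - G n z)
    W.geo W.rc W.coc
    ((W.ac x).mono fun n hn => hn.sub (hG n))
    (fun n γ hγ z => by
      rw [angProd_inv (W.pinv n) W.geo.inv (m n) x γ hγ z, hGi n γ hγ z])
    (fun K hKc hKU => by
      obtain ⟨C, hC⟩ := W.angProd_bdd x hk hKc hKU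
      obtain ⟨M, hM⟩ := hGb K hKc hKU
      refine ⟨C + M, ?_⟩
      filter_upwards [hC, hM, W.ac x] with n n1 n2 n8
      have iA : IntegrableOn (fun z => |angProd ρ (φ n) (m n) x (ofComplex z)|) K :=
        ((cont_ofComplex n8).mono hKU).abs.integrableOn_compact hKc
      have iG : IntegrableOn (fun z => |G n (ofComplex z)|) K :=
        ((cont_ofComplex (hG n)).mono hKU).abs.integrableOn_compact hKc
      calc ∫ z in K, |angProd ρ (φ n) (m n) x (ofComplex z) - G n (ofComplex z)|
          ≤ ∫ z in K, (|angProd ρ (φ n) (m n) x (ofComplex z)| + |G n (ofComplex z)|) := by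
            refine integral_mono_of_nonneg (Eventually.of_forall fun z => abs_nonneg _)
              (iA.add iG) (Eventually.of_forall fun z => ?_)
            exact abs_sub _ _
        _ ≤ _ := by
            rw [integral_add iA iG]
            exact add_le_add n1 n2)
    (fun ψ hψ hψs hψU => by
      refine (hloc ψ hψ hψs hψU).congr' ?_
      filter_upwards [W.ac x] with n n8
      have j1 : Integrable (fun z => ψ z * angProd ρ (φ n) (m n) x (ofComplex z)) :=
        (Surf.continuous_cut_mul hψ.continuous hψU n8).integrable_of_hasCompactSupport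
          hψs.mul_right
      have j2 : Integrable (fun z => ψ z * G n (ofComplex z)) :=
        (Surf.continuous_cut_mul hψ.continuous hψU (hG n)).integrable_of_hasCompactSupport
          hψs.mul_right
      rw [← integral_sub j1 j2]
      congr 1; funext z; ring)
  refine main.congr' ?_
  filter_upwards [W.wc x, W.ac x] with n hn1 hn2
  obtain ⟨C₁, hC₁⟩ := Berry.bdd_of_cocompact hn2
    (angProd_inv (W.pinv n) W.geo.inv (m n) x) W.coc
  obtain ⟨C₂, hC₂⟩ := Berry.bdd_of_cocompact (W.pc n) (W.pinv n) W.coc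
  obtain ⟨C₃, hC₃⟩ := Berry.bdd_of_cocompact (hG n) (hGi n) W.coc
  have hcond : IsProbabilityMeasure (ProbabilityTheory.cond (Berry.area ρ) D) :=
    ProbabilityTheory.cond_isProbabilityMeasure_of_finite (Berry.area_ne_zero W.geo)
      (Berry.area_ne_top W.geo)
  have i1 : Integrable (angProd ρ (φ n) (m n) x) (ProbabilityTheory.cond (Berry.area ρ) D) :=
    Integrable.of_bound hn2.aestronglyMeasurable C₁ (Eventually.of_forall fun z => by
      rw [Real.norm_eq_abs]; exact hC₁ z)
  have i2 : Integrable (G n) (ProbabilityTheory.cond (Berry.area ρ) D) :=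
    Integrable.of_bound (hG n).aestronglyMeasurable C₃ (Eventually.of_forall fun z => by
      rw [Real.norm_eq_abs]; exact hC₃ z)
  have i3 : Integrable (fun p => ∏ i, Berry.rWave ρ (φ n) (m n) (x i) p)
      ((ProbabilityTheory.cond (Berry.area ρ) D).prod ang) := by
    refine Integrable.of_bound (continuous_finsetProd _ fun i _ => hn1 i).aestronglyMeasurable
      (∏ _i : Fin k, |C₂|) (Eventually.of_forall fun p => ?_)
    rw [norm_prod]
    refine Finset.prod_le_prod (fun _ _ => norm_nonneg _) fun i _ => ?_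
    rw [Real.norm_eq_abs]
    exact (hC₂ _).trans (le_abs_self _)
  have e1 : ∫ p, ∏ i, Berry.rWave ρ (φ n) (m n) (x i) p ∂(Berry.rFrameProb ρ D)
      = ∫ z, angProd ρ (φ n) (m n) x z ∂(ProbabilityTheory.cond (Berry.area ρ) D) := by
    unfold Berry.rFrameProb
    rw [integral_prod _ i3]
    rfl
  have e2 : Berry.rAvg ρ D (fun z => angProd ρ (φ n) (m n) x z - G n z)
      = (∫ z, angProd ρ (φ n) (m n) x z ∂(ProbabilityTheory.cond (Berry.area ρ) D))
        - ∫ z, G n z ∂(ProbabilityTheory.cond (Berry.area ρ) D) := integral_sub i1 i2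
  rw [e1, e2]
  rfl

/-- the rotation averages in the two settings -/
theorem LimSeq.ang_eq [Countable Γ] (hDm : MeasurableSet D)
    (hD : IsFundamentalDomain Γ D (volume : Measure ℍ))
    (hK : ∃ K : Set ℍ, IsCompact K ∧ ∀ z, ∃ γ ∈ Γ, γ • z ∈ K) (L : LimSeq Γ φ m u)
    (x : Fin k → ℂ) {ψ : ℂ → ℝ} (hψ : ContDiff ℝ ∞ ψ)
    (hψs : HasCompactSupport ψ) (hψU : tsupport ψ ⊆ HH) :
    ∀ᶠ n in atTop, ∫ θ, (∫ z, (ψ z : ℂ) * ∏ i, (φ n (ofComplex (z + ((1 / m n : ℝ) : ℂ) * aH z
        * frXi (fun n => 1 / m n) (em fun _ => 0) (x i) n θ z)) : ℂ)) ∂ang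
      = ((∫ z, ψ z * angProd (fun _ => 0) (φ n) (m n) x (ofComplex z) : ℝ) : ℂ) := by
  have W := L.ws hDm hD hK
  filter_upwards [W.ang_eq x hψ hψs hψU] with n hn
  rw [← hn]
  refine integral_congr_ae (Eventually.of_forall fun θ => ?_)
  refine integral_congr_ae (Eventually.of_forall fun z => ?_)
  beta_reduce
  by_cases hz : z ∈ UH
  · rw [wt_zero hz]
  · have : ψ z = 0 := image_eq_zero_of_notMem_tsupport fun hh => hz (hψU hh)
    rw [this]; simp

theorem test_of_smooth {U : Set ℂ} {ψ : ℂ → ℝ} (hψ : ContDiff ℝ ∞ ψ) (hψs : HasCompactSupport ψ)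
    (hψU : tsupport ψ ⊆ U) : Test U (fun z => (ψ z : ℂ)) := by
  refine ⟨Complex.ofRealCLM.contDiff.comp hψ, ?_, ?_⟩
  · unfold HasCompactSupport
    rw [Test.tsupport_eq]
    exact hψs
  · rw [Test.tsupport_eq]; exact hψU

/-- **The two-point functions.** -/
theorem LimSeq.two [Countable Γ] (hDm : MeasurableSet D)
    (hD : IsFundamentalDomain Γ D (volume : Measure ℍ))
    (hK : ∃ K : Set ℍ, IsCompact K ∧ ∀ z, ∃ γ ∈ Γ, γ • z ∈ K) (L : LimSeq Γ φ m u) (x y : ℂ) :
    Tendsto (fun n => (∫ p, localWave (φ n) (m n) x p * localWave (φ n) (m n) y p ∂(frameProb D))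
      - waveK (x - y) * surfAvg D (fun z => φ n z ^ 2)) atTop (𝓝 0) := by
  have W := L.ws hDm hD hK
  have key := W.wrap_gen ![x, y] (prod_le_four (by norm_num))
    (G := fun n z => waveK (x - y) * φ n z ^ 2)
    (fun n => continuous_const.mul ((L.cont n).pow 2))
    (fun n γ hγ z => by rw [L.inv n γ hγ z])
    (fun K hKc hKU => by
      obtain ⟨M, hM⟩ := W.bdd4 hKc hKU
      refine ⟨|waveK (x - y)| * ((volume K).toReal + M), ?_⟩
      filter_upwards [hM] with n hn
      have cφ : ContinuousOn (fun z : ℂ => φ n (ofComplex z)) HH := cont_ofComplex (W.pc n)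
      have i1 : IntegrableOn (fun _ : ℂ => (1 : ℝ)) K := continuousOn_const.integrableOn_compact hKc
      have i4 : IntegrableOn (fun z : ℂ => φ n (ofComplex z) ^ 4) K :=
        ((cφ.mono hKU).pow 4).integrableOn_compact hKc
      calc ∫ z in K, |waveK (x - y) * φ n (ofComplex z) ^ 2|
          ≤ ∫ z in K, |waveK (x - y)| * (1 + φ n (ofComplex z) ^ 4) := by
            refine integral_mono_of_nonneg (Eventually.of_forall fun z => abs_nonneg _)
              ((i1.add i4).const_mul _) (Eventually.of_forall fun z => ?_)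
            beta_reduce
            rw [abs_mul, abs_of_nonneg (sq_nonneg (φ n (ofComplex z)))]
            refine mul_le_mul_of_nonneg_left ?_ (abs_nonneg _)
            nlinarith [sq_nonneg (φ n (ofComplex z) ^ 2 - 1), sq_nonneg (φ n (ofComplex z))]
        _ = |waveK (x - y)| * ((volume K).toReal + ∫ z in K, φ n (ofComplex z) ^ 4) := by
            rw [integral_const_mul, integral_add i1 i4, integral_const, smul_eq_mul, mul_one,
              measureReal_restrict_apply_univ]
            rfl
        _ ≤ _ := mul_le_mul_of_nonneg_left (by linarith) (abs_nonneg _))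
    (fun ψ hψ hψs hψU => by
      obtain ⟨δ, hδ, hδU⟩ := exists_thick hψs hψU
      have h1 := L.set.two_local_var ⟨L.loc, L.lim⟩ hψs hδ hδU (q := 2) two_ne_zero ![x, y]
        (fun i => frXi (fun n => 1 / m n) (em fun _ => 0) (![x, y] i))
        (fun i => (W.disp hψs hψU (![x, y] i)).congr_a fun z hz => (wt_zero (hψU hz)).symm)
        (test_of_smooth hψ hψs hψU) (by rw [Test.tsupport_eq])
      have h2 : Tendsto (fun n => (((∫ z, ψ z * angProd (fun _ => 0) (φ n) (m n) ![x, y]
          (ofComplex z)) - ∫ z, ψ z * (waveK (x - y) * φ n (ofComplex z) ^ 2) : ℝ) : ℂ)) atTop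
          (𝓝 0) := by
        refine h1.congr' ?_
        filter_upwards [L.ang_eq hDm hD hK ![x, y] hψ hψs hψU] with n n1
        rw [Complex.ofReal_sub, ← n1]
        congr 1
        · refine integral_congr_ae (Eventually.of_forall fun θ => ?_)
          refine integral_congr_ae (Eventually.of_forall fun z => ?_)
          beta_reduce
          rw [Fin.prod_univ_two]
        · have e : ((∫ z, ψ z * (waveK (x - y) * φ n (ofComplex z) ^ 2) : ℝ) : ℂ)
              = ∫ z, ((ψ z * (waveK (x - y) * φ n (ofComplex z) ^ 2) : ℝ) : ℂ) :=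
            integral_ofReal.symm
          rw [e, ← integral_mul_const]
          refine integral_congr_ae (Eventually.of_forall fun z => ?_)
          simp only [Matrix.cons_val_zero, Matrix.cons_val_one]
          push_cast
          ring
      have h3 := (Complex.continuous_re.tendsto _).comp h2
      simpa only [Function.comp_def, Complex.ofReal_re, Complex.zero_re] using h3)
  refine key.congr fun n => ?_
  rw [rAvg_zero, rFrameProb_zero]
  simp only [rWave_zero, Fin.prod_univ_two, Matrix.cons_val_zero, Matrix.cons_val_one]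
  congr 1
  unfold surfAvg
  rw [integral_const_mul]

/-- **The three-point functions vanish in the limit.** -/
theorem LimSeq.three [Countable Γ] (hDm : MeasurableSet D)
    (hD : IsFundamentalDomain Γ D (volume : Measure ℍ))
    (hK : ∃ K : Set ℍ, IsCompact K ∧ ∀ z, ∃ γ ∈ Γ, γ • z ∈ K) (L : LimSeq Γ φ m u) (x y w : ℂ) :
    Tendsto (fun n => ∫ p, localWave (φ n) (m n) x p * localWave (φ n) (m n) y p
      * localWave (φ n) (m n) w p ∂(frameProb D)) atTop (𝓝 0) := by
  have W := L.ws hDm hD hK
  have key := W.wrap_gen ![x, y, w] (prod_le_four (by norm_num)) (G := fun _ _ => 0)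
    (fun _ => continuous_const) (fun _ _ _ _ => rfl) (fun K _ _ => ⟨0, by simp⟩)
    (fun ψ hψ hψs hψU => by
      obtain ⟨δ, hδ, hδU⟩ := exists_thick hψs hψU
      have h1 := L.set.three_local_var ⟨L.loc, L.lim⟩ (fun ρ hρ hρ0 => by
          have hρr : Continuous ρ := Complex.continuous_re.comp hρ.smooth.continuous
          have hρt : tsupport (fun z => (ρ z : ℂ)) = tsupport ρ := Test.tsupport_eq ρ
          exact L.fej ρ hρr (by
            have := hρ.supp
            unfold HasCompactSupport at this ⊢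
            rwa [hρt] at this) (by rw [← hρt]; exact hρ.sub) hρ0) hψs hδ hδU (q := 2) two_ne_zero
        ![x, y, w] (fun i => frXi (fun n => 1 / m n) (em fun _ => 0) (![x, y, w] i))
        (fun i => (W.disp hψs hψU (![x, y, w] i)).congr_a fun z hz => (wt_zero (hψU hz)).symm)
        (test_of_smooth hψ hψs hψU) (by rw [Test.tsupport_eq])
      have h2 : Tendsto (fun n => (((∫ z, ψ z * angProd (fun _ => 0) (φ n) (m n) ![x, y, w]
          (ofComplex z)) - ∫ z, ψ z * 0 : ℝ) : ℂ)) atTop (𝓝 0) := by
        refine h1.congr' ?_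
        filter_upwards [L.ang_eq hDm hD hK ![x, y, w] hψ hψs hψU] with n n1
        simp only [mul_zero, integral_zero, sub_zero]
        rw [← n1]
        refine integral_congr_ae (Eventually.of_forall fun θ => ?_)
        refine integral_congr_ae (Eventually.of_forall fun z => ?_)
        beta_reduce
        rw [Fin.prod_univ_three]
      have h3 := (Complex.continuous_re.tendsto _).comp h2
      simpa only [Function.comp_def, Complex.ofReal_re, Complex.zero_re] using h3)
  refine key.congr fun n => ?_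
  rw [rAvg_zero, rFrameProb_zero]
  simp only [rWave_zero, Fin.prod_univ_three, Matrix.cons_val_zero, Matrix.cons_val_one,
    Matrix.cons_val]
  unfold surfAvg
  simp

end

end QE
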