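import Pool.Agent.Lib_helper67.QE.JetJ

/-!
If the kurtosis converges to three then all the correlations of four jets are Gaussian.
-/

open Complex MeasureTheory Filter Topology
open scoped ContDiff

namespace QE

noncomputable section

variable {U : Set ℂ} {h : ℕ → ℝ} {a : ℂ → ℂ} {g : ℂ → ℂ} {φ : ℕ → ℂ → ℂ}

theorem Setup.conj_E (S : Setup U g a h φ) (k : ℤ) (n : ℕ) (z : ℂ) (hz : z ∈ U) :
    (starRingEnd ℂ) (E h a φ k n z) = (-1 : ℂ) ^ k * E h a φ (-k) n z := by
  obtain ⟨q, rfl | rfl⟩ := k.eq_nat_or_neg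
  · rw [S.E_neg q n z hz]
    have : E h a φ (q : ℤ) n z = jet h a φ q n z := rfl
    rw [this, zpow_natCast, ← mul_assoc, ← mul_pow]
    norm_num
  · rw [S.E_neg q n z hz, neg_neg, map_mul, map_pow, map_neg, map_one, starRingEnd_self_apply,
      zpow_neg, zpow_natCast, ← inv_pow]
    norm_num
    rfl

/-- integrals of products of finite sums of products of two jets -/
theorem Setup.int_sum_sum (S : Setup U g a h φ) {ζ : ℂ → ℂ} (hζ : Test U ζ) (n N : ℕ)
    (α β γ δ : ℕ → ℤ) :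
    ∑ t ∈ Finset.range N, ∑ u ∈ Finset.range N, ∫ z, ζ z * (E h a φ (α t) n z * E h a φ (β t) n z
      * (E h a φ (γ u) n z * E h a φ (δ u) n z))
      = ∫ z, ζ z * ((∑ t ∈ Finset.range N, E h a φ (α t) n z * E h a φ (β t) n z)
        * (∑ u ∈ Finset.range N, E h a φ (γ u) n z * E h a φ (δ u) n z)) := by
  have e4 : ∀ t ∈ Finset.range N, ∑ u ∈ Finset.range N, ∫ z, ζ z
      * (E h a φ (α t) n z * E h a φ (β t) n z * (E h a φ (γ u) n z * E h a φ (δ u) n z))
      = ∫ z, ∑ u ∈ Finset.range N, ζ z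
      * (E h a φ (α t) n z * E h a φ (β t) n z * (E h a φ (γ u) n z * E h a φ (δ u) n z)) :=
    fun t _ => (integral_finsetSum _ (fun u _ => S.int4 hζ n _ _ _ _)).symm
  rw [Finset.sum_congr rfl e4, ← integral_finsetSum _ (fun t _ =>
    integrable_finsetSum _ (fun u _ => S.int4 hζ n _ _ _ _))]
  refine MeasureTheory.integral_congr_ae (Filter.Eventually.of_forall fun z => ?_)
  beta_reduce
  rw [Finset.sum_mul_sum, Finset.mul_sum]
  refine Finset.sum_congr rfl fun t _ => ?_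
  rw [Finset.mul_sum]

theorem Setup.jets_full (S : Setup U g a h φ) (htwo : ∀ (j m : ℤ) (η : ℂ → ℂ), Test U η →
      Tendsto (fun n => ∫ z, η z * (E h a φ j n z * E h a φ m n z)) atTop
      (𝓝 (P j m * ∫ z, η z))) {ρ : ℂ → ℝ} (hρ : Test U (fun z => (ρ z : ℂ)))
    (hρ0 : ∀ z, 0 ≤ ρ z)
    (h3 : Tendsto (fun n => ∫ z, (ρ z : ℂ) * (φ n z * φ n z * (φ n z * φ n z))) atTop
      (𝓝 (3 * ∫ z, (ρ z : ℂ)))) (j m k l : ℤ) :
    Tendsto (fun n => ∫ z, (ρ z : ℂ)
      * (E h a φ j n z * E h a φ m n z * (E h a φ k n z * E h a φ l n z))) atTop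
      (𝓝 (G j m k l * ∫ z, (ρ z : ℂ))) := by
  have hZ : ∫ z, ((ρ z : ℝ) : ℂ) = ((∫ z, ρ z : ℝ) : ℂ) := integral_ofReal
  have hρi : ∀ (f : ℂ → ℝ), ContinuousOn f U → Integrable (fun z => ρ z * f z) := by
    intro f hf
    have hρc : Continuous ρ := by
      have := Complex.continuous_re.comp hρ.smooth.continuous
      simpa [Function.comp_def] using this
    have hts : tsupport ρ = tsupport (fun z => (ρ z : ℂ)) := by
      unfold tsupport
      congr 1
      ext z
      simp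
    exact integrable_mul_of_tsupport S.op hρc (by
      unfold HasCompactSupport; rw [hts]; exact hρ.supp) (by rw [hts]; exact hρ.sub) hf
  have key := alg_full (Z := ∫ z, ρ z) (X := fun n j m k l => ∫ z, (ρ z : ℂ)
      * (E h a φ j n z * E h a φ m n z * (E h a φ k n z * E h a φ l n z)))
      (integral_nonneg hρ0) ?_ ?_ ?_ ?_ ?_ ?_ ?_ j m k l
  · rw [hZ]
    exact key
  · intro n j m k l
    refine MeasureTheory.integral_congr_ae (Filter.Eventually.of_forall fun z => ?_)
    beta_reduce; ring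
  · intro n j m k l
    refine MeasureTheory.integral_congr_ae (Filter.Eventually.of_forall fun z => ?_)
    beta_reduce; ring
  · intro n j m k l
    refine MeasureTheory.integral_congr_ae (Filter.Eventually.of_forall fun z => ?_)
    beta_reduce; ring
  · intro j m k l
    rw [← hZ]
    exact S.hmac htwo j m k l hρ
  · have h4 := S.ibp4 0 0 0 (-1) hρ
    refine h4.congr fun n => ?_
    simp only [zero_add, neg_add_cancel]
  · intro N n a' b c d
    unfold blk
    beta_reduce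
    rw [S.int_sum_sum hρ n N (fun t => a' + 2 * t) (fun t => b - 2 * t) (fun u => c - 2 * u)
        (fun u => d + 2 * u),
      S.int_sum_sum hρ n N (fun t => a' + 2 * t) (fun t => b - 2 * t) (fun u => -a' - 2 * u)
        (fun u => -b + 2 * u),
      S.int_sum_sum hρ n N (fun t => -c + 2 * t) (fun t => -d - 2 * t) (fun u => c - 2 * u)
        (fun u => d + 2 * u)]
    set T₁ : ℂ → ℂ := fun z => ∑ t ∈ Finset.range N, E h a φ (a' + 2 * t) n z
      * E h a φ (b - 2 * t) n z with hT₁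
    set T₂ : ℂ → ℂ := fun z => ∑ u ∈ Finset.range N, E h a φ (c - 2 * u) n z
      * E h a φ (d + 2 * u) n z with hT₂
    have c₁ : ContDiffOn ℝ ∞ T₁ U := ContDiffOn.sum fun t _ => (S.sm2 _ _) n
    have c₂ : ContDiffOn ℝ ∞ T₂ U := ContDiffOn.sum fun t _ => (S.sm2 _ _) n
    have i₁ : Integrable (fun z => ρ z * ‖T₁ z‖ ^ 2) := hρi _ (c₁.continuousOn.norm.pow 2)
    have i₂ : Integrable (fun z => ρ z * ‖T₂ z‖ ^ 2) := hρi _ (c₂.continuousOn.norm.pow 2)
    have e₁ : ((-1 : ℂ) ^ (a' + b) * ∫ z, (ρ z : ℂ) * (T₁ z * ∑ u ∈ Finset.range N,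
        E h a φ (-a' - 2 * u) n z * E h a φ (-b + 2 * u) n z)).re = ∫ z, ρ z * ‖T₁ z‖ ^ 2 := by
      rw [← ofReal_re (∫ z, ρ z * ‖T₁ z‖ ^ 2), ← integral_const_mul]
      congr 1
      have e0 : ((∫ z, ρ z * ‖T₁ z‖ ^ 2 : ℝ) : ℂ)
          = ∫ z, ((ρ z * ‖T₁ z‖ ^ 2 : ℝ) : ℂ) := integral_ofReal.symm
      rw [e0]
      have e3 := hρ.integral_congr (f := fun z => (-1 : ℂ) ^ (a' + b) * (T₁ z
        * ∑ u ∈ Finset.range N, E h a φ (-a' - 2 * u) n z * E h a φ (-b + 2 * u) n z))
        (f' := fun z => ((‖T₁ z‖ ^ 2 : ℝ) : ℂ)) (fun z hz => by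
          rw [← Complex.normSq_eq_norm_sq, ← mul_conj]
          have e5 : (starRingEnd ℂ) (T₁ z) = (-1 : ℂ) ^ (a' + b) * ∑ u ∈ Finset.range N,
              E h a φ (-a' - 2 * u) n z * E h a φ (-b + 2 * u) n z := by
            rw [hT₁]
            beta_reduce
            rw [map_sum, Finset.mul_sum]
            refine Finset.sum_congr rfl fun u _ => ?_
            rw [map_mul, S.conj_E _ n z hz, S.conj_E _ n z hz]
            have q1 : (-1 : ℂ) ^ (a' + 2 * (u : ℤ)) * (-1 : ℂ) ^ (b - 2 * (u : ℤ))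
                = (-1 : ℂ) ^ (a' + b) := by
              rw [← zpow_add₀ (by norm_num)]
              congr 1; ring
            have q2 : -(a' + 2 * (u : ℤ)) = -a' - 2 * u := by ring
            have q3 : -(b - 2 * (u : ℤ)) = -b + 2 * u := by ring
            rw [← q1, q2, q3]
            ring
          rw [e5]
          ring)
      refine Eq.trans ?_ (e3.trans ?_)
      · refine MeasureTheory.integral_congr_ae (Filter.Eventually.of_forall fun z => ?_)
        beta_reduce; ring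
      · refine MeasureTheory.integral_congr_ae (Filter.Eventually.of_forall fun z => ?_)
        beta_reduce; push_cast; ring
    have e₂ : ((-1 : ℂ) ^ (c + d) * ∫ z, (ρ z : ℂ) * ((∑ u ∈ Finset.range N,
        E h a φ (-c + 2 * u) n z * E h a φ (-d - 2 * u) n z) * T₂ z)).re
        = ∫ z, ρ z * ‖T₂ z‖ ^ 2 := by
      rw [← ofReal_re (∫ z, ρ z * ‖T₂ z‖ ^ 2), ← integral_const_mul]
      congr 1
      have e0 : ((∫ z, ρ z * ‖T₂ z‖ ^ 2 : ℝ) : ℂ)
          = ∫ z, ((ρ z * ‖T₂ z‖ ^ 2 : ℝ) : ℂ) := integral_ofReal.symm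
      rw [e0]
      have e3 := hρ.integral_congr (f := fun z => (-1 : ℂ) ^ (c + d) * ((∑ u ∈ Finset.range N,
        E h a φ (-c + 2 * u) n z * E h a φ (-d - 2 * u) n z) * T₂ z))
        (f' := fun z => ((‖T₂ z‖ ^ 2 : ℝ) : ℂ)) (fun z hz => by
          rw [← Complex.normSq_eq_norm_sq, ← mul_conj]
          have e5 : (starRingEnd ℂ) (T₂ z) = (-1 : ℂ) ^ (c + d) * ∑ u ∈ Finset.range N,
              E h a φ (-c + 2 * u) n z * E h a φ (-d - 2 * u) n z := by
            rw [hT₂]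
            beta_reduce
            rw [map_sum, Finset.mul_sum]
            refine Finset.sum_congr rfl fun u _ => ?_
            rw [map_mul, S.conj_E _ n z hz, S.conj_E _ n z hz]
            have q1 : (-1 : ℂ) ^ (c - 2 * (u : ℤ)) * (-1 : ℂ) ^ (d + 2 * (u : ℤ))
                = (-1 : ℂ) ^ (c + d) := by
              rw [← zpow_add₀ (by norm_num)]
              congr 1; ring
            have q2 : -(c - 2 * (u : ℤ)) = -c + 2 * u := by ring
            have q3 : -(d + 2 * (u : ℤ)) = -d - 2 * u := by ring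
            rw [← q1, q2, q3]
            ring
          rw [e5]
          ring)
      refine Eq.trans ?_ (e3.trans ?_)
      · refine MeasureTheory.integral_congr_ae (Filter.Eventually.of_forall fun z => ?_)
        beta_reduce; ring
      · refine MeasureTheory.integral_congr_ae (Filter.Eventually.of_forall fun z => ?_)
        beta_reduce; push_cast; ring
    rw [e₁, e₂]
    calc ‖∫ z, (ρ z : ℂ) * (T₁ z * T₂ z)‖
        ≤ ∫ z, ‖(ρ z : ℂ) * (T₁ z * T₂ z)‖ := norm_integral_le_integral_norm _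
      _ ≤ ∫ z, (ρ z * ‖T₁ z‖ ^ 2 + ρ z * ‖T₂ z‖ ^ 2) / 2 := by
          refine integral_mono_of_nonneg (Filter.Eventually.of_forall fun z => norm_nonneg _)
            ((i₁.add i₂).div_const 2) (Filter.Eventually.of_forall fun z => ?_)
          beta_reduce
          rw [norm_mul, norm_mul, Complex.norm_real, Real.norm_of_nonneg (hρ0 z)]
          have h1 : ‖T₁ z‖ * ‖T₂ z‖ ≤ (‖T₁ z‖ ^ 2 + ‖T₂ z‖ ^ 2) / 2 := by
            nlinarith [sq_nonneg (‖T₁ z‖ - ‖T₂ z‖)]
          have := mul_le_mul_of_nonneg_left h1 (hρ0 z)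
          linarith
      _ = ((∫ z, ρ z * ‖T₁ z‖ ^ 2) + ∫ z, ρ z * ‖T₂ z‖ ^ 2) / 2 := by
          rw [integral_div, integral_add i₁ i₂]
  · rw [← hZ]
    exact h3

/-- **kurtosis three implies Gaussian four-jet correlations**, for all total indices -/
theorem LocalQE.jets_full {g : ℂ → ℝ} {φ : ℕ → ℂ → ℂ} (H : LocalQE U g h φ) (hU : IsOpen U)
    (hg : ContDiffOn ℝ ∞ g U) (hgpos : ∀ z ∈ U, 0 < g z) (hb : LBdd 4 U φ)
    (h3 : ∀ ρ : ℂ → ℝ, Test U (fun z => (ρ z : ℂ)) → (∀ z, 0 ≤ ρ z) →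
      Tendsto (fun n => ∫ z, (ρ z : ℂ) * (φ n z * φ n z * (φ n z * φ n z))) atTop
      (𝓝 (3 * ∫ z, (ρ z : ℂ)))) {ζ : ℂ → ℂ} (hζ : Test U ζ) (j m k l : ℤ) :
    Tendsto (fun n => ∫ z, ζ z * (E h (wt g) φ j n z * E h (wt g) φ m n z
        * (E h (wt g) φ k n z * E h (wt g) φ l n z))) atTop (𝓝 (G j m k l * ∫ z, ζ z)) := by
  have S := setup_of_local hU hg hgpos H hb
  have s4 := fun n j m k l => ((S.sm2 j m).mul (S.sm2 k l)) n
  have key := Test.induct_nonneg S.op (F := fun n ζ =>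
      (∫ z, ζ z * (E h (wt g) φ j n z * E h (wt g) φ m n z
        * (E h (wt g) φ k n z * E h (wt g) φ l n z))) - G j m k l * (∫ z, ζ z)) ?_ ?_ ?_ hζ
  · have := key.add_const (G j m k l * ∫ z, ζ z)
    rw [zero_add] at this
    refine this.congr fun n => ?_
    ring
  · intro n ζ ξ hζ hξ
    beta_reduce
    rw [Test.int_add S.op (s4 n j m k l) hζ hξ, Test.integral_add' hζ hξ]
    ring
  · intro n c ζ _
    beta_reduce
    rw [Test.int_smul, integral_const_mul]
    ring
  · intro ρ hρ hρ0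
    have := (S.jets_full (S.two_pt H) hρ hρ0 (h3 ρ hρ hρ0) j m k l).sub_const
      (G j m k l * ∫ z, (ρ z : ℂ))
    rw [sub_self] at this
    exact this

end

end QE
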