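import Pool.Agent.Lib_helper67.QE.WLimTools

/-!
Positivity properties of the weak limits of the products of two jets.
-/

open MeasureTheory Filter Topology
open scoped ContDiff

namespace QE

noncomputable section

variable {U : Set ℂ} {h : ℕ → ℝ} {g a : ℂ → ℂ} {φ : ℕ → ℂ → ℂ}

/-- the family `u` consists of the weak limits of the products of two jets -/
def JLim (U : Set ℂ) (h : ℕ → ℝ) (a : ℂ → ℂ) (φ : ℕ → ℂ → ℂ) (u : ℤ → ℂ → ℂ) : Prop :=
  ∀ j m : ℤ, WLim U (fun n z => E h a φ j n z * E h a φ m n z) (fun z => (-1) ^ j * u (j + m) z)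

namespace Setup

variable (S : Setup U g a h φ)

include S

theorem smooth_EE (j m : ℤ) : SmoothSeq U (fun n z => E h a φ j n z * E h a φ m n z) :=
  (S.tame_E j).smooth.mul (S.tame_E m).smooth

theorem conj_E' (j : ℤ) (n : ℕ) (z : ℂ) (hz : z ∈ U) :
    (starRingEnd ℂ) (E h a φ j n z) = (-1) ^ j * E h a φ (-j) n z := by
  cases j with
  | ofNat m =>
    have h1 := S.E_neg m n z hz
    have h2 : -(Int.ofNat m) = -(m : ℤ) := rfl
    rw [h2, h1]
    show _ = (-1) ^ (m : ℤ) * _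
    rw [zpow_natCast, ← mul_assoc, ← mul_pow]
    have : ((-1 : ℂ) * -1) ^ m = 1 := by norm_num
    rw [this, one_mul]
    rfl
  | negSucc m =>
    have h2 : -(Int.negSucc m) = Int.ofNat (m + 1) := by simp [Int.neg_negSucc]
    rw [h2]
    show (starRingEnd ℂ) ((-1) ^ (m + 1) * (starRingEnd ℂ) (jet h a φ (m + 1) n z))
      = (-1) ^ (Int.negSucc m) * jet h a φ (m + 1) n z
    rw [map_mul, starRingEnd_self_apply, zpow_negSucc, map_pow]
    congr 1
    rw [← inv_pow]
    norm_num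

variable {u : ℤ → ℂ → ℂ} (hl : ∀ k, LocL2 U (u k)) (hw : JLim U h a φ u)

include hl hw

theorem lim_zero (k : ℤ) : WLim U (fun n z => E h a φ 0 n z * E h a φ k n z) (u k) :=
  (hw 0 k).congr_right fun z _ => by rw [zpow_zero, one_mul, zero_add]

theorem lim_odd (k : ℤ) (hk : Odd k) : ∀ᵐ z ∂((volume : Measure ℂ).restrict U), u k z = 0 := by
  have h1 := S.lim_zero hl hw k
  have h2 : WLim U (fun n z => E h a φ 0 n z * E h a φ k n z) (fun z => (-1) ^ k * u k z) :=
    ((hw k 0).congr fun n z _ => mul_comm _ _).congr_right fun z _ => by rw [add_zero]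
  have h3 := h1.unique S.op h2 (hl k) ((hl k).const_mul _)
  filter_upwards [h3] with z hz
  rw [hk.neg_one_zpow] at hz
  have : 2 * u k z = 0 := by linear_combination hz
  exact (mul_eq_zero.1 this).resolve_left two_ne_zero

theorem lim_conj (k : ℤ) : ∀ᵐ z ∂((volume : Measure ℂ).restrict U),
    u (-k) z = (starRingEnd ℂ) (u k z) := by
  rcases Int.even_or_odd k with hk | hk
  · have h1 := (S.lim_zero hl hw k).conj
    have h2 : WLim U (fun n z => (starRingEnd ℂ) (E h a φ 0 n z * E h a φ k n z)) (u (-k)) := by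
      refine (S.lim_zero hl hw (-k)).congr fun n z hz => ?_
      rw [map_mul, S.conj_E' 0 n z hz, S.conj_E' k n z hz, hk.neg_one_zpow]
      simp
    exact h2.unique S.op h1 (hl (-k)) ((hl k).conj)
  · filter_upwards [S.lim_odd hl hw k hk, S.lim_odd hl hw (-k) hk.neg] with z h1 h2
    rw [h1, h2, map_zero]

theorem lim_real : ∀ᵐ z ∂((volume : Measure ℂ).restrict U), 0 ≤ (u 0 z).re ∧ (u 0 z).im = 0 := by
  have h1 := (S.lim_zero hl hw 0).nonneg S.op (hl 0) (fun n z hz => by
    have hr : (starRingEnd ℂ) (E h a φ 0 n z) = E h a φ 0 n z := S.real n z hz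
    have h2 : E h a φ 0 n z * E h a φ 0 n z = ((Complex.normSq (E h a φ 0 n z) : ℝ) : ℂ) := by
      rw [← Complex.mul_conj, hr]
    rw [h2, Complex.ofReal_re]
    exact Complex.normSq_nonneg _) (S.smooth_EE 0 0)
  filter_upwards [h1, S.lim_conj hl hw 0] with z h2 h3
  refine ⟨h2, ?_⟩
  rw [neg_zero] at h3
  exact Complex.conj_eq_iff_im.1 h3.symm

/-- `E_j conj(E_l)` has the weak limit `(-1)^{j+l} u_{j-l}` -/
theorem lim_mul_conj (j l : ℤ) : WLim U (fun n z => E h a φ j n z * (starRingEnd ℂ) (E h a φ l n z))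
    (fun z => (-1) ^ (j + l) * u (j - l) z) := by
  have h1 := (hw j (-l)).const_mul ((-1) ^ l)
  refine (h1.congr fun n z hz => ?_).congr_right fun z _ => ?_
  · rw [S.conj_E' l n z hz]; ring
  · rw [zpow_add₀ (by norm_num), sub_eq_add_neg]; ring

theorem lim_pos (N : ℕ) (w : ℂ) (hw1 : ‖w‖ = 1) : ∀ᵐ z ∂((volume : Measure ℂ).restrict U),
    0 ≤ (∑ j ∈ Finset.range N, ∑ l ∈ Finset.range N, u ((j : ℤ) - l) z * w ^ ((j : ℤ) - l)).re := by
  have hw0 : w ≠ 0 := by
    intro h0; rw [h0, norm_zero] at hw1; exact one_ne_zero hw1.symm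
  have hcw : (starRingEnd ℂ) w = w⁻¹ := by
    rw [Complex.inv_def, Complex.normSq_eq_norm_sq, hw1]; simp
  set c : ℤ → ℤ → ℂ := fun j l => ((-1) ^ j * w ^ j) * (starRingEnd ℂ) ((-1) ^ l * w ^ l) with hc
  have hce : ∀ j l : ℤ, c j l = (-1) ^ (j + l) * w ^ (j - l) := by
    intro j l
    rw [hc]
    simp only [map_mul, map_zpow₀, hcw, map_neg, map_one]
    rw [zpow_add₀ (by norm_num), zpow_sub₀ hw0, inv_zpow]
    ring
  have h1 : ∀ j ∈ Finset.range N, ∀ l ∈ Finset.range N,
      WLim U (fun n z => c j l * (E h a φ j n z * (starRingEnd ℂ) (E h a φ l n z)))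
        (fun z => u ((j : ℤ) - l) z * w ^ ((j : ℤ) - l)) := by
    intro j _ l _
    refine ((S.lim_mul_conj hl hw j l).const_mul (c j l)).congr_right fun z _ => ?_
    rw [hce, ← mul_assoc, mul_comm ((-1 : ℂ) ^ ((j : ℤ) + l) * w ^ ((j : ℤ) - l)), ← mul_assoc,
      ← zpow_add₀ (by norm_num : (-1 : ℂ) ≠ 0)]
    rw [(Even.neg_one_zpow ⟨(j : ℤ) + l, rfl⟩ : (-1 : ℂ) ^ ((j : ℤ) + l + ((j : ℤ) + l)) = 1)]
    ring
  have s1 : ∀ j ∈ Finset.range N, ∀ l ∈ Finset.range N,
      SmoothSeq U (fun n z => c j l * (E h a φ j n z * (starRingEnd ℂ) (E h a φ l n z))) :=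
    fun j _ l _ => ((S.tame_E j).smooth.mul (S.tame_E l).smooth.conj).const_mul _
  have l1 : ∀ j ∈ Finset.range N, ∀ l ∈ Finset.range N,
      LocL2 U (fun z => u ((j : ℤ) - l) z * w ^ ((j : ℤ) - l)) := by
    intro j _ l _ K hK hKU
    exact ((hl ((j : ℤ) - l)).const_mul (w ^ ((j : ℤ) - l)) K hK hKU).ae_eq
      (Filter.Eventually.of_forall fun z => mul_comm _ _)
  have h2 : WLim U (fun n z => ∑ j ∈ Finset.range N, ∑ l ∈ Finset.range N,
      c j l * (E h a φ j n z * (starRingEnd ℂ) (E h a φ l n z)))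
      (fun z => ∑ j ∈ Finset.range N, ∑ l ∈ Finset.range N,
        u ((j : ℤ) - l) z * w ^ ((j : ℤ) - l)) := by
    refine WLim.sum _ (fun j hj => WLim.sum _ (fun l hl' => h1 j hj l hl') (fun l hl' => s1 j hj l hl')
      (fun l hl' => l1 j hj l hl')) (fun j hj n => ContDiffOn.sum fun l hl' => s1 j hj l hl' n)
      (fun j hj => LocL2.sum _ fun l hl' => l1 j hj l hl')
  refine h2.nonneg S.op (LocL2.sum _ fun j hj => LocL2.sum _ fun l hl' => l1 j hj l hl')
    (fun n z _ => ?_) (fun n => ContDiffOn.sum fun j hj => ContDiffOn.sum fun l hl' => s1 j hj l hl' n)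
  have e : ∑ j ∈ Finset.range N, ∑ l ∈ Finset.range N,
      c j l * (E h a φ j n z * (starRingEnd ℂ) (E h a φ l n z))
      = ((Complex.normSq (∑ j ∈ Finset.range N, (-1) ^ (j : ℤ) * w ^ (j : ℤ) * E h a φ j n z) : ℝ)
        : ℂ) := by
    rw [← Complex.mul_conj, map_sum, Finset.sum_mul_sum]
    refine Finset.sum_congr rfl fun j _ => Finset.sum_congr rfl fun l _ => ?_
    rw [hc]
    simp only [map_mul]
    ring
  rw [e, Complex.ofReal_re]
  exact Complex.normSq_nonneg _

theorem lim_bound (k : ℤ) : ∀ᵐ z ∂((volume : Measure ℂ).restrict U), ‖u k z‖ ≤ (u 0 z).re := by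
  -- for each unimodular `c`, `re (c u_k) ≤ re u_0`
  have key : ∀ c : ℂ, ‖c‖ = 1 → ∀ᵐ z ∂((volume : Measure ℂ).restrict U),
      (c * u k z).re ≤ (u 0 z).re := by
    intro c hc
    have t1 := S.lim_mul_conj hl hw 0 0
    have t2 := S.lim_mul_conj hl hw k k
    have t3 := (S.lim_zero hl hw k).const_mul (-2 * c)
    have s1 : SmoothSeq U (fun n z => E h a φ 0 n z * (starRingEnd ℂ) (E h a φ 0 n z)) :=
      (S.tame_E 0).smooth.mul (S.tame_E 0).smooth.conj
    have s2 : SmoothSeq U (fun n z => E h a φ k n z * (starRingEnd ℂ) (E h a φ k n z)) :=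
      (S.tame_E k).smooth.mul (S.tame_E k).smooth.conj
    have s3 : SmoothSeq U (fun n z => -2 * c * (E h a φ 0 n z * E h a φ k n z)) :=
      (S.smooth_EE 0 k).const_mul _
    have l1 : LocL2 U (fun z => (-1) ^ ((0 : ℤ) + 0) * u (0 - 0) z) := (hl _).const_mul _
    have l2 : LocL2 U (fun z => (-1) ^ (k + k) * u (k - k) z) := (hl _).const_mul _
    have l3 : LocL2 U (fun z => -2 * c * u k z) := (hl k).const_mul _
    have t4 := (t1.add t2 s1 s2 l1 l2).add t3 (s1.add s2) s3 (l1.add l2) l3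
    have h1 := t4.nonneg S.op ((l1.add l2).add l3) (fun n z hz => by
      have hr : (starRingEnd ℂ) (E h a φ 0 n z) = E h a φ 0 n z := S.real n z hz
      have e1 : (E h a φ 0 n z * (starRingEnd ℂ) (E h a φ 0 n z)).re = ‖E h a φ 0 n z‖ ^ 2 := by
        rw [Complex.mul_conj, Complex.ofReal_re, Complex.normSq_eq_norm_sq]
      have e2 : (E h a φ k n z * (starRingEnd ℂ) (E h a φ k n z)).re = ‖E h a φ k n z‖ ^ 2 := by
        rw [Complex.mul_conj, Complex.ofReal_re, Complex.normSq_eq_norm_sq]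
      have e3 : (-2 * c * (E h a φ 0 n z * E h a φ k n z)).re
          ≥ -(2 * (‖E h a φ 0 n z‖ * ‖E h a φ k n z‖)) := by
        have h5 := Complex.abs_re_le_norm (-2 * c * (E h a φ 0 n z * E h a φ k n z))
        rw [norm_mul, norm_mul, norm_mul, hc] at h5
        have h6 := (abs_le.1 h5).1
        have : ‖(-2 : ℂ)‖ = 2 := by rw [norm_neg]; norm_num
        rw [this] at h6
        linarith
      rw [Complex.add_re, Complex.add_re, e1, e2]
      nlinarith [sq_nonneg (‖E h a φ 0 n z‖ - ‖E h a φ k n z‖)]) ((s1.add s2).add s3)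
    filter_upwards [h1] with z hz
    rw [add_zero, sub_zero, zpow_zero, one_mul, sub_self,
      (Even.neg_one_zpow ⟨k, rfl⟩ : (-1 : ℂ) ^ (k + k) = 1), one_mul, Complex.add_re,
      Complex.add_re] at hz
    have e : (-2 * c * u k z).re = -2 * (c * u k z).re := by
      rw [mul_assoc, show (-2 : ℂ) = ((-2 : ℝ) : ℂ) by norm_num, Complex.re_ofReal_mul]
    rw [e] at hz
    linarith
  -- countable dense set of unimodular numbers
  obtain ⟨s, hsc, hsd⟩ := TopologicalSpace.exists_countable_dense (Metric.sphere (0 : ℂ) 1)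
  have h2 : ∀ᵐ z ∂((volume : Measure ℂ).restrict U), ∀ c ∈ s,
      ((c : ℂ) * u k z).re ≤ (u 0 z).re := by
    rw [ae_ball_iff hsc]
    intro c _
    exact key c (by simpa using c.2)
  filter_upwards [h2] with z hz
  have h3 : ∀ c : Metric.sphere (0 : ℂ) 1, ((c : ℂ) * u k z).re ≤ (u 0 z).re := by
    intro c
    have hcl : IsClosed {c : Metric.sphere (0 : ℂ) 1 | ((c : ℂ) * u k z).re ≤ (u 0 z).re} :=
      isClosed_le (Complex.continuous_re.comp (continuous_subtype_val.mul continuous_const))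
        continuous_const
    exact (hcl.closure_subset_iff.2 (fun c hc => hz c hc)) (hsd c)
  by_cases h0 : u k z = 0
  · have h4 := h3 ⟨1, by simp⟩
    rw [h0] at h4 ⊢
    simpa using h4
  · have hn : (‖u k z‖ : ℂ) ≠ 0 := by
      rw [Complex.ofReal_ne_zero]; exact norm_ne_zero_iff.2 h0
    have h4 := h3 ⟨(starRingEnd ℂ) (u k z) / (‖u k z‖ : ℂ), by
      rw [mem_sphere_zero_iff_norm, norm_div, RCLike.norm_conj, Complex.norm_real, norm_norm,
        div_self (norm_ne_zero_iff.2 h0)]⟩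
    have e : (starRingEnd ℂ) (u k z) / (‖u k z‖ : ℂ) * u k z = (‖u k z‖ : ℂ) := by
      rw [div_mul_eq_mul_div, mul_comm, Complex.mul_conj, Complex.normSq_eq_norm_sq]
      push_cast
      field_simp
    rw [e, Complex.ofReal_re] at h4
    exact h4

end Setup

end

end QE
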