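import Pool.Agent.LibH11.QEV.Local3
import Pool.Agent.Lib_helper67.QE.Var3

/-!
Algebra for the fourth moments of linear statistics of the local waves (helper70).
-/

open Complex MeasureTheory Filter Topology Set
open scoped ContDiff

namespace QE

noncomputable section

/-! ### the coefficients of the Taylor polynomials -/

lemma cc_conj (k : ℕ) : ∀ (j : ℤ) (ξ : ℂ), cc k (-j) ξ = (-1) ^ j * (starRingEnd ℂ) (cc k j ξ) := by
  induction k with
  | zero =>
    intro j ξ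
    by_cases hj : j = 0
    · simp [cc, hj]
    · simp [cc, hj]
  | succ k ih =>
    intro j ξ
    have e1 : -j - 1 = -(j + 1) := by ring
    have e2 : -j + 1 = -(j - 1) := by ring
    rw [cc_succ, cc_succ, e1, e2, ih, ih, zpow_add_one₀ (by norm_num), zpow_sub_one₀ (by norm_num)]
    simp only [map_mul, map_add, map_div₀, conj_I, starRingEnd_self_apply, map_ofNat]
    have : ((-1 : ℂ))⁻¹ = -1 := by norm_num
    rw [this]
    ring

lemma CN_conj (N : ℕ) (j : ℤ) (y : ℂ) : CN N (-j) y = (-1) ^ j * (starRingEnd ℂ) (CN N j y) := by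
  unfold CN
  rw [map_sum, Finset.mul_sum]
  refine Finset.sum_congr rfl fun k _ => ?_
  rw [cc_conj, Complex.real_smul, Complex.real_smul, map_mul, conj_ofReal]
  ring

/-! ### sums over four indices -/

lemma sum_pi4 {α : Type*} (I : Finset α) (F : α → α → α → α → ℂ) :
    ∑ p ∈ Fintype.piFinset (fun _ : Fin 4 => I), F (p 0) (p 1) (p 2) (p 3)
      = ∑ a ∈ I, ∑ b ∈ I, ∑ c ∈ I, ∑ d ∈ I, F a b c d := by
  have e : ∑ a ∈ I, ∑ b ∈ I, ∑ c ∈ I, ∑ d ∈ I, F a b c d
      = ∑ q ∈ I ×ˢ (I ×ˢ (I ×ˢ I)), F q.1 q.2.1 q.2.2.1 q.2.2.2 := by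
    rw [Finset.sum_product]
    refine Finset.sum_congr rfl fun a _ => ?_
    rw [Finset.sum_product]
    refine Finset.sum_congr rfl fun b _ => ?_
    rw [Finset.sum_product]
  rw [e]
  refine Finset.sum_nbij' (fun p => (p 0, (p 1, (p 2, p 3)))) (fun q => ![q.1, q.2.1, q.2.2.1, q.2.2.2])
    ?_ ?_ ?_ ?_ ?_
  · intro p hp
    rw [Fintype.mem_piFinset] at hp
    simp only [Finset.mem_product]
    exact ⟨hp 0, hp 1, hp 2, hp 3⟩
  · intro q hq
    simp only [Finset.mem_product] at hq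
    rw [Fintype.mem_piFinset]
    intro i
    fin_cases i
    · exact hq.1
    · exact hq.2.1
    · exact hq.2.2.1
    · exact hq.2.2.2
  · intro p _
    funext i
    fin_cases i <;> rfl
  · intro q _
    rfl
  · intro p _
    rfl

lemma sum_pi2 {α : Type*} (I : Finset α) (F : α → α → ℂ) :
    ∑ p ∈ Fintype.piFinset (fun _ : Fin 2 => I), F (p 0) (p 1) = ∑ a ∈ I, ∑ b ∈ I, F a b := by
  have e : ∑ a ∈ I, ∑ b ∈ I, F a b = ∑ q ∈ I ×ˢ I, F q.1 q.2 := by
    rw [Finset.sum_product]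
  rw [e]
  refine Finset.sum_nbij' (fun p => (p 0, p 1)) (fun q => ![q.1, q.2]) ?_ ?_ ?_ ?_ ?_
  · intro p hp
    rw [Fintype.mem_piFinset] at hp
    simp only [Finset.mem_product]
    exact ⟨hp 0, hp 1⟩
  · intro q hq
    simp only [Finset.mem_product] at hq
    rw [Fintype.mem_piFinset]
    intro i
    fin_cases i
    · exact hq.1
    · exact hq.2
  · intro p _
    funext i
    fin_cases i <;> rfl
  · intro q _
    rfl
  · intro p _
    rfl

/-- exchange of the second and the third index -/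
lemma sum4_23 (I : Finset ℤ) (F : ℤ → ℤ → ℤ → ℤ → ℂ) :
    ∑ a ∈ I, ∑ b ∈ I, ∑ c ∈ I, ∑ d ∈ I, F a c b d = ∑ a ∈ I, ∑ b ∈ I, ∑ c ∈ I, ∑ d ∈ I, F a b c d :=
  Finset.sum_congr rfl fun _ _ => Finset.sum_comm

/-- exchange of the third and the fourth index -/
lemma sum4_34 (I : Finset ℤ) (F : ℤ → ℤ → ℤ → ℤ → ℂ) :
    ∑ a ∈ I, ∑ b ∈ I, ∑ c ∈ I, ∑ d ∈ I, F a b d c = ∑ a ∈ I, ∑ b ∈ I, ∑ c ∈ I, ∑ d ∈ I, F a b c d :=
  Finset.sum_congr rfl fun _ _ => Finset.sum_congr rfl fun _ _ => Finset.sum_comm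

/-- the coefficients of the square -/
def cS (I : Finset ℤ) (t : ℤ → ℂ) (s : ℤ) : ℂ :=
  ∑ a ∈ I, ∑ b ∈ I, if a + b = s then (-1) ^ a * (t a * t b) else 0

/-- the paired sums -/
lemma pairing (I J : Finset ℤ) (hJ : ∀ a ∈ I, ∀ b ∈ I, a + b ∈ J) (t w : ℤ → ℂ) :
    ∑ a ∈ I, ∑ b ∈ I, ∑ c ∈ I, ∑ d ∈ I, (if a + b + c + d = 0 then
      (t a * t b * t c * t d) * ((-1) ^ a * (-1) ^ c * w (a + b)) else 0)
      = ∑ s ∈ J, cS I t s * cS I t (-s) * w s := by
  have e1 : ∀ s, cS I t s * cS I t (-s) * w s = ∑ a ∈ I, ∑ b ∈ I, ∑ c ∈ I, ∑ d ∈ I,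
      (if a + b = s then (-1) ^ a * (t a * t b) else 0)
        * (if c + d = -s then (-1) ^ c * (t c * t d) else 0) * w s := by
    intro s
    unfold cS
    rw [mul_assoc, Finset.sum_mul]
    refine Finset.sum_congr rfl fun a _ => ?_
    rw [Finset.sum_mul]
    refine Finset.sum_congr rfl fun b _ => ?_
    rw [← mul_assoc, Finset.mul_sum, Finset.sum_mul]
    refine Finset.sum_congr rfl fun c _ => ?_
    rw [Finset.mul_sum, Finset.sum_mul]
  have e2 : ∀ G : ℤ → ℤ → ℤ → ℤ → ℤ → ℂ,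
      ∑ s ∈ J, ∑ a ∈ I, ∑ b ∈ I, ∑ c ∈ I, ∑ d ∈ I, G s a b c d
        = ∑ a ∈ I, ∑ b ∈ I, ∑ c ∈ I, ∑ d ∈ I, ∑ s ∈ J, G s a b c d := by
    intro G
    rw [Finset.sum_comm]
    refine Finset.sum_congr rfl fun a _ => ?_
    rw [Finset.sum_comm]
    refine Finset.sum_congr rfl fun b _ => ?_
    rw [Finset.sum_comm]
    refine Finset.sum_congr rfl fun c _ => ?_
    rw [Finset.sum_comm]
  simp only [e1]
  rw [e2]
  refine Finset.sum_congr rfl fun a ha => Finset.sum_congr rfl fun b hb =>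
    Finset.sum_congr rfl fun c _ => Finset.sum_congr rfl fun d _ => ?_
  rw [Finset.sum_eq_single (a + b)]
  · rw [if_pos rfl]
    by_cases h : a + b + c + d = 0
    · rw [if_pos h, if_pos (by omega)]
      ring
    · rw [if_neg h, if_neg (by omega)]
      ring
  · intro s _ hs
    rw [if_neg (fun h => hs h.symm)]
    ring
  · intro h
    exact absurd (hJ a ha b hb) h

/-- the coefficients of the square of a real function -/
lemma cS_neg {I : Finset ℤ} (hI : ∀ a, a ∈ I ↔ -a ∈ I) {t : ℤ → ℂ}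
    (ht : ∀ j, t (-j) = (-1) ^ j * (starRingEnd ℂ) (t j)) (s : ℤ) :
    cS I t (-s) = (starRingEnd ℂ) (cS I t s) := by
  unfold cS
  have hneg : ∀ F : ℤ → ℂ, ∑ a ∈ I, F a = ∑ a ∈ I, F (-a) := by
    intro F
    refine Finset.sum_nbij' (fun a => -a) (fun a => -a) (fun a ha => (hI a).1 ha)
      (fun a ha => (hI a).1 ha) (fun a _ => neg_neg a) (fun a _ => neg_neg a) (fun a _ => ?_)
    rw [neg_neg]
  rw [hneg]
  simp only [map_sum]
  have e1 : ∀ a, ∑ b ∈ I, (if -a + b = -s then (-1 : ℂ) ^ (-a) * (t (-a) * t b) else 0)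
      = ∑ b ∈ I, (if -a + -b = -s then (-1) ^ (-a) * (t (-a) * t (-b)) else 0) := fun a =>
    hneg _
  simp only [e1]
  rw [Finset.sum_comm]
  refine Finset.sum_congr rfl fun b _ => Finset.sum_congr rfl fun a _ => ?_
  by_cases h : b + a = s
  · rw [if_pos (show -a + -b = -s by omega), if_pos h, ht, ht, map_mul, map_mul, map_zpow₀, map_neg,
      map_one]
    have h1 : (-1 : ℂ) ^ (-a) * (-1) ^ a = 1 := by
      rw [← zpow_add₀ (by norm_num)]; simp
    linear_combination ((starRingEnd ℂ) (t a) * ((-1) ^ b * (starRingEnd ℂ) (t b))) * h1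
  · rw [if_neg (show ¬ (-a + -b = -s) by omega), if_neg h, map_zero]

end

end QE
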