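import Pool.Agent.Lib_helper67.QE.LinAlg

/-!
The fourth moments of linear statistics of the local waves: the local formula (helper70).
-/

open Complex MeasureTheory Filter Topology Set
open scoped ContDiff

namespace QE

noncomputable section

variable {U : Set ℂ} {h : ℕ → ℝ} {a : ℂ → ℂ} {g : ℂ → ℂ} {φ : ℕ → ℂ → ℂ} {u : ℤ → ℂ → ℂ}

/-- the integrals of the Wick sums of total index zero -/
theorem Gam_total (S : Setup U g a h φ) (L : JetLim U h a φ u) {ρ : ℂ → ℝ}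
    (hρ : Test U (fun z => (ρ z : ℂ))) (j m k l : ℤ) (hs : j + m + k + l = 0) :
    Gam u (fun z => (ρ z : ℂ)) j m k l
      = (-1) ^ j * (-1) ^ k * (UU u ρ (j + m) : ℂ) + (-1) ^ j * (-1) ^ m * (UU u ρ (j + k) : ℂ)
        + (-1) ^ j * (-1) ^ m * (UU u ρ (j + l) : ℂ) := by
  have hc : ∀ᵐ z ∂((volume : Measure ℂ).restrict U), ∀ k, u (-k) z = (starRingEnd ℂ) (u k z) :=
    ae_all_iff.2 fun k => L.conj S k
  have hG : ∀ᵐ z ∂((volume : Measure ℂ).restrict U), GW u j m k l z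
      = (-1) ^ j * (-1) ^ k * ((‖u (j + m) z‖ ^ 2 : ℝ) : ℂ)
        + (-1) ^ j * (-1) ^ m * ((‖u (j + k) z‖ ^ 2 : ℝ) : ℂ)
        + (-1) ^ j * (-1) ^ m * ((‖u (j + l) z‖ ^ 2 : ℝ) : ℂ) := by
    filter_upwards [hc] with z hz
    have hn : ∀ k, u k z * u (-k) z = ((‖u k z‖ ^ 2 : ℝ) : ℂ) := by
      intro k
      rw [hz, mul_conj, Complex.normSq_eq_norm_sq]
    rw [← hn, ← hn, ← hn]
    unfold GW WW
    have e1 : k + l = -(j + m) := by omega
    have e2 : m + l = -(j + k) := by omega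
    have e3 : m + k = -(j + l) := by omega
    rw [e1, e2, e3]
    ring
  unfold Gam
  rw [hρ.congr_ae S.op hG]
  have i1 : Integrable (fun z => ((ρ z * ‖u (j + m) z‖ ^ 2 : ℝ) : ℂ)) volume :=
    (hρ.int_sq (L.loc (j + m))).ofReal
  have i2 : Integrable (fun z => ((ρ z * ‖u (j + k) z‖ ^ 2 : ℝ) : ℂ)) volume :=
    (hρ.int_sq (L.loc (j + k))).ofReal
  have i3 : Integrable (fun z => ((ρ z * ‖u (j + l) z‖ ^ 2 : ℝ) : ℂ)) volume :=
    (hρ.int_sq (L.loc (j + l))).ofReal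
  have eU : ∀ s : ℤ, (UU u ρ s : ℂ) = ∫ z, ((ρ z * ‖u s z‖ ^ 2 : ℝ) : ℂ) := fun s =>
    integral_ofReal.symm
  rw [eU, eU, eU, ← integral_const_mul, ← integral_const_mul, ← integral_const_mul,
    ← integral_add_three' (i1.const_mul _) (i2.const_mul _) (i3.const_mul _)]
  refine integral_congr_ae (Filter.Eventually.of_forall fun z => ?_)
  beta_reduce
  push_cast
  ring

/-- the sum over the paired indices -/
lemma sum_three (I : Finset ℤ) (t w : ℤ → ℂ) :
    ∑ a ∈ I, ∑ b ∈ I, ∑ c ∈ I, ∑ d ∈ I, (if a + b + c + d = 0 then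
      (t a * t b * t c * t d) * ((-1) ^ a * (-1) ^ c * w (a + b) + (-1) ^ a * (-1) ^ b * w (a + c)
        + (-1) ^ a * (-1) ^ b * w (a + d)) else 0)
      = 3 * ∑ a ∈ I, ∑ b ∈ I, ∑ c ∈ I, ∑ d ∈ I, (if a + b + c + d = 0 then
      (t a * t b * t c * t d) * ((-1) ^ a * (-1) ^ c * w (a + b)) else 0) := by
  set H : ℤ → ℤ → ℤ → ℤ → ℂ := fun a b c d => if a + b + c + d = 0 then
      (t a * t b * t c * t d) * ((-1) ^ a * (-1) ^ c * w (a + b)) else 0 with hH
  have e1 := sum4_23 I H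
  have e2 := sum4_34 I (fun a b c d => H a c b d)
  rw [e1] at e2
  have e3 : ∀ a b c d : ℤ, (if a + b + c + d = 0 then
      (t a * t b * t c * t d) * ((-1) ^ a * (-1) ^ c * w (a + b) + (-1) ^ a * (-1) ^ b * w (a + c)
        + (-1) ^ a * (-1) ^ b * w (a + d)) else 0) = H a b c d + H a c b d + H a d b c := by
    intro a b c d
    simp only [hH]
    by_cases h : a + b + c + d = 0
    · rw [if_pos h, if_pos h, if_pos (by omega), if_pos (by omega)]
      ring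
    · rw [if_neg h, if_neg h, if_neg (by omega), if_neg (by omega)]
      ring
  simp only [e3, Finset.sum_add_distrib]
  rw [e1, e2]
  ring

lemma sum_pat (I : Finset ℤ) (t : ℤ → ℂ) :
    ∑ a ∈ I, ∑ b ∈ I, ∑ c ∈ I, ∑ d ∈ I, (if a + b + c + d = 0 then
      (t a * t b * t c * t d) * pat a b c d else 0)
      = ∑ a ∈ I, ∑ b ∈ I, ∑ c ∈ I, ∑ d ∈ I, (if a + b + c + d = 0 then
      (t a * t b * t c * t d) * ((-1) ^ a * (-1) ^ c * 1) else 0) := by
  set H : ℤ → ℤ → ℤ → ℤ → ℂ := fun a b c d => if a + b + c + d = 0 then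
      (t a * t b * t c * t d) * ((-1) ^ a * (-1) ^ c * 1) else 0 with hH
  have e1 := sum4_23 I H
  have e2 := sum4_34 I H
  have e3 : ∀ a b c d : ℤ, (if a + b + c + d = 0 then
      (t a * t b * t c * t d) * pat a b c d else 0)
      = (1 / 3) * H a c b d + (1 / 3) * H a b c d + (1 / 3) * H a b d c := by
    intro a b c d
    simp only [hH]
    by_cases h : a + b + c + d = 0
    · rw [if_pos h, if_pos h, if_pos (by omega), if_pos (by omega), pat_eq h]
      ring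
    · rw [if_neg h, if_neg h, if_neg (by omega), if_neg (by omega)]
      ring
  simp only [e3, Finset.sum_add_distrib, ← Finset.mul_sum]
  rw [e1, e2]
  ring

/-- **the fourth moments of linear combinations of jets** -/
theorem lin_jets (S : Setup U g a h φ) (L : JetLim U h a φ u) {ρ : ℂ → ℝ}
    (hρ : Test U (fun z => (ρ z : ℂ))) (I J : Finset ℤ) (hJ : ∀ a ∈ I, ∀ b ∈ I, a + b ∈ J)
    (t : ℤ → ℂ) :
    Tendsto (fun n => (∑ j ∈ I, ∑ m ∈ I, ∑ k ∈ I, ∑ l ∈ I, (if j + m + k + l = 0 then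
        (t j * t m * t k * t l) * ∫ z, (ρ z : ℂ) * (E h a φ j n z * E h a φ m n z
          * (E h a φ k n z * E h a φ l n z)) else 0))
      - ∑ s ∈ J, cS I t s * cS I t (-s) * ((3 * UU u ρ s
        + ((∫ z, ρ z * (φ n z).re ^ 4) - 3 * UU u ρ 0) : ℝ) : ℂ)) atTop (𝓝 0) := by
  have hc : ∀ᵐ z ∂((volume : Measure ℂ).restrict U), ∀ k, u (-k) z = (starRingEnd ℂ) (u k z) :=
    ae_all_iff.2 fun k => L.conj S k
  have h1 : ∀ j m k l : ℤ, Tendsto (fun n => if j + m + k + l = 0 then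
      (t j * t m * t k * t l) * (YY h a φ u (fun z => (ρ z : ℂ)) n j m k l
        - pat j m k l * YY h a φ u (fun z => (ρ z : ℂ)) n 0 0 0 0) else 0) atTop (𝓝 0) := by
    intro j m k l
    by_cases hs : j + m + k + l = 0
    · simp only [if_pos hs]
      have := (jets_four_var S L hρ j m k l hs).const_mul (t j * t m * t k * t l)
      rwa [mul_zero] at this
    · simp only [if_neg hs]
      exact tendsto_const_nhds
  have h2 : Tendsto (fun n => ∑ j ∈ I, ∑ m ∈ I, ∑ k ∈ I, ∑ l ∈ I, if j + m + k + l = 0 then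
      (t j * t m * t k * t l) * (YY h a φ u (fun z => (ρ z : ℂ)) n j m k l
        - pat j m k l * YY h a φ u (fun z => (ρ z : ℂ)) n 0 0 0 0) else 0) atTop (𝓝 0) := by
    have h3 := tendsto_finsetSum I fun j (_ : j ∈ I) => tendsto_finsetSum I fun m (_ : m ∈ I) =>
      tendsto_finsetSum I fun k (_ : k ∈ I) => tendsto_finsetSum I fun l (_ : l ∈ I) => h1 j m k l
    have e0 : ∑ j ∈ I, ∑ m ∈ I, ∑ k ∈ I, ∑ l ∈ I, (0 : ℂ) = 0 := by simp
    rw [e0] at h3
    exact h3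
  refine h2.congr fun n => ?_
  set e : ℝ := (∫ z, ρ z * (φ n z).re ^ 4) - 3 * UU u ρ 0 with he
  have hY0 : YY h a φ u (fun z => (ρ z : ℂ)) n 0 0 0 0 = (e : ℂ) := by
    unfold YY
    rw [S.fourth_eq hρ, Gam_zero S.op L.loc hc hρ, he, ofReal_sub]
  -- the Wick part
  have p1 := sum_three I t (fun s => (UU u ρ s : ℂ))
  rw [pairing I J hJ t (fun s => (UU u ρ s : ℂ))] at p1
  have p2 := sum_pat I t
  rw [pairing I J hJ t (fun _ => 1)] at p2
  have e1 : ∀ j m k l : ℤ, (if j + m + k + l = 0 then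
      (t j * t m * t k * t l) * (YY h a φ u (fun z => (ρ z : ℂ)) n j m k l
        - pat j m k l * YY h a φ u (fun z => (ρ z : ℂ)) n 0 0 0 0) else 0)
      = (if j + m + k + l = 0 then
        (t j * t m * t k * t l) * ∫ z, (ρ z : ℂ) * (E h a φ j n z * E h a φ m n z
          * (E h a φ k n z * E h a φ l n z)) else 0)
        - (if j + m + k + l = 0 then
      (t j * t m * t k * t l) * ((-1) ^ j * (-1) ^ k * (UU u ρ (j + m) : ℂ)
        + (-1) ^ j * (-1) ^ m * (UU u ρ (j + k) : ℂ)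
        + (-1) ^ j * (-1) ^ m * (UU u ρ (j + l) : ℂ)) else 0)
        - (if j + m + k + l = 0 then (t j * t m * t k * t l) * pat j m k l else 0) * (e : ℂ) := by
    intro j m k l
    by_cases hs : j + m + k + l = 0
    · simp only [if_pos hs]
      rw [hY0]
      unfold YY
      rw [Gam_total S L hρ j m k l hs]
      ring
    · simp only [if_neg hs]
      ring
  simp only [e1, Finset.sum_sub_distrib, ← Finset.sum_mul]
  rw [p1, p2, sub_sub]
  congr 1
  rw [Finset.mul_sum, Finset.sum_mul, ← Finset.sum_add_distrib]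
  refine Finset.sum_congr rfl fun s _ => ?_
  push_cast
  ring

/-- **the lower bound for linear combinations of jets** -/
theorem lin_jets_lower (S : Setup U g a h φ) (L : JetLim U h a φ u) {ρ : ℂ → ℝ}
    (hρs : ContDiff ℝ ∞ ρ) (hρc : HasCompactSupport ρ) (hρU : tsupport ρ ⊆ U) (hρ0 : ∀ z, 0 ≤ ρ z)
    (hN : Tendsto (fun N : ℕ => (1 / (N : ℝ)) * ∑ k ∈ Finset.Ioo (-(N : ℤ)) (N : ℤ),
      ∫ z, ρ z * ‖u k z‖ ^ 2) atTop (𝓝 0)) (N : ℕ) {t : ℤ → ℂ}
    (ht : ∀ j, t (-j) = (-1) ^ j * (starRingEnd ℂ) (t j)) {ε : ℝ} (hε : 0 < ε) :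
    ∀ᶠ n in atTop, ‖cS (Finset.Icc (-(N : ℤ)) N) t 0‖ ^ 2 * (∫ z, ρ z * (φ n z).re ^ 4) - ε
      ≤ (∑ j ∈ Finset.Icc (-(N : ℤ)) N, ∑ m ∈ Finset.Icc (-(N : ℤ)) N,
        ∑ k ∈ Finset.Icc (-(N : ℤ)) N, ∑ l ∈ Finset.Icc (-(N : ℤ)) N,
        (if j + m + k + l = 0 then
        (t j * t m * t k * t l) * ∫ z, (ρ z : ℂ) * (E h a φ j n z * E h a φ m n z
          * (E h a φ k n z * E h a φ l n z)) else 0)).re := by
  have hT : Test U (fun z => (ρ z : ℂ)) := by
    refine ⟨ofRealCLM.contDiff.comp hρs, ?_, ?_⟩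
    · unfold HasCompactSupport
      rw [Test.tsupport_eq]
      exact hρc
    · rw [Test.tsupport_eq]; exact hρU
  set I := Finset.Icc (-(N : ℤ)) (N : ℤ) with hI
  set J := Finset.Icc (-(2 * N : ℤ)) (2 * N : ℤ) with hJdef
  have hJ : ∀ a ∈ I, ∀ b ∈ I, a + b ∈ J := by
    intro a ha b hb
    rw [hI, Finset.mem_Icc] at ha hb
    rw [hJdef, Finset.mem_Icc]
    constructor <;> omega
  have h0J : (0 : ℤ) ∈ J := by
    rw [hJdef, Finset.mem_Icc]
    constructor <;> omega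
  have hIneg : ∀ a, a ∈ I ↔ -a ∈ I := by
    intro a
    rw [hI, Finset.mem_Icc, Finset.mem_Icc]
    constructor <;> intro h <;> constructor <;> omega
  have hcc : ∀ s, cS I t s * cS I t (-s) = ((‖cS I t s‖ ^ 2 : ℝ) : ℂ) := by
    intro s
    rw [cS_neg hIneg ht, mul_conj, Complex.normSq_eq_norm_sq]
  set F : ℝ := ∑ s ∈ J, ‖cS I t s‖ ^ 2 with hF
  have hF0 : 0 ≤ F := Finset.sum_nonneg fun s _ => by positivity
  set η : ℝ := ε / (2 * (F + 1)) with hη
  have hη0 : 0 < η := by positivity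
  have hηF : η * F ≤ ε / 2 := by
    have e : η * F = ε / 2 * (F / (F + 1)) := by rw [hη]; field_simp
    have h1 : F / (F + 1) ≤ 1 := (div_le_one (by positivity)).mpr (by linarith)
    rw [e]
    nlinarith
  have h1 := local_atomless' S L.loc L.lim (fun k => L.conj S k) hρs hρc hρU hρ0 hN (ε := η) hη0
  have h2 := (Metric.tendsto_nhds.mp (lin_jets S L hT I J hJ t)) (ε / 2) (by positivity)
  filter_upwards [h1, h2] with n h3 h4
  set e : ℝ := (∫ z, ρ z * (φ n z).re ^ 4) - 3 * UU u ρ 0 with he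
  have he0 : -η ≤ e := by
    rw [he]; unfold UU; linarith
  rw [dist_zero_right] at h4
  set Z : ℂ := ∑ j ∈ I, ∑ m ∈ I, ∑ k ∈ I, ∑ l ∈ I, (if j + m + k + l = 0 then
        (t j * t m * t k * t l) * ∫ z, (ρ z : ℂ) * (E h a φ j n z * E h a φ m n z
          * (E h a φ k n z * E h a φ l n z)) else 0) with hZ
  have hre : ∑ s ∈ J, cS I t s * cS I t (-s) * ((3 * UU u ρ s + e : ℝ) : ℂ)
      = ((∑ s ∈ J, ‖cS I t s‖ ^ 2 * (3 * UU u ρ s + e) : ℝ) : ℂ) := by
    rw [ofReal_sum]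
    refine Finset.sum_congr rfl fun s _ => ?_
    rw [hcc, ofReal_mul]
  rw [hre] at h4
  have h5 := (abs_le.1 ((Complex.abs_re_le_norm _).trans h4.le)).1
  rw [Complex.sub_re, ofReal_re] at h5
  -- the lower bound for the limit
  have h6 : ‖cS I t 0‖ ^ 2 * (∫ z, ρ z * (φ n z).re ^ 4) - η * F
      ≤ ∑ s ∈ J, ‖cS I t s‖ ^ 2 * (3 * UU u ρ s + e) := by
    have h7 : ∑ s ∈ J, ‖cS I t s‖ ^ 2 * (3 * UU u ρ s + e) + η * F
        = ∑ s ∈ J, ‖cS I t s‖ ^ 2 * (3 * UU u ρ s + e + η) := by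
      rw [hF, Finset.mul_sum, ← Finset.sum_add_distrib]
      refine Finset.sum_congr rfl fun s _ => ?_
      ring
    have h8 : ‖cS I t 0‖ ^ 2 * (3 * UU u ρ 0 + e + η)
        ≤ ∑ s ∈ J, ‖cS I t s‖ ^ 2 * (3 * UU u ρ s + e + η) := by
      refine Finset.single_le_sum (f := fun s => ‖cS I t s‖ ^ 2 * (3 * UU u ρ s + e + η))
        (fun s _ => ?_) h0J
      have := UU_nonneg (u := u) hρ0 s
      exact mul_nonneg (by positivity) (by linarith)
    have h9 : 3 * UU u ρ 0 + e = ∫ z, ρ z * (φ n z).re ^ 4 := by rw [he]; ring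
    rw [h9] at h8
    have h10 : 0 ≤ ‖cS I t 0‖ ^ 2 * η := by positivity
    nlinarith
  linarith

end

end QE
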