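import Pool.Agent.Lib_helper67.QE.LinLoc

/-!
The coefficients of linear statistics of the local waves and their limits (helper70).
-/

open Complex MeasureTheory Filter Topology Set
open scoped ContDiff

namespace QE

noncomputable section

variable {r : ℕ}

/-- the Taylor coefficients of the statistic `∑ cᵢ F(xᵢ)` -/
def tN (c : Fin r → ℝ) (x : Fin r → ℂ) (N : ℕ) (j : ℤ) : ℂ := ∑ i, (c i : ℂ) * CN N j (x i)

lemma tN_conj (c : Fin r → ℝ) (x : Fin r → ℂ) (N : ℕ) (j : ℤ) :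
    tN c x N (-j) = (-1) ^ j * (starRingEnd ℂ) (tN c x N j) := by
  unfold tN
  rw [map_sum, Finset.mul_sum]
  refine Finset.sum_congr rfl fun i _ => ?_
  rw [CN_conj, map_mul, conj_ofReal]
  ring

/-- the expansion of products of sums -/
lemma lin_expand (s : ℕ) (I : Finset ℤ) (c : Fin r → ℂ) (C : ℤ → Fin r → ℂ)
    (G : (Fin s → ℤ) → ℂ) :
    ∑ p ∈ Fintype.piFinset (fun _ : Fin s => I), (∏ j, ∑ i, c i * C (p j) i) * G p
      = ∑ q : Fin s → Fin r, (∏ j, c (q j))
        * ∑ p ∈ Fintype.piFinset (fun _ : Fin s => I), (∏ j, C (p j) (q j)) * G p := by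
  have e : ∀ p : Fin s → ℤ, ∏ j, ∑ i, c i * C (p j) i
      = ∑ q : Fin s → Fin r, (∏ j, c (q j)) * ∏ j, C (p j) (q j) := by
    intro p
    rw [Finset.prod_univ_sum, Fintype.piFinset_univ]
    exact Finset.sum_congr rfl fun q _ => Finset.prod_mul_distrib
  simp only [e, Finset.sum_mul, Finset.mul_sum]
  rw [Finset.sum_comm]
  refine Finset.sum_congr rfl fun q _ => Finset.sum_congr rfl fun p _ => ?_
  ring

/-- the variance of the statistic under the monochromatic wave -/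
def statVar (c : Fin r → ℝ) (x : Fin r → ℂ) : ℝ :=
  ∑ q : Fin 2 → Fin r, (∏ j, c (q j)) * Berry.waveK (x (q 0) - x (q 1))

/-- the mean of the fourth power of the modulus of the symbol of the statistic -/
def statFour (c : Fin r → ℝ) (x : Fin r → ℂ) : ℝ :=
  ∑ q : Fin 4 → Fin r, (∏ j, c (q j)) * Berry.waveK (x (q 0) - x (q 1) + x (q 2) - x (q 3))

lemma tendsto_cS0 (c : Fin r → ℝ) (x : Fin r → ℂ) :
    Tendsto (fun N : ℕ => cS (Finset.Icc (-(N : ℤ)) N) (tN c x N) 0) atTop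
      (𝓝 (statVar c x : ℂ)) := by
  have h1 : ∀ N : ℕ, cS (Finset.Icc (-(N : ℤ)) N) (tN c x N) 0
      = ∑ q : Fin 2 → Fin r, (∏ j, (c (q j) : ℂ))
        * ∑ p ∈ Fintype.piFinset (fun _ : Fin 2 => Finset.Icc (-(N : ℤ)) N),
          (∏ j, CN N (p j) (x (q j))) * ((if ∑ i, p i = 0 then 1 else 0) * P (p 0) (p 1)) := by
    intro N
    rw [← lin_expand 2 (Finset.Icc (-(N : ℤ)) N) (fun i => (c i : ℂ)) (fun j i => CN N j (x i))
      (fun p => (if ∑ i, p i = 0 then 1 else 0) * P (p 0) (p 1))]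
    unfold cS
    rw [← sum_pi2 (Finset.Icc (-(N : ℤ)) N)
      (fun a b => if a + b = 0 then (-1) ^ a * (tN c x N a * tN c x N b) else 0)]
    refine Finset.sum_congr rfl fun p _ => ?_
    rw [Fin.prod_univ_two, Fin.sum_univ_two]
    unfold P tN
    by_cases hp : p 0 + p 1 = 0
    · simp only [if_pos hp]; ring
    · simp only [if_neg hp]; ring
  simp only [h1]
  have h2 := tendsto_finsetSum (Finset.univ : Finset (Fin 2 → Fin r)) fun q _ =>
    (model_pair (fun i => x (q i))).const_mul (∏ j, (c (q j) : ℂ))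
  have e : (statVar c x : ℂ)
      = ∑ q : Fin 2 → Fin r, (∏ j, (c (q j) : ℂ)) * (Berry.waveK (x (q 0) - x (q 1)) : ℂ) := by
    unfold statVar
    push_cast
    rfl
  rw [e]
  exact h2

lemma tendsto_cSS (c : Fin r → ℝ) (x : Fin r → ℂ) :
    Tendsto (fun N : ℕ => ∑ s ∈ Finset.Icc (-(2 * N : ℤ)) (2 * N),
        cS (Finset.Icc (-(N : ℤ)) N) (tN c x N) s * cS (Finset.Icc (-(N : ℤ)) N) (tN c x N) (-s))
      atTop (𝓝 (statFour c x : ℂ)) := by
  have n1 : ∀ i : Fin 4, ‖(![-1, 1, -1, 1] : Fin 4 → ℂ) i‖ = 1 := by intro i; fin_cases i <;> simp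
  have h1 : ∀ N : ℕ, ∑ s ∈ Finset.Icc (-(2 * N : ℤ)) (2 * N),
      cS (Finset.Icc (-(N : ℤ)) N) (tN c x N) s * cS (Finset.Icc (-(N : ℤ)) N) (tN c x N) (-s)
      = ∑ q : Fin 4 → Fin r, (∏ j, (c (q j) : ℂ))
        * ∑ p ∈ Fintype.piFinset (fun _ : Fin 4 => Finset.Icc (-(N : ℤ)) N),
          (∏ j, CN N (p j) (x (q j))) * ((∏ i, (![-1, 1, -1, 1] : Fin 4 → ℂ) i ^ p i)
            * if ∑ i, p i = 0 then 1 else 0) := by
    intro N
    rw [← lin_expand 4 (Finset.Icc (-(N : ℤ)) N) (fun i => (c i : ℂ)) (fun j i => CN N j (x i))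
      (fun p => (∏ i, (![-1, 1, -1, 1] : Fin 4 → ℂ) i ^ p i) * if ∑ i, p i = 0 then 1 else 0)]
    have e1 := pairing (Finset.Icc (-(N : ℤ)) N) (Finset.Icc (-(2 * N : ℤ)) (2 * N))
      (fun a ha b hb => by
        rw [Finset.mem_Icc] at ha hb ⊢
        constructor <;> omega) (tN c x N) (fun _ => 1)
    simp only [mul_one] at e1
    rw [← e1, ← sum_pi4 (Finset.Icc (-(N : ℤ)) N)
      (fun a b c' d => if a + b + c' + d = 0 then
        (tN c x N a * tN c x N b * tN c x N c' * tN c x N d) * ((-1) ^ a * (-1) ^ c') else 0)]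
    refine Finset.sum_congr rfl fun p _ => ?_
    rw [Fin.prod_univ_four, Fin.prod_univ_four, Fin.sum_univ_four]
    unfold tN
    simp only [Matrix.cons_val_zero, Matrix.cons_val_one, Matrix.cons_val, one_zpow, mul_one]
    by_cases hp : p 0 + p 1 + p 2 + p 3 = 0
    · simp only [if_pos hp, mul_one]
    · simp only [if_neg hp, mul_zero]
  simp only [h1]
  have h2 := tendsto_finsetSum (Finset.univ : Finset (Fin 4 → Fin r)) fun q _ =>
    (model_one (![-1, 1, -1, 1] : Fin 4 → ℂ) (fun i => x (q i)) n1).const_mul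
      (∏ j, (c (q j) : ℂ))
  have e : (statFour c x : ℂ) = ∑ q : Fin 4 → Fin r, (∏ j, (c (q j) : ℂ))
      * (Berry.waveK (∑ i, (![-1, 1, -1, 1] : Fin 4 → ℂ) i * x (q i)) : ℂ) := by
    unfold statFour
    push_cast
    refine Finset.sum_congr rfl fun q _ => ?_
    congr 2
    rw [Fin.sum_univ_four, ← Berry.waveK_neg]
    congr 1
    simp only [Matrix.cons_val_zero, Matrix.cons_val_one, Matrix.cons_val]
    ring
  rw [e]
  exact h2

end

end QE
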