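import Pool.Agent.Lib_helper67.QE.PairMass

/-!
Additions to `PairMass.lean`: the diagonal group, right translations of sets.
-/

open MeasureTheory Filter Topology Set
open UpperHalfPlane hiding I
open scoped ContDiff MatrixGroups ENNReal

namespace QE

noncomputable section

theorem PB_aS_mul (s t : ℝ) : aS s * aS t = aS (s + t) := by
  apply Subtype.ext
  show (aS s).1 * (aS t).1 = (aS (s + t)).1
  simp only [aS, Matrix.mul_fin_two]
  rw [mul_zero, zero_mul, mul_zero, zero_mul, ← Real.exp_add, ← Real.exp_add]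
  ext i j
  fin_cases i <;> fin_cases j
  · simp
    ring
  · simp
  · simp
  · simp
    ring

theorem PB_aS_zero : aS 0 = 1 := by
  apply Subtype.ext
  show (aS 0).1 = 1
  simp only [aS]
  ext i j
  fin_cases i <;> fin_cases j <;> simp

theorem PB_aS_inv (s : ℝ) : (aS s)⁻¹ = aS (-s) := by
  rw [inv_eq_iff_mul_eq_one, PB_aS_mul, add_neg_cancel, PB_aS_zero]

variable [MeasurableSpace SL(2, ℝ)] [BorelSpace SL(2, ℝ)]
variable {Γ : Subgroup SL(2, ℝ)} {D : Set ℍ} {μ : Measure SL(2, ℝ)} {p : ℍ → ℝ}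

/-- `μ (v S a_{-s}) = μ (v S)` -/
theorem FlowMeas.shift_right (hμ : FlowMeas Γ D μ p) {S : Set SL(2, ℝ)} (hS : MeasurableSet S)
    (v : SL(2, ℝ)) (s : ℝ) :
    μ ((fun w => v⁻¹ * w) ⁻¹' ((fun g => g * aS s) ⁻¹' S)) = μ ((fun w => v⁻¹ * w) ⁻¹' S) := by
  have h := hμ.right s
  have hm : MeasurableSet ((fun w => v⁻¹ * w) ⁻¹' S) := by
    have : Measurable fun w : SL(2, ℝ) => v⁻¹ * w := by fun_prop
    exact this hS
  conv_rhs => rw [← h]
  rw [Measure.map_apply (by fun_prop) hm]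
  congr 1
  ext w
  simp [mul_assoc]

/-- `μ (v a_s S) = μ (v (a_s S a_{-s}))` -/
theorem FlowMeas.shift_conj (hμ : FlowMeas Γ D μ p) {S : Set SL(2, ℝ)} (hS : MeasurableSet S)
    (v : SL(2, ℝ)) (s : ℝ) :
    μ ((fun w => (v * aS s)⁻¹ * w) ⁻¹' S) =
      μ ((fun w => v⁻¹ * w) ⁻¹' ((fun g => aS (-s) * g * aS s) ⁻¹' S)) := by
  have hm : MeasurableSet ((fun g => aS (-s) * g) ⁻¹' S) := by
    have : Measurable fun g : SL(2, ℝ) => aS (-s) * g := by fun_prop
    exact this hS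
  have h1 := hμ.shift_right hm v s
  have e1 : (fun w => (v * aS s)⁻¹ * w) ⁻¹' S =
      (fun w => v⁻¹ * w) ⁻¹' ((fun g => aS (-s) * g) ⁻¹' S) := by
    ext w
    simp only [mem_preimage, mul_inv_rev, PB_aS_inv, mul_assoc]
  rw [e1, ← h1]
  congr 1
  ext w
  simp only [mem_preimage, mul_assoc]

end

end QE
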