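import Pool.Agent.Lib_helper67.QE.PairBase

/-!
Volume of small balls, mass transport in general, and the bilinear estimate for functions which are
square integrable over a fundamental domain.
-/

open MeasureTheory Filter Topology Set
open UpperHalfPlane hiding I
open scoped ContDiff MatrixGroups ENNReal

namespace QE

noncomputable section

/-- volume of small balls -/
theorem vol_ball_le (z : ℍ) {r : ℝ} (h0 : 0 ≤ r) (h1 : r ≤ 1) :
    (volume : Measure ℍ) (Metric.ball z r) ≤ ENNReal.ofReal (100 * r ^ 2) := by
  have e0 : Metric.ball z r = (fun w => z.toSL2R⁻¹ • w) ⁻¹' Metric.ball UpperHalfPlane.I r := by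
    ext w
    have h : z = z.toSL2R • UpperHalfPlane.I := by rw [toSL2R_smul_I]
    simp only [Metric.mem_ball, mem_preimage]
    conv_lhs => rw [h]
    rw [← dist_smul z.toSL2R⁻¹ w, inv_smul_smul]
  rw [e0, measure_preimage_smul, volume_eq_lintegral, image_coe_ball]
  have hc : (UpperHalfPlane.center UpperHalfPlane.I r : ℂ) = ⟨0, Real.cosh r⟩ := by
    apply Complex.ext <;> simp
  have hI : UpperHalfPlane.I.im = 1 := by simp
  rw [hc, hI, one_mul]
  have hs : Real.sinh r ≤ 3 / 2 * r := by
    have h2 := Real.abs_exp_sub_one_le (x := r) (by rw [abs_of_nonneg h0]; exact h1)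
    rw [abs_of_nonneg (by linarith [Real.add_one_le_exp r]), abs_of_nonneg h0] at h2
    have h3 := Real.add_one_le_exp (-r)
    rw [Real.sinh_eq]
    linarith
  have hs0 : 0 ≤ Real.sinh r := Real.sinh_nonneg_iff.2 h0
  calc ∫⁻ w in Metric.ball (⟨0, Real.cosh r⟩ : ℂ) (Real.sinh r),
        (((1 / ‖w.im‖₊) ^ 2 : NNReal) : ℝ≥0∞)
      ≤ ∫⁻ w in Metric.ball (⟨0, Real.cosh r⟩ : ℂ) (Real.sinh r), ENNReal.ofReal 7.4 := by
        apply lintegral_mono_ae
        rw [ae_restrict_iff' measurableSet_ball]
        refine ae_of_all _ fun w hw => ?_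
        have h2 : |w.im - Real.cosh r| < Real.sinh r := by
          have := Complex.abs_im_le_norm (w - ⟨0, Real.cosh r⟩)
          rw [Metric.mem_ball, Complex.dist_eq] at hw
          simp only [Complex.sub_im] at this
          linarith
        have h3 : Real.exp (-1) < w.im := by
          have h4 := (abs_lt.1 h2).1
          have h5 : Real.cosh r - Real.sinh r = Real.exp (-r) := Real.cosh_sub_sinh r
          have h6 : Real.exp (-1) ≤ Real.exp (-r) := Real.exp_le_exp.2 (by linarith)
          linarith
        have h7 : 0 < Real.exp (-1) := Real.exp_pos _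
        have h8 : 0 < w.im := h7.trans h3
        have h9 : ((1 / ‖w.im‖₊) ^ 2 : NNReal) ≤ Real.toNNReal 7.4 := by
          rw [← NNReal.coe_le_coe]
          push_cast
          rw [Real.coe_toNNReal _ (by norm_num), Real.norm_of_nonneg h8.le, one_div, inv_pow,
            inv_le_comm₀ (by positivity) (by norm_num)]
          have h10 : Real.exp (-1) * Real.exp 1 = 1 := by
            rw [← Real.exp_add, neg_add_cancel, Real.exp_zero]
          have h11 := Real.exp_one_lt_d9
          have h12 : 1 / 2.7182818286 ≤ w.im := by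
            rw [div_le_iff₀ (by norm_num)]
            nlinarith
          calc (7.4 : ℝ)⁻¹ ≤ (1 / 2.7182818286) ^ 2 := by norm_num
            _ ≤ w.im ^ 2 := by gcongr
        exact ENNReal.coe_le_coe.2 h9
    _ = ENNReal.ofReal 7.4 * (ENNReal.ofReal (Real.sinh r) ^ 2 * NNReal.pi) := by
        rw [setLIntegral_const, Complex.volume_ball]
    _ ≤ ENNReal.ofReal 7.4 * (ENNReal.ofReal (3 / 2 * r) ^ 2 * ENNReal.ofReal 4) := by
        gcongr
        rw [← ENNReal.ofReal_coe_nnreal]
        apply ENNReal.ofReal_le_ofReal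
        rw [NNReal.coe_real_pi]
        exact Real.pi_le_four
    _ ≤ ENNReal.ofReal (100 * r ^ 2) := by
        rw [← ENNReal.ofReal_pow (by positivity), ← ENNReal.ofReal_mul (by positivity),
          ← ENNReal.ofReal_mul (by norm_num)]
        apply ENNReal.ofReal_le_ofReal
        nlinarith [sq_nonneg r]

/-- mass transport -/
theorem transport_gen {G α : Type*} [Group G] [Countable G] [MeasurableSpace α] [MulAction G α]
    [MeasurableConstSMul G α] {ν : Measure α} [SFinite ν] [SMulInvariantMeasure G α ν]
    {F : Set α} (hF : IsFundamentalDomain G F ν)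
    {H : α → α → ℝ≥0∞} (hH : Measurable fun z : α × α => H z.1 z.2)
    (hinv : ∀ g : G, ∀ v w, H (g • v) (g • w) = H v w) :
    ∫⁻ v in F, ∫⁻ w, H v w ∂ν ∂ν = ∫⁻ w in F, ∫⁻ v, H v w ∂ν ∂ν := by
  have e1 : ∀ v, ∫⁻ w, H v w ∂ν = ∑' g : G, ∫⁻ w in F, H v (g • w) ∂ν :=
    fun v => hF.lintegral_eq_tsum'' _
  have e2 : ∀ w, ∫⁻ v, H v w ∂ν = ∑' g : G, ∫⁻ v in F, H (g⁻¹ • v) w ∂ν :=
    fun w => hF.lintegral_eq_tsum' _
  simp only [e1, e2]
  have hm : ∀ g g' : G, Measurable fun z : α × α => H (g • z.1) (g' • z.2) := by
    intro g g'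
    have h1 : Measurable fun z : α × α => ((g • z.1, g' • z.2) : α × α) :=
      (measurable_fst.const_smul g).prodMk (measurable_snd.const_smul g')
    exact hH.comp h1
  rw [lintegral_tsum, lintegral_tsum]
  · apply tsum_congr
    intro g
    rw [lintegral_lintegral_swap]
    · apply lintegral_congr
      intro w
      apply lintegral_congr
      intro v
      have h := hinv g⁻¹ v (g • w)
      rw [inv_smul_smul] at h
      exact h.symm
    · have := hm 1 g
      simp only [one_smul] at this
      exact this.aemeasurable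
  · intro g
    have h1 := hm g⁻¹ 1
    simp only [one_smul] at h1
    have h2 : Measurable fun w => ∫⁻ v in F, H (g⁻¹ • v) w ∂ν := by
      apply Measurable.lintegral_prod_left' (f := fun z : α × α => H (g⁻¹ • z.1) z.2)
      exact h1
    exact h2.aemeasurable
  · intro g
    have h1 := hm 1 g
    simp only [one_smul] at h1
    have h2 : Measurable fun v => ∫⁻ w in F, H v (g • w) ∂ν := by
      apply Measurable.lintegral_prod_right' (f := fun z : α × α => H z.1 (g • z.2))
      exact h1
    exact h2.aemeasurable

theorem mul_le_amgm (a b l : ℝ≥0∞) (hl : l ≠ 0) (hl' : l ≠ ⊤) :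
    a * b ≤ l * a ^ 2 + l⁻¹ * b ^ 2 := by
  rcases le_total b (l * a) with h | h
  · calc a * b ≤ a * (l * a) := by gcongr
      _ = l * a ^ 2 := by ring
      _ ≤ _ := le_self_add
  · have h2 : a ≤ l⁻¹ * b := by
      calc a = l⁻¹ * (l * a) := by rw [← mul_assoc, ENNReal.inv_mul_cancel hl hl', one_mul]
        _ ≤ l⁻¹ * b := by gcongr
    calc a * b ≤ l⁻¹ * b * b := by gcongr
      _ = l⁻¹ * b ^ 2 := by ring
      _ ≤ _ := le_add_self

/-- the bilinear estimate -/
theorem bilin {Γ : Subgroup SL(2, ℝ)} [Countable Γ] {D : Set ℍ}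
    (hD : IsFundamentalDomain Γ D (volume : Measure ℍ)) {p q : ℍ → ℝ≥0∞} (hp : Measurable p)
    (hq : Measurable q) (hqi : ∀ γ ∈ Γ, ∀ z, q (γ • z) = q z) {r : ℝ} (h0 : 0 ≤ r) (h1 : r ≤ 1)
    (l : ℝ≥0∞) (hl : l ≠ 0) (hl' : l ≠ ⊤) :
    ∫⁻ z in D, p z * ∫⁻ w in Metric.ball z r, q w ≤
      ENNReal.ofReal (100 * r ^ 2) * (l * ∫⁻ z in D, p z ^ 2) +
      ENNReal.ofReal (100 * r ^ 2) * (l⁻¹ * ∫⁻ z in D, q z ^ 2) := by
  have hm : Measurable fun z : ℍ × ℍ => if dist z.2 z.1 < r then q z.2 ^ 2 else 0 := by
    apply Measurable.ite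
    · exact measurableSet_lt (by fun_prop) measurable_const
    · exact (hq.comp measurable_snd).pow_const 2
    · exact measurable_const
  have hsec : ∀ z : ℍ, ∫⁻ w in Metric.ball z r, q w ^ 2 =
      ∫⁻ w, (if dist w z < r then q w ^ 2 else 0) := by
    intro z
    rw [← lintegral_indicator measurableSet_ball]
    apply lintegral_congr
    intro w
    rfl
  calc ∫⁻ z in D, p z * ∫⁻ w in Metric.ball z r, q w
      = ∫⁻ z in D, ∫⁻ w in Metric.ball z r, p z * q w := by
        apply lintegral_congr
        intro z
        rw [lintegral_const_mul _ hq]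
    _ ≤ ∫⁻ z in D, ∫⁻ w in Metric.ball z r, (l * p z ^ 2 + l⁻¹ * q w ^ 2) := by
        apply lintegral_mono
        intro z
        apply lintegral_mono
        intro w
        exact mul_le_amgm _ _ _ hl hl'
    _ = (∫⁻ z in D, l * p z ^ 2 * volume (Metric.ball z r)) +
          ∫⁻ z in D, l⁻¹ * ∫⁻ w in Metric.ball z r, q w ^ 2 := by
        rw [← lintegral_add_right]
        · apply lintegral_congr
          intro z
          rw [lintegral_add_left measurable_const, setLIntegral_const,
            lintegral_const_mul _ (hq.pow_const 2)]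
        · apply Measurable.const_mul
          simp only [hsec]
          exact Measurable.lintegral_prod_right' hm
    _ ≤ ENNReal.ofReal (100 * r ^ 2) * (l * ∫⁻ z in D, p z ^ 2) +
          ENNReal.ofReal (100 * r ^ 2) * (l⁻¹ * ∫⁻ z in D, q z ^ 2) := by
        gcongr
        · rw [← lintegral_const_mul _ (hp.pow_const 2),
            ← lintegral_const_mul _ ((hp.pow_const 2).const_mul l)]
          apply lintegral_mono
          intro z
          exact (mul_le_mul' le_rfl (vol_ball_le z h0 h1)).trans_eq (mul_comm _ _)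
        · rw [lintegral_const_mul']
          swap
          · exact ENNReal.inv_ne_top.2 hl
          rw [← mul_assoc, mul_comm (ENNReal.ofReal _), mul_assoc]
          refine mul_le_mul' le_rfl ?_
          simp only [hsec]
          have ht := transport_gen (ν := (volume : Measure ℍ)) (G := Γ) hD
            (H := fun z w => if dist w z < r then q w ^ 2 else 0) hm (by
              intro g v w
              have h2 : dist (g • w) (g • v) = dist w v := dist_smul (g : SL(2, ℝ)) w v
              have h3 : q (g • w) = q w := hqi g g.2 w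
              simp only [h2, h3])
          rw [ht, ← lintegral_const_mul _ (hq.pow_const 2)]
          apply lintegral_mono
          intro w
          calc ∫⁻ z : ℍ, (if dist w z < r then q w ^ 2 else 0)
              = ∫⁻ z in Metric.ball w r, q w ^ 2 := by
                rw [← lintegral_indicator measurableSet_ball]
                apply lintegral_congr
                intro z
                simp only [indicator, Metric.mem_ball, dist_comm z w]
            _ = q w ^ 2 * volume (Metric.ball w r) := by rw [setLIntegral_const]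
            _ ≤ q w ^ 2 * ENNReal.ofReal (100 * r ^ 2) :=
                mul_le_mul' le_rfl (vol_ball_le w h0 h1)
            _ = ENNReal.ofReal (100 * r ^ 2) * q w ^ 2 := mul_comm _ _

end

end QE
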