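import Pool.Agent.Lib_helper67.QE.HypDefs

/-!
# The pair measure of a flow invariant measure (module QH_E2 of MP_4fa179_mp)

Let `μ` be a measure on `SL(2, ℝ)` which is left invariant under `Γ` and right invariant under the
diagonal flow, with a square integrable projection (`FlowMeas`).  The pair measure `pairM D μ` is the
image of `μ|_{Fd D} × μ` under `(v, w) ↦ v⁻¹ w`.
-/

open UpperHalfPlane MeasureTheory MatrixGroups Filter Topology Set Berry
open scoped ENNReal NNReal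

namespace QE

noncomputable section

/-! ### Change of the base point -/

/-- **Change of the base point.** -/
theorem base_change_gen {G X Y : Type*} [Group G] [Countable G] [MulAction G X] [MulAction G Y]
    [MeasurableSpace X] [MeasurableSpace Y] {μ : Measure X} {ν : Measure Y} [SFinite μ] [SFinite ν]
    [SMulInvariantMeasure G X μ] [SMulInvariantMeasure G Y ν] [MeasurableConstSMul G X]
    [MeasurableConstSMul G Y] {s : Set X} {t : Set Y} (hs : IsFundamentalDomain G s μ)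
    (ht : IsFundamentalDomain G t ν) {F : X → Y → ℝ≥0∞} (hF : Measurable (Function.uncurry F))
    (hinv : ∀ (g : G) x y, F (g • x) (g • y) = F x y) :
    ∫⁻ x in s, ∫⁻ y, F x y ∂ν ∂μ = ∫⁻ y in t, ∫⁻ x, F x y ∂μ ∂ν := by
  have hm : ∀ g : G, Measurable (Function.uncurry fun (x : X) (y : Y) => F x (g • y)) := by
    intro g
    exact hF.comp (measurable_fst.prodMk ((measurable_const_smul g).comp measurable_snd))
  have hm' : ∀ g : G, Measurable (Function.uncurry fun (y : Y) (x : X) => F (g⁻¹ • x) y) := by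
    intro g
    exact hF.comp (((measurable_const_smul g⁻¹).comp measurable_snd).prodMk measurable_fst)
  calc ∫⁻ x in s, ∫⁻ y, F x y ∂ν ∂μ
      = ∫⁻ x in s, ∑' g : G, ∫⁻ y in t, F x (g • y) ∂ν ∂μ := by
        refine lintegral_congr fun x => ?_
        exact ht.lintegral_eq_tsum'' _
    _ = ∑' g : G, ∫⁻ x in s, ∫⁻ y in t, F x (g • y) ∂ν ∂μ := by
        rw [lintegral_tsum]
        intro g
        exact (Measurable.lintegral_prod_right' (hm g)).aemeasurable
    _ = ∑' g : G, ∫⁻ y in t, ∫⁻ x in s, F (g⁻¹ • x) y ∂μ ∂ν := by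
        refine tsum_congr fun g => ?_
        rw [lintegral_lintegral_swap (hm g).aemeasurable]
        refine lintegral_congr fun y => lintegral_congr fun x => ?_
        rw [← hinv g⁻¹ x (g • y), inv_smul_smul]
    _ = ∫⁻ y in t, ∑' g : G, ∫⁻ x in s, F (g⁻¹ • x) y ∂μ ∂ν := by
        rw [lintegral_tsum]
        intro g
        exact (Measurable.lintegral_prod_right' (hm' g)).aemeasurable
    _ = ∫⁻ y in t, ∫⁻ x, F x y ∂μ ∂ν := by
        refine lintegral_congr fun y => ?_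
        exact (hs.lintegral_eq_tsum' fun x => F x y).symm

/-! ### Volumes of balls -/

theorem sinh_le_mul_exp {d : ℝ} : Real.sinh d ≤ d * Real.exp d := by
  rw [Real.sinh_eq]
  have h1 : 1 - 2 * d ≤ Real.exp (-(2 * d)) := by
    have := Real.add_one_le_exp (-(2 * d))
    linarith
  have h2 : Real.exp d * Real.exp (-(2 * d)) = Real.exp (-d) := by
    rw [← Real.exp_add]
    congr 1
    ring
  have h3 := mul_le_mul_of_nonneg_left h1 (Real.exp_pos d).le
  rw [h2] at h3
  linarith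

theorem vol_ball_I {d : ℝ} (hd : 0 < d) (hd4 : d < 4) :
    (volume : Measure ℍ) (Metric.ball I d) ≤ ENNReal.ofReal (Real.pi * Real.exp 16 * d ^ 2) := by
  rw [volume_eq_lintegral, image_coe_ball]
  have hsin : 0 ≤ Real.sinh d := Real.sinh_nonneg_iff.2 hd.le
  have hbd : ∀ z ∈ Metric.ball (↑(I.center d) : ℂ) (I.im * Real.sinh d),
      (((1 / ‖z.im‖₊) ^ 2 : ℝ≥0) : ℝ≥0∞) ≤ ENNReal.ofReal (Real.exp d ^ 2) := by
    intro z hz
    rw [Metric.mem_ball, Complex.dist_eq] at hz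
    have h1 : |z.im - Real.cosh d| < Real.sinh d := by
      have h2 := Complex.abs_im_le_norm (z - ↑(I.center d))
      rw [Complex.sub_im] at h2
      have h3 : ((I.center d : ℍ) : ℂ).im = Real.cosh d := by
        show (I.center d).im = _
        rw [center_im, I_im, one_mul]
      rw [h3] at h2
      rw [I_im, one_mul] at hz
      linarith
    have h4 : Real.exp (-d) < z.im := by
      rw [← Real.cosh_sub_sinh]
      have := (abs_lt.1 h1).1
      linarith
    have h5 : 0 < z.im := (Real.exp_pos _).trans h4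
    rw [ENNReal.ofReal, ENNReal.coe_le_coe]
    rw [← NNReal.coe_le_coe, Real.coe_toNNReal _ (by positivity)]
    push_cast
    rw [Real.norm_of_nonneg h5.le]
    have h6 : 1 / z.im ≤ Real.exp d := by
      rw [div_le_iff₀ h5]
      have : Real.exp d * Real.exp (-d) = 1 := by
        rw [← Real.exp_add, add_neg_cancel, Real.exp_zero]
      have h7 := mul_lt_mul_of_pos_left h4 (Real.exp_pos d)
      linarith
    exact pow_le_pow_left₀ (by positivity) h6 2
  refine (setLIntegral_mono' Metric.isOpen_ball.measurableSet hbd).trans ?_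
  rw [setLIntegral_const, Complex.volume_ball, I_im, one_mul]
  have epi : ((NNReal.pi : ℝ≥0) : ℝ≥0∞) = ENNReal.ofReal Real.pi := by
    rw [← NNReal.coe_real_pi, ENNReal.ofReal_coe_nnreal]
  rw [← ENNReal.ofReal_pow hsin, epi, ← ENNReal.ofReal_mul (by positivity),
    ← ENNReal.ofReal_mul (by positivity)]
  refine ENNReal.ofReal_le_ofReal ?_
  have h1 : Real.sinh d ^ 2 ≤ (d * Real.exp d) ^ 2 := pow_le_pow_left₀ hsin sinh_le_mul_exp 2
  have h2 : Real.exp d ^ 2 * Real.exp d ^ 2 ≤ Real.exp 16 := by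
    rw [← Real.exp_nat_mul, ← Real.exp_add]
    refine Real.exp_le_exp.2 ?_
    push_cast
    linarith
  have hpi := Real.pi_pos
  calc Real.exp d ^ 2 * (Real.sinh d ^ 2 * Real.pi)
      ≤ Real.exp d ^ 2 * ((d * Real.exp d) ^ 2 * Real.pi) := by gcongr
    _ = Real.pi * (Real.exp d ^ 2 * Real.exp d ^ 2) * d ^ 2 := by ring
    _ ≤ _ := by gcongr

theorem vol_ball_eq (x : ℍ) (d : ℝ) :
    (volume : Measure ℍ) (Metric.ball x d) = volume (Metric.ball I d) := by
  have h := measure_preimage_smul (volume : Measure ℍ) ((x.toSL2R)⁻¹ : SL(2, ℝ)) (Metric.ball I d)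
  rw [← h]
  congr 1
  ext z
  rw [Set.mem_preimage, Metric.mem_ball, Metric.mem_ball]
  have e : dist ((x.toSL2R)⁻¹ • z) I = dist z x := by
    rw [← dist_smul (x.toSL2R : SL(2, ℝ)) ((x.toSL2R)⁻¹ • z) I, smul_inv_smul, toSL2R_smul_I]
  rw [e]

/-! ### The distance to `i` -/

theorem smul_I_coe (g : SL(2, ℝ)) : ((g • I : ℍ) : ℂ) =
    ⟨(g 0 0 * g 1 0 + g 0 1 * g 1 1) / (g 1 0 ^ 2 + g 1 1 ^ 2), 1 / (g 1 0 ^ 2 + g 1 1 ^ 2)⟩ := by
  have hdet := g.det_coe
  rw [Matrix.det_fin_two] at hdet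
  have hpos : 0 < g 1 0 ^ 2 + g 1 1 ^ 2 := by
    by_contra h
    have h1 : g 1 0 = 0 := by nlinarith [sq_nonneg (g 1 0), sq_nonneg (g 1 1)]
    have h2 : g 1 1 = 0 := by nlinarith [sq_nonneg (g 1 0), sq_nonneg (g 1 1)]
    rw [h1, h2] at hdet
    norm_num at hdet
  rw [coe_specialLinearGroup_apply]
  have hne : ((algebraMap ℝ ℝ) (g 1 0) : ℂ) * (I : ℂ) + ((algebraMap ℝ ℝ) (g 1 1) : ℂ) ≠ 0 := by
    intro h
    have h2 := congrArg Complex.re h
    have h3 := congrArg Complex.im h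
    simp at h2 h3
    rw [h2, h3] at hpos
    norm_num at hpos
  rw [div_eq_iff hne]
  apply Complex.ext
  · simp
    field_simp
    linear_combination (-(g 1 0)) * hdet
  · simp
    field_simp
    linear_combination (g 1 1) * hdet

theorem two_cosh (g : SL(2, ℝ)) : 2 * Real.cosh (dist (g • I) I) - 2 =
    (g 0 0 - g 1 1) ^ 2 + (g 0 1 + g 1 0) ^ 2 := by
  have hdet := g.det_coe
  rw [Matrix.det_fin_two] at hdet
  have hpos : 0 < g 1 0 ^ 2 + g 1 1 ^ 2 := by
    by_contra h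
    have h1 : g 1 0 = 0 := by nlinarith [sq_nonneg (g 1 0), sq_nonneg (g 1 1)]
    have h2 : g 1 1 = 0 := by nlinarith [sq_nonneg (g 1 0), sq_nonneg (g 1 1)]
    rw [h1, h2] at hdet
    norm_num at hdet
  have hc := smul_I_coe g
  have him : (g • I : ℍ).im = 1 / (g 1 0 ^ 2 + g 1 1 ^ 2) := by
    have := congrArg Complex.im hc
    exact this
  rw [cosh_dist, him, I_im, hc, Complex.dist_eq, ← Complex.normSq_eq_norm_sq, Complex.normSq_apply]
  simp only [Complex.sub_re, Complex.sub_im, coe_I, Complex.I_re, Complex.I_im]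
  set a := g 0 0
  set b := g 0 1
  set c := g 1 0
  set d := g 1 1
  have hne : c ^ 2 + d ^ 2 ≠ 0 := hpos.ne'
  have e : (a * c + b * d) ^ 2 = (a ^ 2 + b ^ 2) * (c ^ 2 + d ^ 2) - 1 := by
    have : (a * d - b * c) ^ 2 = 1 := by rw [hdet]; norm_num
    nlinarith
  field_simp
  linear_combination e + 2 * (c ^ 2 + d ^ 2) * hdet


theorem sq_le_two_cosh (r : ℝ) : r ^ 2 ≤ 2 * Real.cosh r - 2 := by
  have h1 : Real.cosh r = 2 * Real.sinh (r / 2) ^ 2 + 1 := by
    have := Real.cosh_two_mul (r / 2)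
    rw [mul_div_cancel₀ _ two_ne_zero] at this
    rw [this, Real.cosh_sq]
    ring
  have h2 : (r / 2) ^ 2 ≤ Real.sinh (r / 2) ^ 2 := by
    rw [sq_le_sq]
    rcases le_total 0 (r / 2) with h | h
    · rw [abs_of_nonneg h, abs_of_nonneg (Real.sinh_nonneg_iff.2 h)]
      exact Real.self_le_sinh_iff.2 h
    · rw [abs_of_nonpos h, abs_of_nonpos (Real.sinh_nonpos_iff.2 h)]
      have := Real.sinh_le_self_iff.2 h
      linarith
  nlinarith


section

variable {Γ : Subgroup SL(2, ℝ)} {D : Set ℍ}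

theorem ball_eq (f : ℍ → ℝ≥0∞) (x : ℍ) (d : ℝ) :
    ∫⁻ z in Metric.ball x d, f z = ∫⁻ z, (if dist x z < d then f z else 0) := by
  rw [← lintegral_indicator Metric.isOpen_ball.measurableSet]
  refine lintegral_congr fun z => ?_
  by_cases hz : dist x z < d
  · rw [Set.indicator_of_mem (show z ∈ Metric.ball x d by
      rw [Metric.mem_ball, dist_comm]; exact hz), if_pos hz]
  · rw [Set.indicator_of_notMem (show z ∉ Metric.ball x d by
      rw [Metric.mem_ball, dist_comm]; exact hz), if_neg hz]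

theorem ball_kernel_meas {f : ℍ → ℝ≥0∞} (hf : Measurable f) (d : ℝ) :
    Measurable (Function.uncurry fun (x z : ℍ) => if dist x z < d then f z else 0) :=
  Measurable.ite (measurableSet_lt measurable_dist measurable_const)
    (hf.comp measurable_snd) measurable_const

theorem ball_meas {f : ℍ → ℝ≥0∞} (hf : Measurable f) (d : ℝ) :
    Measurable fun x => ∫⁻ z in Metric.ball x d, f z := by
  have h := Measurable.lintegral_prod_right' (ν := (volume : Measure ℍ)) (ball_kernel_meas hf d)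
  have e : (fun x => ∫⁻ z in Metric.ball x d, f z) = fun x : ℍ =>
      ∫⁻ z, Function.uncurry (fun (x z : ℍ) => if dist x z < d then f z else 0) (x, z) := by
    funext x
    exact ball_eq f x d
  rw [e]
  exact h

/-- Averages over balls of invariant functions. -/
theorem lintegral_ball [Countable Γ] (hD : IsFundamentalDomain Γ D (volume : Measure ℍ))
    {f : ℍ → ℝ≥0∞} (hf : Measurable f) (hinv : ∀ γ ∈ Γ, ∀ z, f (γ • z) = f z) (d : ℝ) :
    ∫⁻ x in D, ∫⁻ z in Metric.ball x d, f z = volume (Metric.ball I d) * ∫⁻ z in D, f z := by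
  have h := base_change_gen hD hD (ball_kernel_meas hf d) (fun g x y => by
    have e1 : dist (g • x) (g • y) = dist x y := dist_smul (g : SL(2, ℝ)) x y
    have e2 : f (g • y) = f y := hinv g g.2 y
    simp only [e1, e2])
  have e2 : ∀ z : ℍ, ∫⁻ x : ℍ, (if dist x z < d then f z else 0) =
      volume (Metric.ball I d) * f z := by
    intro z
    have : ∀ x, (if dist x z < d then f z else 0) =
        (Metric.ball z d).indicator (fun _ => f z) x := by
      intro x
      by_cases hz : dist x z < d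
      · rw [Set.indicator_of_mem (show x ∈ Metric.ball z d from hz), if_pos hz]
      · rw [Set.indicator_of_notMem (show x ∉ Metric.ball z d from hz), if_neg hz]
    simp only [this]
    rw [lintegral_indicator_const Metric.isOpen_ball.measurableSet, vol_ball_eq, mul_comm]
  simp only [← ball_eq, e2] at h
  rw [h, lintegral_const_mul _ hf]

theorem vol_D_pos [Countable Γ] (hD : IsFundamentalDomain Γ D (volume : Measure ℍ)) :
    (volume : Measure ℍ) D ≠ 0 := by
  refine hD.measure_ne_zero ?_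
  intro h0
  have := volume_pos_of_isOpen isOpen_univ ⟨I, mem_univ I⟩
  rw [h0] at this
  simp at this

/-- Invariant functions which are integrable over `D` are locally integrable. -/
theorem local_lt_top [Countable Γ] (hD : IsFundamentalDomain Γ D (volume : Measure ℍ))
    {f : ℍ → ℝ≥0∞} (hf : Measurable f) (hinv : ∀ γ ∈ Γ, ∀ z, f (γ • z) = f z)
    (hfin : ∫⁻ z in D, f z ≠ ⊤) (R : ℝ) : ∫⁻ z in Metric.ball I R, f z < ⊤ := by
  have h1 : ∀ n : ℕ, ∀ᵐ x ∂((volume : Measure ℍ).restrict D),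
      ∫⁻ z in Metric.ball x (n : ℝ), f z < ⊤ := by
    intro n
    have h2 : ∫⁻ x in D, ∫⁻ z in Metric.ball x (n : ℝ), f z ≠ ⊤ := by
      rw [lintegral_ball hD hf hinv]
      refine ENNReal.mul_ne_top ?_ hfin
      exact (measure_mono Metric.ball_subset_closedBall).trans_lt
        (isCompact_closedBall I (n : ℝ)).measure_lt_top |>.ne
    exact ae_lt_top (ball_meas hf _) h2
  have h3 := ae_all_iff.2 h1
  have hne : (ae ((volume : Measure ℍ).restrict D)).NeBot := by
    rw [ae_neBot, Ne, Measure.restrict_eq_zero]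
    exact vol_D_pos hD
  obtain ⟨x, hx⟩ := h3.exists
  obtain ⟨n, hn⟩ := exists_nat_ge (R + dist I x)
  refine lt_of_le_of_lt (lintegral_mono_set ?_) (hx n)
  intro z hz
  rw [Metric.mem_ball] at hz ⊢
  linarith [dist_triangle z I x]

/-! ### Basic facts on `FlowMeas` -/

variable [MeasurableSpace SL(2, ℝ)] [BorelSpace SL(2, ℝ)] {μ : Measure SL(2, ℝ)} {p : ℍ → ℝ}

namespace FlowMeas0

omit [BorelSpace SL(2, ℝ)] in
theorem pm (hμ : FlowMeas0 Γ D μ p) : Measurable fun z => ENNReal.ofReal (p z) :=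
  ENNReal.measurable_ofReal.comp hμ.pmeas

theorem map_proj (hμ : FlowMeas0 Γ D μ p) : Measure.map (fun g : SL(2, ℝ) => g • I) μ =
    (volume : Measure ℍ).withDensity fun z => ENNReal.ofReal (p z) := by
  ext S hS
  rw [Measure.map_apply proj_measurable hS, hμ.proj S hS, withDensity_apply _ hS]

theorem lintegral_proj (hμ : FlowMeas0 Γ D μ p) {f : ℍ → ℝ≥0∞} (hf : Measurable f) {S : Set ℍ}
    (hS : MeasurableSet S) : ∫⁻ g in Fd S, f (g • I) ∂μ = ∫⁻ z in S, ENNReal.ofReal (p z) * f z := by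
  have h1 : ∫⁻ g in Fd S, f (g • I) ∂μ =
      ∫⁻ z in S, f z ∂(Measure.map (fun g : SL(2, ℝ) => g • I) μ) := by
    rw [setLIntegral_map hS hf proj_measurable]
    rfl
  rw [h1, hμ.map_proj, restrict_withDensity hS, lintegral_withDensity_eq_lintegral_mul _ hμ.pm hf]
  rfl

omit [BorelSpace SL(2, ℝ)] in
theorem le_one_add (hμ : FlowMeas0 Γ D μ p) (z : ℍ) :
    ENNReal.ofReal (p z) ≤ 1 + ENNReal.ofReal (p z ^ 2) := by
  rw [← ENNReal.ofReal_one, ← ENNReal.ofReal_add zero_le_one (sq_nonneg _)]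
  have h := hμ.pnonneg z
  refine ENNReal.ofReal_le_ofReal ?_
  nlinarith [sq_nonneg (p z - 1)]

omit [BorelSpace SL(2, ℝ)] in
theorem p2m (hμ : FlowMeas0 Γ D μ p) : Measurable fun z => ENNReal.ofReal (p z ^ 2) :=
  ENNReal.measurable_ofReal.comp (hμ.pmeas.pow_const 2)

omit [BorelSpace SL(2, ℝ)] in
theorem psq_ne_top (hμ : FlowMeas0 Γ D μ p) : ∫⁻ z in D, ENNReal.ofReal (p z ^ 2) ≠ ⊤ := by
  have := hμ.psq.2
  rw [hasFiniteIntegral_iff_ofReal (Eventually.of_forall fun z => sq_nonneg _)] at this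
  exact this.ne

omit [BorelSpace SL(2, ℝ)] in
theorem p_ne_top (hμ : FlowMeas0 Γ D μ p) {S : Set ℍ} (hS : (volume : Measure ℍ) S ≠ ⊤)
    (h2 : ∫⁻ z in S, ENNReal.ofReal (p z ^ 2) ≠ ⊤) : ∫⁻ z in S, ENNReal.ofReal (p z) ≠ ⊤ := by
  have h1 : ∫⁻ z in S, ENNReal.ofReal (p z) ≤ ∫⁻ z in S, (1 + ENNReal.ofReal (p z ^ 2)) :=
    lintegral_mono fun z => hμ.le_one_add z
  rw [lintegral_add_left measurable_const, setLIntegral_const, one_mul] at h1
  exact ne_top_of_le_ne_top (ENNReal.add_ne_top.2 ⟨hS, h2⟩) h1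

omit [BorelSpace SL(2, ℝ)] in
theorem p2inv (hμ : FlowMeas0 Γ D μ p) : ∀ γ ∈ Γ, ∀ z,
    ENNReal.ofReal (p (γ • z) ^ 2) = ENNReal.ofReal (p z ^ 2) := by
  intro γ hγ z
  rw [hμ.pinv γ hγ z]

theorem fd_ne_top (hμ : FlowMeas0 Γ D μ p) (hDm : MeasurableSet D)
    (hfin : (volume : Measure ℍ) D ≠ ⊤) : μ (Fd D) ≠ ⊤ := by
  have h := hμ.proj D hDm
  have h2 : μ (Fd D) = ∫⁻ z in D, ENNReal.ofReal (p z) := h
  rw [h2]
  exact hμ.p_ne_top hfin hμ.psq_ne_top

theorem ball_ne_top [Countable Γ] (hμ : FlowMeas0 Γ D μ p)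
    (hD : IsFundamentalDomain Γ D (volume : Measure ℍ)) (R : ℝ) :
    μ (Fd (Metric.ball I R)) ≠ ⊤ := by
  have h := hμ.proj (Metric.ball I R) Metric.isOpen_ball.measurableSet
  have h2 : μ (Fd (Metric.ball I R)) = ∫⁻ z in Metric.ball I R, ENNReal.ofReal (p z) := h
  rw [h2]
  refine hμ.p_ne_top ?_ (local_lt_top hD hμ.p2m hμ.p2inv hμ.psq_ne_top R).ne
  exact ((measure_mono Metric.ball_subset_closedBall).trans_lt
    (isCompact_closedBall I R).measure_lt_top).ne

theorem finiteOnCompacts [Countable Γ] (hμ : FlowMeas0 Γ D μ p)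
    (hD : IsFundamentalDomain Γ D (volume : Measure ℍ)) : IsFiniteMeasureOnCompacts μ := by
  refine ⟨fun K hK => ?_⟩
  have hc : IsCompact ((fun g : SL(2, ℝ) => g • I) '' K) :=
    hK.image (continuous_id.smul continuous_const)
  obtain ⟨R, hR⟩ := hc.isBounded.subset_ball I
  refine lt_of_le_of_lt (measure_mono ?_) (hμ.ball_ne_top hD R).lt_top
  intro g hg
  exact hR ⟨g, hg, rfl⟩

theorem sigmaFinite [Countable Γ] (hμ : FlowMeas0 Γ D μ p)
    (hD : IsFundamentalDomain Γ D (volume : Measure ℍ)) : SigmaFinite μ := by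
  have := hμ.finiteOnCompacts hD
  infer_instance

theorem smulInv (hμ : FlowMeas0 Γ D μ p) : SMulInvariantMeasure Γ SL(2, ℝ) μ where
  measure_preimage_smul g s hs := by
    have h := hμ.left g g.2
    have hm : Measurable fun x : SL(2, ℝ) => (g : SL(2, ℝ)) * x :=
      (continuous_const_mul (g : SL(2, ℝ))).measurable
    conv_rhs => rw [← h, Measure.map_apply hm hs]
    rfl

theorem qmp (hμ : FlowMeas0 Γ D μ p) :
    Measure.QuasiMeasurePreserving (fun g : SL(2, ℝ) => g • I) μ volume := by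
  refine ⟨proj_measurable, ?_⟩
  rw [hμ.map_proj]
  exact withDensity_absolutelyContinuous _ _

theorem isFund (hμ : FlowMeas0 Γ D μ p) (hD : IsFundamentalDomain Γ D (volume : Measure ℍ)) :
    IsFundamentalDomain Γ (Fd D) μ :=
  hD.preimage_of_equiv hμ.qmp (e := id) Function.bijective_id fun γ g => by
    show (γ • g) • I = γ • (g • I)
    exact mul_smul (γ : SL(2, ℝ)) g I

end FlowMeas0

namespace FlowMeas

theorem mul_aS_meas (s : ℝ) : Measurable fun g : SL(2, ℝ) => g * aS s :=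
  (continuous_mul_const (aS s)).measurable

theorem mp (hμ : FlowMeas Γ D μ p) (s : ℝ) :
    MeasurePreserving (fun g : SL(2, ℝ) => g * aS s) μ μ :=
  ⟨mul_aS_meas s, hμ.right s⟩

theorem isFund_right (hμ : FlowMeas Γ D μ p)
    (hD : IsFundamentalDomain Γ D (volume : Measure ℍ)) (s : ℝ) :
    IsFundamentalDomain Γ ((fun g : SL(2, ℝ) => g * aS s) ⁻¹' (Fd D)) μ :=
  (hμ.isFund hD).preimage_of_equiv (hμ.mp s).quasiMeasurePreserving (e := id)
    Function.bijective_id fun γ g => by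
    show ((γ : SL(2, ℝ)) * g) * aS s = (γ : SL(2, ℝ)) * (g * aS s)
    rw [mul_assoc]

end FlowMeas

omit [MeasurableSpace SL(2, ℝ)] [BorelSpace SL(2, ℝ)] in
theorem aS_neg_mul (s : ℝ) : aS (-s) * aS s = 1 := by
  apply Subtype.ext
  show (aS (-s)).1 * (aS s).1 = 1
  simp only [aS, Matrix.mul_fin_two]
  have h1 : Real.exp (-s / 2) * Real.exp (s / 2) = 1 := by
    rw [← Real.exp_add]
    simp [neg_div]
  have h2 : Real.exp (-(-s / 2)) * Real.exp (-(s / 2)) = 1 := by
    rw [← Real.exp_add]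
    simp [neg_div]
  rw [Matrix.one_fin_two]
  simp [h1, h2]

omit [MeasurableSpace SL(2, ℝ)] [BorelSpace SL(2, ℝ)] in
theorem aS_mul_neg (s : ℝ) : aS s * aS (-s) = 1 := by
  have := aS_neg_mul (-s)
  rwa [neg_neg] at this

/-- **Right invariance of the integrals over the fundamental domain.** -/
theorem FlowMeas.setLIntegral_right [Countable Γ] (hμ : FlowMeas Γ D μ p)
    (hD : IsFundamentalDomain Γ D (volume : Measure ℍ)) {f : SL(2, ℝ) → ℝ≥0∞}
    (hinv : ∀ γ ∈ Γ, ∀ g, f (γ * g) = f g) (s : ℝ) :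
    ∫⁻ v in Fd D, f (v * aS s) ∂μ = ∫⁻ v in Fd D, f v ∂μ := by
  have := hμ.smulInv
  have hemb : MeasurableEmbedding fun g : SL(2, ℝ) => g * aS s :=
    (Homeomorph.mulRight (aS s)).measurableEmbedding
  have h1 := (hμ.mp s).setLIntegral_comp_preimage_emb hemb f
    ((fun g : SL(2, ℝ) => g * aS (-s)) ⁻¹' (Fd D))
  have e2 : (fun g : SL(2, ℝ) => g * aS s) ⁻¹' ((fun g : SL(2, ℝ) => g * aS (-s)) ⁻¹' (Fd D))
      = Fd D := by
    ext g
    simp only [Set.mem_preimage, mul_assoc, aS_mul_neg, mul_one]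
  rw [e2] at h1
  rw [h1]
  exact (hμ.isFund_right hD (-s)).setLIntegral_eq (hμ.isFund hD) f fun γ g => hinv γ γ.2 g

/-! ### The pair measure -/

/-- **The pair measure** -/
def pairM (D : Set ℍ) (μ : Measure SL(2, ℝ)) : Measure SL(2, ℝ) :=
  Measure.map (fun z : SL(2, ℝ) × SL(2, ℝ) => z.1⁻¹ * z.2) ((μ.restrict (Fd D)).prod μ)

theorem divm : Measurable fun z : SL(2, ℝ) × SL(2, ℝ) => z.1⁻¹ * z.2 :=
  (continuous_fst.inv.mul continuous_snd).measurable

theorem lintegral_pairM [SFinite μ] {f : SL(2, ℝ) → ℝ≥0∞} (hf : Measurable f) :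
    ∫⁻ g, f g ∂(pairM D μ) = ∫⁻ v in Fd D, ∫⁻ w, f (v⁻¹ * w) ∂μ ∂μ := by
  unfold pairM
  rw [lintegral_map hf divm, lintegral_prod]
  exact (hf.comp divm).aemeasurable

theorem pairM_apply [SFinite μ] {S : Set SL(2, ℝ)} (hS : MeasurableSet S) :
    pairM D μ S = pairMass D μ S := by
  unfold pairM pairMass
  rw [Measure.map_apply divm hS, Measure.prod_apply (divm hS)]
  rfl

theorem mass_meas [SFinite μ] {S : Set SL(2, ℝ)} (hS : MeasurableSet S) :
    Measurable fun v : SL(2, ℝ) => μ ((fun w => v⁻¹ * w) ⁻¹' S) :=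
  measurable_measure_prodMk_left (divm hS)

theorem FlowMeas0.mass_inv (hμ : FlowMeas0 Γ D μ p) {S : Set SL(2, ℝ)} (hS : MeasurableSet S)
    {γ : SL(2, ℝ)} (hγ : γ ∈ Γ) (v : SL(2, ℝ)) :
    μ ((fun w => (γ * v)⁻¹ * w) ⁻¹' S) = μ ((fun w => v⁻¹ * w) ⁻¹' S) := by
  have h := hμ.left γ hγ
  have hm : Measurable fun x : SL(2, ℝ) => γ * x := (continuous_const_mul γ).measurable
  have hm2 : Measurable fun w : SL(2, ℝ) => (γ * v)⁻¹ * w :=
    (continuous_const_mul (γ * v)⁻¹).measurable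
  conv_lhs => rw [← h, Measure.map_apply hm (hm2 hS)]
  congr 1
  ext w
  simp only [Set.mem_preimage, mul_inv_rev]
  rw [show v⁻¹ * γ⁻¹ * (γ * w) = v⁻¹ * w by group]

/-- change of the base point -/
theorem FlowMeas0.base_change [Countable Γ] [SFinite μ] (hμ : FlowMeas0 Γ D μ p)
    (hD : IsFundamentalDomain Γ D (volume : Measure ℍ)) {F : SL(2, ℝ) → SL(2, ℝ) → ℝ≥0∞}
    (hF : Measurable (Function.uncurry F)) (hinv : ∀ γ ∈ Γ, ∀ v w, F (γ * v) (γ * w) = F v w) :
    ∫⁻ v in Fd D, ∫⁻ w, F v w ∂μ ∂μ = ∫⁻ w in Fd D, ∫⁻ v, F v w ∂μ ∂μ := by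
  have := hμ.smulInv
  exact base_change_gen (hμ.isFund hD) (hμ.isFund hD) hF fun γ v w => hinv γ γ.2 v w

/-- bi-invariance under the diagonal flow, for integrals -/
theorem FlowMeas.lintegral_pairM_conj [Countable Γ] [SFinite μ] (hμ : FlowMeas Γ D μ p)
    (hD : IsFundamentalDomain Γ D (volume : Measure ℍ)) {f : SL(2, ℝ) → ℝ≥0∞}
    (hf : Measurable f) (s t : ℝ) :
    ∫⁻ g, f (aS s * g * aS t) ∂(pairM D μ) = ∫⁻ g, f g ∂(pairM D μ) := by
  have hc : Measurable fun g : SL(2, ℝ) => aS s * g * aS t :=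
    ((continuous_const_mul (aS s)).mul continuous_const).measurable
  rw [lintegral_pairM (f := fun g => f (aS s * g * aS t)) (hf.comp hc), lintegral_pairM hf]
  have e1 : ∀ v : SL(2, ℝ), ∫⁻ w, f (aS s * (v⁻¹ * w) * aS t) ∂μ =
      ∫⁻ w, f ((v * aS (-s))⁻¹ * w) ∂μ := by
    intro v
    have hemb : MeasurableEmbedding fun g : SL(2, ℝ) => g * aS t :=
      (Homeomorph.mulRight (aS t)).measurableEmbedding
    rw [← (hμ.mp t).lintegral_comp_emb hemb fun w => f ((v * aS (-s))⁻¹ * w)]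
    refine lintegral_congr fun w => ?_
    congr 1
    rw [mul_inv_rev, inv_eq_of_mul_eq_one_left (aS_mul_neg s)]
    simp only [mul_assoc]
  simp only [e1]
  refine hμ.setLIntegral_right hD (f := fun v => ∫⁻ w, f (v⁻¹ * w) ∂μ) ?_ (-s)
  intro γ hγ g
  have h := hμ.left γ hγ
  have hemb : MeasurableEmbedding fun x : SL(2, ℝ) => γ * x :=
    (Homeomorph.mulLeft γ).measurableEmbedding
  have hmp : MeasurePreserving (fun x : SL(2, ℝ) => γ * x) μ μ :=
    ⟨(continuous_const_mul γ).measurable, h⟩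
  rw [← hmp.lintegral_comp_emb hemb fun w => f ((γ * g)⁻¹ * w)]
  refine lintegral_congr fun w => ?_
  congr 1
  group

theorem FlowMeas.pairM_conj [Countable Γ] [SFinite μ] (hμ : FlowMeas Γ D μ p)
    (hD : IsFundamentalDomain Γ D (volume : Measure ℍ)) (s t : ℝ) :
    Measure.map (fun g => aS s * g * aS t) (pairM D μ) = pairM D μ := by
  refine Measure.ext_of_lintegral _ fun f hf => ?_
  have hc : Measurable fun g : SL(2, ℝ) => aS s * g * aS t :=
    ((continuous_const_mul (aS s)).mul continuous_const).measurable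
  rw [lintegral_map hf hc, hμ.lintegral_pairM_conj hD hf]

/-- invariance under inversion, for integrals -/
theorem FlowMeas0.lintegral_pairM_inv [Countable Γ] [SFinite μ] (hμ : FlowMeas0 Γ D μ p)
    (hD : IsFundamentalDomain Γ D (volume : Measure ℍ)) {f : SL(2, ℝ) → ℝ≥0∞}
    (hf : Measurable f) : ∫⁻ g, f g⁻¹ ∂(pairM D μ) = ∫⁻ g, f g ∂(pairM D μ) := by
  rw [lintegral_pairM (f := fun g => f g⁻¹) (hf.comp measurable_inv), lintegral_pairM hf]
  have hF : Measurable (Function.uncurry fun v w : SL(2, ℝ) => f (v⁻¹ * w)) := hf.comp divm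
  rw [hμ.base_change hD hF]
  · refine lintegral_congr fun v => lintegral_congr fun w => ?_
    congr 1
    group
  · intro γ _ v w
    congr 1
    group

theorem FlowMeas0.pairM_inv [Countable Γ] [SFinite μ] (hμ : FlowMeas0 Γ D μ p)
    (hD : IsFundamentalDomain Γ D (volume : Measure ℍ)) :
    Measure.map (fun g => g⁻¹) (pairM D μ) = pairM D μ := by
  refine Measure.ext_of_lintegral _ fun f hf => ?_
  rw [lintegral_map hf measurable_inv, hμ.lintegral_pairM_inv hD hf]

omit [MeasurableSpace SL(2, ℝ)] [BorelSpace SL(2, ℝ)] in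
theorem neg_cont : Continuous fun g : SL(2, ℝ) => -g := by
  refine continuous_induced_rng.2 ?_
  have : Continuous fun g : SL(2, ℝ) => -(g : Matrix (Fin 2) (Fin 2) ℝ) :=
    continuous_induced_dom.neg
  exact this

theorem FlowMeas0.pairM_neg [SFinite μ] (hμ : FlowMeas0 Γ D μ p) :
    Measure.map (fun g => -g) (pairM D μ) = pairM D μ := by
  refine Measure.ext_of_lintegral _ fun f hf => ?_
  have hn : Measurable fun g : SL(2, ℝ) => -g := neg_cont.measurable
  rw [lintegral_map hf hn, lintegral_pairM (f := fun g => f (-g)) (hf.comp hn),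
    lintegral_pairM hf]
  refine lintegral_congr fun v => ?_
  have hc : Measurable fun w : SL(2, ℝ) => f (v⁻¹ * w) :=
    hf.comp (continuous_const_mul v⁻¹).measurable
  conv_rhs => rw [← hμ.neg, lintegral_map hc hn]
  refine lintegral_congr fun w => ?_
  rw [mul_neg]

/-! ### The quadratic bound -/

omit [BorelSpace SL(2, ℝ)] in
theorem FlowMeas0.mass_le (hμ : FlowMeas0 Γ D μ p) (v : SL(2, ℝ)) {d : ℝ} (hd : 0 < d) :
    μ ((fun w => v⁻¹ * w) ⁻¹' {g | (g 0 0 - g 1 1) ^ 2 + (g 0 1 + g 1 0) ^ 2 < d ^ 2}) ≤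
      ∫⁻ z in Metric.ball (v • I) d, ENNReal.ofReal (p z) := by
  rw [← hμ.proj _ Metric.isOpen_ball.measurableSet]
  refine measure_mono fun w hw => ?_
  rw [Set.mem_preimage, Set.mem_ofPred_eq, ← two_cosh] at hw
  have h1 := sq_le_two_cosh (dist ((v⁻¹ * w) • I) I)
  have h2 : dist ((v⁻¹ * w) • I) I < d := by
    nlinarith [dist_nonneg (x := (v⁻¹ * w) • I) (y := (I : ℍ))]
  have h3 : dist ((v⁻¹ * w) • I) I = dist (w • I) (v • I) := by
    rw [← dist_smul v ((v⁻¹ * w) • I) I, ← mul_smul, mul_inv_cancel_left]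
  rw [h3] at h2
  exact h2

/-- **The quadratic bound (B).** -/
theorem FlowMeas0.pair_bound [Countable Γ] (hμ : FlowMeas0 Γ D μ p)
    (hD : IsFundamentalDomain Γ D (volume : Measure ℍ)) (hDm : MeasurableSet D) :
    ∃ C : ℝ, 0 ≤ C ∧ ∀ d : ℝ, 0 < d → d < 4 →
      pairMass D μ {g | (g 0 0 - g 1 1) ^ 2 + (g 0 1 + g 1 0) ^ 2 < d ^ 2} ≤
        ENNReal.ofReal (C * d ^ 2) := by
  set A : ℝ≥0∞ := ∫⁻ z in D, ENNReal.ofReal (p z ^ 2) with hA
  have hAt : A ≠ ⊤ := hμ.psq_ne_top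
  refine ⟨2 * (Real.pi * Real.exp 16) * A.toReal, by positivity, fun d hd hd4 => ?_⟩
  set Φ : ℍ → ℝ≥0∞ := fun x => ∫⁻ z in Metric.ball x d, ENNReal.ofReal (p z) with hΦ
  have hΦm : Measurable Φ := ball_meas hμ.pm d
  calc pairMass D μ {g | (g 0 0 - g 1 1) ^ 2 + (g 0 1 + g 1 0) ^ 2 < d ^ 2}
      ≤ ∫⁻ v in Fd D, Φ (v • I) ∂μ := lintegral_mono fun v => hμ.mass_le v hd
    _ = ∫⁻ x in D, ENNReal.ofReal (p x) * Φ x := hμ.lintegral_proj hΦm hDm
    _ ≤ ∫⁻ x in D, (volume (Metric.ball I d) * ENNReal.ofReal (p x ^ 2) +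
          ∫⁻ z in Metric.ball x d, ENNReal.ofReal (p z ^ 2)) := by
        refine lintegral_mono fun x => ?_
        simp only [hΦ]
        rw [← lintegral_const_mul' _ _ ENNReal.ofReal_ne_top, ← vol_ball_eq x d, mul_comm,
          ← setLIntegral_const, ← lintegral_add_left measurable_const]
        refine lintegral_mono fun z => ?_
        simp only
        rw [← ENNReal.ofReal_mul (hμ.pnonneg x), ← ENNReal.ofReal_add (sq_nonneg _) (sq_nonneg _)]
        refine ENNReal.ofReal_le_ofReal ?_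
        nlinarith [sq_nonneg (p x - p z), sq_nonneg (p x), sq_nonneg (p z)]
    _ = volume (Metric.ball I d) * A + volume (Metric.ball I d) * A := by
        rw [lintegral_add_left (hμ.p2m.const_mul _), lintegral_const_mul _ hμ.p2m,
          lintegral_ball hD hμ.p2m hμ.p2inv]
    _ ≤ ENNReal.ofReal (Real.pi * Real.exp 16 * d ^ 2) * A +
          ENNReal.ofReal (Real.pi * Real.exp 16 * d ^ 2) * A := by
        gcongr <;> exact vol_ball_I hd hd4
    _ = ENNReal.ofReal (2 * (Real.pi * Real.exp 16) * A.toReal * d ^ 2) := by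
        rw [← two_mul, ← ENNReal.ofReal_toReal hAt, ← ENNReal.ofReal_mul (by positivity)]
        rw [show (2 : ℝ≥0∞) = ENNReal.ofReal 2 by simp, ← ENNReal.ofReal_mul (by positivity),
          ENNReal.toReal_ofReal ENNReal.toReal_nonneg]
        congr 1
        ring

/-! ### Coordinates -/

/-- the elements near the diagonal group: `t = log (g₀₀ / g₁₁) ∈ [a, b)`, `(g₀₁, g₁₀) ∈ E` -/
def Win (a b : ℝ) (E : Set (ℝ × ℝ)) : Set SL(2, ℝ) :=
  {g | 0 < g 0 0 ∧ 0 < g 1 1 ∧ a ≤ Real.log (g 0 0 / g 1 1) ∧ Real.log (g 0 0 / g 1 1) < b ∧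
    (g 0 1, g 1 0) ∈ E}

omit [MeasurableSpace SL(2, ℝ)] [BorelSpace SL(2, ℝ)] in
theorem entry_cont (i j : Fin 2) : Continuous fun g : SL(2, ℝ) => g i j := by
  have h : Continuous fun g : SL(2, ℝ) => (g : Matrix (Fin 2) (Fin 2) ℝ) :=
    continuous_induced_dom
  exact (continuous_apply j).comp ((continuous_apply i).comp h)

theorem entry_meas (i j : Fin 2) : Measurable fun g : SL(2, ℝ) => g i j :=
  (entry_cont i j).measurable

theorem log_meas : Measurable fun g : SL(2, ℝ) => Real.log (g 0 0 / g 1 1) :=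
  Real.measurable_log.comp ((entry_meas 0 0).div (entry_meas 1 1))

theorem bc_meas : Measurable fun g : SL(2, ℝ) => (g 0 1, g 1 0) :=
  (entry_meas 0 1).prodMk (entry_meas 1 0)

theorem Win_meas (a b : ℝ) {E : Set (ℝ × ℝ)} (hE : MeasurableSet E) :
    MeasurableSet (Win a b E) := by
  have h1 : MeasurableSet {g : SL(2, ℝ) | 0 < g 0 0} :=
    measurableSet_lt measurable_const (entry_meas 0 0)
  have h2 : MeasurableSet {g : SL(2, ℝ) | 0 < g 1 1} :=
    measurableSet_lt measurable_const (entry_meas 1 1)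
  have h3 : MeasurableSet {g : SL(2, ℝ) | a ≤ Real.log (g 0 0 / g 1 1)} :=
    measurableSet_le measurable_const log_meas
  have h4 : MeasurableSet {g : SL(2, ℝ) | Real.log (g 0 0 / g 1 1) < b} :=
    measurableSet_lt log_meas measurable_const
  exact h1.inter (h2.inter (h3.inter (h4.inter (bc_meas hE))))

omit [MeasurableSpace SL(2, ℝ)] [BorelSpace SL(2, ℝ)] in
theorem conj_entries (s t : ℝ) (g : SL(2, ℝ)) :
    (aS s * g * aS t) 0 0 = Real.exp ((s + t) / 2) * g 0 0 ∧
    (aS s * g * aS t) 0 1 = Real.exp ((s - t) / 2) * g 0 1 ∧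
    (aS s * g * aS t) 1 0 = Real.exp (-((s - t) / 2)) * g 1 0 ∧
    (aS s * g * aS t) 1 1 = Real.exp (-((s + t) / 2)) * g 1 1 := by
  have h : ((aS s * g * aS t : SL(2, ℝ)) : Matrix (Fin 2) (Fin 2) ℝ) =
      (aS s : Matrix (Fin 2) (Fin 2) ℝ) * (g : Matrix (Fin 2) (Fin 2) ℝ) *
        (aS t : Matrix (Fin 2) (Fin 2) ℝ) := rfl
  have e1 : Real.exp ((s + t) / 2) = Real.exp (s / 2) * Real.exp (t / 2) := by
    rw [← Real.exp_add]; congr 1; ring
  have e2 : Real.exp ((s - t) / 2) = Real.exp (s / 2) * Real.exp (-(t / 2)) := by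
    rw [← Real.exp_add]; congr 1; ring
  have e3 : Real.exp (-((s - t) / 2)) = Real.exp (-(s / 2)) * Real.exp (t / 2) := by
    rw [← Real.exp_add]; congr 1; ring
  have e4 : Real.exp (-((s + t) / 2)) = Real.exp (-(s / 2)) * Real.exp (-(t / 2)) := by
    rw [← Real.exp_add]; congr 1; ring
  rw [e1, e2, e3, e4, h]
  simp only [aS, Matrix.mul_apply, Fin.sum_univ_two, Matrix.of_apply, Matrix.cons_val_zero,
    Matrix.cons_val_one, Matrix.cons_val', Matrix.cons_val_fin_one]
  refine ⟨?_, ?_, ?_, ?_⟩ <;> ring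

omit [MeasurableSpace SL(2, ℝ)] [BorelSpace SL(2, ℝ)] in
theorem Win_preimage (s t a b : ℝ) (E : Set (ℝ × ℝ)) :
    (fun g => aS s * g * aS t) ⁻¹' (Win a b E) = Win (a - (s + t)) (b - (s + t))
      {q | (Real.exp ((s - t) / 2) * q.1, Real.exp (-((s - t) / 2)) * q.2) ∈ E} := by
  ext g
  obtain ⟨h1, h2, h3, h4⟩ := conj_entries s t g
  simp only [Win, Set.mem_preimage, Set.mem_ofPred_eq, h1, h2, h3, h4]
  have e1 : 0 < Real.exp ((s + t) / 2) * g 0 0 ↔ 0 < g 0 0 :=
    ⟨fun h => by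
      have := Real.exp_pos ((s + t) / 2)
      by_contra hc
      nlinarith, fun h => by positivity⟩
  have e2 : 0 < Real.exp (-((s + t) / 2)) * g 1 1 ↔ 0 < g 1 1 :=
    ⟨fun h => by
      have := Real.exp_pos (-((s + t) / 2))
      by_contra hc
      nlinarith, fun h => by positivity⟩
  rw [e1, e2]
  refine and_congr_right fun p0 => and_congr_right fun p1 => ?_
  have e3 : Real.log (Real.exp ((s + t) / 2) * g 0 0 / (Real.exp (-((s + t) / 2)) * g 1 1)) =
      (s + t) + Real.log (g 0 0 / g 1 1) := by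
    have : Real.exp ((s + t) / 2) * g 0 0 / (Real.exp (-((s + t) / 2)) * g 1 1) =
        Real.exp (s + t) * (g 0 0 / g 1 1) := by
      have h5 : Real.exp (s + t) * Real.exp (-((s + t) / 2)) = Real.exp ((s + t) / 2) := by
        rw [← Real.exp_add]; congr 1; ring
      have h6 := (Real.exp_pos (-((s + t) / 2))).ne'
      rw [← h5]
      field_simp
    rw [this, Real.log_mul (Real.exp_pos _).ne' (div_pos p0 p1).ne', Real.log_exp]
  rw [e3]
  constructor
  · rintro ⟨q1, q2, q3⟩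
    exact ⟨by linarith, by linarith, q3⟩
  · rintro ⟨q1, q2, q3⟩
    exact ⟨by linarith, by linarith, q3⟩

theorem FlowMeas.pairM_preimage [Countable Γ] [SFinite μ] (hμ : FlowMeas Γ D μ p)
    (hD : IsFundamentalDomain Γ D (volume : Measure ℍ)) (s t : ℝ) {S : Set SL(2, ℝ)}
    (hS : MeasurableSet S) :
    pairM D μ ((fun g => aS s * g * aS t) ⁻¹' S) = pairM D μ S := by
  have hc : Measurable fun g : SL(2, ℝ) => aS s * g * aS t :=
    ((continuous_const_mul (aS s)).mul continuous_const).measurable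
  conv_rhs => rw [← hμ.pairM_conj hD s t, Measure.map_apply hc hS]

/-- translation of the time window -/
theorem FlowMeas.Win_shift [Countable Γ] [SFinite μ] (hμ : FlowMeas Γ D μ p)
    (hD : IsFundamentalDomain Γ D (volume : Measure ℍ)) (a b τ : ℝ) {E : Set (ℝ × ℝ)}
    (hE : MeasurableSet E) : pairM D μ (Win (a + τ) (b + τ) E) = pairM D μ (Win a b E) := by
  rw [← hμ.pairM_preimage hD (τ / 2) (τ / 2) (Win_meas _ _ hE), Win_preimage]
  congr 1
  simp

/-- the time window may be divided into equal parts -/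
theorem FlowMeas.Win_mul [Countable Γ] [SFinite μ] (hμ : FlowMeas Γ D μ p)
    (hD : IsFundamentalDomain Γ D (volume : Measure ℍ)) {E : Set (ℝ × ℝ)}
    (hE : MeasurableSet E) {τ : ℝ} (hτ : 0 ≤ τ) (k : ℕ) :
    pairM D μ (Win 0 (k * τ) E) = k * pairM D μ (Win 0 τ E) := by
  induction k with
  | zero =>
    have : Win 0 (((0 : ℕ) : ℝ) * τ) E = ∅ := by
      ext g
      simp only [Win, Set.mem_ofPred_eq, Set.mem_empty_iff_false, iff_false]
      rintro ⟨_, _, h1, h2, _⟩
      rw [Nat.cast_zero, zero_mul] at h2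
      linarith
    rw [this]
    simp
  | succ k ih =>
    have hk : (0 : ℝ) ≤ k * τ := by positivity
    have hu : Win 0 (((k + 1 : ℕ) : ℝ) * τ) E =
        Win 0 (k * τ) E ∪ Win (0 + k * τ) (τ + k * τ) E := by
      ext g
      simp only [Win, Set.mem_ofPred_eq, Set.mem_union]
      push_cast
      constructor
      · rintro ⟨h1, h2, h3, h4, h5⟩
        rcases lt_or_ge (Real.log (g 0 0 / g 1 1)) (k * τ) with h | h
        · exact Or.inl ⟨h1, h2, h3, h, h5⟩
        · exact Or.inr ⟨h1, h2, by linarith, by linarith, h5⟩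
      · rintro (⟨h1, h2, h3, h4, h5⟩ | ⟨h1, h2, h3, h4, h5⟩)
        · exact ⟨h1, h2, h3, by linarith, h5⟩
        · exact ⟨h1, h2, by linarith, by linarith, h5⟩
    have hd : Disjoint (Win 0 (k * τ) E) (Win (0 + k * τ) (τ + k * τ) E) := by
      rw [Set.disjoint_left]
      rintro g ⟨_, _, _, h4, _⟩ ⟨_, _, h3, _, _⟩
      linarith
    rw [hu, measure_union hd (Win_meas _ _ hE), ih, hμ.Win_shift hD 0 τ (k * τ) hE]
    push_cast
    ring

/-- the measure of the coordinates `(g₀₁, g₁₀)` of the pairs with time difference in `[0, 1)` -/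
def nuP (D : Set ℍ) (μ : Measure SL(2, ℝ)) : Measure (ℝ × ℝ) :=
  Measure.map (fun g : SL(2, ℝ) => (g 0 1, g 1 0)) ((pairM D μ).restrict (Win 0 1 univ))

theorem nuP_apply {E : Set (ℝ × ℝ)} (hE : MeasurableSet E) :
    nuP D μ E = pairM D μ (Win 0 1 E) := by
  unfold nuP
  rw [Measure.map_apply bc_meas hE, Measure.restrict_apply (bc_meas hE)]
  congr 1
  ext g
  simp only [Win, Set.mem_inter_iff, Set.mem_preimage, Set.mem_ofPred_eq, Set.mem_univ, and_true]
  tauto

/-- invariance of `nuP` under the hyperbolic rotations -/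
theorem FlowMeas.nuP_inv [Countable Γ] [SFinite μ] (hμ : FlowMeas Γ D μ p)
    (hD : IsFundamentalDomain Γ D (volume : Measure ℍ)) {l : ℝ} (hl : 0 < l) :
    Measure.map (fun q : ℝ × ℝ => (l * q.1, q.2 / l)) (nuP D μ) = nuP D μ := by
  have hm : Measurable fun q : ℝ × ℝ => (l * q.1, q.2 / l) := by fun_prop
  ext E hE
  rw [Measure.map_apply hm hE, nuP_apply (hm hE), nuP_apply hE,
    ← hμ.pairM_preimage hD (Real.log l) (-Real.log l) (Win_meas 0 1 hE), Win_preimage]
  have e1 : (Real.log l - -Real.log l) / 2 = Real.log l := by ring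
  rw [e1, Real.exp_log hl, Real.exp_neg, Real.exp_log hl]
  congr 1
  simp only [add_neg_cancel, sub_zero]
  congr 1
  ext q
  simp only [Set.mem_preimage, Set.mem_ofPred_eq]
  rw [div_eq_inv_mul]

omit [MeasurableSpace SL(2, ℝ)] [BorelSpace SL(2, ℝ)] in
theorem strip_meas (d ε : ℝ) :
    MeasurableSet {q : ℝ × ℝ | |q.1 + q.2| < d ∧ |q.1 - q.2| < ε} := by
  have h1 : MeasurableSet {q : ℝ × ℝ | |q.1 + q.2| < d} :=
    measurableSet_lt (by fun_prop) measurable_const
  have h2 : MeasurableSet {q : ℝ × ℝ | |q.1 - q.2| < ε} :=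
    measurableSet_lt (by fun_prop) measurable_const
  exact h1.inter h2

theorem ball_meas' (d : ℝ) :
    MeasurableSet {g : SL(2, ℝ) | (g 0 0 - g 1 1) ^ 2 + (g 0 1 + g 1 0) ^ 2 < d ^ 2} := by
  refine measurableSet_lt ?_ measurable_const
  exact (((entry_meas 0 0).sub (entry_meas 1 1)).pow_const 2).add
    (((entry_meas 0 1).add (entry_meas 1 0)).pow_const 2)

omit [MeasurableSpace SL(2, ℝ)] [BorelSpace SL(2, ℝ)] in
theorem det_eq (g : SL(2, ℝ)) : g 0 0 * g 1 1 - g 0 1 * g 1 0 = 1 := by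
  have hdet := g.det_coe
  rwa [Matrix.det_fin_two] at hdet

omit [MeasurableSpace SL(2, ℝ)] [BorelSpace SL(2, ℝ)] in
theorem four_bc {b c d ε : ℝ} (h1 : |b + c| < d) (h2 : |b - c| < ε) :
    4 * (b * c) < d ^ 2 ∧ -ε ^ 2 < 4 * (b * c) := by
  have e1 : (b + c) ^ 2 < d ^ 2 := by
    rw [← sq_abs]
    exact pow_lt_pow_left₀ h1 (abs_nonneg _) two_ne_zero
  have e2 : (b - c) ^ 2 < ε ^ 2 := by
    rw [← sq_abs]
    exact pow_lt_pow_left₀ h2 (abs_nonneg _) two_ne_zero
  constructor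
  · nlinarith [sq_nonneg (b - c)]
  · nlinarith [sq_nonneg (b + c)]

omit [MeasurableSpace SL(2, ℝ)] [BorelSpace SL(2, ℝ)] in
/-- short time windows are contained in small balls -/
theorem Win_subset {d τ : ℝ} (hd : 0 < d) (hd1 : d < 1) (hτ : τ ≤ d) :
    Win 0 τ {q | |q.1 + q.2| < d ∧ |q.1 - q.2| < 1} ⊆
      {g | (g 0 0 - g 1 1) ^ 2 + (g 0 1 + g 1 0) ^ 2 < (3 * d) ^ 2} := by
  rintro g ⟨h1, h2, h3, h4, h5, h6⟩
  simp only at h5 h6
  have hdet := det_eq g
  obtain ⟨h7, -⟩ := four_bc h5 h6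
  simp only [Set.mem_ofPred_eq]
  generalize g 0 0 = x at *
  generalize g 1 1 = y at *
  generalize g 0 1 = b at *
  generalize g 1 0 = c at *
  set L := Real.log (x / y) with hL
  have hxy : y * Real.exp L = x := by
    rw [hL, Real.exp_log (div_pos h1 h2)]
    field_simp
  have hy : x * Real.exp (-L) = y := by
    rw [← hxy, mul_assoc, ← Real.exp_add, add_neg_cancel, Real.exp_zero, mul_one]
  have hL1 : L < 1 := by linarith
  have e1 : 1 - L ≤ Real.exp (-L) := by
    have := Real.add_one_le_exp (-L)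
    linarith
  have e2 : x - y ≤ x * L := by
    have := mul_le_mul_of_nonneg_left e1 h1.le
    rw [hy] at this
    linarith
  have e3 : 0 ≤ x - y := by
    have : 1 ≤ Real.exp L := Real.one_le_exp h3
    nlinarith
  have e4 : x ^ 2 ≤ 4 := by
    have h8 : Real.exp L ≤ 3 := by
      have h9 : Real.exp L ≤ Real.exp 1 := Real.exp_le_exp.2 hL1.le
      have := Real.exp_one_lt_d9
      linarith
    have h10 : x ^ 2 = (x * y) * Real.exp L := by
      rw [mul_assoc, hxy]
      ring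
    have h11 : x * y ≤ 5 / 4 := by nlinarith
    have h12 : 0 < x * y := mul_pos h1 h2
    rw [h10]
    nlinarith [Real.exp_pos L]
  have e5 : (x - y) ^ 2 ≤ 4 * d ^ 2 := by
    have h8 : (x - y) ^ 2 ≤ (x * L) ^ 2 := pow_le_pow_left₀ e3 e2 2
    have h9 : L ^ 2 ≤ d ^ 2 := pow_le_pow_left₀ h3 (by linarith) 2
    rw [mul_pow] at h8
    nlinarith [sq_nonneg x, sq_nonneg L, sq_nonneg d]
  have e6 : (b + c) ^ 2 < d ^ 2 := by
    rw [← sq_abs]
    exact pow_lt_pow_left₀ h5 (abs_nonneg _) two_ne_zero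
  nlinarith

/-- **The linear bound for `nuP`.** -/
theorem FlowMeas.nuP_bound [Countable Γ] [SFinite μ] (hμ : FlowMeas Γ D μ p)
    (hD : IsFundamentalDomain Γ D (volume : Measure ℍ)) (hDm : MeasurableSet D) :
    ∃ C : ℝ, 0 ≤ C ∧ ∀ d : ℝ, 0 < d → d < 1 →
      nuP D μ {q | |q.1 + q.2| < d ∧ |q.1 - q.2| < 1} ≤ ENNReal.ofReal (C * d) := by
  obtain ⟨C, hC, hB⟩ := hμ.pair_bound hD hDm
  refine ⟨18 * C, by positivity, fun d hd hd1 => ?_⟩
  set E : Set (ℝ × ℝ) := {q | |q.1 + q.2| < d ∧ |q.1 - q.2| < 1} with hE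
  have hEm : MeasurableSet E := strip_meas d 1
  set n : ℕ := ⌈1 / d⌉₊ with hn
  have hn1 : 1 / d ≤ n := Nat.le_ceil _
  have hn2 : (n : ℝ) < 1 / d + 1 := Nat.ceil_lt_add_one (by positivity)
  have hn0 : (0 : ℝ) < n := lt_of_lt_of_le (by positivity) hn1
  have hτ : 1 / (n : ℝ) ≤ d := by
    rw [div_le_iff₀ hn0]
    rw [div_le_iff₀ hd] at hn1
    linarith
  have h1 := hμ.Win_mul hD hEm (τ := 1 / (n : ℝ)) (by positivity) n
  rw [mul_one_div_cancel hn0.ne'] at h1
  rw [nuP_apply hEm, h1]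
  have h2 : pairM D μ (Win 0 (1 / (n : ℝ)) E) ≤ ENNReal.ofReal (C * (3 * d) ^ 2) := by
    refine (measure_mono (Win_subset hd hd1 hτ)).trans ?_
    rw [pairM_apply (ball_meas' _)]
    exact hB (3 * d) (by linarith) (by linarith)
  have h3 : (n : ℝ) ≤ 2 / d := by
    have : 1 ≤ 1 / d := by
      rw [le_div_iff₀ hd]
      linarith
    have e : 2 / d = 1 / d + 1 / d := by ring
    linarith
  calc (n : ℝ≥0∞) * pairM D μ (Win 0 (1 / (n : ℝ)) E)
      ≤ ENNReal.ofReal (2 / d) * ENNReal.ofReal (C * (3 * d) ^ 2) := by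
        gcongr
        rw [← ENNReal.ofReal_natCast]
        exact ENNReal.ofReal_le_ofReal h3
    _ = ENNReal.ofReal (18 * C * d) := by
        rw [← ENNReal.ofReal_mul (by positivity)]
        congr 1
        field_simp
        ring

omit [MeasurableSpace SL(2, ℝ)] [BorelSpace SL(2, ℝ)] in
/-- `Kset` is contained in two copies of a time window -/
theorem Kset_subset {d ε : ℝ} (hd : 0 < d) (hd1 : d ≤ 1 / 8) (hε1 : ε ≤ 1 / 8) :
    Kset d ε ⊆ Win (-(2 * d)) (2 * d) {q | |q.1 + q.2| < d ∧ |q.1 - q.2| < ε} ∪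
      (fun g => -g) ⁻¹' Win (-(2 * d)) (2 * d) {q | |q.1 + q.2| < d ∧ |q.1 - q.2| < ε} := by
  have key : ∀ g ∈ Kset d ε, 0 < g 0 0 → 0 < g 1 1 →
      g ∈ Win (-(2 * d)) (2 * d) {q | |q.1 + q.2| < d ∧ |q.1 - q.2| < ε} := by
    rintro g ⟨h1, h2⟩ hx hy
    have hdet := det_eq g
    have e1 : |g 0 1 + g 1 0| < d := by
      refine abs_lt_of_sq_lt_sq ?_ hd.le
      nlinarith [sq_nonneg (g 0 0 - g 1 1)]
    have e2 : |g 0 0 - g 1 1| < d := by
      refine abs_lt_of_sq_lt_sq ?_ hd.le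
      nlinarith [sq_nonneg (g 0 1 + g 1 0)]
    obtain ⟨-, h4⟩ := four_bc e1 h2
    have hε0 : 0 < ε := (abs_nonneg _).trans_lt h2
    refine ⟨hx, hy, ?_, ?_, e1, h2⟩
    · have h5 := Real.one_sub_inv_le_log_of_pos (div_pos hx hy)
      rw [inv_div] at h5
      refine le_trans ?_ h5
      have h6 := (abs_lt.1 e2).1
      have h7 : 1 / 2 ≤ g 0 0 := by nlinarith
      have h8 : g 1 1 / g 0 0 ≤ 1 + 2 * d := by
        rw [div_le_iff₀ hx]
        nlinarith
      linarith
    · have h5 := Real.log_le_sub_one_of_pos (div_pos hx hy)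
      refine lt_of_le_of_lt h5 ?_
      have h6 := (abs_lt.1 e2).2
      have h7 : 1 / 2 ≤ g 1 1 := by nlinarith
      have h8 : g 0 0 / g 1 1 < 1 + 2 * d := by
        rw [div_lt_iff₀ hy]
        nlinarith
      linarith
  intro g hg
  have hdet := det_eq g
  obtain ⟨h1, h2⟩ := hg
  have e1 : |g 0 1 + g 1 0| < d := by
    refine abs_lt_of_sq_lt_sq ?_ hd.le
    nlinarith [sq_nonneg (g 0 0 - g 1 1)]
  obtain ⟨-, h4⟩ := four_bc e1 h2
  have hε0 : 0 < ε := (abs_nonneg _).trans_lt h2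
  have hpos : 0 < g 0 0 * g 1 1 := by nlinarith
  rcases lt_trichotomy (g 0 0) 0 with h | h | h
  · have h' : g 1 1 < 0 := by
      by_contra hc
      nlinarith
    refine Or.inr (key (-g) ⟨?_, ?_⟩ ?_ ?_)
    · simp only [Matrix.SpecialLinearGroup.coe_neg, Matrix.neg_apply]
      nlinarith
    · simp only [Matrix.SpecialLinearGroup.coe_neg, Matrix.neg_apply]
      rw [neg_sub_neg, abs_sub_comm]
      exact h2
    · simp only [Matrix.SpecialLinearGroup.coe_neg, Matrix.neg_apply]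
      linarith
    · simp only [Matrix.SpecialLinearGroup.coe_neg, Matrix.neg_apply]
      linarith
  · rw [h, zero_mul] at hpos
    exact absurd hpos (lt_irrefl _)
  · have h' : 0 < g 1 1 := by
      by_contra hc
      nlinarith
    exact Or.inl (key g ⟨h1, h2⟩ h h')

/-- **From `nuP` back to the pairs.** -/
theorem FlowMeas.Kset_le [Countable Γ] [SFinite μ] (hμ : FlowMeas Γ D μ p)
    (hD : IsFundamentalDomain Γ D (volume : Measure ℍ)) {d ε : ℝ} (hd : 0 < d)
    (hd1 : d ≤ 1 / 8) (hε1 : ε ≤ 1 / 8) :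
    pairMass D μ (Kset d ε) ≤
      ENNReal.ofReal (16 * d) * nuP D μ {q | |q.1 + q.2| < d ∧ |q.1 - q.2| < ε} := by
  set E : Set (ℝ × ℝ) := {q | |q.1 + q.2| < d ∧ |q.1 - q.2| < ε} with hE
  have hEm : MeasurableSet E := strip_meas d ε
  have hKm : MeasurableSet (Kset d ε) :=
    (ball_meas' d).inter (measurableSet_lt
      (((entry_meas 0 1).sub (entry_meas 1 0)).abs) measurable_const)
  have hWm := Win_meas (-(2 * d)) (2 * d) hEm
  have hn : Measurable fun g : SL(2, ℝ) => -g := neg_cont.measurable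
  have e1 : pairM D μ ((fun g => -g) ⁻¹' Win (-(2 * d)) (2 * d) E) =
      pairM D μ (Win (-(2 * d)) (2 * d) E) := by
    conv_rhs => rw [← hμ.pairM_neg, Measure.map_apply hn hWm]
  have e2 : pairM D μ (Win (-(2 * d)) (2 * d) E) = pairM D μ (Win 0 (4 * d) E) := by
    rw [← hμ.Win_shift hD (-(2 * d)) (2 * d) (2 * d) hEm]
    congr 2
    · ring
    · ring
  set n : ℕ := ⌊1 / (4 * d)⌋₊ with hn'
  have h4d : 0 < 4 * d := by positivity
  have hn1 : (n : ℝ) ≤ 1 / (4 * d) := Nat.floor_le (by positivity)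
  have hn2 : 1 / (4 * d) < n + 1 := Nat.lt_floor_add_one _
  have h2 : 2 ≤ 1 / (4 * d) := by
    rw [le_div_iff₀ h4d]
    linarith
  have hn0 : (0 : ℝ) < n := by linarith
  have hτ : 4 * d ≤ 1 / (n : ℝ) := by
    rw [le_div_iff₀ hn0]
    rw [le_div_iff₀ h4d] at hn1
    linarith
  have e3 : pairM D μ (Win 0 (4 * d) E) ≤ pairM D μ (Win 0 (1 / (n : ℝ)) E) := by
    refine measure_mono ?_
    rintro g ⟨q1, q2, q3, q4, q5⟩
    exact ⟨q1, q2, q3, q4.trans_le hτ, q5⟩
  have e4 := hμ.Win_mul hD hEm (τ := 1 / (n : ℝ)) (by positivity) n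
  rw [mul_one_div_cancel hn0.ne', ← nuP_apply hEm] at e4
  have e5 : 1 / (n : ℝ) ≤ 8 * d := by
    have h3 : 1 / (8 * d) ≤ n := by
      have e : 1 / (4 * d) = 1 / (8 * d) + 1 / (8 * d) := by
        field_simp
        norm_num
      have h1 : 1 ≤ 1 / (8 * d) := by
        rw [le_div_iff₀ (by positivity)]
        linarith
      linarith
    rw [div_le_iff₀ hn0]
    rw [div_le_iff₀ (by positivity)] at h3
    linarith
  have e6 : pairM D μ (Win 0 (1 / (n : ℝ)) E) ≤ ENNReal.ofReal (8 * d) * nuP D μ E := by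
    rw [e4]
    have hone : (1 : ℝ≥0∞) ≤ ENNReal.ofReal (8 * d) * n := by
      rw [← ENNReal.ofReal_natCast, ← ENNReal.ofReal_mul (by positivity), ← ENNReal.ofReal_one]
      refine ENNReal.ofReal_le_ofReal ?_
      rw [div_le_iff₀ hn0] at e5
      exact e5
    rw [← mul_assoc]
    calc pairM D μ (Win 0 (1 / (n : ℝ)) E) = 1 * pairM D μ (Win 0 (1 / (n : ℝ)) E) :=
          (one_mul _).symm
      _ ≤ _ := by gcongr
  rw [← pairM_apply hKm]
  calc pairM D μ (Kset d ε)
      ≤ pairM D μ (Win (-(2 * d)) (2 * d) E ∪ (fun g => -g) ⁻¹' Win (-(2 * d)) (2 * d) E) :=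
        measure_mono (Kset_subset hd hd1 hε1)
    _ ≤ pairM D μ (Win (-(2 * d)) (2 * d) E) +
          pairM D μ ((fun g => -g) ⁻¹' Win (-(2 * d)) (2 * d) E) := measure_union_le _ _
    _ = 2 * pairM D μ (Win 0 (4 * d) E) := by rw [e1, e2, two_mul]
    _ ≤ 2 * (ENNReal.ofReal (8 * d) * nuP D μ E) := by gcongr; exact e3.trans e6
    _ = ENNReal.ofReal (16 * d) * nuP D μ E := by
        rw [← mul_assoc, show (2 : ℝ≥0∞) = ENNReal.ofReal 2 by simp,
          ← ENNReal.ofReal_mul (by positivity)]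
        congr 2
        ring

end

end

end QE
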