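import Mathlib

/-!
# Measures on the plane invariant under hyperbolic dilations   (helper25, module QH_E1)

`ν` is a measure on `ℝ × ℝ` (coordinates `(b, c)`), invariant under `(b, c) ↦ (l b, c / l)`, with
`ν {|b + c| < d, |b - c| < 1} ≤ C d` for `0 < d < 1`.

* `pi_spacelike` : `ν {0 < b < d, -d < c < 0} = o(d)` (and the same for the opposite quadrant);
* `pi_main` : if in addition `ν {b, c ∈ [d/2, d)} = o(d)` and `ν {-b, -c ∈ [d/2, d)} = o(d)` then
  `ν {|b + c| < d, |b - c| < ε} ≤ η d` for small `ε` and all small `d`.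

The part of `ν` in a spacelike quadrant and in a shell of `s = √(-bc)` is pushed forward to the
hyperbolic angle; it is translation invariant, hence a multiple of the Lebesgue measure.
-/

set_option autoImplicit false

open MeasureTheory Set Filter
open scoped Real Topology ENNReal NNReal

namespace QE

/-- the hypotheses of the two theorems of this file -/
structure PiHyp (ν : Measure (ℝ × ℝ)) (C : ℝ) : Prop where
  inv : ∀ l : ℝ, 0 < l → Measure.map (fun q : ℝ × ℝ => (l * q.1, q.2 / l)) ν = ν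
  bd : ∀ d : ℝ, 0 < d → d < 1 →
    ν {q : ℝ × ℝ | |q.1 + q.2| < d ∧ |q.1 - q.2| < 1} ≤ ENNReal.ofReal (C * d)

namespace PiAux

noncomputable section

/-- `s = √(-bc)` -/
def ss (q : ℝ × ℝ) : ℝ := √(-(q.1 * q.2))

/-- hyperbolic angle -/
def ww (q : ℝ × ℝ) : ℝ := (Real.log q.1 - Real.log (-q.2)) / 2

lemma dil_meas (l : ℝ) : Measurable (fun q : ℝ × ℝ => (l * q.1, q.2 / l)) := by fun_prop

lemma ss_meas : Measurable ss := by
  unfold ss
  fun_prop

lemma ww_meas : Measurable ww := by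
  unfold ww
  fun_prop

lemma ss_pos {q : ℝ × ℝ} (h1 : 0 < q.1) (h2 : q.2 < 0) : 0 < ss q :=
  Real.sqrt_pos.2 (by nlinarith)

lemma exp1 {q : ℝ × ℝ} (h1 : 0 < q.1) (h2 : q.2 < 0) : q.1 = ss q * Real.exp (ww q) := by
  have hs := ss_pos h1 h2
  have h3 : Real.log (ss q) = (Real.log q.1 + Real.log (-q.2)) / 2 := by
    unfold ss
    rw [Real.log_sqrt (by nlinarith), ← mul_neg, Real.log_mul h1.ne' (by linarith)]
  have h4 : Real.log q.1 = Real.log (ss q * Real.exp (ww q)) := by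
    rw [Real.log_mul hs.ne' (Real.exp_ne_zero _), Real.log_exp, h3]
    unfold ww
    ring
  exact Real.log_injOn_pos (mem_Ioi.2 h1) (mem_Ioi.2 (by positivity)) h4

lemma exp2 {q : ℝ × ℝ} (h1 : 0 < q.1) (h2 : q.2 < 0) : -q.2 = ss q * Real.exp (-ww q) := by
  have hs := ss_pos h1 h2
  have h3 : Real.log (ss q) = (Real.log q.1 + Real.log (-q.2)) / 2 := by
    unfold ss
    rw [Real.log_sqrt (by nlinarith), ← mul_neg, Real.log_mul h1.ne' (by linarith)]
  have h4 : Real.log (-q.2) = Real.log (ss q * Real.exp (-ww q)) := by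
    rw [Real.log_mul hs.ne' (Real.exp_ne_zero _), Real.log_exp, h3]
    unfold ww
    ring
  exact Real.log_injOn_pos (mem_Ioi.2 (by linarith)) (mem_Ioi.2 (by positivity)) h4

lemma ss_dil {l : ℝ} (hl : 0 < l) (q : ℝ × ℝ) : ss (l * q.1, q.2 / l) = ss q := by
  unfold ss
  congr 2
  simp only
  field_simp

lemma ww_dil {l : ℝ} (hl : 0 < l) {q : ℝ × ℝ} (h1 : 0 < q.1) (h2 : q.2 < 0) :
    ww (l * q.1, q.2 / l) = Real.log l + ww q := by
  unfold ww
  simp only
  rw [Real.log_mul hl.ne' h1.ne', ← neg_div, Real.log_div (by linarith) hl.ne']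
  ring

/-- shell -/
def Sh (m : ℕ) : Set (ℝ × ℝ) :=
  {q | 0 < q.1 ∧ q.2 < 0 ∧ (1 / 2 : ℝ) ^ (m + 1) < ss q ∧ ss q ≤ (1 / 2 : ℝ) ^ m}

lemma Sh_meas (m : ℕ) : MeasurableSet (Sh m) := by
  have h1 : MeasurableSet {q : ℝ × ℝ | 0 < q.1} := measurableSet_lt measurable_const measurable_fst
  have h2 : MeasurableSet {q : ℝ × ℝ | q.2 < 0} := measurableSet_lt measurable_snd measurable_const
  have h3 : MeasurableSet {q : ℝ × ℝ | (1 / 2 : ℝ) ^ (m + 1) < ss q} :=
    measurableSet_lt measurable_const ss_meas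
  have h4 : MeasurableSet {q : ℝ × ℝ | ss q ≤ (1 / 2 : ℝ) ^ m} :=
    measurableSet_le ss_meas measurable_const
  exact h1.inter (h2.inter (h3.inter h4))

lemma Sh_dil {l : ℝ} (hl : 0 < l) (m : ℕ) :
    (fun q : ℝ × ℝ => (l * q.1, q.2 / l)) ⁻¹' Sh m = Sh m := by
  ext q
  have h1 : 0 < l * q.1 ↔ 0 < q.1 := mul_pos_iff_of_pos_left hl
  have h2 : q.2 / l < 0 ↔ q.2 < 0 := by
    rw [div_lt_iff₀ hl, zero_mul]
  show (0 < l * q.1 ∧ q.2 / l < 0 ∧ (1 / 2 : ℝ) ^ (m + 1) < ss (l * q.1, q.2 / l) ∧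
    ss (l * q.1, q.2 / l) ≤ (1 / 2 : ℝ) ^ m) ↔ _
  rw [h1, h2, ss_dil hl]
  rfl

lemma Sh_disj {m n : ℕ} (h : m ≠ n) : Disjoint (Sh m) (Sh n) := by
  wlog hmn : m < n generalizing m n
  · exact (this h.symm (lt_of_le_of_ne (not_lt.1 hmn) h.symm)).symm
  rw [Set.disjoint_left]
  intro q hq hq'
  have h1 : (1 / 2 : ℝ) ^ n ≤ (1 / 2 : ℝ) ^ (m + 1) :=
    pow_le_pow_of_le_one (by norm_num) (by norm_num) hmn
  exact absurd (hq.2.2.1.trans_le (hq'.2.2.2.trans h1)) (lt_irrefl _)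

variable {ν : Measure (ℝ × ℝ)} {C : ℝ}

lemma tau_inv (h : PiHyp ν C) (m : ℕ) :
    (Measure.map ww (ν.restrict (Sh m))).IsAddLeftInvariant := by
  constructor
  intro t
  have hl : 0 < Real.exp t := Real.exp_pos t
  have hd := dil_meas (Real.exp t)
  have e1 : Measure.map ww (ν.restrict (Sh m)) =
      Measure.map (ww ∘ (fun q : ℝ × ℝ => (Real.exp t * q.1, q.2 / Real.exp t)))
        (ν.restrict (Sh m)) := by
    conv_lhs => rw [← h.inv _ hl]
    rw [Measure.restrict_map hd (Sh_meas m), Sh_dil hl, Measure.map_map ww_meas hd]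
  have e2 : Measure.map (ww ∘ (fun q : ℝ × ℝ => (Real.exp t * q.1, q.2 / Real.exp t)))
        (ν.restrict (Sh m)) = Measure.map ((t + ·) ∘ ww) (ν.restrict (Sh m)) := by
    refine Measure.map_congr ?_
    filter_upwards [ae_restrict_mem (Sh_meas m)] with q hq
    simp only [Function.comp]
    rw [ww_dil hl hq.1 hq.2.1, Real.log_exp]
  rw [Measure.map_map (measurable_const_add t) ww_meas, ← e2, ← e1]

/-- a small window of a shell is in the set which is controlled -/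
lemma window {m : ℕ} (hm : 3 ≤ m) {q : ℝ × ℝ} (hq : q ∈ Sh m) {h d : ℝ} (hh : h ≤ 1)
    (hw : |ww q| < h) (hd : 4 * (1 / 2 : ℝ) ^ m * h ≤ d) :
    |q.1 + q.2| < d ∧ |q.1 - q.2| < 1 := by
  obtain ⟨h1, h2, -, h3⟩ := hq
  have hs := ss_pos h1 h2
  have e1 := exp1 h1 h2
  have e2 := exp2 h1 h2
  have hw1 : |ww q| ≤ 1 := hw.le.trans hh
  have hh0 : 0 < h := lt_of_le_of_lt (abs_nonneg _) hw
  have a1 := Real.abs_exp_sub_one_le hw1
  have a2 := Real.abs_exp_sub_one_le (x := -ww q) (by rwa [abs_neg])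
  rw [abs_neg] at a2
  have hpow : (1 / 2 : ℝ) ^ m ≤ (1 / 2 : ℝ) ^ 3 :=
    pow_le_pow_of_le_one (by norm_num) (by norm_num) hm
  constructor
  · have e3 : q.1 + q.2 = ss q * ((Real.exp (ww q) - 1) - (Real.exp (-ww q) - 1)) := by
      linear_combination e1 - e2
    rw [e3, abs_mul, abs_of_pos hs]
    calc ss q * |(Real.exp (ww q) - 1) - (Real.exp (-ww q) - 1)|
        ≤ ss q * (|Real.exp (ww q) - 1| + |Real.exp (-ww q) - 1|) := by
          gcongr
          exact abs_sub _ _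
      _ ≤ ss q * (2 * |ww q| + 2 * |ww q|) := by gcongr
      _ = 4 * ss q * |ww q| := by ring
      _ < 4 * ss q * h := by gcongr
      _ ≤ 4 * (1 / 2 : ℝ) ^ m * h := by gcongr
      _ ≤ d := hd
  · have e4 : q.1 - q.2 = ss q * (Real.exp (ww q) + Real.exp (-ww q)) := by
      linear_combination e1 + e2
    have b1 : Real.exp (ww q) ≤ Real.exp 1 := Real.exp_le_exp.2 ((le_abs_self _).trans hw1)
    have b2 : Real.exp (-ww q) ≤ Real.exp 1 := Real.exp_le_exp.2 ((neg_le_abs _).trans hw1)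
    have b3 := Real.exp_one_lt_d9
    have b4 : ss q ≤ 1 / 8 := by
      refine h3.trans (hpow.trans ?_)
      norm_num
    rw [e4, abs_of_pos (by positivity)]
    calc ss q * (Real.exp (ww q) + Real.exp (-ww q)) ≤ 1 / 8 * (Real.exp 1 + Real.exp 1) := by gcongr
      _ < 1 := by linarith

/-- the angular measure of a shell is a multiple of the Lebesgue measure -/
lemma exists_const (h : PiHyp ν C) {m : ℕ} (hm : 3 ≤ m) :
    ∃ c : ℝ≥0, ∀ r : ℝ, 0 < r → ν (Sh m ∩ {q | |ww q| < r}) = c * ENNReal.ofReal (2 * r) := by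
  have hinv := tau_inv h m
  set τ : Measure ℝ := Measure.map ww (ν.restrict (Sh m)) with hτ
  have hval : ∀ r : ℝ, τ (Ioo (-r) r) = ν (Sh m ∩ {q | |ww q| < r}) := by
    intro r
    rw [hτ, Measure.map_apply ww_meas measurableSet_Ioo,
      Measure.restrict_apply (ww_meas measurableSet_Ioo), inter_comm]
    congr 1
    ext q
    simp [abs_lt]
  have hfin : τ (Ioo (-(1 / 2 : ℝ)) (1 / 2)) ≠ ⊤ := by
    rw [hval]
    have hsub : Sh m ∩ {q | |ww q| < 1 / 2} ⊆ {q : ℝ × ℝ | |q.1 + q.2| < 1 / 2 ∧ |q.1 - q.2| < 1} := by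
      intro q hq
      refine window hm hq.1 (h := 1 / 2) (by norm_num) hq.2 ?_
      have hpow : (1 / 2 : ℝ) ^ m ≤ (1 / 2 : ℝ) ^ 3 :=
        pow_le_pow_of_le_one (by norm_num) (by norm_num) hm
      linarith
    exact ((measure_mono hsub).trans (h.bd (1 / 2) (by norm_num) (by norm_num))).trans_lt
      ENNReal.ofReal_lt_top |>.ne
  have hK : IsFiniteMeasureOnCompacts τ := ⟨fun K hK =>
    measure_lt_top_of_isCompact_of_isAddLeftInvariant (Ioo (-(1 / 2 : ℝ)) (1 / 2)) isOpen_Ioo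
      ⟨0, by norm_num⟩ hfin hK⟩
  obtain ⟨c, hc⟩ : ∃ c : ℝ≥0, τ = c • (volume : Measure ℝ) :=
    ⟨_, Measure.isAddLeftInvariant_eq_smul τ (volume : Measure ℝ)⟩
  refine ⟨c, fun r _ => ?_⟩
  rw [← hval, hc, Measure.smul_apply, Real.volume_Ioo, ENNReal.smul_def, smul_eq_mul]
  congr 2
  ring

/-- the estimate in the spacelike quadrant `b > 0 > c` -/
lemma core (h : PiHyp ν C) (η : ℝ) (hη : 0 < η) : ∃ σ : ℝ, 0 < σ ∧ ∀ d : ℝ, 0 < d →
    ν {q : ℝ × ℝ | 0 < q.1 ∧ q.2 < 0 ∧ ss q ≤ σ ∧ |ww q| * ss q < d} ≤ ENNReal.ofReal (η * d) := by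
  choose c hc using fun j : ℕ => exists_const h (m := j + 3) (by omega)
  set f : ℕ → ℝ := fun j => (c j : ℝ) * 2 ^ j with hf
  have hf0 : ∀ j, 0 ≤ f j := fun j => by positivity
  have hJ : ∀ J : ℕ, ∑ j ∈ Finset.range J, f j ≤ |C| / 2 := by
    intro J
    set e : ℝ := (1 / 2 : ℝ) ^ (J + 1) with he
    have he0 : 0 < e := by positivity
    have he1 : e < 1 := pow_lt_one₀ (by norm_num) (by norm_num) (by omega)
    have hmem : ∀ j ∈ Finset.range J,
        Sh (j + 3) ∩ {q | |ww q| < e * 2 ^ j} ⊆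
          {q : ℝ × ℝ | |q.1 + q.2| < e ∧ |q.1 - q.2| < 1} := by
      intro j hj q hq
      have hjJ : j < J := Finset.mem_range.1 hj
      refine window (by omega) hq.1 (h := e * 2 ^ j) ?_ hq.2 ?_
      · have h1 : e ≤ (1 / 2 : ℝ) ^ j :=
          pow_le_pow_of_le_one (by norm_num) (by norm_num) (by omega)
        calc e * 2 ^ j ≤ (1 / 2 : ℝ) ^ j * 2 ^ j := by gcongr
          _ = 1 := by rw [← mul_pow]; norm_num
      · have h2 : (1 / 2 : ℝ) ^ j * 2 ^ j = 1 := by rw [← mul_pow]; norm_num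
        calc 4 * (1 / 2 : ℝ) ^ (j + 3) * (e * 2 ^ j)
            = 1 / 2 * e * ((1 / 2 : ℝ) ^ j * 2 ^ j) := by ring
          _ = 1 / 2 * e := by rw [h2, mul_one]
          _ ≤ e := by linarith
    have hsum : ∑ j ∈ Finset.range J, ν (Sh (j + 3) ∩ {q | |ww q| < e * 2 ^ j}) ≤
        ENNReal.ofReal (|C| * e) := by
      rw [← measure_biUnion_finset]
      · refine (measure_mono (iUnion₂_subset hmem)).trans ((h.bd e he0 he1).trans ?_)
        apply ENNReal.ofReal_le_ofReal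
        gcongr
        exact le_abs_self C
      · intro i _ j _ hij
        exact (Sh_disj (by omega)).mono inter_subset_left inter_subset_left
      · intro j _
        exact (Sh_meas _).inter (measurableSet_lt (ww_meas.abs) measurable_const)
    have hval : ∀ j ∈ Finset.range J, ν (Sh (j + 3) ∩ {q | |ww q| < e * 2 ^ j}) =
        ENNReal.ofReal (2 * e * f j) := by
      intro j _
      rw [hc j (e * 2 ^ j) (by positivity), ← ENNReal.ofReal_coe_nnreal,
        ← ENNReal.ofReal_mul (by positivity)]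
      congr 1
      simp only [hf]
      ring
    rw [Finset.sum_congr rfl hval, ← ENNReal.ofReal_sum_of_nonneg
      (fun j _ => mul_nonneg (by positivity) (hf0 j)),
      ENNReal.ofReal_le_ofReal_iff (by positivity), ← Finset.mul_sum] at hsum
    have : e * (2 * ∑ j ∈ Finset.range J, f j) ≤ e * |C| := by linarith
    have := le_of_mul_le_mul_left this he0
    linarith
  have hs : Summable f := summable_of_sum_range_le hf0 hJ
  have ht := tendsto_sum_nat_add f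
  obtain ⟨j0, hj0⟩ := ((tendsto_order.1 ht).2 (η / 32) (by positivity)).exists
  refine ⟨(1 / 2 : ℝ) ^ (j0 + 3), by positivity, fun d hd => ?_⟩
  have hsub : {q : ℝ × ℝ | 0 < q.1 ∧ q.2 < 0 ∧ ss q ≤ (1 / 2 : ℝ) ^ (j0 + 3) ∧
      |ww q| * ss q < d} ⊆
      ⋃ n : ℕ, Sh (n + j0 + 3) ∩ {q | |ww q| < d * 2 ^ (n + j0 + 4)} := by
    rintro q ⟨h1, h2, h3, h4⟩
    have hsq := ss_pos h1 h2
    have hσ : (0 : ℝ) < (1 / 2 : ℝ) ^ (j0 + 3) := by positivity
    obtain ⟨n, hn1, hn2⟩ := exists_nat_pow_near_of_lt_one (x := ss q / (1 / 2 : ℝ) ^ (j0 + 3))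
      (y := (1 / 2 : ℝ)) (by positivity) ((div_le_one hσ).2 h3) (by norm_num) (by norm_num)
    rw [lt_div_iff₀ hσ, ← pow_add, show n + 1 + (j0 + 3) = n + j0 + 3 + 1 by omega] at hn1
    rw [div_le_iff₀ hσ, ← pow_add, show n + (j0 + 3) = n + j0 + 3 by omega] at hn2
    refine mem_iUnion.2 ⟨n, ⟨h1, h2, hn1, hn2⟩, ?_⟩
    · show |ww q| < d * 2 ^ (n + j0 + 4)
      have h5 : (1 : ℝ) < ss q * 2 ^ (n + j0 + 4) := by
        calc (1 : ℝ) = (1 / 2 : ℝ) ^ (n + j0 + 3 + 1) * 2 ^ (n + j0 + 4) := by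
              rw [show n + j0 + 3 + 1 = n + j0 + 4 by omega, ← mul_pow]
              norm_num
          _ < _ := by gcongr
      by_contra hcon
      rw [not_lt] at hcon
      have h6 : d * 1 ≤ d * (ss q * 2 ^ (n + j0 + 4)) := by gcongr
      have h7 : d * 2 ^ (n + j0 + 4) * ss q ≤ |ww q| * ss q := by gcongr
      have h8 : d * (ss q * 2 ^ (n + j0 + 4)) = d * 2 ^ (n + j0 + 4) * ss q := by ring
      linarith
  refine (measure_mono hsub).trans ((measure_iUnion_le _).trans ?_)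
  have hval : ∀ n : ℕ, ν (Sh (n + j0 + 3) ∩ {q | |ww q| < d * 2 ^ (n + j0 + 4)}) =
      ENNReal.ofReal (32 * d * f (n + j0)) := by
    intro n
    rw [hc (n + j0) (d * 2 ^ (n + j0 + 4)) (by positivity), ← ENNReal.ofReal_coe_nnreal,
      ← ENNReal.ofReal_mul (by positivity)]
    congr 1
    simp only [hf]
    ring
  rw [tsum_congr hval, ← ENNReal.ofReal_tsum_of_nonneg (fun n => mul_nonneg (by positivity) (hf0 _))
    (((summable_nat_add_iff j0).2 hs).mul_left _), tsum_mul_left]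
  apply ENNReal.ofReal_le_ofReal
  have : 32 * d * ∑' k : ℕ, f (k + j0) ≤ 32 * d * (η / 32) := by gcongr
  linarith

lemma two_ss_le {q : ℝ × ℝ} (h1 : 0 < q.1) (h2 : q.2 < 0) : 2 * ss q ≤ |q.1 - q.2| := by
  rw [abs_of_pos (by linarith)]
  have h3 : ss q ≤ (q.1 - q.2) / 2 := by
    unfold ss
    rw [Real.sqrt_le_left (by linarith)]
    nlinarith [sq_nonneg (q.1 + q.2)]
  linarith

lemma ww_mul_le {q : ℝ × ℝ} (h1 : 0 < q.1) (h2 : q.2 < 0) :
    |ww q| * ss q ≤ |q.1 + q.2| / 2 := by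
  have hs := ss_pos h1 h2
  have e1 := exp1 h1 h2
  have e2 := exp2 h1 h2
  have e3 : q.1 + q.2 = ss q * (2 * Real.sinh (ww q)) := by
    rw [Real.sinh_eq]
    linear_combination e1 - e2
  rw [e3, abs_mul, abs_of_pos hs, abs_mul, abs_two, Real.abs_sinh]
  have h3 : |ww q| ≤ Real.sinh |ww q| := Real.self_le_sinh_iff.2 (abs_nonneg _)
  nlinarith

lemma small_quad {q : ℝ × ℝ} {d : ℝ} (h1 : 0 < q.1) (h2 : q.2 < 0) (h3 : q.1 < d) (h4 : -d < q.2) :
    ss q < d ∧ |ww q| * ss q < d := by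
  have hs := ss_pos h1 h2
  have hd : 0 < d := h1.trans h3
  have e1 := exp1 h1 h2
  have e2 := exp2 h1 h2
  constructor
  · unfold ss
    rw [Real.sqrt_lt' hd]
    nlinarith
  · have h5 := Real.add_one_le_exp |ww q|
    have h6 : ss q * Real.exp |ww q| < d := by
      rcases abs_cases (ww q) with ⟨h, -⟩ | ⟨h, -⟩
      · rw [h, ← e1]
        exact h3
      · rw [h, ← e2]
        linarith
    nlinarith

/-! ### symmetries -/

lemma neg_meas : Measurable (fun q : ℝ × ℝ => ((-q.1, -q.2) : ℝ × ℝ)) := by fun_prop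

lemma swap_meas : Measurable (fun q : ℝ × ℝ => ((q.2, q.1) : ℝ × ℝ)) := by fun_prop

lemma meas_set (d : ℝ) : MeasurableSet {q : ℝ × ℝ | |q.1 + q.2| < d ∧ |q.1 - q.2| < 1} := by
  have h1 : MeasurableSet {q : ℝ × ℝ | |q.1 + q.2| < d} :=
    measurableSet_lt ((measurable_fst.add measurable_snd).abs) measurable_const
  have h2 : MeasurableSet {q : ℝ × ℝ | |q.1 - q.2| < 1} :=
    measurableSet_lt ((measurable_fst.sub measurable_snd).abs) measurable_const
  exact h1.inter h2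

lemma hyp_neg (h : PiHyp ν C) :
    PiHyp (Measure.map (fun q : ℝ × ℝ => ((-q.1, -q.2) : ℝ × ℝ)) ν) C := by
  constructor
  · intro l hl
    rw [Measure.map_map (dil_meas l) neg_meas]
    conv_rhs => rw [← h.inv l hl]
    rw [Measure.map_map neg_meas (dil_meas l)]
    congr 1
    ext q
    · simp
    · simp [neg_div]
  · intro d hd0 hd1
    rw [Measure.map_apply neg_meas (meas_set d)]
    refine le_trans (le_of_eq ?_) (h.bd d hd0 hd1)
    congr 1
    ext q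
    simp only [mem_preimage, mem_ofPred_eq]
    rw [show -q.1 + -q.2 = -(q.1 + q.2) by ring, show -q.1 - -q.2 = -(q.1 - q.2) by ring,
      abs_neg, abs_neg]

lemma hyp_swap (h : PiHyp ν C) :
    PiHyp (Measure.map (fun q : ℝ × ℝ => ((q.2, q.1) : ℝ × ℝ)) ν) C := by
  constructor
  · intro l hl
    rw [Measure.map_map (dil_meas l) swap_meas]
    conv_rhs => rw [← h.inv l⁻¹ (inv_pos.2 hl)]
    rw [Measure.map_map swap_meas (dil_meas l⁻¹)]
    congr 1
    ext q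
    · simp [mul_comm]
    · simp [div_eq_mul_inv, mul_comm]
  · intro d hd0 hd1
    rw [Measure.map_apply swap_meas (meas_set d)]
    refine le_trans (le_of_eq ?_) (h.bd d hd0 hd1)
    congr 1
    ext q
    simp only [mem_preimage, mem_ofPred_eq]
    rw [add_comm, abs_sub_comm]

/-! ### axes -/

lemma axis_meas (r : ℝ) : MeasurableSet {q : ℝ × ℝ | q.2 = 0 ∧ 0 ≤ q.1 ∧ q.1 < r} :=
  (measurableSet_eq_fun measurable_snd measurable_const).inter
    ((measurableSet_le measurable_const measurable_fst).inter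
      (measurableSet_lt measurable_fst measurable_const))

lemma axis (h : PiHyp ν C) : ν {q : ℝ × ℝ | q.2 = 0 ∧ 0 ≤ q.1} = 0 := by
  have key : ∀ r : ℝ, 0 < r → ν {q : ℝ × ℝ | q.2 = 0 ∧ 0 ≤ q.1 ∧ q.1 < r} = 0 := by
    intro r hr
    have h1 : ∀ d : ℝ, 0 < d → d < 1 →
        ν {q : ℝ × ℝ | q.2 = 0 ∧ 0 ≤ q.1 ∧ q.1 < r} ≤ ENNReal.ofReal (|C| * d) := by
      intro d hd0 hd1
      have hl : 0 < r / d := by positivity
      have e : ν {q : ℝ × ℝ | q.2 = 0 ∧ 0 ≤ q.1 ∧ q.1 < r} =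
          ν {q : ℝ × ℝ | q.2 = 0 ∧ 0 ≤ q.1 ∧ q.1 < d} := by
        conv_lhs => rw [← h.inv _ hl]
        rw [Measure.map_apply (dil_meas _) (axis_meas r)]
        congr 1
        ext q
        simp only [mem_preimage, mem_ofPred_eq]
        have a1 : q.2 / (r / d) = 0 ↔ q.2 = 0 := by
          rw [div_eq_zero_iff]
          exact ⟨fun h => h.resolve_right hl.ne', Or.inl⟩
        have a2 : 0 ≤ r / d * q.1 ↔ 0 ≤ q.1 := mul_nonneg_iff_of_pos_left hl
        have a3 : r / d * q.1 < r ↔ q.1 < d := by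
          rw [div_mul_eq_mul_div, div_lt_iff₀ hd0]
          exact mul_lt_mul_iff_right₀ hr
        rw [a1, a2, a3]
      rw [e]
      refine (measure_mono ?_).trans ((h.bd d hd0 hd1).trans ?_)
      · rintro q ⟨b1, b2, b3⟩
        show |q.1 + q.2| < d ∧ |q.1 - q.2| < 1
        rw [b1, add_zero, sub_zero, abs_of_nonneg b2]
        exact ⟨b3, b3.trans hd1⟩
      · apply ENNReal.ofReal_le_ofReal
        gcongr
        exact le_abs_self C
    have h2 : Tendsto (fun d : ℝ => ENNReal.ofReal (|C| * d)) (𝓝[>] 0) (𝓝 0) := by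
      have : Tendsto (fun d : ℝ => ENNReal.ofReal (|C| * d)) (𝓝 0)
          (𝓝 (ENNReal.ofReal (|C| * 0))) :=
        (ENNReal.continuous_ofReal.comp (continuous_const.mul continuous_id)).tendsto 0
      rw [mul_zero, ENNReal.ofReal_zero] at this
      exact this.mono_left nhdsWithin_le_nhds
    refine le_antisymm (ge_of_tendsto h2 ?_) zero_le
    filter_upwards [Ioo_mem_nhdsGT (show (0 : ℝ) < 1 by norm_num)] with d hd
    exact h1 d hd.1 hd.2
  have hsub : {q : ℝ × ℝ | q.2 = 0 ∧ 0 ≤ q.1} ⊆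
      ⋃ n : ℕ, {q : ℝ × ℝ | q.2 = 0 ∧ 0 ≤ q.1 ∧ q.1 < n + 1} := by
    rintro q ⟨a1, a2⟩
    obtain ⟨n, hn⟩ := exists_nat_gt q.1
    exact mem_iUnion.2 ⟨n, a1, a2, by linarith⟩
  refine measure_mono_null hsub (measure_iUnion_null fun n => key _ (by positivity))

lemma axes (h : PiHyp ν C) : ν {q : ℝ × ℝ | q.1 = 0 ∨ q.2 = 0} = 0 := by
  have hax : MeasurableSet {q : ℝ × ℝ | q.2 = 0 ∧ 0 ≤ q.1} :=
    (measurableSet_eq_fun measurable_snd measurable_const).inter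
      (measurableSet_le measurable_const measurable_fst)
  have h1 := axis h
  have h2 := axis (hyp_neg h)
  rw [Measure.map_apply neg_meas hax] at h2
  have h3 := axis (hyp_swap h)
  rw [Measure.map_apply swap_meas hax] at h3
  have h4 := axis (hyp_neg (hyp_swap h))
  rw [Measure.map_apply neg_meas hax, Measure.map_apply swap_meas (neg_meas hax)] at h4
  refine measure_mono_null ?_ (measure_union_null (measure_union_null h1 h2)
    (measure_union_null h3 h4))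
  rintro q (hq | hq)
  · rcases le_total 0 q.2 with h | h
    · exact Or.inr (Or.inl ⟨hq, h⟩)
    · exact Or.inr (Or.inr ⟨by simp [hq], by simpa using h⟩)
  · rcases le_total 0 q.1 with h | h
    · exact Or.inl (Or.inl ⟨hq, h⟩)
    · exact Or.inl (Or.inr ⟨by simp [hq], by simpa using h⟩)

/-! ### timelike quadrant -/

lemma ico_pow {x : ℝ} (h0 : 0 < x) (h1 : x < 1) :
    ∃ i : ℕ, (1 / 2 : ℝ) ^ (i + 1) ≤ x ∧ x < (1 / 2 : ℝ) ^ i := by
  classical
  have hex : ∃ n : ℕ, (1 / 2 : ℝ) ^ (n + 1) ≤ x := by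
    obtain ⟨n, hn⟩ := exists_pow_lt_of_lt_one h0 (show (1 / 2 : ℝ) < 1 by norm_num)
    exact ⟨n, (pow_le_pow_of_le_one (by norm_num) (by norm_num) (Nat.le_succ n)).trans hn.le⟩
  refine ⟨Nat.find hex, Nat.find_spec hex, ?_⟩
  rcases Nat.eq_zero_or_pos (Nat.find hex) with h | h
  · rw [h, pow_zero]
    exact h1
  · have := Nat.find_min hex (m := Nat.find hex - 1) (by omega)
    rw [not_le, Nat.sub_add_cancel h] at this
    exact this

lemma timelike (h : PiHyp ν C)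
    (ht : ∀ η : ℝ, 0 < η → ∃ d₀ : ℝ, 0 < d₀ ∧ ∀ d : ℝ, 0 < d → d < d₀ →
      ν {q : ℝ × ℝ | (d / 2 ≤ q.1 ∧ q.1 < d) ∧ d / 2 ≤ q.2 ∧ q.2 < d} ≤ ENNReal.ofReal (η * d))
    (η : ℝ) (hη : 0 < η) : ∃ d₀ : ℝ, 0 < d₀ ∧ ∀ d : ℝ, 0 < d → d < d₀ →
      ν {q : ℝ × ℝ | (0 < q.1 ∧ q.1 < d) ∧ 0 < q.2 ∧ q.2 < d} ≤ ENNReal.ofReal (η * d) := by
  set r : ℝ := √(1 / 2) with hr
  have hr0 : 0 < r := by positivity
  have hr2 : r * r = 1 / 2 := Real.mul_self_sqrt (by norm_num)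
  have hr1 : r < 1 := by
    rw [hr, Real.sqrt_lt' one_pos]
    norm_num
  have hg : Summable (fun n : ℕ => r ^ n) := summable_geometric_of_lt_one hr0.le hr1
  have hS : Summable (fun p : ℕ × ℕ => r ^ p.1 * r ^ p.2) :=
    hg.mul_of_nonneg hg (fun n => by positivity) (fun n => by positivity)
  set K : ℝ := ∑' p : ℕ × ℕ, r ^ p.1 * r ^ p.2 with hK
  have hK0 : 0 ≤ K := tsum_nonneg fun p => by positivity
  obtain ⟨d₀, hd₀, hd⟩ := ht (η / (K + 1)) (by positivity)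
  refine ⟨d₀, hd₀, fun d hd0 hd1 => ?_⟩
  have hsub : {q : ℝ × ℝ | (0 < q.1 ∧ q.1 < d) ∧ 0 < q.2 ∧ q.2 < d} ⊆
      ⋃ p : ℕ × ℕ, {q : ℝ × ℝ | ((1 / 2 : ℝ) ^ (p.1 + 1) * d ≤ q.1 ∧ q.1 < (1 / 2 : ℝ) ^ p.1 * d) ∧
        (1 / 2 : ℝ) ^ (p.2 + 1) * d ≤ q.2 ∧ q.2 < (1 / 2 : ℝ) ^ p.2 * d} := by
    rintro q ⟨⟨a1, a2⟩, a3, a4⟩
    obtain ⟨i, i1, i2⟩ := ico_pow (x := q.1 / d) (by positivity) ((div_lt_one hd0).2 a2)
    obtain ⟨j, j1, j2⟩ := ico_pow (x := q.2 / d) (by positivity) ((div_lt_one hd0).2 a4)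
    refine mem_iUnion.2 ⟨(i, j), ⟨?_, ?_⟩, ?_, ?_⟩
    · exact (le_div_iff₀ hd0).1 i1
    · exact (div_lt_iff₀ hd0).1 i2
    · exact (le_div_iff₀ hd0).1 j1
    · exact (div_lt_iff₀ hd0).1 j2
  have hbox : ∀ p : ℕ × ℕ,
      ν {q : ℝ × ℝ | ((1 / 2 : ℝ) ^ (p.1 + 1) * d ≤ q.1 ∧ q.1 < (1 / 2 : ℝ) ^ p.1 * d) ∧
        (1 / 2 : ℝ) ^ (p.2 + 1) * d ≤ q.2 ∧ q.2 < (1 / 2 : ℝ) ^ p.2 * d} ≤
      ENNReal.ofReal (η / (K + 1) * d * (r ^ p.1 * r ^ p.2)) := by
    rintro ⟨i, j⟩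
    simp only
    set e : ℝ := r ^ i * r ^ j * d with he
    have he0 : 0 < e := by positivity
    have hed : e ≤ d := by
      have h1 : r ^ i ≤ 1 := pow_le_one₀ hr0.le hr1.le
      have h2 : r ^ j ≤ 1 := pow_le_one₀ hr0.le hr1.le
      calc e ≤ 1 * 1 * d := by
            rw [he]
            gcongr
        _ = d := by ring
    have hl : 0 < r ^ j / r ^ i := by positivity
    have hi2 : r ^ i * r ^ i = (1 / 2 : ℝ) ^ i := by rw [← mul_pow, hr2]
    have hj2 : r ^ j * r ^ j = (1 / 2 : ℝ) ^ j := by rw [← mul_pow, hr2]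
    have hri : 0 < r ^ i := by positivity
    have hrj : 0 < r ^ j := by positivity
    have hmeas : MeasurableSet {q : ℝ × ℝ | (e / 2 ≤ q.1 ∧ q.1 < e) ∧ e / 2 ≤ q.2 ∧ q.2 < e} :=
      ((measurableSet_le measurable_const measurable_fst).inter
        (measurableSet_lt measurable_fst measurable_const)).inter
        ((measurableSet_le measurable_const measurable_snd).inter
        (measurableSet_lt measurable_snd measurable_const))
    have heq : ν {q : ℝ × ℝ | ((1 / 2 : ℝ) ^ (i + 1) * d ≤ q.1 ∧ q.1 < (1 / 2 : ℝ) ^ i * d) ∧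
        (1 / 2 : ℝ) ^ (j + 1) * d ≤ q.2 ∧ q.2 < (1 / 2 : ℝ) ^ j * d} =
        ν {q : ℝ × ℝ | (e / 2 ≤ q.1 ∧ q.1 < e) ∧ e / 2 ≤ q.2 ∧ q.2 < e} := by
      conv_rhs => rw [← h.inv _ hl]
      rw [Measure.map_apply (dil_meas _) hmeas]
      congr 1
      ext q
      simp only [mem_preimage, mem_ofPred_eq]
      have c1 : e / 2 ≤ r ^ j / r ^ i * q.1 ↔ (1 / 2 : ℝ) ^ (i + 1) * d ≤ q.1 := by
        rw [div_mul_eq_mul_div, le_div_iff₀ hri, pow_succ, ← hi2, he]
        rw [show r ^ i * r ^ j * d / 2 * r ^ i = r ^ j * (r ^ i * r ^ i * (1 / 2) * d) by ring]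
        exact mul_le_mul_iff_right₀ hrj
      have c2 : r ^ j / r ^ i * q.1 < e ↔ q.1 < (1 / 2 : ℝ) ^ i * d := by
        rw [div_mul_eq_mul_div, div_lt_iff₀ hri, ← hi2, he]
        rw [show r ^ i * r ^ j * d * r ^ i = r ^ j * (r ^ i * r ^ i * d) by ring]
        exact mul_lt_mul_iff_right₀ hrj
      have c3 : e / 2 ≤ q.2 / (r ^ j / r ^ i) ↔ (1 / 2 : ℝ) ^ (j + 1) * d ≤ q.2 := by
        rw [div_div_eq_mul_div, le_div_iff₀ hrj, pow_succ, ← hj2, he]
        rw [show r ^ i * r ^ j * d / 2 * r ^ j = r ^ j * r ^ j * (1 / 2) * d * r ^ i by ring]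
        exact mul_le_mul_iff_left₀ hri
      have c4 : q.2 / (r ^ j / r ^ i) < e ↔ q.2 < (1 / 2 : ℝ) ^ j * d := by
        rw [div_div_eq_mul_div, div_lt_iff₀ hrj, ← hj2, he]
        rw [show r ^ i * r ^ j * d * r ^ j = r ^ j * r ^ j * d * r ^ i by ring]
        exact mul_lt_mul_iff_left₀ hri
      rw [c1, c2, c3, c4]
    rw [heq]
    refine (hd e he0 (hed.trans_lt hd1)).trans (le_of_eq ?_)
    congr 1
    rw [he]
    ring
  refine (measure_mono hsub).trans ((measure_iUnion_le _).trans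
    ((ENNReal.tsum_le_tsum hbox).trans ?_))
  rw [← ENNReal.ofReal_tsum_of_nonneg (fun p => by positivity) (hS.mul_left _), tsum_mul_left]
  apply ENNReal.ofReal_le_ofReal
  rw [← hK]
  calc η / (K + 1) * d * K = η * d * (K / (K + 1)) := by ring
    _ ≤ η * d * 1 := by
        gcongr
        rw [div_le_one (by positivity)]
        linarith
    _ = η * d := mul_one _

end

end PiAux

open PiAux

/-- the measure of the spacelike corners is `o(d)` -/
theorem pi_spacelike {ν : Measure (ℝ × ℝ)} {C : ℝ} (h : PiHyp ν C) (η : ℝ) (hη : 0 < η) :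
    ∃ d₀ : ℝ, 0 < d₀ ∧ ∀ d : ℝ, 0 < d → d < d₀ →
      ν {q : ℝ × ℝ | (0 < q.1 ∧ q.1 < d) ∧ -d < q.2 ∧ q.2 < 0} ≤ ENNReal.ofReal (η * d) ∧
      ν {q : ℝ × ℝ | (-d < q.1 ∧ q.1 < 0) ∧ 0 < q.2 ∧ q.2 < d} ≤ ENNReal.ofReal (η * d) := by
  have key : ∀ μ : Measure (ℝ × ℝ), PiHyp μ C → ∃ d₀ : ℝ, 0 < d₀ ∧ ∀ d : ℝ, 0 < d → d < d₀ →
      μ {q : ℝ × ℝ | (0 < q.1 ∧ q.1 < d) ∧ -d < q.2 ∧ q.2 < 0} ≤ ENNReal.ofReal (η * d) := by
    intro μ hμ
    obtain ⟨σ, hσ, hb⟩ := core hμ η hη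
    refine ⟨σ, hσ, fun d hd0 hd1 => (measure_mono ?_).trans (hb d hd0)⟩
    rintro q ⟨⟨a1, a2⟩, a3, a4⟩
    obtain ⟨b1, b2⟩ := small_quad a1 a4 a2 a3
    exact ⟨a1, a4, (b1.trans hd1).le, b2⟩
  obtain ⟨d₁, h1, h1'⟩ := key ν h
  obtain ⟨d₂, h2, h2'⟩ := key _ (hyp_neg h)
  refine ⟨min d₁ d₂, lt_min h1 h2, fun d hd0 hd => ⟨h1' d hd0 (hd.trans_le (min_le_left _ _)), ?_⟩⟩
  have h3 := h2' d hd0 (hd.trans_le (min_le_right _ _))
  have hm : MeasurableSet {q : ℝ × ℝ | (0 < q.1 ∧ q.1 < d) ∧ -d < q.2 ∧ q.2 < 0} :=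
    ((measurableSet_lt measurable_const measurable_fst).inter
      (measurableSet_lt measurable_fst measurable_const)).inter
      ((measurableSet_lt measurable_const measurable_snd).inter
      (measurableSet_lt measurable_snd measurable_const))
  rw [Measure.map_apply neg_meas hm] at h3
  refine (measure_mono ?_).trans h3
  rintro q ⟨⟨a1, a2⟩, a3, a4⟩
  show (0 < -q.1 ∧ -q.1 < d) ∧ -d < -q.2 ∧ -q.2 < 0
  exact ⟨⟨by linarith, by linarith⟩, by linarith, by linarith⟩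

/-- if the timelike boxes have measure `o(d)`, then the measure of `{|b + c| < d, |b - c| < ε}` is at
most `η d` for a suitable `ε` and all small `d` -/
theorem pi_main {ν : Measure (ℝ × ℝ)} {C : ℝ} (h : PiHyp ν C)
    (ht : ∀ η : ℝ, 0 < η → ∃ d₀ : ℝ, 0 < d₀ ∧ ∀ d : ℝ, 0 < d → d < d₀ →
      ν {q : ℝ × ℝ | (d / 2 ≤ q.1 ∧ q.1 < d) ∧ d / 2 ≤ q.2 ∧ q.2 < d} ≤ ENNReal.ofReal (η * d) ∧
      ν {q : ℝ × ℝ | (d / 2 ≤ -q.1 ∧ -q.1 < d) ∧ d / 2 ≤ -q.2 ∧ -q.2 < d} ≤
        ENNReal.ofReal (η * d))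
    (η : ℝ) (hη : 0 < η) : ∃ ε : ℝ, 0 < ε ∧ ∃ d₀ : ℝ, 0 < d₀ ∧ ∀ d : ℝ, 0 < d → d < d₀ →
      ν {q : ℝ × ℝ | |q.1 + q.2| < d ∧ |q.1 - q.2| < ε} ≤ ENNReal.ofReal (η * d) := by
  have hn := hyp_neg h
  obtain ⟨σ₁, hσ₁, s1⟩ := core h (η / 4) (by positivity)
  obtain ⟨σ₂, hσ₂, s2⟩ := core hn (η / 4) (by positivity)
  obtain ⟨d₁, hd₁, t1⟩ := timelike h (fun η hη => by
    obtain ⟨d₀, a, b⟩ := ht η hη
    exact ⟨d₀, a, fun d hd0 hd => (b d hd0 hd).1⟩) (η / 4) (by positivity)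
  obtain ⟨d₂, hd₂, t2⟩ := timelike hn (fun η hη => by
    obtain ⟨d₀, a, b⟩ := ht η hη
    refine ⟨d₀, a, fun d hd0 hd => ?_⟩
    have hm : MeasurableSet {q : ℝ × ℝ | (d / 2 ≤ q.1 ∧ q.1 < d) ∧ d / 2 ≤ q.2 ∧ q.2 < d} :=
      ((measurableSet_le measurable_const measurable_fst).inter
        (measurableSet_lt measurable_fst measurable_const)).inter
        ((measurableSet_le measurable_const measurable_snd).inter
        (measurableSet_lt measurable_snd measurable_const))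
    rw [Measure.map_apply neg_meas hm]
    exact (b d hd0 hd).2) (η / 4) (by positivity)
  refine ⟨min σ₁ σ₂, lt_min hσ₁ hσ₂, min d₁ d₂, lt_min hd₁ hd₂, fun d hd0 hd => ?_⟩
  have s1' := s1 d hd0
  have s2' := s2 d hd0
  have t1' := t1 d hd0 (hd.trans_le (min_le_left _ _))
  have t2' := t2 d hd0 (hd.trans_le (min_le_right _ _))
  have hm1 : MeasurableSet {q : ℝ × ℝ | 0 < q.1 ∧ q.2 < 0 ∧ ss q ≤ σ₂ ∧ |ww q| * ss q < d} :=
    (measurableSet_lt measurable_const measurable_fst).inter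
      ((measurableSet_lt measurable_snd measurable_const).inter
      ((measurableSet_le ss_meas measurable_const).inter
      (measurableSet_lt (ww_meas.abs.mul ss_meas) measurable_const)))
  have hm2 : MeasurableSet {q : ℝ × ℝ | (0 < q.1 ∧ q.1 < d) ∧ 0 < q.2 ∧ q.2 < d} :=
    ((measurableSet_lt measurable_const measurable_fst).inter
      (measurableSet_lt measurable_fst measurable_const)).inter
      ((measurableSet_lt measurable_const measurable_snd).inter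
      (measurableSet_lt measurable_snd measurable_const))
  rw [Measure.map_apply neg_meas hm1] at s2'
  rw [Measure.map_apply neg_meas hm2] at t2'
  have hax := axes h
  have hsub : {q : ℝ × ℝ | |q.1 + q.2| < d ∧ |q.1 - q.2| < min σ₁ σ₂} ⊆
      (({q : ℝ × ℝ | 0 < q.1 ∧ q.2 < 0 ∧ ss q ≤ σ₁ ∧ |ww q| * ss q < d} ∪
      (fun q : ℝ × ℝ => ((-q.1, -q.2) : ℝ × ℝ)) ⁻¹'
        {q : ℝ × ℝ | 0 < q.1 ∧ q.2 < 0 ∧ ss q ≤ σ₂ ∧ |ww q| * ss q < d}) ∪
      ({q : ℝ × ℝ | (0 < q.1 ∧ q.1 < d) ∧ 0 < q.2 ∧ q.2 < d} ∪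
      (fun q : ℝ × ℝ => ((-q.1, -q.2) : ℝ × ℝ)) ⁻¹'
        {q : ℝ × ℝ | (0 < q.1 ∧ q.1 < d) ∧ 0 < q.2 ∧ q.2 < d})) ∪
      {q : ℝ × ℝ | q.1 = 0 ∨ q.2 = 0} := by
    rintro q ⟨a1, a2⟩
    have a1' := abs_lt.1 a1
    rcases lt_trichotomy q.1 0 with x | x | x
    · rcases lt_trichotomy q.2 0 with y | y | y
      · refine Or.inl (Or.inr (Or.inr ?_))
        show (0 < -q.1 ∧ -q.1 < d) ∧ 0 < -q.2 ∧ -q.2 < d
        exact ⟨⟨by linarith, by linarith⟩, by linarith, by linarith⟩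
      · exact Or.inr (Or.inr y)
      · refine Or.inl (Or.inl (Or.inr ?_))
        have x' : 0 < ((-q.1, -q.2) : ℝ × ℝ).1 := by
          show 0 < -q.1
          linarith
        have y' : ((-q.1, -q.2) : ℝ × ℝ).2 < 0 := by
          show -q.2 < 0
          linarith
        have b1 := two_ss_le x' y'
        have b2 := ww_mul_le x' y'
        have b3 := ss_pos x' y'
        refine ⟨x', y', ?_, ?_⟩
        · have : |(-q.1) - (-q.2)| = |q.1 - q.2| := by
            rw [show (-q.1) - (-q.2) = -(q.1 - q.2) by ring, abs_neg]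
          simp only [this] at b1
          have := a2.trans_le (min_le_right σ₁ σ₂)
          linarith
        · have : |(-q.1) + (-q.2)| = |q.1 + q.2| := by
            rw [show (-q.1) + (-q.2) = -(q.1 + q.2) by ring, abs_neg]
          simp only [this] at b2
          have := abs_nonneg (q.1 + q.2)
          linarith
    · exact Or.inr (Or.inl x)
    · rcases lt_trichotomy q.2 0 with y | y | y
      · refine Or.inl (Or.inl (Or.inl ?_))
        have b1 := two_ss_le x y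
        have b2 := ww_mul_le x y
        have b3 := ss_pos x y
        have := a2.trans_le (min_le_left σ₁ σ₂)
        have := abs_nonneg (q.1 + q.2)
        exact ⟨x, y, by linarith, by linarith⟩
      · exact Or.inr (Or.inr y)
      · refine Or.inl (Or.inr (Or.inl ?_))
        exact ⟨⟨x, by linarith⟩, y, by linarith⟩
  refine (measure_mono hsub).trans ((measure_union_le _ _).trans ?_)
  rw [hax, add_zero]
  refine (measure_union_le _ _).trans ((add_le_add (measure_union_le _ _)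
    (measure_union_le _ _)).trans ((add_le_add (add_le_add s1' s2') (add_le_add t1' t2')).trans
    (le_of_eq ?_)))
  rw [← ENNReal.ofReal_add (by positivity) (by positivity),
    ← ENNReal.ofReal_add (by positivity) (by positivity)]
  congr 1
  ring

end QE
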