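import Pool.Agent.Lib_helper67.QE.TLGeom

/-!
The measure of a neighbourhood of a piece of a flow line, in terms of the density of the projection.
-/

open MeasureTheory Filter Topology Set
open UpperHalfPlane hiding I
open scoped ContDiff MatrixGroups ENNReal

namespace QE

noncomputable section

/-- a piece of a neighbourhood of a flow line is a translate of a small set -/
theorem ball_piece {d : ℝ} (hd : 0 < d) (hd1 : d ≤ 1 / 10) {g : SL(2, ℝ)} (hg : g ∈ BallZ d) :
    ∃ k : ℤ, |(k : ℝ)| * d ≤ 2 ∧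
      dist ((g * aS (-(k * d))) • UpperHalfPlane.I) UpperHalfPlane.I < 10 * d := by
  obtain ⟨ha, he, hae, hea, hb, hc⟩ := hg
  have hdet := det_eq g
  set t := Real.log (g 0 0 / g 1 1) with ht
  have het : Real.exp t = g 0 0 / g 1 1 := Real.exp_log (by positivity)
  have ht1 : Real.exp t ≤ 4 := by
    rw [het, div_le_iff₀ he]
    exact hae
  have ht2 : 1 / 4 ≤ Real.exp t := by
    rw [het, le_div_iff₀ he]
    linarith
  have hk1 := Int.floor_le (t / d)
  have hk2 := Int.lt_floor_add_one (t / d)
  set k := ⌊t / d⌋ with hk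
  have hu1 : k * d ≤ t := by rwa [le_div_iff₀ hd] at hk1
  have hu2 : t < k * d + d := by
    rw [div_lt_iff₀ hd] at hk2
    linarith
  set u := (k : ℝ) * d with hu
  -- size of `u`
  have hexp1 := Real.exp_one_gt_d9
  have hu3 : u ≤ 3 / 2 := by
    by_contra h
    push Not at h
    have h1 : Real.exp (3 / 2) < Real.exp t := Real.exp_lt_exp.2 (by linarith)
    have h2 : Real.exp (3 / 2) ^ 2 = Real.exp 1 ^ 3 := by
      rw [← Real.exp_nat_mul, ← Real.exp_nat_mul]
      norm_num
    have h3 : (19 : ℝ) ≤ Real.exp 1 ^ 3 := by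
      calc (19 : ℝ) ≤ 2.7 ^ 3 := by norm_num
        _ ≤ Real.exp 1 ^ 3 := by gcongr; linarith
    have h4 : Real.exp (3 / 2) ^ 2 ≤ 16 := by
      calc Real.exp (3 / 2) ^ 2 ≤ 4 ^ 2 := by gcongr; linarith
        _ = 16 := by norm_num
    linarith
  have hu4 : -2 ≤ u := by
    by_contra h
    push Not at h
    have h1 : Real.exp t < Real.exp (-(3 / 2)) := Real.exp_lt_exp.2 (by linarith)
    have h2 : Real.exp (-(3 / 2)) * Real.exp (3 / 2) = 1 := by
      rw [← Real.exp_add, neg_add_cancel, Real.exp_zero]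
    have h3 : (19 : ℝ) ≤ Real.exp 1 ^ 3 := by
      calc (19 : ℝ) ≤ 2.7 ^ 3 := by norm_num
        _ ≤ Real.exp 1 ^ 3 := by gcongr; linarith
    have h5 : Real.exp (3 / 2) ^ 2 = Real.exp 1 ^ 3 := by
      rw [← Real.exp_nat_mul, ← Real.exp_nat_mul]
      norm_num
    have h6 : 0 < Real.exp (3 / 2) := Real.exp_pos _
    have h7 : Real.exp (3 / 2) < 4 := by nlinarith
    have h8 : Real.exp (3 / 2) ^ 2 ≤ 16 := by
      calc Real.exp (3 / 2) ^ 2 ≤ 4 ^ 2 := by gcongr
        _ = 16 := by norm_num
    linarith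
  refine ⟨k, ?_, ?_⟩
  · have h1 : |(k : ℝ)| * d = |u| := by rw [hu, abs_mul, abs_of_pos hd]
    rw [h1, abs_le]
    constructor <;> linarith
  · apply dist_I_lt _ (by positivity)
    set E := Real.exp (u / 2) with hE
    set E' := Real.exp (-(u / 2)) with hE'
    have hEE : E * E' = 1 := by rw [hE, hE', ← Real.exp_add, add_neg_cancel, Real.exp_zero]
    have hE0 : 0 < E := Real.exp_pos _
    have hE0' : 0 < E' := Real.exp_pos _
    have hEsq : E ^ 2 = Real.exp u := by
      rw [hE, ← Real.exp_nat_mul]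
      congr 1
      push_cast
      ring
    have hEsq' : E' ^ 2 = Real.exp (-u) := by
      rw [hE', ← Real.exp_nat_mul]
      congr 1
      push_cast
      ring
    have hEle : E ≤ 2 := by
      have h1 : Real.exp u ≤ 4 := (Real.exp_le_exp.2 hu1).trans ht1
      nlinarith
    have hed : Real.exp (t - u) ≤ 1 + 2 * d := by
      have h1 : Real.exp (t - u) ≤ Real.exp d := Real.exp_le_exp.2 (by linarith)
      have h2 := Real.abs_exp_sub_one_le (x := d) (by rw [abs_of_pos hd]; linarith)
      rw [abs_of_pos hd] at h2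
      have h3 := le_abs_self (Real.exp d - 1)
      linarith
    have hed0 : 1 ≤ Real.exp (t - u) := Real.one_le_exp (by linarith)
    have hEle' : E' ≤ 2.2 := by
      have h1 : Real.exp (-u) = Real.exp (t - u) * Real.exp (-t) := by
        rw [← Real.exp_add]
        congr 1
        ring
      have h2 : Real.exp (-t) ≤ 4 := by
        have h3 : Real.exp t * Real.exp (-t) = 1 := by
          rw [← Real.exp_add, add_neg_cancel, Real.exp_zero]
        have h4 : 0 < Real.exp (-t) := Real.exp_pos _
        nlinarith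
      have h3 : Real.exp (-u) ≤ 1.2 * 4 := by
        rw [h1]
        apply mul_le_mul _ h2 (Real.exp_pos _).le (by norm_num)
        linarith
      nlinarith
    have h00 : (g * aS (-u)) 0 0 = g 0 0 * E' := by
      rw [mul_00, aS_00, aS_10, mul_zero, add_zero, hE', neg_div]
    have h01 : (g * aS (-u)) 0 1 = g 0 1 * E := by
      rw [mul_01, aS_01, aS_11, mul_zero, zero_add, hE, neg_div, neg_neg]
    have h10 : (g * aS (-u)) 1 0 = g 1 0 * E' := by
      rw [mul_10, aS_00, aS_10, mul_zero, add_zero, hE', neg_div]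
    have h11 : (g * aS (-u)) 1 1 = g 1 1 * E := by
      rw [mul_11, aS_01, aS_11, mul_zero, zero_add, hE, neg_div, neg_neg]
    rw [h00, h01, h10, h11]
    have hbb : |g 0 1 * E| ≤ 4 * d := by
      rw [abs_mul, abs_of_pos hE0]
      calc |g 0 1| * E ≤ 2 * d * 2 := mul_le_mul hb hEle hE0.le (by positivity)
        _ = 4 * d := by ring
    have hcc : |g 1 0 * E'| ≤ 4.4 * d := by
      rw [abs_mul, abs_of_pos hE0']
      calc |g 1 0| * E' ≤ 2 * d * 2.2 := mul_le_mul hc hEle' hE0'.le (by positivity)
        _ = 4.4 * d := by ring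
    have hrat : g 0 0 * E' = g 1 1 * E * Real.exp (t - u) := by
      have h1 : Real.exp (t - u) = Real.exp t * Real.exp (-u) := by
        rw [← Real.exp_add]
        congr 1
      rw [h1, het, ← hEsq']
      field_simp
      linear_combination (-1 : ℝ) * hEE
    have hprod : (g 0 0 * E') * (g 1 1 * E) = 1 + (g 0 1 * E) * (g 1 0 * E') := by
      linear_combination (E * E') * hdet + hEE
    have hbc : (g 0 1 * E) * (g 1 0 * E') ≤ 0.176 := by
      calc (g 0 1 * E) * (g 1 0 * E') ≤ |(g 0 1 * E) * (g 1 0 * E')| := le_abs_self _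
        _ = |g 0 1 * E| * |g 1 0 * E'| := abs_mul _ _
        _ ≤ (4 * d) * (4.4 * d) := mul_le_mul hbb hcc (abs_nonneg _) (by positivity)
        _ ≤ (4 * (1 / 10)) * (4.4 * (1 / 10)) := by gcongr
        _ = 0.176 := by norm_num
    have hsum : |g 0 1 * E + g 1 0 * E'| ≤ 8.4 * d := by
      refine (abs_add_le _ _).trans ?_
      linarith
    have he11 : 0 < g 1 1 * E := by positivity
    rw [hrat] at hprod ⊢
    generalize g 1 1 * E = y at *
    generalize Real.exp (t - u) = w at *
    generalize g 0 1 * E + g 1 0 * E' = z at *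
    have hyy : y * y ≤ 1.176 := by
      have h1 : y * y ≤ (y * w) * y :=
        mul_le_mul_of_nonneg_right (le_mul_of_one_le_right he11.le hed0) he11.le
      linarith
    have hy : y ≤ 1.085 := by
      by_contra h
      push Not at h
      have : (1.085 : ℝ) * 1.085 ≤ y * y := mul_le_mul h.le h.le (by norm_num) he11.le
      norm_num at this
      linarith
    have h1 : y * w - y = y * (w - 1) := by ring
    have h2 : 0 ≤ y * (w - 1) := mul_nonneg he11.le (by linarith)
    have h3 : y * (w - 1) ≤ 1.085 * (2 * d) := by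
      apply mul_le_mul hy _ (by linarith) (by norm_num)
      linarith
    have h4 : (y * w - y) ^ 2 ≤ (1.085 * (2 * d)) ^ 2 := by
      rw [h1]
      gcongr
    have h5 : z ^ 2 ≤ (8.4 * d) ^ 2 := by
      rw [← sq_abs]
      gcongr
    have h6 : 0 < d ^ 2 := by positivity
    calc (y * w - y) ^ 2 + z ^ 2 ≤ (1.085 * (2 * d)) ^ 2 + (8.4 * d) ^ 2 := add_le_add h4 h5
      _ = 75.2689 * d ^ 2 := by ring
      _ < 100 * d ^ 2 := by linarith
      _ = (10 * d) ^ 2 := by ring

end

end QE
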