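import Pool.Agent.Lib_helper67.QE.PairL2

/-!
Elementary geometry of small subsets of `SL(2, ℝ)`.
-/

open MeasureTheory Filter Topology Set
open UpperHalfPlane hiding I
open scoped ContDiff MatrixGroups ENNReal

namespace QE

noncomputable section

theorem mul_00 (g h : SL(2, ℝ)) : (g * h) 0 0 = g 0 0 * h 0 0 + g 0 1 * h 1 0 := by
  show (g.1 * h.1) 0 0 = _
  rw [Matrix.mul_apply, Fin.sum_univ_two]

theorem mul_01 (g h : SL(2, ℝ)) : (g * h) 0 1 = g 0 0 * h 0 1 + g 0 1 * h 1 1 := by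
  show (g.1 * h.1) 0 1 = _
  rw [Matrix.mul_apply, Fin.sum_univ_two]

theorem mul_10 (g h : SL(2, ℝ)) : (g * h) 1 0 = g 1 0 * h 0 0 + g 1 1 * h 1 0 := by
  show (g.1 * h.1) 1 0 = _
  rw [Matrix.mul_apply, Fin.sum_univ_two]

theorem mul_11 (g h : SL(2, ℝ)) : (g * h) 1 1 = g 1 0 * h 0 1 + g 1 1 * h 1 1 := by
  show (g.1 * h.1) 1 1 = _
  rw [Matrix.mul_apply, Fin.sum_univ_two]

theorem inv_00 (g : SL(2, ℝ)) : g⁻¹ 0 0 = g 1 1 := by
  rw [Matrix.SpecialLinearGroup.SL2_inv_expl]; rfl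

theorem inv_01 (g : SL(2, ℝ)) : g⁻¹ 0 1 = -g 0 1 := by
  rw [Matrix.SpecialLinearGroup.SL2_inv_expl]; rfl

theorem inv_10 (g : SL(2, ℝ)) : g⁻¹ 1 0 = -g 1 0 := by
  rw [Matrix.SpecialLinearGroup.SL2_inv_expl]; rfl

theorem inv_11 (g : SL(2, ℝ)) : g⁻¹ 1 1 = g 0 0 := by
  rw [Matrix.SpecialLinearGroup.SL2_inv_expl]; rfl

theorem aS_00 (s : ℝ) : aS s 0 0 = Real.exp (s / 2) := rfl

theorem aS_01 (s : ℝ) : aS s 0 1 = 0 := rfl

theorem aS_10 (s : ℝ) : aS s 1 0 = 0 := rfl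

theorem aS_11 (s : ℝ) : aS s 1 1 = Real.exp (-(s / 2)) := rfl

/-- distance from `g • i` to `i` -/
theorem cosh_dist_I (g : SL(2, ℝ)) : Real.cosh (dist (g • UpperHalfPlane.I) UpperHalfPlane.I) =
    1 + ((g 0 0 - g 1 1) ^ 2 + (g 0 1 + g 1 0) ^ 2) / 2 := by
  have hd := det_eq g
  have hq : 0 < g 1 0 ^ 2 + g 1 1 ^ 2 := by
    rcases eq_or_ne (g 1 0) 0 with h | h
    · have : g 1 1 ≠ 0 := by
        intro h2
        rw [h, h2] at hd
        norm_num at hd
      positivity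
    · positivity
  have hcoe : ((g • UpperHalfPlane.I : ℍ) : ℂ) = ((g 0 0 : ℂ) * Complex.I + g 0 1) /
      ((g 1 0 : ℂ) * Complex.I + g 1 1) := by
    rw [coe_specialLinearGroup_apply]
    simp
  have hne : (g 1 0 : ℂ) * Complex.I + g 1 1 ≠ 0 := by
    intro h
    have h1 := congrArg Complex.re h
    have h2 := congrArg Complex.im h
    simp at h1 h2
    rw [h1, h2] at hq
    norm_num at hq
  have hnorm : ‖(g 1 0 : ℂ) * Complex.I + g 1 1‖ ^ 2 = g 1 0 ^ 2 + g 1 1 ^ 2 := by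
    rw [← Complex.normSq_eq_norm_sq, Complex.normSq_apply]
    simp
    ring
  have him : (g • UpperHalfPlane.I).im = 1 / (g 1 0 ^ 2 + g 1 1 ^ 2) := by
    have h1 : (g • UpperHalfPlane.I).im = ((g • UpperHalfPlane.I : ℍ) : ℂ).im := rfl
    rw [h1, hcoe, Complex.div_im, Complex.normSq_eq_norm_sq, hnorm]
    simp
    field_simp
    linarith
  rw [cosh_dist, him]
  have hdist : dist ((g • UpperHalfPlane.I : ℍ) : ℂ) (UpperHalfPlane.I : ℂ) ^ 2 =
      ((g 0 0 - g 1 1) ^ 2 + (g 0 1 + g 1 0) ^ 2) / (g 1 0 ^ 2 + g 1 1 ^ 2) := by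
    rw [hcoe, Complex.dist_eq]
    have h2 : ((g 0 0 : ℂ) * Complex.I + g 0 1) / ((g 1 0 : ℂ) * Complex.I + g 1 1) -
        (UpperHalfPlane.I : ℂ) = ((g 0 0 - g 1 1 : ℝ) * Complex.I + ((g 0 1 + g 1 0 : ℝ) : ℂ)) /
          ((g 1 0 : ℂ) * Complex.I + g 1 1) := by
      have hI : ((UpperHalfPlane.I : ℍ) : ℂ) = Complex.I := rfl
      rw [hI, div_sub' hne]
      congr 1
      push_cast
      have : Complex.I * Complex.I = -1 := Complex.I_mul_I
      linear_combination (-(g 1 0 : ℂ)) * this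
    rw [h2, norm_div, div_pow, hnorm]
    congr 1
    rw [← Complex.normSq_eq_norm_sq, Complex.normSq_apply]
    simp
    ring
  rw [hdist]
  have : UpperHalfPlane.I.im = 1 := by simp
  rw [this]
  field_simp

/-- upper bound for the distance -/
theorem dist_I_lt (g : SL(2, ℝ)) {r : ℝ} (hr : 0 < r)
    (h : (g 0 0 - g 1 1) ^ 2 + (g 0 1 + g 1 0) ^ 2 < r ^ 2) :
    dist (g • UpperHalfPlane.I) UpperHalfPlane.I < r := by
  have h1 := cosh_dist_I g
  set x := dist (g • UpperHalfPlane.I) UpperHalfPlane.I with hx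
  have hx0 : 0 ≤ x := dist_nonneg
  have h2 : 1 + x ^ 2 / 2 ≤ Real.cosh x := by
    have h4 := Real.cosh_two_mul (x / 2)
    have h5 := Real.cosh_sq (x / 2)
    have h6 : x / 2 ≤ Real.sinh (x / 2) := Real.self_le_sinh_iff.2 (by linarith)
    rw [show 2 * (x / 2) = x by ring] at h4
    have h7 : (x / 2) ^ 2 ≤ Real.sinh (x / 2) ^ 2 := by gcongr
    nlinarith
  have h3 : x ^ 2 < r ^ 2 := by linarith
  exact lt_of_pow_lt_pow_left₀ 2 hr.le h3

/-- the timelike box; `σ = 1` or `σ = -1` -/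
def BoxT (σ d : ℝ) : Set SL(2, ℝ) :=
  {g | 0 < g 0 0 ∧ 0 < g 1 1 ∧ 0 ≤ Real.log (g 0 0 / g 1 1) ∧ Real.log (g 0 0 / g 1 1) < 1 ∧
    d / 2 ≤ σ * g 0 1 ∧ σ * g 0 1 < d ∧ d / 2 ≤ σ * g 1 0 ∧ σ * g 1 0 < d}

/-- a neighbourhood of a piece of the diagonal group -/
def BallZ (d : ℝ) : Set SL(2, ℝ) :=
  {g | 0 < g 0 0 ∧ 0 < g 1 1 ∧ g 0 0 ≤ 4 * g 1 1 ∧ g 1 1 ≤ 4 * g 0 0 ∧
    |g 0 1| ≤ 2 * d ∧ |g 1 0| ≤ 2 * d}

/-- a spacelike set -/
def SpaceW (σ c : ℝ) : Set SL(2, ℝ) :=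
  {g | 0 < g 0 0 ∧ 0 < g 1 1 ∧ g 0 0 ≤ 4 * g 1 1 ∧ g 1 1 ≤ 4 * g 0 0 ∧
    0 < σ * g 0 1 ∧ σ * g 0 1 < c ∧ -c < σ * g 1 0 ∧ σ * g 1 0 < 0}

theorem cont_entry (i j : Fin 2) : Continuous fun g : SL(2, ℝ) => g i j := by
  have h : Continuous fun g : SL(2, ℝ) => (g : Matrix (Fin 2) (Fin 2) ℝ) :=
    continuous_subtype_val
  exact h.matrix_elem i j

section Meas

variable [MeasurableSpace SL(2, ℝ)] [BorelSpace SL(2, ℝ)]

theorem meas_entry (i j : Fin 2) : Measurable fun g : SL(2, ℝ) => g i j :=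
  (cont_entry i j).measurable

theorem BoxT_meas (σ d : ℝ) : MeasurableSet (BoxT σ d) := by
  have h00 := meas_entry 0 0
  have h01 := meas_entry 0 1
  have h10 := meas_entry 1 0
  have h11 := meas_entry 1 1
  have hl : Measurable fun g : SL(2, ℝ) => Real.log (g 0 0 / g 1 1) :=
    Real.measurable_log.comp (h00.div h11)
  unfold BoxT
  refine ((measurableSet_lt measurable_const h00).inter
    ((measurableSet_lt measurable_const h11).inter
    ((measurableSet_le measurable_const hl).inter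
    ((measurableSet_lt hl measurable_const).inter
    ((measurableSet_le measurable_const (h01.const_mul σ)).inter
    ((measurableSet_lt (h01.const_mul σ) measurable_const).inter
    ((measurableSet_le measurable_const (h10.const_mul σ)).inter
    (measurableSet_lt (h10.const_mul σ) measurable_const))))))))

theorem BallZ_meas (d : ℝ) : MeasurableSet (BallZ d) := by
  have h00 := meas_entry 0 0
  have h01 := meas_entry 0 1
  have h10 := meas_entry 1 0
  have h11 := meas_entry 1 1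
  unfold BallZ
  refine ((measurableSet_lt measurable_const h00).inter
    ((measurableSet_lt measurable_const h11).inter
    ((measurableSet_le h00 (h11.const_mul 4)).inter
    ((measurableSet_le h11 (h00.const_mul 4)).inter
    ((measurableSet_le (measurable_norm.comp h01) measurable_const).inter
    (measurableSet_le (measurable_norm.comp h10) measurable_const))))))

theorem SpaceW_meas (σ c : ℝ) : MeasurableSet (SpaceW σ c) := by
  have h00 := meas_entry 0 0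
  have h01 := meas_entry 0 1
  have h10 := meas_entry 1 0
  have h11 := meas_entry 1 1
  unfold SpaceW
  refine ((measurableSet_lt measurable_const h00).inter
    ((measurableSet_lt measurable_const h11).inter
    ((measurableSet_le h00 (h11.const_mul 4)).inter
    ((measurableSet_le h11 (h00.const_mul 4)).inter
    ((measurableSet_lt measurable_const (h01.const_mul σ)).inter
    ((measurableSet_lt (h01.const_mul σ) measurable_const).inter
    ((measurableSet_lt measurable_const (h10.const_mul σ)).inter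
    (measurableSet_lt (h10.const_mul σ) measurable_const))))))))

end Meas

/-- bounds for the entries of the elements of the box -/
theorem box_bd {σ d : ℝ} (hσ : σ ^ 2 = 1) (hd : 0 < d) (hd1 : d ≤ 1 / 10) {g : SL(2, ℝ)}
    (hg : g ∈ BoxT σ d) : 1 ≤ g 0 0 ∧ g 0 0 ≤ 1.66 ∧ 0.606 ≤ g 1 1 ∧ g 1 1 ≤ 1.005 := by
  obtain ⟨h0, h1, h2, h3, h4, h5, h6, h7⟩ := hg
  have hdet := det_eq g
  have hlt : g 0 0 / g 1 1 < 2.72 := by
    have : g 0 0 / g 1 1 < Real.exp 1 := by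
      rw [← Real.log_lt_iff_lt_exp (by positivity)]
      exact h3
    linarith [Real.exp_one_lt_d9]
  have hle : g 1 1 ≤ g 0 0 := by
    have : 1 ≤ g 0 0 / g 1 1 := by
      by_contra h
      push Not at h
      have := Real.log_neg (by positivity) h
      linarith
    rwa [one_le_div h1] at this
  rw [div_lt_iff₀ h1] at hlt
  have e : g 0 1 * g 1 0 = (σ * g 0 1) * (σ * g 1 0) := by
    calc g 0 1 * g 1 0 = σ ^ 2 * (g 0 1 * g 1 0) := by rw [hσ, one_mul]
      _ = _ := by ring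
  have p0 : 0 ≤ (σ * g 0 1) * (σ * g 1 0) := by
    apply mul_nonneg <;> linarith
  have p1 : (σ * g 0 1) * (σ * g 1 0) ≤ 1 / 100 := by
    calc (σ * g 0 1) * (σ * g 1 0) ≤ (1 / 10) * (1 / 10) := by
          apply mul_le_mul <;> linarith
      _ = 1 / 100 := by norm_num
  have q0 : 1 ≤ g 0 0 * g 1 1 := by linarith
  have q1 : g 0 0 * g 1 1 ≤ 1.01 := by linarith
  refine ⟨?_, ?_, ?_, ?_⟩
  · nlinarith
  · nlinarith
  · nlinarith
  · nlinarith

theorem box_abs {σ d : ℝ} (hσ : σ = 1 ∨ σ = -1) {g : SL(2, ℝ)}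
    (hg : g ∈ BoxT σ d) : |g 0 1| < d ∧ |g 1 0| < d := by
  obtain ⟨h0, h1, h2, h3, h4, h5, h6, h7⟩ := hg
  rcases hσ with rfl | rfl
  · constructor <;> rw [abs_lt] <;> constructor <;> linarith
  · constructor <;> rw [abs_lt] <;> constructor <;> linarith

/-- `X X⁻¹ ⊆ Z` -/
theorem box_mul_inv {σ d : ℝ} (hσ : σ = 1 ∨ σ = -1) (hd : 0 < d) (hd1 : d ≤ 1 / 10)
    {g h : SL(2, ℝ)} (hg : g ∈ BoxT σ d) (hh : h ∈ BoxT σ d) : g * h⁻¹ ∈ BallZ d := by
  have hσ2 : σ ^ 2 = 1 := by rcases hσ with rfl | rfl <;> norm_num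
  obtain ⟨a1, a2, e1, e2⟩ := box_bd hσ2 hd hd1 hg
  obtain ⟨a1', a2', e1', e2'⟩ := box_bd hσ2 hd hd1 hh
  obtain ⟨-, -, -, -, b1, b2, c1, c2⟩ := hg
  obtain ⟨-, -, -, -, b1', b2', c1', c2'⟩ := hh
  have key : ∀ x y : ℝ, x * y = (σ * x) * (σ * y) := by
    intro x y
    calc x * y = σ ^ 2 * (x * y) := by rw [hσ2, one_mul]
      _ = _ := by ring
  have habs : ∀ x : ℝ, |x| = |σ * x| := by
    intro x
    rcases hσ with rfl | rfl <;> simp
  have m00 : (g * h⁻¹) 0 0 = g 0 0 * h 1 1 - (σ * g 0 1) * (σ * h 1 0) := by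
    rw [mul_00, inv_00, inv_10, ← key]
    ring
  have m11 : (g * h⁻¹) 1 1 = g 1 1 * h 0 0 - (σ * g 1 0) * (σ * h 0 1) := by
    rw [mul_11, inv_01, inv_11, ← key]
    ring
  have m01 : σ * (g * h⁻¹) 0 1 = h 0 0 * (σ * g 0 1) - g 0 0 * (σ * h 0 1) := by
    rw [mul_01, inv_01, inv_11]
    ring
  have m10 : σ * (g * h⁻¹) 1 0 = h 1 1 * (σ * g 1 0) - g 1 1 * (σ * h 1 0) := by
    rw [mul_10, inv_00, inv_10]
    ring
  generalize σ * g 0 1 = b at *
  generalize σ * g 1 0 = c at *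
  generalize σ * h 0 1 = b' at *
  generalize σ * h 1 0 = c' at *
  generalize g 0 0 = a at *
  generalize g 1 1 = e at *
  generalize h 0 0 = a' at *
  generalize h 1 1 = e' at *
  have hb : 0 ≤ b := by linarith
  have hc : 0 ≤ c := by linarith
  have hb' : 0 ≤ b' := by linarith
  have hc' : 0 ≤ c' := by linarith
  have p1 : b * c' ≤ 1 / 100 := by
    calc b * c' ≤ (1 / 10) * (1 / 10) := by apply mul_le_mul <;> linarith
      _ = 1 / 100 := by norm_num
  have p2 : c * b' ≤ 1 / 100 := by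
    calc c * b' ≤ (1 / 10) * (1 / 10) := by apply mul_le_mul <;> linarith
      _ = 1 / 100 := by norm_num
  have p1' : 0 ≤ b * c' := mul_nonneg hb hc'
  have p2' : 0 ≤ c * b' := mul_nonneg hc hb'
  have q1 : 0.606 ≤ a * e' := by
    calc (0.606 : ℝ) = 1 * 0.606 := by norm_num
      _ ≤ a * e' := by apply mul_le_mul <;> linarith
  have q2 : a * e' ≤ 1.6683 := by
    calc a * e' ≤ 1.66 * 1.005 := by apply mul_le_mul <;> linarith
      _ = 1.6683 := by norm_num
  have q3 : 0.606 ≤ e * a' := by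
    calc (0.606 : ℝ) = 0.606 * 1 := by norm_num
      _ ≤ e * a' := by apply mul_le_mul <;> linarith
  have q4 : e * a' ≤ 1.6683 := by
    calc e * a' ≤ 1.005 * 1.66 := by apply mul_le_mul <;> linarith
      _ = 1.6683 := by norm_num
  refine ⟨?_, ?_, ?_, ?_, ?_, ?_⟩
  · rw [m00]; linarith
  · rw [m11]; linarith
  · rw [m00, m11]; linarith
  · rw [m00, m11]; linarith
  · rw [habs, m01, abs_le]
    have r1 : a' * b ≤ 1.66 * d := by apply mul_le_mul <;> linarith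
    have r2 : a * b' ≤ 1.66 * d := by apply mul_le_mul <;> linarith
    have r3 : 0 ≤ a' * b := by apply mul_nonneg <;> linarith
    have r4 : 0 ≤ a * b' := by apply mul_nonneg <;> linarith
    constructor <;> linarith
  · rw [habs, m10, abs_le]
    have r1 : e' * c ≤ 1.005 * d := by apply mul_le_mul <;> linarith
    have r2 : e * c' ≤ 1.005 * d := by apply mul_le_mul <;> linarith
    have r3 : 0 ≤ e' * c := by apply mul_nonneg <;> linarith
    have r4 : 0 ≤ e * c' := by apply mul_nonneg <;> linarith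
    constructor <;> linarith

/-- `X⁻¹ (a_s X a_{-s})` is spacelike -/
theorem box_inv_mul {σ d s : ℝ} (hσ : σ = 1 ∨ σ = -1) (hd : 0 < d) (hd1 : d ≤ 1 / 10)
    (hs : 2 ≤ s) (hsd : Real.exp s * d ^ 2 ≤ 1 / 10) {g y : SL(2, ℝ)} (hg : g ∈ BoxT σ d)
    (hy : aS (-s) * y * aS s ∈ BoxT σ d) : g⁻¹ * y ∈ SpaceW σ (2 * Real.exp s * d) := by
  have hσ2 : σ ^ 2 = 1 := by rcases hσ with rfl | rfl <;> norm_num
  have key : ∀ x y : ℝ, x * y = (σ * x) * (σ * y) := by
    intro x y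
    calc x * y = σ ^ 2 * (x * y) := by rw [hσ2, one_mul]
      _ = _ := by ring
  obtain ⟨x, hx⟩ : ∃ x, x = aS (-s) * y * aS s := ⟨_, rfl⟩
  rw [← hx] at hy
  have hyx : y = aS s * x * aS (-s) := by
    rw [hx]
    have h1 := PB_aS_inv s
    rw [← h1]
    group
  obtain ⟨a1, a2, e1, e2⟩ := box_bd hσ2 hd hd1 hg
  obtain ⟨a1', a2', e1', e2'⟩ := box_bd hσ2 hd hd1 hy
  obtain ⟨-, -, -, -, b1, b2, c1, c2⟩ := hg
  obtain ⟨-, -, -, -, b1', b2', c1', c2'⟩ := hy
  have hE : Real.exp (s / 2) * Real.exp (-(s / 2)) = 1 := by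
    rw [← Real.exp_add, add_neg_cancel, Real.exp_zero]
  have hE2 : Real.exp (s / 2) * Real.exp (s / 2) = Real.exp s := by
    rw [← Real.exp_add, add_halves]
  have hE3 : Real.exp (-(s / 2)) * Real.exp (-(s / 2)) = Real.exp (-s) := by
    rw [← Real.exp_add]
    congr 1
    ring
  have y00 : y 0 0 = x 0 0 := by
    rw [hyx, mul_00, mul_00, mul_01, aS_00, aS_00, aS_01, aS_10]
    have : -s / 2 = -(s / 2) := by ring
    rw [this]
    linear_combination (x 0 0) * hE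
  have y11 : y 1 1 = x 1 1 := by
    rw [hyx, mul_11, mul_10, mul_11, aS_11, aS_11, aS_01, aS_10]
    have : -(-s / 2) = s / 2 := by ring
    rw [this]
    linear_combination (x 1 1) * hE
  have y01 : y 0 1 = Real.exp s * x 0 1 := by
    rw [hyx, mul_01, mul_00, mul_01, aS_00, aS_11, aS_01, aS_01]
    have : -(-s / 2) = s / 2 := by ring
    rw [this]
    linear_combination (x 0 1) * hE2
  have y10 : y 1 0 = Real.exp (-s) * x 1 0 := by
    rw [hyx, mul_10, mul_10, mul_11, aS_11, aS_00, aS_10, aS_10]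
    have : -s / 2 = -(s / 2) := by ring
    rw [this]
    linear_combination (x 1 0) * hE3
  have m00 : (g⁻¹ * y) 0 0 = g 1 1 * x 0 0 - Real.exp (-s) * ((σ * g 0 1) * (σ * x 1 0)) := by
    rw [mul_00, inv_00, inv_01, y00, y10, ← key]
    ring
  have m11 : (g⁻¹ * y) 1 1 = g 0 0 * x 1 1 - Real.exp s * ((σ * g 1 0) * (σ * x 0 1)) := by
    rw [mul_11, inv_10, inv_11, y01, y11, ← key]
    ring
  have m01 : σ * (g⁻¹ * y) 0 1 = g 1 1 * (Real.exp s * (σ * x 0 1)) - x 1 1 * (σ * g 0 1) := by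
    rw [mul_01, inv_00, inv_01, y01, y11]
    ring
  have m10 : σ * (g⁻¹ * y) 1 0 = g 0 0 * (Real.exp (-s) * (σ * x 1 0)) -
      x 0 0 * (σ * g 1 0) := by
    rw [mul_10, inv_10, inv_11, y00, y10]
    ring
  have hEs : 7 ≤ Real.exp s := by
    have h1 : Real.exp 2 ≤ Real.exp s := Real.exp_le_exp.2 hs
    have h2 : Real.exp 2 = Real.exp 1 * Real.exp 1 := by
      rw [← Real.exp_add]
      norm_num
    have h3 := Real.exp_one_gt_d9
    nlinarith
  have hEi : Real.exp s * Real.exp (-s) = 1 := by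
    rw [← Real.exp_add, add_neg_cancel, Real.exp_zero]
  have hEn : 0 < Real.exp (-s) := Real.exp_pos _
  have hE7 : Real.exp (-s) ≤ 1 / 7 := by
    rw [le_div_iff₀ (by norm_num)]
    nlinarith
  generalize Real.exp s = E at *
  generalize Real.exp (-s) = E' at *
  generalize σ * g 0 1 = b at *
  generalize σ * g 1 0 = c at *
  generalize σ * x 0 1 = b' at *
  generalize σ * x 1 0 = c' at *
  generalize g 0 0 = a at *
  generalize g 1 1 = e at *
  generalize x 0 0 = a' at *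
  generalize x 1 1 = e' at *
  clear hyx hx y00 y11 y01 y10 hE hE2 hE3 key
  have hd2 : 0 ≤ d / 2 := by positivity
  have hb : 0 ≤ b := hd2.trans b1
  have hc : 0 ≤ c := hd2.trans c1
  have hb' : 0 ≤ b' := hd2.trans b1'
  have hc' : 0 ≤ c' := hd2.trans c1'
  have ha0 : 0 ≤ a := zero_le_one.trans a1
  have ha0' : 0 ≤ a' := zero_le_one.trans a1'
  have he0 : 0 ≤ e := le_trans (by norm_num) e1
  have he0' : 0 ≤ e' := le_trans (by norm_num) e1'
  have hE0 : 0 ≤ E := le_trans (by norm_num) hEs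
  have p1 : b * c' ≤ 1 / 100 := by
    calc b * c' ≤ (1 / 10) * (1 / 10) :=
          mul_le_mul (b2.le.trans hd1) (c2'.le.trans hd1) hc' (by norm_num)
      _ = 1 / 100 := by norm_num
  have p1' : 0 ≤ b * c' := mul_nonneg hb hc'
  have p3 : 0 ≤ E' * (b * c') := mul_nonneg hEn.le p1'
  have p4 : E' * (b * c') ≤ 1 / 100 := by
    calc E' * (b * c') ≤ 1 * (1 / 100) :=
          mul_le_mul (hE7.trans (by norm_num)) p1 p1' (by norm_num)
      _ = 1 / 100 := by norm_num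
  have p5 : E * (c * b') ≤ 1 / 10 := by
    refine le_trans ?_ hsd
    have : c * b' ≤ d ^ 2 := by
      rw [sq]
      exact mul_le_mul c2.le b2'.le hb' hd.le
    exact mul_le_mul_of_nonneg_left this hE0
  have p6 : 0 ≤ E * (c * b') := mul_nonneg hE0 (mul_nonneg hc hb')
  have q1 : 0.606 ≤ a * e' := by
    calc (0.606 : ℝ) = 1 * 0.606 := by norm_num
      _ ≤ a * e' := mul_le_mul a1 e1' (by norm_num) ha0
  have q2 : a * e' ≤ 1.6683 := by
    calc a * e' ≤ 1.66 * 1.005 := mul_le_mul a2 e2' he0' (by norm_num)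
      _ = 1.6683 := by norm_num
  have q3 : 0.606 ≤ e * a' := by
    calc (0.606 : ℝ) = 0.606 * 1 := by norm_num
      _ ≤ e * a' := mul_le_mul e1 a1' (by norm_num) he0
  have q4 : e * a' ≤ 1.6683 := by
    calc e * a' ≤ 1.005 * 1.66 := mul_le_mul e2 a2' ha0' (by norm_num)
      _ = 1.6683 := by norm_num
  have r1 : 7 * (d / 2) ≤ E * b' := mul_le_mul hEs b1' hd2 hE0
  have r2 : E * b' ≤ E * d := mul_le_mul_of_nonneg_left b2'.le hE0
  have r0 : 0 ≤ E * b' := mul_nonneg hE0 hb'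
  have r3 : 0.606 * (7 * (d / 2)) ≤ e * (E * b') :=
    mul_le_mul e1 r1 (by positivity) he0
  have r4 : e * (E * b') ≤ 1.005 * (E * d) := mul_le_mul e2 r2 r0 (by norm_num)
  have r5 : e' * b ≤ 1.005 * d := mul_le_mul e2' b2.le hb (by norm_num)
  have r6 : 0 ≤ e' * b := mul_nonneg he0' hb
  have r7 : E' * c' ≤ 1 / 7 * d := mul_le_mul hE7 c2'.le hc' (by norm_num)
  have r8 : 0 ≤ E' * c' := mul_nonneg hEn.le hc'
  have r9 : a * (E' * c') ≤ 1.66 * (1 / 7 * d) := mul_le_mul a2 r7 r8 (by norm_num)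
  have r10 : 0 ≤ a * (E' * c') := mul_nonneg ha0 r8
  have r11 : 1 * (d / 2) ≤ a' * c := mul_le_mul a1' c1 hd2 ha0'
  have r12 : a' * c ≤ 1.66 * d := mul_le_mul a2' c2.le hc (by norm_num)
  have r13 : 7 * d ≤ E * d := mul_le_mul_of_nonneg_right hEs hd.le
  clear a1 a2 a1' a2' e1 e2 e1' e2' b1 b2 b1' b2' c1 c2 c1' c2' hEi hE7 hEs hsd hs hd1
  clear p1 p1' r0 r1 r2 r7 r8 ha0 ha0' he0 he0' hb hc hb' hc' hE0 hEn hd2
  refine ⟨?_, ?_, ?_, ?_, ?_, ?_, ?_, ?_⟩
  · rw [m00]; linarith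
  · rw [m11]; linarith
  · rw [m00, m11]; linarith
  · rw [m00, m11]; linarith
  · rw [m01]; linarith
  · rw [m01]; linarith
  · rw [m10]; linarith
  · rw [m10]; linarith

end

end QE
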