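import Pool.Agent.Lib_helper67.QE.TLBall

/-!
Measure estimates for the timelike part: the mass of a neighbourhood of a flow line, the triple
estimate (almost orthogonality), the averaging argument.
-/

open MeasureTheory Filter Topology Set
open UpperHalfPlane hiding I
open scoped ContDiff MatrixGroups ENNReal

namespace QE

noncomputable section

variable [MeasurableSpace SL(2, ℝ)] [BorelSpace SL(2, ℝ)]
variable {Γ : Subgroup SL(2, ℝ)} {D : Set ℍ} {μ : Measure SL(2, ℝ)} {p : ℍ → ℝ}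

theorem nball_meas (r : ℝ) :
    MeasurableSet {g : SL(2, ℝ) | dist (g • UpperHalfPlane.I) UpperHalfPlane.I < r} := by
  have h : Continuous fun g : SL(2, ℝ) => g • UpperHalfPlane.I :=
    continuous_id.smul continuous_const
  exact measurableSet_lt (h.dist continuous_const).measurable measurable_const

theorem FlowMeas0.mass_nball (hμ : FlowMeas0 Γ D μ p) (v : SL(2, ℝ)) (r : ℝ) :
    μ ((fun w => v⁻¹ * w) ⁻¹' {g | dist (g • UpperHalfPlane.I) UpperHalfPlane.I < r}) =
      ∫⁻ z in Metric.ball (v • UpperHalfPlane.I) r, ENNReal.ofReal (p z) := by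
  rw [← hμ.proj _ Metric.isOpen_ball.measurableSet]
  congr 1
  ext w
  have h3 : dist ((v⁻¹ * w) • UpperHalfPlane.I) UpperHalfPlane.I =
      dist (w • UpperHalfPlane.I) (v • UpperHalfPlane.I) := by
    rw [← dist_smul v ((v⁻¹ * w) • UpperHalfPlane.I) UpperHalfPlane.I, ← mul_smul,
      mul_inv_cancel_left]
  show dist ((v⁻¹ * w) • UpperHalfPlane.I) UpperHalfPlane.I < r ↔ _
  rw [h3]
  rfl

/-- the mass of a neighbourhood of a piece of flow line -/
theorem FlowMeas.mass_ballZ (hμ : FlowMeas Γ D μ p) (v : SL(2, ℝ)) {d : ℝ} (hd : 0 < d)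
    (hd1 : d ≤ 1 / 10) : μ ((fun w => v⁻¹ * w) ⁻¹' BallZ d) ≤
      ENNReal.ofReal (5 / d) *
        ∫⁻ z in Metric.ball (v • UpperHalfPlane.I) (10 * d), ENNReal.ofReal (p z) := by
  set N : Set SL(2, ℝ) := {g | dist (g • UpperHalfPlane.I) UpperHalfPlane.I < 10 * d} with hN
  have hNm : MeasurableSet N := nball_meas _
  set K : ℕ := ⌊2 / d⌋₊ with hK
  have hKle : (K : ℝ) ≤ 2 / d := Nat.floor_le (by positivity)
  have hcov : (fun w => v⁻¹ * w) ⁻¹' BallZ d ⊆ ⋃ k ∈ Finset.Icc (-(K : ℤ)) K,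
      (fun w => v⁻¹ * w) ⁻¹' ((fun g => g * aS (-(k * d))) ⁻¹' N) := by
    intro w hw
    obtain ⟨k, hk1, hk2⟩ := ball_piece hd hd1 hw
    rw [mem_iUnion₂]
    refine ⟨k, ?_, hk2⟩
    rw [Finset.mem_Icc, ← abs_le]
    have h1 : |(k : ℝ)| ≤ 2 / d := by rwa [le_div_iff₀ hd]
    have h2 : (k.natAbs : ℝ) ≤ 2 / d := by
      rw [Nat.cast_natAbs]
      push_cast
      exact h1
    have h3 : k.natAbs ≤ K := Nat.le_floor h2
    rw [Int.abs_eq_natAbs]
    exact_mod_cast h3
  calc μ ((fun w => v⁻¹ * w) ⁻¹' BallZ d)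
      ≤ μ (⋃ k ∈ Finset.Icc (-(K : ℤ)) K,
          (fun w => v⁻¹ * w) ⁻¹' ((fun g => g * aS (-(k * d))) ⁻¹' N)) := measure_mono hcov
    _ ≤ ∑ k ∈ Finset.Icc (-(K : ℤ)) K,
          μ ((fun w => v⁻¹ * w) ⁻¹' ((fun g => g * aS (-(k * d))) ⁻¹' N)) :=
        measure_biUnion_finset_le _ _
    _ = ∑ k ∈ Finset.Icc (-(K : ℤ)) K, μ ((fun w => v⁻¹ * w) ⁻¹' N) := by
        apply Finset.sum_congr rfl
        intro k _
        exact hμ.shift_right hNm v _
    _ = (Finset.Icc (-(K : ℤ)) K).card * μ ((fun w => v⁻¹ * w) ⁻¹' N) := by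
        rw [Finset.sum_const, nsmul_eq_mul]
    _ ≤ ENNReal.ofReal (5 / d) * μ ((fun w => v⁻¹ * w) ⁻¹' N) := by
        refine mul_le_mul' ?_ le_rfl
        have hc : (Finset.Icc (-(K : ℤ)) K).card = 2 * K + 1 := by
          rw [Int.card_Icc]
          omega
        rw [hc, ← ENNReal.ofReal_natCast]
        apply ENNReal.ofReal_le_ofReal
        push_cast
        have h1 : 1 ≤ 1 / d := by
          rw [le_div_iff₀ hd]
          linarith
        have h2 : 5 / d = 2 * (2 / d) + 1 / d := by ring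
        linarith
    _ = _ := by rw [hμ.mass_nball]

/-- the triple estimate -/
theorem FlowMeas0.triple [Countable Γ] [SFinite μ] (hμ : FlowMeas0 Γ D μ p)
    (hD : IsFundamentalDomain Γ D (volume : Measure ℍ)) {X Y Z W : Set SL(2, ℝ)}
    (hX : MeasurableSet X) (hY : MeasurableSet Y) (hZ : MeasurableSet Z) (hW : MeasurableSet W)
    (hXZ : ∀ g ∈ X, ∀ h ∈ X, g * h⁻¹ ∈ Z) (hXY : ∀ g ∈ X, ∀ y ∈ Y, g⁻¹ * y ∈ W) (l : ℝ≥0∞) :
    ∫⁻ v in Berry.Fd D, (if μ ((fun w => v⁻¹ * w) ⁻¹' Z) ≤ l then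
      μ ((fun w => v⁻¹ * w) ⁻¹' X) * μ ((fun w => v⁻¹ * w) ⁻¹' Y) else 0) ∂μ ≤
      l * pairM D μ W := by
  classical
  have mX := mass_meas (μ := μ) hX
  have mY := mass_meas (μ := μ) hY
  have mZ := mass_meas (μ := μ) hZ
  have mW := mass_meas (μ := μ) hW
  set F : SL(2, ℝ) → SL(2, ℝ) → ℝ≥0∞ := fun v w =>
    if μ ((fun w => v⁻¹ * w) ⁻¹' Z) ≤ l ∧ v⁻¹ * w ∈ X then μ ((fun w => v⁻¹ * w) ⁻¹' Y) else 0
    with hF
  have hS : MeasurableSet {z : SL(2, ℝ) × SL(2, ℝ) |
      μ ((fun w => z.1⁻¹ * w) ⁻¹' Z) ≤ l ∧ z.1⁻¹ * z.2 ∈ X} :=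
    (measurableSet_le (mZ.comp measurable_fst) measurable_const).inter (divm hX)
  have hFm : Measurable (Function.uncurry F) :=
    Measurable.ite hS (mY.comp measurable_fst) measurable_const
  have e1 : ∀ v, (if μ ((fun w => v⁻¹ * w) ⁻¹' Z) ≤ l then
      μ ((fun w => v⁻¹ * w) ⁻¹' X) * μ ((fun w => v⁻¹ * w) ⁻¹' Y) else 0) = ∫⁻ w, F v w ∂μ := by
    intro v
    by_cases h : μ ((fun w => v⁻¹ * w) ⁻¹' Z) ≤ l
    · rw [if_pos h]
      have hXv : MeasurableSet ((fun w => v⁻¹ * w) ⁻¹' X) := by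
        have : Measurable fun w : SL(2, ℝ) => v⁻¹ * w := by fun_prop
        exact this hX
      have : ∀ w, F v w = ((fun w => v⁻¹ * w) ⁻¹' X).indicator
          (fun _ => μ ((fun w => v⁻¹ * w) ⁻¹' Y)) w := by
        intro w
        simp only [hF, h, true_and, indicator, mem_preimage]
      simp only [this]
      rw [lintegral_indicator hXv, setLIntegral_const, mul_comm]
    · rw [if_neg h]
      have : ∀ w, F v w = 0 := by
        intro w
        simp only [hF, h, false_and, if_false]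
      simp [this]
  simp only [e1]
  rw [hμ.base_change hD hFm]
  · rw [pairM_apply hW]
    unfold pairMass
    rw [← lintegral_const_mul _ mW]
    apply lintegral_mono
    intro w
    -- the set of admissible `v`
    set V : Set SL(2, ℝ) := {v | μ ((fun w => v⁻¹ * w) ⁻¹' Z) ≤ l ∧ v⁻¹ * w ∈ X} with hV
    have hVm : MeasurableSet V := by
      have h2 : Measurable fun v : SL(2, ℝ) => v⁻¹ * w := by fun_prop
      exact (measurableSet_le mZ measurable_const).inter (h2 hX)
    have hb : ∀ v, F v w ≤ V.indicator (fun _ => μ ((fun w' => w⁻¹ * w') ⁻¹' W)) v := by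
      intro v
      by_cases h : v ∈ V
      · rw [indicator_of_mem h]
        have h' : μ ((fun w => v⁻¹ * w) ⁻¹' Z) ≤ l ∧ v⁻¹ * w ∈ X := h
        simp only [hF, if_pos h']
        apply measure_mono
        intro w' hw'
        have := hXY _ h'.2 _ hw'
        simp only [mem_preimage]
        have e : w⁻¹ * w' = (v⁻¹ * w)⁻¹ * (v⁻¹ * w') := by group
        rw [e]
        exact this
      · have h' : ¬ (μ ((fun w => v⁻¹ * w) ⁻¹' Z) ≤ l ∧ v⁻¹ * w ∈ X) := h
        simp only [hF, if_neg h']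
        exact zero_le
    have hVl : μ V ≤ l := by
      rcases V.eq_empty_or_nonempty with h | ⟨v₀, hv₀⟩
      · rw [h]
        simp
      · refine le_trans (measure_mono ?_) hv₀.1
        intro v hv
        have := hXZ _ hv₀.2 _ hv.2
        simp only [mem_preimage]
        have e : v₀⁻¹ * v = (v₀⁻¹ * w) * (v⁻¹ * w)⁻¹ := by group
        rw [e]
        exact this
    calc ∫⁻ v, F v w ∂μ ≤ ∫⁻ v, V.indicator (fun _ => μ ((fun w' => w⁻¹ * w') ⁻¹' W)) v ∂μ :=
          lintegral_mono hb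
      _ = μ ((fun w' => w⁻¹ * w') ⁻¹' W) * μ V := by
          rw [lintegral_indicator hVm, setLIntegral_const]
      _ ≤ μ ((fun w' => w⁻¹ * w') ⁻¹' W) * l := by gcongr
      _ = l * μ ((fun w' => w⁻¹ * w') ⁻¹' W) := mul_comm _ _
  · intro γ hγ v w
    have h1 := hμ.mass_inv hZ hγ v
    have h2 := hμ.mass_inv hY hγ v
    have h3 : (γ * v)⁻¹ * (γ * w) = v⁻¹ * w := by group
    simp only [hF, h1, h2, h3]

/-- the averaging argument -/
theorem FlowMeas.averaging [Countable Γ] (hμ : FlowMeas Γ D μ p)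
    (hD : IsFundamentalDomain Γ D (volume : Measure ℍ)) {f : SL(2, ℝ) → ℝ≥0∞}
    (hf : Measurable f) (hinv : ∀ γ ∈ Γ, ∀ g, f (γ * g) = f g) {L : ℝ≥0∞} (hL : L ≠ ⊤)
    (hfL : ∀ g, f g ≤ L) {ρ : ℝ≥0∞} (n : ℕ) (τ : ℝ)
    (ho : ∀ k : ℕ, 0 < k → k < n → ∫⁻ g in Berry.Fd D, f g * f (g * aS (k * τ)) ∂μ ≤ ρ)
    (hfin : ∫⁻ g in Berry.Fd D, f g ∂μ ≠ ⊤) :
    n * L * ∫⁻ g in Berry.Fd D, f g ∂μ ≤ n ^ 2 * ρ + L ^ 2 * μ (Berry.Fd D) := by
  set I := ∫⁻ g in Berry.Fd D, f g ∂μ with hI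
  have hfs : ∀ s : ℝ, Measurable fun g => f (g * aS s) := by
    intro s
    exact hf.comp (by fun_prop : Measurable fun g : SL(2, ℝ) => g * aS s)
  have hsh : ∀ s : ℝ, ∫⁻ g in Berry.Fd D, f (g * aS s) ∂μ = I :=
    fun s => hμ.setLIntegral_right hD hinv s
  -- correlations
  have hcorr : ∀ i j : ℕ, i < n → j < n → i < j →
      ∫⁻ g in Berry.Fd D, f (g * aS (i * τ)) * f (g * aS (j * τ)) ∂μ ≤ ρ := by
    intro i j _ hj hij
    have h1 := hμ.setLIntegral_right hD (f := fun g => f g * f (g * aS ((j - i : ℕ) * τ)))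
      (fun γ hγ g => by
        simp only [mul_assoc, hinv γ hγ]) (i * τ)
    have h2 : ∀ g : SL(2, ℝ), g * aS (i * τ) * aS ((j - i : ℕ) * τ) = g * aS (j * τ) := by
      intro g
      rw [mul_assoc, PB_aS_mul]
      congr 2
      rw [Nat.cast_sub hij.le]
      ring
    simp only [h2] at h1
    rw [h1]
    exact ho (j - i) (by omega) (by omega)
  have hall : ∀ i ∈ Finset.range n, ∀ j ∈ Finset.range n,
      ∫⁻ g in Berry.Fd D, f (g * aS (i * τ)) * f (g * aS (j * τ)) ∂μ ≤
        ρ + if i = j then L * I else 0 := by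
    intro i hi j hj
    rw [Finset.mem_range] at hi hj
    rcases lt_trichotomy i j with h | h | h
    · exact (hcorr i j hi hj h).trans le_self_add
    · subst h
      rw [if_pos rfl]
      calc ∫⁻ g in Berry.Fd D, f (g * aS (i * τ)) * f (g * aS (i * τ)) ∂μ
          ≤ ∫⁻ g in Berry.Fd D, L * f (g * aS (i * τ)) ∂μ := by
            apply lintegral_mono
            intro g
            exact mul_le_mul' (hfL _) le_rfl
        _ = L * I := by rw [lintegral_const_mul _ (hfs _), hsh]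
        _ ≤ _ := le_add_self
    · have h2 := hcorr j i hj hi h
      refine le_trans (le_of_eq ?_) (h2.trans le_self_add)
      apply lintegral_congr
      intro g
      exact mul_comm _ _
  set G : SL(2, ℝ) → ℝ≥0∞ := fun g => ∑ i ∈ Finset.range n, f (g * aS (i * τ)) with hG
  have hGm : Measurable G := Finset.measurable_fun_sum _ fun i _ => hfs _
  have hG1 : ∫⁻ g in Berry.Fd D, G g ∂μ = n * I := by
    rw [lintegral_finsetSum _ fun i _ => hfs _]
    simp only [hsh, Finset.sum_const, Finset.card_range, nsmul_eq_mul]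
  have hG2 : ∫⁻ g in Berry.Fd D, G g ^ 2 ∂μ ≤ n ^ 2 * ρ + n * (L * I) := by
    have e : ∀ g, G g ^ 2 = ∑ i ∈ Finset.range n, ∑ j ∈ Finset.range n,
        f (g * aS (i * τ)) * f (g * aS (j * τ)) := by
      intro g
      rw [sq, hG, Finset.sum_mul_sum]
    simp only [e]
    rw [lintegral_finsetSum]
    swap
    · intro i _
      exact Finset.measurable_fun_sum _ fun j _ => (hfs _).mul (hfs _)
    calc ∑ i ∈ Finset.range n, ∫⁻ g in Berry.Fd D, ∑ j ∈ Finset.range n,
          f (g * aS (i * τ)) * f (g * aS (j * τ)) ∂μ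
        = ∑ i ∈ Finset.range n, ∑ j ∈ Finset.range n, ∫⁻ g in Berry.Fd D,
          f (g * aS (i * τ)) * f (g * aS (j * τ)) ∂μ := by
          apply Finset.sum_congr rfl
          intro i _
          exact lintegral_finsetSum _ fun j _ => (hfs _).mul (hfs _)
      _ ≤ ∑ i ∈ Finset.range n, ∑ j ∈ Finset.range n, (ρ + if i = j then L * I else 0) :=
          Finset.sum_le_sum fun i hi => Finset.sum_le_sum fun j hj => hall i hi j hj
      _ = n ^ 2 * ρ + n * (L * I) := by
          simp only [Finset.sum_add_distrib, Finset.sum_const, Finset.card_range, nsmul_eq_mul,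
            Finset.sum_ite_eq, Finset.mem_range]
          rw [Finset.sum_ite, Finset.sum_const_zero, add_zero, Finset.sum_const, nsmul_eq_mul]
          have : (Finset.filter (fun i => i < n) (Finset.range n)).card = n := by
            rw [Finset.filter_true_of_mem fun i hi => Finset.mem_range.1 hi, Finset.card_range]
          rw [this]
          ring
  have hpt : ∀ g, 2 * L * G g ≤ G g ^ 2 + L ^ 2 := by
    intro g
    generalize G g = x
    rcases eq_or_ne x ⊤ with h | h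
    · rw [h]
      simp
    · lift x to NNReal using h
      lift L to NNReal using hL
      norm_cast
      have := two_mul_le_add_sq (x : ℝ) (L : ℝ)
      rw [← NNReal.coe_le_coe]
      push_cast
      nlinarith
  have h1 : 2 * L * (n * I) ≤ n ^ 2 * ρ + n * (L * I) + L ^ 2 * μ (Berry.Fd D) := by
    calc 2 * L * (n * I) = ∫⁻ g in Berry.Fd D, 2 * L * G g ∂μ := by
          rw [lintegral_const_mul _ hGm, hG1]
      _ ≤ ∫⁻ g in Berry.Fd D, (G g ^ 2 + L ^ 2) ∂μ := lintegral_mono hpt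
      _ = ∫⁻ g in Berry.Fd D, G g ^ 2 ∂μ + L ^ 2 * μ (Berry.Fd D) := by
          rw [lintegral_add_right _ measurable_const, setLIntegral_const]
      _ ≤ _ := by gcongr
  have h2 : (n * L * I) + (n * L * I) ≤
      (n * L * I) + (n ^ 2 * ρ + L ^ 2 * μ (Berry.Fd D)) := by
    calc (n * L * I) + (n * L * I) = 2 * L * (n * I) := by ring
      _ ≤ _ := h1
      _ = _ := by ring
  have hne : n * L * I ≠ ⊤ :=
    ENNReal.mul_ne_top (ENNReal.mul_ne_top (ENNReal.natCast_ne_top n) hL) hfin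
  exact (ENNReal.add_le_add_iff_left hne).1 h2

end

end QE
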