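import Pool.Agent.Lib_helper67.QE.TLMass
import Pool.Agent.Lib_helper67.QE.PiLemma

/-!
# The timelike part vanishes (module QH_E3 of MP_4fa179_mp), and Theorem N
-/

open MeasureTheory Filter Topology Set
open UpperHalfPlane hiding I
open scoped ContDiff MatrixGroups ENNReal

namespace QE

noncomputable section

variable [MeasurableSpace SL(2, ℝ)] [BorelSpace SL(2, ℝ)]
variable {Γ : Subgroup SL(2, ℝ)} {D : Set ℍ} {μ : Measure SL(2, ℝ)} {p : ℍ → ℝ}

theorem FlowMeas.piHyp [Countable Γ] [SFinite μ] (hμ : FlowMeas Γ D μ p)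
    (hD : IsFundamentalDomain Γ D (volume : Measure ℍ)) (hDm : MeasurableSet D) :
    ∃ C : ℝ, PiHyp (nuP D μ) C := by
  obtain ⟨C, _, hC⟩ := hμ.nuP_bound hD hDm
  exact ⟨C, fun l hl => hμ.nuP_inv hD hl, hC⟩

/-- the spacelike part -/
theorem FlowMeas.spaceW [Countable Γ] [SFinite μ] (hμ : FlowMeas Γ D μ p)
    (hD : IsFundamentalDomain Γ D (volume : Measure ℍ)) (hDm : MeasurableSet D) {σ : ℝ}
    (hσ : σ = 1 ∨ σ = -1) (η : ℝ) (hη : 0 < η) :
    ∃ c₀ : ℝ, 0 < c₀ ∧ ∀ c : ℝ, 0 < c → c < c₀ →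
      pairM D μ (SpaceW σ c) ≤ ENNReal.ofReal (η * c) := by
  obtain ⟨C, hC⟩ := hμ.piHyp hD hDm
  obtain ⟨c₀, hc₀, h⟩ := pi_spacelike hC (η / 4) (by positivity)
  refine ⟨c₀, hc₀, fun c hc hcc => ?_⟩
  set E : Set (ℝ × ℝ) := {q | (0 < σ * q.1 ∧ σ * q.1 < c) ∧ -c < σ * q.2 ∧ σ * q.2 < 0} with hE
  have m1 : Measurable fun q : ℝ × ℝ => σ * q.1 := by fun_prop
  have m2 : Measurable fun q : ℝ × ℝ => σ * q.2 := by fun_prop
  have hEm : MeasurableSet E :=
    ((measurableSet_lt measurable_const m1).inter (measurableSet_lt m1 measurable_const)).inter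
    ((measurableSet_lt measurable_const m2).inter (measurableSet_lt m2 measurable_const))
  have hEb : nuP D μ E ≤ ENNReal.ofReal (η / 4 * c) := by
    rcases hσ with rfl | rfl
    · refine le_trans (measure_mono ?_) (h c hc hcc).1
      rintro q ⟨⟨h1, h2⟩, h3, h4⟩
      exact ⟨⟨by linarith, by linarith⟩, by linarith, by linarith⟩
    · refine le_trans (measure_mono ?_) (h c hc hcc).2
      rintro q ⟨⟨h1, h2⟩, h3, h4⟩
      exact ⟨⟨by linarith, by linarith⟩, by linarith, by linarith⟩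
  have hsub : SpaceW σ c ⊆ Win (0 + -2) (4 * 1 + -2) E := by
    rintro g ⟨h0, h1, h2, h3, h4, h5, h6, h7⟩
    have hlog4 : Real.log 4 < 2 := by
      rw [Real.log_lt_iff_lt_exp (by norm_num)]
      have h8 : Real.exp 2 = Real.exp 1 * Real.exp 1 := by
        rw [← Real.exp_add]
        norm_num
      have := Real.exp_one_gt_d9
      nlinarith
    have hr : g 0 0 / g 1 1 ≤ 4 := by rwa [div_le_iff₀ h1]
    have hr' : 1 / 4 ≤ g 0 0 / g 1 1 := by
      rw [le_div_iff₀ h1]
      linarith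
    refine ⟨h0, h1, ?_, ?_, ⟨h4, h5⟩, h6, h7⟩
    · have h8 := Real.log_le_log (by norm_num) hr'
      rw [one_div, Real.log_inv] at h8
      linarith
    · have h8 := Real.log_le_log (div_pos h0 h1) hr
      linarith
  calc pairM D μ (SpaceW σ c) ≤ pairM D μ (Win (0 + -2) (4 * 1 + -2) E) := measure_mono hsub
    _ = pairM D μ (Win 0 (((4 : ℕ) : ℝ) * 1) E) := by
        rw [hμ.Win_shift hD 0 (4 * 1) (-2) hEm]
        norm_num
    _ = (4 : ℕ) * pairM D μ (Win 0 1 E) := hμ.Win_mul hD hEm zero_le_one 4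
    _ = ENNReal.ofReal 4 * nuP D μ E := by
        rw [nuP_apply hEm]
        norm_num
    _ ≤ ENNReal.ofReal 4 * ENNReal.ofReal (η / 4 * c) := by gcongr
    _ = ENNReal.ofReal (η * c) := by
        rw [← ENNReal.ofReal_mul (by norm_num)]
        congr 1
        ring

omit [MeasurableSpace SL(2, ℝ)] [BorelSpace SL(2, ℝ)] in
theorem BoxT_subset {σ d : ℝ} (hσ : σ = 1 ∨ σ = -1) (hd : 0 < d) (hd1 : d ≤ 1 / 10) :
    BoxT σ d ⊆ BallZ d := by
  intro g hg
  have hσ2 : σ ^ 2 = 1 := by rcases hσ with rfl | rfl <;> norm_num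
  obtain ⟨a1, a2, e1, e2⟩ := box_bd hσ2 hd hd1 hg
  obtain ⟨hb, hc⟩ := box_abs hσ hg
  exact ⟨by linarith, by linarith, by linarith, by linarith, by linarith, by linarith⟩

omit [BorelSpace SL(2, ℝ)] in
/-- tails of the density -/
theorem FlowMeas0.tail (hμ : FlowMeas0 Γ D μ p) {ε : ℝ} (hε : 0 < ε) :
    ∃ R : ℕ, 0 < R ∧ ∫⁻ z in D, ENNReal.ofReal (p z - R) ^ 2 ≤ ENNReal.ofReal ε := by
  have hlim : Tendsto (fun n : ℕ => ∫⁻ z in D, ENNReal.ofReal (p z - n) ^ 2) atTop
      (𝓝 (∫⁻ z in D, 0)) := by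
    refine tendsto_lintegral_of_dominated_convergence (fun z => ENNReal.ofReal (p z) ^ 2)
      (fun n => ?_) (fun n => ?_) ?_ ?_
    · exact ((hμ.pmeas.sub_const _).ennreal_ofReal).pow_const 2
    · refine ae_of_all _ fun z => ?_
      simp only
      gcongr
      have : (0 : ℝ) ≤ n := Nat.cast_nonneg n
      linarith
    · have h := hμ.psq_ne_top
      have e : ∀ z, ENNReal.ofReal (p z) ^ 2 = ENNReal.ofReal (p z ^ 2) :=
        fun z => (ENNReal.ofReal_pow (hμ.pnonneg z) 2).symm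
      simp only [e]
      exact h
    · refine ae_of_all _ fun z => ?_
      refine tendsto_const_nhds.congr' ?_
      obtain ⟨N, hN⟩ := exists_nat_ge (p z)
      filter_upwards [eventually_ge_atTop N] with n hn
      have : (N : ℝ) ≤ n := by exact_mod_cast hn
      rw [ENNReal.ofReal_of_nonpos (by linarith)]
      simp
  rw [lintegral_zero] at hlim
  have h2 : ∀ᶠ n : ℕ in atTop, ∫⁻ z in D, ENNReal.ofReal (p z - n) ^ 2 < ENNReal.ofReal ε :=
    hlim.eventually_lt_const (ENNReal.ofReal_pos.2 hε)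
  obtain ⟨n, hn, hn1⟩ := (h2.and (eventually_ge_atTop 1)).exists
  exact ⟨n, hn1, hn.le⟩

/-- the bound for the exceptional points -/
theorem FlowMeas.exceptional [Countable Γ] [SFinite μ] (hμ : FlowMeas Γ D μ p)
    (hD : IsFundamentalDomain Γ D (volume : Measure ℍ)) (hDm : MeasurableSet D) (R : ℕ)
    {d : ℝ} (hd : 0 < d) (hd1 : d ≤ 1 / 10) (l : ℝ≥0∞) (hl : l ≠ 0) (hl' : l ≠ ⊤) :
    ∫⁻ v in Berry.Fd D, (if μ ((fun w => v⁻¹ * w) ⁻¹' BallZ d) ≤
        ENNReal.ofReal (2 * (50000 * R) * d) then 0 else μ ((fun w => v⁻¹ * w) ⁻¹' BallZ d)) ∂μ ≤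
      ENNReal.ofReal (100000 * d) * (l * ∫⁻ z in D, ENNReal.ofReal (p z) ^ 2) +
      ENNReal.ofReal (100000 * d) * (l⁻¹ * ∫⁻ z in D, ENNReal.ofReal (p z - R) ^ 2) := by
  set q : ℍ → ℝ≥0∞ := fun z => ENNReal.ofReal (p z - R) with hq
  have hqm : Measurable q := (hμ.pmeas.sub_const _).ennreal_ofReal
  have hqi : ∀ γ ∈ Γ, ∀ z, q (γ • z) = q z := by
    intro γ hγ z
    simp only [hq, hμ.pinv γ hγ z]
  have h10 : 10 * d ≤ 1 := by linarith
  have h10' : 0 ≤ 10 * d := by positivity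
  set Φ : ℍ → ℝ≥0∞ := fun z => ∫⁻ w in Metric.ball z (10 * d), q w with hΦ
  have hΦm : Measurable Φ := ball_meas hqm _
  have hmass : ∀ v : SL(2, ℝ), μ ((fun w => v⁻¹ * w) ⁻¹' BallZ d) ≤
      ENNReal.ofReal (50000 * R * d) + ENNReal.ofReal (5 / d) * Φ (v • UpperHalfPlane.I) := by
    intro v
    refine (hμ.mass_ballZ v hd hd1).trans ?_
    have h1 : ∫⁻ z in Metric.ball (v • UpperHalfPlane.I) (10 * d), ENNReal.ofReal (p z) ≤
        ENNReal.ofReal R * ENNReal.ofReal (100 * (10 * d) ^ 2) + Φ (v • UpperHalfPlane.I) := by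
      calc ∫⁻ z in Metric.ball (v • UpperHalfPlane.I) (10 * d), ENNReal.ofReal (p z)
          ≤ ∫⁻ z in Metric.ball (v • UpperHalfPlane.I) (10 * d), (ENNReal.ofReal R + q z) := by
            apply lintegral_mono
            intro z
            simp only [hq]
            calc ENNReal.ofReal (p z) = ENNReal.ofReal (R + (p z - R)) := by
                  congr 1
                  ring
              _ ≤ _ := ENNReal.ofReal_add_le
        _ = ENNReal.ofReal R * volume (Metric.ball (v • UpperHalfPlane.I) (10 * d)) +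
              Φ (v • UpperHalfPlane.I) := by
            rw [lintegral_add_left measurable_const, setLIntegral_const]
        _ ≤ _ := by
            gcongr
            exact vol_ball_le _ h10' h10
    calc ENNReal.ofReal (5 / d) *
          ∫⁻ z in Metric.ball (v • UpperHalfPlane.I) (10 * d), ENNReal.ofReal (p z)
        ≤ ENNReal.ofReal (5 / d) * (ENNReal.ofReal R * ENNReal.ofReal (100 * (10 * d) ^ 2) +
            Φ (v • UpperHalfPlane.I)) := by gcongr
      _ = _ := by
          rw [mul_add, ← ENNReal.ofReal_mul (by positivity), ← ENNReal.ofReal_mul (by positivity)]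
          congr 2
          field_simp
          ring
  have hpt : ∀ v : SL(2, ℝ), (if μ ((fun w => v⁻¹ * w) ⁻¹' BallZ d) ≤
      ENNReal.ofReal (2 * (50000 * R) * d) then 0 else μ ((fun w => v⁻¹ * w) ⁻¹' BallZ d)) ≤
      ENNReal.ofReal (10 / d) * Φ (v • UpperHalfPlane.I) := by
    intro v
    have hm := hmass v
    generalize μ ((fun w => v⁻¹ * w) ⁻¹' BallZ d) = m at *
    have e2 : ENNReal.ofReal (2 * (50000 * R) * d) =
        ENNReal.ofReal (50000 * R * d) + ENNReal.ofReal (50000 * R * d) := by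
      rw [← ENNReal.ofReal_add (by positivity) (by positivity)]
      congr 1
      ring
    have e3 : ENNReal.ofReal (10 / d) * Φ (v • UpperHalfPlane.I) =
        ENNReal.ofReal (5 / d) * Φ (v • UpperHalfPlane.I) +
          ENNReal.ofReal (5 / d) * Φ (v • UpperHalfPlane.I) := by
      rw [← add_mul, ← ENNReal.ofReal_add (by positivity) (by positivity)]
      congr 2
      ring
    rw [e2, e3]
    generalize ENNReal.ofReal (5 / d) * Φ (v • UpperHalfPlane.I) = φ at *
    generalize ENNReal.ofReal (50000 * R * d) = b₀ at *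
    split_ifs with h
    · exact zero_le
    · push Not at h
      rcases le_total b₀ φ with h1 | h1
      · exact hm.trans (by gcongr)
      · exact absurd (lt_of_lt_of_le h (hm.trans (by gcongr))) (lt_irrefl _)
  calc _ ≤ ∫⁻ v in Berry.Fd D, ENNReal.ofReal (10 / d) * Φ (v • UpperHalfPlane.I) ∂μ :=
        lintegral_mono hpt
    _ = ENNReal.ofReal (10 / d) * ∫⁻ z in D, ENNReal.ofReal (p z) * Φ z := by
        rw [lintegral_const_mul' _ _ ENNReal.ofReal_ne_top]
        congr 1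
        exact hμ.lintegral_proj hΦm hDm
    _ ≤ ENNReal.ofReal (10 / d) * (ENNReal.ofReal (100 * (10 * d) ^ 2) *
          (l * ∫⁻ z in D, ENNReal.ofReal (p z) ^ 2) +
          ENNReal.ofReal (100 * (10 * d) ^ 2) * (l⁻¹ * ∫⁻ z in D, q z ^ 2)) := by
        gcongr
        exact bilin hD hμ.pm hqm hqi h10' h10 l hl hl'
    _ = _ := by
        rw [mul_add, ← mul_assoc, ← mul_assoc (ENNReal.ofReal (10 / d)),
          ← ENNReal.ofReal_mul (by positivity)]
        have : 10 / d * (100 * (10 * d) ^ 2) = 100000 * d := by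
          field_simp
          ring
        rw [this]

/-- **The timelike part vanishes.** -/
theorem FlowMeas.boxT [Countable Γ] [SFinite μ] (hμ : FlowMeas Γ D μ p)
    (hD : IsFundamentalDomain Γ D (volume : Measure ℍ)) (hDm : MeasurableSet D)
    (hfin : (volume : Measure ℍ) D ≠ ⊤) {σ : ℝ}
    (hσ : σ = 1 ∨ σ = -1) (η : ℝ) (hη : 0 < η) :
    ∃ d₀ : ℝ, 0 < d₀ ∧ ∀ d : ℝ, 0 < d → d < d₀ →
      pairM D μ (BoxT σ d) ≤ ENNReal.ofReal (η * d) := by
  -- the constants
  set A : ℝ≥0∞ := ∫⁻ z in D, ENNReal.ofReal (p z) ^ 2 with hA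
  have hAt : A ≠ ⊤ := by
    have h := hμ.psq_ne_top
    have e : ∀ z, ENNReal.ofReal (p z) ^ 2 = ENNReal.ofReal (p z ^ 2) :=
      fun z => (ENNReal.ofReal_pow (hμ.pnonneg z) 2).symm
    rw [hA]
    simp only [e]
    exact h
  set m : ℝ≥0∞ := μ (Berry.Fd D) with hm
  have hmt : m ≠ ⊤ := hμ.fd_ne_top hDm hfin
  set l : ℝ := η / (400000 * (A.toReal + 1)) with hl
  have hA0 : 0 ≤ A.toReal := ENNReal.toReal_nonneg
  have hl0 : 0 < l := by positivity
  obtain ⟨R, hR, hRt⟩ := hμ.tail (ε := η * l / 400000) (by positivity)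
  set n : ℕ := ⌈4 * (2 * (50000 * (R : ℝ))) * m.toReal / η⌉₊ + 1 with hn
  have hn0 : (0 : ℝ) < n := by
    rw [hn]
    positivity
  have hm0 : 0 ≤ m.toReal := ENNReal.toReal_nonneg
  have hnm : 2 * (50000 * (R : ℝ)) * m.toReal / n ≤ η / 4 := by
    rw [div_le_iff₀ hn0]
    have h1 : 4 * (2 * (50000 * (R : ℝ))) * m.toReal / η ≤ n := by
      rw [hn]
      push_cast
      linarith [Nat.le_ceil (4 * (2 * (50000 * (R : ℝ))) * m.toReal / η)]
    rw [div_le_iff₀ hη] at h1
    linarith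
  set κ : ℝ := 2 * Real.exp (n * 2) with hκ
  have hκ0 : 0 < κ := by positivity
  obtain ⟨c₀, hc₀, hsp⟩ := hμ.spaceW hD hDm hσ (η / (4 * n * κ)) (by positivity)
  refine ⟨min (1 / 10) (min (c₀ / κ) (1 / (10 * Real.exp (n * 2)))), by positivity, ?_⟩
  intro d hd hdd
  have hd1 : d ≤ 1 / 10 := (hdd.trans_le (min_le_left _ _)).le
  have hd2 : κ * d < c₀ := by
    have := hdd.trans_le ((min_le_right _ _).trans (min_le_left _ _))
    rw [lt_div_iff₀ hκ0] at this
    linarith
  have hd3 : Real.exp (n * 2) * d ^ 2 ≤ 1 / 10 := by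
    have h1 := (hdd.trans_le ((min_le_right _ _).trans (min_le_right _ _))).le
    rw [le_div_iff₀ (by positivity)] at h1
    have h2 : 0 < Real.exp (n * 2) := Real.exp_pos _
    have h3 : Real.exp (n * 2) * d ^ 2 = (d * (10 * Real.exp (n * 2))) * (d / 10) := by ring
    rw [h3]
    calc (d * (10 * Real.exp (n * 2))) * (d / 10) ≤ 1 * (1 / 10) := by
          apply mul_le_mul h1 _ (by positivity) (by norm_num)
          linarith
      _ = 1 / 10 := by norm_num
  -- the functions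
  set L : ℝ≥0∞ := ENNReal.ofReal (2 * (50000 * R) * d) with hLdef
  have hR' : (0 : ℝ) < R := by exact_mod_cast hR
  have hL0 : L ≠ 0 := by
    rw [hLdef]
    exact (ENNReal.ofReal_pos.2 (by positivity)).ne'
  have hLt : L ≠ ⊤ := ENNReal.ofReal_ne_top
  have hXm := BoxT_meas σ d
  have hZm := BallZ_meas d
  set f : SL(2, ℝ) → ℝ≥0∞ := fun v =>
    if μ ((fun w => v⁻¹ * w) ⁻¹' BallZ d) ≤ L then μ ((fun w => v⁻¹ * w) ⁻¹' BoxT σ d) else 0
    with hf
  have hfm : Measurable f :=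
    Measurable.ite (measurableSet_le (mass_meas hZm) measurable_const) (mass_meas hXm)
      measurable_const
  have hXZ : ∀ v : SL(2, ℝ), μ ((fun w => v⁻¹ * w) ⁻¹' BoxT σ d) ≤
      μ ((fun w => v⁻¹ * w) ⁻¹' BallZ d) := fun v =>
    measure_mono (preimage_mono (BoxT_subset hσ hd hd1))
  have hfL : ∀ g, f g ≤ L := by
    intro g
    simp only [hf]
    split_ifs with h
    · exact (hXZ g).trans h
    · exact zero_le
  have hfinv : ∀ γ ∈ Γ, ∀ g, f (γ * g) = f g := by
    intro γ hγ g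
    simp only [hf, hμ.mass_inv hZm hγ g, hμ.mass_inv hXm hγ g]
  set I₁ := ∫⁻ g in Berry.Fd D, f g ∂μ with hI₁
  have hI₁t : I₁ ≠ ⊤ := by
    refine ne_top_of_le_ne_top (ENNReal.mul_ne_top hLt hmt) ?_
    calc I₁ ≤ ∫⁻ g in Berry.Fd D, L ∂μ := lintegral_mono hfL
      _ = L * m := by rw [setLIntegral_const]
  -- correlations
  set P : ℝ≥0∞ := pairM D μ (SpaceW σ (κ * d)) with hP
  have hPb : P ≤ ENNReal.ofReal (η / (4 * n * κ) * (κ * d)) := hsp _ (by positivity) hd2
  have hcor : ∀ k : ℕ, 0 < k → k < n →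
      ∫⁻ g in Berry.Fd D, f g * f (g * aS (k * 2)) ∂μ ≤ L * P := by
    intro k hk hkn
    have hk1 : (1 : ℝ) ≤ k := by exact_mod_cast hk
    have hkn' : (k : ℝ) ≤ n := by exact_mod_cast hkn.le
    have hek : Real.exp (k * 2) ≤ Real.exp (n * 2) := Real.exp_le_exp.2 (by linarith)
    set Y : Set SL(2, ℝ) := (fun g => aS (-(k * 2)) * g * aS (k * 2)) ⁻¹' BoxT σ d with hY
    have hYm : MeasurableSet Y := by
      have : Measurable fun g : SL(2, ℝ) => aS (-(k * 2)) * g * aS (k * 2) :=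
        ((continuous_const_mul _).mul continuous_const).measurable
      exact this hXm
    have h1 := hμ.triple hD hXm hYm hZm (SpaceW_meas σ (κ * d))
      (fun g hg h hh => box_mul_inv hσ hd hd1 hg hh)
      (fun g hg y hy => by
        have h2 := box_inv_mul hσ hd hd1 (s := k * 2) (by linarith)
          ((mul_le_mul_of_nonneg_right hek (sq_nonneg d)).trans hd3) hg hy
        obtain ⟨a0, a1, a2, a3, a4, a5, a6, a7⟩ := h2
        have h3 : 2 * Real.exp (k * 2) * d ≤ κ * d := by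
          rw [hκ]
          gcongr
        exact ⟨a0, a1, a2, a3, a4, by linarith, by linarith, a7⟩) L
    refine le_trans (lintegral_mono fun v => ?_) h1
    have h2 := hμ.shift_conj hXm v (k * 2)
    simp only [hf]
    split_ifs with h3 h4
    · rw [h2]
    · rw [mul_zero]
      exact zero_le
    · rw [zero_mul]
    · rw [zero_mul]
  have hav := hμ.averaging hD hfm hfinv hLt hfL n 2 hcor hI₁t
  -- the main part
  have hmain : I₁ ≤ ENNReal.ofReal (η / 4 * d + η / 4 * d) := by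
    have h1 : (n * L) * I₁ ≤ (n * L) * ENNReal.ofReal (η / 4 * d + η / 4 * d) := by
      refine hav.trans ?_
      have h2 : (n : ℝ≥0∞) ^ 2 * (L * P) ≤ n * L * ENNReal.ofReal (η / 4 * d) := by
        have h3 : (n : ℝ≥0∞) * P ≤ ENNReal.ofReal (η / 4 * d) := by
          calc (n : ℝ≥0∞) * P ≤ ENNReal.ofReal n * ENNReal.ofReal (η / (4 * n * κ) * (κ * d)) := by
                rw [ENNReal.ofReal_natCast]
                gcongr
            _ = ENNReal.ofReal (η / 4 * d) := by
                rw [← ENNReal.ofReal_mul hn0.le]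
                congr 1
                field_simp
        calc (n : ℝ≥0∞) ^ 2 * (L * P) = n * L * (n * P) := by ring
          _ ≤ _ := by gcongr
      have h4 : L ^ 2 * m ≤ n * L * ENNReal.ofReal (η / 4 * d) := by
        have h5 : L * m ≤ n * ENNReal.ofReal (η / 4 * d) := by
          rw [← ENNReal.ofReal_toReal hmt, hLdef, ← ENNReal.ofReal_mul (by positivity),
            ← ENNReal.ofReal_natCast, ← ENNReal.ofReal_mul hn0.le]
          apply ENNReal.ofReal_le_ofReal
          rw [div_le_iff₀ hn0] at hnm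
          nlinarith [mul_le_mul_of_nonneg_right hnm hd.le]
        calc L ^ 2 * m = L * (L * m) := by ring
          _ ≤ L * (n * ENNReal.ofReal (η / 4 * d)) := by gcongr
          _ = _ := by ring
      calc (n : ℝ≥0∞) ^ 2 * (L * P) + L ^ 2 * m
          ≤ n * L * ENNReal.ofReal (η / 4 * d) + n * L * ENNReal.ofReal (η / 4 * d) :=
            add_le_add h2 h4
        _ = _ := by rw [← mul_add, ENNReal.ofReal_add (by positivity) (by positivity)]
    have hne : (n : ℝ≥0∞) * L ≠ 0 := mul_ne_zero (by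
      intro h
      have : (n : ℝ) = 0 := by exact_mod_cast h
      linarith) hL0
    have hnt : (n : ℝ≥0∞) * L ≠ ⊤ := ENNReal.mul_ne_top (ENNReal.natCast_ne_top n) hLt
    exact (ENNReal.mul_le_mul_iff_right hne hnt).1 h1
  -- the exceptional part
  have hexc := hμ.exceptional hD hDm R hd hd1 (ENNReal.ofReal l)
    (ENNReal.ofReal_pos.2 hl0).ne' ENNReal.ofReal_ne_top
  have hexc2 : ENNReal.ofReal (100000 * d) * (ENNReal.ofReal l * A) +
      ENNReal.ofReal (100000 * d) * ((ENNReal.ofReal l)⁻¹ *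
        ∫⁻ z in D, ENNReal.ofReal (p z - R) ^ 2) ≤ ENNReal.ofReal (η / 4 * d + η / 4 * d) := by
    rw [ENNReal.ofReal_add (by positivity) (by positivity)]
    apply add_le_add
    · rw [← ENNReal.ofReal_toReal hAt, ← ENNReal.ofReal_mul hl0.le,
        ← ENNReal.ofReal_mul (by positivity)]
      apply ENNReal.ofReal_le_ofReal
      have h1 : l * A.toReal ≤ η / 400000 := by
        rw [hl, div_mul_eq_mul_div, div_le_div_iff₀ (by positivity) (by positivity)]
        nlinarith
      nlinarith [mul_le_mul_of_nonneg_right h1 hd.le]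
    · calc ENNReal.ofReal (100000 * d) * ((ENNReal.ofReal l)⁻¹ *
          ∫⁻ z in D, ENNReal.ofReal (p z - R) ^ 2)
          ≤ ENNReal.ofReal (100000 * d) * (ENNReal.ofReal l⁻¹ *
            ENNReal.ofReal (η * l / 400000)) := by
            rw [ENNReal.ofReal_inv_of_pos hl0]
            gcongr
        _ = ENNReal.ofReal (η / 4 * d) := by
            rw [← ENNReal.ofReal_mul (by positivity), ← ENNReal.ofReal_mul (by positivity)]
            congr 1
            field_simp
            ring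
  -- conclusion
  rw [pairM_apply hXm]
  unfold pairMass
  have hsplit : ∀ v : SL(2, ℝ), μ ((fun w => v⁻¹ * w) ⁻¹' BoxT σ d) ≤ f v +
      (if μ ((fun w => v⁻¹ * w) ⁻¹' BallZ d) ≤ ENNReal.ofReal (2 * (50000 * R) * d) then 0
        else μ ((fun w => v⁻¹ * w) ⁻¹' BallZ d)) := by
    intro v
    simp only [hf]
    split_ifs with h
    · rw [add_zero]
    · rw [zero_add]
      exact hXZ v
  calc ∫⁻ v in Berry.Fd D, μ ((fun w => v⁻¹ * w) ⁻¹' BoxT σ d) ∂μ
      ≤ ∫⁻ v in Berry.Fd D, (f v +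
        (if μ ((fun w => v⁻¹ * w) ⁻¹' BallZ d) ≤ ENNReal.ofReal (2 * (50000 * R) * d) then 0
          else μ ((fun w => v⁻¹ * w) ⁻¹' BallZ d))) ∂μ := lintegral_mono hsplit
    _ = I₁ + _ := lintegral_add_left hfm _
    _ ≤ ENNReal.ofReal (η / 4 * d + η / 4 * d) + ENNReal.ofReal (η / 4 * d + η / 4 * d) :=
        add_le_add hmain (hexc.trans hexc2)
    _ = ENNReal.ofReal (η * d) := by
        rw [← ENNReal.ofReal_add (by positivity) (by positivity)]
        congr 1
        ring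

/-- the timelike boxes, in the form needed by `pi_main` -/
theorem FlowMeas.timelike [Countable Γ] [SFinite μ] (hμ : FlowMeas Γ D μ p)
    (hD : IsFundamentalDomain Γ D (volume : Measure ℍ)) (hDm : MeasurableSet D)
    (hfin : (volume : Measure ℍ) D ≠ ⊤) (η : ℝ) (hη : 0 < η) :
    ∃ d₀ : ℝ, 0 < d₀ ∧ ∀ d : ℝ, 0 < d → d < d₀ →
      nuP D μ {q : ℝ × ℝ | (d / 2 ≤ q.1 ∧ q.1 < d) ∧ d / 2 ≤ q.2 ∧ q.2 < d} ≤
        ENNReal.ofReal (η * d) ∧
      nuP D μ {q : ℝ × ℝ | (d / 2 ≤ -q.1 ∧ -q.1 < d) ∧ d / 2 ≤ -q.2 ∧ -q.2 < d} ≤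
        ENNReal.ofReal (η * d) := by
  obtain ⟨d₁, hd₁, h1⟩ := hμ.boxT hD hDm hfin (σ := 1) (Or.inl rfl) η hη
  obtain ⟨d₂, hd₂, h2⟩ := hμ.boxT hD hDm hfin (σ := -1) (Or.inr rfl) η hη
  refine ⟨min d₁ d₂, lt_min hd₁ hd₂, fun d hd hdd => ⟨?_, ?_⟩⟩
  · have hm : MeasurableSet {q : ℝ × ℝ | (d / 2 ≤ q.1 ∧ q.1 < d) ∧ d / 2 ≤ q.2 ∧ q.2 < d} :=
      ((measurableSet_le measurable_const measurable_fst).inter
        (measurableSet_lt measurable_fst measurable_const)).inter
      ((measurableSet_le measurable_const measurable_snd).inter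
        (measurableSet_lt measurable_snd measurable_const))
    rw [nuP_apply hm]
    refine le_trans (measure_mono ?_) (h1 d hd (hdd.trans_le (min_le_left _ _)))
    rintro g ⟨g1, g2, g3, g4, ⟨g5, g6⟩, g7, g8⟩
    simp only at g5 g6 g7 g8
    exact ⟨g1, g2, g3, g4, by linarith, by linarith, by linarith, by linarith⟩
  · have hm : MeasurableSet {q : ℝ × ℝ | (d / 2 ≤ -q.1 ∧ -q.1 < d) ∧ d / 2 ≤ -q.2 ∧ -q.2 < d} :=
      ((measurableSet_le measurable_const measurable_fst.neg).inter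
        (measurableSet_lt measurable_fst.neg measurable_const)).inter
      ((measurableSet_le measurable_const measurable_snd.neg).inter
        (measurableSet_lt measurable_snd.neg measurable_const))
    rw [nuP_apply hm]
    refine le_trans (measure_mono ?_) (h2 d hd (hdd.trans_le (min_le_right _ _)))
    rintro g ⟨g1, g2, g3, g4, ⟨g5, g6⟩, g7, g8⟩
    simp only at g5 g6 g7 g8
    exact ⟨g1, g2, g3, g4, by linarith, by linarith, by linarith, by linarith⟩

/-- **Theorem N.** -/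
theorem FlowMeas.theoremN [Countable Γ] [SFinite μ] (hμ : FlowMeas Γ D μ p)
    (hD : IsFundamentalDomain Γ D (volume : Measure ℍ)) (hDm : MeasurableSet D)
    (hfin : (volume : Measure ℍ) D ≠ ⊤) (η : ℝ) (hη : 0 < η) :
    ∃ ε : ℝ, 0 < ε ∧ ∃ d₀ : ℝ, 0 < d₀ ∧ ∀ d : ℝ, 0 < d → d < d₀ →
      pairMass D μ (Kset d ε) ≤ ENNReal.ofReal (η * d ^ 2) := by
  obtain ⟨C, hC⟩ := hμ.piHyp hD hDm
  obtain ⟨ε, hε, d₀, hd₀, h⟩ := pi_main hC (fun η hη => hμ.timelike hD hDm hfin η hη) (η / 16)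
    (by positivity)
  refine ⟨min ε (1 / 8), by positivity, min d₀ (1 / 8), by positivity, fun d hd hdd => ?_⟩
  have hd8 : d ≤ 1 / 8 := (hdd.trans_le (min_le_right _ _)).le
  have h1 := hμ.Kset_le hD hd hd8 (ε := min ε (1 / 8)) (min_le_right _ _)
  refine h1.trans ?_
  calc ENNReal.ofReal (16 * d) *
        nuP D μ {q : ℝ × ℝ | |q.1 + q.2| < d ∧ |q.1 - q.2| < min ε (1 / 8)}
      ≤ ENNReal.ofReal (16 * d) * ENNReal.ofReal (η / 16 * d) := by
        refine mul_le_mul' le_rfl (le_trans (measure_mono ?_)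
          (h d hd (hdd.trans_le (min_le_left _ _))))
        rintro q ⟨q1, q2⟩
        exact ⟨q1, q2.trans_le (min_le_left _ _)⟩
    _ = ENNReal.ofReal (η * d ^ 2) := by
        rw [← ENNReal.ofReal_mul (by positivity)]
        congr 1
        ring

end

end QE
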