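import Pool.Agent.Lib_helper67.QE.VarJ

/-!
The lower bound for the fourth moment, when the microlocal measure has no directional atoms
(helper70).
-/

open Complex MeasureTheory Filter Topology
open scoped ContDiff

namespace QE

noncomputable section

variable {U : Set ℂ} {h : ℕ → ℝ} {a : ℂ → ℂ} {g : ℂ → ℂ} {φ : ℕ → ℂ → ℂ} {u : ℤ → ℂ → ℂ}

/-- positivity over the quadruples -/
theorem Setup.quads_nonneg (S : Setup U g a h φ) {ζ : ℂ → ℝ} (hT : Test U (fun z => (ζ z : ℂ)))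
    (hζ0 : ∀ z, 0 ≤ ζ z) (M n : ℕ) :
    0 ≤ (∑ p ∈ quads M, ∫ z, (ζ z : ℂ) * (E h a φ (2 * p.1.1) n z * E h a φ (2 * p.1.2) n z
        * (E h a φ (-(2 * p.2.1)) n z * E h a φ (-(2 * p.2.2)) n z))).re := by
  rw [← integral_finsetSum _ (fun p _ => S.int4 hT n _ _ _ _)]
  have hre : (∫ z, ∑ p ∈ quads M, (ζ z : ℂ) * (E h a φ (2 * p.1.1) n z * E h a φ (2 * p.1.2) n z
      * (E h a φ (-(2 * p.2.1)) n z * E h a φ (-(2 * p.2.2)) n z))).re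
      = ∫ z, (∑ p ∈ quads M, (ζ z : ℂ) * (E h a φ (2 * p.1.1) n z * E h a φ (2 * p.1.2) n z
      * (E h a φ (-(2 * p.2.1)) n z * E h a φ (-(2 * p.2.2)) n z))).re := by
    have hi : Integrable (fun z => ∑ p ∈ quads M, (ζ z : ℂ) * (E h a φ (2 * p.1.1) n z
      * E h a φ (2 * p.1.2) n z * (E h a φ (-(2 * p.2.1)) n z * E h a φ (-(2 * p.2.2)) n z))) :=
      integrable_finsetSum _ (fun p _ => S.int4 hT n _ _ _ _)
    exact (integral_re hi).symm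
  rw [hre]
  refine integral_nonneg fun z => ?_
  by_cases hz : z ∈ U
  · have hcj : ∀ c : ℕ, E h a φ (-(2 * (c : ℤ))) n z
        = (starRingEnd ℂ) (E h a φ (2 * (c : ℤ)) n z) := by
      intro c
      have h1 := S.E_neg (2 * c) n z hz
      have h2 : -(((2 * c : ℕ) : ℤ)) = -(2 * (c : ℤ)) := by push_cast; ring
      rw [h2] at h1
      rw [h1, pow_mul, neg_one_sq, one_pow, one_mul]
      rfl
    have e2 : ∑ p ∈ quads M, (ζ z : ℂ) * (E h a φ (2 * p.1.1) n z * E h a φ (2 * p.1.2) n z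
      * (E h a φ (-(2 * p.2.1)) n z * E h a φ (-(2 * p.2.2)) n z))
        = (ζ z : ℂ) * ∑ p ∈ quads M, ((fun q : ℕ × ℕ => E h a φ (2 * q.1) n z
          * E h a φ (2 * q.2) n z) p.1) * (starRingEnd ℂ) ((fun q : ℕ × ℕ => E h a φ (2 * q.1) n z
          * E h a φ (2 * q.2) n z) p.2) := by
      rw [Finset.mul_sum]
      refine Finset.sum_congr rfl fun p _ => ?_
      rw [hcj, hcj, map_mul]
    show 0 ≤ (∑ p ∈ quads M, (ζ z : ℂ) * (E h a φ (2 * p.1.1) n z * E h a φ (2 * p.1.2) n z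
      * (E h a φ (-(2 * p.2.1)) n z * E h a φ (-(2 * p.2.2)) n z))).re
    rw [e2, re_ofReal_mul]
    exact mul_nonneg (hζ0 z) (sum_pairs_nonneg (Finset.range (M + 1) ×ˢ Finset.range (M + 1))
      (fun q : ℕ × ℕ => E h a φ (2 * q.1) n z * E h a φ (2 * q.2) n z)
      (fun q : ℕ × ℕ => q.1 + q.2))
  · have : (ζ z : ℂ) = 0 := image_eq_zero_of_notMem_tsupport (f := fun z => (ζ z : ℂ))
      fun hh => hz (hT.sub hh)
    simp [this]

theorem Gam_quads (hU : IsOpen U) (hu : ∀ k, LocL2 U (u k))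
    (hc : ∀ᵐ z ∂((volume : Measure ℂ).restrict U), ∀ k, u (-k) z = (starRingEnd ℂ) (u k z))
    {ρ : ℂ → ℝ} (hρ : Test U (fun z => (ρ z : ℂ))) (p q r s : ℤ) (he : p + q = r + s) :
    Gam u (fun z => (ρ z : ℂ)) (2 * p) (2 * q) (-(2 * r)) (-(2 * s))
      = ((UU u ρ (2 * (p + q)) + UU u ρ (2 * (p - r)) + UU u ρ (2 * (p - s)) : ℝ) : ℂ) := by
  unfold Gam UU
  rw [hρ.congr_ae hU (GW_quads hc p q r s he)]
  have i1 := hρ.int_sq (hu (2 * (p + q)))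
  have i2 := hρ.int_sq (hu (2 * (p - r)))
  have i3 := hρ.int_sq (hu (2 * (p - s)))
  have e : ∫ z, (ρ z : ℂ) * ((‖u (2 * (p + q)) z‖ ^ 2 + ‖u (2 * (p - r)) z‖ ^ 2
      + ‖u (2 * (p - s)) z‖ ^ 2 : ℝ) : ℂ)
      = ∫ z, ((ρ z * ‖u (2 * (p + q)) z‖ ^ 2 + ρ z * ‖u (2 * (p - r)) z‖ ^ 2
      + ρ z * ‖u (2 * (p - s)) z‖ ^ 2 : ℝ) : ℂ) := by
    refine integral_congr_ae (Filter.Eventually.of_forall fun z => ?_)
    beta_reduce
    push_cast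
    ring
  have e2 : ∫ z, ((ρ z * ‖u (2 * (p + q)) z‖ ^ 2 + ρ z * ‖u (2 * (p - r)) z‖ ^ 2
      + ρ z * ‖u (2 * (p - s)) z‖ ^ 2 : ℝ) : ℂ)
      = ((∫ z, (ρ z * ‖u (2 * (p + q)) z‖ ^ 2 + ρ z * ‖u (2 * (p - r)) z‖ ^ 2
      + ρ z * ‖u (2 * (p - s)) z‖ ^ 2) : ℝ) : ℂ) := integral_ofReal
  have e3 : ∫ z, (ρ z * ‖u (2 * (p + q)) z‖ ^ 2 + ρ z * ‖u (2 * (p - r)) z‖ ^ 2
      + ρ z * ‖u (2 * (p - s)) z‖ ^ 2)
      = (∫ z, (ρ z * ‖u (2 * (p + q)) z‖ ^ 2 + ρ z * ‖u (2 * (p - r)) z‖ ^ 2))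
      + ∫ z, ρ z * ‖u (2 * (p - s)) z‖ ^ 2 := integral_add (i1.add i2) i3
  have e4 : ∫ z, (ρ z * ‖u (2 * (p + q)) z‖ ^ 2 + ρ z * ‖u (2 * (p - r)) z‖ ^ 2)
      = (∫ z, ρ z * ‖u (2 * (p + q)) z‖ ^ 2) + ∫ z, ρ z * ‖u (2 * (p - r)) z‖ ^ 2 :=
    integral_add i1 i2
  rw [e, e2, e3, e4]

theorem Gam_zero (hU : IsOpen U) (hu : ∀ k, LocL2 U (u k))
    (hc : ∀ᵐ z ∂((volume : Measure ℂ).restrict U), ∀ k, u (-k) z = (starRingEnd ℂ) (u k z))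
    {ρ : ℂ → ℝ} (hρ : Test U (fun z => (ρ z : ℂ))) :
    Gam u (fun z => (ρ z : ℂ)) 0 0 0 0 = ((3 * UU u ρ 0 : ℝ) : ℂ) := by
  have := Gam_quads hU hu hc hρ 0 0 0 0 rfl
  simp only [mul_zero, neg_zero, add_zero, sub_zero] at this
  rw [this]
  push_cast
  ring

theorem Setup.fourth_eq (S : Setup U g a h φ) {ζ : ℂ → ℝ} (hT : Test U (fun z => (ζ z : ℂ)))
    (n : ℕ) : ∫ z, (ζ z : ℂ) * (E h a φ 0 n z * E h a φ 0 n z * (E h a φ 0 n z * E h a φ 0 n z))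
      = ((∫ z, ζ z * (φ n z).re ^ 4 : ℝ) : ℂ) := by
  have e0 : ((∫ z, ζ z * (φ n z).re ^ 4 : ℝ) : ℂ)
      = ∫ z, ((ζ z * (φ n z).re ^ 4 : ℝ) : ℂ) := integral_ofReal.symm
  rw [e0]
  have := hT.integral_congr (f := fun z => E h a φ 0 n z * E h a φ 0 n z
    * (E h a φ 0 n z * E h a φ 0 n z)) (f' := fun z => (((φ n z).re : ℝ) : ℂ) ^ 4)
    (fun z hz => by
      have h1 : (((φ n z).re : ℝ) : ℂ) = φ n z := conj_eq_iff_re.1 (S.real n z hz)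
      rw [h1]
      show φ n z * φ n z * (φ n z * φ n z) = φ n z ^ 4
      ring)
  refine Eq.trans this ?_
  refine MeasureTheory.integral_congr_ae (Filter.Eventually.of_forall fun z => ?_)
  push_cast
  ring

/-- **the local lower bound for the fourth moment**, for microlocal measures without directional
atoms -/
theorem local_atomless' (S : Setup U g a h φ)
    (hu : ∀ k, LocL2 U (u k)) (hw : ∀ j m : ℤ, WLim U
      (fun n z => E h a φ j n z * E h a φ m n z) (fun z => (-1) ^ j * u (j + m) z))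
    (hc : ∀ k, ∀ᵐ z ∂((volume : Measure ℂ).restrict U), u (-k) z = (starRingEnd ℂ) (u k z))
    {ζ : ℂ → ℝ} (hζs : ContDiff ℝ ∞ ζ) (hζc : HasCompactSupport ζ) (hζU : tsupport ζ ⊆ U)
    (hζ0 : ∀ z, 0 ≤ ζ z)
    (hN : Tendsto (fun N : ℕ => (1 / (N : ℝ)) * ∑ k ∈ Finset.Ioo (-(N : ℤ)) (N : ℤ),
      ∫ z, ζ z * ‖u k z‖ ^ 2) atTop (𝓝 0)) {ε : ℝ} (hε : 0 < ε) :
    ∀ᶠ n in atTop, 3 * (∫ z, ζ z * ‖u 0 z‖ ^ 2) - ε ≤ ∫ z, ζ z * (φ n z).re ^ 4 := by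
  have L : JetLim U h a φ u := ⟨hu, hw⟩
  have hc' : ∀ᵐ z ∂((volume : Measure ℂ).restrict U), ∀ k, u (-k) z
      = (starRingEnd ℂ) (u k z) := ae_all_iff.2 hc
  have hT : Test U (fun z => (ζ z : ℂ)) := by
    refine ⟨ofRealCLM.contDiff.comp hζs, ?_, ?_⟩
    · unfold HasCompactSupport
      rw [Test.tsupport_eq]
      exact hζc
    · rw [Test.tsupport_eq]; exact hζU
  -- the number of jets
  obtain ⟨N₀, hN₀⟩ := (Metric.tendsto_atTop.1 hN) (ε / 192) (by positivity)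
  set K : ℕ := N₀ with hK
  set M : ℕ := 2 * K with hM
  set Tot : ℝ := ∑ k ∈ Finset.Ioo (-((4 * M + 1 : ℕ) : ℤ)) ((4 * M + 1 : ℕ) : ℤ), UU u ζ k with hTot
  have hTot0 : 0 ≤ Tot := Finset.sum_nonneg fun k _ => UU_nonneg hζ0 k
  have hTotle : Tot ≤ ε / 192 * (8 * ((K : ℝ) + 1)) := by
    have h1 := hN₀ (4 * M + 1) (by omega)
    rw [dist_zero_right, Real.norm_eq_abs] at h1
    have h2 := (le_abs_self _).trans h1.le
    have hpos : (0 : ℝ) < ((4 * M + 1 : ℕ) : ℝ) := by positivity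
    have h3 : Tot ≤ ε / 192 * ((4 * M + 1 : ℕ) : ℝ) := by
      have h4 : (1 / ((4 * M + 1 : ℕ) : ℝ)) * Tot ≤ ε / 192 := h2
      rw [one_div, inv_mul_le_iff₀ hpos] at h4
      linarith
    refine h3.trans ?_
    have h5 : ((4 * M + 1 : ℕ) : ℝ) ≤ 8 * ((K : ℝ) + 1) := by
      rw [hM]; push_cast; linarith
    gcongr
  set T : ℝ := ((quads M).card : ℝ) with hTdef
  have hTK : ((K : ℝ) + 1) ^ 3 ≤ T := by
    have := card_quads K
    rw [← hM] at this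
    rw [hTdef]
    exact_mod_cast this
  have hT1 : 1 ≤ T := by
    have : (1 : ℝ) ≤ ((K : ℝ) + 1) ^ 3 := by
      apply one_le_pow₀
      have : (0 : ℝ) ≤ K := by positivity
      linarith
    linarith
  -- the Wick sums
  have hGsum : ∑ p ∈ quads M, Gam u (fun z => (ζ z : ℂ)) (2 * p.1.1) (2 * p.1.2) (-(2 * p.2.1))
      (-(2 * p.2.2)) = ((∑ p ∈ quads M, (UU u ζ (2 * ((p.1.1 : ℤ) + p.1.2))
        + UU u ζ (2 * ((p.1.1 : ℤ) - p.2.1)) + UU u ζ (2 * ((p.1.1 : ℤ) - p.2.2))) : ℝ) : ℂ) := by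
    rw [ofReal_sum]
    refine Finset.sum_congr rfl fun p hp => ?_
    exact Gam_quads S.op hu hc' hT _ _ _ _ (by exact_mod_cast (mem_quads.1 hp).2)
  have hGle : (∑ p ∈ quads M, Gam u (fun z => (ζ z : ℂ)) (2 * p.1.1) (2 * p.1.2) (-(2 * p.2.1))
      (-(2 * p.2.2))).re ≤ ε / 2 * T := by
    rw [hGsum, ofReal_re]
    refine (sum_quads_le (V := fun k => UU u ζ k) (fun k => UU_nonneg hζ0 k) M).trans ?_
    have hMc : (M : ℝ) = 2 * K := by rw [hM]; push_cast; ring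
    have hK0 : (0 : ℝ) ≤ K := by positivity
    calc 3 * ((M : ℝ) + 1) ^ 2 * Tot ≤ 3 * ((M : ℝ) + 1) ^ 2 * (ε / 192 * (8 * ((K : ℝ) + 1))) := by
          gcongr
      _ ≤ 3 * (4 * ((K : ℝ) + 1) ^ 2) * (ε / 192 * (8 * ((K : ℝ) + 1))) := by
          gcongr
          rw [hMc]
          nlinarith
      _ = ε / 2 * ((K : ℝ) + 1) ^ 3 := by ring
      _ ≤ ε / 2 * T := by gcongr
  -- the errors
  have hlim : Tendsto (fun n => ∑ p ∈ quads M, (YY h a φ u (fun z => (ζ z : ℂ)) n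
      (2 * p.1.1) (2 * p.1.2) (-(2 * p.2.1)) (-(2 * p.2.2))
      - YY h a φ u (fun z => (ζ z : ℂ)) n 0 0 0 0)) atTop (𝓝 0) := by
    have h0 : (0 : ℂ) = ∑ p ∈ quads M, (0 : ℂ) := by simp
    rw [h0]
    apply tendsto_finsetSum
    intro p hp
    have h1 := Err_zero (Z := 0) (YY_12 S L hT) (YY_23 S L hT) (YY_34 S L hT) (YY_mac S L hT)
      p.1.1 p.1.2 p.2.1 p.2.2 (mem_quads.mp hp).2
    unfold Asy Err at h1
    simpa using h1
  have hev := (Metric.tendsto_nhds.mp hlim) (ε / 2) (by positivity)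
  filter_upwards [hev] with n hn
  rw [dist_zero_right] at hn
  have hre := (Complex.abs_re_le_norm _).trans hn.le
  rw [Finset.sum_sub_distrib, Finset.sum_const, nsmul_eq_mul, Complex.sub_re] at hre
  have hcast : (((quads M).card : ℂ) * YY h a φ u (fun z => (ζ z : ℂ)) n 0 0 0 0).re
      = T * (YY h a φ u (fun z => (ζ z : ℂ)) n 0 0 0 0).re := by
    rw [hTdef]
    have : ((quads M).card : ℂ) = (((quads M).card : ℝ) : ℂ) := by push_cast; rfl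
    rw [this, Complex.re_ofReal_mul]
  rw [hcast] at hre
  have h0 := (abs_le.mp hre).2
  have h1 := S.quads_nonneg hT hζ0 M n
  have h2 : (∑ p ∈ quads M, YY h a φ u (fun z => (ζ z : ℂ)) n (2 * p.1.1) (2 * p.1.2)
      (-(2 * p.2.1)) (-(2 * p.2.2))).re
      = (∑ p ∈ quads M, ∫ z, (ζ z : ℂ) * (E h a φ (2 * p.1.1) n z * E h a φ (2 * p.1.2) n z
        * (E h a φ (-(2 * p.2.1)) n z * E h a φ (-(2 * p.2.2)) n z))).re
        - (∑ p ∈ quads M, Gam u (fun z => (ζ z : ℂ)) (2 * p.1.1) (2 * p.1.2) (-(2 * p.2.1))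
      (-(2 * p.2.2))).re := by
    rw [← Complex.sub_re, ← Finset.sum_sub_distrib]
    rfl
  have h3 : T * (-ε) ≤ T * (YY h a φ u (fun z => (ζ z : ℂ)) n 0 0 0 0).re := by
    have : ε / 2 ≤ ε / 2 * T := by nlinarith
    nlinarith
  have h4 : -ε ≤ (YY h a φ u (fun z => (ζ z : ℂ)) n 0 0 0 0).re :=
    le_of_mul_le_mul_left h3 (by linarith)
  have h5 : YY h a φ u (fun z => (ζ z : ℂ)) n 0 0 0 0
      = ((((∫ z, ζ z * (φ n z).re ^ 4) - 3 * UU u ζ 0 : ℝ)) : ℂ) := by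
    unfold YY
    rw [S.fourth_eq hT, Gam_zero S.op hu hc' hT, ofReal_sub]
  rw [h5, ofReal_re] at h4
  unfold UU at h4
  linarith

/-- **the local lower bound for the fourth moment**, for microlocal measures without directional
atoms -/
theorem local_atomless (S : Setup U g a h φ) {u : ℤ → ℂ → ℂ} (_ : ∀ k, Measurable (u k))
    (hu : ∀ k, LocL2 U (u k)) (hw : ∀ j m : ℤ, WLim U
      (fun n z => E h a φ j n z * E h a φ m n z) (fun z => (-1) ^ j * u (j + m) z))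
    (hc : ∀ k, ∀ᵐ z ∂((volume : Measure ℂ).restrict U), u (-k) z = (starRingEnd ℂ) (u k z))
    {ζ : ℂ → ℝ} (hζs : ContDiff ℝ ∞ ζ) (hζc : HasCompactSupport ζ) (hζU : tsupport ζ ⊆ U)
    (hζ0 : ∀ z, 0 ≤ ζ z)
    (hN : Tendsto (fun N : ℕ => (1 / (N : ℝ)) * ∑ k ∈ Finset.Ioo (-(N : ℤ)) (N : ℤ),
      ∫ z, ζ z * ‖u k z‖ ^ 2) atTop (𝓝 0)) {ε : ℝ} (hε : 0 < ε) :
    ∀ᶠ n in atTop, 3 * (∫ z, ζ z * ‖u 0 z‖ ^ 2) - ε ≤ ∫ z, ζ z * (φ n z).re ^ 4 :=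
  local_atomless' S hu hw hc hζs hζc hζU hζ0 hN hε

end

end QE
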