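import Mathlib

/-!
Wirtinger derivatives of functions on the complex plane, viewed as a real vector space.
-/

open Complex MeasureTheory Filter Topology
open scoped ContDiff

namespace QE

noncomputable section

/-- the Wirtinger derivative `∂/∂z` -/
def dz (f : ℂ → ℂ) (z : ℂ) : ℂ := (1 / 2) * (fderiv ℝ f z 1 - I * fderiv ℝ f z I)

/-- the Wirtinger derivative `∂/∂z̄` -/
def dzb (f : ℂ → ℂ) (z : ℂ) : ℂ := (1 / 2) * (fderiv ℝ f z 1 + I * fderiv ℝ f z I)

theorem dz_congr {f g : ℂ → ℂ} {z : ℂ} (h : f =ᶠ[𝓝 z] g) : dz f z = dz g z := by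
  unfold dz; rw [h.fderiv_eq]

theorem dzb_congr {f g : ℂ → ℂ} {z : ℂ} (h : f =ᶠ[𝓝 z] g) : dzb f z = dzb g z := by
  unfold dzb; rw [h.fderiv_eq]

theorem dz_congr_on {f g : ℂ → ℂ} {U : Set ℂ} (hU : IsOpen U) (h : ∀ z ∈ U, f z = g z) {z : ℂ}
    (hz : z ∈ U) : dz f z = dz g z :=
  dz_congr (Filter.eventuallyEq_of_mem (hU.mem_nhds hz) h)

theorem dzb_congr_on {f g : ℂ → ℂ} {U : Set ℂ} (hU : IsOpen U) (h : ∀ z ∈ U, f z = g z) {z : ℂ}
    (hz : z ∈ U) : dzb f z = dzb g z :=
  dzb_congr (Filter.eventuallyEq_of_mem (hU.mem_nhds hz) h)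

theorem dz_add {f g : ℂ → ℂ} {z : ℂ} (hf : DifferentiableAt ℝ f z) (hg : DifferentiableAt ℝ g z) :
    dz (fun w => f w + g w) z = dz f z + dz g z := by
  have : fderiv ℝ (fun w => f w + g w) z = fderiv ℝ f z + fderiv ℝ g z := fderiv_fun_add hf hg
  unfold dz; rw [this]; simp only [add_apply]; ring

theorem dzb_add {f g : ℂ → ℂ} {z : ℂ} (hf : DifferentiableAt ℝ f z) (hg : DifferentiableAt ℝ g z) :
    dzb (fun w => f w + g w) z = dzb f z + dzb g z := by
  have : fderiv ℝ (fun w => f w + g w) z = fderiv ℝ f z + fderiv ℝ g z := fderiv_fun_add hf hg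
  unfold dzb; rw [this]; simp only [add_apply]; ring

theorem dz_sub {f g : ℂ → ℂ} {z : ℂ} (hf : DifferentiableAt ℝ f z) (hg : DifferentiableAt ℝ g z) :
    dz (fun w => f w - g w) z = dz f z - dz g z := by
  have : fderiv ℝ (fun w => f w - g w) z = fderiv ℝ f z - fderiv ℝ g z := fderiv_fun_sub hf hg
  unfold dz; rw [this]; simp only [sub_apply]; ring

theorem dzb_sub {f g : ℂ → ℂ} {z : ℂ} (hf : DifferentiableAt ℝ f z) (hg : DifferentiableAt ℝ g z) :
    dzb (fun w => f w - g w) z = dzb f z - dzb g z := by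
  have : fderiv ℝ (fun w => f w - g w) z = fderiv ℝ f z - fderiv ℝ g z := fderiv_fun_sub hf hg
  unfold dzb; rw [this]; simp only [sub_apply]; ring

theorem dz_mul {f g : ℂ → ℂ} {z : ℂ} (hf : DifferentiableAt ℝ f z) (hg : DifferentiableAt ℝ g z) :
    dz (fun w => f w * g w) z = dz f z * g z + f z * dz g z := by
  have : fderiv ℝ (fun w => f w * g w) z = f z • fderiv ℝ g z + g z • fderiv ℝ f z :=
    fderiv_fun_mul hf hg
  unfold dz; rw [this]
  simp only [add_apply, smul_apply, smul_eq_mul]; ring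

theorem dzb_mul {f g : ℂ → ℂ} {z : ℂ} (hf : DifferentiableAt ℝ f z) (hg : DifferentiableAt ℝ g z) :
    dzb (fun w => f w * g w) z = dzb f z * g z + f z * dzb g z := by
  have : fderiv ℝ (fun w => f w * g w) z = f z • fderiv ℝ g z + g z • fderiv ℝ f z :=
    fderiv_fun_mul hf hg
  unfold dzb; rw [this]
  simp only [add_apply, smul_apply, smul_eq_mul]; ring

theorem dz_const_mul {f : ℂ → ℂ} {z : ℂ} (c : ℂ) (hf : DifferentiableAt ℝ f z) :
    dz (fun w => c * f w) z = c * dz f z := by
  have : fderiv ℝ (fun w => c * f w) z = c • fderiv ℝ f z := fderiv_const_mul hf c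
  unfold dz; rw [this]
  simp only [smul_apply, smul_eq_mul]; ring

theorem dzb_const_mul {f : ℂ → ℂ} {z : ℂ} (c : ℂ) (hf : DifferentiableAt ℝ f z) :
    dzb (fun w => c * f w) z = c * dzb f z := by
  have : fderiv ℝ (fun w => c * f w) z = c • fderiv ℝ f z := fderiv_const_mul hf c
  unfold dzb; rw [this]
  simp only [smul_apply, smul_eq_mul]; ring

theorem dz_const (c : ℂ) (z : ℂ) : dz (fun _ => c) z = 0 := by
  unfold dz; simp

theorem dzb_const (c : ℂ) (z : ℂ) : dzb (fun _ => c) z = 0 := by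
  unfold dzb; simp

theorem fderiv_conj {f : ℂ → ℂ} {z : ℂ} (hf : DifferentiableAt ℝ f z) (v : ℂ) :
    fderiv ℝ (fun w => (starRingEnd ℂ) (f w)) z v = (starRingEnd ℂ) (fderiv ℝ f z v) := by
  have h : (fun w => (starRingEnd ℂ) (f w)) = conjCLE ∘ f := by
    funext w; simp
  rw [h, ContinuousLinearEquiv.comp_fderiv]; simp

theorem dz_conj {f : ℂ → ℂ} {z : ℂ} (hf : DifferentiableAt ℝ f z) :
    dz (fun w => (starRingEnd ℂ) (f w)) z = (starRingEnd ℂ) (dzb f z) := by
  unfold dz dzb; rw [fderiv_conj hf, fderiv_conj hf]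
  simp only [map_mul, map_add, map_div₀, map_one, map_ofNat, conj_I]; ring

theorem dzb_conj {f : ℂ → ℂ} {z : ℂ} (hf : DifferentiableAt ℝ f z) :
    dzb (fun w => (starRingEnd ℂ) (f w)) z = (starRingEnd ℂ) (dz f z) := by
  unfold dz dzb; rw [fderiv_conj hf, fderiv_conj hf]
  simp only [map_mul, map_sub, map_div₀, map_one, map_ofNat, conj_I]; ring

/-- smoothness of the Wirtinger derivatives on open sets -/
theorem contDiffOn_dz {f : ℂ → ℂ} {U : Set ℂ} (hU : IsOpen U) (hf : ContDiffOn ℝ ∞ f U) :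
    ContDiffOn ℝ ∞ (dz f) U := by
  have h1 : ContDiffOn ℝ ∞ (fderiv ℝ f) U := hf.fderiv_of_isOpen hU (by simp)
  unfold dz
  exact contDiffOn_const.mul ((h1.clm_apply contDiffOn_const).sub
    (contDiffOn_const.mul (h1.clm_apply contDiffOn_const)))

theorem contDiffOn_dzb {f : ℂ → ℂ} {U : Set ℂ} (hU : IsOpen U) (hf : ContDiffOn ℝ ∞ f U) :
    ContDiffOn ℝ ∞ (dzb f) U := by
  have h1 : ContDiffOn ℝ ∞ (fderiv ℝ f) U := hf.fderiv_of_isOpen hU (by simp)
  unfold dzb
  exact contDiffOn_const.mul ((h1.clm_apply contDiffOn_const).add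
    (contDiffOn_const.mul (h1.clm_apply contDiffOn_const)))

theorem contDiff_dz {f : ℂ → ℂ} (hf : ContDiff ℝ ∞ f) : ContDiff ℝ ∞ (dz f) := by
  rw [← contDiffOn_univ] at hf ⊢; exact contDiffOn_dz isOpen_univ hf

theorem contDiff_dzb {f : ℂ → ℂ} (hf : ContDiff ℝ ∞ f) : ContDiff ℝ ∞ (dzb f) := by
  rw [← contDiffOn_univ] at hf ⊢; exact contDiffOn_dzb isOpen_univ hf

/-- the two Wirtinger derivatives commute -/
theorem dz_dzb_comm {f : ℂ → ℂ} {z : ℂ} (hf : ContDiffAt ℝ 2 f z) :
    dz (dzb f) z = dzb (dz f) z := by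
  have hd : ContDiffAt ℝ 1 (fderiv ℝ f) z := hf.fderiv_right (m := 1) (by norm_num)
  have hd' : DifferentiableAt ℝ (fderiv ℝ f) z := hd.differentiableAt (by norm_num)
  have hsym : ∀ v w : ℂ, fderiv ℝ (fderiv ℝ f) z v w = fderiv ℝ (fderiv ℝ f) z w v :=
    fun v w => (hf.isSymmSndFDerivAt (by simp)).eq v w
  have key : ∀ v w : ℂ, fderiv ℝ (fun x => fderiv ℝ f x v) z w = fderiv ℝ (fderiv ℝ f) z w v := by
    intro v w
    rw [fderiv_clm_apply hd' (differentiableAt_const v)]
    simp
  have hv : ∀ v : ℂ, DifferentiableAt ℝ (fun x => fderiv ℝ f x v) z := fun v =>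
    hd'.clm_apply (differentiableAt_const v)
  have e1 : ∀ w, fderiv ℝ (dzb f) z w
      = (1 / 2) * (fderiv ℝ (fderiv ℝ f) z w 1 + I * fderiv ℝ (fderiv ℝ f) z w I) := by
    intro w
    have : fderiv ℝ (dzb f) z = (1 / 2 : ℂ) • (fderiv ℝ (fun x => fderiv ℝ f x 1) z
        + I • fderiv ℝ (fun x => fderiv ℝ f x I) z) := by
      have hs : DifferentiableAt ℝ (fun x => fderiv ℝ f x 1 + I * fderiv ℝ f x I) z :=
        (hv 1).add ((hv I).const_mul I)
      have e : dzb f = fun x => (1 / 2 : ℂ) * (fderiv ℝ f x 1 + I * fderiv ℝ f x I) := rfl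
      rw [e, fderiv_const_mul hs,
        fderiv_fun_add (hv 1) ((hv I).const_mul I), fderiv_const_mul (hv I)]
    rw [this]
    simp only [smul_apply, add_apply, smul_eq_mul, key]
  have e2 : ∀ w, fderiv ℝ (dz f) z w
      = (1 / 2) * (fderiv ℝ (fderiv ℝ f) z w 1 - I * fderiv ℝ (fderiv ℝ f) z w I) := by
    intro w
    have : fderiv ℝ (dz f) z = (1 / 2 : ℂ) • (fderiv ℝ (fun x => fderiv ℝ f x 1) z
        - I • fderiv ℝ (fun x => fderiv ℝ f x I) z) := by
      have hs : DifferentiableAt ℝ (fun x => fderiv ℝ f x 1 - I * fderiv ℝ f x I) z :=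
        (hv 1).sub ((hv I).const_mul I)
      have e : dz f = fun x => (1 / 2 : ℂ) * (fderiv ℝ f x 1 - I * fderiv ℝ f x I) := rfl
      rw [e, fderiv_const_mul hs,
        fderiv_fun_sub (hv 1) ((hv I).const_mul I), fderiv_const_mul (hv I)]
    rw [this]
    simp only [smul_apply, sub_apply, smul_eq_mul, key]
  have u1 : dz (dzb f) z = (1 / 2) * (fderiv ℝ (dzb f) z 1 - I * fderiv ℝ (dzb f) z I) := rfl
  have u2 : dzb (dz f) z = (1 / 2) * (fderiv ℝ (dz f) z 1 + I * fderiv ℝ (dz f) z I) := rfl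
  rw [u1, u2, e1, e1, e2, e2, hsym 1 I]
  ring

/-- a test function on the open set `U` -/
structure Test (U : Set ℂ) (ζ : ℂ → ℂ) : Prop where
  smooth : ContDiff ℝ ∞ ζ
  supp : HasCompactSupport ζ
  sub : tsupport ζ ⊆ U

theorem tsupport_dz_subset (f : ℂ → ℂ) : tsupport (dz f) ⊆ tsupport f := by
  have : Function.support (dz f) ⊆ Function.support (fderiv ℝ f) := by
    intro z hz hz0
    apply hz
    simp only [dz, hz0]
    simp
  exact (closure_mono this).trans (tsupport_fderiv_subset ℝ)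

theorem tsupport_dzb_subset (f : ℂ → ℂ) : tsupport (dzb f) ⊆ tsupport f := by
  have : Function.support (dzb f) ⊆ Function.support (fderiv ℝ f) := by
    intro z hz hz0
    apply hz
    simp only [dzb, hz0]
    simp
  exact (closure_mono this).trans (tsupport_fderiv_subset ℝ)

theorem _root_.HasCompactSupport.dz {f : ℂ → ℂ} (hf : HasCompactSupport f) :
    HasCompactSupport (QE.dz f) :=
  hf.of_isClosed_subset (isClosed_tsupport _) (tsupport_dz_subset f)

theorem _root_.HasCompactSupport.dzb {f : ℂ → ℂ} (hf : HasCompactSupport f) :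
    HasCompactSupport (QE.dzb f) :=
  hf.of_isClosed_subset (isClosed_tsupport _) (tsupport_dzb_subset f)

theorem Test.dz {U : Set ℂ} {ζ : ℂ → ℂ} (h : Test U ζ) : Test U (QE.dz ζ) :=
  ⟨contDiff_dz h.smooth, h.supp.dz, (tsupport_dz_subset ζ).trans h.sub⟩

theorem Test.dzb {U : Set ℂ} {ζ : ℂ → ℂ} (h : Test U ζ) : Test U (QE.dzb ζ) :=
  ⟨contDiff_dzb h.smooth, h.supp.dzb, (tsupport_dzb_subset ζ).trans h.sub⟩

/-- a test function times a function smooth on `U` is a test function -/
theorem Test.mul {U : Set ℂ} (hU : IsOpen U) {ζ f : ℂ → ℂ} (h : Test U ζ)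
    (hf : ContDiffOn ℝ ∞ f U) : Test U (fun z => ζ z * f z) := by
  refine ⟨?_, h.supp.mul_right, (closure_mono ?_).trans h.sub⟩
  · rw [contDiff_iff_contDiffAt]
    intro z
    by_cases hz : z ∈ U
    · exact h.smooth.contDiffAt.mul (hf.contDiffAt (hU.mem_nhds hz))
    · have hz' : z ∉ tsupport ζ := fun hh => hz (h.sub hh)
      have : (fun z => ζ z * f z) =ᶠ[𝓝 z] fun _ => 0 := by
        have := notMem_tsupport_iff_eventuallyEq.mp hz'
        filter_upwards [this] with w hw
        simp [hw]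
      exact contDiffAt_const.congr_of_eventuallyEq this
  · intro z hz
    simp only [Function.mem_support] at hz ⊢
    intro h0; exact hz (by simp [h0])

theorem Test.mono {U V : Set ℂ} {ζ : ℂ → ℂ} (h : Test U ζ) (hUV : U ⊆ V) : Test V ζ :=
  ⟨h.smooth, h.supp, h.sub.trans hUV⟩

theorem Test.conj {U : Set ℂ} {ζ : ℂ → ℂ} (h : Test U ζ) :
    Test U (fun z => (starRingEnd ℂ) (ζ z)) := by
  refine ⟨conjCLE.contDiff.comp h.smooth, h.supp.comp_left (map_zero _), (closure_mono ?_).trans h.sub⟩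
  intro z hz
  simp only [Function.mem_support] at hz ⊢
  intro h0; exact hz (by simp [h0])

/-- integral of a derivative of a compactly supported function -/
theorem integral_fderiv_eq_zero {f : ℂ → ℂ} (hf : ContDiff ℝ ∞ f) (hc : HasCompactSupport f)
    (v : ℂ) : ∫ z, fderiv ℝ f z v = 0 := by
  have h := integral_mul_fderiv_eq_neg_fderiv_mul_of_integrable (𝕜 := ℂ) (μ := (volume : Measure ℂ))
    (f := fun _ : ℂ => (1 : ℂ)) (g := f) (v := v)
  have hfi : Integrable (fun z => fderiv ℝ f z v) := by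
    have hcont : Continuous (fun z => fderiv ℝ f z v) :=
      (hf.continuous_fderiv (by simp)).clm_apply continuous_const
    exact hcont.integrable_of_hasCompactSupport (hc.fderiv_apply (𝕜 := ℝ) v)
  have hfi2 : Integrable f := hf.continuous.integrable_of_hasCompactSupport hc
  have h2 := h (by simp) (by simpa using hfi) (by simpa using hfi2) (fun x _ => by fun_prop)
    (fun x _ => hf.differentiable (by simp) x)
  simpa using h2

theorem integral_dz_eq_zero {f : ℂ → ℂ} (hf : ContDiff ℝ ∞ f) (hc : HasCompactSupport f) :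
    ∫ z, dz f z = 0 := by
  have hi : ∀ v : ℂ, Integrable (fun z => fderiv ℝ f z v) := fun v =>
    ((hf.continuous_fderiv (by simp)).clm_apply continuous_const).integrable_of_hasCompactSupport
      (hc.fderiv_apply (𝕜 := ℝ) v)
  unfold dz
  rw [integral_const_mul, integral_sub (hi 1) ((hi I).const_mul I), integral_const_mul,
    integral_fderiv_eq_zero hf hc, integral_fderiv_eq_zero hf hc]
  simp

theorem integral_dzb_eq_zero {f : ℂ → ℂ} (hf : ContDiff ℝ ∞ f) (hc : HasCompactSupport f) :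
    ∫ z, dzb f z = 0 := by
  have hi : ∀ v : ℂ, Integrable (fun z => fderiv ℝ f z v) := fun v =>
    ((hf.continuous_fderiv (by simp)).clm_apply continuous_const).integrable_of_hasCompactSupport
      (hc.fderiv_apply (𝕜 := ℝ) v)
  unfold dzb
  rw [integral_const_mul, integral_add (hi 1) ((hi I).const_mul I), integral_const_mul,
    integral_fderiv_eq_zero hf hc, integral_fderiv_eq_zero hf hc]
  simp

/-- a function which vanishes off a compact subset of `U` and is continuous on `U` -/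
theorem Test.integrable_mul {U : Set ℂ} (hU : IsOpen U) {ζ f : ℂ → ℂ} (h : Test U ζ)
    (hf : ContinuousOn f U) : Integrable (fun z => ζ z * f z) := by
  have hc : Continuous (fun z => ζ z * f z) := by
    rw [continuous_iff_continuousAt]
    intro z
    by_cases hz : z ∈ U
    · exact h.smooth.continuous.continuousAt.mul (hf.continuousAt (hU.mem_nhds hz))
    · have hz' : z ∉ tsupport ζ := fun hh => hz (h.sub hh)
      have : (fun z => ζ z * f z) =ᶠ[𝓝 z] fun _ => 0 := by
        have := notMem_tsupport_iff_eventuallyEq.mp hz'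
        filter_upwards [this] with w hw
        simp [hw]
      exact (continuousAt_const).congr this.symm
  exact hc.integrable_of_hasCompactSupport h.supp.mul_right

/-- integration by parts on `U` -/
theorem integral_mul_dz {U : Set ℂ} (hU : IsOpen U) {ζ f : ℂ → ℂ} (h : Test U ζ)
    (hf : ContDiffOn ℝ ∞ f U) : ∫ z, ζ z * dz f z = - ∫ z, dz ζ z * f z := by
  have ht := h.mul hU hf
  have h0 := integral_dz_eq_zero ht.smooth ht.supp
  have he : ∀ z, dz (fun z => ζ z * f z) z = dz ζ z * f z + ζ z * dz f z := by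
    intro z
    by_cases hz : z ∈ U
    · exact dz_mul (h.smooth.differentiable (by simp) z)
        ((hf.contDiffAt (hU.mem_nhds hz)).differentiableAt (by simp))
    · have hz' : z ∉ tsupport ζ := fun hh => hz (h.sub hh)
      have e1 : (fun z => ζ z * f z) =ᶠ[𝓝 z] fun _ => 0 := by
        have := notMem_tsupport_iff_eventuallyEq.mp hz'
        filter_upwards [this] with w hw
        simp [hw]
      have e2 : ζ =ᶠ[𝓝 z] fun _ => 0 := notMem_tsupport_iff_eventuallyEq.mp hz'
      rw [dz_congr e1, dz_congr e2, dz_const, e2.self_of_nhds]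
      simp
  rw [integral_congr_ae (Filter.Eventually.of_forall he), integral_add
    (h.dz.integrable_mul hU hf.continuousOn)
    (h.integrable_mul hU (contDiffOn_dz hU hf).continuousOn)] at h0
  linear_combination h0

theorem integral_mul_dzb {U : Set ℂ} (hU : IsOpen U) {ζ f : ℂ → ℂ} (h : Test U ζ)
    (hf : ContDiffOn ℝ ∞ f U) : ∫ z, ζ z * dzb f z = - ∫ z, dzb ζ z * f z := by
  have ht := h.mul hU hf
  have h0 := integral_dzb_eq_zero ht.smooth ht.supp
  have he : ∀ z, dzb (fun z => ζ z * f z) z = dzb ζ z * f z + ζ z * dzb f z := by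
    intro z
    by_cases hz : z ∈ U
    · exact dzb_mul (h.smooth.differentiable (by simp) z)
        ((hf.contDiffAt (hU.mem_nhds hz)).differentiableAt (by simp))
    · have hz' : z ∉ tsupport ζ := fun hh => hz (h.sub hh)
      have e1 : (fun z => ζ z * f z) =ᶠ[𝓝 z] fun _ => 0 := by
        have := notMem_tsupport_iff_eventuallyEq.mp hz'
        filter_upwards [this] with w hw
        simp [hw]
      have e2 : ζ =ᶠ[𝓝 z] fun _ => 0 := notMem_tsupport_iff_eventuallyEq.mp hz'
      rw [dzb_congr e1, dzb_congr e2, dzb_const, e2.self_of_nhds]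
      simp
  rw [integral_congr_ae (Filter.Eventually.of_forall he), integral_add
    (h.dzb.integrable_mul hU hf.continuousOn)
    (h.integrable_mul hU (contDiffOn_dzb hU hf).continuousOn)] at h0
  linear_combination h0

end

end QE
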